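import Pool.Agent.H80.LD.Defs

/-!
# AStr (project MP_816883_LD, part A): straightening of an almost linear function

* `exists_vec`: `ContinuousLinearMap.exists_lt_apply_of_lt_opNorm` with `‖e‖/2`: `‖x‖ < 1`, `‖e‖/2 < ‖e x‖`; `w = (e x)⁻¹ • x`.
* `straighten`: let `π` be the radial retraction onto `closedBall 0 R`, `π u = u` if `‖u‖ ≤ R`, else `(R/‖u‖) • u`; it is
  `2`-Lipschitz (both points outside: `R/‖x‖ (‖x - y‖ + |‖y‖ - ‖x‖|)`; `x` inside, `y` outside: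
  `‖x - y‖ + (‖y‖ - R) ≤ 2 ‖x - y‖`). `ψ u = φ (π u) - e (π u)` is `2η`-Lipschitz (mean value inequality on the convex
  `closedBall 0 R`, `Convex.norm_image_sub_le_of_norm_fderiv_le` for `φ - e`), `‖ψ u‖ ≤ η + η R`. `Θ u = u + ψ u • w`:
  `‖(Θ u - u) - (Θ v - v)‖ ≤ 2 η M ‖u - v‖ ≤ ‖u - v‖/2`, so `Θ` is bijective (Banach fixed point, or
  `ApproximatesLinearOn.toHomeomorph` on `univ` with `f' = ContinuousLinearEquiv.refl`), `2`-Lipschitz with
  `2`-Lipschitz inverse. For `‖u‖ ≤ R`: `e (Θ u) = e u + (φ u - e u) = φ u`.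
-/

open Filter Topology Metric

namespace H80.LD

variable {V : Type*} [NormedAddCommGroup V] [NormedSpace ℂ V]

theorem exists_vec (e : V →L[ℂ] ℂ) (he : 0 < ‖e‖) : ∃ w : V, e w = 1 ∧ ‖w‖ ≤ 2 / ‖e‖ := by
  obtain ⟨x, hx1, hx2⟩ := ContinuousLinearMap.exists_lt_apply_of_lt_opNorm e
    (r := ‖e‖ / 2) (by linarith)
  have hpos : 0 < ‖e x‖ := by linarith
  have hne : e x ≠ 0 := norm_pos_iff.1 hpos
  refine ⟨(e x)⁻¹ • x, ?_, ?_⟩
  · rw [map_smul, smul_eq_mul, inv_mul_cancel₀ hne]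
  · rw [norm_smul, norm_inv, inv_mul_eq_div, div_le_div_iff₀ hpos he]
    nlinarith [norm_nonneg x]

/-- the radial retraction. -/
noncomputable def astr_pi (R : ℝ) (u : V) : V := ((R / max R ‖u‖ : ℝ) : ℂ) • u

theorem astr_pi_eq {R : ℝ} (hR : 0 < R) (u : V) (hu : ‖u‖ ≤ R) : astr_pi R u = u := by
  rw [astr_pi, max_eq_left hu, div_self hR.ne', Complex.ofReal_one, one_smul]

theorem astr_pi_norm {R : ℝ} (hR : 0 < R) (u : V) : ‖astr_pi R u‖ ≤ R := by
  have hm : 0 < max R ‖u‖ := lt_max_of_lt_left hR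
  have h0 : 0 ≤ R / max R ‖u‖ := by positivity
  rw [astr_pi, norm_smul, Complex.norm_real, Real.norm_of_nonneg h0, div_mul_eq_mul_div,
    div_le_iff₀ hm]
  exact mul_le_mul_of_nonneg_left (le_max_right _ _) hR.le

theorem astr_pi_lip {R : ℝ} (hR : 0 < R) (u v : V) :
    ‖astr_pi R u - astr_pi R v‖ ≤ 2 * ‖u - v‖ := by
  set a := max R ‖u‖ with ha
  set b := max R ‖v‖ with hb
  have ha0 : 0 < a := lt_max_of_lt_left hR
  have hb0 : 0 < b := lt_max_of_lt_left hR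
  have hRa : R / a ≤ 1 := by
    rw [div_le_one ha0]
    exact le_max_left _ _
  have hRa0 : 0 ≤ R / a := by positivity
  have hvb : ‖v‖ / b ≤ 1 := by
    rw [div_le_one hb0]
    exact le_max_right _ _
  have hvb0 : 0 ≤ ‖v‖ / b := by positivity
  have hab : |b - a| ≤ ‖u - v‖ := by
    have h1 : |b - a| ≤ |‖v‖ - ‖u‖| := by
      rw [ha, hb]
      have := abs_max_sub_max_le_max R ‖v‖ R ‖u‖
      rw [sub_self, abs_zero] at this
      exact this.trans (max_le (abs_nonneg _) le_rfl)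
    refine h1.trans ?_
    rw [norm_sub_rev]
    exact abs_norm_sub_norm_le v u
  have e : astr_pi R u - astr_pi R v =
      ((R / a : ℝ) : ℂ) • (u - v) + (((R / a) * ((b - a) / b) : ℝ) : ℂ) • v := by
    have h2 : R / a * ((b - a) / b) = R / a - R / b := by
      field_simp
    rw [h2, astr_pi, astr_pi, ← ha, ← hb, smul_sub, Complex.ofReal_sub, sub_smul]
    abel
  rw [e]
  have h3 : ‖((R / a : ℝ) : ℂ) • (u - v)‖ ≤ ‖u - v‖ := by
    rw [norm_smul, Complex.norm_real, Real.norm_of_nonneg hRa0]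
    calc R / a * ‖u - v‖ ≤ 1 * ‖u - v‖ := mul_le_mul_of_nonneg_right hRa (norm_nonneg _)
      _ = ‖u - v‖ := one_mul _
  have h4 : ‖(((R / a) * ((b - a) / b) : ℝ) : ℂ) • v‖ ≤ ‖u - v‖ := by
    rw [norm_smul, Complex.norm_real, Real.norm_eq_abs, abs_mul, abs_of_nonneg hRa0, abs_div,
      abs_of_pos hb0]
    calc R / a * (|b - a| / b) * ‖v‖ = R / a * (|b - a| * (‖v‖ / b)) := by ring
      _ ≤ 1 * (‖u - v‖ * 1) := by
        apply mul_le_mul hRa _ (by positivity) (by norm_num)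
        exact mul_le_mul hab hvb hvb0 (norm_nonneg _)
      _ = ‖u - v‖ := by ring
  calc ‖((R / a : ℝ) : ℂ) • (u - v) + (((R / a) * ((b - a) / b) : ℝ) : ℂ) • v‖
      ≤ ‖((R / a : ℝ) : ℂ) • (u - v)‖ + ‖(((R / a) * ((b - a) / b) : ℝ) : ℂ) • v‖ := norm_add_le _ _
    _ ≤ ‖u - v‖ + ‖u - v‖ := add_le_add h3 h4
    _ = 2 * ‖u - v‖ := by ring

theorem astr_fix [CompleteSpace V] (s : V → V) (hs : ∀ u v, ‖s u - s v‖ ≤ ‖u - v‖ / 2) :
    ∃ Θi : V → V, (∀ u, Θi (u + s u) = u) ∧ (∀ v, Θi v + s (Θi v) = v) := by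
  have hc : ∀ v : V, ContractingWith (1 / 2) (fun u => v - s u) := by
    intro v
    refine ⟨?_, ?_⟩
    · rw [← NNReal.coe_lt_coe]
      norm_num
    · apply LipschitzWith.of_dist_le_mul
      intro x y
      rw [dist_eq_norm, dist_eq_norm]
      have h1 : v - s x - (v - s y) = -(s x - s y) := by abel
      rw [h1, norm_neg]
      refine (hs x y).trans ?_
      have : ((1 / 2 : NNReal) : ℝ) = 1 / 2 := by norm_num
      rw [this]
      linarith
  refine ⟨fun v => ContractingWith.fixedPoint (fun u => v - s u) (hc v), ?_, ?_⟩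
  · intro u
    symm
    apply ContractingWith.fixedPoint_unique
    show u + s u - s u = u
    abel
  · intro v
    have h1 := ContractingWith.fixedPoint_isFixedPt (hc v)
    have h2 : v - s (ContractingWith.fixedPoint (fun u => v - s u) (hc v)) =
      ContractingWith.fixedPoint (fun u => v - s u) (hc v) := h1
    show ContractingWith.fixedPoint (fun u => v - s u) (hc v) +
      s (ContractingWith.fixedPoint (fun u => v - s u) (hc v)) = v
    nth_rewrite 1 [← h2]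
    abel

theorem straighten [CompleteSpace V] (e : V →L[ℂ] ℂ) (w : V) {M η R : ℝ} (hR : 0 < R)
    (hη : 0 ≤ η) (hM : ‖w‖ ≤ M) (hηM : 4 * η * M ≤ 1) (hw : e w = 1) (φ : V → ℂ)
    (h0 : ‖φ 0‖ ≤ η) (hd : ∀ u ∈ closedBall (0 : V) R, DifferentiableAt ℂ φ u)
    (hφ : ∀ u ∈ closedBall (0 : V) R, ‖fderiv ℂ φ u - e‖ ≤ η) :
    ∃ Θ Θi : V → V, (∀ u, Θi (Θ u) = u) ∧ (∀ v, Θ (Θi v) = v) ∧
      (∀ u v, ‖Θ u - Θ v‖ ≤ 2 * ‖u - v‖) ∧ (∀ u v, ‖Θi u - Θi v‖ ≤ 2 * ‖u - v‖) ∧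
      (∀ u, ‖Θ u - u‖ ≤ M * (η * (1 + R))) ∧ (∀ v, ‖Θi v - v‖ ≤ M * (η * (1 + R))) ∧
      (∀ u ∈ closedBall (0 : V) R, e (Θ u) = φ u) ∧ (φ 0 = 0 → Θ 0 = 0) := by
  have hM0 : 0 ≤ M := (norm_nonneg w).trans hM
  set g : V → ℂ := fun u => φ u - e u with hg
  have hgd : ∀ u ∈ closedBall (0 : V) R, DifferentiableAt ℂ g u := fun u hu =>
    (hd u hu).sub e.differentiableAt
  have hgf : ∀ u ∈ closedBall (0 : V) R, ‖fderiv ℂ g u‖ ≤ η := by
    intro u hu
    have h1 : fderiv ℂ g u = fderiv ℂ φ u - e := by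
      have h2 : HasFDerivAt g (fderiv ℂ φ u - e) u := (hd u hu).hasFDerivAt.sub e.hasFDerivAt
      exact h2.fderiv
    rw [h1]
    exact hφ u hu
  have hgl : ∀ x ∈ closedBall (0 : V) R, ∀ y ∈ closedBall (0 : V) R,
      ‖g y - g x‖ ≤ η * ‖y - x‖ := fun x hx y hy =>
    Convex.norm_image_sub_le_of_norm_fderiv_le hgd hgf (convex_closedBall 0 R) hx hy
  have hπ : ∀ u : V, astr_pi R u ∈ closedBall (0 : V) R := fun u => by
    rw [mem_closedBall_zero_iff]
    exact astr_pi_norm hR u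
  have h0m : (0 : V) ∈ closedBall (0 : V) R := mem_closedBall_self hR.le
  set ψ : V → ℂ := fun u => g (astr_pi R u) with hψ
  have hψl : ∀ u v, ‖ψ u - ψ v‖ ≤ 2 * η * ‖u - v‖ := by
    intro u v
    calc ‖ψ u - ψ v‖ ≤ η * ‖astr_pi R u - astr_pi R v‖ := hgl _ (hπ v) _ (hπ u)
      _ ≤ η * (2 * ‖u - v‖) := mul_le_mul_of_nonneg_left (astr_pi_lip hR u v) hη
      _ = 2 * η * ‖u - v‖ := by ring
  have hψb : ∀ u, ‖ψ u‖ ≤ η * (1 + R) := by
    intro u
    have h1 := hgl 0 h0m _ (hπ u)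
    have h2 : g 0 = φ 0 := by
      rw [hg]
      simp
    rw [h2, sub_zero] at h1
    have h3 : ‖ψ u‖ ≤ ‖ψ u - φ 0‖ + ‖φ 0‖ := by
      calc ‖ψ u‖ = ‖(ψ u - φ 0) + φ 0‖ := by rw [sub_add_cancel]
        _ ≤ _ := norm_add_le _ _
    have h4 : η * ‖astr_pi R u‖ ≤ η * R := mul_le_mul_of_nonneg_left (astr_pi_norm hR u) hη
    have h5 : ‖ψ u - φ 0‖ ≤ η * ‖astr_pi R u‖ := h1
    linarith
  set s : V → V := fun u => ψ u • w with hs
  have hsb : ∀ u, ‖s u‖ ≤ M * (η * (1 + R)) := by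
    intro u
    show ‖ψ u • w‖ ≤ _
    rw [norm_smul, mul_comm]
    exact mul_le_mul hM (hψb u) (norm_nonneg _) hM0
  have hsl : ∀ u v, ‖s u - s v‖ ≤ ‖u - v‖ / 2 := by
    intro u v
    show ‖ψ u • w - ψ v • w‖ ≤ _
    rw [← sub_smul, norm_smul]
    calc ‖ψ u - ψ v‖ * ‖w‖ ≤ (2 * η * ‖u - v‖) * M :=
          mul_le_mul (hψl u v) hM (norm_nonneg _) (by positivity)
      _ = (4 * η * M) * (‖u - v‖ / 2) := by ring
      _ ≤ 1 * (‖u - v‖ / 2) := mul_le_mul_of_nonneg_right hηM (by positivity)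
      _ = ‖u - v‖ / 2 := one_mul _
  obtain ⟨Θi, hi1, hi2⟩ := astr_fix s hsl
  refine ⟨fun u => u + s u, Θi, hi1, hi2, ?_, ?_, ?_, ?_, ?_, ?_⟩
  · intro u v
    show ‖u + s u - (v + s v)‖ ≤ _
    have h1 : u + s u - (v + s v) = (u - v) + (s u - s v) := by abel
    rw [h1]
    have h2 := norm_add_le (u - v) (s u - s v)
    have h3 := hsl u v
    have h4 := norm_nonneg (u - v)
    linarith
  · intro u v
    have h1 := hi2 u
    have h2 := hi2 v
    set a := Θi u with ha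
    set b := Θi v with hb
    have h3 : a - b = (u - v) - (s a - s b) := by
      rw [← h1, ← h2]
      abel
    have h4 := hsl a b
    have h5 : ‖a - b‖ ≤ ‖u - v‖ + ‖s a - s b‖ := by
      nth_rewrite 1 [h3]
      exact norm_sub_le _ _
    linarith
  · intro u
    show ‖u + s u - u‖ ≤ _
    rw [add_sub_cancel_left]
    exact hsb u
  · intro v
    have h1 : Θi v - v = -s (Θi v) := by
      nth_rewrite 2 [← hi2 v]
      abel
    rw [h1, norm_neg]
    exact hsb _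
  · intro u hu
    have hun : ‖u‖ ≤ R := mem_closedBall_zero_iff.1 hu
    show e (u + ψ u • w) = φ u
    have h1 : ψ u = φ u - e u := by
      show g (astr_pi R u) = _
      rw [astr_pi_eq hR u hun]
    rw [map_add, map_smul, hw, h1, smul_eq_mul, mul_one]
    ring
  · intro h
    show (0 : V) + ψ 0 • w = 0
    have h1 : ψ 0 = 0 := by
      show g (astr_pi R 0) = 0
      rw [astr_pi_eq hR 0 (by rw [norm_zero]; exact hR.le)]
      show φ 0 - e 0 = 0
      rw [h, map_zero, sub_zero]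
    rw [h1, zero_smul, add_zero]

end H80.LD
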