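import Pool.Agent.H80.LD.ARes
import Pool.Agent.H80.LD.AStr

/-!
# AApp (project MP_816883_LD, part A): local approximants of a coarse equivalence

Given `R ≥ 1`, `ε > 0`: `M = 8 L`, `R2 = 2 L (R + 3)`, choose `η > 0` with `η ≤ 1/(64 L)` (so `4 (2η) M ≤ 1`), `η ≤ 1/4`, `2 M η (1 + R2) ≤ 1`
and `(1 + L) (2 M η (1 + R2)) + η ≤ ε`. `δ` from `cpt` (constants `L`, `R`, `η`; replace `δ` by `min δ 1`? not needed: `‖S 0‖ ≤ ε`-type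
bounds come from `S1`: see below), `K0` from `resc`, also `K0 ≥ L/η`. For `K ≥ K0`: `w` with `w K R2 ≤ η`, `w K R2 ≤ 1`,
`CR f g A B L w r`, `r0 ≤ r/(2 L + 2)` and the `r0` of `resc`. For `x0`: `κ = ‖f'(x0)‖`, `s = K κ`, `e = κ⁻¹ f'(x0)`, `e' = κ⁻¹ g'(A x0)`,
`1/(2L) ≤ ‖e'‖` (`dA'`). `cpt` gives `T1, S1, e1, e1'`. `‖e1‖ ≥ 1 - η ≥ 1/2`, `‖e1'‖ ≥ 1/(2L) - η ≥ 1/(4L)`; `exists_vec`: `w1, w1'` of norm
`≤ 8 L`. `φ = rsf f x0 s κ (f x0)`, `γ = rsf g (A x0) s κ (f x0)`: `Reg.resc`: `‖φ' - e1‖ ≤ w K R2 + η ≤ 2η`, `‖γ' - e1'‖ ≤ 2η`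
on `closedBall 0 R2`, `φ 0 = 0`, `‖γ 0‖ ≤ L/K ≤ η`. `straighten`: `Θ, Θi` (for `φ, e1`), `Ω, Ωi` (for `γ, e1'`), both `τ`-close to the
identity, `τ = M (2η (1 + R2)) ≤ 1`.
`h x = A x0 + s Ωi (T1 (Θ (s⁻¹ (x - x0))))`, `h' y = x0 + s Θi (S1 (Ω (s⁻¹ (y - A x0))))`. Lipschitz constants `2 L 2`.
For `x ∈ ball x0 (R s)`, `u = s⁻¹ (x - x0)`, `v = Ωi (T1 (Θ u))`: `‖T1 0‖ ≤ η` (`rsA A x0 s 0 = 0`), `‖v‖ ≤ L (R + τ) + η + τ ≤ R2`,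
`φ u = e1 (Θ u) = e1' (T1 (Θ u)) = e1' (Ω v) = γ v`, so `f x = g (h x)`. `‖v - rsA A x0 s u‖ ≤ τ + L τ + η ≤ ε` and `A x = A x0 + s rsA A x0 s u`.
For `y`: `v = s⁻¹ (y - A x0)`, `u = Θi (S1 (Ω v))`: `S1 (T1 0) = 0` gives `‖S1 0‖ = ‖S1 0 - S1 (T1 0)‖ ≤ L ‖T1 0‖ ≤ L η`, so `‖u‖ ≤ L (R + τ) + L η + τ ≤ R2`,
`γ v = e1' (Ω v) = e1 (S1 (Ω v)) = e1 (Θ u) = φ u` (`e1' (T1 z) = e1 z` with `z = S1 (Ω v)`), `‖u - rsB A B x0 s v‖ ≤ τ + L τ + η ≤ ε`.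
-/

open Filter Topology Metric H24.LS

namespace H80.LD

variable {E E' : Type*} [NormedAddCommGroup E] [NormedSpace ℂ E] [NormedAddCommGroup E']
  [NormedSpace ℂ E']

theorem aapp_can1 {V : Type*} [NormedAddCommGroup V] [NormedSpace ℂ V] {s : ℂ} (hs0 : s ≠ 0)
    (a b : V) : s⁻¹ • (a + s • b - a) = b := by
  rw [add_sub_cancel_left, smul_smul, inv_mul_cancel₀ hs0, one_smul]

theorem aapp_can2 {V : Type*} [NormedAddCommGroup V] [NormedSpace ℂ V] {s : ℂ} (hs0 : s ≠ 0)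
    (a b : V) : a + s • (s⁻¹ • (b - a)) = b := by
  rw [smul_smul, mul_inv_cancel₀ hs0, one_smul, add_sub_cancel]

theorem aapp_can3 {V : Type*} [NormedAddCommGroup V] [NormedSpace ℂ V] {s : ℂ} (hs0 : s ≠ 0)
    (a b v : V) : a + s • v - b = s • (v - s⁻¹ • (b - a)) := by
  rw [smul_sub, smul_smul, mul_inv_cancel₀ hs0, one_smul]
  abel

omit [NormedSpace ℂ E] [NormedSpace ℂ E'] in
theorem aapp_lip3 {P : E → E} {Q : E → E'} {S : E' → E'} {L : ℝ} (hL : 1 ≤ L)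
    (hP : ∀ u v, ‖P u - P v‖ ≤ 2 * ‖u - v‖) (hQ : ∀ u v, ‖Q u - Q v‖ ≤ L * ‖u - v‖)
    (hS : ∀ u v, ‖S u - S v‖ ≤ 2 * ‖u - v‖) (u v : E) :
    ‖S (Q (P u)) - S (Q (P v))‖ ≤ 4 * L * ‖u - v‖ := by
  have h1 := hS (Q (P u)) (Q (P v))
  have h2 := hQ (P u) (P v)
  have h3 := hP u v
  have h4 : L * ‖P u - P v‖ ≤ L * (2 * ‖u - v‖) := mul_le_mul_of_nonneg_left h3 (by linarith)
  linarith

theorem aapp_build {A : E → E'} {B : E' → E} {f : E → ℂ} {g : E' → ℂ} {x0 : E}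
    {s κ L R R2 η τ ε : ℝ} (hs : 0 < s) (hκ : 0 < κ) (hL : 1 ≤ L) (hR : 1 ≤ R)
    (hR2 : L * (R + 3) ≤ R2) (hη : η ≤ 1 / 4) (hτ : τ ≤ 1)
    (hε : (1 + L) * τ + η ≤ ε) {T1 : E → E'} {S1 : E' → E} {e1 : E →L[ℂ] ℂ} {e1' : E' →L[ℂ] ℂ}
    (hT : ∀ u v, ‖T1 u - T1 v‖ ≤ L * ‖u - v‖) (hS : ∀ u v, ‖S1 u - S1 v‖ ≤ L * ‖u - v‖)
    (hST : ∀ u, S1 (T1 u) = u) (hTS : ∀ v, T1 (S1 v) = v) (heT : ∀ u, e1' (T1 u) = e1 u)
    (hTc : ∀ u ∈ closedBall (0 : E) R, ‖T1 u - rsA A x0 s u‖ ≤ η)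
    (hSc : ∀ v ∈ closedBall (0 : E') R, ‖S1 v - rsB A B x0 s v‖ ≤ η)
    {Θ Θi : E → E} (hΘ1 : ∀ u, Θi (Θ u) = u) (hΘ2 : ∀ v, Θ (Θi v) = v)
    (hΘ3 : ∀ u v, ‖Θ u - Θ v‖ ≤ 2 * ‖u - v‖) (hΘ4 : ∀ u v, ‖Θi u - Θi v‖ ≤ 2 * ‖u - v‖)
    (hΘ5 : ∀ u, ‖Θ u - u‖ ≤ τ) (hΘ6 : ∀ v, ‖Θi v - v‖ ≤ τ)
    (hΘ7 : ∀ u ∈ closedBall (0 : E) R2, e1 (Θ u) = rsf f x0 s κ (f x0) u)
    {Ω Ωi : E' → E'} (hΩ1 : ∀ u, Ωi (Ω u) = u) (hΩ2 : ∀ v, Ω (Ωi v) = v)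
    (hΩ3 : ∀ u v, ‖Ω u - Ω v‖ ≤ 2 * ‖u - v‖) (hΩ4 : ∀ u v, ‖Ωi u - Ωi v‖ ≤ 2 * ‖u - v‖)
    (hΩ5 : ∀ u, ‖Ω u - u‖ ≤ τ) (hΩ6 : ∀ v, ‖Ωi v - v‖ ≤ τ)
    (hΩ7 : ∀ u ∈ closedBall (0 : E') R2, e1' (Ω u) = rsf g (A x0) s κ (f x0) u) :
      ∃ (h : E → E') (h' : E' → E),
        (∀ x y, ‖h x - h y‖ ≤ 4 * L * ‖x - y‖) ∧ (∀ x y, ‖h' x - h' y‖ ≤ 4 * L * ‖x - y‖) ∧
        (∀ x, h' (h x) = x) ∧ (∀ y, h (h' y) = y) ∧
        (∀ x ∈ ball x0 (R * s), f x = g (h x) ∧ ‖h x - A x‖ ≤ ε * s) ∧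
        (∀ y ∈ ball (A x0) (R * s), g y = f (h' y) ∧ ‖h' y - B y‖ ≤ ε * s) := by
  have hs0 : (s : ℂ) ≠ 0 := by exact_mod_cast hs.ne'
  have hκ0 : (κ : ℂ) ≠ 0 := by exact_mod_cast hκ.ne'
  have hns : ‖(s : ℂ)‖ = s := by rw [Complex.norm_real, Real.norm_eq_abs, abs_of_pos hs]
  have hnsi : ‖((s : ℂ))⁻¹‖ = s⁻¹ := by rw [norm_inv, hns]
  have hL0 : 0 < L := by linarith
  have hRR2 : R ≤ R2 := by nlinarith
  have hT0 : ‖T1 0‖ ≤ η := by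
    have h1 := hTc 0 (mem_closedBall_self (by linarith))
    have h2 : rsA A x0 s 0 = 0 := by simp [rsA]
    rwa [h2, sub_zero] at h1
  have hS0 : ‖S1 0‖ ≤ L * η := by
    have h1 := hS 0 (T1 0)
    rw [hST, sub_zero, zero_sub, norm_neg] at h1
    exact h1.trans (mul_le_mul_of_nonneg_left hT0 hL0.le)
  have key1 : ∀ u : E, ‖u‖ ≤ R → ‖Ωi (T1 (Θ u))‖ ≤ R2 ∧
      ‖Ωi (T1 (Θ u)) - rsA A x0 s u‖ ≤ ε := by
    intro u hu
    have a1 := hΘ5 u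
    have a2 : ‖Θ u‖ ≤ R + τ := by
      have := norm_le_norm_add_norm_sub' (Θ u) u
      linarith
    have a3 := hT (Θ u) 0
    rw [sub_zero] at a3
    have a4 := norm_le_norm_add_norm_sub' (T1 (Θ u)) (T1 0)
    have a5 := hΩ6 (T1 (Θ u))
    have a6 := norm_le_norm_add_norm_sub' (Ωi (T1 (Θ u))) (T1 (Θ u))
    have a7 : L * ‖Θ u‖ ≤ L * (R + τ) := mul_le_mul_of_nonneg_left a2 hL0.le
    constructor
    · have : L * τ ≤ L * 1 := mul_le_mul_of_nonneg_left hτ hL0.le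
      nlinarith
    · have b1 := hT (Θ u) u
      have b2 : L * ‖Θ u - u‖ ≤ L * τ := mul_le_mul_of_nonneg_left a1 hL0.le
      have b3 := hTc u (by simpa using hu)
      have b4 : Ωi (T1 (Θ u)) - rsA A x0 s u = (Ωi (T1 (Θ u)) - T1 (Θ u)) +
          (T1 (Θ u) - T1 u) + (T1 u - rsA A x0 s u) := by abel
      rw [b4]
      have b5 := norm_add₃_le (a := Ωi (T1 (Θ u)) - T1 (Θ u)) (b := T1 (Θ u) - T1 u)
        (c := T1 u - rsA A x0 s u)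
      linarith
  have key2 : ∀ v : E', ‖v‖ ≤ R → ‖Θi (S1 (Ω v))‖ ≤ R2 ∧
      ‖Θi (S1 (Ω v)) - rsB A B x0 s v‖ ≤ ε := by
    intro u hu
    have a1 := hΩ5 u
    have a2 : ‖Ω u‖ ≤ R + τ := by
      have := norm_le_norm_add_norm_sub' (Ω u) u
      linarith
    have a3 := hS (Ω u) 0
    rw [sub_zero] at a3
    have a4 := norm_le_norm_add_norm_sub' (S1 (Ω u)) (S1 0)
    have a5 := hΘ6 (S1 (Ω u))
    have a6 := norm_le_norm_add_norm_sub' (Θi (S1 (Ω u))) (S1 (Ω u))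
    have a7 : L * ‖Ω u‖ ≤ L * (R + τ) := mul_le_mul_of_nonneg_left a2 hL0.le
    constructor
    · have h8 : L * τ ≤ L * 1 := mul_le_mul_of_nonneg_left hτ hL0.le
      have h9 : L * η ≤ L * (1 / 4) := mul_le_mul_of_nonneg_left hη hL0.le
      nlinarith
    · have b1 := hS (Ω u) u
      have b2 : L * ‖Ω u - u‖ ≤ L * τ := mul_le_mul_of_nonneg_left a1 hL0.le
      have b3 := hSc u (by simpa using hu)
      have b4 : Θi (S1 (Ω u)) - rsB A B x0 s u = (Θi (S1 (Ω u)) - S1 (Ω u)) +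
          (S1 (Ω u) - S1 u) + (S1 u - rsB A B x0 s u) := by abel
      rw [b4]
      have b5 := norm_add₃_le (a := Θi (S1 (Ω u)) - S1 (Ω u)) (b := S1 (Ω u) - S1 u)
        (c := S1 u - rsB A B x0 s u)
      linarith
  have hrs : ∀ (u : E) (v : E'), rsf f x0 s κ (f x0) u = rsf g (A x0) s κ (f x0) v →
      f (x0 + (s : ℂ) • u) = g (A x0 + (s : ℂ) • v) := by
    intro u v h1
    simp only [rsf] at h1
    have h2 := mul_ne_zero hs0 hκ0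
    rw [div_left_inj' h2] at h1
    exact sub_left_injective h1
  refine ⟨fun x => A x0 + (s : ℂ) • Ωi (T1 (Θ (((s : ℂ))⁻¹ • (x - x0)))),
    fun y => x0 + (s : ℂ) • Θi (S1 (Ω (((s : ℂ))⁻¹ • (y - A x0)))), ?_, ?_, ?_, ?_, ?_, ?_⟩
  · intro x y
    have h1 := aapp_lip3 hL hΘ3 hT hΩ4 (((s : ℂ))⁻¹ • (x - x0)) (((s : ℂ))⁻¹ • (y - x0))
    rw [← smul_sub, sub_sub_sub_cancel_right, norm_smul, hnsi] at h1
    rw [add_sub_add_left_eq_sub, ← smul_sub, norm_smul, hns]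
    calc s * _ ≤ s * (4 * L * (s⁻¹ * ‖x - y‖)) := mul_le_mul_of_nonneg_left h1 hs.le
      _ = 4 * L * ‖x - y‖ := by field_simp
  · intro x y
    have h1 := aapp_lip3 hL hΩ3 hS hΘ4 (((s : ℂ))⁻¹ • (x - A x0)) (((s : ℂ))⁻¹ • (y - A x0))
    rw [← smul_sub, sub_sub_sub_cancel_right, norm_smul, hnsi] at h1
    rw [add_sub_add_left_eq_sub, ← smul_sub, norm_smul, hns]
    calc s * _ ≤ s * (4 * L * (s⁻¹ * ‖x - y‖)) := mul_le_mul_of_nonneg_left h1 hs.le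
      _ = 4 * L * ‖x - y‖ := by field_simp
  · intro x
    simp only
    rw [aapp_can1 hs0, hΩ2, hST, hΘ1, aapp_can2 hs0]
  · intro y
    simp only
    rw [aapp_can1 hs0, hΘ2, hTS, hΩ1, aapp_can2 hs0]
  · intro x hx
    have hu : ‖((s : ℂ))⁻¹ • (x - x0)‖ ≤ R := by
      rw [norm_smul, hnsi]
      rw [mem_ball, dist_eq_norm] at hx
      rw [inv_mul_le_iff₀ hs, mul_comm s R]
      exact hx.le
    obtain ⟨k1, k2⟩ := key1 _ hu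
    constructor
    · have h1 : rsf f x0 s κ (f x0) (((s : ℂ))⁻¹ • (x - x0)) =
          rsf g (A x0) s κ (f x0) (Ωi (T1 (Θ (((s : ℂ))⁻¹ • (x - x0))))) := by
        rw [← hΘ7 _ (by simpa using hu.trans hRR2), ← hΩ7 _ (by simpa using k1), hΩ2, heT]
      have h2 := hrs _ _ h1
      rwa [aapp_can2 hs0] at h2
    · have h3 : A x0 + (s : ℂ) • Ωi (T1 (Θ (((s : ℂ))⁻¹ • (x - x0)))) - A x =
          (s : ℂ) • (Ωi (T1 (Θ (((s : ℂ))⁻¹ • (x - x0)))) -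
            rsA A x0 s (((s : ℂ))⁻¹ • (x - x0))) := by
        simp only [rsA]
        rw [aapp_can2 hs0]
        exact aapp_can3 hs0 _ _ _
      simp only
      rw [h3, norm_smul, hns, mul_comm]
      exact mul_le_mul_of_nonneg_right k2 hs.le
  · intro y hy
    have hu : ‖((s : ℂ))⁻¹ • (y - A x0)‖ ≤ R := by
      rw [norm_smul, hnsi]
      rw [mem_ball, dist_eq_norm] at hy
      rw [inv_mul_le_iff₀ hs, mul_comm s R]
      exact hy.le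
    obtain ⟨k1, k2⟩ := key2 _ hu
    constructor
    · have h1 : rsf f x0 s κ (f x0) (Θi (S1 (Ω (((s : ℂ))⁻¹ • (y - A x0))))) =
          rsf g (A x0) s κ (f x0) (((s : ℂ))⁻¹ • (y - A x0)) := by
        rw [← hΘ7 _ (by simpa using k1), ← hΩ7 _ (by simpa using hu.trans hRR2), hΘ2, ← heT, hTS]
      have h2 := hrs _ _ h1
      rw [aapp_can2 hs0] at h2
      exact h2.symm
    · have h3 : x0 + (s : ℂ) • Θi (S1 (Ω (((s : ℂ))⁻¹ • (y - A x0)))) - B y =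
          (s : ℂ) • (Θi (S1 (Ω (((s : ℂ))⁻¹ • (y - A x0)))) -
            rsB A B x0 s (((s : ℂ))⁻¹ • (y - A x0))) := by
        simp only [rsB]
        rw [aapp_can2 hs0]
        exact aapp_can3 hs0 _ _ _
      simp only
      rw [h3, norm_smul, hns, mul_comm]
      exact mul_le_mul_of_nonneg_right k2 hs.le

theorem approx [FiniteDimensional ℂ E] [FiniteDimensional ℂ E'] {f : E → ℂ} {g : E' → ℂ}
    (hf : Grm f) (hg : Grm g) (f2 : fderiv ℂ (fderiv ℂ f) 0 = 0)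
    (g2 : fderiv ℂ (fderiv ℂ g) 0 = 0) {A : E → E'} {B : E' → E} {L ρ : ℝ}
    (hco : Coarse f g A B L ρ) (R ε : ℝ) (hR : 1 ≤ R) (hε : 0 < ε) :
    ∃ K0 : ℝ, 1 ≤ K0 ∧ ∀ K : ℝ, K0 ≤ K → ∃ r0 : ℝ, 0 < r0 ∧ ∀ x0 : E, x0 ≠ 0 → ‖x0‖ < r0 →
      ∃ (h : E → E') (h' : E' → E),
        (∀ x y, ‖h x - h y‖ ≤ 4 * L * ‖x - y‖) ∧ (∀ x y, ‖h' x - h' y‖ ≤ 4 * L * ‖x - y‖) ∧
        (∀ x, h' (h x) = x) ∧ (∀ y, h (h' y) = y) ∧
        (∀ x ∈ ball x0 (R * (K * ‖fderiv ℂ f x0‖)), f x = g (h x) ∧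
          ‖h x - A x‖ ≤ ε * (K * ‖fderiv ℂ f x0‖)) ∧
        (∀ y ∈ ball (A x0) (R * (K * ‖fderiv ℂ f x0‖)), g y = f (h' y) ∧
          ‖h' y - B y‖ ≤ ε * (K * ‖fderiv ℂ f x0‖)) := by
  have : CompleteSpace E := FiniteDimensional.complete ℂ E
  have : CompleteSpace E' := FiniteDimensional.complete ℂ E'
  have hL : 1 ≤ L := hco.hL
  have hL0 : 0 < L := by linarith
  obtain ⟨R2, hR2d⟩ : ∃ R2 : ℝ, R2 = 2 * L * (R + 3) := ⟨_, rfl⟩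
  have hR2p : 0 < R2 := by rw [hR2d]; positivity
  have hR2L : L * (R + 3) ≤ R2 := by rw [hR2d]; nlinarith
  obtain ⟨Q, hQd⟩ : ∃ Q : ℝ, Q = 8 * L * (2 * (1 + R2)) := ⟨_, rfl⟩
  have hQ : 0 < Q := by rw [hQd]; positivity
  obtain ⟨η, hη0, hη1, hη2, hη3, hη4⟩ : ∃ η : ℝ, 0 < η ∧ η ≤ 1 / (64 * L) ∧ η ≤ 1 / 4 ∧
      Q * η ≤ 1 ∧ (1 + L) * (Q * η) + η ≤ ε := by
    refine ⟨min (1 / (64 * L)) (min (1 / 4) (min (1 / Q) (ε / ((1 + L) * Q + 1)))), ?_, ?_, ?_,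
      ?_, ?_⟩
    · positivity
    · exact min_le_left _ _
    · exact (min_le_right _ _).trans (min_le_left _ _)
    · have h1 : min (1 / (64 * L)) (min (1 / 4) (min (1 / Q) (ε / ((1 + L) * Q + 1)))) ≤ 1 / Q :=
        (min_le_right _ _).trans ((min_le_right _ _).trans (min_le_left _ _))
      rw [le_div_iff₀ hQ] at h1
      linarith
    · have h1 : min (1 / (64 * L)) (min (1 / 4) (min (1 / Q) (ε / ((1 + L) * Q + 1)))) ≤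
          ε / ((1 + L) * Q + 1) :=
        (min_le_right _ _).trans ((min_le_right _ _).trans (min_le_right _ _))
      rw [le_div_iff₀ (by positivity)] at h1
      linarith
  obtain ⟨δ, hδ, hcpt⟩ := cpt (E := E) (E' := E') L R η hL hη0
  obtain ⟨K0, hK0, hres⟩ := resc hf hg f2 g2 hco hδ
  refine ⟨max K0 (L / η), le_max_of_le_left hK0, fun K hK => ?_⟩
  have hKK0 : K0 ≤ K := (le_max_left _ _).trans hK
  have hK1 : 1 ≤ K := hK0.trans hKK0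
  have hKp : 0 < K := by linarith
  have hKL : L / K ≤ η := by
    have := (le_max_right _ _).trans hK
    rw [div_le_iff₀ hη0] at this
    rw [div_le_iff₀ hKp]
    linarith
  have hw : 0 < η / (K * R2) := by positivity
  obtain ⟨w, hwd⟩ : ∃ w : ℝ, w = η / (K * R2) := ⟨_, rfl⟩
  have hwp : 0 < w := by rw [hwd]; exact hw
  have hwK : w * K * R2 = η := by rw [hwd]; field_simp
  obtain ⟨r, hr⟩ := cr_exists hf hg f2 g2 hco hwp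
  obtain ⟨r0', hr0', hres2⟩ := hres K hKK0
  have hrp : 0 < r := hr.rf.hr
  refine ⟨min r0' (r / (2 * L + 2)), by positivity, fun x0 hx0 hxr => ?_⟩
  have hx1 : ‖x0‖ < r0' := lt_of_lt_of_le hxr (min_le_left _ _)
  have hx2 : ‖x0‖ < r / (2 * L + 2) := lt_of_lt_of_le hxr (min_le_right _ _)
  rw [lt_div_iff₀ (by positivity)] at hx2
  have hn0 : 0 ≤ ‖x0‖ := norm_nonneg _
  have hxr' : ‖x0‖ < r := by nlinarith
  have hx0b : x0 ∈ ball (0 : E) r := by simpa using hxr'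
  have hC := hres2 x0 hx0 hx1
  obtain ⟨κ, hκd⟩ : ∃ κ : ℝ, κ = ‖fderiv ℂ f x0‖ := ⟨_, rfl⟩
  rw [← hκd] at hC ⊢
  have hκ : 0 < κ := by rw [hκd]; exact hr.rf.pos x0 hx0b hx0
  have hκw : κ ≤ w * ‖x0‖ := by rw [hκd]; exact hr.rf.small x0 hx0b
  have hs : 0 < K * κ := by positivity
  have hsR : K * κ * R2 ≤ ‖x0‖ := by
    have h1 : K * κ * R2 ≤ K * (w * ‖x0‖) * R2 := by gcongr
    have h2 : K * (w * ‖x0‖) * R2 = η * ‖x0‖ := by rw [← hwK]; ring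
    nlinarith
  have hκ0 : (κ : ℂ) ≠ 0 := by exact_mod_cast hκ.ne'
  have hnκ : ‖((κ : ℂ))⁻¹‖ = κ⁻¹ := by
    rw [norm_inv, Complex.norm_real, Real.norm_eq_abs, abs_of_pos hκ]
  have hne : ‖((κ : ℂ))⁻¹ • fderiv ℂ f x0‖ = 1 := by
    rw [norm_smul, hnκ, ← hκd, inv_mul_cancel₀ hκ.ne']
  have hne' : 1 / (2 * L) ≤ ‖((κ : ℂ))⁻¹ • fderiv ℂ g (A x0)‖ := by
    have h1 := hr.dA' x0 hx0b
    rw [← hκd] at h1
    rw [norm_smul, hnκ, div_le_iff₀ (by positivity)]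
    have h2 : κ⁻¹ * κ ≤ κ⁻¹ * (2 * L * ‖fderiv ℂ g (A x0)‖) :=
      mul_le_mul_of_nonneg_left h1 (by positivity)
    rw [inv_mul_cancel₀ hκ.ne'] at h2
    linarith
  obtain ⟨T1, S1, e1, e1', hT, hS, hST, hTS, heT, hTc, hSc, he1, he1'⟩ := hcpt _ _ _ _ hC
  have hLi : 1 / (64 * L) ≤ 1 / (4 * L) := by
    apply one_div_le_one_div_of_le (by positivity)
    linarith
  have hE1 : 1 / 2 ≤ ‖e1‖ := by
    have h1 := norm_sub_norm_le (((κ : ℂ))⁻¹ • fderiv ℂ f x0) e1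
    rw [hne, norm_sub_rev] at h1
    linarith
  have hE1' : 1 / (4 * L) ≤ ‖e1'‖ := by
    have h1 := norm_sub_norm_le (((κ : ℂ))⁻¹ • fderiv ℂ g (A x0)) e1'
    rw [norm_sub_rev] at h1
    have h2 : 1 / (2 * L) = 1 / (4 * L) + 1 / (4 * L) := by field_simp; norm_num
    linarith
  have h4L : 0 < 1 / (4 * L) := by positivity
  obtain ⟨w1, hw1, hw1n⟩ := exists_vec e1 (by linarith)
  obtain ⟨w1', hw1', hw1n'⟩ := exists_vec e1' (by linarith)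
  have hw1M : ‖w1‖ ≤ 8 * L := by
    refine hw1n.trans ?_
    rw [div_le_iff₀ (by linarith)]
    nlinarith
  have hw1M' : ‖w1'‖ ≤ 8 * L := by
    refine hw1n'.trans ?_
    rw [div_le_iff₀ (by linarith)]
    calc (2 : ℝ) = 8 * L * (1 / (4 * L)) := by field_simp; norm_num
      _ ≤ 8 * L * ‖e1'‖ := by gcongr
  have hηM : 4 * (2 * η) * (8 * L) ≤ 1 := by
    rw [le_div_iff₀ (by positivity)] at hη1
    linarith
  have hin1 : ‖x0‖ + K * κ * R2 < r := by nlinarith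
  have hin2 : ‖A x0‖ + K * κ * R2 < r := by
    have h1 := hr.lipA x0 hx0b 0 (mem_ball_self hrp)
    rw [hr.A0, sub_zero, sub_zero] at h1
    nlinarith
  have hwsR : w * (K * κ) * R2 / κ = η := by
    rw [← hwK]
    field_simp
  obtain ⟨Θ, Θi, t1, t2, t3, t4, t5, t6, t7, _⟩ := straighten e1 w1 (M := 8 * L) (η := 2 * η)
    (R := R2) hR2p (by positivity) hw1M hηM hw1 (rsf f x0 (K * κ) κ (f x0))
    (by
      have : rsf f x0 (K * κ) κ (f x0) 0 = 0 := by simp [rsf]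
      rw [this, norm_zero]
      positivity)
    (fun u hu => (hr.rf.resc (f x0) hs hκ hR2p hin1 u hu).1)
    (fun u hu => by
      have h1 := (hr.rf.resc (f x0) hs hκ hR2p hin1 u hu).2
      rw [hwsR] at h1
      have h2 := norm_sub_le_norm_sub_add_norm_sub (fderiv ℂ (rsf f x0 (K * κ) κ (f x0)) u)
        (((κ : ℂ))⁻¹ • fderiv ℂ f x0) e1
      rw [norm_sub_rev (((κ : ℂ))⁻¹ • fderiv ℂ f x0) e1] at h2
      linarith)
  obtain ⟨Ω, Ωi, o1, o2, o3, o4, o5, o6, o7, _⟩ := straighten e1' w1' (M := 8 * L) (η := 2 * η)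
    (R := R2) hR2p (by positivity) hw1M' hηM hw1' (rsf g (A x0) (K * κ) κ (f x0))
    (by
      have h1 : rsf g (A x0) (K * κ) κ (f x0) 0 =
          (g (A x0) - f x0) / (((K * κ : ℝ) : ℂ) * (κ : ℂ)) := by simp [rsf]
      have h2 := hr.fA x0 hx0b
      rw [← hκd, norm_sub_rev] at h2
      rw [h1, norm_div, norm_mul, Complex.norm_real, Complex.norm_real, Real.norm_eq_abs,
        Real.norm_eq_abs, abs_of_pos hs, abs_of_pos hκ]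
      have h3 : ‖g (A x0) - f x0‖ / (K * κ * κ) ≤ L * κ ^ 2 / (K * κ * κ) := by gcongr
      have h4 : L * κ ^ 2 / (K * κ * κ) = L / K := by field_simp
      linarith)
    (fun u hu => (hr.rg.resc (f x0) hs hκ hR2p hin2 u hu).1)
    (fun u hu => by
      have h1 := (hr.rg.resc (f x0) hs hκ hR2p hin2 u hu).2
      rw [hwsR] at h1
      have h2 := norm_sub_le_norm_sub_add_norm_sub (fderiv ℂ (rsf g (A x0) (K * κ) κ (f x0)) u)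
        (((κ : ℂ))⁻¹ • fderiv ℂ g (A x0)) e1'
      rw [norm_sub_rev (((κ : ℂ))⁻¹ • fderiv ℂ g (A x0)) e1'] at h2
      linarith)
  have hτd : 8 * L * (2 * η * (1 + R2)) = Q * η := by rw [hQd]; ring
  rw [hτd] at t5 t6 o5 o6
  exact aapp_build hs hκ hL hR hR2L hη2 hη3 hη4 hT hS hST hTS heT hTc hSc
    t1 t2 t3 t4 t5 t6 t7 o1 o2 o3 o4 o5 o6 o7

end H80.LD
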