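import Pool.Agent.H80.LD.AReg

/-!
# ACR (project MP_816883_LD, part A): coarse equivalence of germs with zero Hessian, regularized

`cr_exists`: let `w1 = min w (1/(2L))`, `Reg f w1 r1`, `Reg g w1 r1` (`reg_exists`, `Reg.mono`), `r1 ≤ ρ`, and
`r = r1 / (L^2 + 1)` (so that for `‖p‖ < r` the points `A p`, `B (A p)` are in `ball 0 r1`, since `‖A p‖ ≤ L ‖p‖`,
`‖B (A p)‖ ≤ L^2 ‖p‖`; the same for `B`). `lipA, lipB, fA, gB, dA, dB, BA, AB'` are the fields of `Coarse`.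
* `dA'`: `‖f'(p)‖ ≤ ‖f'(B (A p))‖ + w1 ‖B (A p) - p‖ ≤ L ‖g'(A p)‖ + w1 L ‖f'(p)‖` and `w1 L ≤ 1/2`. `dB'` the same.
* `AB`: `AB'` and `dB'`.
* `nA`: `‖p‖ ≤ ‖B (A p)‖ + L ‖f'(p)‖ ≤ L ‖A p‖ + L w1 ‖p‖`. `nB` the same.
-/

open Filter Topology Metric H24.LS

namespace H80.LD

variable {E E' : Type*} [NormedAddCommGroup E] [NormedSpace ℂ E] [NormedAddCommGroup E']
  [NormedSpace ℂ E']

/-- `Coarse` together with regularity and its first consequences on the ball of radius `r` -/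
structure CR (f : E → ℂ) (g : E' → ℂ) (A : E → E') (B : E' → E) (L w r : ℝ) : Prop where
  hL : 1 ≤ L
  rf : Reg f w r
  rg : Reg g w r
  A0 : A 0 = 0
  B0 : B 0 = 0
  lipA : ∀ p ∈ ball (0 : E) r, ∀ q ∈ ball (0 : E) r, ‖A p - A q‖ ≤ L * ‖p - q‖
  lipB : ∀ p ∈ ball (0 : E') r, ∀ q ∈ ball (0 : E') r, ‖B p - B q‖ ≤ L * ‖p - q‖
  fA : ∀ p ∈ ball (0 : E) r, ‖f p - g (A p)‖ ≤ L * ‖fderiv ℂ f p‖ ^ 2
  gB : ∀ q ∈ ball (0 : E') r, ‖g q - f (B q)‖ ≤ L * ‖fderiv ℂ g q‖ ^ 2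
  dA : ∀ p ∈ ball (0 : E) r, ‖fderiv ℂ g (A p)‖ ≤ L * ‖fderiv ℂ f p‖
  dB : ∀ q ∈ ball (0 : E') r, ‖fderiv ℂ f (B q)‖ ≤ L * ‖fderiv ℂ g q‖
  dA' : ∀ p ∈ ball (0 : E) r, ‖fderiv ℂ f p‖ ≤ 2 * L * ‖fderiv ℂ g (A p)‖
  dB' : ∀ q ∈ ball (0 : E') r, ‖fderiv ℂ g q‖ ≤ 2 * L * ‖fderiv ℂ f (B q)‖
  BA : ∀ p ∈ ball (0 : E) r, ‖B (A p) - p‖ ≤ L * ‖fderiv ℂ f p‖
  AB' : ∀ q ∈ ball (0 : E') r, ‖A (B q) - q‖ ≤ L * ‖fderiv ℂ g q‖
  AB : ∀ q ∈ ball (0 : E') r, ‖A (B q) - q‖ ≤ 2 * L ^ 2 * ‖fderiv ℂ f (B q)‖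
  nA : ∀ p ∈ ball (0 : E) r, ‖p‖ ≤ 2 * L * ‖A p‖
  nB : ∀ q ∈ ball (0 : E') r, ‖q‖ ≤ 2 * L * ‖B q‖

theorem CR.mono {f : E → ℂ} {g : E' → ℂ} {A : E → E'} {B : E' → E} {L w r w' r' : ℝ}
    (h : CR f g A B L w r) (hw : w ≤ w') (h0 : 0 < r') (hr : r' ≤ r) : CR f g A B L w' r' := by
  have h1 : ball (0 : E) r' ⊆ ball (0 : E) r := ball_subset_ball hr
  have h2 : ball (0 : E') r' ⊆ ball (0 : E') r := ball_subset_ball hr
  exact
    { hL := h.hL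
      rf := h.rf.mono hw h0 hr
      rg := h.rg.mono hw h0 hr
      A0 := h.A0
      B0 := h.B0
      lipA := fun p hp q hq => h.lipA p (h1 hp) q (h1 hq)
      lipB := fun p hp q hq => h.lipB p (h2 hp) q (h2 hq)
      fA := fun p hp => h.fA p (h1 hp)
      gB := fun p hp => h.gB p (h2 hp)
      dA := fun p hp => h.dA p (h1 hp)
      dB := fun p hp => h.dB p (h2 hp)
      dA' := fun p hp => h.dA' p (h1 hp)
      dB' := fun p hp => h.dB' p (h2 hp)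
      BA := fun p hp => h.BA p (h1 hp)
      AB' := fun p hp => h.AB' p (h2 hp)
      AB := fun p hp => h.AB p (h2 hp)
      nA := fun p hp => h.nA p (h1 hp)
      nB := fun p hp => h.nB p (h2 hp) }

theorem acr_symm {f : E → ℂ} {g : E' → ℂ} {A : E → E'} {B : E' → E} {L ρ : ℝ}
    (h : Coarse f g A B L ρ) : Coarse g f B A L ρ :=
  { hL := h.hL
    hρ := h.hρ
    A0 := h.B0
    B0 := h.A0
    lipA := h.lipB
    lipB := h.lipA
    fA := h.gB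
    gB := h.fA
    dA := h.dB
    dB := h.dA
    BA := h.AB
    AB := h.BA }

theorem acr_half {f : E → ℂ} {g : E' → ℂ} {A : E → E'} {B : E' → E} {L ρ w r1 r : ℝ}
    (h : Coarse f g A B L ρ) (hf : Reg f w r1) (hw : w * L ≤ 1 / 2) (h1 : r1 ≤ ρ)
    (hr : r * (L ^ 2 + 1) ≤ r1) (p : E) (hp : p ∈ ball (0 : E) r) :
    ‖fderiv ℂ f p‖ ≤ 2 * L * ‖fderiv ℂ g (A p)‖ ∧ ‖p‖ ≤ 2 * L * ‖A p‖ := by
  have hL := h.hL
  have hpr : ‖p‖ < r := by rwa [mem_ball_zero_iff] at hp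
  have hp0 : 0 ≤ ‖p‖ := norm_nonneg p
  have hr0 : 0 < r := lt_of_le_of_lt hp0 hpr
  have hp1 : ‖p‖ < r1 := by nlinarith
  have hpρ : p ∈ ball (0 : E) ρ := by
    rw [mem_ball_zero_iff]
    linarith
  have hA : ‖A p‖ ≤ L * ‖p‖ := by
    have := h.lipA p hpρ 0 (mem_ball_self h.hρ)
    rwa [h.A0, sub_zero, sub_zero] at this
  have hA1 : ‖A p‖ < r1 := by nlinarith
  have hAρ : A p ∈ ball (0 : E') ρ := by
    rw [mem_ball_zero_iff]
    linarith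
  have hB : ‖B (A p)‖ ≤ L * ‖A p‖ := by
    have := h.lipB (A p) hAρ 0 (mem_ball_self h.hρ)
    rwa [h.B0, sub_zero, sub_zero] at this
  have hB1 : ‖B (A p)‖ < r1 := by
    have h2 : L * ‖A p‖ ≤ L * (L * ‖p‖) := mul_le_mul_of_nonneg_left hA (by linarith)
    nlinarith
  have hBA := h.BA p hpρ
  have hd := h.dB (A p) hAρ
  have hn := hf.near (x := B (A p)) (y := p) (by rwa [mem_ball_zero_iff])
    (by rwa [mem_ball_zero_iff])
  have hw0 := hf.hw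
  have hf0 : 0 ≤ ‖fderiv ℂ f p‖ := norm_nonneg _
  rw [norm_sub_rev] at hn
  refine ⟨?_, ?_⟩
  · have h3 : w * ‖B (A p) - p‖ ≤ w * (L * ‖fderiv ℂ f p‖) :=
      mul_le_mul_of_nonneg_left hBA hw0.le
    have h4 : w * L * ‖fderiv ℂ f p‖ ≤ 1 / 2 * ‖fderiv ℂ f p‖ :=
      mul_le_mul_of_nonneg_right hw hf0
    nlinarith
  · have h3 := hf.small p (by rwa [mem_ball_zero_iff])
    have h4 : ‖p‖ ≤ ‖B (A p)‖ + ‖B (A p) - p‖ := by
      have h5 : p = B (A p) - (B (A p) - p) := by abel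
      calc ‖p‖ = ‖B (A p) - (B (A p) - p)‖ := by rw [← h5]
        _ ≤ _ := norm_sub_le _ _
    have h5 : L * ‖fderiv ℂ f p‖ ≤ L * (w * ‖p‖) := mul_le_mul_of_nonneg_left h3 (by linarith)
    have h6 : w * L * ‖p‖ ≤ 1 / 2 * ‖p‖ := mul_le_mul_of_nonneg_right hw hp0
    nlinarith

theorem cr_exists {f : E → ℂ} {g : E' → ℂ} (hf : Grm f) (hg : Grm g)
    (f2 : fderiv ℂ (fderiv ℂ f) 0 = 0) (g2 : fderiv ℂ (fderiv ℂ g) 0 = 0) {A : E → E'}
    {B : E' → E} {L ρ : ℝ} (hco : Coarse f g A B L ρ) {w : ℝ} (hw : 0 < w) :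
    ∃ r : ℝ, CR f g A B L w r := by
  have hL := hco.hL
  have hρ := hco.hρ
  have hL0 : 0 < L := by linarith
  set w1 : ℝ := min w (1 / (2 * L)) with hw1
  have hw10 : 0 < w1 := lt_min hw (by positivity)
  have hw1L : w1 * L ≤ 1 / 2 := by
    have h1 : w1 ≤ 1 / (2 * L) := min_le_right _ _
    calc w1 * L ≤ 1 / (2 * L) * L := mul_le_mul_of_nonneg_right h1 hL0.le
      _ = 1 / 2 := by field_simp
  obtain ⟨ra, hra⟩ := reg_exists hf f2 hw10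
  obtain ⟨rb, hrb⟩ := reg_exists hg g2 hw10
  set r1 : ℝ := min (min ra rb) ρ with hr1
  have hr10 : 0 < r1 := lt_min (lt_min hra.hr hrb.hr) hρ
  have hr1ρ : r1 ≤ ρ := min_le_right _ _
  have hf1 : Reg f w1 r1 := hra.mono le_rfl hr10 ((min_le_left _ _).trans (min_le_left _ _))
  have hg1 : Reg g w1 r1 := hrb.mono le_rfl hr10 ((min_le_left _ _).trans (min_le_right _ _))
  set r : ℝ := r1 / (L ^ 2 + 1) with hr
  have hr0 : 0 < r := by positivity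
  have hrr : r * (L ^ 2 + 1) ≤ r1 := by
    rw [hr, div_mul_cancel₀ _ (by positivity)]
  have hrr1 : r ≤ r1 := by nlinarith
  have hww : w1 ≤ w := min_le_left _ _
  have e1 : ball (0 : E) r ⊆ ball (0 : E) ρ := ball_subset_ball (hrr1.trans hr1ρ)
  have e2 : ball (0 : E') r ⊆ ball (0 : E') ρ := ball_subset_ball (hrr1.trans hr1ρ)
  have hA := acr_half hco hf1 hw1L hr1ρ hrr
  have hB := acr_half (acr_symm hco) hg1 hw1L hr1ρ hrr
  exact ⟨r,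
    { hL := hL
      rf := hf1.mono hww hr0 hrr1
      rg := hg1.mono hww hr0 hrr1
      A0 := hco.A0
      B0 := hco.B0
      lipA := fun p hp q hq => hco.lipA p (e1 hp) q (e1 hq)
      lipB := fun p hp q hq => hco.lipB p (e2 hp) q (e2 hq)
      fA := fun p hp => hco.fA p (e1 hp)
      gB := fun p hp => hco.gB p (e2 hp)
      dA := fun p hp => hco.dA p (e1 hp)
      dB := fun p hp => hco.dB p (e2 hp)
      dA' := fun p hp => (hA p hp).1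
      dB' := fun p hp => (hB p hp).1
      BA := fun p hp => hco.BA p (e1 hp)
      AB' := fun p hp => hco.AB p (e2 hp)
      AB := fun p hp => by
        have h1 := hco.AB p (e2 hp)
        have h2 := (hB p hp).1
        have h3 : L * ‖fderiv ℂ g p‖ ≤ L * (2 * L * ‖fderiv ℂ f (B p)‖) :=
          mul_le_mul_of_nonneg_left h2 hL0.le
        nlinarith
      nA := fun p hp => (hA p hp).2
      nB := fun p hp => (hB p hp).2 }⟩

end H80.LD
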