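import Pool.Agent.H80.LD.Defs

/-!
# ALin (project MP_816883_LD, part A): linear charts

`lin_chart`: write `e_i = e (Pi.single i 1)`; `e u = ∑ i, u i * e_i` and `1 = ‖e‖ ≤ ∑ i, |e_i|`, so there is `i0` with
`|e_{i0}| ≥ 1/(m+1)`; all `|e_i| ≤ 1`. `ℓ u = (e u, k ↦ the k-th of the 2m real numbers Re u_(i0.succAbove j),
Im u_(i0.succAbove j))` (index `k = 2 j + 0/1`, e.g. `j = k / 2` and parity, or `finProdFinEquiv : Fin m × Fin 2 ≃ Fin (m * 2)`),
`ℓ' (z, v)` = the vector `u` with `u_(i0.succAbove j) = v_{j,0} + v_{j,1} i` and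
`u_(i0) = (z - ∑ j, e_(i0.succAbove j) * u_(i0.succAbove j)) / e_{i0}` (`Fin.insertNth i0`, `Fin.sum_univ_succAbove`). Both are
real linear; `‖ℓ u‖ ≤ ‖u‖`; `‖ℓ' (z, v)‖ ≤ (m+1) (‖z‖ + 2 m ‖v‖) + 2 ‖v‖ ≤ C ‖(z, v)‖` with `C = (m+1)*(2*m+1) + 2`
(work directly with differences `ℓ u - ℓ v`, `ℓ' p - ℓ' q`).
-/

open Filter Topology Metric

namespace H80.LD

theorem alin_apply (m : ℕ) (e : (Fin (m + 1) → ℂ) →L[ℂ] ℂ) (u : Fin (m + 1) → ℂ) :
    e u = ∑ i, u i * e (Pi.single i 1) := by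
  conv_lhs => rw [← Finset.univ_sum_single u]
  rw [map_sum]
  refine Finset.sum_congr rfl fun i _ => ?_
  have : (Pi.single i (u i) : Fin (m + 1) → ℂ) = u i • Pi.single i (1 : ℂ) := by
    rw [← Pi.single_smul, smul_eq_mul, mul_one]
  rw [this, map_smul, smul_eq_mul]

theorem alin_le (m : ℕ) (e : (Fin (m + 1) → ℂ) →L[ℂ] ℂ) (he : ‖e‖ = 1) (i : Fin (m + 1)) :
    ‖e (Pi.single i 1)‖ ≤ 1 := by
  refine (e.le_opNorm _).trans ?_
  rw [he, one_mul, Pi.norm_single, norm_one]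

theorem alin_ex (m : ℕ) (e : (Fin (m + 1) → ℂ) →L[ℂ] ℂ) (he : ‖e‖ = 1) :
    ∃ i : Fin (m + 1), 1 ≤ ((m : ℝ) + 1) * ‖e (Pi.single i 1)‖ := by
  by_contra hcon
  push Not at hcon
  have h1 : ‖e‖ ≤ ∑ i, ‖e (Pi.single i 1)‖ := by
    refine e.opNorm_le_bound (Finset.sum_nonneg fun _ _ => norm_nonneg _) fun u => ?_
    rw [alin_apply, Finset.sum_mul]
    refine (norm_sum_le _ _).trans (Finset.sum_le_sum fun i _ => ?_)
    rw [norm_mul, mul_comm]
    exact mul_le_mul_of_nonneg_left (norm_le_pi_norm u i) (norm_nonneg _)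
  have h2 : ∑ i : Fin (m + 1), ((m : ℝ) + 1) * ‖e (Pi.single i 1)‖ < ∑ _i : Fin (m + 1), (1 : ℝ) :=
    Finset.sum_lt_sum_of_nonempty Finset.univ_nonempty fun i _ => hcon i
  rw [← Finset.mul_sum] at h2
  simp only [Finset.sum_const, Finset.card_univ, Fintype.card_fin, nsmul_eq_mul, mul_one] at h2
  push_cast at h2
  have h3 : (0 : ℝ) < (m : ℝ) + 1 := by positivity
  rw [he] at h1
  nlinarith

/-- The forward chart. -/
noncomputable def alin_l (m : ℕ) (e : (Fin (m + 1) → ℂ) →L[ℂ] ℂ) (i0 : Fin (m + 1))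
    (u : Fin (m + 1) → ℂ) : ℂ × (Fin (2 * m) → ℝ) :=
  (e u, fun k => if (finProdFinEquiv.symm k : Fin 2 × Fin m).1 = 0 then
    (u (i0.succAbove (finProdFinEquiv.symm k : Fin 2 × Fin m).2)).re else
    (u (i0.succAbove (finProdFinEquiv.symm k : Fin 2 × Fin m).2)).im)

/-- The complex coordinates. -/
noncomputable def alin_w (m : ℕ) (v : Fin (2 * m) → ℝ) (j : Fin m) : ℂ :=
  (v (finProdFinEquiv ((0 : Fin 2), j)) : ℂ) + (v (finProdFinEquiv ((1 : Fin 2), j)) : ℂ) * Complex.I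

/-- The inverse chart. -/
noncomputable def alin_l' (m : ℕ) (e : (Fin (m + 1) → ℂ) →L[ℂ] ℂ) (i0 : Fin (m + 1))
    (p : ℂ × (Fin (2 * m) → ℝ)) : Fin (m + 1) → ℂ :=
  i0.insertNth ((p.1 - ∑ j, alin_w m p.2 j * e (Pi.single (i0.succAbove j) 1)) /
    e (Pi.single i0 1)) (alin_w m p.2)

theorem alin_w_l (m : ℕ) (e : (Fin (m + 1) → ℂ) →L[ℂ] ℂ) (i0 : Fin (m + 1))
    (u : Fin (m + 1) → ℂ) : alin_w m (alin_l m e i0 u).2 = fun j => u (i0.succAbove j) := by
  funext j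
  simp only [alin_w, alin_l, Equiv.symm_apply_apply]
  simp [Complex.re_add_im]

theorem alin_w_sub (m : ℕ) (v v' : Fin (2 * m) → ℝ) (j : Fin m) :
    ‖alin_w m v j - alin_w m v' j‖ ≤ 2 * ‖v - v'‖ := by
  have e1 : alin_w m v j - alin_w m v' j =
      (((v - v') (finProdFinEquiv ((0 : Fin 2), j)) : ℝ) : ℂ) +
      (((v - v') (finProdFinEquiv ((1 : Fin 2), j)) : ℝ) : ℂ) * Complex.I := by
    simp only [alin_w, Pi.sub_apply]; push_cast; ring
  rw [e1]
  refine (norm_add_le _ _).trans ?_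
  rw [norm_mul, Complex.norm_I, mul_one, Complex.norm_real, Complex.norm_real]
  have h1 := norm_le_pi_norm (v - v') (finProdFinEquiv ((0 : Fin 2), j))
  have h2 := norm_le_pi_norm (v - v') (finProdFinEquiv ((1 : Fin 2), j))
  linarith

theorem alin_left (m : ℕ) (e : (Fin (m + 1) → ℂ) →L[ℂ] ℂ) (i0 : Fin (m + 1))
    (h0 : e (Pi.single i0 1) ≠ 0) (u : Fin (m + 1) → ℂ) :
    alin_l' m e i0 (alin_l m e i0 u) = u := by
  unfold alin_l'
  rw [alin_w_l]
  have h1 : ((alin_l m e i0 u).1 - ∑ j, u (i0.succAbove j) * e (Pi.single (i0.succAbove j) 1)) /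
      e (Pi.single i0 1) = u i0 := by
    have : (alin_l m e i0 u).1 = e u := rfl
    rw [this, alin_apply m e u, Fin.sum_univ_succAbove _ i0, add_sub_cancel_right,
      mul_div_assoc, div_self h0, mul_one]
  rw [h1]
  exact Fin.insertNth_self_removeNth i0 u

theorem alin_right (m : ℕ) (e : (Fin (m + 1) → ℂ) →L[ℂ] ℂ) (i0 : Fin (m + 1))
    (h0 : e (Pi.single i0 1) ≠ 0) (p : ℂ × (Fin (2 * m) → ℝ)) :
    alin_l m e i0 (alin_l' m e i0 p) = p := by
  have h1 : e (alin_l' m e i0 p) = p.1 := by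
    rw [alin_apply m e, Fin.sum_univ_succAbove _ i0]
    simp only [alin_l', Fin.insertNth_apply_same, Fin.insertNth_apply_succAbove]
    rw [div_mul_cancel₀ _ h0, sub_add_cancel]
  refine Prod.ext h1 ?_
  funext k
  obtain ⟨⟨a, j⟩, rfl⟩ := finProdFinEquiv.surjective k
  simp only [alin_l, alin_l', Equiv.symm_apply_apply, Fin.insertNth_apply_succAbove, alin_w]
  fin_cases a
  · simp
  · simp

theorem lin_chart (m : ℕ) : ∃ C : ℝ, 1 ≤ C ∧ ∀ e : (Fin (m + 1) → ℂ) →L[ℂ] ℂ, ‖e‖ = 1 →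
    ∃ (l : (Fin (m + 1) → ℂ) → ℂ × (Fin (2 * m) → ℝ))
      (l' : ℂ × (Fin (2 * m) → ℝ) → (Fin (m + 1) → ℂ)),
      (∀ u v, ‖l u - l v‖ ≤ C * ‖u - v‖) ∧ (∀ p q, ‖l' p - l' q‖ ≤ C * ‖p - q‖) ∧
      (∀ u, l' (l u) = u) ∧ (∀ p, l (l' p) = p) ∧ l 0 = 0 ∧ (∀ u, (l u).1 = e u) := by
  have hm : (0 : ℝ) ≤ (m : ℝ) := Nat.cast_nonneg m
  have hC1 : (1 : ℝ) ≤ ((m : ℝ) + 1) * (2 * m + 1) + 2 := by nlinarith
  refine ⟨((m : ℝ) + 1) * (2 * m + 1) + 2, hC1, fun e he => ?_⟩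
  obtain ⟨i0, hi0⟩ := alin_ex m e he
  have h0 : e (Pi.single i0 1) ≠ 0 := by
    intro h; rw [h, norm_zero, mul_zero] at hi0; linarith
  refine ⟨alin_l m e i0, alin_l' m e i0, ?_, ?_, alin_left m e i0 h0, alin_right m e i0 h0, ?_,
    fun u => rfl⟩
  · intro u v
    have h1 : ‖alin_l m e i0 u - alin_l m e i0 v‖ ≤ ‖u - v‖ := by
      rw [Prod.norm_def]
      apply max_le
      · have : (alin_l m e i0 u - alin_l m e i0 v).1 = e (u - v) := by
          rw [map_sub]; rfl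
        rw [this]
        refine (e.le_opNorm _).trans ?_
        rw [he, one_mul]
      · refine (pi_norm_le_iff_of_nonneg (norm_nonneg _)).2 fun k => ?_
        obtain ⟨⟨a, j⟩, rfl⟩ := finProdFinEquiv.surjective k
        have h2 : ‖(u - v) (i0.succAbove j)‖ ≤ ‖u - v‖ := norm_le_pi_norm _ _
        refine le_trans ?_ h2
        simp only [alin_l, Prod.snd_sub, Pi.sub_apply, Equiv.symm_apply_apply]
        split_ifs
        · rw [← Complex.sub_re, Real.norm_eq_abs]; exact Complex.abs_re_le_norm _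
        · rw [← Complex.sub_im, Real.norm_eq_abs]; exact Complex.abs_im_le_norm _
    refine h1.trans ?_
    nlinarith [norm_nonneg (u - v)]
  · intro p q
    have hw : ∀ j, ‖alin_w m p.2 j - alin_w m q.2 j‖ ≤ 2 * ‖p - q‖ := fun j =>
      (alin_w_sub m p.2 q.2 j).trans (by
        have : ‖p.2 - q.2‖ ≤ ‖p - q‖ := norm_snd_le (p - q)
        linarith)
    have hz : ‖p.1 - q.1‖ ≤ ‖p - q‖ := norm_fst_le (p - q)
    refine (pi_norm_le_iff_of_nonneg (by positivity)).2 ?_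
    refine (Fin.forall_iff_succAbove i0).2 ⟨?_, fun j => ?_⟩
    · simp only [alin_l', Pi.sub_apply, Fin.insertNth_apply_same]
      rw [← sub_div, norm_div]
      have hpos : 0 < ‖e (Pi.single i0 1)‖ := norm_pos_iff.2 h0
      rw [div_le_iff₀ hpos]
      have e1 : (p.1 - ∑ j, alin_w m p.2 j * e (Pi.single (i0.succAbove j) 1)) -
          (q.1 - ∑ j, alin_w m q.2 j * e (Pi.single (i0.succAbove j) 1)) =
          (p.1 - q.1) - ∑ j, (alin_w m p.2 j - alin_w m q.2 j) *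
            e (Pi.single (i0.succAbove j) 1) := by
        simp only [sub_mul, Finset.sum_sub_distrib]; ring
      rw [e1]
      have h3 : ‖∑ j, (alin_w m p.2 j - alin_w m q.2 j) * e (Pi.single (i0.succAbove j) 1)‖ ≤
          m * (2 * ‖p - q‖) := by
        refine (norm_sum_le _ _).trans ?_
        have : ∀ j ∈ (Finset.univ : Finset (Fin m)),
            ‖(alin_w m p.2 j - alin_w m q.2 j) * e (Pi.single (i0.succAbove j) 1)‖ ≤
            2 * ‖p - q‖ := fun j _ => by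
          rw [norm_mul]
          calc _ ≤ (2 * ‖p - q‖) * 1 := mul_le_mul (hw j) (alin_le m e he _) (norm_nonneg _)
                (by positivity)
            _ = _ := mul_one _
        refine (Finset.sum_le_sum this).trans (le_of_eq ?_)
        simp
      have h4 := (norm_sub_le (p.1 - q.1) (∑ j, (alin_w m p.2 j - alin_w m q.2 j) *
            e (Pi.single (i0.succAbove j) 1)))
      have h5 : ‖p - q‖ * (2 * m + 1) ≤
          (‖p - q‖ * (2 * m + 1)) * (((m : ℝ) + 1) * ‖e (Pi.single i0 1)‖) := by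
        have : 0 ≤ ‖p - q‖ * (2 * m + 1) := by positivity
        nlinarith
      have h6 : 0 ≤ 2 * ‖p - q‖ * ‖e (Pi.single i0 1)‖ := by positivity
      nlinarith
    · simp only [alin_l', Pi.sub_apply, Fin.insertNth_apply_succAbove]
      refine (hw j).trans ?_
      have : 0 ≤ ‖p - q‖ * (((m : ℝ) + 1) * (2 * m + 1)) := by positivity
      nlinarith
  · refine Prod.ext (map_zero e) ?_
    funext k
    simp [alin_l]

end H80.LD
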