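import Pool.Agent.H80.LD.AReg
import Pool.Agent.H80.LD.AStr
import Pool.Agent.H80.LD.ALin

/-!
# AChart (project MP_816883_LD, part A): charts adapted to `f`

Fix `C0` from `lin_chart m`, `C = 2 C0`. Given `R, K`: put `η = 1/8` , `w = η / (K R)`... precisely: choose `w` with
`w K (R) ≤ 1/8` and `K w R ≤ 1`, `Reg f w r` (`reg_exists`) and `r0 = r/2`. Let `x0 ≠ 0`, `‖x0‖ < r0`, `κ = ‖f'(x0)‖ > 0`,
`s = K κ`. `‖x0‖ + s R ≤ ‖x0‖ + K w R ‖x0‖ ≤ 2 ‖x0‖ < r`, so `Reg.resc` (with `c = f x0`): `φ = rsf f x0 s κ (f x0)` is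
differentiable on `closedBall 0 R`, `‖φ' - e‖ ≤ w s R / κ = w K R ≤ 1/8`, `e = κ⁻¹ • f'(x0)`, `‖e‖ = 1`, `φ 0 = 0`. `exists_vec`: `w0` with
`e w0 = 1`, `‖w0‖ ≤ 2 = M`, `4 η M = 1`. `straighten` gives `Θ, Θi`; `lin_chart` gives `l, l'`.
`Ψ x = l (Θ (s⁻¹ • (x - x0)))`, `Ψ' p = x0 + s • Θi (l' p)`. First component on the ball: `e (Θ u) = φ u` with `u = s⁻¹ (x - x0)`,
`x0 + s u = x`. Lipschitz constants: `C0 * 2 / s`, `s * 2 * C0`.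
-/

open Filter Topology Metric H24.LS

namespace H80.LD

theorem chart (m : ℕ) : ∃ C : ℝ, 1 ≤ C ∧ ∀ f : (Fin (m + 1) → ℂ) → ℂ, Grm f →
    fderiv ℂ (fderiv ℂ f) 0 = 0 → ∀ R K : ℝ, 0 < R → 0 < K → ∃ r0 : ℝ, 0 < r0 ∧
    ∀ x0 : Fin (m + 1) → ℂ, x0 ≠ 0 → ‖x0‖ < r0 →
    ∃ (Ψ : (Fin (m + 1) → ℂ) → ℂ × (Fin (2 * m) → ℝ))
      (Ψ' : ℂ × (Fin (2 * m) → ℝ) → (Fin (m + 1) → ℂ)),
      (∀ x y, ‖Ψ x - Ψ y‖ ≤ C / (K * ‖fderiv ℂ f x0‖) * ‖x - y‖) ∧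
      (∀ p q, ‖Ψ' p - Ψ' q‖ ≤ C * (K * ‖fderiv ℂ f x0‖) * ‖p - q‖) ∧
      (∀ x, Ψ' (Ψ x) = x) ∧ (∀ p, Ψ (Ψ' p) = p) ∧ Ψ x0 = 0 ∧
      (∀ x ∈ ball x0 (R * (K * ‖fderiv ℂ f x0‖)), (Ψ x).1 =
        (f x - f x0) / (((K * ‖fderiv ℂ f x0‖ : ℝ) : ℂ) * ((‖fderiv ℂ f x0‖ : ℝ) : ℂ))) := by
  obtain ⟨C0, hC0, hlin⟩ := lin_chart m
  refine ⟨2 * C0, by linarith, ?_⟩
  intro f hf f2 R K hR hK
  have hw : 0 < 1 / (8 * K * R) := by positivity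
  obtain ⟨r, hreg⟩ := reg_exists hf f2 hw
  refine ⟨r / 2, half_pos hreg.hr, ?_⟩
  intro x0 hx0 hx0r
  have hr := hreg.hr
  have hmem : x0 ∈ ball (0 : Fin (m + 1) → ℂ) r := by
    rw [mem_ball_zero_iff]; linarith
  have hκ : 0 < ‖fderiv ℂ f x0‖ := hreg.pos x0 hmem hx0
  have hsmall := hreg.small x0 hmem
  generalize hκdef : ‖fderiv ℂ f x0‖ = κ at *
  have hs : 0 < K * κ := mul_pos hK hκ
  have hsC : ((K * κ : ℝ) : ℂ) ≠ 0 := by exact_mod_cast hs.ne'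
  have hκC : (κ : ℂ) ≠ 0 := by exact_mod_cast hκ.ne'
  -- the ball stays inside
  have hin : ‖x0‖ + (K * κ) * R < r := by
    have h1 : (K * κ) * R ≤ ‖x0‖ / 8 := by
      calc (K * κ) * R ≤ (K * (1 / (8 * K * R) * ‖x0‖)) * R := by gcongr
        _ = ‖x0‖ / 8 := by field_simp
    have h2 : 0 ≤ ‖x0‖ := norm_nonneg _
    linarith
  set e : (Fin (m + 1) → ℂ) →L[ℂ] ℂ := ((κ : ℂ)⁻¹) • fderiv ℂ f x0 with he
  have hnorm : ‖e‖ = 1 := by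
    rw [he, norm_smul, norm_inv, Complex.norm_real, Real.norm_of_nonneg hκ.le, hκdef]
    exact inv_mul_cancel₀ hκ.ne'
  obtain ⟨w0, hw0, hw0n⟩ := exists_vec e (by rw [hnorm]; exact one_pos)
  rw [hnorm] at hw0n
  have hφ0 : rsf f x0 (K * κ) κ (f x0) 0 = 0 := by
    simp [rsf]
  have hres := fun u hu => hreg.resc (y0 := x0) (f x0) hs hκ hR hin u hu
  have hwR : 1 / (8 * K * R) * (K * κ) * R / κ = 1 / 8 := by
    field_simp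
  obtain ⟨Θ, Θi, hΘ1, hΘ2, hΘ3, hΘ4, -, -, hΘ7, hΘ8⟩ := straighten e w0 (M := 2) (η := 1 / 8) hR
    (by norm_num) (by simpa using hw0n) (by norm_num) hw0 (rsf f x0 (K * κ) κ (f x0))
    (by rw [hφ0]; simp) (fun u hu => (hres u hu).1)
    (fun u hu => by
      have h := (hres u hu).2
      rw [hwR] at h
      exact h)
  obtain ⟨l, l', hl1, hl2, hl3, hl4, hl5, hl6⟩ := hlin e hnorm
  have hΘ0 := hΘ8 hφ0
  refine ⟨fun x => l (Θ (((K * κ : ℝ) : ℂ)⁻¹ • (x - x0))),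
    fun p => x0 + ((K * κ : ℝ) : ℂ) • Θi (l' p), ?_, ?_, ?_, ?_, ?_, ?_⟩
  · intro x y
    have h1 := hl1 (Θ (((K * κ : ℝ) : ℂ)⁻¹ • (x - x0))) (Θ (((K * κ : ℝ) : ℂ)⁻¹ • (y - x0)))
    have h2 := hΘ3 (((K * κ : ℝ) : ℂ)⁻¹ • (x - x0)) (((K * κ : ℝ) : ℂ)⁻¹ • (y - x0))
    have h3 : ‖((K * κ : ℝ) : ℂ)⁻¹ • (x - x0) - ((K * κ : ℝ) : ℂ)⁻¹ • (y - x0)‖
        = (K * κ)⁻¹ * ‖x - y‖ := by
      rw [← smul_sub, norm_smul, norm_inv, Complex.norm_real, Real.norm_of_nonneg hs.le]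
      congr 2
      abel
    rw [h3] at h2
    calc _ ≤ C0 * (2 * ((K * κ)⁻¹ * ‖x - y‖)) :=
          h1.trans (mul_le_mul_of_nonneg_left h2 (by linarith))
      _ = 2 * C0 / (K * κ) * ‖x - y‖ := by
          rw [div_eq_mul_inv]; ring
  · intro p q
    have h1 := hl2 p q
    have h2 := hΘ4 (l' p) (l' q)
    have h3 : ‖x0 + ((K * κ : ℝ) : ℂ) • Θi (l' p) - (x0 + ((K * κ : ℝ) : ℂ) • Θi (l' q))‖
        = (K * κ) * ‖Θi (l' p) - Θi (l' q)‖ := by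
      rw [add_sub_add_left_eq_sub, ← smul_sub, norm_smul, Complex.norm_real,
        Real.norm_of_nonneg hs.le]
    show ‖x0 + ((K * κ : ℝ) : ℂ) • Θi (l' p) - (x0 + ((K * κ : ℝ) : ℂ) • Θi (l' q))‖ ≤ _
    rw [h3]
    calc (K * κ) * ‖Θi (l' p) - Θi (l' q)‖ ≤ (K * κ) * (2 * (C0 * ‖p - q‖)) := by
          gcongr
          exact h2.trans (by gcongr)
      _ = 2 * C0 * (K * κ) * ‖p - q‖ := by ring
  · intro x
    show x0 + ((K * κ : ℝ) : ℂ) • Θi (l' (l (Θ (((K * κ : ℝ) : ℂ)⁻¹ • (x - x0))))) = x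
    rw [hl3, hΘ1, smul_smul, mul_inv_cancel₀ hsC, one_smul]
    abel
  · intro p
    show l (Θ (((K * κ : ℝ) : ℂ)⁻¹ • (x0 + ((K * κ : ℝ) : ℂ) • Θi (l' p) - x0))) = p
    rw [add_sub_cancel_left, smul_smul, inv_mul_cancel₀ hsC, one_smul, hΘ2, hl4]
  · show l (Θ (((K * κ : ℝ) : ℂ)⁻¹ • (x0 - x0))) = 0
    rw [sub_self, smul_zero, hΘ0, hl5]
  · intro x hx
    show (l (Θ (((K * κ : ℝ) : ℂ)⁻¹ • (x - x0)))).1 = _
    have hu : ((K * κ : ℝ) : ℂ)⁻¹ • (x - x0) ∈ closedBall (0 : Fin (m + 1) → ℂ) R := by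
      rw [mem_closedBall_zero_iff, norm_smul, norm_inv, Complex.norm_real,
        Real.norm_of_nonneg hs.le]
      rw [mem_ball, dist_eq_norm] at hx
      rw [inv_mul_le_iff₀ hs]
      linarith
    rw [hl6, hΘ7 _ hu]
    unfold rsf
    rw [smul_smul, mul_inv_cancel₀ hsC, one_smul, add_sub_cancel]

end H80.LD
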