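import Pool.Agent.H80.LD.Defs

/-!
# ACpt (project MP_816883_LD, part A): compactness lemma

`cpt`: by contradiction; for every `j : ℕ` there are `T_j, S_j, e_j, e'_j` with `CptHyp ... L (1/(j+1))` (`push_neg`, `choose`) such that no
`T1, S1, e1, e1'` as in the conclusion exists. Let `U = Filter.hyperfilter ℕ` (an ultrafilter, `≤ atTop`). Everything
below is for `j` large (depending on the points), so `U`-eventually.
* For every `u`: `‖T_j u‖ ≤ L ‖u‖` (`T_j 0 = 0`), so by compactness of closed balls (`ProperSpace`: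
  `FiniteDimensional.proper ℂ E`; `IsCompact.ultrafilter_le_nhds` for `U.map (fun j => T_j u)`) `T_j u → T u` along `U`. `‖S_j 0‖ =
  ‖S_j (T_j 0) - 0‖ ≤ 1/(j+1) ≤ 1`, so `‖S_j v‖ ≤ L ‖v‖ + 1` and `S_j v → S v`. `e_j → e1`, `e'_j → e1'` (norms `≤ L`,
  finite-dimensional dual spaces).
* `T`, `S` are `L`-Lipschitz (`le_of_tendsto`). `S (T u) = u`: `S_j (T_j u) → u` as `‖S_j (T_j u) - u‖ ≤ 1/(j+1)`, and
  `‖S_j (T_j u) - S_j (T u)‖ ≤ L ‖T_j u - T u‖ → 0`, `S_j (T u) → S (T u)`; uniqueness of limits. The same for `T (S v) = v`.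
* `e1' (T u) = e1 u`: limits of `e'_j (T_j u)` and `e_j u`, with difference `≤ 1/(j+1)`.
* `‖T u - T_j u‖ ≤ η` for all `u ∈ closedBall 0 R`, `U`-eventually: finite `η/(4L)`-net of the compact `closedBall 0 R`
  (`IsCompact.finite_cover_balls`), at the points of the net `‖T p - T_j p‖ ≤ η/2` eventually (`Filter.eventually_all_finset`), and both `T`
  and `T_j` are `L`-Lipschitz on the ball of radius `R + 1 + η/(4L)`. The same for `S`. `‖e1 - e_j‖ ≤ η`, `‖e1' - e'_j‖ ≤ η` eventually.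
Pick one `j`: contradiction.
-/

open Filter Topology Metric

namespace H80.LD

variable {E E' : Type*} [NormedAddCommGroup E] [NormedSpace ℂ E] [NormedAddCommGroup E']
  [NormedSpace ℂ E']

/-- almost inverse Lipschitz maps almost intertwining two linear forms, on the ball of radius `1/δ` -/
structure CptHyp (T : E → E') (S : E' → E) (e : E →L[ℂ] ℂ) (e' : E' →L[ℂ] ℂ) (L δ : ℝ) :
    Prop where
  T0 : T 0 = 0
  lipT : ∀ u ∈ ball (0 : E) (1 / δ), ∀ v ∈ ball (0 : E) (1 / δ), ‖T u - T v‖ ≤ L * ‖u - v‖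
  lipS : ∀ u ∈ ball (0 : E') (1 / δ), ∀ v ∈ ball (0 : E') (1 / δ), ‖S u - S v‖ ≤ L * ‖u - v‖
  ST : ∀ u ∈ ball (0 : E) (1 / δ), ‖S (T u) - u‖ ≤ δ
  TS : ∀ v ∈ ball (0 : E') (1 / δ), ‖T (S v) - v‖ ≤ δ
  eT : ∀ u ∈ ball (0 : E) (1 / δ), ‖e' (T u) - e u‖ ≤ δ
  ne : ‖e‖ ≤ L
  ne' : ‖e'‖ ≤ L

theorem acpt_lim {F : Type*} [NormedAddCommGroup F] [ProperSpace F] (U : Ultrafilter ℕ) (f : ℕ → F)
    (C : ℝ) (h : ∀ᶠ j in (U : Filter ℕ), ‖f j‖ ≤ C) : ∃ x, Tendsto f (U : Filter ℕ) (𝓝 x) := by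
  have hc := isCompact_closedBall (0 : F) C
  obtain ⟨x, _, hx⟩ := hc.ultrafilter_le_nhds (U.map f) (by
    rw [le_principal_iff, Ultrafilter.coe_map, mem_map]
    filter_upwards [h] with j hj
    simpa using hj)
  exact ⟨x, hx⟩

theorem acpt_rad (U : Ultrafilter ℕ) (hU : (U : Filter ℕ) ≤ atTop) (r : ℝ) :
    ∀ᶠ j : ℕ in (U : Filter ℕ), r < 1 / (1 / ((j : ℝ) + 1)) := by
  have h : ∀ᶠ j : ℕ in atTop, r < 1 / (1 / ((j : ℝ) + 1)) := by
    filter_upwards [eventually_gt_atTop ⌈r⌉₊] with j hj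
    have h1 : r < j := (Nat.le_ceil r).trans_lt (by exact_mod_cast hj)
    rw [one_div_one_div]
    linarith
  exact h.filter_mono hU

theorem acpt_unif {F F' : Type*} [NormedAddCommGroup F] [ProperSpace F] [NormedAddCommGroup F']
    (U : Ultrafilter ℕ) (hU : (U : Filter ℕ) ≤ atTop) (f : ℕ → F → F') (g : F → F') (L R η : ℝ)
    (hL : 1 ≤ L) (hη : 0 < η)
    (hf : ∀ j : ℕ, ∀ u ∈ ball (0 : F) (1 / (1 / ((j : ℝ) + 1))),
      ∀ v ∈ ball (0 : F) (1 / (1 / ((j : ℝ) + 1))), ‖f j u - f j v‖ ≤ L * ‖u - v‖)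
    (hg : ∀ u v, ‖g u - g v‖ ≤ L * ‖u - v‖)
    (h : ∀ u, Tendsto (fun j => f j u) (U : Filter ℕ) (𝓝 (g u))) :
    ∀ᶠ j in (U : Filter ℕ), ∀ u ∈ closedBall (0 : F) R, ‖g u - f j u‖ ≤ η := by
  have hL0 : 0 < L := by linarith
  obtain ⟨t, hts, htf, hcov⟩ := (isCompact_closedBall (0 : F) R).finite_cover_balls
    (e := η / (4 * L)) (by positivity)
  have h1 : ∀ᶠ j in (U : Filter ℕ), ∀ p ∈ t, ‖g p - f j p‖ ≤ η / 2 := by
    rw [eventually_all_finite htf]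
    intro p _
    have h2 := (h p)
    rw [Metric.tendsto_nhds] at h2
    filter_upwards [h2 (η / 2) (by positivity)] with j hj
    rw [dist_comm, dist_eq_norm] at hj
    exact hj.le
  filter_upwards [h1, acpt_rad U hU R] with j hj hr u hu
  obtain ⟨p, hp, hup⟩ : ∃ p ∈ t, u ∈ ball p (η / (4 * L)) := by
    have := hcov hu
    simpa using this
  have hup' : ‖u - p‖ < η / (4 * L) := by
    rw [mem_ball, dist_eq_norm] at hup
    exact hup
  have hub : u ∈ ball (0 : F) (1 / (1 / ((j : ℝ) + 1))) := by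
    rw [mem_ball]
    rw [mem_closedBall] at hu
    linarith
  have hpb : p ∈ ball (0 : F) (1 / (1 / ((j : ℝ) + 1))) := by
    have := hts hp
    rw [mem_ball]
    rw [mem_closedBall] at this
    linarith
  have e1 : L * ‖u - p‖ ≤ η / 4 := by
    have : L * ‖u - p‖ ≤ L * (η / (4 * L)) := mul_le_mul_of_nonneg_left hup'.le hL0.le
    have h3 : L * (η / (4 * L)) = η / 4 := by field_simp
    linarith
  have a1 := hg u p
  have a2 := hj p hp
  have a3 := hf j p hpb u hub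
  rw [norm_sub_rev p u] at a3
  have a4 : g u - f j u = (g u - g p) + (g p - f j p) + (f j p - f j u) := by abel
  rw [a4]
  have a5 := norm_add₃_le (a := g u - g p) (b := g p - f j p) (c := f j p - f j u)
  linarith

theorem acpt_inv {F F' : Type*} [NormedAddCommGroup F] [NormedAddCommGroup F']
    (U : Ultrafilter ℕ) (hU : (U : Filter ℕ) ≤ atTop) (T : ℕ → F → F') (S : ℕ → F' → F)
    (T' : F → F') (S' : F' → F) (L : ℝ)
    (lipS : ∀ j : ℕ, ∀ u ∈ ball (0 : F') (1 / (1 / ((j : ℝ) + 1))),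
      ∀ v ∈ ball (0 : F') (1 / (1 / ((j : ℝ) + 1))), ‖S j u - S j v‖ ≤ L * ‖u - v‖)
    (ST : ∀ j : ℕ, ∀ u ∈ ball (0 : F) (1 / (1 / ((j : ℝ) + 1))),
      ‖S j (T j u) - u‖ ≤ 1 / ((j : ℝ) + 1))
    (hT : ∀ u, Tendsto (fun j => T j u) (U : Filter ℕ) (𝓝 (T' u)))
    (hS : ∀ u, Tendsto (fun j => S j u) (U : Filter ℕ) (𝓝 (S' u))) (u : F) :
    S' (T' u) = u := by
  have h0 : Tendsto (fun j : ℕ => 1 / ((j : ℝ) + 1)) (U : Filter ℕ) (𝓝 0) :=
    tendsto_one_div_add_atTop_nhds_zero_nat.mono_left hU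
  -- the difference tends to zero
  have h1 : Tendsto (fun j => ‖S j (T' u) - u‖) (U : Filter ℕ) (𝓝 0) := by
    have h2 : Tendsto (fun j => L * ‖T' u - T j u‖ + 1 / ((j : ℝ) + 1)) (U : Filter ℕ) (𝓝 0) := by
      have h3 : Tendsto (fun j => ‖T' u - T j u‖) (U : Filter ℕ) (𝓝 0) := by
        have := (tendsto_const_nhds (x := T' u)).sub (hT u)
        rw [sub_self] at this
        simpa using this.norm
      simpa using (h3.const_mul L).add h0
    refine tendsto_of_tendsto_of_tendsto_of_le_of_le' tendsto_const_nhds h2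
      (Eventually.of_forall fun j => norm_nonneg _) ?_
    have hTn : ∀ᶠ j in (U : Filter ℕ), ‖T j u‖ < ‖T' u‖ + 1 :=
      (hT u).norm.eventually_lt_const (by linarith)
    filter_upwards [hTn, acpt_rad U hU (‖T' u‖ + 1), acpt_rad U hU ‖u‖] with j h4 h5 h6
    have a1 := lipS j (T' u) (by rw [mem_ball_zero_iff]; linarith) (T j u)
      (by rw [mem_ball_zero_iff]; linarith)
    have a2 := ST j u (by rw [mem_ball_zero_iff]; linarith)
    have a3 : S j (T' u) - u = (S j (T' u) - S j (T j u)) + (S j (T j u) - u) := by abel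
    rw [a3]
    exact (norm_add_le _ _).trans (by linarith)
  have h2 : Tendsto (fun j => ‖S j (T' u) - u‖) (U : Filter ℕ) (𝓝 ‖S' (T' u) - u‖) :=
    ((hS (T' u)).sub tendsto_const_nhds).norm
  have h3 := tendsto_nhds_unique h2 h1
  rwa [norm_eq_zero, sub_eq_zero] at h3

theorem cpt [FiniteDimensional ℂ E] [FiniteDimensional ℂ E'] (L R η : ℝ) (hL : 1 ≤ L)
    (hη : 0 < η) : ∃ δ : ℝ, 0 < δ ∧ ∀ (T : E → E') (S : E' → E) (e : E →L[ℂ] ℂ)
      (e' : E' →L[ℂ] ℂ), CptHyp T S e e' L δ →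
      ∃ (T1 : E → E') (S1 : E' → E) (e1 : E →L[ℂ] ℂ) (e1' : E' →L[ℂ] ℂ),
        (∀ u v, ‖T1 u - T1 v‖ ≤ L * ‖u - v‖) ∧ (∀ u v, ‖S1 u - S1 v‖ ≤ L * ‖u - v‖) ∧
        (∀ u, S1 (T1 u) = u) ∧ (∀ v, T1 (S1 v) = v) ∧ (∀ u, e1' (T1 u) = e1 u) ∧
        (∀ u ∈ closedBall (0 : E) R, ‖T1 u - T u‖ ≤ η) ∧
        (∀ v ∈ closedBall (0 : E') R, ‖S1 v - S v‖ ≤ η) ∧ ‖e1 - e‖ ≤ η ∧ ‖e1' - e'‖ ≤ η := by
  have hpE : ProperSpace E := FiniteDimensional.proper ℂ E
  have hpE' : ProperSpace E' := FiniteDimensional.proper ℂ E'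
  have hpd : ProperSpace (E →L[ℂ] ℂ) := FiniteDimensional.proper ℂ (E →L[ℂ] ℂ)
  have hpd' : ProperSpace (E' →L[ℂ] ℂ) := FiniteDimensional.proper ℂ (E' →L[ℂ] ℂ)
  by_contra hcon
  have key : ∀ j : ℕ, ∃ (T : E → E') (S : E' → E) (e : E →L[ℂ] ℂ) (e' : E' →L[ℂ] ℂ),
      CptHyp T S e e' L (1 / ((j : ℝ) + 1)) ∧ ¬ (∃ (T1 : E → E') (S1 : E' → E) (e1 : E →L[ℂ] ℂ)
        (e1' : E' →L[ℂ] ℂ),
        (∀ u v, ‖T1 u - T1 v‖ ≤ L * ‖u - v‖) ∧ (∀ u v, ‖S1 u - S1 v‖ ≤ L * ‖u - v‖) ∧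
        (∀ u, S1 (T1 u) = u) ∧ (∀ v, T1 (S1 v) = v) ∧ (∀ u, e1' (T1 u) = e1 u) ∧
        (∀ u ∈ closedBall (0 : E) R, ‖T1 u - T u‖ ≤ η) ∧
        (∀ v ∈ closedBall (0 : E') R, ‖S1 v - S v‖ ≤ η) ∧ ‖e1 - e‖ ≤ η ∧ ‖e1' - e'‖ ≤ η) := by
    intro j
    by_contra h
    apply hcon
    refine ⟨1 / ((j : ℝ) + 1), by positivity, fun T S e e' hyp => ?_⟩
    by_contra h2
    exact h ⟨T, S, e, e', hyp, h2⟩
  choose T S e e' hyp hno using key
  obtain ⟨U, hU⟩ : ∃ U : Ultrafilter ℕ, (U : Filter ℕ) ≤ atTop :=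
    ⟨Filter.hyperfilter ℕ, Nat.hyperfilter_le_atTop⟩
  have h0 : Tendsto (fun j : ℕ => 1 / ((j : ℝ) + 1)) (U : Filter ℕ) (𝓝 0) :=
    tendsto_one_div_add_atTop_nhds_zero_nat.mono_left hU
  have hz : ∀ j : ℕ, (0 : ℝ) < 1 / (1 / ((j : ℝ) + 1)) := fun j => by positivity
  have hS0 : ∀ j : ℕ, ‖S j 0‖ ≤ 1 := by
    intro j
    have h1 := (hyp j).ST 0 (by rw [mem_ball_zero_iff, norm_zero]; exact hz j)
    rw [(hyp j).T0, sub_zero] at h1
    refine h1.trans ?_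
    rw [div_le_one (by positivity)]
    have : (0 : ℝ) ≤ j := by positivity
    linarith
  have hTl : ∀ u : E, ∃ x, Tendsto (fun j => T j u) (U : Filter ℕ) (𝓝 x) := by
    intro u
    apply acpt_lim U _ (L * ‖u‖)
    filter_upwards [acpt_rad U hU ‖u‖] with j hj
    have h1 := (hyp j).lipT u (by rw [mem_ball_zero_iff]; exact hj) 0
      (by rw [mem_ball_zero_iff, norm_zero]; exact hz j)
    rwa [(hyp j).T0, sub_zero, sub_zero] at h1
  have hSl : ∀ u : E', ∃ x, Tendsto (fun j => S j u) (U : Filter ℕ) (𝓝 x) := by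
    intro u
    apply acpt_lim U _ (L * ‖u‖ + 1)
    filter_upwards [acpt_rad U hU ‖u‖] with j hj
    have h1 := (hyp j).lipS u (by rw [mem_ball_zero_iff]; exact hj) 0
      (by rw [mem_ball_zero_iff, norm_zero]; exact hz j)
    rw [sub_zero] at h1
    have h2 : S j u = (S j u - S j 0) + S j 0 := by abel
    rw [h2]
    exact (norm_add_le _ _).trans (add_le_add h1 (hS0 j))
  choose T' hT' using hTl
  choose S' hS' using hSl
  obtain ⟨e1, he1⟩ := acpt_lim U e L (Eventually.of_forall fun j => (hyp j).ne)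
  obtain ⟨e1', he1'⟩ := acpt_lim U e' L (Eventually.of_forall fun j => (hyp j).ne')
  have lT : ∀ u v, ‖T' u - T' v‖ ≤ L * ‖u - v‖ := by
    intro u v
    refine le_of_tendsto ((hT' u).sub (hT' v)).norm ?_
    filter_upwards [acpt_rad U hU ‖u‖, acpt_rad U hU ‖v‖] with j h1 h2
    exact (hyp j).lipT u (by rw [mem_ball_zero_iff]; exact h1) v
      (by rw [mem_ball_zero_iff]; exact h2)
  have lS : ∀ u v, ‖S' u - S' v‖ ≤ L * ‖u - v‖ := by
    intro u v
    refine le_of_tendsto ((hS' u).sub (hS' v)).norm ?_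
    filter_upwards [acpt_rad U hU ‖u‖, acpt_rad U hU ‖v‖] with j h1 h2
    exact (hyp j).lipS u (by rw [mem_ball_zero_iff]; exact h1) v
      (by rw [mem_ball_zero_iff]; exact h2)
  have iST : ∀ u, S' (T' u) = u :=
    acpt_inv U hU T S T' S' L (fun j => (hyp j).lipS) (fun j => (hyp j).ST) hT' hS'
  have iTS : ∀ u, T' (S' u) = u :=
    acpt_inv U hU S T S' T' L (fun j => (hyp j).lipT) (fun j => (hyp j).TS) hS' hT'
  have ieT : ∀ u, e1' (T' u) = e1 u := by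
    intro u
    have hc1 : Continuous (fun p : (E' →L[ℂ] ℂ) × E' => p.1 p.2) :=
      isBoundedBilinearMap_apply.continuous
    have hc2 : Continuous (fun p : (E →L[ℂ] ℂ) × E => p.1 p.2) :=
      isBoundedBilinearMap_apply.continuous
    have h1 : Tendsto (fun j => e' j (T j u) - e j u) (U : Filter ℕ) (𝓝 (e1' (T' u) - e1 u)) :=
      ((hc1.tendsto (e1', T' u)).comp (he1'.prodMk_nhds (hT' u))).sub
        ((hc2.tendsto (e1, u)).comp (he1.prodMk_nhds tendsto_const_nhds))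
    have h2 : Tendsto (fun j => ‖e' j (T j u) - e j u‖) (U : Filter ℕ) (𝓝 0) := by
      refine tendsto_of_tendsto_of_tendsto_of_le_of_le' tendsto_const_nhds h0
        (Eventually.of_forall fun j => norm_nonneg _) ?_
      filter_upwards [acpt_rad U hU ‖u‖] with j hj
      exact (hyp j).eT u (by rw [mem_ball_zero_iff]; exact hj)
    have h3 := tendsto_nhds_unique h1.norm h2
    rwa [norm_eq_zero, sub_eq_zero] at h3
  have c1 := acpt_unif U hU T T' L R η hL hη (fun j => (hyp j).lipT) lT hT'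
  have c2 := acpt_unif U hU S S' L R η hL hη (fun j => (hyp j).lipS) lS hS'
  have c3 : ∀ᶠ j in (U : Filter ℕ), ‖e1 - e j‖ ≤ η := by
    have h2 := he1
    rw [Metric.tendsto_nhds] at h2
    filter_upwards [h2 η hη] with j hj
    rw [dist_comm, dist_eq_norm] at hj
    exact hj.le
  have c4 : ∀ᶠ j in (U : Filter ℕ), ‖e1' - e' j‖ ≤ η := by
    have h2 := he1'
    rw [Metric.tendsto_nhds] at h2
    filter_upwards [h2 η hη] with j hj
    rw [dist_comm, dist_eq_norm] at hj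
    exact hj.le
  obtain ⟨j, ⟨d1, d2⟩, d3, d4⟩ := ((c1.and c2).and (c3.and c4)).exists
  exact hno j ⟨T', S', e1, e1', lT, lS, iST, iTS, ieT, d1, d2, d3, d4⟩

end H80.LD
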