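import Mathlib

/-!
# MP_816883_ag, project LD (Lipschitz deformation theorem), PI helper80

Definitions shared by all modules.  Do not change this file.

`X` is a parameter space (`ℂ` in the application: the value of the function `f`), `D` the finite set of the
other real coordinates.  All maps `e : X × (D → ℝ) → X × (D → ℝ)` preserve the first component.
Norm on `X × (D → ℝ)`: the sup norm of Mathlib.
-/

open Filter Topology Metric Set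

namespace H80.LD

/-- weighted coordinates: the weighted norm of `v` is `‖sc w v‖`. -/
def sc {X D : Type*} (w : D → ℝ) (v : X × (D → ℝ)) : X × (D → ℝ) := (v.1, fun i => w i * v.2 i)

/-- `(e, e')` is a near-identity bi-Lipschitz pair on `U` with respect to the weights `W`
(pointwise formulation: all conditions are at points of `U`). -/
structure NI {X : Type*} [NormedAddCommGroup X] {D : Type*} [Fintype D]
    (W : X × (D → ℝ) → D → ℝ) (ε L : ℝ) (U : Set (X × (D → ℝ)))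
    (e e' : X × (D → ℝ) → X × (D → ℝ)) : Prop where
  pres : ∀ p, (e p).1 = p.1
  pres' : ∀ p, (e' p).1 = p.1
  disp : ∀ p ∈ U, ‖sc (W p) (e p - p)‖ ≤ ε
  disp' : ∀ p ∈ U, ‖sc (W p) (e' p - p)‖ ≤ ε
  lip : ∀ p ∈ U, ∀ᶠ q in 𝓝 p, ‖sc (W p) (e q - e p)‖ ≤ L * ‖sc (W p) (q - p)‖
  lip' : ∀ p ∈ U, ∀ᶠ q in 𝓝 p, ‖sc (W p) (e' q - e' p)‖ ≤ L * ‖sc (W p) (q - p)‖
  inv : ∀ p ∈ U, e p ∈ U → e' (e p) = p
  inv' : ∀ p ∈ U, e' p ∈ U → e (e' p) = p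

/-- the same with all weights equal to one, for a general normed space `V` instead of `D → ℝ`. -/
structure NP {X V : Type*} [NormedAddCommGroup X] [NormedAddCommGroup V]
    (ε L : ℝ) (U : Set (X × V)) (e e' : X × V → X × V) : Prop where
  pres : ∀ p, (e p).1 = p.1
  pres' : ∀ p, (e' p).1 = p.1
  disp : ∀ p ∈ U, ‖e p - p‖ ≤ ε
  disp' : ∀ p ∈ U, ‖e' p - p‖ ≤ ε
  lip : ∀ p ∈ U, ∀ᶠ q in 𝓝 p, ‖e q - e p‖ ≤ L * ‖q - p‖
  lip' : ∀ p ∈ U, ∀ᶠ q in 𝓝 p, ‖e' q - e' p‖ ≤ L * ‖q - p‖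
  inv : ∀ p ∈ U, e p ∈ U → e' (e p) = p
  inv' : ∀ p ∈ U, e' p ∈ U → e (e' p) = p

/-- The Lipschitz deformation (extension) theorem with complex parameter: a near-identity bi-Lipschitz pair on
`U` can be replaced by a global one, unchanged deep inside `U` and equal to the identity outside `U`. -/
def ExtStmt (D : Type) [Fintype D] : Prop :=
  ∀ L : ℝ, 1 ≤ L → ∀ ζ : ℝ, 0 < ζ → ∃ ε₀ : ℝ, 0 < ε₀ ∧ ∃ C : ℝ, 1 ≤ C ∧
    ∀ ε : ℝ, 0 < ε → ε ≤ ε₀ → ∀ (U : Set (ℂ × (D → ℝ))) (e e' : ℂ × (D → ℝ) → ℂ × (D → ℝ)),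
      NP ε L U e e' → ∃ F F' : ℂ × (D → ℝ) → ℂ × (D → ℝ), NP (C * ε) C univ F F' ∧
        (∀ p, closedBall p ζ ⊆ U → F p = e p ∧ F' p = e' p) ∧
        (∀ p, p ∉ U → F p = p ∧ F' p = p)

/-- The core (tapering across the wall `p.2 t = 0`). -/
def CoreStmt (X : Type) [NormedAddCommGroup X] [NormedSpace ℝ X] (D : Type) [Fintype D] (t : D) : Prop :=
  ∀ L : ℝ, 1 ≤ L → ∃ R : ℝ, 1 ≤ R ∧ ∃ ε₀ : ℝ, 0 < ε₀ ∧ ∃ C : ℝ, 1 ≤ C ∧
    ∀ ε : ℝ, 0 < ε → ε ≤ ε₀ → ∀ (U : Set (X × (D → ℝ))) (e e' : X × (D → ℝ) → X × (D → ℝ)),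
      NP ε L U e e' → ∃ F F' : X × (D → ℝ) → X × (D → ℝ),
        NP (C * ε) C {p : X × (D → ℝ) | (p.2 t < 0 ∧ p ∈ U) ∨ closedBall p R ⊆ U ∨ R < p.2 t} F F' ∧
        (∀ p : X × (D → ℝ), p.2 t ≤ 0 → F p = e p ∧ F' p = e' p) ∧
        (∀ p : X × (D → ℝ), R ≤ p.2 t → F p = p ∧ F' p = p) ∧
        (∀ p : X × (D → ℝ), (∀ q ∈ closedBall p R, e q = q ∧ e' q = q) → F p = p ∧ F' p = p)

end H80.LD
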