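import Pool.Agent.H24.LS.A0
import Pool.Agent.H80.LD.Defs

/-!
# AReg (project MP_816883_LD, part A): regularity of a germ with zero Hessian on a small ball

* `reg_exists`: `fderiv ℂ f` is analytic at `0` (`AnalyticAt.fderiv`), so it has the strict derivative
  `fderiv ℂ (fderiv ℂ f) 0 = 0` at `0`: `‖f'(x) - f'(y)‖ ≤ w ‖x - y‖` for `(x, y)` near `(0, 0)`
  (`HasStrictFDerivAt.isLittleO`, `Asymptotics.IsLittleO.def`, `nhds_prod_eq`/`Metric.eventually_nhds_iff_ball`).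
  `small`: put `y = 0`, `f'(0) = 0`. `diff`: `AnalyticAt.eventually_analyticAt`. `pos`: `Grm.iso`.
* `Reg.mono`: trivial.
* `Reg.quad`: `z ↦ f z - f'(x) z` has derivative `f'(z) - f'(x)` of norm `≤ w ‖z - x‖ ≤ w ‖y - x‖` on the segment
  `[x, y] ⊆ ball 0 r` (`Convex.norm_image_sub_le_of_norm_hasFDerivWithin_le` on `segment ℝ x y`).
* `Reg.near`: the triangle inequality and `lip`.
* `Reg.resc`: chain rule, `fderiv (rsf f y0 s κ c) u = κ⁻¹ f'(y0 + s u)` and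
  `‖f'(y0 + s u) - f'(y0)‖ ≤ w s ‖u‖`.
-/

open Filter Topology Metric H24.LS

namespace H80.LD

variable {E : Type*} [NormedAddCommGroup E] [NormedSpace ℂ E]

/-- on the ball of radius `r` the function `f` is differentiable, its derivative is `w`-Lipschitz, is at
most `w ‖x‖` and does not vanish outside the origin -/
structure Reg (f : E → ℂ) (w r : ℝ) : Prop where
  hw : 0 < w
  hr : 0 < r
  diff : ∀ x ∈ ball (0 : E) r, DifferentiableAt ℂ f x
  lip : ∀ x ∈ ball (0 : E) r, ∀ y ∈ ball (0 : E) r, ‖fderiv ℂ f x - fderiv ℂ f y‖ ≤ w * ‖x - y‖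
  small : ∀ x ∈ ball (0 : E) r, ‖fderiv ℂ f x‖ ≤ w * ‖x‖
  pos : ∀ x ∈ ball (0 : E) r, x ≠ 0 → 0 < ‖fderiv ℂ f x‖

/-- the function `u ↦ (f (y0 + s u) - c) / (s κ)` -/
noncomputable def rsf (f : E → ℂ) (y0 : E) (s κ : ℝ) (c : ℂ) (u : E) : ℂ :=
  (f (y0 + (s : ℂ) • u) - c) / ((s : ℂ) * (κ : ℂ))

theorem Reg.mono {f : E → ℂ} {w r w' r' : ℝ} (h : Reg f w r) (hw : w ≤ w') (h0 : 0 < r')
    (hr : r' ≤ r) : Reg f w' r' := by
  have hb : ball (0 : E) r' ⊆ ball 0 r := ball_subset_ball hr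
  exact ⟨h.hw.trans_le hw, h0, fun x hx => h.diff x (hb hx),
    fun x hx y hy => (h.lip x (hb hx) y (hb hy)).trans
      (mul_le_mul_of_nonneg_right hw (norm_nonneg _)),
    fun x hx => (h.small x (hb hx)).trans (mul_le_mul_of_nonneg_right hw (norm_nonneg _)),
    fun x hx hne => h.pos x (hb hx) hne⟩

theorem reg_exists {f : E → ℂ} (hf : Grm f) (f2 : fderiv ℂ (fderiv ℂ f) 0 = 0) {w : ℝ}
    (hw : 0 < w) : ∃ r : ℝ, Reg f w r := by
  have han : AnalyticAt ℂ (fderiv ℂ f) 0 := hf.an.fderiv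
  have hs := han.hasStrictFDerivAt
  rw [f2] at hs
  have h1 := hs.isLittleO.def hw
  rw [Metric.eventually_nhds_iff_ball] at h1
  obtain ⟨r1, hr1, h1⟩ := h1
  have h2 := hf.an.eventually_analyticAt
  rw [Metric.eventually_nhds_iff_ball] at h2
  obtain ⟨r2, hr2, h2⟩ := h2
  have h3 := eventually_nhdsWithin_iff.1 hf.iso
  rw [Metric.eventually_nhds_iff_ball] at h3
  obtain ⟨r3, hr3, h3⟩ := h3
  have hlip : ∀ x ∈ ball (0 : E) r1, ∀ y ∈ ball (0 : E) r1,
      ‖fderiv ℂ f x - fderiv ℂ f y‖ ≤ w * ‖x - y‖ := by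
    intro x hx y hy
    have hm : (x, y) ∈ ball ((0 : E), (0 : E)) r1 := by
      rw [← ball_prod_same]; exact ⟨hx, hy⟩
    have := h1 (x, y) hm
    simpa using this
  refine ⟨min r1 (min r2 r3), hw, lt_min hr1 (lt_min hr2 hr3), fun x hx => ?_,
    fun x hx y hy => ?_, fun x hx => ?_, fun x hx hne => ?_⟩
  · exact (h2 x (ball_subset_ball ((min_le_right _ _).trans (min_le_left _ _)) hx)).differentiableAt
  · exact hlip x (ball_subset_ball (min_le_left _ _) hx) y (ball_subset_ball (min_le_left _ _) hy)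
  · have := hlip x (ball_subset_ball (min_le_left _ _) hx) 0 (mem_ball_self hr1)
    rwa [hf.f1, sub_zero, sub_zero] at this
  · exact norm_pos_iff.2 (h3 x (ball_subset_ball ((min_le_right _ _).trans (min_le_right _ _)) hx)
      hne)

theorem Reg.quad {f : E → ℂ} {w r : ℝ} (h : Reg f w r) {x y : E} (hx : x ∈ ball (0 : E) r)
    (hy : y ∈ ball (0 : E) r) : ‖f y - f x - fderiv ℂ f x (y - x)‖ ≤ w * ‖y - x‖ ^ 2 := by
  have hconv : Convex ℝ (ball (0 : E) r) := convex_ball 0 r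
  have hseg : segment ℝ x y ⊆ ball (0 : E) r := hconv.segment_subset hx hy
  have hd : ∀ z ∈ segment ℝ x y, HasFDerivWithinAt (fun z => f z - fderiv ℂ f x z)
      (fderiv ℂ f z - fderiv ℂ f x) (segment ℝ x y) z := by
    intro z hz
    exact ((h.diff z (hseg hz)).hasFDerivAt.sub
      (fderiv ℂ f x).hasFDerivAt).hasFDerivWithinAt
  have hb : ∀ z ∈ segment ℝ x y, ‖fderiv ℂ f z - fderiv ℂ f x‖ ≤ w * ‖y - x‖ := by
    intro z hz
    refine (h.lip z (hseg hz) x hx).trans (mul_le_mul_of_nonneg_left ?_ h.hw.le)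
    obtain ⟨a, b, ha, hb, hab, rfl⟩ := hz
    have e : a • x + b • y - x = b • (y - x) := by
      have : a = 1 - b := by linarith
      rw [this]; module
    rw [e, norm_smul, Real.norm_eq_abs, abs_of_nonneg hb]
    calc b * ‖y - x‖ ≤ 1 * ‖y - x‖ :=
          mul_le_mul_of_nonneg_right (by linarith) (norm_nonneg _)
      _ = ‖y - x‖ := one_mul _
  have := (convex_segment x y).norm_image_sub_le_of_norm_hasFDerivWithin_le hd hb
    (left_mem_segment ℝ x y) (right_mem_segment ℝ x y)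
  have e : f y - fderiv ℂ f x y - (f x - fderiv ℂ f x x) =
      f y - f x - fderiv ℂ f x (y - x) := by
    rw [map_sub]; ring
  rw [e] at this
  calc _ ≤ _ := this
    _ = w * ‖y - x‖ ^ 2 := by ring

theorem Reg.near {f : E → ℂ} {w r : ℝ} (h : Reg f w r) {x y : E} (hx : x ∈ ball (0 : E) r)
    (hy : y ∈ ball (0 : E) r) : ‖fderiv ℂ f y‖ ≤ ‖fderiv ℂ f x‖ + w * ‖y - x‖ := by
  have h1 := h.lip y hy x hx
  have h2 := norm_add_le (fderiv ℂ f x) (fderiv ℂ f y - fderiv ℂ f x)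
  rw [add_sub_cancel] at h2
  linarith

theorem Reg.resc {f : E → ℂ} {w r : ℝ} (h : Reg f w r) {y0 : E} {s κ R : ℝ} (c : ℂ) (hs : 0 < s)
    (hκ : 0 < κ) (hR : 0 < R) (hin : ‖y0‖ + s * R < r) (u : E) (hu : u ∈ closedBall (0 : E) R) :
    DifferentiableAt ℂ (rsf f y0 s κ c) u ∧
      ‖fderiv ℂ (rsf f y0 s κ c) u - ((κ : ℂ)⁻¹) • fderiv ℂ f y0‖ ≤ w * s * R / κ := by
  have hsc : ‖(s : ℂ)‖ = s := by rw [Complex.norm_real, Real.norm_eq_abs, abs_of_pos hs]
  have hκc : ‖(κ : ℂ)‖ = κ := by rw [Complex.norm_real, Real.norm_eq_abs, abs_of_pos hκ]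
  have hs0 : (s : ℂ) ≠ 0 := by exact_mod_cast hs.ne'
  have hκ0 : (κ : ℂ) ≠ 0 := by exact_mod_cast hκ.ne'
  have hu' : ‖u‖ ≤ R := by simpa using hu
  have hsu : ‖(s : ℂ) • u‖ = s * ‖u‖ := by rw [norm_smul, hsc]
  have hsR : s * ‖u‖ ≤ s * R := mul_le_mul_of_nonneg_left hu' hs.le
  have hmem : y0 + (s : ℂ) • u ∈ ball (0 : E) r := by
    rw [mem_ball_zero_iff]
    have := norm_add_le y0 ((s : ℂ) • u)
    rw [hsu] at this
    linarith
  have hmem0 : y0 ∈ ball (0 : E) r := by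
    rw [mem_ball_zero_iff]
    have : 0 < s * R := mul_pos hs hR
    linarith
  have hin1 : HasFDerivAt (fun u : E => y0 + (s : ℂ) • u)
      ((s : ℂ) • ContinuousLinearMap.id ℂ E) u :=
    ((hasFDerivAt_id u).const_smul (s : ℂ)).const_add y0
  have hcomp : HasFDerivAt (fun u : E => f (y0 + (s : ℂ) • u))
      ((fderiv ℂ f (y0 + (s : ℂ) • u)).comp ((s : ℂ) • ContinuousLinearMap.id ℂ E)) u :=
    HasFDerivAt.comp u (h.diff _ hmem).hasFDerivAt hin1
  have hall : HasFDerivAt (rsf f y0 s κ c)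
      ((((s : ℂ) * (κ : ℂ))⁻¹) •
        (fderiv ℂ f (y0 + (s : ℂ) • u)).comp ((s : ℂ) • ContinuousLinearMap.id ℂ E)) u := by
    have h1 := (hcomp.sub_const c).const_mul (((s : ℂ) * (κ : ℂ))⁻¹)
    have e : rsf f y0 s κ c =
        fun u : E => (((s : ℂ) * (κ : ℂ))⁻¹) * (f (y0 + (s : ℂ) • u) - c) := by
      funext v
      unfold rsf
      rw [div_eq_mul_inv, mul_comm]
    rw [e]
    exact h1
  refine ⟨hall.differentiableAt, ?_⟩
  rw [hall.fderiv]
  have e : (((s : ℂ) * (κ : ℂ))⁻¹) •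
      (fderiv ℂ f (y0 + (s : ℂ) • u)).comp ((s : ℂ) • ContinuousLinearMap.id ℂ E) -
      ((κ : ℂ)⁻¹) • fderiv ℂ f y0 =
      ((κ : ℂ)⁻¹) • (fderiv ℂ f (y0 + (s : ℂ) • u) - fderiv ℂ f y0) := by
    ext v
    simp only [ContinuousLinearMap.sub_apply, ContinuousLinearMap.smul_apply,
      ContinuousLinearMap.comp_apply, ContinuousLinearMap.id_apply, map_smul, smul_eq_mul]
    field_simp
  rw [e, norm_smul, norm_inv, hκc]
  have h1 := h.lip _ hmem _ hmem0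
  rw [add_sub_cancel_left, hsu] at h1
  have h2 : w * (s * ‖u‖) ≤ w * (s * R) := mul_le_mul_of_nonneg_left hsR h.hw.le
  calc κ⁻¹ * ‖fderiv ℂ f (y0 + (s : ℂ) • u) - fderiv ℂ f y0‖ ≤ κ⁻¹ * (w * (s * R)) :=
        mul_le_mul_of_nonneg_left (h1.trans h2) (inv_nonneg.2 hκ.le)
    _ = w * s * R / κ := by field_simp

end H80.LD
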