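import Pool.Agent.H80.LD.ACR
import Pool.Agent.H80.LD.ACpt

/-!
# ARes (project MP_816883_LD, part A): the rescaled coarse equivalence

`resc`: let `δ ≤ 1` without loss of generality? (no: keep `δ`; put `δ1 = min δ 1` only in the choice of the constants). `K0 = 10 L^2/δ + 1`...
Given `K ≥ K0` choose `w > 0` with `w K ≤ δ` (so `w K / δ ≤ 1`) and `2 w L^2 K / δ^2 ≤ δ / 2`, `CR f g A B L w r` (`cr_exists`), `r0 = r / (2 L + 2)`.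
Let `κ = ‖f'(x0)‖ > 0`, `s = K κ ≤ K w ‖x0‖`. For `‖u‖ < 1/δ`: `x = x0 + s u`, `‖x - x0‖ ≤ s/δ ≤ ‖x0‖`, `‖x‖ ≤ 2 ‖x0‖ < r`,
`‖f'(x)‖ ≤ κ + w s/δ ≤ 2 κ`; `y = A x0 + s v`, `‖y‖ ≤ L ‖x0‖ + ‖x0‖ < r`, `‖g'(y)‖ ≤ L κ + w s / δ ≤ 2 L κ`.
* `T0`, `lipT`, `lipS`: clear. * `ST`: `S (T u) - u = s⁻¹ (B (A x) - x)`, norm `≤ s⁻¹ L 2 κ = 2 L / K ≤ δ`.
* `TS`: `T (S v) - v = s⁻¹ (A (B y) - y)`, norm `≤ s⁻¹ L 2 L κ = 2 L^2 / K ≤ δ` (`AB'`).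
* `eT`: `e' (T u) - e u = (s κ)⁻¹ (g'(A x0) (A x - A x0) - f'(x0) (x - x0))`; by `Reg.quad` this is
  `(s κ)⁻¹ ((g (A x) - f x) - (g (A x0) - f x0) + O(w L^2 s^2/δ^2) + O(w s^2/δ^2))`, norm
  `≤ (K κ^2)⁻¹ (4 L κ^2 + L κ^2 + 2 w L^2 K^2 κ^2/δ^2) = 5 L/K + 2 w L^2 K/δ^2 ≤ δ/2 + δ/2`.
* `ne`: `‖e‖ = 1`; `ne'`: `dA`.
`resc_g0`: `‖g (A x0) - f x0‖ / (s κ) ≤ L κ^2 / (K κ^2)`. `resc_e'`: `dA'`.
-/

open Filter Topology Metric H24.LS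

namespace H80.LD

variable {E E' : Type*} [NormedAddCommGroup E] [NormedSpace ℂ E] [NormedAddCommGroup E']
  [NormedSpace ℂ E']

/-- rescaled `A` -/
noncomputable def rsA (A : E → E') (x0 : E) (s : ℝ) (u : E) : E' :=
  ((s : ℂ)⁻¹) • (A (x0 + (s : ℂ) • u) - A x0)

/-- rescaled `B` -/
noncomputable def rsB (A : E → E') (B : E' → E) (x0 : E) (s : ℝ) (v : E') : E :=
  ((s : ℂ)⁻¹) • (B (A x0 + (s : ℂ) • v) - x0)

theorem ARes_norm_inv {s : ℝ} (hs : 0 < s) : ‖((s : ℂ)⁻¹)‖ = s⁻¹ := by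
  rw [norm_inv, Complex.norm_real, Real.norm_of_nonneg hs.le]

theorem ARes_norm_smul {F : Type*} [NormedAddCommGroup F] [NormedSpace ℂ F] {s : ℝ} (hs : 0 < s)
    (v : F) : ‖(s : ℂ) • v‖ = s * ‖v‖ := by
  rw [norm_smul, Complex.norm_real, Real.norm_of_nonneg hs.le]

theorem ARes_norm_inv_smul {F : Type*} [NormedAddCommGroup F] [NormedSpace ℂ F] {s : ℝ}
    (hs : 0 < s) (v : F) : ‖((s : ℂ)⁻¹) • v‖ = s⁻¹ * ‖v‖ := by
  rw [norm_smul, ARes_norm_inv hs]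

theorem ARes_cancel {F : Type*} [NormedAddCommGroup F] [NormedSpace ℂ F] {s : ℝ} (hs : 0 < s)
    (v : F) : (s : ℂ) • (((s : ℂ)⁻¹) • v) = v := by
  have hs0 : (s : ℂ) ≠ 0 := by exact_mod_cast hs.ne'
  rw [smul_smul, mul_inv_cancel₀ hs0, one_smul]

theorem ARes_cancel' {F : Type*} [NormedAddCommGroup F] [NormedSpace ℂ F] {s : ℝ} (hs : 0 < s)
    (v : F) : ((s : ℂ)⁻¹) • ((s : ℂ) • v) = v := by
  have hs0 : (s : ℂ) ≠ 0 := by exact_mod_cast hs.ne'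
  rw [smul_smul, inv_mul_cancel₀ hs0, one_smul]

theorem ARes_ST (A : E → E') (B : E' → E) (x0 : E) {s : ℝ} (hs : 0 < s) (u : E) :
    rsB A B x0 s (rsA A x0 s u) - u
      = ((s : ℂ)⁻¹) • (B (A (x0 + (s : ℂ) • u)) - (x0 + (s : ℂ) • u)) := by
  unfold rsB rsA
  rw [ARes_cancel hs]
  have h1 : A x0 + (A (x0 + (s : ℂ) • u) - A x0) = A (x0 + (s : ℂ) • u) := by abel
  rw [h1]
  conv_lhs => rw [← ARes_cancel' hs u]
  rw [← smul_sub]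
  congr 1
  rw [ARes_cancel' hs]
  abel

theorem ARes_TS (A : E → E') (B : E' → E) (x0 : E) {s : ℝ} (hs : 0 < s) (v : E') :
    rsA A x0 s (rsB A B x0 s v) - v
      = ((s : ℂ)⁻¹) • (A (B (A x0 + (s : ℂ) • v)) - (A x0 + (s : ℂ) • v)) := by
  unfold rsB rsA
  rw [ARes_cancel hs]
  have h1 : x0 + (B (A x0 + (s : ℂ) • v) - x0) = B (A x0 + (s : ℂ) • v) := by abel
  rw [h1]
  conv_lhs => rw [← ARes_cancel' hs v]
  rw [← smul_sub]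
  congr 1
  rw [ARes_cancel' hs]
  abel

theorem ARes_main {f : E → ℂ} {g : E' → ℂ} {A : E → E'} {B : E' → E} {L w r : ℝ}
    (h : CR f g A B L w r) {δ K : ℝ} (hδ : 0 < δ) (hK : 10 * L ^ 2 / δ + 1 ≤ K)
    (hw1 : w * K ≤ δ) (hw2 : 4 * L ^ 2 * K * w ≤ δ ^ 3) {x0 : E} (hx0 : x0 ≠ 0)
    (hxr : ‖x0‖ < r / (2 * L + 2)) :
    CptHyp (rsA A x0 (K * ‖fderiv ℂ f x0‖)) (rsB A B x0 (K * ‖fderiv ℂ f x0‖))
      (((‖fderiv ℂ f x0‖ : ℝ) : ℂ)⁻¹ • fderiv ℂ f x0)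
      (((‖fderiv ℂ f x0‖ : ℝ) : ℂ)⁻¹ • fderiv ℂ g (A x0)) L δ := by
  have hL := h.hL
  have hL0 : 0 < L := by linarith
  have hw : 0 < w := h.rf.hw
  have hr : 0 < r := h.rf.hr
  have h10 : 0 < 10 * L ^ 2 / δ := by positivity
  have hK0 : 0 < K := by linarith
  have hx0r : (2 * L + 2) * ‖x0‖ < r := by
    rw [lt_div_iff₀ (by linarith)] at hxr
    linarith
  have hxn : 0 ≤ ‖x0‖ := norm_nonneg x0
  have hLx : 0 ≤ L * ‖x0‖ := by positivity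
  have hx0b : x0 ∈ ball (0 : E) r := by
    rw [mem_ball_zero_iff]; nlinarith
  have h0b : (0 : E) ∈ ball (0 : E) r := mem_ball_self hr
  have hκ : 0 < ‖fderiv ℂ f x0‖ := h.rf.pos x0 hx0b hx0
  have hsmall := h.rf.small x0 hx0b
  have hAx0 : ‖A x0‖ ≤ L * ‖x0‖ := by
    have := h.lipA x0 hx0b 0 h0b
    rwa [h.A0, sub_zero, sub_zero] at this
  have hAx0b : A x0 ∈ ball (0 : E') r := by
    rw [mem_ball_zero_iff]; nlinarith
  have hdA := h.dA x0 hx0b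
  have hfA0 := h.fA x0 hx0b
  generalize hκd : ‖fderiv ℂ f x0‖ = κ at *
  have hs : 0 < K * κ := by positivity
  -- the displacement
  have hsd : K * κ * (1 / δ) ≤ ‖x0‖ := by
    rw [mul_one_div, div_le_iff₀ hδ]
    calc K * κ ≤ K * (w * ‖x0‖) := by gcongr
      _ = (w * K) * ‖x0‖ := by ring
      _ ≤ δ * ‖x0‖ := by gcongr
      _ = ‖x0‖ * δ := by ring
  have hwsd : w * (K * κ * (1 / δ)) ≤ κ := by
    rw [mul_one_div, mul_div_assoc', div_le_iff₀ hδ]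
    calc w * (K * κ) = (w * K) * κ := by ring
      _ ≤ δ * κ := by gcongr
      _ = κ * δ := by ring
  have hsu : ∀ u ∈ ball (0 : E) (1 / δ), ‖((K * κ : ℝ) : ℂ) • u‖ ≤ K * κ * (1 / δ) := by
    intro u hu
    rw [mem_ball_zero_iff] at hu
    rw [ARes_norm_smul hs]
    gcongr
  have hsv : ∀ v ∈ ball (0 : E') (1 / δ), ‖((K * κ : ℝ) : ℂ) • v‖ ≤ K * κ * (1 / δ) := by
    intro u hu
    rw [mem_ball_zero_iff] at hu
    rw [ARes_norm_smul hs]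
    gcongr
  have hxn2 : ∀ u ∈ ball (0 : E) (1 / δ), ‖x0 + ((K * κ : ℝ) : ℂ) • u‖ ≤ 2 * ‖x0‖ := by
    intro u hu
    calc ‖x0 + ((K * κ : ℝ) : ℂ) • u‖ ≤ ‖x0‖ + ‖((K * κ : ℝ) : ℂ) • u‖ := norm_add_le _ _
      _ ≤ ‖x0‖ + ‖x0‖ := by gcongr; exact (hsu u hu).trans hsd
      _ = 2 * ‖x0‖ := by ring
  have hxb : ∀ u ∈ ball (0 : E) (1 / δ), x0 + ((K * κ : ℝ) : ℂ) • u ∈ ball (0 : E) r := by
    intro u hu
    rw [mem_ball_zero_iff]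
    have := hxn2 u hu
    nlinarith
  have hyb : ∀ v ∈ ball (0 : E') (1 / δ), A x0 + ((K * κ : ℝ) : ℂ) • v ∈ ball (0 : E') r := by
    intro v hv
    rw [mem_ball_zero_iff]
    have h1 : ‖A x0 + ((K * κ : ℝ) : ℂ) • v‖ ≤ L * ‖x0‖ + ‖x0‖ :=
      (norm_add_le _ _).trans (add_le_add hAx0 ((hsv v hv).trans hsd))
    nlinarith
  have hAxb : ∀ u ∈ ball (0 : E) (1 / δ), A (x0 + ((K * κ : ℝ) : ℂ) • u) ∈ ball (0 : E') r := by
    intro u hu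
    rw [mem_ball_zero_iff]
    have h1 := h.lipA _ (hxb u hu) 0 h0b
    rw [h.A0, sub_zero, sub_zero] at h1
    have h2 := hxn2 u hu
    have h3 : L * ‖x0 + ((K * κ : ℝ) : ℂ) • u‖ ≤ L * (2 * ‖x0‖) := by gcongr
    nlinarith
  -- the derivative bounds
  have hfx : ∀ u ∈ ball (0 : E) (1 / δ), ‖fderiv ℂ f (x0 + ((K * κ : ℝ) : ℂ) • u)‖ ≤ 2 * κ := by
    intro u hu
    have h1 := h.rf.near hx0b (hxb u hu)
    rw [hκd, add_sub_cancel_left] at h1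
    have h2 : w * ‖((K * κ : ℝ) : ℂ) • u‖ ≤ w * (K * κ * (1 / δ)) := by
      gcongr; exact hsu u hu
    linarith
  have hgy : ∀ v ∈ ball (0 : E') (1 / δ),
      ‖fderiv ℂ g (A x0 + ((K * κ : ℝ) : ℂ) • v)‖ ≤ 2 * L * κ := by
    intro v hv
    have h1 := h.rg.near hAx0b (hyb v hv)
    rw [add_sub_cancel_left] at h1
    have h2 : w * ‖((K * κ : ℝ) : ℂ) • v‖ ≤ w * (K * κ * (1 / δ)) := by
      gcongr; exact hsv v hv
    nlinarith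
  have hKinv : K⁻¹ * (2 * L ^ 2) ≤ δ := by
    rw [inv_mul_le_iff₀ hK0]
    have h1 : 10 * L ^ 2 / δ ≤ K := by linarith
    rw [div_le_iff₀ hδ] at h1
    nlinarith [sq_nonneg L]
  refine ⟨?_, ?_, ?_, ?_, ?_, ?_, ?_, ?_⟩
  · unfold rsA
    rw [smul_zero, add_zero, sub_self, smul_zero]
  · intro u hu v hv
    unfold rsA
    rw [← smul_sub, ARes_norm_inv_smul hs, inv_mul_le_iff₀ hs]
    have h1 : A (x0 + ((K * κ : ℝ) : ℂ) • u) - A x0 - (A (x0 + ((K * κ : ℝ) : ℂ) • v) - A x0)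
        = A (x0 + ((K * κ : ℝ) : ℂ) • u) - A (x0 + ((K * κ : ℝ) : ℂ) • v) := by abel
    rw [h1]
    have h2 := h.lipA _ (hxb u hu) _ (hxb v hv)
    rw [add_sub_add_left_eq_sub, ← smul_sub, ARes_norm_smul hs] at h2
    linarith
  · intro u hu v hv
    unfold rsB
    rw [← smul_sub, ARes_norm_inv_smul hs, inv_mul_le_iff₀ hs]
    have h1 : B (A x0 + ((K * κ : ℝ) : ℂ) • u) - x0 - (B (A x0 + ((K * κ : ℝ) : ℂ) • v) - x0)
        = B (A x0 + ((K * κ : ℝ) : ℂ) • u) - B (A x0 + ((K * κ : ℝ) : ℂ) • v) := by abel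
    rw [h1]
    have h2 := h.lipB _ (hyb u hu) _ (hyb v hv)
    rw [add_sub_add_left_eq_sub, ← smul_sub, ARes_norm_smul hs] at h2
    linarith
  · intro u hu
    rw [ARes_ST A B x0 hs u, ARes_norm_inv_smul hs]
    have h1 := h.BA _ (hxb u hu)
    have h2 := hfx u hu
    have h3 : ‖B (A (x0 + ((K * κ : ℝ) : ℂ) • u)) - (x0 + ((K * κ : ℝ) : ℂ) • u)‖ ≤ L * (2 * κ) :=
      h1.trans (by gcongr)
    calc (K * κ)⁻¹ * ‖B (A (x0 + ((K * κ : ℝ) : ℂ) • u)) - (x0 + ((K * κ : ℝ) : ℂ) • u)‖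
        ≤ (K * κ)⁻¹ * (L * (2 * κ)) := by gcongr
      _ = K⁻¹ * (2 * L) := by field_simp
      _ ≤ K⁻¹ * (2 * L ^ 2) := by gcongr; nlinarith
      _ ≤ δ := hKinv
  · intro v hv
    rw [ARes_TS A B x0 hs v, ARes_norm_inv_smul hs]
    have h1 := h.AB' _ (hyb v hv)
    have h2 := hgy v hv
    have h3 : ‖A (B (A x0 + ((K * κ : ℝ) : ℂ) • v)) - (A x0 + ((K * κ : ℝ) : ℂ) • v)‖
        ≤ L * (2 * L * κ) :=
      h1.trans (by gcongr)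
    calc (K * κ)⁻¹ * ‖A (B (A x0 + ((K * κ : ℝ) : ℂ) • v)) - (A x0 + ((K * κ : ℝ) : ℂ) • v)‖
        ≤ (K * κ)⁻¹ * (L * (2 * L * κ)) := by gcongr
      _ = K⁻¹ * (2 * L ^ 2) := by field_simp
      _ ≤ δ := hKinv
  · intro u hu
    have hid : ((((κ : ℝ) : ℂ)⁻¹ • fderiv ℂ g (A x0)) (rsA A x0 (K * κ) u)
        - (((κ : ℝ) : ℂ)⁻¹ • fderiv ℂ f x0) u)
        = (((K * κ * κ : ℝ) : ℂ)⁻¹) • (fderiv ℂ g (A x0) (A (x0 + ((K * κ : ℝ) : ℂ) • u) - A x0)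
          - fderiv ℂ f x0 (((K * κ : ℝ) : ℂ) • u)) := by
      have hKc : ((K : ℝ) : ℂ) ≠ 0 := by exact_mod_cast hK0.ne'
      have hκc : ((κ : ℝ) : ℂ) ≠ 0 := by exact_mod_cast hκ.ne'
      unfold rsA
      simp only [smul_apply, map_smul, smul_eq_mul, Complex.ofReal_mul]
      field_simp
    rw [hid, ARes_norm_inv_smul (by positivity)]
    have q1 := h.rg.quad hAx0b (hAxb u hu)
    have q2 := h.rf.quad hx0b (hxb u hu)
    rw [add_sub_cancel_left] at q2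
    have a1 := h.fA _ (hxb u hu)
    have a2 := hfx u hu
    have hl : ‖A (x0 + ((K * κ : ℝ) : ℂ) • u) - A x0‖ ≤ L * (K * κ * (1 / δ)) := by
      have := h.lipA _ (hxb u hu) _ hx0b
      rw [add_sub_cancel_left] at this
      exact this.trans (by gcongr; exact hsu u hu)
    have a3 : ‖f (x0 + ((K * κ : ℝ) : ℂ) • u) - g (A (x0 + ((K * κ : ℝ) : ℂ) • u))‖
        ≤ L * (2 * κ) ^ 2 := a1.trans (by gcongr)
    have q1' : ‖g (A (x0 + ((K * κ : ℝ) : ℂ) • u)) - g (A x0)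
        - fderiv ℂ g (A x0) (A (x0 + ((K * κ : ℝ) : ℂ) • u) - A x0)‖
        ≤ w * (L * (K * κ * (1 / δ))) ^ 2 := q1.trans (by gcongr)
    have q2' : ‖f (x0 + ((K * κ : ℝ) : ℂ) • u) - f x0 - fderiv ℂ f x0 (((K * κ : ℝ) : ℂ) • u)‖
        ≤ w * (K * κ * (1 / δ)) ^ 2 := q2.trans (by gcongr; exact hsu u hu)
    have hdec : fderiv ℂ g (A x0) (A (x0 + ((K * κ : ℝ) : ℂ) • u) - A x0)
          - fderiv ℂ f x0 (((K * κ : ℝ) : ℂ) • u)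
        = (f (x0 + ((K * κ : ℝ) : ℂ) • u) - f x0 - fderiv ℂ f x0 (((K * κ : ℝ) : ℂ) • u))
          - (g (A (x0 + ((K * κ : ℝ) : ℂ) • u)) - g (A x0)
            - fderiv ℂ g (A x0) (A (x0 + ((K * κ : ℝ) : ℂ) • u) - A x0))
          - (f (x0 + ((K * κ : ℝ) : ℂ) • u) - g (A (x0 + ((K * κ : ℝ) : ℂ) • u)))
          + (f x0 - g (A x0)) := by ring
    have hbound : ‖fderiv ℂ g (A x0) (A (x0 + ((K * κ : ℝ) : ℂ) • u) - A x0)
          - fderiv ℂ f x0 (((K * κ : ℝ) : ℂ) • u)‖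
        ≤ w * (K * κ * (1 / δ)) ^ 2 + w * (L * (K * κ * (1 / δ))) ^ 2 + L * (2 * κ) ^ 2
          + L * κ ^ 2 := by
      rw [hdec]
      refine (norm_add_le _ _).trans ?_
      refine add_le_add ((norm_sub_le _ _).trans (add_le_add ((norm_sub_le _ _).trans
        (add_le_add q2' q1')) a3)) hfA0
    calc (K * κ * κ)⁻¹ * ‖fderiv ℂ g (A x0) (A (x0 + ((K * κ : ℝ) : ℂ) • u) - A x0)
          - fderiv ℂ f x0 (((K * κ : ℝ) : ℂ) • u)‖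
        ≤ (K * κ * κ)⁻¹ * (w * (K * κ * (1 / δ)) ^ 2 + w * (L * (K * κ * (1 / δ))) ^ 2
          + L * (2 * κ) ^ 2 + L * κ ^ 2) := by gcongr
      _ = w * K * (1 + L ^ 2) / δ ^ 2 + 5 * L / K := by field_simp; ring
      _ ≤ δ / 2 + δ / 2 := by
          apply add_le_add
          · rw [div_le_iff₀ (by positivity)]
            have e1 : w * K * (1 + L ^ 2) ≤ w * K * (2 * L ^ 2) := by
              gcongr
              nlinarith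
            nlinarith
          · rw [div_le_iff₀ hK0]
            have h1 : 10 * L ^ 2 / δ ≤ K := by linarith
            rw [div_le_iff₀ hδ] at h1
            nlinarith
      _ = δ := by ring
  · rw [norm_smul, ARes_norm_inv hκ, hκd, inv_mul_cancel₀ hκ.ne']
    exact hL
  · rw [norm_smul, ARes_norm_inv hκ, inv_mul_le_iff₀ hκ]
    linarith

theorem resc {f : E → ℂ} {g : E' → ℂ} (hf : Grm f) (hg : Grm g)
    (f2 : fderiv ℂ (fderiv ℂ f) 0 = 0) (g2 : fderiv ℂ (fderiv ℂ g) 0 = 0) {A : E → E'}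
    {B : E' → E} {L ρ : ℝ} (hco : Coarse f g A B L ρ) {δ : ℝ} (hδ : 0 < δ) :
    ∃ K0 : ℝ, 1 ≤ K0 ∧ ∀ K : ℝ, K0 ≤ K → ∃ r0 : ℝ, 0 < r0 ∧ ∀ x0 : E, x0 ≠ 0 → ‖x0‖ < r0 →
      CptHyp (rsA A x0 (K * ‖fderiv ℂ f x0‖)) (rsB A B x0 (K * ‖fderiv ℂ f x0‖))
        (((‖fderiv ℂ f x0‖ : ℝ) : ℂ)⁻¹ • fderiv ℂ f x0)
        (((‖fderiv ℂ f x0‖ : ℝ) : ℂ)⁻¹ • fderiv ℂ g (A x0)) L δ := by
  have hL : 1 ≤ L := by
    obtain ⟨r, h⟩ := cr_exists hf hg f2 g2 hco one_pos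
    exact h.hL
  have hL0 : 0 < L := by linarith
  refine ⟨10 * L ^ 2 / δ + 1, ?_, ?_⟩
  · have : 0 ≤ 10 * L ^ 2 / δ := by positivity
    linarith
  intro K hK
  have hK0 : 0 < K := by
    have : 0 ≤ 10 * L ^ 2 / δ := by positivity
    linarith
  have hw0 : 0 < min (δ / K) (δ ^ 3 / (4 * L ^ 2 * K)) := by positivity
  obtain ⟨r, h⟩ := cr_exists hf hg f2 g2 hco hw0
  have hr : 0 < r := h.rf.hr
  refine ⟨r / (2 * L + 2), by positivity, ?_⟩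
  intro x0 hx0 hxr
  refine ARes_main h hδ hK ?_ ?_ hx0 hxr
  · have := min_le_left (δ / K) (δ ^ 3 / (4 * L ^ 2 * K))
    rwa [le_div_iff₀ hK0] at this
  · have := min_le_right (δ / K) (δ ^ 3 / (4 * L ^ 2 * K))
    rw [le_div_iff₀ (by positivity)] at this
    linarith

end H80.LD
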