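import Pool.Agent.H80.LD.Defs

/-!
# B0a: from pointwise Lipschitz bounds to Lipschitz bounds on segments

`g t = G (p + t (q - p))`, `S = {t ∈ [0,1] | ‖g t - g 0‖ ≤ L ‖q-p‖ t}`.  `g` is continuous on `[0,1]` (pointwise Lipschitz bound implies
continuity at the points of the segment), so `S` is closed; `0 ∈ S`; if `t ∈ S`, `t < 1`, then by the bound at `p + t(q-p)` all `t' > t` close to
`t` are in `S` (triangle inequality).  `IsClosed.Icc_subset_of_forall_exists_gt` gives `S = [0,1]`.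
-/

open Filter Topology Metric Set

namespace H80.LD

theorem B0a_cont {E F : Type*} [NormedAddCommGroup E] [NormedAddCommGroup F]
    (G : E → F) (L : ℝ) (x : E) (h : ∀ᶠ y in 𝓝 x, ‖G y - G x‖ ≤ L * ‖y - x‖) :
    ContinuousAt G x := by
  unfold ContinuousAt
  rw [tendsto_iff_norm_sub_tendsto_zero]
  have h1 : Tendsto (fun y : E => L * ‖y - x‖) (𝓝 x) (𝓝 0) := by
    have : Continuous (fun y : E => L * ‖y - x‖) := by fun_prop
    have h2 := this.tendsto x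
    simpa using h2
  exact squeeze_zero' (Eventually.of_forall fun y => norm_nonneg _) h h1

theorem B0a_lip_seg {E F : Type*} [NormedAddCommGroup E] [NormedSpace ℝ E] [NormedAddCommGroup F]
    (G : E → F) (L : ℝ) (p q : E)
    (h : ∀ x ∈ segment ℝ p q, ∀ᶠ y in 𝓝 x, ‖G y - G x‖ ≤ L * ‖y - x‖) :
    ‖G q - G p‖ ≤ L * ‖q - p‖ := by
  set γ : ℝ → E := fun t => p + t • (q - p) with hγ
  have hγc : Continuous γ := by
    rw [hγ]; fun_prop
  have hseg : ∀ t ∈ Icc (0 : ℝ) 1, γ t ∈ segment ℝ p q := by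
    intro t ht
    rw [segment_eq_image']
    exact ⟨t, ht, rfl⟩
  set S : Set ℝ := {t | ‖G (γ t) - G p‖ ≤ L * (‖q - p‖ * t)} with hS
  have hclosed : IsClosed (S ∩ Icc (0 : ℝ) 1) := by
    have hcont : ContinuousOn (fun t : ℝ => L * (‖q - p‖ * t) - ‖G (γ t) - G p‖)
        (Icc (0 : ℝ) 1) := by
      intro t ht
      have h1 : ContinuousAt G (γ t) := B0a_cont G L _ (h _ (hseg t ht))
      have h2 : ContinuousAt (fun t => G (γ t)) t :=
        ContinuousAt.comp (g := G) (f := γ) h1 hγc.continuousAt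
      apply ContinuousAt.continuousWithinAt
      have h3 : ContinuousAt (fun t : ℝ => L * (‖q - p‖ * t)) t := by
        have : Continuous (fun t : ℝ => L * (‖q - p‖ * t)) := by fun_prop
        exact this.continuousAt
      exact h3.sub (h2.sub continuousAt_const).norm
    have h4 := hcont.preimage_isClosed_of_isClosed isClosed_Icc (isClosed_Ici (a := (0 : ℝ)))
    have h5 : S ∩ Icc (0 : ℝ) 1 = Icc (0 : ℝ) 1 ∩
        (fun t : ℝ => L * (‖q - p‖ * t) - ‖G (γ t) - G p‖) ⁻¹' Ici 0 := by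
      ext t
      simp only [hS, mem_inter_iff, mem_ofPred_eq, mem_preimage, mem_Ici, sub_nonneg]
      tauto
    rw [h5]; exact h4
  have h0 : (0 : ℝ) ∈ S := by
    simp [hS, hγ]
  have hstep : ∀ t ∈ S ∩ Ico (0 : ℝ) 1, ∀ y ∈ Ioi t, (S ∩ Ioc t y).Nonempty := by
    rintro t ⟨htS, ht⟩ y hy
    have ht' : t ∈ Icc (0 : ℝ) 1 := ⟨ht.1, ht.2.le⟩
    have h1 := h _ (hseg t ht')
    have h2 : ∀ᶠ u in 𝓝 t, ‖G (γ u) - G (γ t)‖ ≤ L * ‖γ u - γ t‖ :=
      (hγc.tendsto t).eventually h1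
    have h3 : ∀ᶠ u in 𝓝[>] t, ‖G (γ u) - G (γ t)‖ ≤ L * ‖γ u - γ t‖ :=
      h2.filter_mono nhdsWithin_le_nhds
    have h4 : ∀ᶠ u in 𝓝[>] t, u ∈ Ioc t y := Ioc_mem_nhdsGT hy
    obtain ⟨u, hu1, hu2⟩ := (h3.and h4).exists
    refine ⟨u, ?_, hu2⟩
    have h5 : ‖γ u - γ t‖ = ‖q - p‖ * (u - t) := by
      have : γ u - γ t = (u - t) • (q - p) := by
        simp only [hγ]
        rw [sub_smul]; abel
      rw [this, norm_smul, Real.norm_of_nonneg (by linarith [hu2.1]), mul_comm]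
    rw [h5] at hu1
    have htS' : ‖G (γ t) - G p‖ ≤ L * (‖q - p‖ * t) := htS
    show ‖G (γ u) - G p‖ ≤ L * (‖q - p‖ * u)
    have h6 : G (γ u) - G p = (G (γ u) - G (γ t)) + (G (γ t) - G p) := by abel
    calc ‖G (γ u) - G p‖ ≤ ‖G (γ u) - G (γ t)‖ + ‖G (γ t) - G p‖ := by
          rw [h6]; exact norm_add_le _ _
      _ ≤ L * (‖q - p‖ * (u - t)) + L * (‖q - p‖ * t) := add_le_add hu1 htS'
      _ = L * (‖q - p‖ * u) := by ring
  have hall := IsClosed.Icc_subset_of_forall_exists_gt hclosed h0 hstep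
  have h1 : (1 : ℝ) ∈ S := hall ⟨zero_le_one, le_refl _⟩
  have h2 : ‖G (γ 1) - G p‖ ≤ L * (‖q - p‖ * 1) := h1
  have h3 : γ 1 = q := by simp [hγ]
  rw [h3, mul_one] at h2
  exact h2

theorem B0a_lip_convex {E F : Type*} [NormedAddCommGroup E] [NormedSpace ℝ E] [NormedAddCommGroup F]
    (G : E → F) (L : ℝ) (s : Set E) (hs : Convex ℝ s)
    (h : ∀ x ∈ s, ∀ᶠ y in 𝓝 x, ‖G y - G x‖ ≤ L * ‖y - x‖) :
    ∀ p ∈ s, ∀ q ∈ s, ‖G q - G p‖ ≤ L * ‖q - p‖ := by
  intro p hp q hq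
  exact B0a_lip_seg G L p q fun x hx => h x (hs.segment_subset hp hq hx)

end H80.LD
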