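import Pool.Agent.H80.LD.Defs

/-!
# B0b: formal properties of the class `NP`

* `B0b_symm`, `B0b_mono`: trivial.
* `B0b_comp`: for `p` in the set `V` below: displacement by the triangle inequality through `e₂ p` (resp. `e₁' p`); Lipschitz: `e₂` has the pointwise bound
  at `p ∈ U₂` and is continuous at `p` (pointwise Lipschitz), `e₁` has the bound at `e₂ p ∈ U₁`; same for the inverses (`e₁'` at `p ∈ U₁`, `e₂'` at `e₁' p ∈ U₂`).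
  `inv`: `p ∈ V`, `r = e₁ (e₂ p) ∈ V`: `e₂ p ∈ U₁` and `r ∈ U₁` give `e₁' r = e₂ p`; `r ∈ V` gives `e₁' r ∈ U₂`, i.e. `e₂ p ∈ U₂`, so `e₂' (e₂ p) = p`.
  `inv'`: `p ∈ V`, `r = e₂' (e₁' p) ∈ V`: `e₁' p ∈ U₂`, `r ∈ U₂` give `e₂ r = e₁' p`; `r ∈ V` gives `e₂ r ∈ U₁`, i.e. `e₁' p ∈ U₁`, so `e₁ (e₁' p) = p`.
* `B0b_conj`: conjugation by a bi-Lipschitz bijection which maps fibres to fibres; `p = Φ (Φ' p)`.
* `B0b_ite`: pointwise Lipschitz bound for a function which is near `p` equal to one of two functions with the bound and the same value at `p`.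
* `B0b_plip_comp`: chain rule for pointwise bounds.
-/

open Filter Topology Metric Set

namespace H80.LD

theorem B0b_symm {X V : Type*} [NormedAddCommGroup X] [NormedAddCommGroup V]
    {ε L : ℝ} {U : Set (X × V)} {e e' : X × V → X × V} (h : NP ε L U e e') : NP ε L U e' e :=
  ⟨h.pres', h.pres, h.disp', h.disp, h.lip', h.lip, h.inv', h.inv⟩

theorem B0b_mono {X V : Type*} [NormedAddCommGroup X] [NormedAddCommGroup V]
    {ε ε₁ L L₁ : ℝ} {U U₁ : Set (X × V)} {e e' : X × V → X × V} (h : NP ε L U e e')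
    (hε : ε ≤ ε₁) (hL : L ≤ L₁) (hU : U₁ ⊆ U) : NP ε₁ L₁ U₁ e e' where
  pres := h.pres
  pres' := h.pres'
  disp p hp := (h.disp p (hU hp)).trans hε
  disp' p hp := (h.disp' p (hU hp)).trans hε
  lip p hp := by
    filter_upwards [h.lip p (hU hp)] with q hq
    exact hq.trans (mul_le_mul_of_nonneg_right hL (norm_nonneg _))
  lip' p hp := by
    filter_upwards [h.lip' p (hU hp)] with q hq
    exact hq.trans (mul_le_mul_of_nonneg_right hL (norm_nonneg _))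
  inv p hp hq := h.inv p (hU hp) (hU hq)
  inv' p hp hq := h.inv' p (hU hp) (hU hq)

theorem B0b_cont {E F : Type*} [NormedAddCommGroup E] [NormedAddCommGroup F] {G : E → F} {L : ℝ} {p : E}
    (l1 : ∀ᶠ q in 𝓝 p, ‖G q - G p‖ ≤ L * ‖q - p‖) : ContinuousAt G p := by
  rw [ContinuousAt, tendsto_iff_norm_sub_tendsto_zero]
  have h0 : Tendsto (fun q : E => L * ‖q - p‖) (𝓝 p) (𝓝 0) := by
    have : Tendsto (fun q : E => L * ‖q - p‖) (𝓝 p) (𝓝 (L * ‖p - p‖)) := by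
      apply Continuous.tendsto
      fun_prop
    simpa using this
  exact squeeze_zero' (Eventually.of_forall fun q => norm_nonneg _) l1 h0

theorem B0b_plip_comp {E F H : Type*} [NormedAddCommGroup E] [NormedAddCommGroup F] [NormedAddCommGroup H]
    {G : E → F} {G₁ : F → H} {L L₁ : ℝ} {p : E} (hL₁ : 0 ≤ L₁)
    (l : ∀ᶠ q in 𝓝 p, ‖G q - G p‖ ≤ L * ‖q - p‖) (l1 : ∀ᶠ q in 𝓝 (G p), ‖G₁ q - G₁ (G p)‖ ≤ L₁ * ‖q - G p‖) :
    ∀ᶠ q in 𝓝 p, ‖G₁ (G q) - G₁ (G p)‖ ≤ (L₁ * L) * ‖q - p‖ := by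
  have hc : ContinuousAt G p := B0b_cont l
  filter_upwards [l, hc.eventually l1] with q h1 h2
  calc ‖G₁ (G q) - G₁ (G p)‖ ≤ L₁ * ‖G q - G p‖ := h2
    _ ≤ L₁ * (L * ‖q - p‖) := mul_le_mul_of_nonneg_left h1 hL₁
    _ = (L₁ * L) * ‖q - p‖ := by ring

theorem B0b_comp {X V : Type*} [NormedAddCommGroup X] [NormedAddCommGroup V]
    {ε₁ ε₂ L₁ L₂ : ℝ} {U₁ U₂ : Set (X × V)} {e₁ e₁' e₂ e₂' : X × V → X × V} (h₁ : NP ε₁ L₁ U₁ e₁ e₁')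
    (h₂ : NP ε₂ L₂ U₂ e₂ e₂') (hL₁ : 0 ≤ L₁) (hL₂ : 0 ≤ L₂) :
    NP (ε₁ + ε₂) (L₁ * L₂) {p : X × V | p ∈ U₁ ∧ p ∈ U₂ ∧ e₂ p ∈ U₁ ∧ e₁' p ∈ U₂} (fun p => e₁ (e₂ p))
      (fun p => e₂' (e₁' p)) where
  pres p := by rw [h₁.pres, h₂.pres]
  pres' p := by rw [h₂.pres', h₁.pres']
  disp p hp := by
    obtain ⟨-, h2, h3, -⟩ := hp
    have a1 := h₁.disp _ h3
    have a2 := h₂.disp _ h2
    calc ‖e₁ (e₂ p) - p‖ = ‖(e₁ (e₂ p) - e₂ p) + (e₂ p - p)‖ := by congr 1; abel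
      _ ≤ ‖e₁ (e₂ p) - e₂ p‖ + ‖e₂ p - p‖ := norm_add_le _ _
      _ ≤ ε₁ + ε₂ := add_le_add a1 a2
  disp' p hp := by
    obtain ⟨h1, -, -, h4⟩ := hp
    have a1 := h₁.disp' _ h1
    have a2 := h₂.disp' _ h4
    calc ‖e₂' (e₁' p) - p‖ = ‖(e₂' (e₁' p) - e₁' p) + (e₁' p - p)‖ := by congr 1; abel
      _ ≤ ‖e₂' (e₁' p) - e₁' p‖ + ‖e₁' p - p‖ := norm_add_le _ _
      _ ≤ ε₁ + ε₂ := by linarith
  lip p hp := B0b_plip_comp hL₁ (h₂.lip p hp.2.1) (h₁.lip _ hp.2.2.1)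
  lip' p hp := by
    have := B0b_plip_comp hL₂ (h₁.lip' p hp.1) (h₂.lip' _ hp.2.2.2)
    rwa [mul_comm L₂ L₁] at this
  inv p hp hq := by
    have e1 : e₁' (e₁ (e₂ p)) = e₂ p := h₁.inv _ hp.2.2.1 hq.1
    have e2 : e₂ p ∈ U₂ := by
      have := hq.2.2.2
      rwa [e1] at this
    show e₂' (e₁' (e₁ (e₂ p))) = p
    rw [e1]
    exact h₂.inv _ hp.2.1 e2
  inv' p hp hq := by
    have e1 : e₂ (e₂' (e₁' p)) = e₁' p := h₂.inv' _ hp.2.2.2 hq.2.1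
    have e2 : e₁' p ∈ U₁ := by
      have := hq.2.2.1
      rwa [e1] at this
    show e₁ (e₂ (e₂' (e₁' p))) = p
    rw [e1]
    exact h₁.inv' _ hp.1 e2

theorem B0b_conj {X V X₁ V₁ : Type*} [NormedAddCommGroup X] [NormedAddCommGroup V] [NormedAddCommGroup X₁]
    [NormedAddCommGroup V₁] {ε L a b : ℝ} {U : Set (X × V)} {e e' : X × V → X × V} (h : NP ε L U e e')
    (ha : 0 ≤ a) (hb : 0 ≤ b) (hL : 0 ≤ L)
    (Φ : X × V → X₁ × V₁) (Φ' : X₁ × V₁ → X × V) (h1 : ∀ p, Φ' (Φ p) = p) (h2 : ∀ p, Φ (Φ' p) = p)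
    (hΦ : ∀ p q, ‖Φ p - Φ q‖ ≤ a * ‖p - q‖) (hΦ' : ∀ p q, ‖Φ' p - Φ' q‖ ≤ b * ‖p - q‖)
    (hf : ∀ p q : X × V, p.1 = q.1 → (Φ p).1 = (Φ q).1) :
    NP (a * ε) (a * b * L) {p | Φ' p ∈ U} (fun p => Φ (e (Φ' p))) (fun p => Φ (e' (Φ' p))) where
  pres p := by
    have := hf (e (Φ' p)) (Φ' p) (h.pres _)
    rwa [h2] at this
  pres' p := by
    have := hf (e' (Φ' p)) (Φ' p) (h.pres' _)
    rwa [h2] at this
  disp p hp := by
    have a1 := hΦ (e (Φ' p)) (Φ' p)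
    rw [h2] at a1
    exact a1.trans (mul_le_mul_of_nonneg_left (h.disp _ hp) ha)
  disp' p hp := by
    have a1 := hΦ (e' (Φ' p)) (Φ' p)
    rw [h2] at a1
    exact a1.trans (mul_le_mul_of_nonneg_left (h.disp' _ hp) ha)
  lip p hp := by
    have hc : ContinuousAt Φ' p := B0b_cont (Eventually.of_forall fun q => hΦ' q p)
    filter_upwards [hc.eventually (h.lip _ hp)] with q hq
    calc ‖Φ (e (Φ' q)) - Φ (e (Φ' p))‖ ≤ a * ‖e (Φ' q) - e (Φ' p)‖ := hΦ _ _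
      _ ≤ a * (L * ‖Φ' q - Φ' p‖) := mul_le_mul_of_nonneg_left hq ha
      _ ≤ a * (L * (b * ‖q - p‖)) :=
        mul_le_mul_of_nonneg_left (mul_le_mul_of_nonneg_left (hΦ' _ _) hL) ha
      _ = a * b * L * ‖q - p‖ := by ring
  lip' p hp := by
    have hc : ContinuousAt Φ' p := B0b_cont (Eventually.of_forall fun q => hΦ' q p)
    filter_upwards [hc.eventually (h.lip' _ hp)] with q hq
    calc ‖Φ (e' (Φ' q)) - Φ (e' (Φ' p))‖ ≤ a * ‖e' (Φ' q) - e' (Φ' p)‖ := hΦ _ _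
      _ ≤ a * (L * ‖Φ' q - Φ' p‖) := mul_le_mul_of_nonneg_left hq ha
      _ ≤ a * (L * (b * ‖q - p‖)) :=
        mul_le_mul_of_nonneg_left (mul_le_mul_of_nonneg_left (hΦ' _ _) hL) ha
      _ = a * b * L * ‖q - p‖ := by ring
  inv p hp hq := by
    have hq' : e (Φ' p) ∈ U := by
      have : Φ' (Φ (e (Φ' p))) ∈ U := hq
      rwa [h1] at this
    show Φ (e' (Φ' (Φ (e (Φ' p))))) = p
    rw [h1, h.inv _ hp hq', h2]
  inv' p hp hq := by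
    have hq' : e' (Φ' p) ∈ U := by
      have : Φ' (Φ (e' (Φ' p))) ∈ U := hq
      rwa [h1] at this
    show Φ (e (Φ' (Φ (e' (Φ' p))))) = p
    rw [h1, h.inv' _ hp hq', h2]

theorem B0b_ite {E F : Type*} [NormedAddCommGroup E] [NormedAddCommGroup F] {G G₁ G₂ : E → F} {L : ℝ} {p : E}
    (h : ∀ᶠ q in 𝓝 p, G q = G₁ q ∨ G q = G₂ q) (h1 : G p = G₁ p) (h2 : G p = G₂ p)
    (l1 : ∀ᶠ q in 𝓝 p, ‖G₁ q - G₁ p‖ ≤ L * ‖q - p‖) (l2 : ∀ᶠ q in 𝓝 p, ‖G₂ q - G₂ p‖ ≤ L * ‖q - p‖) :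
    ∀ᶠ q in 𝓝 p, ‖G q - G p‖ ≤ L * ‖q - p‖ := by
  filter_upwards [h, l1, l2] with q hq h3 h4
  rcases hq with hq | hq
  · rw [hq, h1]; exact h3
  · rw [hq, h2]; exact h4

end H80.LD
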