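import Pool.Agent.H80.LD.M4
import Pool.Agent.H80.LD.M5

/-!
# M6: a fold map along a pattern is a punctured immersion

`r = rr a b = 1/(100 M) ≤ 1/4`, `C = cc a b K ≥ 1`, `need = ndd lj nd b a`.  Fields `pos, pos'`: `σ ≥ 1`; `slow`, `size`: M3; `lpos`, `box`: K5 (`lj j > 0` from `l1`, `σ ≥ 1`).
`low, upp, surj` at `p` with `hg : need p.2 → 1 ≤ gau p.2`:
* if `p` satisfies `hy` (hypothesis of `K4_indep`): M4.
* otherwise `|p.2 b - (..)| < 3/10/M`, so `K4_floor` gives `hfl` (`r ≤ 1/(25 M)`; apply it to functions `y'` with `y' b = s`).  Let `j = ⌊p.2 b⌋`, `λ = lj j > 0`, `m = ⌊p.2 a / λ + 1/8⌋`.  For `σ (p.2 b) |x - p.2 a| ≤ r`: `|x / λ - p.2 a / λ| ≤ r / (σ (p.2 b) λ) ≤ r ≤ 1/100` (`l1`).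
  - `need p.2` false, i.e. `¬ nd j m`: `p.2 a / λ ∈ [m - 1/8, m + 7/8)`, so `x / λ ∈ [m - 1/8 - 1/100, m + 7/8 + 1/100]`: if `x / λ ≥ m` use `p7`, otherwise `p6`: `hv` holds.
  - `need p.2` true: `gau ≥ 1` gives `i` with `LL i ≤ |p.2 i - ZZ i|` (`gau < 1` iff all `|p.2 i - ZZ i| < LL i`; `pi_norm_lt_iff`), `K5_good` and the negation of `hy` give `34/100 λ ≤ |p.2 a - (m + 3/8) λ|`, so with `t = p.2 a / λ - m`:
    `t ∈ [-1/8, 7/8)` and `|t - 3/8| ≥ 34/100`: `t ∈ [-0.125, 0.035]` or `t ∈ [0.715, 0.875)`.  `x / λ - m ∈ [-0.135, 0.045]` or `x / λ - (m + 1) ∈ [-0.295, -0.115]`: `p6` with `m` or `m + 1`.  So `hv` holds.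
  M5.
-/

open Filter Topology Metric Set

namespace H80.LD

theorem M6_v {σ : ℝ → ℝ} {lj : ℤ → ℝ} {g1 g2 ν1 ν2 : ℝ → ℝ → ℝ} {nd : ℤ → ℤ → Prop} {K : ℝ}
    (h : Pat σ lj g1 g2 ν1 ν2 nd K) (j : ℤ) (s x0 r : ℝ) (hj : (j : ℝ) ≤ s) (hj' : s ≤ j + 1)
    (hr : r ≤ 1 / 100)
    (hc : nd j ⌊x0 / lj j + 1 / 8⌋ →
      34 / 100 * lj j ≤ |x0 - ((⌊x0 / lj j + 1 / 8⌋ : ℝ) + 3 / 8) * lj j|)
    (c x : ℝ) (hc1 : (j : ℝ) ≤ c) (hc2 : c ≤ j + 1) (hx : σ s * |x - x0| ≤ r) :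
    ν1 c x = 0 ∧ ν2 c x = 1 ∧ g2 c x = 0 := by
  have hs1 := h.s1 s
  have hl := (h.l1 j s hj hj').1
  have hl0 : 0 < lj j := by
    by_contra hcon
    push Not at hcon
    nlinarith
  have hax : |x - x0| ≤ r * lj j := by
    have h1 : |x - x0| * 1 ≤ |x - x0| * (σ s * lj j) := mul_le_mul_of_nonneg_left hl (abs_nonneg _)
    have h2 : σ s * |x - x0| * lj j ≤ r * lj j := mul_le_mul_of_nonneg_right hx hl0.le
    nlinarith
  have ht : |x / lj j - x0 / lj j| ≤ 1 / 100 := by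
    rw [← sub_div, abs_div, abs_of_pos hl0, div_le_iff₀ hl0]
    nlinarith
  obtain ⟨ht1, ht2⟩ := abs_le.1 ht
  have hm1 := Int.floor_le (x0 / lj j + 1 / 8)
  have hm2 := Int.lt_floor_add_one (x0 / lj j + 1 / 8)
  set m : ℤ := ⌊x0 / lj j + 1 / 8⌋ with hm
  by_cases hnd : nd j m
  · have h1 := hc hnd
    have e : x0 - ((m : ℝ) + 3 / 8) * lj j = (x0 / lj j - ((m : ℝ) + 3 / 8)) * lj j := by
      field_simp
    rw [e, abs_mul, abs_of_pos hl0] at h1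
    have h2 : 34 / 100 ≤ |x0 / lj j - ((m : ℝ) + 3 / 8)| := le_of_mul_le_mul_right h1 hl0
    rcases le_abs.1 h2 with h3 | h3
    · refine h.p6 j (m + 1) x c ?_ ?_ hc1 hc2
      · push_cast
        linarith
      · push_cast
        linarith
    · exact h.p6 j m x c (by linarith) (by linarith) hc1 hc2
  · rcases le_total (m : ℝ) (x / lj j) with h3 | h3
    · exact h.p7 j m hnd x c h3 (by linarith) hc1 hc2
    · exact h.p6 j m x c (by linarith) (by linarith) hc1 hc2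

theorem M6_key {X : Type*} [NormedAddCommGroup X] {D : Type*} [Fintype D] [DecidableEq D]
    {σ : ℝ → ℝ} {lj : ℤ → ℝ} {g1 g2 ν1 ν2 : ℝ → ℝ → ℝ} {nd : ℤ → ℤ → Prop} {K : ℝ}
    (h : Pat σ lj g1 g2 ν1 ν2 nd K) (H : Finset D) (a b : D) (hab : a ≠ b) (hσ : ∀ c, 0 < σ c)
    (hl : ∀ j, 0 < lj j) (p : X × (D → ℝ))
    (hg : ndd lj nd b a p.2 → 1 ≤ gau (ZZ σ lj H a b) (LL σ lj H a b) p.2) :
    (3 / 10 / (MM a b : ℝ) ≤ |p.2 b - ((⌊p.2 b⌋ : ℝ) + ((nn a b p.2 : ℝ) + 1 / 2) / (MM a b : ℝ))| ∨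
      ∃ i : JJ a b, 35 / 100 / sH σ H ⌊p.2 b⌋ i ≤ |p.2 i - ZZ σ lj H a b p.2 i|) ∨
    ((∀ s : ℝ, |s - p.2 b| ≤ rr a b → ⌊s⌋ = ⌊p.2 b⌋) ∧
      ∀ c x : ℝ, (⌊p.2 b⌋ : ℝ) ≤ c → c ≤ ⌊p.2 b⌋ + 1 → σ (p.2 b) * |x - p.2 a| ≤ rr a b →
        ν1 c x = 0 ∧ ν2 c x = 1 ∧ g2 c x = 0) := by
  have hM : (1 : ℝ) ≤ (MM a b : ℝ) := by exact_mod_cast K2_MM a b
  have hM0 : (0 : ℝ) < (MM a b : ℝ) := by linarith
  by_cases hy : (3 / 10 / (MM a b : ℝ) ≤ |p.2 b - ((⌊p.2 b⌋ : ℝ) + ((nn a b p.2 : ℝ) + 1 / 2) / (MM a b : ℝ))| ∨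
      ∃ i : JJ a b, 35 / 100 / sH σ H ⌊p.2 b⌋ i ≤ |p.2 i - ZZ σ lj H a b p.2 i|)
  · exact Or.inl hy
  · right
    have hy1 : |p.2 b - ((⌊p.2 b⌋ : ℝ) + ((nn a b p.2 : ℝ) + 1 / 2) / (MM a b : ℝ))| <
        3 / 10 / (MM a b : ℝ) := by
      by_contra hcon
      push Not at hcon
      exact hy (Or.inl hcon)
    refine ⟨fun s hs => ?_, fun c x hc1 hc2 hx => ?_⟩
    · have h1 := K4_floor a b p.2 hy1 (fun _ => s) (by
        refine hs.trans ?_
        unfold rr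
        exact one_div_le_one_div_of_le (by positivity) (by nlinarith))
      exact h1
    · refine M6_v h ⌊p.2 b⌋ (p.2 b) (p.2 a) (rr a b) (Int.floor_le _) (Int.lt_floor_add_one _).le ?_
        (fun hnd => ?_) c x hc1 hc2 hx
      · unfold rr
        exact one_div_le_one_div_of_le (by norm_num) (by nlinarith)
      · have h1 := hg hnd
        have h2 : ∃ i, LL σ lj H a b p.2 i ≤ |p.2 i - ZZ σ lj H a b p.2 i| := by
          by_contra hcon
          push Not at hcon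
          have h3 : gau (ZZ σ lj H a b) (LL σ lj H a b) p.2 < 1 := by
            unfold gau
            rw [pi_norm_lt_iff one_pos]
            intro i
            have hp := K5_pos σ hσ lj hl H a b p.2 i
            rw [Real.norm_eq_abs, abs_div, abs_of_pos hp, div_lt_one hp]
            exact hcon i
          linarith
        rcases K5_good σ hσ lj hl H a b hab p.2 h2 with h3 | h3
        · exact absurd h3 hy
        · exact h3

theorem M6_pimm {X : Type*} [NormedAddCommGroup X] {D : Type*} [Fintype D] [DecidableEq D]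
    {σ : ℝ → ℝ} {lj : ℤ → ℝ} {g1 g2 ν1 ν2 : ℝ → ℝ → ℝ} {nd : ℤ → ℤ → Prop} {K : ℝ}
    (h : Pat σ lj g1 g2 ν1 ν2 nd K) (H : Finset D) (a b : D) (hab : a ≠ b) (ha : a ∉ H) (hb : b ∉ H) :
    PImm (X := X) (wgt σ (insert a H) b) (wgt σ H b) (fold σ H a b g1 g2 ν1 ν2) (ZZ σ lj H a b) (LL σ lj H a b)
      (ndd lj nd b a) (rr a b) (cc a b K) := by
  have hσ : ∀ c, 0 < σ c := fun c => lt_of_lt_of_le one_pos (h.s1 c)
  have hl : ∀ j, 0 < lj j := fun j => by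
    have h1 := (h.l1 j j le_rfl (by linarith)).1
    have h2 := hσ j
    by_contra hcon
    push Not at hcon
    nlinarith
  have hM : (1 : ℝ) ≤ (MM a b : ℝ) := by exact_mod_cast K2_MM a b
  have hM0 : (0 : ℝ) < (MM a b : ℝ) := by linarith
  have hcc := M3_cc h.K1 a b
  refine ⟨?_, ?_, ?_, ?_, ?_, ?_, ?_, ?_, ?_, ?_, ?_, ?_, ?_⟩
  · unfold rr
    positivity
  · unfold rr
    exact one_div_le_one_div_of_le (by norm_num) (by nlinarith)
  · linarith [hcc.1]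
  · intro p
    rfl
  · intro p i
    unfold wgt
    split_ifs
    · exact hσ _
    · exact one_pos
  · intro p i
    unfold wgt
    split_ifs
    · exact hσ _
    · exact one_pos
  · intro p q hq i
    exact M3_slow h H a b hab hb p q hq i
  · intro p hg q q' hq hq'
    rcases M6_key h H a b hab hσ hl p hg with hy | ⟨hfl, hv⟩
    · exact M4_low h H a b hab ha hb p hy q q' hq hq'
    · exact M5_low h H a b hab ha hb p hfl hv q q' hq hq'
  · intro p hg q q' hq hq'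
    rcases M6_key h H a b hab hσ hl p hg with hy | ⟨hfl, hv⟩
    · exact M4_upp h H a b hab ha hb p hy q q' hq hq'
    · exact M5_upp h H a b hab ha hb p hfl hv q q' hq hq'
  · intro p hg w hw
    rcases M6_key h H a b hab hσ hl p hg with hy | ⟨hfl, hv⟩
    · exact M4_surj h H a b hab ha hb p hy w hw
    · exact M5_surj h H a b hab ha hb p hfl hv w hw
  · intro y i
    exact K5_pos σ hσ lj hl H a b y i
  · intro y y' hn hy
    obtain ⟨h1, h2, h3⟩ := K5_box σ hσ lj hl nd H a b hab y y' hy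
    exact ⟨h1, h2, h3.2 hn⟩
  · intro p i
    exact M3_size h H a b hab ha hb p i

end H80.LD
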