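import Pool.Agent.H80.LD.P6

/-!
# P7: the growing pattern is a pattern (`Pat`)

`i = lev c`, `A = am c`, `θ = th i c`, `α = al i c`, `z = x / lam' i`; `P5_lev, P5_th, P5_al, P5_size`.  `sg c * |z - z'| = sg c |x - x'| / lam' i`, `lam' i * sg c ∈ [Lam, 2 Lam]`, `1/lam' i ≤ sg c / Lam`.
* `s1, s2`: P5 (`KK + 3 ≤ Lp`).  `l1`: `blj j = lam' (lev j)`, `P5_levj`, `P5_size`: `Lam ≤ ... ≤ 2 Lam ≤ KK`.
* `p1`: `|g1f i c x - g1f i c x'| ≤ lam' i * sg c * 3 |z - z'| = 3 sg c |x - x'|`.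
* `p2`: `P6_global`.  `p3`: `|fs (pw z) - fs (pw z')| ≤ 160 |z - z'| ≤ 160 sg c |x-x'| / Lam ≤ ../10^5`; same for `2 |pw|`.  `p3b`: `|pw| ≤ 1`, `|fs| ≤ 1`.
* `p4`: `D1 = α fp w - fm w`, `D2 = fs w`, `w = Wf i c x0`: `P1_D`, `P1_f_mem`, `P1_det`; if `sg c |x - x0| ≤ 1` then `|z - z0| ≤ 1/(sg c * lam' i) ≤ 1/Lam =: ρ`; `P4_lin`: error `≤ lam' i * sg c * 640 ρ |z - z'| = 640/Lam * sg c |x - x'| ≤ sg c |x-x'|/10^5`.
* `p5`: `|g2f| ≤ 2 Lam * 1` (`P4_bound`).
* `p6`: `j ≤ c ≤ j+1`, `i' = lev j`: `P5_levj`, `P5_cons` (`Wf i' c x = Wf (lev c) c x` etc.), `x / lam' i'` is in the column: `P2_pw_zero`, `P4_col`; `fs 0 = 0`.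
* `p7`: `¬ bnd j m` means `j < -Lp`, so (integers) `j + 1 ≤ -Lp`, `c ≤ -Lp`, `am c = cl (1 + c/Lp) = 0`: `P2_amp0`, `P4_amp0`.
* `P7_drift`: `|b1 c x - x| ≤ KK`: `P4_bound` with `μ = 1/sg c`: `|G1 z - μ z| ≤ 4`, times `lam' i * sg c ≤ 2 Lam`, `lam' i * sg c * μ z = x`.
* `P7_triv`: `c ≤ -Lp`: `am c = 0`, `sg c = 1`, `al = 1` (`P3_amp0`), `G1 0 θ 1 z = z`: `b1 c x = x`, `b2 = 0`, `bn1 = 0`, `bn2 = 1`.
-/

open Filter Topology Metric Set MeasureTheory

namespace H80.LD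

theorem P7_lam_pos (i : ℕ) : 0 < lam' i := by
  unfold lam' Lam
  positivity

/-- all parameters of the level of `c` -/
theorem P7_data (c : ℝ) : (0 ≤ th (lev c) c ∧ th (lev c) c ≤ 1 ∧ 0 ≤ am c ∧ am c ≤ 1) ∧
    (1 / 20 ≤ al (lev c) c ∧ al (lev c) c ≤ 3) ∧
    (Lam ≤ lam' (lev c) * sg c ∧ lam' (lev c) * sg c ≤ 2 * Lam) := by
  obtain ⟨h1, h2⟩ := P5_lev c
  exact ⟨P5_th _ _ h1 h2, P5_al _ _ h1 h2, P5_size _ _ h1 h2⟩

theorem P7_z (c x x' : ℝ) :
    |x / lam' (lev c) - x' / lam' (lev c)| ≤ sg c * |x - x'| / Lam := by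
  obtain ⟨-, -, h1, -⟩ := P7_data c
  have h2 := P7_lam_pos (lev c)
  have h3 : 0 < Lam := by unfold Lam; norm_num
  rw [← sub_div, abs_div, abs_of_pos h2, div_le_div_iff₀ h2 h3]
  nlinarith [abs_nonneg (x - x')]

theorem P7_zz (c x x' : ℝ) :
    lam' (lev c) * sg c * |x / lam' (lev c) - x' / lam' (lev c)| = sg c * |x - x'| := by
  have h2 := P7_lam_pos (lev c)
  rw [← sub_div, abs_div, abs_of_pos h2]
  field_simp

theorem P7_sg_pos (c : ℝ) : 0 < sg c := lt_of_lt_of_le one_pos (P5_sg c)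

theorem P7_W_lip (c x x' : ℝ) :
    |Wf (lev c) c x - Wf (lev c) c x'| ≤ 80 * (sg c * |x - x'| / Lam) := by
  obtain ⟨⟨h0, h1, h2, h3⟩, -, -⟩ := P7_data c
  refine (P2_pw_lip _ _ _ _ h2 h3 h0 h1).trans ?_
  exact mul_le_mul_of_nonneg_left (P7_z c x x') (by norm_num)

theorem P7_W_abs (c x : ℝ) : |Wf (lev c) c x| ≤ 1 := by
  obtain ⟨⟨h0, h1, h2, h3⟩, -, -⟩ := P7_data c
  exact P2_pw_abs _ _ _ h2 h3 h0 h1

theorem P7_small (c x x' : ℝ) :
    160 * (sg c * |x - x'| / Lam) ≤ sg c * |x - x'| / 10 ^ 5 := by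
  have h : 0 ≤ sg c * |x - x'| := mul_nonneg (P7_sg_pos c).le (abs_nonneg _)
  unfold Lam
  rw [← mul_div_assoc, div_le_div_iff₀ (by norm_num) (by norm_num)]
  nlinarith

theorem P7_bound (c x : ℝ) : |b1 c x - x| ≤ 8 * Lam ∧ |b2 c x| ≤ 2 * Lam := by
  obtain ⟨⟨h0, h1, h2, h3⟩, ⟨h4, h5⟩, ⟨h6, h7⟩⟩ := P7_data c
  have hs := P5_sg c
  have hsp := P7_sg_pos c
  have hl := P7_lam_pos (lev c)
  obtain ⟨k1, k2⟩ := P4_bound (am c) (th (lev c) c) (1 / sg c) (x / lam' (lev c)) h2 h3 h0 h1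
    (by
      change 0 ≤ al (lev c) c
      linarith) h5 (by positivity) (by
      rw [div_le_one hsp]
      exact hs)
  have hp : 0 < lam' (lev c) * sg c := mul_pos hl hsp
  constructor
  · have e : b1 c x - x = lam' (lev c) * sg c *
        (G1 (am c) (th (lev c) c) ((1 / sg c + Im (am c) (th (lev c) c)) / Ip (am c) (th (lev c) c))
          (x / lam' (lev c)) - 1 / sg c * (x / lam' (lev c))) := by
      rw [mul_sub]
      congr 1
      field_simp
    rw [e, abs_mul, abs_of_pos hp]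
    have := mul_le_mul h7 k1 (abs_nonneg _) (by linarith)
    linarith
  · have e : b2 c x = lam' (lev c) * sg c * G2 (am c) (th (lev c) c) (x / lam' (lev c)) := rfl
    rw [e, abs_mul, abs_of_pos hp]
    have := mul_le_mul h7 k2 (abs_nonneg _) (by linarith)
    linarith

theorem P7_lin (c x0 : ℝ) : ∃ D1 D2 : ℝ, |D1| ≤ 3 ∧ |D2| ≤ 1 ∧
    1 / 40 ≤ D1 * bn2 c x0 - D2 * bn1 c x0 ∧
    ∀ x x', sg c * |x - x0| ≤ 1 → sg c * |x' - x0| ≤ 1 →
      |b1 c x - b1 c x' - sg c * (x - x') * D1| ≤ sg c * |x - x'| / 10 ^ 5 ∧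
      |b2 c x - b2 c x' - sg c * (x - x') * D2| ≤ sg c * |x - x'| / 10 ^ 5 := by
  obtain ⟨⟨h0, h1, h2, h3⟩, ⟨h4, h5⟩, ⟨h6, h7⟩⟩ := P7_data c
  have hW := P7_W_abs c x0
  have hsp := P7_sg_pos c
  have hl := P7_lam_pos (lev c)
  have hp : 0 < lam' (lev c) * sg c := mul_pos hl hsp
  have hLam : 0 < Lam := by unfold Lam; norm_num
  refine ⟨al (lev c) c * fp (Wf (lev c) c x0) - fm (Wf (lev c) c x0), fs (Wf (lev c) c x0),
    P1_D _ _ hW (by linarith) h5, (P1_f_mem _ hW).2.2.2.2, P1_det _ _ hW h4, ?_⟩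
  intro x x' hx hx'
  have hz : ∀ y, sg c * |y - x0| ≤ 1 → |y / lam' (lev c) - x0 / lam' (lev c)| ≤ 1 / Lam := by
    intro y hy
    exact (P7_z c y x0).trans (div_le_div_of_nonneg_right hy hLam.le)
  obtain ⟨k1, k2⟩ := P4_lin (am c) (th (lev c) c) (al (lev c) c) (x / lam' (lev c))
    (x' / lam' (lev c)) (x0 / lam' (lev c)) (1 / Lam) h2 h3 h0 h1 (by linarith) h5 (hz x hx) (hz x' hx')
  have hfin : ∀ E : ℝ, |E| ≤ 640 * (1 / Lam) * |x / lam' (lev c) - x' / lam' (lev c)| →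
      |lam' (lev c) * sg c * E| ≤ sg c * |x - x'| / 10 ^ 5 := by
    intro E hE
    rw [abs_mul, abs_of_pos hp]
    refine (mul_le_mul_of_nonneg_left hE hp.le).trans ?_
    have e := P7_zz c x x'
    have e2 : lam' (lev c) * sg c * (640 * (1 / Lam) * |x / lam' (lev c) - x' / lam' (lev c)|) =
        640 * (1 / Lam) * (sg c * |x - x'|) := by
      rw [← e]
      ring
    rw [e2]
    have h : 0 ≤ sg c * |x - x'| := mul_nonneg hsp.le (abs_nonneg _)
    unfold Lam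
    rw [le_div_iff₀ (by norm_num)]
    nlinarith
  have hd : lam' (lev c) * (x / lam' (lev c) - x' / lam' (lev c)) = x - x' := by
    field_simp
  constructor
  · have e : b1 c x - b1 c x' -
        sg c * (x - x') * (al (lev c) c * fp (Wf (lev c) c x0) - fm (Wf (lev c) c x0)) =
        lam' (lev c) * sg c * (G1 (am c) (th (lev c) c) (al (lev c) c) (x / lam' (lev c)) -
          G1 (am c) (th (lev c) c) (al (lev c) c) (x' / lam' (lev c)) -
          (x / lam' (lev c) - x' / lam' (lev c)) *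
            (al (lev c) c * fp (pw (am c) (th (lev c) c) (x0 / lam' (lev c))) -
              fm (pw (am c) (th (lev c) c) (x0 / lam' (lev c))))) := by
      rw [← hd]
      unfold b1 g1f Wf
      ring
    rw [e]
    exact hfin _ k1
  · have e : b2 c x - b2 c x' - sg c * (x - x') * fs (Wf (lev c) c x0) =
        lam' (lev c) * sg c * (G2 (am c) (th (lev c) c) (x / lam' (lev c)) -
          G2 (am c) (th (lev c) c) (x' / lam' (lev c)) -
          (x / lam' (lev c) - x' / lam' (lev c)) *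
            fs (pw (am c) (th (lev c) c) (x0 / lam' (lev c)))) := by
      rw [← hd]
      unfold b2 g2f Wf
      ring
    rw [e]
    exact hfin _ k2

theorem P7_lip1 (c x x' : ℝ) : |b1 c x - b1 c x'| ≤ KK * (sg c * |x - x'|) ∧
    |b2 c x - b2 c x'| ≤ KK * (sg c * |x - x'|) := by
  obtain ⟨⟨h0, h1, h2, h3⟩, ⟨h4, h5⟩, -⟩ := P7_data c
  have hsp := P7_sg_pos c
  have hl := P7_lam_pos (lev c)
  have hp : 0 < lam' (lev c) * sg c := mul_pos hl hsp
  obtain ⟨k1, k2⟩ := P4_lip (am c) (th (lev c) c) (al (lev c) c) (x / lam' (lev c))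
    (x' / lam' (lev c)) h2 h3 h0 h1 (by linarith) h5
  have e := P7_zz c x x'
  have h : 0 ≤ sg c * |x - x'| := mul_nonneg hsp.le (abs_nonneg _)
  have hK : (3 : ℝ) ≤ KK := by unfold KK; norm_num
  constructor
  · have e1 : b1 c x - b1 c x' = lam' (lev c) * sg c *
        (G1 (am c) (th (lev c) c) (al (lev c) c) (x / lam' (lev c)) -
          G1 (am c) (th (lev c) c) (al (lev c) c) (x' / lam' (lev c))) := by
      unfold b1 g1f
      ring
    rw [e1, abs_mul, abs_of_pos hp]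
    have := mul_le_mul_of_nonneg_left k1 hp.le
    nlinarith
  · have e1 : b2 c x - b2 c x' = lam' (lev c) * sg c *
        (G2 (am c) (th (lev c) c) (x / lam' (lev c)) -
          G2 (am c) (th (lev c) c) (x' / lam' (lev c))) := by
      unfold b2 g2f
      ring
    rw [e1, abs_mul, abs_of_pos hp]
    have := mul_le_mul_of_nonneg_left k2 hp.le
    nlinarith

theorem P7_of_zero (c x : ℝ) (hW : Wf (lev c) c x = 0) : bn1 c x = 0 ∧ bn2 c x = 1 := by
  unfold bn1 bn2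
  rw [hW, P1_f_zero.2.2, abs_zero, mul_zero, sub_zero, neg_zero]
  exact ⟨rfl, rfl⟩

theorem P7_am0 (c : ℝ) (h : c ≤ -Lp) : am c = 0 := by
  unfold am
  refine K1_cl_zero _ ?_
  have hL : 0 < Lp := by unfold Lp; norm_num
  have h2 : c / Lp ≤ -1 := by
    rw [div_le_iff₀ hL]
    linarith
  linarith

theorem P7_triv (c x : ℝ) (h : c ≤ -Lp) : b1 c x = x ∧ b2 c x = 0 ∧ bn1 c x = 0 ∧ bn2 c x = 1 := by
  have ha := P7_am0 c h
  have hL : 0 < Lp := by unfold Lp; norm_num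
  have hs : sg c = 1 := P5_sg_neg c (by linarith)
  have hl := P7_lam_pos (lev c)
  have hW : Wf (lev c) c x = 0 := by
    unfold Wf
    rw [ha, P2_amp0]
  refine ⟨?_, ?_, (P7_of_zero c x hW).1, (P7_of_zero c x hW).2⟩
  · unfold b1 g1f al
    rw [ha, hs, (P3_amp0 _).1, (P3_amp0 _).2, add_zero, div_one, div_one, (P4_amp0 _ _).1, mul_one]
    field_simp
  · unfold b2 g2f
    rw [ha, (P4_amp0 _ _).2, mul_zero]

theorem P7_pat : Pat sg blj b1 b2 bn1 bn2 bnd KK where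
  K1 := by unfold KK; norm_num
  s1 := P5_sg
  s2 := by
    intro c c' h
    refine P5_sg_slow c c' (h.trans ?_)
    unfold KK Lp
    norm_num
  l1 := by
    intro j c h h'
    obtain ⟨h1, h2⟩ := P5_levj j c h h'
    obtain ⟨h3, h4⟩ := P5_size _ _ h1 h2
    unfold blj
    rw [mul_comm]
    refine ⟨le_trans ?_ h3, h4.trans ?_⟩
    · unfold Lam
      norm_num
    · unfold Lam KK
      norm_num
  p1 := P7_lip1
  p2 := by
    intro c c' x
    obtain ⟨h1, h2, h3, h4⟩ := P6_global c c' x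
    have h : 20 * |c - c'| ≤ KK * |c - c'| :=
      mul_le_mul_of_nonneg_right (by unfold KK; norm_num) (abs_nonneg _)
    exact ⟨h1.trans h, h2.trans h, h3.trans h, h4.trans h⟩
  p3 := by
    intro c x x'
    have hW := P7_W_lip c x x'
    have hs := P7_small c x x'
    constructor
    · have h1 := P1_fs_lip (Wf (lev c) c x') (Wf (lev c) c x)
      have e : bn1 c x - bn1 c x' = fs (Wf (lev c) c x') - fs (Wf (lev c) c x) := by
        unfold bn1
        ring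
      rw [e]
      rw [abs_sub_comm (Wf (lev c) c x')] at h1
      linarith
    · have h1 := abs_abs_sub_abs_le_abs_sub (Wf (lev c) c x') (Wf (lev c) c x)
      have e : bn2 c x - bn2 c x' = 2 * (|Wf (lev c) c x'| - |Wf (lev c) c x|) := by
        unfold bn2
        ring
      rw [e, abs_mul, abs_of_pos (by norm_num : (0 : ℝ) < 2)]
      rw [abs_sub_comm (Wf (lev c) c x')] at h1
      linarith
  p3b := by
    intro c x
    have hW := P7_W_abs c x
    constructor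
    · unfold bn1
      rw [abs_neg]
      exact (P1_f_mem _ hW).2.2.2.2
    · unfold bn2
      rw [abs_le]
      have := abs_nonneg (Wf (lev c) c x)
      constructor <;> linarith
  p4 := P7_lin
  p5 := by
    intro c x
    refine (P7_bound c x).2.trans ?_
    unfold Lam KK
    norm_num
  p6 := by
    intro j m x c h1 h2 h3 h4
    obtain ⟨k1, k2⟩ := P5_levj j c h3 h4
    obtain ⟨c1, -, c3, -⟩ := P5_cons _ c x k1 k2
    obtain ⟨t0, t1, t2, t3⟩ := P5_th _ _ k1 k2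
    have hW : Wf (lev c) c x = 0 := by
      rw [← c1]
      exact P2_pw_zero _ _ _ m t0 t1 h1 h2
    refine ⟨(P7_of_zero c x hW).1, (P7_of_zero c x hW).2, ?_⟩
    have e : b2 c x = g2f (lev (j : ℝ)) c x := c3.symm
    rw [e]
    have e2 : G2 (am c) (th (lev (j : ℝ)) c) (x / lam' (lev (j : ℝ))) = 0 :=
      P4_col _ _ _ m t2 t3 t0 t1 h1 h2
    unfold g2f
    rw [e2, mul_zero]
  p7 := by
    intro j m hn x c _ _ _ h4
    have h : c ≤ -Lp := by
      unfold bnd at hn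
      rw [not_le] at hn
      refine h4.trans ?_
      have e : -Lp = ((-(10 ^ 10) : ℤ) : ℝ) := by
        unfold Lp
        norm_num
      rw [e] at hn ⊢
      have h5 : j < -(10 ^ 10) := Int.cast_lt.1 hn
      have h6 : j + 1 ≤ -(10 ^ 10) := h5
      have h7 : ((j + 1 : ℤ) : ℝ) ≤ ((-(10 ^ 10) : ℤ) : ℝ) := Int.cast_le.2 h6
      rw [Int.cast_add, Int.cast_one] at h7
      exact h7
    obtain ⟨-, h1, h2, h3⟩ := P7_triv c x h
    exact ⟨h2, h3, h1⟩

theorem P7_drift (c x : ℝ) : |b1 c x - x| ≤ KK := by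
  refine (P7_bound c x).1.trans ?_
  unfold Lam KK
  norm_num

end H80.LD
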