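import Pool.Agent.H80.LD.P4

/-!
# P8: the outermost pattern is a pattern (`Pat`) with `σ = 1`

`Wo y = pw 1 0 (max y 0 / Lam)`, `|Wo| ≤ 1`, `|Wo y - Wo y'| ≤ 80 |y - y'| / Lam`; `Wo y = 0` for `y ≤ 0` (`P2_pw_zero`).  `1/20 ≤ alo ≤ 1` (`P3`: `Im 1 0 ∈ [1/20, 1/2]`, `Ip 1 0 ∈ [1/2, 1]`; note `alo = (0 + Im 1 0)/Ip 1 0`).
`Do y = alo fp (Wo y) - fm (Wo y) + (1 - alo) cl (1 - 20 y/Lam)`; `|Do y - Do y'| ≤ ((2 alo + 2) 80 + 20) |y-y'|/Lam ≤ 340 |y - y'|/Lam`; `Do y = 1` for `y ≤ 0`.  If `cl (1 - 20y/Lam) ≠ 0` then `y < Lam/20`, so `Wo y = 0` and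
`Do y = alo + (1 - alo) cl (..) ∈ [alo, 1]`; otherwise `Do y = alo fp - fm`.  Hence `|Do| ≤ 1` and `Do y * (1 - 2 |Wo y|) + fs (Wo y)^2 ≥ 1/40` (`P1_det` with `alo`; in the first case `Wo y = 0` and the left side is `Do y ≥ alo ≥ 1/20`).
* `s1, s2`: `σ = 1`.  `l1`: `1 ≤ Lam ≤ KK`.  `p1`: `|Do| ≤ 1`, `|fs| ≤ 1`.  `p2`: no dependence on `c`.  `p3`: `160/Lam ≤ 10^{-5}`.  `p3b`.
* `p4`: `D1 = Do x0`, `D2 = fs (Wo x0)`, error `≤ 340/Lam * |x - x'| ≤ |x-x'|/10^5` (integral of `Do y - Do x0`, `|y - x0| ≤ 1`).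
* `p5`: `o2 c t = 0` for `t ≤ 0`, `= Lam * G2 1 0 (t/Lam)` for `t ≥ 0` (substitution), `|G2| ≤ 1` (`P4_bound`).
* `p6`: `-3/10 ≤ x/Lam - m ≤ 1/20`: if `x ≤ 0`: `Wo x = 0`, `o2 = 0`; if `x ≥ 0`: `P2_pw_zero`, `P4_col`.  `p7`: `¬ 0 ≤ m`: `x/Lam ≤ m + 1 ≤ 0`: `x ≤ 0`.
* `P8_drift`: `t ≤ 0`: `o1 c t = t`.  `t ≥ 0`: `o1 c t = Lam * G1 1 0 alo (t/Lam) + (1 - alo) ∫_0^t cl (1 - 20y/Lam) dy`, the first term is bounded by `4 Lam` (`P4_bound`, `μ = 0`), the second is between `0` and `Lam/20`.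
-/

open Filter Topology Metric Set MeasureTheory

namespace H80.LD

theorem P8_Lam_pos : 0 < Lam := by
  unfold Lam
  norm_num

theorem P8_cont (f : ℝ → ℝ) (K : ℝ) (hK : 0 ≤ K) (h : ∀ x y, |f x - f y| ≤ K * |x - y|) :
    Continuous f := by
  have h1 : LipschitzWith (Real.toNNReal K) f := LipschitzWith.of_dist_le_mul fun x y => by
    rw [Real.dist_eq, Real.dist_eq, Real.coe_toNNReal K hK]
    exact h x y
  exact h1.continuous

theorem P8_alo : 1 / 20 ≤ alo ∧ alo ≤ 1 := by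
  have h1 := P3_al 1 0 0 zero_le_one le_rfl le_rfl zero_le_one le_rfl zero_le_one (Or.inr rfl)
  rw [zero_add] at h1
  have h2 := P3_Ip 1 0 zero_le_one le_rfl le_rfl zero_le_one
  have h3 := P3_Im 1 0 zero_le_one le_rfl le_rfl zero_le_one
  refine ⟨h1.1, ?_⟩
  unfold alo
  rw [div_le_one (by linarith [h2.1])]
  linarith [h2.1, h3.2]

theorem P8_Wo_abs (y : ℝ) : |Wo y| ≤ 1 := P2_pw_abs 1 0 _ zero_le_one le_rfl le_rfl zero_le_one

theorem P8_Wo_lip (y y' : ℝ) : |Wo y - Wo y'| ≤ 80 * (|y - y'| / Lam) := by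
  have hL := P8_Lam_pos
  unfold Wo
  refine (P2_pw_lip 1 0 _ _ zero_le_one le_rfl le_rfl zero_le_one).trans ?_
  rw [← sub_div, abs_div, abs_of_pos hL]
  have h1 : |max y 0 - max y' 0| ≤ |y - y'| := abs_max_sub_max_le_abs y y' 0
  have h2 : |max y 0 - max y' 0| / Lam ≤ |y - y'| / Lam := div_le_div_of_nonneg_right h1 hL.le
  linarith

theorem P8_Wo_small (y : ℝ) (h : y ≤ Lam / 20) : Wo y = 0 := by
  have hL := P8_Lam_pos
  have h1 : 0 ≤ max y 0 / Lam := div_nonneg (le_max_right _ _) hL.le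
  have h2 : max y 0 / Lam ≤ 1 / 20 := by
    rw [div_le_iff₀ hL]
    refine max_le (by linarith) (by positivity)
  exact P2_pw_zero 1 0 _ 0 le_rfl zero_le_one (by push_cast; linarith) (by push_cast; linarith)

theorem P8_cl_zero (y : ℝ) (h : Lam / 20 ≤ y) : cl (1 - 20 * y / Lam) = 0 := by
  have hL := P8_Lam_pos
  refine K1_cl_zero _ ?_
  have h1 : 1 ≤ 20 * y / Lam := by
    rw [le_div_iff₀ hL]
    linarith
  linarith

theorem P8_Do_cases (y : ℝ) : (Wo y = 0 ∧ alo ≤ Do y ∧ Do y ≤ 1) ∨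
    Do y = alo * fp (Wo y) - fm (Wo y) := by
  obtain ⟨h1, h2⟩ := P8_alo
  rcases le_total y (Lam / 20) with h | h
  · left
    have h3 := P8_Wo_small y h
    refine ⟨h3, ?_⟩
    unfold Do
    rw [h3, P1_f_zero.1, P1_f_zero.2.1]
    obtain ⟨h4, h5⟩ := K1_cl_mem (1 - 20 * y / Lam)
    have h6 : 0 ≤ (1 - alo) * cl (1 - 20 * y / Lam) := mul_nonneg (by linarith) h4
    have h7 : (1 - alo) * cl (1 - 20 * y / Lam) ≤ (1 - alo) * 1 :=
      mul_le_mul_of_nonneg_left h5 (by linarith)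
    constructor <;> linarith
  · right
    unfold Do
    rw [P8_cl_zero y h, mul_zero, add_zero]

theorem P8_Do_abs (y : ℝ) : |Do y| ≤ 1 := by
  obtain ⟨h1, h2⟩ := P8_alo
  rcases P8_Do_cases y with ⟨-, h3, h4⟩ | h3
  · rw [abs_le]
    constructor <;> linarith
  · rw [h3, abs_le]
    obtain ⟨h4, h5, h6, h7, -⟩ := P1_f_mem (Wo y) (P8_Wo_abs y)
    have h8 : 0 ≤ alo * fp (Wo y) := mul_nonneg (by linarith) h4
    have h9 : alo * fp (Wo y) ≤ 1 := mul_le_one₀ h2 h4 h5
    constructor <;> linarith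

theorem P8_Do_det (y : ℝ) : 1 / 40 ≤ Do y * (1 - 2 * |Wo y|) - fs (Wo y) * (-fs (Wo y)) := by
  obtain ⟨h1, h2⟩ := P8_alo
  rcases P8_Do_cases y with ⟨h0, h3, h4⟩ | h3
  · rw [h0, P1_f_zero.2.2, abs_zero]
    linarith
  · rw [h3]
    exact P1_det (Wo y) alo (P8_Wo_abs y) h1

theorem P8_Do_lip (y y' : ℝ) : |Do y - Do y'| ≤ 340 / Lam * |y - y'| := by
  have hL := P8_Lam_pos
  obtain ⟨h1, h2⟩ := P8_alo
  have h3 := P8_Wo_lip y y'
  have h4 := P1_fp_lip (Wo y) (Wo y')
  have h5 := P1_fm_lip (Wo y) (Wo y')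
  have h6 := K1_cl_lip (1 - 20 * y / Lam) (1 - 20 * y' / Lam)
  have h7 : |1 - 20 * y / Lam - (1 - 20 * y' / Lam)| = 20 * (|y - y'| / Lam) := by
    have e : 1 - 20 * y / Lam - (1 - 20 * y' / Lam) = -(20 / Lam * (y - y')) := by ring
    rw [e, abs_neg, abs_mul, abs_of_pos (by positivity)]
    ring
  rw [h7] at h6
  have e : Do y - Do y' = alo * (fp (Wo y) - fp (Wo y')) - (fm (Wo y) - fm (Wo y')) +
      (1 - alo) * (cl (1 - 20 * y / Lam) - cl (1 - 20 * y' / Lam)) := by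
    unfold Do
    ring
  have h8 : |alo * (fp (Wo y) - fp (Wo y'))| ≤ 1 * |fp (Wo y) - fp (Wo y')| := by
    rw [abs_mul, abs_of_nonneg (by linarith : 0 ≤ alo)]
    exact mul_le_mul_of_nonneg_right h2 (abs_nonneg _)
  have h9 : |(1 - alo) * (cl (1 - 20 * y / Lam) - cl (1 - 20 * y' / Lam))| ≤
      1 * |cl (1 - 20 * y / Lam) - cl (1 - 20 * y' / Lam)| := by
    rw [abs_mul, abs_of_nonneg (by linarith : 0 ≤ 1 - alo)]
    exact mul_le_mul_of_nonneg_right (by linarith) (abs_nonneg _)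
  rw [e]
  have h10 : 340 / Lam * |y - y'| = 340 * (|y - y'| / Lam) := by ring
  rw [h10]
  refine (abs_add_le _ _).trans ?_
  refine (add_le_add (abs_sub _ _) le_rfl).trans ?_
  linarith

theorem P8_fs_lip (y y' : ℝ) : |fs (Wo y) - fs (Wo y')| ≤ 340 / Lam * |y - y'| := by
  have hL := P8_Lam_pos
  have h3 := P8_Wo_lip y y'
  have h4 := P1_fs_lip (Wo y) (Wo y')
  have h5 : 0 ≤ |y - y'| / Lam := by positivity
  have h10 : 340 / Lam * |y - y'| = 340 * (|y - y'| / Lam) := by ring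
  rw [h10]
  linarith

theorem P8_cDo : Continuous Do :=
  P8_cont _ _ (div_nonneg (by norm_num) P8_Lam_pos.le) P8_Do_lip

theorem P8_cfs : Continuous (fun y => fs (Wo y)) :=
  P8_cont _ _ (div_nonneg (by norm_num) P8_Lam_pos.le) P8_fs_lip

theorem P8_int (F : ℝ → ℝ) (hF : Continuous F) (E x0 : ℝ)
    (h : ∀ y, |y - x0| ≤ 1 → |F y - F x0| ≤ E) (x x' : ℝ) (hx : |x - x0| ≤ 1)
    (hx' : |x' - x0| ≤ 1) :
    |(∫ y in (0 : ℝ)..x, F y) - (∫ y in (0 : ℝ)..x', F y) - (x - x') * F x0| ≤ E * |x - x'| := by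
  have e1 : (∫ y in (0 : ℝ)..x, F y) - (∫ y in (0 : ℝ)..x', F y) = ∫ y in x'..x, F y :=
    intervalIntegral.integral_interval_sub_left (hF.intervalIntegrable _ _)
      (hF.intervalIntegrable _ _)
  have e2 : (x - x') * F x0 = ∫ _y in x'..x, F x0 := by
    rw [intervalIntegral.integral_const, smul_eq_mul]
  rw [e1, e2, ← intervalIntegral.integral_sub (hF.intervalIntegrable _ _)
    (continuous_const.intervalIntegrable _ _)]
  have h1 := intervalIntegral.norm_integral_le_of_norm_le_const (a := x') (b := x) (C := E)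
    (f := fun y => F y - F x0) (fun y hy => by
      rw [Real.norm_eq_abs]
      refine h y ?_
      rw [Set.mem_uIoc] at hy
      rw [abs_le] at hx hx' ⊢
      rcases hy with ⟨h2, h3⟩ | ⟨h2, h3⟩
      · constructor <;> linarith [hx.1, hx.2, hx'.1, hx'.2]
      · constructor <;> linarith [hx.1, hx.2, hx'.1, hx'.2])
  rw [Real.norm_eq_abs] at h1
  exact h1

theorem P8_int1 (F : ℝ → ℝ) (hF : Continuous F) (h : ∀ y, |F y| ≤ 1) (x x' : ℝ) :
    |(∫ y in (0 : ℝ)..x, F y) - (∫ y in (0 : ℝ)..x', F y)| ≤ |x - x'| := by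
  have e1 : (∫ y in (0 : ℝ)..x, F y) - (∫ y in (0 : ℝ)..x', F y) = ∫ y in x'..x, F y :=
    intervalIntegral.integral_interval_sub_left (hF.intervalIntegrable _ _)
      (hF.intervalIntegrable _ _)
  rw [e1]
  have h1 := intervalIntegral.norm_integral_le_of_norm_le_const (a := x') (b := x) (C := 1)
    (f := F) (fun y _ => by
      rw [Real.norm_eq_abs]
      exact h y)
  rw [Real.norm_eq_abs, one_mul] at h1
  exact h1

theorem P8_Do_neg (y : ℝ) (h : y ≤ 0) : Do y = 1 := by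
  have hL := P8_Lam_pos
  unfold Do
  rw [P8_Wo_small y (by linarith [div_nonneg hL.le (by norm_num : (0 : ℝ) ≤ 20)]),
    P1_f_zero.1, P1_f_zero.2.1, K1_cl_one]
  · ring
  · have h1 : 20 * y / Lam ≤ 0 := div_nonpos_of_nonpos_of_nonneg (by linarith) hL.le
    linarith

theorem P8_triv (c t : ℝ) (h : t ≤ 0) : o1 c t = t ∧ o2 c t = 0 ∧ on1 c t = 0 ∧ on2 c t = 1 := by
  have hL := P8_Lam_pos
  have hw : ∀ y, y ≤ 0 → Wo y = 0 := fun y hy =>
    P8_Wo_small y (by linarith [div_nonneg hL.le (by norm_num : (0 : ℝ) ≤ 20)])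
  refine ⟨?_, ?_, ?_, ?_⟩
  · unfold o1
    have h1 : ∫ y in (0 : ℝ)..t, Do y = ∫ _y in (0 : ℝ)..t, (1 : ℝ) := by
      refine intervalIntegral.integral_congr fun y hy => ?_
      rw [Set.uIcc_of_ge h] at hy
      exact P8_Do_neg y hy.2
    rw [h1, intervalIntegral.integral_const, smul_eq_mul, mul_one, sub_zero]
  · unfold o2
    have h1 : ∫ y in (0 : ℝ)..t, fs (Wo y) = ∫ _y in (0 : ℝ)..t, (0 : ℝ) := by
      refine intervalIntegral.integral_congr fun y hy => ?_
      rw [Set.uIcc_of_ge h] at hy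
      show fs (Wo y) = 0
      rw [hw y hy.2]
      exact P1_f_zero.2.2
    rw [h1, intervalIntegral.integral_zero]
  · unfold on1
    rw [hw t h, P1_f_zero.2.2, neg_zero]
  · unfold on2
    rw [hw t h, abs_zero]
    ring

theorem P8_o2 (c t : ℝ) (h : 0 ≤ t) : o2 c t = Lam * G2 1 0 (t / Lam) := by
  have hL := P8_Lam_pos
  unfold o2 G2
  have h1 : ∫ y in (0 : ℝ)..t, fs (Wo y) = ∫ y in (0 : ℝ)..t, fs (pw 1 0 (y / Lam)) := by
    refine intervalIntegral.integral_congr fun y hy => ?_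
    rw [Set.uIcc_of_le h] at hy
    show fs (Wo y) = fs (pw 1 0 (y / Lam))
    unfold Wo
    rw [max_eq_left hy.1]
  rw [h1, intervalIntegral.integral_comp_div (fun z => fs (pw 1 0 z)) hL.ne', zero_div,
    smul_eq_mul]

theorem P8_drift (c t : ℝ) : |o1 c t - min t 0| ≤ KK := by
  have hL := P8_Lam_pos
  have hK : KK = 10 * Lam := by
    unfold KK Lam
    norm_num
  rcases le_total t 0 with h | h
  · rw [(P8_triv c t h).1, min_eq_left h, sub_self, abs_zero, hK]
    positivity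
  · rw [min_eq_right h, sub_zero]
    obtain ⟨ha1, ha2⟩ := P8_alo
    have hcpw : Continuous (fun y => pw 1 0 (y / Lam)) := by
      refine P8_cont _ (80 / Lam) (by positivity) fun x y => ?_
      have h1 := P2_pw_lip 1 0 (x / Lam) (y / Lam) zero_le_one le_rfl le_rfl zero_le_one
      rw [← sub_div, abs_div, abs_of_pos hL] at h1
      calc _ ≤ _ := h1
        _ = 80 / Lam * |x - y| := by ring
    have hcfp : Continuous fp := by
      unfold fp
      exact continuous_const.max (continuous_const.sub (continuous_const.mul continuous_abs))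
    have hcfm : Continuous fm := by
      unfold fm
      exact continuous_const.max ((continuous_const.mul continuous_abs).sub continuous_const)
    have hc1 : Continuous (fun y => alo * fp (pw 1 0 (y / Lam)) - fm (pw 1 0 (y / Lam))) :=
      (continuous_const.mul (hcfp.comp hcpw)).sub (hcfm.comp hcpw)
    have hccl : Continuous (fun y : ℝ => cl (1 - 20 * y / Lam)) := by
      refine P8_cont _ (20 / Lam) (by positivity) fun x y => ?_
      have h1 := K1_cl_lip (1 - 20 * x / Lam) (1 - 20 * y / Lam)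
      have e : 1 - 20 * x / Lam - (1 - 20 * y / Lam) = -(20 / Lam * (x - y)) := by ring
      rw [e, abs_neg, abs_mul, abs_of_pos (by positivity : 0 < 20 / Lam)] at h1
      exact h1
    have hc2 : Continuous (fun y : ℝ => (1 - alo) * cl (1 - 20 * y / Lam)) :=
      continuous_const.mul hccl
    have e1 : o1 c t = Lam * G1 1 0 alo (t / Lam) +
        (1 - alo) * ∫ y in (0 : ℝ)..t, cl (1 - 20 * y / Lam) := by
      unfold o1 G1
      have h1 : ∫ y in (0 : ℝ)..t, Do y = ∫ y in (0 : ℝ)..t,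
          ((alo * fp (pw 1 0 (y / Lam)) - fm (pw 1 0 (y / Lam))) +
            (1 - alo) * cl (1 - 20 * y / Lam)) := by
        refine intervalIntegral.integral_congr fun y hy => ?_
        rw [Set.uIcc_of_le h] at hy
        show Do y = _
        unfold Do Wo
        rw [max_eq_left hy.1]
      rw [h1, intervalIntegral.integral_add (hc1.intervalIntegrable _ _)
        (hc2.intervalIntegrable _ _),
        intervalIntegral.integral_comp_div (fun z => alo * fp (pw 1 0 z) - fm (pw 1 0 z)) hL.ne',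
        zero_div, smul_eq_mul, intervalIntegral.integral_const_mul]
    have h2 := (P4_bound 1 0 0 (t / Lam) zero_le_one le_rfl le_rfl zero_le_one
      (by rw [zero_add]; change 0 ≤ alo; linarith) (by rw [zero_add]; change alo ≤ 3; linarith)
      le_rfl zero_le_one).1
    rw [zero_add, zero_mul, sub_zero] at h2
    have h3 : |G1 1 0 alo (t / Lam)| ≤ 4 := h2
    have h4 : ∀ s : ℝ, 0 ≤ s → s ≤ Lam → |∫ y in (0 : ℝ)..s, cl (1 - 20 * y / Lam)| ≤ Lam := by
      intro s hs0 hs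
      have h5 := intervalIntegral.norm_integral_le_of_norm_le_const (a := 0) (b := s) (C := 1)
        (f := fun y : ℝ => cl (1 - 20 * y / Lam)) (fun y _ => by
          rw [Real.norm_eq_abs, abs_of_nonneg (K1_cl_mem _).1]
          exact (K1_cl_mem _).2)
      rw [Real.norm_eq_abs, one_mul, sub_zero, abs_of_nonneg hs0] at h5
      exact h5.trans hs
    have h5 : |∫ y in (0 : ℝ)..t, cl (1 - 20 * y / Lam)| ≤ Lam := by
      rcases le_total t Lam with h6 | h6
      · exact h4 t h h6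
      · have e2 := intervalIntegral.integral_add_adjacent_intervals
          (hccl.intervalIntegrable (μ := volume) 0 Lam) (hccl.intervalIntegrable (μ := volume) Lam t)
        have e3 : ∫ y in Lam..t, cl (1 - 20 * y / Lam) = ∫ _y in Lam..t, (0 : ℝ) := by
          refine intervalIntegral.integral_congr fun y hy => ?_
          rw [Set.uIcc_of_le h6] at hy
          exact P8_cl_zero y (by linarith [hy.1])
        rw [e3, intervalIntegral.integral_zero, add_zero] at e2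
        rw [← e2]
        exact h4 Lam hL.le le_rfl
    rw [e1]
    have h6 : |Lam * G1 1 0 alo (t / Lam)| ≤ Lam * 4 := by
      rw [abs_mul, abs_of_pos hL]
      exact mul_le_mul_of_nonneg_left h3 hL.le
    have h7 : |(1 - alo) * ∫ y in (0 : ℝ)..t, cl (1 - 20 * y / Lam)| ≤ 1 * Lam := by
      rw [abs_mul, abs_of_nonneg (by linarith : 0 ≤ 1 - alo)]
      exact mul_le_mul (by linarith) h5 (abs_nonneg _) zero_le_one
    refine (abs_add_le _ _).trans ?_
    rw [hK]
    linarith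

theorem P8_pat : Pat (fun _ => 1) olj o1 o2 on1 on2 ond KK := by
  have hL := P8_Lam_pos
  have hK : KK = 10 * Lam := by
    unfold KK Lam
    norm_num
  have hL1 : Lam = 10 ^ 8 := rfl
  have hK1 : 1 ≤ KK := by
    unfold KK
    norm_num
  have hK0 : 0 ≤ KK := by linarith
  refine ⟨hK1, fun _ => le_rfl, fun _ _ _ => by norm_num, ?_, ?_, ?_, ?_, ?_, ?_, ?_, ?_, ?_⟩
  · intro j c _ _
    show 1 ≤ 1 * Lam ∧ 1 * Lam ≤ KK
    rw [hK, hL1]
    constructor <;> norm_num
  · intro c x x'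
    have h1 := P8_int1 Do P8_cDo P8_Do_abs x x'
    have h2 := P8_int1 (fun y => fs (Wo y)) P8_cfs (fun y => (P1_f_mem _ (P8_Wo_abs y)).2.2.2.2) x x'
    have h3 : |x - x'| ≤ KK * (1 * |x - x'|) := by
      rw [one_mul]
      exact le_mul_of_one_le_left (abs_nonneg _) hK1
    exact ⟨h1.trans h3, h2.trans h3⟩
  · intro c c' x
    have h1 : 0 ≤ KK * |c - c'| := by positivity
    refine ⟨?_, ?_, ?_, ?_⟩
    · show |(∫ y in (0 : ℝ)..x, Do y) - ∫ y in (0 : ℝ)..x, Do y| ≤ _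
      rw [sub_self, abs_zero]
      exact h1
    · show |(∫ y in (0 : ℝ)..x, fs (Wo y)) - ∫ y in (0 : ℝ)..x, fs (Wo y)| ≤ _
      rw [sub_self, abs_zero]
      exact h1
    · show |(-fs (Wo x)) - (-fs (Wo x))| ≤ _
      rw [sub_self, abs_zero]
      exact h1
    · show |(1 - 2 * |Wo x|) - (1 - 2 * |Wo x|)| ≤ _
      rw [sub_self, abs_zero]
      exact h1
  · intro c x x'
    have h1 := P8_Wo_lip x x'
    have h2 : 160 * (|x - x'| / Lam) ≤ 1 * |x - x'| / 10 ^ 5 := by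
      rw [hL1]
      have := abs_nonneg (x - x')
      have e : 160 * (|x - x'| / 10 ^ 8) = |x - x'| * (160 / 10 ^ 8) := by ring
      have e' : 1 * |x - x'| / 10 ^ 5 = |x - x'| * (1 / 10 ^ 5) := by ring
      rw [e, e']
      exact mul_le_mul_of_nonneg_left (by norm_num) this
    constructor
    · show |(-fs (Wo x)) - (-fs (Wo x'))| ≤ _
      have h3 := P1_fs_lip (Wo x) (Wo x')
      have e : (-fs (Wo x)) - (-fs (Wo x')) = -(fs (Wo x) - fs (Wo x')) := by ring
      rw [e, abs_neg]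
      linarith
    · show |(1 - 2 * |Wo x|) - (1 - 2 * |Wo x'|)| ≤ _
      have h3 := abs_abs_sub_abs_le (Wo x) (Wo x')
      have e : (1 - 2 * |Wo x|) - (1 - 2 * |Wo x'|) = -(2 * (|Wo x| - |Wo x'|)) := by ring
      rw [e, abs_neg, abs_mul, abs_of_pos (by norm_num : (0 : ℝ) < 2)]
      linarith
  · intro c x
    have h1 := P8_Wo_abs x
    constructor
    · show |-fs (Wo x)| ≤ 1
      rw [abs_neg]
      exact (P1_f_mem _ h1).2.2.2.2
    · show |(1 - 2 * |Wo x|)| ≤ 1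
      have h2 := abs_nonneg (Wo x)
      rw [abs_le]
      constructor <;> linarith
  · intro c x0
    refine ⟨Do x0, fs (Wo x0), (P8_Do_abs x0).trans (by norm_num),
      (P1_f_mem _ (P8_Wo_abs x0)).2.2.2.2, P8_Do_det x0, ?_⟩
    intro x x' hx hx'
    rw [one_mul] at hx hx'
    have hE : ∀ y, |y - x0| ≤ 1 → 340 / Lam * |y - x0| ≤ 1 / 10 ^ 5 := by
      intro y hy
      have h1 : 340 / Lam * |y - x0| ≤ 340 / Lam * 1 := mul_le_mul_of_nonneg_left hy (by positivity)
      refine h1.trans ?_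
      rw [hL1]
      norm_num
    have h1 := P8_int Do P8_cDo (1 / 10 ^ 5) x0
      (fun y hy => (P8_Do_lip y x0).trans (hE y hy)) x x' hx hx'
    have h2 := P8_int (fun y => fs (Wo y)) P8_cfs (1 / 10 ^ 5) x0
      (fun y hy => (P8_fs_lip y x0).trans (hE y hy)) x x' hx hx'
    have e : 1 / 10 ^ 5 * |x - x'| = 1 * |x - x'| / 10 ^ 5 := by ring
    rw [e] at h1 h2
    constructor
    · show |(∫ y in (0 : ℝ)..x, Do y) - (∫ y in (0 : ℝ)..x', Do y) - 1 * (x - x') * Do x0| ≤ _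
      rw [one_mul]
      exact h1
    · show |(∫ y in (0 : ℝ)..x, fs (Wo y)) - (∫ y in (0 : ℝ)..x', fs (Wo y)) -
        1 * (x - x') * fs (Wo x0)| ≤ _
      rw [one_mul]
      exact h2
  · intro c x
    rcases le_total x 0 with h | h
    · rw [(P8_triv c x h).2.1, abs_zero]
      exact hK0
    · rw [P8_o2 c x h, abs_mul, abs_of_pos hL, hK]
      have h2 := (P4_bound 1 0 0 (x / Lam) zero_le_one le_rfl le_rfl zero_le_one
        (by rw [zero_add]; change 0 ≤ alo; linarith [P8_alo.1])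
        (by rw [zero_add]; change alo ≤ 3; linarith [P8_alo.2]) le_rfl zero_le_one).2
      have h3 := mul_le_mul_of_nonneg_left h2 hL.le
      linarith
  · intro j m x c h1 h2 _ _
    rcases le_total x 0 with h | h
    · obtain ⟨-, h3, h4, h5⟩ := P8_triv c x h
      exact ⟨h4, h5, h3⟩
    · have h1' : -(3 / 10) ≤ x / Lam - m := h1
      have h2' : x / Lam - m ≤ 1 / 20 := h2
      have h3 : Wo x = 0 := by
        unfold Wo
        rw [max_eq_left h]
        exact P2_pw_zero 1 0 _ m le_rfl zero_le_one h1' h2'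
      refine ⟨?_, ?_, ?_⟩
      · show -fs (Wo x) = 0
        rw [h3, P1_f_zero.2.2, neg_zero]
      · show 1 - 2 * |Wo x| = 1
        rw [h3, abs_zero]
        ring
      · rw [P8_o2 c x h, P4_col 1 0 (x / Lam) m zero_le_one le_rfl le_rfl zero_le_one h1' h2',
          mul_zero]
  · intro j m hm x c _ h2 _ _
    have hm' : ¬ (0 ≤ m) := hm
    have h2' : x / Lam ≤ m + 1 := h2
    have hm1 : (m : ℝ) + 1 ≤ 0 := by
      have : m + 1 ≤ 0 := by omega
      exact_mod_cast this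
    have hx : x ≤ 0 := by
      by_contra hcon
      push Not at hcon
      have : 0 < x / Lam := div_pos hcon hL
      linarith
    obtain ⟨-, h3, h4, h5⟩ := P8_triv c x hx
    exact ⟨h4, h5, h3⟩

end H80.LD
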