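import Pool.Agent.H80.LD.T5
import Pool.Agent.H80.LD.M6
import Pool.Agent.H80.LD.P7
import Pool.Agent.H80.LD.P8

/-!
# C0: definitions for the chain of folds and the core theorem

`t : D` is the direction in which the map is tapered.
-/

open Filter Topology Metric Set

namespace H80.LD

section
variable {X : Type*} [NormedAddCommGroup X] {D : Type*} [Fintype D] [DecidableEq D]

/-- `z` is in the relevant neighbourhood of `p`: close to `p` laterally, and close to the point with `t`-coordinate `min (p t) 0` -/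
def vn (t : D) (R : ℝ) (p z : X × (D → ℝ)) : Prop :=
  ‖z.1 - p.1‖ ≤ R ∧ (∀ i, i ≠ t → |z.2 i - p.2 i| ≤ R) ∧ |z.2 t - min (p.2 t) 0| ≤ R

def VV (t : D) (R : ℝ) (U : Set (X × (D → ℝ))) : Set (X × (D → ℝ)) := {p | ∀ z, vn t R p z → z ∈ U}

/-- change of the `t`-coordinate: `2 Lp (1 - 1/sg s)` for `s ≥ 0` -/
noncomputable def TT (s : ℝ) : ℝ := if s ≤ 0 then s else 2 * Lp * (1 - 1 / sg s)

open Classical in
/-- inverse of `TT` on `(-∞, 2 Lp)` -/
noncomputable def SS (y : ℝ) : ℝ := if h : ∃ s, TT s = y then h.choose else 0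

noncomputable def iot (t : D) (p : X × (D → ℝ)) : X × (D → ℝ) := (p.1, Function.update p.2 t (TT (p.2 t)))
noncomputable def kap (t : D) (p : X × (D → ℝ)) : X × (D → ℝ) := (p.1, Function.update p.2 t (SS (p.2 t)))

/-- translation of the `t`-coordinate -/
noncomputable def shf (t : D) (s : ℝ) (p : X × (D → ℝ)) : X × (D → ℝ) := (p.1, Function.update p.2 t (p.2 t + s))

end

/-- result of the chain of folds for the set `H` of lateral coordinates -/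
def ChainStmt (X : Type) [NormedAddCommGroup X] (D : Type) [Fintype D] [DecidableEq D] (t : D) (H : Finset D) : Prop :=
  ∀ L : ℝ, 1 ≤ L → ∃ R : ℝ, 1 ≤ R ∧ ∃ ε₀ : ℝ, 0 < ε₀ ∧ ∃ C : ℝ, 1 ≤ C ∧
    ∀ ε : ℝ, 0 < ε → ε ≤ ε₀ → ∀ (U : Set (X × (D → ℝ))) (e e' : X × (D → ℝ) → X × (D → ℝ)),
      NP ε L U e e' → ∃ E E' : X × (D → ℝ) → X × (D → ℝ),
        NI (wgt sg H t) (C * ε) C (VV t R U) E E' ∧
        (∀ p ∈ VV t R U, (∀ z, vn t R p z → e z = z ∧ e' z = z) → E p = p ∧ E' p = p) ∧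
        (∀ p ∈ VV t R U, p.2 t ≤ -Lp - 2 → E p = e p ∧ E' p = e' p)

/-- the core theorem before the last step -/
def HatStmt (X : Type) [NormedAddCommGroup X] (D : Type) [Fintype D] (t : D) : Prop :=
  ∀ L : ℝ, 1 ≤ L → ∃ R : ℝ, 1 ≤ R ∧ ∃ ε₀ : ℝ, 0 < ε₀ ∧ ∃ C : ℝ, 1 ≤ C ∧
    ∀ ε : ℝ, 0 < ε → ε ≤ ε₀ → ∀ (U : Set (X × (D → ℝ))) (e e' : X × (D → ℝ) → X × (D → ℝ)),
      NP ε L U e e' → ∃ F F' : X × (D → ℝ) → X × (D → ℝ),
        NP (C * ε) C {p : X × (D → ℝ) | closedBall p R ⊆ U ∨ R < p.2 t} F F' ∧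
        (∀ p : X × (D → ℝ), closedBall p R ⊆ U → p.2 t ≤ 1 → F p = e p ∧ F' p = e' p) ∧
        (∀ p : X × (D → ℝ), R ≤ p.2 t → F p = p ∧ F' p = p) ∧
        (∀ p : X × (D → ℝ), closedBall p R ⊆ U → (∀ q ∈ closedBall p R, e q = q ∧ e' q = q) → F p = p ∧ F' p = p)

end H80.LD
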