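import Pool.Agent.H80.LD.C0

/-!
# C1: the first fold (the coordinate `t` is folded, with the help of a lateral coordinate `x ≠ t`)

`β = fold (fun _ => 1) ∅ t x o1 o2 on1 on2` (folded coordinate `a = t`, `b = x`, `H = ∅`), `P8_pat`, `M6_pimm`: punctured immersion with weights `wgt (fun _ => 1) _ _ = 1 = wgt sg ∅ t`.  `NP ε L U e e'` is `NI` with weights `1` (`T0b_one`; write
`sc (fun _ => 1) v = v`).  `T5_transfer` with `L`: `R_T, ε_T, C'`.
`C1_fold_triv`: if `g1 c x = x`, `g2 c x = 0`, `ν1 c x = 0`, `ν2 c x = 1` at `c = cb σ H a b p.2`, `x = p.2 a`, then `fold p = p`.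
Displacement of `β`: `(β q).2 i = q.2 i` for `i ≠ t, x`; `|(β q).2 x - q.2 x| ≤ KK + 2` (`M3_disp`); `|(β q).2 t - min (q.2 t) 0| ≤ |o1 - min| + |q.2 x - c| |on1| ≤ KK + 1` (`P8_drift`, `K3_abs`, `p3b`).
`R = R_T + KK + 2`: if `p ∈ VV t R U` and `‖q - p‖ ≤ R_T` then `vn t R p (β q)`, so `β q ∈ U`  (`|min (q t) 0 - min (p t) 0| ≤ |q t - p t|`).  So the transferred pair is `NI` on `VV t R U` (restrict).
* identity property: `e (β q) = β q` for `q` in the `R_T`-ball as `vn t R p (β q)`.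
* `p.2 t ≤ -Lp - 2`: `ndd olj ond x t p.2` is `0 ≤ ⌊p.2 t / Lam + 1/8⌋`, false as `p.2 t / Lam ≤ -100`; on the `r`-ball (`r ≤ 1`) `q.2 t ≤ 0`, so `P8_triv` and `C1_fold_triv` give `β q = q`; the last property of T5.
-/

open Filter Topology Metric Set

namespace H80.LD

theorem C1_fold_triv {X : Type*} [NormedAddCommGroup X] {D : Type*} [Fintype D] [DecidableEq D] (σ : ℝ → ℝ)
    (H : Finset D) (a b : D) (g1 g2 ν1 ν2 : ℝ → ℝ → ℝ) (hab : a ≠ b) (p : X × (D → ℝ))
    (h : g1 (cb σ H a b p.2) (p.2 a) = p.2 a ∧ g2 (cb σ H a b p.2) (p.2 a) = 0 ∧ ν1 (cb σ H a b p.2) (p.2 a) = 0 ∧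
      ν2 (cb σ H a b p.2) (p.2 a) = 1) : fold σ H a b g1 g2 ν1 ν2 p = p := by
  obtain ⟨h1, h2, h3, h4⟩ := h
  unfold fold
  refine Prod.ext rfl ?_
  funext i
  show (if i = a then ph1 g1 ν1 (cb σ H a b p.2) (p.2 a) (p.2 b)
    else if i = b then ph2 g2 ν2 (cb σ H a b p.2) (p.2 a) (p.2 b) else p.2 i) = p.2 i
  split_ifs with h5 h6
  · unfold ph1
    rw [h1, h3, h5]
    ring
  · unfold ph2
    rw [h2, h4, h6]
    ring
  · rfl

theorem C1_NI_one {X : Type*} [NormedAddCommGroup X] {D : Type*} [Fintype D] [DecidableEq D] {ε L : ℝ}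
    {U : Set (X × (D → ℝ))} {e e' : X × (D → ℝ) → X × (D → ℝ)} (W : X × (D → ℝ) → D → ℝ) (hW : ∀ p i, W p i = 1) :
    NP ε L U e e' ↔ NI W ε L U e e' := by
  have hs : ∀ (p v : X × (D → ℝ)), ‖sc (W p) v‖ = ‖v‖ := by
    intro p v
    have h1 : W p = fun _ => (1 : ℝ) := funext (hW p)
    rw [h1, T0b_one]
  constructor
  · intro h
    exact
      { pres := h.pres
        pres' := h.pres'
        disp := fun p hp => by rw [hs]; exact h.disp p hp
        disp' := fun p hp => by rw [hs]; exact h.disp' p hp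
        lip := fun p hp => by simp only [hs]; exact h.lip p hp
        lip' := fun p hp => by simp only [hs]; exact h.lip' p hp
        inv := h.inv
        inv' := h.inv' }
  · intro h
    exact
      { pres := h.pres
        pres' := h.pres'
        disp := fun p hp => by rw [← hs p]; exact h.disp p hp
        disp' := fun p hp => by rw [← hs p]; exact h.disp' p hp
        lip := fun p hp => by
          have := h.lip p hp
          simp only [hs] at this
          exact this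
        lip' := fun p hp => by
          have := h.lip' p hp
          simp only [hs] at this
          exact this
        inv := h.inv
        inv' := h.inv' }

/-- restriction of a pair, weights one -/
theorem C1_restr {X : Type*} [NormedAddCommGroup X] {D : Type*} [Fintype D] [DecidableEq D] {ε L : ℝ}
    {U V : Set (X × (D → ℝ))} {e e' : X × (D → ℝ) → X × (D → ℝ)} (hUV : V ⊆ U) (h : NP ε L U e e') :
    NP ε L V e e' :=
  { pres := h.pres
    pres' := h.pres'
    disp := fun p hp => h.disp p (hUV hp)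
    disp' := fun p hp => h.disp' p (hUV hp)
    lip := fun p hp => h.lip p (hUV hp)
    lip' := fun p hp => h.lip' p (hUV hp)
    inv := fun p hp hp' => h.inv p (hUV hp) (hUV hp')
    inv' := fun p hp hp' => h.inv' p (hUV hp) (hUV hp') }

theorem C1_vn {X : Type*} [NormedAddCommGroup X] {D : Type*} [Fintype D] [DecidableEq D] (t x : D) (hx : x ≠ t)
    (R : ℝ) (hR : 1 ≤ R) (p q : X × (D → ℝ)) (hq : ‖q - p‖ ≤ R) :
    vn t (R + KK + 2) p (fold (fun _ => 1) ∅ t x o1 o2 on1 on2 q) := by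
  have hK : 0 ≤ KK := by unfold KK; norm_num
  have hc : ∀ i, |q.2 i - p.2 i| ≤ R := by
    intro i
    have h1 : ‖(q - p).2 i‖ ≤ ‖(q - p).2‖ := norm_le_pi_norm _ i
    have h2 : ‖(q - p).2‖ ≤ ‖q - p‖ := norm_snd_le _
    exact h1.trans (h2.trans hq)
  refine ⟨?_, ?_, ?_⟩
  · have h1 : ‖(q - p).1‖ ≤ ‖q - p‖ := norm_fst_le _
    have h2 : ‖(fold (fun _ => 1) ∅ t x o1 o2 on1 on2 q).1 - p.1‖ = ‖(q - p).1‖ := rfl
    rw [h2]
    linarith
  · intro i hi
    by_cases hix : i = x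
    · subst hix
      have h1 := M3_disp P8_pat (∅ : Finset D) t i hx.symm q
      have h2 := hc i
      have h3 := abs_add_le ((fold (fun _ => 1) ∅ t i o1 o2 on1 on2 q).2 i - q.2 i) (q.2 i - p.2 i)
      rw [sub_add_sub_cancel] at h3
      linarith
    · have h1 : (fold (fun _ => 1) ∅ t x o1 o2 on1 on2 q).2 i = q.2 i := by
        show (if i = t then _ else if i = x then _ else q.2 i) = q.2 i
        rw [if_neg hi, if_neg hix]
      rw [h1]
      have h2 := hc i
      linarith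
  · have h1 : (fold (fun _ => 1) ∅ t x o1 o2 on1 on2 q).2 t =
        ph1 o1 on1 (cb (fun _ => 1) ∅ t x q.2) (q.2 t) (q.2 x) := by
      show (if t = t then ph1 o1 on1 (cb (fun _ => 1) ∅ t x q.2) (q.2 t) (q.2 x)
        else if t = x then _ else q.2 t) = _
      rw [if_pos rfl]
    rw [h1]
    unfold ph1
    have h2 := P8_drift (cb (fun _ => 1) ∅ t x q.2) (q.2 t)
    have h3 := K3_abs (fun _ => 1) ∅ t x q.2
    have h4 := (P8_pat.p3b (cb (fun _ => 1) ∅ t x q.2) (q.2 t)).1
    have h5 : |(q.2 x - cb (fun _ => 1) ∅ t x q.2) * on1 (cb (fun _ => 1) ∅ t x q.2) (q.2 t)| ≤ 1 := by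
      rw [abs_mul]
      exact mul_le_one₀ h3 (abs_nonneg _) h4
    have h6 : |min (q.2 t) 0 - min (p.2 t) 0| ≤ |q.2 t - p.2 t| := by
      have h61 := abs_min_sub_min_le_max (q.2 t) 0 (p.2 t) 0
      rwa [sub_self, abs_zero, max_eq_left (abs_nonneg _)] at h61
    have h7 := hc t
    rw [abs_le] at h2 h5 h7 ⊢
    have h8 := abs_le.1 (h6.trans (hc t))
    constructor <;> linarith [h2.1, h2.2, h5.1, h5.2, h7.1, h7.2, h8.1, h8.2]

theorem C1_base (X : Type) [NormedAddCommGroup X] (D : Type) [Fintype D] [DecidableEq D] (t x : D) (hx : x ≠ t) :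
    ChainStmt X D t ∅ := by
  intro L hL
  have hP := M6_pimm (X := X) P8_pat (∅ : Finset D) t x hx.symm (Finset.notMem_empty _) (Finset.notMem_empty _)
  obtain ⟨R, hR, ε₀, hε₀, C', hC', hT⟩ := T5_transfer hP L hL
  have hK : 0 ≤ KK := by unfold KK; norm_num
  have hW : ∀ (p : X × (D → ℝ)) (i : D), wgt (fun _ => 1) (insert t (∅ : Finset D)) x p i = 1 := by
    intro p i
    unfold wgt
    rw [ite_self]
  have hW' : ∀ (p : X × (D → ℝ)) (i : D), wgt (fun _ => 1) (∅ : Finset D) x p i = 1 := by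
    intro p i
    unfold wgt
    rw [ite_self]
  have hWs : ∀ (p : X × (D → ℝ)) (i : D), wgt sg (∅ : Finset D) t p i = 1 := by
    intro p i
    unfold wgt
    rw [if_neg (Finset.notMem_empty _)]
  have hs : ∀ (p v : X × (D → ℝ)), ‖sc (wgt (fun _ => 1) (insert t (∅ : Finset D)) x p) v‖ = ‖v‖ := by
    intro p v
    have h1 : wgt (fun _ => 1) (insert t (∅ : Finset D)) x p = fun _ => (1 : ℝ) := funext (hW p)
    rw [h1, T0b_one]
  refine ⟨R + KK + 2, by linarith, ε₀, hε₀, C', hC', ?_⟩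
  intro ε hε hεle U e e' hN
  obtain ⟨E, E', h1, h2, h3⟩ := hT ε hε hεle U e e' ((C1_NI_one _ hW').1 hN)
  simp only [hs] at h1 h2 h3
  have hsub : VV t (R + KK + 2) U ⊆
      {p | ∀ q : X × (D → ℝ), ‖q - p‖ ≤ R → fold (fun _ => 1) ∅ t x o1 o2 on1 on2 q ∈ U} := by
    intro p hp q hq
    exact hp _ (C1_vn t x hx R hR p q hq)
  refine ⟨E, E', ?_, ?_, ?_⟩
  · exact (C1_NI_one _ hWs).1 (C1_restr hsub ((C1_NI_one _ hW).2 h1))
  · intro p hp hz
    exact h2 p (hsub hp) fun q hq => hz _ (C1_vn t x hx R hR p q hq)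
  · intro p hp ht
    have hLp : Lp = 10 ^ 10 := rfl
    have hLam : Lam = 10 ^ 8 := rfl
    refine h3 p (hsub hp) ?_ ?_
    · unfold ndd ond olj
      intro hcon
      have h4 := Int.floor_le (p.2 t / Lam + 1 / 8)
      have h5 : (0 : ℝ) ≤ (⌊p.2 t / Lam + 1 / 8⌋ : ℝ) := by exact_mod_cast hcon
      have h6 : p.2 t / Lam ≤ -1 := by
        rw [hLam, div_le_iff₀ (by norm_num)]
        rw [hLp] at ht
        linarith
      linarith
    · intro q hq
      have hr1 : rr t x ≤ 1 := by linarith [hP.r1]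
      have h4 : |q.2 t - p.2 t| ≤ 1 := by
        have h5 : ‖(q - p).2 t‖ ≤ ‖(q - p).2‖ := norm_le_pi_norm _ t
        have h6 : ‖(q - p).2‖ ≤ ‖q - p‖ := norm_snd_le _
        exact h5.trans (h6.trans (hq.trans hr1))
      have h5 : q.2 t ≤ 0 := by
        rw [abs_le] at h4
        rw [hLp] at ht
        linarith [h4.2]
      exact C1_fold_triv _ _ _ _ _ _ _ _ hx.symm q (P8_triv _ _ h5)

end H80.LD
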