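import Pool.Agent.H80.LD.C1

/-!
# C2: folding one more lateral coordinate

`a ∉ H`, `a ≠ t` (and `t ∉ H`), `β = fold sg H a t b1 b2 bn1 bn2` (`b = t`), `P7_pat`, `M6_pimm`: source weights `wgt sg (insert a H) t`, target `wgt sg H t`.
Given `L ≥ 1`: the hypothesis for `H` gives `R_H, ε_H, C_H`; `T5_transfer` with Lipschitz constant `C_H` gives `R_T, ε_T, C'`.  `ε₀ = min ε_H (ε_T / C_H)`, `C = C' * C_H`, `R = R_H + R_T + KK + 2`.
For `NP ε L U e e'`: `E_H, E_H'` with `NI (wgt sg H t) (C_H ε) C_H (VV t R_H U)`, transfer: `E, E'` with `NI (wgt sg (insert a H) t) (C' (C_H ε)) C' {p | ∀ q in the R_T ball, β q ∈ VV t R_H U}`.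
* `p ∈ VV t R U`, `‖sc (W p) (q - p)‖ ≤ R_T` (weights `≥ 1`, so `|q.2 i - p.2 i| ≤ R_T`, `‖q.1 - p.1‖ ≤ R_T`), `vn t R_H (β q) z` imply `vn t R p z`: `|(β q).2 a - q.2 a| ≤ KK + 1` (`P7_drift`, `K3_abs`, `p3b`),
  `|(β q).2 t - q.2 t| ≤ KK + 2` (`M3_disp`), other coordinates equal; `|min u 0 - min v 0| ≤ |u - v|`.  Hence `β q ∈ VV t R_H U`.
* identity property: for such `q`, `E_H (β q) = β q` by the identity property for `H`; then the one of T5.
* `p ∈ VV t R U`, `p.2 t ≤ -Lp - 2`: `ndd blj bnd t a p.2` is `-Lp ≤ ⌊p.2 t⌋`, false; for `q` in the `r`-ball (`r ≤ 1`) `cb .. q.2 ≤ ⌊q.2 t⌋ + 1 ≤ -Lp - 2 + 1 + 1 = -Lp` (`K3_mem`; weight of `t` is 1), `P7_triv`, `C1_fold_triv`: `β q = q`.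
  So `E p = E_H p = e p` (`VV t R U ⊆ VV t R_H U`).
* `C2_chain`: induction over `H ⊆ univ \ {t}` (`Finset.induction_on`).
-/

open Filter Topology Metric Set

namespace H80.LD

theorem C2_mono {X : Type*} [NormedAddCommGroup X] {D : Type*} [Fintype D] {W : X × (D → ℝ) → D → ℝ}
    {ε ε' L L' : ℝ} {U U' : Set (X × (D → ℝ))} {e e' : X × (D → ℝ) → X × (D → ℝ)}
    (h : NI W ε L U e e') (hε : ε ≤ ε') (hL : L ≤ L') (hU : U' ⊆ U) : NI W ε' L' U' e e' where
  pres := h.pres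
  pres' := h.pres'
  disp := fun p hp => (h.disp p (hU hp)).trans hε
  disp' := fun p hp => (h.disp' p (hU hp)).trans hε
  lip := fun p hp => (h.lip p (hU hp)).mono fun q hq =>
    hq.trans (mul_le_mul_of_nonneg_right hL (norm_nonneg _))
  lip' := fun p hp => (h.lip' p (hU hp)).mono fun q hq =>
    hq.trans (mul_le_mul_of_nonneg_right hL (norm_nonneg _))
  inv := fun p hp he => h.inv p (hU hp) (hU he)
  inv' := fun p hp he => h.inv' p (hU hp) (hU he)

theorem C2_wgt {X : Type*} [NormedAddCommGroup X] {D : Type*} [Fintype D] [DecidableEq D] (H : Finset D)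
    (t : D) (p : X × (D → ℝ)) (i : D) : 1 ≤ wgt sg H t p i := by
  unfold wgt
  split_ifs
  · exact P5_sg _
  · exact le_refl _

theorem C2_ball {X : Type*} [NormedAddCommGroup X] {D : Type*} [Fintype D] [DecidableEq D] (H : Finset D)
    (t : D) (p q : X × (D → ℝ)) (R : ℝ) (h : ‖sc (wgt sg H t p) (q - p)‖ ≤ R) :
    ‖q.1 - p.1‖ ≤ R ∧ ∀ i, |q.2 i - p.2 i| ≤ R := by
  constructor
  · exact (T0b_fst _ (q - p)).trans h
  · intro i
    have h0 : ∀ i, 0 ≤ wgt sg H t p i := fun i => zero_le_one.trans (C2_wgt H t p i)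
    have h1 := T0b_coord (wgt sg H t p) h0 (q - p) i
    have h2 : (q - p).2 i = q.2 i - p.2 i := rfl
    rw [h2] at h1
    have h3 : |q.2 i - p.2 i| ≤ wgt sg H t p i * |q.2 i - p.2 i| :=
      le_mul_of_one_le_left (abs_nonneg _) (C2_wgt H t p i)
    exact h3.trans (h1.trans h)

theorem C2_beta {X : Type*} [NormedAddCommGroup X] {D : Type*} [Fintype D] [DecidableEq D] (H : Finset D)
    (a t : D) (hat : a ≠ t) (q : X × (D → ℝ)) :
    (fold sg H a t b1 b2 bn1 bn2 q).1 = q.1 ∧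
    (∀ i, |(fold sg H a t b1 b2 bn1 bn2 q).2 i - q.2 i| ≤ KK + 2) := by
  refine ⟨rfl, ?_⟩
  intro i
  have hK : (1 : ℝ) ≤ KK := P7_pat.K1
  by_cases hi : i = a
  · subst hi
    have h1 : (fold sg H i t b1 b2 bn1 bn2 q).2 i =
        ph1 b1 bn1 (cb sg H i t q.2) (q.2 i) (q.2 t) := by
      simp [fold]
    rw [h1]
    unfold ph1
    have h2 := P7_drift (cb sg H i t q.2) (q.2 i)
    have h3 := K3_abs sg H i t q.2
    have h4 := (P7_pat.p3b (cb sg H i t q.2) (q.2 i)).1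
    have h5 : |(q.2 t - cb sg H i t q.2) * bn1 (cb sg H i t q.2) (q.2 i)| ≤ 1 := by
      rw [abs_mul]
      calc |q.2 t - cb sg H i t q.2| * |bn1 (cb sg H i t q.2) (q.2 i)| ≤ 1 * 1 :=
            mul_le_mul h3 h4 (abs_nonneg _) zero_le_one
        _ = 1 := one_mul 1
    have h6 : b1 (cb sg H i t q.2) (q.2 i) +
        (q.2 t - cb sg H i t q.2) * bn1 (cb sg H i t q.2) (q.2 i) - q.2 i =
        (b1 (cb sg H i t q.2) (q.2 i) - q.2 i) +
        (q.2 t - cb sg H i t q.2) * bn1 (cb sg H i t q.2) (q.2 i) := by ring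
    rw [h6]
    refine (abs_add_le _ _).trans ?_
    linarith
  · by_cases hit : i = t
    · subst hit
      exact M3_disp P7_pat H a i hat q
    · have h1 : (fold sg H a t b1 b2 bn1 bn2 q).2 i = q.2 i := by
        simp [fold, hi, hit]
      rw [h1, sub_self, abs_zero]
      linarith

theorem C2_key {X : Type*} [NormedAddCommGroup X] {D : Type*} [Fintype D] [DecidableEq D] (H H' : Finset D)
    (a t : D) (hat : a ≠ t) (RH RT : ℝ) (p q z : X × (D → ℝ))
    (hq : ‖sc (wgt sg H' t p) (q - p)‖ ≤ RT)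
    (hz : vn t RH (fold sg H a t b1 b2 bn1 bn2 q) z) : vn t (RH + RT + KK + 2) p z := by
  obtain ⟨hq1, hq2⟩ := C2_ball H' t p q RT hq
  obtain ⟨hb1, hb2⟩ := C2_beta H a t hat q
  obtain ⟨hz1, hz2, hz3⟩ := hz
  have hK : (1 : ℝ) ≤ KK := P7_pat.K1
  refine ⟨?_, ?_, ?_⟩
  · rw [hb1] at hz1
    have h1 : z.1 - p.1 = (z.1 - q.1) + (q.1 - p.1) := by abel
    rw [h1]
    refine (norm_add_le _ _).trans ?_
    linarith
  · intro i hi
    have h1 := hz2 i hi
    have h2 := hb2 i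
    have h3 := hq2 i
    rw [abs_le] at h1 h2 h3 ⊢
    constructor <;> linarith [h1.1, h1.2, h2.1, h2.2, h3.1, h3.2]
  · have h2 := hb2 t
    have h3 := hq2 t
    have h4 : |(fold sg H a t b1 b2 bn1 bn2 q).2 t - p.2 t| ≤ KK + 2 + RT := by
      rw [abs_le] at h2 h3 ⊢
      constructor <;> linarith [h2.1, h2.2, h3.1, h3.2]
    have h5 : |min ((fold sg H a t b1 b2 bn1 bn2 q).2 t) 0 - min (p.2 t) 0| ≤
        |(fold sg H a t b1 b2 bn1 bn2 q).2 t - p.2 t| := by
      have h6 := abs_min_sub_min_le_max ((fold sg H a t b1 b2 bn1 bn2 q).2 t) 0 (p.2 t) 0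
      rwa [sub_self, abs_zero, max_eq_left (abs_nonneg _)] at h6
    have h6 := h5.trans h4
    rw [abs_le] at hz3 h6 ⊢
    constructor <;> linarith [hz3.1, hz3.2, h6.1, h6.2]

theorem C2_step (X : Type) [NormedAddCommGroup X] (D : Type) [Fintype D] [DecidableEq D] (t : D) (H : Finset D)
    (ht : t ∉ H) (a : D) (ha : a ∉ H) (hat : a ≠ t) (h : ChainStmt X D t H) : ChainStmt X D t (insert a H) := by
  have hP := M6_pimm (X := X) P7_pat H a t hat ha ht
  have hK : (1 : ℝ) ≤ KK := P7_pat.K1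
  intro L hL
  obtain ⟨RH, hRH, εH, hεH, CH, hCH, hH⟩ := h L hL
  obtain ⟨RT, hRT, εT, hεT, C', hC', hT⟩ := T5_transfer hP CH hCH
  have hCH0 : 0 < CH := lt_of_lt_of_le one_pos hCH
  have hC0 : 0 < C' := lt_of_lt_of_le one_pos hC'
  refine ⟨RH + RT + KK + 2, by linarith, min εH (εT / CH), lt_min hεH (div_pos hεT hCH0),
    C' * CH, one_le_mul_of_one_le_of_one_le hC' hCH, ?_⟩
  intro ε hε hεle U e e' hNP
  obtain ⟨EH, EH', hNI, hid, hdeep⟩ := hH ε hε (hεle.trans (min_le_left _ _)) U e e' hNP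
  have hεT' : CH * ε ≤ εT := by
    have h1 : ε ≤ εT / CH := hεle.trans (min_le_right _ _)
    rw [le_div_iff₀ hCH0] at h1
    linarith [mul_comm ε CH]
  obtain ⟨E, E', hNI2, hid2, hdeep2⟩ := hT (CH * ε) (mul_pos hCH0 hε) hεT' (VV t RH U) EH EH' hNI
  have hball : ∀ p ∈ VV t (RH + RT + KK + 2) U, ∀ q : X × (D → ℝ),
      ‖sc (wgt sg (insert a H) t p) (q - p)‖ ≤ RT →
        fold sg H a t b1 b2 bn1 bn2 q ∈ VV t RH U := by
    intro p hp q hq z hz
    exact hp z (C2_key H (insert a H) a t hat RH RT p q z hq hz)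
  refine ⟨E, E', ?_, ?_, ?_⟩
  · refine C2_mono hNI2 (le_of_eq (by ring)) (le_mul_of_one_le_right hC0.le hCH) ?_
    intro p hp
    exact hball p hp
  · intro p hp hz
    refine hid2 p (hball p hp) fun q hq => hid _ (hball p hp q hq) fun z hz' => ?_
    exact hz z (C2_key H (insert a H) a t hat RH RT p q z hq hz')
  · intro p hp hpt
    have hnd : ¬ ndd blj bnd t a p.2 := by
      intro hn
      have h1 : -Lp ≤ ((⌊p.2 t⌋ : ℤ) : ℝ) := hn
      have h2 := Int.floor_le (p.2 t)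
      linarith
    have htriv : ∀ q : X × (D → ℝ), ‖sc (wgt sg (insert a H) t p) (q - p)‖ ≤ rr a t →
        fold sg H a t b1 b2 bn1 bn2 q = q := by
      intro q hq
      have h1 := (C2_ball (insert a H) t p q _ (hq.trans hP.r1)).2 t
      have h2 := (K3_mem sg H a t q.2).2
      have h3 := Int.floor_le (q.2 t)
      have h4 : cb sg H a t q.2 ≤ -Lp := by
        rw [abs_le] at h1
        linarith [h1.1, h1.2]
      exact C1_fold_triv sg H a t b1 b2 bn1 bn2 hat q (P7_triv _ _ h4)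
    have h1 := hdeep2 p (hball p hp) hnd htriv
    have h2 : p ∈ VV t RH U := by
      intro z hz
      obtain ⟨hz1, hz2, hz3⟩ := hz
      exact hp z ⟨by linarith, fun i hi => by linarith [hz2 i hi], by linarith⟩
    have h3 := hdeep p h2 hpt
    exact ⟨h1.1.trans h3.1, h1.2.trans h3.2⟩

theorem C2_chain (X : Type) [NormedAddCommGroup X] (D : Type) [Fintype D] [DecidableEq D] [Nontrivial D] (t : D) :
    ChainStmt X D t (Finset.univ.erase t) := by
  have key : ∀ H : Finset D, t ∉ H → ChainStmt X D t H := by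
    intro H
    induction H using Finset.induction_on with
    | empty =>
      intro _
      obtain ⟨x, hx⟩ := exists_ne t
      exact C1_base X D t x hx
    | insert a s ha ih =>
      intro ht
      have h1 : a ≠ t := fun h => ht (by rw [← h]; exact Finset.mem_insert_self _ _)
      have h2 : t ∉ s := fun h => ht (Finset.mem_insert_of_mem h)
      exact C2_step X D t s h2 a ha h1 (ih h2)
  exact key _ (Finset.notMem_erase t _)

end H80.LD
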