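import Pool.Agent.H80.LD.C0

/-!
# C4: the change of the `t`-coordinate

`TT s = s` for `s ≤ 0`, `TT s = 2 Lp (1 - 1/sg s)` for `s ≥ 0` (`sg 0 = 1`).  `P5_sg_diff`: for `0 ≤ s ≤ s'`: `TT s' - TT s = 2 Lp (sg s' - sg s)/(sg s * sg s') ∈ [(s' - s)/sg s', 2 (s' - s)/sg s]`.
* `C4_mono`: strictly increasing (pieces `s ≤ 0` and `s ≥ 0`).  `C4_lt`: `TT s < 2 Lp`.
* `C4_surj`: for `y < 2 Lp` there is `s` with `TT s = y`: `y ≤ 0`: `s = y`; otherwise `s = Lp * logb 2 (1/(1 - y/(2 Lp)))`, `sg s = 1/(1 - y/(2Lp))` (`Real.rpow_logb`), or intermediate value theorem and `1/sg s → 0`.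
* `C4_SS`: `SS (TT s) = s` (injectivity), `TT (SS y) = y` for `y < 2 Lp`.
* `C4_comp`: for `|s - s'| ≤ 1`: `|s - s'|/4 ≤ sg s * |TT s - TT s'| ≤ 4 |s - s'|`.  `sg s ≤ 2 sg s'` and conversely (`P5_sg_slow`); for both `≥ 0` by the bounds above; both `≤ 0`: `sg s = 1`; mixed signs: split at `0`.
* `C4_dist`: `1 ≤ sg s * (2 Lp - TT s)`: equal to `2 Lp` for `s ≥ 0`, and `2 Lp - s` for `s ≤ 0`.
* `C4_near`: if `y < 2 Lp`, for every `δ > 0`, `|SS y' - SS y| < δ` for `y'` near `y`: `TT (SS y - δ) < y < TT (SS y + δ)`, for `y'` in between (and `< 2 Lp`) `SS y' ∈ (SS y - δ, SS y + δ)` by monotonicity.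
-/

open Filter Topology Metric Set

namespace H80.LD

theorem C4_neg (s : ℝ) (h : s ≤ 0) : TT s = s := by
  unfold TT
  rw [if_pos h]

theorem C4_pos (s : ℝ) (h : 0 ≤ s) : TT s = 2 * Lp * (1 - 1 / sg s) := by
  rcases h.eq_or_lt with h | h
  · rw [← h, C4_neg 0 le_rfl, P5_sg_neg 0 le_rfl]
    ring
  · unfold TT
    rw [if_neg (not_le.2 h)]

theorem C4_Lp : (1 : ℝ) ≤ Lp := by
  unfold Lp
  norm_num

theorem C4_key (s s' : ℝ) (h0 : 0 ≤ s) (h : s ≤ s') :
    s' - s ≤ sg s' * (TT s' - TT s) ∧ sg s * (TT s' - TT s) ≤ 2 * (s' - s) := by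
  have h1 := P5_sg s
  have h2 := P5_sg s'
  have hL := C4_Lp
  have h3 := P5_sg_diff s s' h0 h
  rw [C4_pos s h0, C4_pos s' (h0.trans h)]
  have hs : 0 < sg s := by linarith
  have hs' : 0 < sg s' := by linarith
  have hL0 : 0 < Lp := by linarith
  have e1 : sg s' * (2 * Lp * (1 - 1 / sg s') - 2 * Lp * (1 - 1 / sg s))
      = 2 * Lp / sg s * (sg s' - sg s) := by field_simp; ring
  have e2 : sg s * (2 * Lp * (1 - 1 / sg s') - 2 * Lp * (1 - 1 / sg s))
      = 2 * Lp / sg s' * (sg s' - sg s) := by field_simp; ring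
  rw [e1, e2]
  constructor
  · calc s' - s = 2 * Lp / sg s * (sg s * (s' - s) / (2 * Lp)) := by field_simp
      _ ≤ _ := mul_le_mul_of_nonneg_left h3.1 (by positivity)
  · calc 2 * Lp / sg s' * (sg s' - sg s) ≤ 2 * Lp / sg s' * (sg s' * (s' - s) / Lp) :=
          mul_le_mul_of_nonneg_left h3.2 (by positivity)
      _ = _ := by field_simp

theorem C4_key2 (s s' : ℝ) (h : s ≤ s') :
    s' - s ≤ sg s' * (TT s' - TT s) ∧ sg s * (TT s' - TT s) ≤ 2 * (s' - s) := by
  rcases le_total 0 s with h0 | h0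
  · exact C4_key s s' h0 h
  · rcases le_total 0 s' with h1 | h1
    · have h2 := C4_key 0 s' le_rfl h1
      rw [P5_sg_neg 0 le_rfl, C4_neg 0 le_rfl] at h2
      rw [P5_sg_neg s h0, C4_neg s h0]
      have h3 := P5_sg s'
      constructor
      · nlinarith [h2.1]
      · linarith [h2.2]
    · rw [P5_sg_neg s h0, C4_neg s h0, P5_sg_neg s' h1, C4_neg s' h1]
      constructor <;> linarith

theorem C4_mono : StrictMono TT := by
  intro a b hab
  have h := (C4_key2 a b hab.le).1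
  have h2 := P5_sg b
  by_contra hc
  have h3 : TT b - TT a ≤ 0 := by linarith [not_lt.1 hc]
  nlinarith

theorem C4_lt (s : ℝ) : TT s < 2 * Lp := by
  have hL := C4_Lp
  rcases le_total s 0 with h | h
  · rw [C4_neg s h]; linarith
  · rw [C4_pos s h]
    have h1 := P5_sg s
    have h2 : 0 < 1 / sg s := by positivity
    nlinarith

theorem C4_surj (y : ℝ) (hy : y < 2 * Lp) : ∃ s, TT s = y := by
  have hL := C4_Lp
  rcases le_total y 0 with h | h
  · exact ⟨y, C4_neg y h⟩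
  · have hL0 : 0 < Lp := by linarith
    have h1 : 0 < 1 - y / (2 * Lp) := by
      rw [sub_pos, div_lt_one (by linarith)]; exact hy
    have h2 : 1 - y / (2 * Lp) ≤ 1 := by
      have : 0 ≤ y / (2 * Lp) := by positivity
      linarith
    have h3 : 1 ≤ 1 / (1 - y / (2 * Lp)) := by
      rw [le_div_iff₀ h1]; linarith
    have h4 : 0 ≤ Real.logb 2 (1 / (1 - y / (2 * Lp))) := Real.logb_nonneg (by norm_num) h3
    refine ⟨Lp * Real.logb 2 (1 / (1 - y / (2 * Lp))), ?_⟩
    rw [C4_pos _ (by positivity)]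
    have h5 : sg (Lp * Real.logb 2 (1 / (1 - y / (2 * Lp)))) = 1 / (1 - y / (2 * Lp)) := by
      unfold sg
      rw [mul_div_cancel_left₀ _ hL0.ne', max_eq_left h4,
        Real.rpow_logb (by norm_num) (by norm_num) (by linarith)]
    rw [h5, one_div_one_div]
    field_simp
    ring

theorem C4_SS (s : ℝ) : SS (TT s) = s := by
  have h : ∃ s', TT s' = TT s := ⟨s, rfl⟩
  unfold SS
  rw [dif_pos h]
  exact C4_mono.injective h.choose_spec

theorem C4_TT (y : ℝ) (hy : y < 2 * Lp) : TT (SS y) = y := by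
  have h := C4_surj y hy
  unfold SS
  rw [dif_pos h]
  exact h.choose_spec

theorem C4_SSneg (y : ℝ) (hy : y ≤ 0) : SS y = y := by
  have h := C4_SS y
  rwa [C4_neg y hy] at h

theorem C4_comp (s s' : ℝ) (h : |s - s'| ≤ 1) :
    |s - s'| / 4 ≤ sg s * |TT s - TT s'| ∧ sg s * |TT s - TT s'| ≤ 4 * |s - s'| := by
  have hL := C4_Lp
  have hs := P5_sg s
  have hs' := P5_sg s'
  have h1 : sg s ≤ 2 * sg s' := P5_sg_slow s' s (by rw [abs_sub_comm]; linarith)
  have h2 : sg s' ≤ 2 * sg s := P5_sg_slow s s' (by linarith)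
  rcases le_total s s' with hc | hc
  · have hk := C4_key2 s s' hc
    have hm : TT s ≤ TT s' := C4_mono.monotone hc
    have e1 : |s - s'| = s' - s := by rw [abs_sub_comm, abs_of_nonneg (by linarith)]
    have e2 : |TT s - TT s'| = TT s' - TT s := by rw [abs_sub_comm, abs_of_nonneg (by linarith)]
    rw [e1, e2]
    have hd : 0 ≤ TT s' - TT s := by linarith
    constructor
    · have : sg s' * (TT s' - TT s) ≤ 2 * sg s * (TT s' - TT s) :=
        mul_le_mul_of_nonneg_right h2 hd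
      nlinarith [hk.1]
    · linarith [hk.2]
  · have hk := C4_key2 s' s hc
    have hm : TT s' ≤ TT s := C4_mono.monotone hc
    have e1 : |s - s'| = s - s' := abs_of_nonneg (by linarith)
    have e2 : |TT s - TT s'| = TT s - TT s' := abs_of_nonneg (by linarith)
    rw [e1, e2]
    have hd : 0 ≤ TT s - TT s' := by linarith
    constructor
    · linarith [hk.1]
    · have : sg s * (TT s - TT s') ≤ 2 * sg s' * (TT s - TT s') :=
        mul_le_mul_of_nonneg_right h1 hd
      linarith [hk.2]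

theorem C4_dist (s : ℝ) : 1 ≤ sg s * (2 * Lp - TT s) := by
  have hL := C4_Lp
  rcases le_total s 0 with h | h
  · rw [C4_neg s h, P5_sg_neg s h]; linarith
  · rw [C4_pos s h]
    have h1 := P5_sg s
    have h2 : sg s ≠ 0 := by linarith
    have e : sg s * (2 * Lp - 2 * Lp * (1 - 1 / sg s)) = 2 * Lp := by field_simp; ring
    rw [e]; linarith

theorem C4_near (y : ℝ) (hy : y < 2 * Lp) (δ : ℝ) (hδ : 0 < δ) : ∀ᶠ y' in 𝓝 y, y' < 2 * Lp ∧ |SS y' - SS y| < δ := by
  have h1 : TT (SS y - δ) < y := by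
    conv_rhs => rw [← C4_TT y hy]
    exact C4_mono (by linarith)
  have h2 : y < TT (SS y + δ) := by
    conv_lhs => rw [← C4_TT y hy]
    exact C4_mono (by linarith)
  filter_upwards [Ioo_mem_nhds h1 h2] with y' hy'
  have h3 : y' < 2 * Lp := hy'.2.trans (C4_lt _)
  refine ⟨h3, ?_⟩
  have h4 := C4_TT y' h3
  have h5 : TT (SS y - δ) < TT (SS y') := by rw [h4]; exact hy'.1
  have h6 : TT (SS y') < TT (SS y + δ) := by rw [h4]; exact hy'.2
  have h7 := C4_mono.lt_iff_lt.1 h5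
  have h8 := C4_mono.lt_iff_lt.1 h6
  rw [abs_lt]
  constructor <;> linarith

theorem C4_kapiot {X : Type*} [NormedAddCommGroup X] {D : Type*} [Fintype D] [DecidableEq D] (t : D)
    (p : X × (D → ℝ)) : kap t (iot t p) = p := by
  unfold kap iot
  simp [C4_SS]

theorem C4_iotkap {X : Type*} [NormedAddCommGroup X] {D : Type*} [Fintype D] [DecidableEq D] (t : D)
    (p : X × (D → ℝ)) (hp : p.2 t < 2 * Lp) : iot t (kap t p) = p := by
  unfold kap iot
  simp [C4_TT _ hp]

end H80.LD
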