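import Pool.Agent.H80.LD.C4

/-!
# C5: compression of the half space to the slab, extension by the identity

`W = wgt sg (univ.erase t) t`: `W p i = sg (p.2 t)` for `i ≠ t`, `W p t = 1`.  `F p = iot t (E (kap t p))` if `p.2 t < 2 Lp`, `F p = p` otherwise; same for `F'`.
Let `p.2 t < 2 Lp`, `s = SS (p.2 t)`, `p̃ = kap t p`, `p̃ ∈ V`.
* for `q` near `p` (`|SS (q.2 t) - s| ≤ 1`, `C4_near`): `‖sc (W p̃) (kap t q - p̃)‖ ≤ 4 * sg s * ‖q - p‖` (coordinate `t`: `|SS (q.2 t) - s| ≤ 4 sg s |q.2 t - p.2 t|`, `C4_comp`, `C4_TT`; `sg s ≥ 1`), and `kap t` is continuous at `p`.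
* `u = E p̃`, `u' = E (kap t q)`: `‖sc (W p̃) (u' - u)‖ ≤ C ‖sc (W p̃) (kap t q - p̃)‖ ≤ 4 C sg s ‖q - p‖`.  `|u.2 t - s| ≤ ε ≤ 1`, so `sg s ≤ 2 sg (u.2 t)`; for `q` near `p` `|u'.2 t - u.2 t| ≤ 1`, so
  `|TT (u'.2 t) - TT (u.2 t)| ≤ 4 |u'.2 t - u.2 t| / sg (u.2 t) ≤ 8 |u'.2 t - u.2 t| / sg s`; other coordinates: `|u'.2 i - u.2 i| ≤ (1/sg s) ‖sc ..‖`; first component: `‖q.1 - p.1‖`.  So `‖F q - F p‖ ≤ 32 C ‖q - p‖`.
* displacement: `|u.2 i - p.2 i| ≤ ε / sg s`, `|TT (u.2 t) - p.2 t| ≤ 4 ε / sg s` (`C4_comp` at `s`), so `‖F p - p‖ ≤ 4 ε / sg s ≤ 4 ε` and `‖F p - p‖ ≤ 4 ε (2 Lp - p.2 t)` (`C4_dist`).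
* `p.2 t = 2 Lp`: `F p = p`; `q` near `p`: if `q.2 t ≥ 2 Lp` `F q = q`; otherwise `‖F q - p‖ ≤ ‖q - p‖ + 4 ε (2 Lp - q.2 t) ≤ 5 ‖q - p‖` (`ε ≤ 1`).  `p.2 t > 2 Lp`: `F = id` near `p`.
* `inv`: `p.2 t < 2 Lp`: `(F p).2 t = TT _ < 2 Lp`, `kap t (F p) = E p̃` (`C4_kapiot`), which is in `V` as `F p` is in the set; `F' (F p) = iot t (E' (E p̃)) = iot t p̃ = p` (`C4_iotkap`).  `p.2 t ≥ 2 Lp`: `F p = p`, `F' p = p`.
-/

open Filter Topology Metric Set

namespace H80.LD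

section
variable {X : Type*} [NormedAddCommGroup X] {D : Type*} [Fintype D]

theorem C5_le (v : X × (D → ℝ)) (a : ℝ) (ha : 0 ≤ a) (h1 : ‖v.1‖ ≤ a) (h2 : ∀ i, |v.2 i| ≤ a) :
    ‖v‖ ≤ a := by
  rw [norm_prod_le_iff]
  refine ⟨h1, ?_⟩
  rw [pi_norm_le_iff_of_nonneg ha]
  exact h2

theorem C5_fst (v : X × (D → ℝ)) : ‖v.1‖ ≤ ‖v‖ := norm_fst_le v

theorem C5_snd (v : X × (D → ℝ)) (i : D) : |v.2 i| ≤ ‖v‖ :=
  (norm_le_pi_norm v.2 i).trans (norm_snd_le v)

end

section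
variable {X : Type*} [NormedAddCommGroup X] {D : Type*} [Fintype D] [DecidableEq D]

theorem C5_w (t : D) (σ : ℝ → ℝ) (p : X × (D → ℝ)) :
    wgt σ (Finset.univ.erase t) t p t = 1 ∧
      ∀ i, i ≠ t → wgt σ (Finset.univ.erase t) t p i = σ (p.2 t) := by
  unfold wgt
  constructor
  · simp
  · intro i hi
    simp [hi]

theorem C5_kap (t : D) (p : X × (D → ℝ)) : (kap t p).1 = p.1 ∧ (kap t p).2 t = SS (p.2 t) ∧
    ∀ i, i ≠ t → (kap t p).2 i = p.2 i := by
  unfold kap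
  refine ⟨rfl, by simp, fun i hi => by simp [hi]⟩

theorem C5_iot (t : D) (p : X × (D → ℝ)) : (iot t p).1 = p.1 ∧ (iot t p).2 t = TT (p.2 t) ∧
    ∀ i, i ≠ t → (iot t p).2 i = p.2 i := by
  unfold iot
  refine ⟨rfl, by simp, fun i hi => by simp [hi]⟩

/-- components of a vector from the weighted norm -/
theorem C5_comp (t : D) (s : ℝ) (pt : X × (D → ℝ)) (hs : pt.2 t = s) (v : X × (D → ℝ)) (a : ℝ)
    (h : ‖sc (wgt sg (Finset.univ.erase t) t pt) v‖ ≤ a) :
    ‖v.1‖ ≤ a ∧ |v.2 t| ≤ a ∧ ∀ i, i ≠ t → sg s * |v.2 i| ≤ a := by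
  obtain ⟨w1, w2⟩ := C5_w t sg pt
  refine ⟨(C5_fst (sc (wgt sg (Finset.univ.erase t) t pt) v)).trans h, ?_, ?_⟩
  · have h1 := (C5_snd (sc (wgt sg (Finset.univ.erase t) t pt) v) t).trans h
    unfold sc at h1
    simp only [w1, one_mul] at h1
    exact h1
  · intro i hi
    have h1 := (C5_snd (sc (wgt sg (Finset.univ.erase t) t pt) v) i).trans h
    unfold sc at h1
    simp only [w2 i hi, hs] at h1
    rw [abs_mul, abs_of_nonneg (by linarith [P5_sg s])] at h1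
    exact h1

theorem C5_disp (t : D) (ε C : ℝ) (hε0 : 0 ≤ ε) (hε : ε ≤ 1) (V : Set (X × (D → ℝ)))
    (E E' : X × (D → ℝ) → X × (D → ℝ))
    (h : NI (wgt sg (Finset.univ.erase t) t) ε C V E E') (p : X × (D → ℝ)) (hp : p.2 t < 2 * Lp)
    (hV : kap t p ∈ V) :
    sg (SS (p.2 t)) * ‖iot t (E (kap t p)) - p‖ ≤ 4 * ε := by
  obtain ⟨k1, k2, k3⟩ := C5_kap t p
  obtain ⟨i1, i2, i3⟩ := C5_iot t (E (kap t p))
  obtain ⟨d1, d2, d3⟩ := C5_comp t _ (kap t p) k2 _ _ (h.disp (kap t p) hV)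
  have hs := P5_sg (SS (p.2 t))
  have hs0 : 0 < sg (SS (p.2 t)) := by linarith
  have hb : ‖iot t (E (kap t p)) - p‖ ≤ 4 * ε / sg (SS (p.2 t)) := by
    apply C5_le _ _ (by positivity)
    · have e : (iot t (E (kap t p)) - p).1 = 0 := by
        rw [Prod.fst_sub, i1, h.pres, k1, sub_self]
      rw [e, norm_zero]
      positivity
    · intro i
      rw [le_div_iff₀ hs0]
      by_cases hi : i = t
      · subst hi
        have e : (iot i (E (kap i p)) - p).2 i = TT ((E (kap i p)).2 i) - TT (SS (p.2 i)) := by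
          rw [C4_TT _ hp, ← i2]
          rfl
        have h1 : |SS (p.2 i) - (E (kap i p)).2 i| ≤ ε := by
          rw [abs_sub_comm]
          have : (E (kap i p) - kap i p).2 i = (E (kap i p)).2 i - SS (p.2 i) := by
            rw [← k2]
            rfl
          rw [← this]
          exact d2
        have h2 := (C4_comp (SS (p.2 i)) ((E (kap i p)).2 i) (h1.trans hε)).2
        rw [e, abs_sub_comm, mul_comm]
        linarith
      · have e : (iot t (E (kap t p)) - p).2 i = (E (kap t p) - kap t p).2 i := by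
          have a1 : (iot t (E (kap t p)) - p).2 i = (iot t (E (kap t p))).2 i - p.2 i := rfl
          have a2 : (E (kap t p) - kap t p).2 i = (E (kap t p)).2 i - (kap t p).2 i := rfl
          rw [a1, a2, i3 i hi, k3 i hi]
        have h1 := d3 i hi
        rw [e, mul_comm]
        linarith
  rw [le_div_iff₀ hs0] at hb
  linarith

theorem C5_kapt (t : D) (p : X × (D → ℝ)) (hp : p.2 t < 2 * Lp) :
    Tendsto (kap t) (𝓝 p) (𝓝 (kap t p)) := by
  have hc : Tendsto (fun q : X × (D → ℝ) => SS (q.2 t)) (𝓝 p) (𝓝 (SS (p.2 t))) := by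
    rw [Metric.tendsto_nhds]
    intro δ hδ
    have h1 : Tendsto (fun q : X × (D → ℝ) => q.2 t) (𝓝 p) (𝓝 (p.2 t)) := by
      have : Continuous (fun q : X × (D → ℝ) => q.2 t) := by fun_prop
      exact this.tendsto p
    filter_upwards [h1.eventually (C4_near (p.2 t) hp δ hδ)] with q hq
    rw [Real.dist_eq]
    exact hq.2
  have h2 : Tendsto (fun q : X × (D → ℝ) => (q.1, Function.update q.2 t (SS (q.2 t)))) (𝓝 p)
      (𝓝 (p.1, Function.update p.2 t (SS (p.2 t)))) := by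
    apply Tendsto.prodMk_nhds
    · exact (continuous_fst.tendsto p)
    · rw [tendsto_pi_nhds]
      intro i
      by_cases hi : i = t
      · subst hi
        simpa using hc
      · have : Continuous (fun q : X × (D → ℝ) => q.2 i) := by fun_prop
        simpa [hi] using this.tendsto p
  exact h2

theorem C5_lip (t : D) (ε C : ℝ) (hε : ε ≤ 1) (hC : 1 ≤ C) (V : Set (X × (D → ℝ)))
    (E E' : X × (D → ℝ) → X × (D → ℝ))
    (h : NI (wgt sg (Finset.univ.erase t) t) ε C V E E') (p : X × (D → ℝ)) (hp : p.2 t < 2 * Lp)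
    (hV : kap t p ∈ V) :
    ∀ᶠ q in 𝓝 p, q.2 t < 2 * Lp ∧
      ‖iot t (E (kap t q)) - iot t (E (kap t p))‖ ≤ 32 * C * ‖q - p‖ := by
  obtain ⟨k1, k2, k3⟩ := C5_kap t p
  obtain ⟨d1, d2, d3⟩ := C5_comp t _ (kap t p) k2 _ _ (h.disp (kap t p) hV)
  obtain ⟨s, hs⟩ : ∃ s, s = SS (p.2 t) := ⟨_, rfl⟩
  rw [← hs] at k2
  have hsg := P5_sg s
  have hcoord : Tendsto (fun q : X × (D → ℝ) => q.2 t) (𝓝 p) (𝓝 (p.2 t)) := by
    have : Continuous (fun q : X × (D → ℝ) => q.2 t) := by fun_prop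
    exact this.tendsto p
  have e1 := hcoord.eventually (C4_near (p.2 t) hp 1 one_pos)
  have e2 := (C5_kapt t p hp).eventually (h.lip (kap t p) hV)
  have e3 : ∀ᶠ q in 𝓝 p, C * (4 * sg s * ‖q - p‖) < 1 := by
    have : Continuous (fun q : X × (D → ℝ) => C * (4 * sg s * ‖q - p‖)) := by fun_prop
    have h1 := this.tendsto p
    simp only [sub_self, norm_zero, mul_zero] at h1
    exact h1.eventually (gt_mem_nhds one_pos)
  filter_upwards [e1, e2, e3] with q hq1 hq2 hq3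
  obtain ⟨hq, hqs⟩ := hq1
  refine ⟨hq, ?_⟩
  rw [← hs] at hqs
  obtain ⟨kq1, kq2, kq3⟩ := C5_kap t q
  have hTs : TT s = p.2 t := by rw [hs, C4_TT _ hp]
  have hTq : TT (SS (q.2 t)) = q.2 t := C4_TT _ hq
  have hn : 0 ≤ ‖q - p‖ := norm_nonneg _
  obtain ⟨w1, w2⟩ := C5_w t sg (kap t p)
  have hstep1 : ‖sc (wgt sg (Finset.univ.erase t) t (kap t p)) (kap t q - kap t p)‖
      ≤ 4 * sg s * ‖q - p‖ := by
    apply C5_le _ _ (by positivity)
    · have e : (sc (wgt sg (Finset.univ.erase t) t (kap t p)) (kap t q - kap t p)).1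
          = (q - p).1 := by
        have a1 : (sc (wgt sg (Finset.univ.erase t) t (kap t p)) (kap t q - kap t p)).1
          = (kap t q).1 - (kap t p).1 := rfl
        rw [a1, k1, kq1]
        rfl
      rw [e]
      have := C5_fst (q - p)
      nlinarith
    · intro i
      have a1 : (sc (wgt sg (Finset.univ.erase t) t (kap t p)) (kap t q - kap t p)).2 i
          = wgt sg (Finset.univ.erase t) t (kap t p) i * ((kap t q).2 i - (kap t p).2 i) := rfl
      rw [a1]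
      by_cases hi : i = t
      · subst hi
        rw [w1, one_mul, kq2, k2]
        have h2 := (C4_comp s (SS (q.2 i)) (by rw [abs_sub_comm]; exact hqs.le)).1
        rw [hTs, hTq, abs_sub_comm (p.2 i)] at h2
        have h3 : |q.2 i - p.2 i| ≤ ‖q - p‖ := C5_snd (q - p) i
        rw [abs_sub_comm] at h2
        have h4 : sg s * |q.2 i - p.2 i| ≤ sg s * ‖q - p‖ :=
          mul_le_mul_of_nonneg_left h3 (by linarith)
        linarith
      · rw [w2 i hi, k2, kq3 i hi, k3 i hi, abs_mul, abs_of_nonneg (by linarith)]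
        have h3 : |q.2 i - p.2 i| ≤ ‖q - p‖ := C5_snd (q - p) i
        have h4 : sg s * |q.2 i - p.2 i| ≤ sg s * ‖q - p‖ :=
          mul_le_mul_of_nonneg_left h3 (by linarith)
        nlinarith
  have hstep2 : ‖sc (wgt sg (Finset.univ.erase t) t (kap t p)) (E (kap t q) - E (kap t p))‖
      ≤ C * (4 * sg s * ‖q - p‖) :=
    hq2.trans (mul_le_mul_of_nonneg_left hstep1 (by linarith))
  obtain ⟨u1, u2, u3⟩ := C5_comp t s (kap t p) k2 _ _ hstep2
  have hut : |(E (kap t p)).2 t - s| ≤ 1 := by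
    have a1 : (E (kap t p) - kap t p).2 t = (E (kap t p)).2 t - s := by
      rw [← k2]
      rfl
    rw [← a1]
    exact d2.trans hε
  have hLp : (1 : ℝ) ≤ Lp := by
    unfold Lp
    norm_num
  have hslow := P5_sg_slow ((E (kap t p)).2 t) s (hut.trans hLp)
  obtain ⟨i1, i2, i3⟩ := C5_iot t (E (kap t p))
  obtain ⟨j1, j2, j3⟩ := C5_iot t (E (kap t q))
  have hK : 0 ≤ 32 * C * ‖q - p‖ := by positivity
  apply C5_le _ _ hK
  · have e : (iot t (E (kap t q)) - iot t (E (kap t p))).1 = (q - p).1 := by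
      rw [Prod.fst_sub, i1, j1, h.pres, h.pres, k1, kq1, Prod.fst_sub]
    rw [e]
    have := C5_fst (q - p)
    nlinarith
  · intro i
    have a1 : (iot t (E (kap t q)) - iot t (E (kap t p))).2 i
        = (iot t (E (kap t q))).2 i - (iot t (E (kap t p))).2 i := rfl
    rw [a1]
    by_cases hi : i = t
    · subst hi
      rw [i2, j2]
      have a2 : (E (kap i q) - E (kap i p)).2 i = (E (kap i q)).2 i - (E (kap i p)).2 i := rfl
      rw [a2] at u2
      have h2 := (C4_comp ((E (kap i p)).2 i) ((E (kap i q)).2 i)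
        (by rw [abs_sub_comm]; exact u2.trans hq3.le)).2
      rw [abs_sub_comm (TT ((E (kap i p)).2 i)), abs_sub_comm ((E (kap i p)).2 i)] at h2
      have hx := abs_nonneg (TT ((E (kap i q)).2 i) - TT ((E (kap i p)).2 i))
      have h3 : sg s * |TT ((E (kap i q)).2 i) - TT ((E (kap i p)).2 i)|
          ≤ sg s * (32 * C * ‖q - p‖) := by
        have h4 := mul_le_mul_of_nonneg_right hslow hx
        nlinarith
      exact le_of_mul_le_mul_left h3 (by linarith)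
    · rw [i3 i hi, j3 i hi]
      have h1 := u3 i hi
      have a2 : (E (kap t q) - E (kap t p)).2 i = (E (kap t q)).2 i - (E (kap t p)).2 i := rfl
      rw [a2] at h1
      have h3 : sg s * |(E (kap t q)).2 i - (E (kap t p)).2 i|
          ≤ sg s * (32 * C * ‖q - p‖) := by
        have h4 : 0 ≤ sg s * (C * ‖q - p‖) := by positivity
        nlinarith
      exact le_of_mul_le_mul_left h3 (by linarith)

/-- the set of the statement -/
def C5_S (t : D) (V : Set (X × (D → ℝ))) : Set (X × (D → ℝ)) :=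
  {p : X × (D → ℝ) | (p.2 t < 2 * Lp → kap t p ∈ V) ∧
        (p.2 t = 2 * Lp → ∀ᶠ q in 𝓝 p, q.2 t < 2 * Lp → kap t q ∈ V)}

/-- the extended map -/
noncomputable def C5_F (t : D) (E : X × (D → ℝ) → X × (D → ℝ)) (p : X × (D → ℝ)) :
    X × (D → ℝ) := if p.2 t < 2 * Lp then iot t (E (kap t p)) else p

theorem C5_one (t : D) (ε C : ℝ) (hε0 : 0 ≤ ε) (hε : ε ≤ 1) (hC : 1 ≤ C) (V : Set (X × (D → ℝ)))
    (E E' : X × (D → ℝ) → X × (D → ℝ))
    (h : NI (wgt sg (Finset.univ.erase t) t) ε C V E E') :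
    (∀ p, (C5_F t E p).1 = p.1) ∧
    (∀ p ∈ C5_S t V, ‖C5_F t E p - p‖ ≤ 4 * ε) ∧
    (∀ p ∈ C5_S t V, ∀ᶠ q in 𝓝 p, ‖C5_F t E q - C5_F t E p‖ ≤ 32 * C * ‖q - p‖) ∧
    (∀ p ∈ C5_S t V, C5_F t E p ∈ C5_S t V → C5_F t E' (C5_F t E p) = p) := by
  have f1 : ∀ (E : X × (D → ℝ) → X × (D → ℝ)) (p : X × (D → ℝ)), p.2 t < 2 * Lp →
      C5_F t E p = iot t (E (kap t p)) := by
    intro E p hp
    unfold C5_F
    rw [if_pos hp]
  have f2 : ∀ (E : X × (D → ℝ) → X × (D → ℝ)) (p : X × (D → ℝ)), 2 * Lp ≤ p.2 t →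
      C5_F t E p = p := by
    intro E p hp
    unfold C5_F
    rw [if_neg (not_lt.2 hp)]
  refine ⟨?_, ?_, ?_, ?_⟩
  · intro p
    rcases lt_or_ge (p.2 t) (2 * Lp) with hp | hp
    · rw [f1 E p hp, (C5_iot t _).1, h.pres, (C5_kap t p).1]
    · rw [f2 E p hp]
  · intro p hpS
    rcases lt_or_ge (p.2 t) (2 * Lp) with hp | hp
    · rw [f1 E p hp]
      have h1 := C5_disp t ε C hε0 hε V E E' h p hp (hpS.1 hp)
      have h2 := P5_sg (SS (p.2 t))
      have h3 := norm_nonneg (iot t (E (kap t p)) - p)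
      nlinarith
    · rw [f2 E p hp, sub_self, norm_zero]
      linarith
  · intro p hpS
    have hcoord : Tendsto (fun q : X × (D → ℝ) => q.2 t) (𝓝 p) (𝓝 (p.2 t)) := by
      have : Continuous (fun q : X × (D → ℝ) => q.2 t) := by fun_prop
      exact this.tendsto p
    rcases lt_trichotomy (p.2 t) (2 * Lp) with hp | hp | hp
    · filter_upwards [C5_lip t ε C hε hC V E E' h p hp (hpS.1 hp)] with q hq
      rw [f1 E q hq.1, f1 E p hp]
      exact hq.2
    · filter_upwards [hpS.2 hp] with q hq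
      rw [f2 E p hp.ge]
      have hn := norm_nonneg (q - p)
      rcases lt_or_ge (q.2 t) (2 * Lp) with hq' | hq'
      · rw [f1 E q hq']
        have h1 := C5_disp t ε C hε0 hε V E E' h q hq' (hq hq')
        have h2 := P5_sg (SS (q.2 t))
        have h3 := C4_dist (SS (q.2 t))
        rw [C4_TT _ hq'] at h3
        have h4 : ‖iot t (E (kap t q)) - q‖ ≤ 4 * ε * (2 * Lp - q.2 t) := by
          have h5 : sg (SS (q.2 t)) * ‖iot t (E (kap t q)) - q‖
              ≤ sg (SS (q.2 t)) * (4 * ε * (2 * Lp - q.2 t)) := by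
            nlinarith
          exact le_of_mul_le_mul_left h5 (by linarith)
        have h6 : 2 * Lp - q.2 t ≤ ‖q - p‖ := by
          have h7 : |q.2 t - p.2 t| ≤ ‖q - p‖ := C5_snd (q - p) t
          have h8 := neg_abs_le (q.2 t - p.2 t)
          linarith
        have h9 : 4 * ε * (2 * Lp - q.2 t) ≤ 4 * 1 * ‖q - p‖ :=
          mul_le_mul (by linarith) h6 (by linarith) (by norm_num)
        have e : iot t (E (kap t q)) - p = (iot t (E (kap t q)) - q) + (q - p) := by abel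
        rw [e]
        refine (norm_add_le _ _).trans ?_
        nlinarith
      · rw [f2 E q hq']
        nlinarith
    · filter_upwards [hcoord.eventually (lt_mem_nhds hp)] with q hq
      rw [f2 E q hq.le, f2 E p hp.le]
      have hn := norm_nonneg (q - p)
      nlinarith
  · intro p hpS hFS
    rcases lt_or_ge (p.2 t) (2 * Lp) with hp | hp
    · rw [f1 E p hp] at hFS ⊢
      have h1 : (iot t (E (kap t p))).2 t < 2 * Lp := by
        rw [(C5_iot t _).2.1]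
        exact C4_lt _
      have h2 := hFS.1 h1
      rw [C4_kapiot] at h2
      rw [f1 E' _ h1, C4_kapiot, h.inv _ (hpS.1 hp) h2, C4_iotkap t p hp]
    · rw [f2 E p hp, f2 E' p hp]

end

theorem C5_conj {X : Type*} [NormedAddCommGroup X] {D : Type*} [Fintype D] [DecidableEq D] (t : D) (ε C : ℝ)
    (hε0 : 0 ≤ ε) (hε : ε ≤ 1) (hC : 1 ≤ C) (V : Set (X × (D → ℝ))) (E E' : X × (D → ℝ) → X × (D → ℝ))
    (h : NI (wgt sg (Finset.univ.erase t) t) ε C V E E') :
    ∃ F F' : X × (D → ℝ) → X × (D → ℝ),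
      NP (4 * ε) (32 * C) {p : X × (D → ℝ) | (p.2 t < 2 * Lp → kap t p ∈ V) ∧
        (p.2 t = 2 * Lp → ∀ᶠ q in 𝓝 p, q.2 t < 2 * Lp → kap t q ∈ V)} F F' ∧
      (∀ p : X × (D → ℝ), 2 * Lp ≤ p.2 t → F p = p ∧ F' p = p) ∧
      (∀ p : X × (D → ℝ), p.2 t < 2 * Lp → F p = iot t (E (kap t p)) ∧ F' p = iot t (E' (kap t p))) := by
  obtain ⟨a1, a2, a3, a4⟩ := C5_one t ε C hε0 hε hC V E E' h
  obtain ⟨b1, b2, b3, b4⟩ := C5_one t ε C hε0 hε hC V E' E h.symm
  refine ⟨C5_F t E, C5_F t E', ⟨a1, b1, a2, b2, a3, b3, a4, b4⟩, ?_, ?_⟩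
  · intro p hp
    unfold C5_F
    rw [if_neg (not_lt.2 hp), if_neg (not_lt.2 hp)]
    exact ⟨rfl, rfl⟩
  · intro p hp
    unfold C5_F
    rw [if_pos hp, if_pos hp]
    exact ⟨rfl, rfl⟩

end H80.LD
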