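import Pool.Agent.H80.LD.C2
import Pool.Agent.H80.LD.C5

/-!
# C6: the core theorem, part 1

Given `L ≥ 1` take `R_c, ε_c, C_c` from `C2_chain` (with `L`).  Put `s₀ = Lp + 3`, `τ = shf t s₀`, `τ⁻¹ = shf t (-s₀)` (isometries, fibre preserving).  `R = R_c + 3 Lp + 10` (so `R ≥ R_c + 2 Lp + 1` and `R ≥ 2 Lp + s₀`), `ε₀ = min ε_c (1/(4 C_c))`, `C = 32 C_c`.
For `NP ε L U e e'`: `e_s = τ⁻¹ e τ`, `e_s' = τ⁻¹ e' τ`, `U_s = {p | τ p ∈ U}`: `NP ε L U_s e_s e_s'` (`B0b_conj` with `a = b = 1` or directly).  Chain: `E, E'` with `NI W (C_c ε) C_c (VV t R_c U_s)`; `C5_conj` (`C_c ε ≤ 1`): `F_s, F_s'`;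
`F = τ F_s τ⁻¹`, `F' = τ F_s' τ⁻¹`: `NP (4 C_c ε) (32 C_c) {p | τ⁻¹ p ∈ S}`, `S` the set in C5.
(*) If `q` is such that `closedBall p R ⊆ U`, `‖q - p‖ ≤ 1/2`, and `y = (τ⁻¹ q)`, `y.2 t < 2 Lp`: `kap t y ∈ VV t R_c U_s`.  Let `vn t R_c (kap t y) z`.  `‖z.1 - q.1‖ ≤ R_c`, `|z.2 i - q.2 i| ≤ R_c` for `i ≠ t`.  If `y.2 t ≤ 0`: `SS (y.2 t) = y.2 t`, `min = y.2 t`,
  `|z.2 t - y.2 t| ≤ R_c`, i.e. `|(τ z).2 t - q.2 t| ≤ R_c`.  If `y.2 t > 0`: `SS (y.2 t) ≥ 0`, `min = 0`, `|z.2 t| ≤ R_c`, `|(τ z).2 t - q.2 t| = |z.2 t - y.2 t| ≤ R_c + 2 Lp`.  So `τ z ∈ closedBall p R ⊆ U`.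
* NP: if `closedBall p R ⊆ U` then `τ⁻¹ p ∈ S` by (*) (with `q = p`, and for the second condition all `q` near `p`).  If `R < p.2 t` then `(τ⁻¹ p).2 t > 2 Lp` and both conditions are void.
* `closedBall p R ⊆ U`, `p.2 t ≤ 1`: `y = τ⁻¹ p`, `y.2 t ≤ -Lp - 2 ≤ 0`, `kap t y = y` (`C4_SSneg`), `y ∈ VV t R_c U_s`, so `E y = e_s y`, `(e_s y).2 t ≤ -Lp - 2 + ε ≤ 0` (`y ∈ U_s`), `iot t (e_s y) = e_s y` (`C4_neg`), `F p = τ (e_s y) = e p`.
* `R ≤ p.2 t`: `2 Lp ≤ (τ⁻¹ p).2 t`.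
* identity: `closedBall p R ⊆ U`, `e = e' = id` on it.  If `(τ⁻¹ p).2 t ≥ 2 Lp` clear.  Otherwise `kap t y ∈ VV t R_c U_s` and for `vn t R_c (kap t y) z`: `τ z ∈ closedBall p R` (proof of (*)), `e_s z = z`.  So `E (kap t y) = kap t y`, `F p = τ (iot t (kap t y)) = τ y = p`.
-/

open Filter Topology Metric Set

namespace H80.LD

theorem C6_shf_cancel {X : Type*} [NormedAddCommGroup X] {D : Type*} [Fintype D] [DecidableEq D]
    (t : D) (s : ℝ) (p : X × (D → ℝ)) : shf t (-s) (shf t s p) = p := by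
  unfold shf
  refine Prod.ext rfl ?_
  funext i
  by_cases hi : i = t
  · subst hi
    simp
  · simp [hi]

theorem C6_shf_cancel' {X : Type*} [NormedAddCommGroup X] {D : Type*} [Fintype D] [DecidableEq D]
    (t : D) (s : ℝ) (p : X × (D → ℝ)) : shf t s (shf t (-s) p) = p := by
  have := C6_shf_cancel t (-s) p
  rwa [neg_neg] at this

theorem C6_shf_sub {X : Type*} [NormedAddCommGroup X] {D : Type*} [Fintype D] [DecidableEq D]
    (t : D) (s : ℝ) (p q : X × (D → ℝ)) : shf t s p - shf t s q = p - q := by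
  unfold shf
  refine Prod.ext rfl ?_
  funext i
  by_cases hi : i = t
  · subst hi
    simp
  · simp [hi]

theorem C6_shf_t {X : Type*} [NormedAddCommGroup X] {D : Type*} [Fintype D] [DecidableEq D]
    (t : D) (s : ℝ) (p : X × (D → ℝ)) : (shf t s p).2 t = p.2 t + s := by
  simp [shf]

theorem C6_shf_ne {X : Type*} [NormedAddCommGroup X] {D : Type*} [Fintype D] [DecidableEq D]
    (t : D) (s : ℝ) (p : X × (D → ℝ)) (i : D) (hi : i ≠ t) : (shf t s p).2 i = p.2 i := by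
  simp [shf, hi]

theorem C6_SS_nonneg (y : ℝ) (hy : 0 < y) (hy2 : y < 2 * Lp) : 0 ≤ SS y := by
  by_contra hneg
  push Not at hneg
  have h1 := C4_TT y hy2
  rw [C4_neg _ hneg.le] at h1
  linarith

theorem C6_Lp : Lp = 10 ^ 10 := rfl

theorem C6_far {X : Type*} [NormedAddCommGroup X] {D : Type*} [Fintype D] [DecidableEq D]
    (t : D) (Rc s : ℝ) (hRc : 1 ≤ Rc) (q z : X × (D → ℝ))
    (hy : (shf t (-s) q).2 t < 2 * Lp) (hz : vn t Rc (kap t (shf t (-s) q)) z) :
    ‖shf t s z - q‖ ≤ Rc + 2 * Lp := by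
  obtain ⟨h1, h2, h3⟩ := hz
  have hL : (0 : ℝ) ≤ Lp := by rw [C6_Lp]; norm_num
  have hR0 : 0 ≤ Rc + 2 * Lp := by linarith
  rw [norm_prod_le_iff]
  constructor
  · have h4 : (shf t s z - q).1 = z.1 - (kap t (shf t (-s) q)).1 := rfl
    rw [h4]
    linarith
  · rw [pi_norm_le_iff_of_nonneg hR0]
    intro i
    rw [Real.norm_eq_abs]
    change |(shf t s z).2 i - q.2 i| ≤ _
    by_cases hi : i = t
    · subst hi
      rw [C6_shf_t]
      have h4 : (kap i (shf i (-s) q)).2 i = SS ((shf i (-s) q).2 i) := by simp [kap]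
      rw [h4] at h3
      rw [C6_shf_t] at h3 hy
      set y := q.2 i + -s with hydef
      have h5 : z.2 i + s - q.2 i = z.2 i - y := by rw [hydef]; ring
      rw [h5]
      by_cases hy0 : y ≤ 0
      · rw [C4_SSneg y hy0, min_eq_left hy0] at h3
        linarith
      · push Not at hy0
        rw [min_eq_right (C6_SS_nonneg y hy0 hy), sub_zero] at h3
        have h6 := abs_le.1 h3
        rw [abs_le]
        constructor <;> linarith [h6.1, h6.2]
    · rw [C6_shf_ne t s z i hi]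
      have h4 := h2 i hi
      have h5 : (kap t (shf t (-s) q)).2 i = q.2 i := by
        simp [kap, shf, hi]
      rw [h5] at h4
      linarith

theorem C6_mem {X : Type*} [NormedAddCommGroup X] {D : Type*} [Fintype D] [DecidableEq D]
    (t : D) (Rc s R : ℝ) (hRc : 1 ≤ Rc) (hR : Rc + 2 * Lp + 1 / 2 ≤ R) (p q z : X × (D → ℝ))
    (hq : ‖q - p‖ ≤ 1 / 2) (hy : (shf t (-s) q).2 t < 2 * Lp)
    (hz : vn t Rc (kap t (shf t (-s) q)) z) :
    shf t s z ∈ closedBall p R := by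
  rw [mem_closedBall_iff_norm]
  have h1 := C6_far t Rc s hRc q z hy hz
  calc ‖shf t s z - p‖ = ‖(shf t s z - q) + (q - p)‖ := by rw [sub_add_sub_cancel]
    _ ≤ ‖shf t s z - q‖ + ‖q - p‖ := norm_add_le _ _
    _ ≤ R := by linarith

theorem C6_VV {X : Type*} [NormedAddCommGroup X] {D : Type*} [Fintype D] [DecidableEq D]
    (t : D) (Rc s R : ℝ) (hRc : 1 ≤ Rc) (hR : Rc + 2 * Lp + 1 / 2 ≤ R) (U : Set (X × (D → ℝ)))
    (p q : X × (D → ℝ)) (hp : closedBall p R ⊆ U)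
    (hq : ‖q - p‖ ≤ 1 / 2) (hy : (shf t (-s) q).2 t < 2 * Lp) :
    kap t (shf t (-s) q) ∈ VV t Rc {x | shf t s x ∈ U} :=
  fun z hz => hp (C6_mem t Rc s R hRc hR p q z hq hy hz)

theorem C6_kap_neg {X : Type*} [NormedAddCommGroup X] {D : Type*} [Fintype D] [DecidableEq D]
    (t : D) (y : X × (D → ℝ)) (h : y.2 t ≤ 0) : kap t y = y := by
  unfold kap
  rw [C4_SSneg _ h, Function.update_eq_self]

theorem C6_iot_neg {X : Type*} [NormedAddCommGroup X] {D : Type*} [Fintype D] [DecidableEq D]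
    (t : D) (y : X × (D → ℝ)) (h : y.2 t ≤ 0) : iot t y = y := by
  unfold iot
  rw [C4_neg _ h, Function.update_eq_self]

theorem C6_hat (X : Type) [NormedAddCommGroup X] (D : Type) [Fintype D] [DecidableEq D] [Nontrivial D] (t : D) :
    HatStmt X D t := by
  intro L hL
  obtain ⟨Rc, hRc, εc, hεc, Cc, hCc, hch⟩ := C2_chain X D t L hL
  have hLp : (0 : ℝ) < Lp := by rw [C6_Lp]; norm_num
  have hCc0 : 0 < Cc := by linarith
  refine ⟨Rc + 3 * Lp + 10, by linarith, min εc (1 / (4 * Cc)),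
    lt_min hεc (by positivity), 32 * Cc, by linarith, ?_⟩
  intro ε hε hεle U e e' hNP
  have hε1 : ε ≤ εc := hεle.trans (min_le_left _ _)
  have hε2 : ε ≤ 1 / (4 * Cc) := hεle.trans (min_le_right _ _)
  have hε3 : 4 * (Cc * ε) ≤ 1 := by
    have h1 : (4 * Cc) * ε ≤ (4 * Cc) * (1 / (4 * Cc)) :=
      mul_le_mul_of_nonneg_left hε2 (by positivity)
    have h2 : (4 * Cc) * (1 / (4 * Cc)) = 1 := by field_simp
    linarith
  have hCε : ε ≤ Cc * ε := by nlinarith
  have hCε0 : 0 < Cc * ε := by positivity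
  set s0 : ℝ := Lp + 3 with hs0
  set R : ℝ := Rc + 3 * Lp + 10 with hR
  have hNPs : NP ε L {p | shf t s0 p ∈ U} (fun p => shf t (-s0) (e (shf t s0 p)))
      (fun p => shf t (-s0) (e' (shf t s0 p))) := by
    have h := B0b_conj hNP (a := 1) (b := 1) zero_le_one zero_le_one (by linarith)
      (shf t (-s0)) (shf t s0) (C6_shf_cancel' t s0) (C6_shf_cancel t s0)
      (fun p q => by rw [C6_shf_sub, one_mul]) (fun p q => by rw [C6_shf_sub, one_mul])
      (fun p q hpq => hpq)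
    rwa [one_mul, one_mul, one_mul] at h
  obtain ⟨E, E', hNI, hid, hneg⟩ := hch ε hε hε1 _ _ _ hNPs
  obtain ⟨Fs, Fs', hFs, hge, hlt⟩ := C5_conj t (Cc * ε) Cc hCε0.le (by linarith) hCc _ E E' hNI
  have hF := B0b_conj hFs (a := 1) (b := 1) zero_le_one zero_le_one (by linarith)
      (shf t s0) (shf t (-s0)) (C6_shf_cancel t s0) (C6_shf_cancel' t s0)
      (fun p q => by rw [C6_shf_sub, one_mul]) (fun p q => by rw [C6_shf_sub, one_mul])
      (fun p q hpq => hpq)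
  rw [one_mul, one_mul, one_mul] at hF
  have hRR : Rc + 2 * Lp + 1 / 2 ≤ R := by rw [hR]; linarith
  refine ⟨fun p => shf t s0 (Fs (shf t (-s0) p)), fun p => shf t s0 (Fs' (shf t (-s0) p)),
    B0b_mono hF (by linarith) le_rfl ?_, ?_, ?_, ?_⟩
  · rintro p (hp | hp)
    · refine ⟨fun h => C6_VV t Rc s0 R hRc hRR U p p hp (by simp) h, fun _ => ?_⟩
      have hb : ball (shf t (-s0) p) (1 / 2) ∈ 𝓝 (shf t (-s0) p) :=
        ball_mem_nhds _ (by norm_num)
      filter_upwards [hb] with q hq hq2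
      rw [mem_ball_iff_norm] at hq
      have h1 := C6_VV t Rc s0 R hRc hRR U p (shf t s0 q) hp
      rw [C6_shf_cancel] at h1
      refine h1 ?_ hq2
      have h2 : shf t s0 q - p = q - shf t (-s0) p := by
        rw [← C6_shf_sub t (-s0), C6_shf_cancel]
      rw [h2]
      exact hq.le
    · have h1 : 2 * Lp < (shf t (-s0) p).2 t := by
        rw [C6_shf_t]
        linarith
      exact ⟨fun h => absurd h1 (not_lt.2 h.le), fun h => absurd h1 (by rw [h]; exact lt_irrefl _)⟩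
  · intro p hp hpt
    have hyt : (shf t (-s0) p).2 t ≤ -Lp - 2 := by
      rw [C6_shf_t]
      linarith
    have hyV := C6_VV t Rc s0 R hRc hRR U p p hp (by simp) (by linarith)
    rw [C6_kap_neg t _ (by linarith)] at hyV
    have hpU : p ∈ U := hp (mem_closedBall_self (by linarith))
    have hyU : shf t (-s0) p ∈ {p | shf t s0 p ∈ U} := by
      change shf t s0 (shf t (-s0) p) ∈ U
      rw [C6_shf_cancel']
      exact hpU
    have hE := hneg _ hyV hyt
    have hl := hlt (shf t (-s0) p) (by linarith)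
    rw [C6_kap_neg t _ (by linarith)] at hl
    have aux : ∀ w : X × (D → ℝ), ‖w - shf t (-s0) p‖ ≤ ε → w.2 t ≤ 0 := by
      intro w hw
      have h1 := (norm_prod_le_iff.1 hw).2
      have h2 := (pi_norm_le_iff_of_nonneg hε.le).1 h1 t
      rw [Real.norm_eq_abs] at h2
      have h3 := (abs_le.1 h2).2
      change w.2 t - (shf t (-s0) p).2 t ≤ ε at h3
      linarith
    constructor
    · change shf t s0 (Fs (shf t (-s0) p)) = e p
      rw [hl.1, hE.1, C6_iot_neg t _ (aux _ (hNPs.disp _ hyU)), C6_shf_cancel', C6_shf_cancel']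
    · change shf t s0 (Fs' (shf t (-s0) p)) = e' p
      rw [hl.2, hE.2, C6_iot_neg t _ (aux _ (hNPs.disp' _ hyU)), C6_shf_cancel', C6_shf_cancel']
  · intro p hp
    have h1 : 2 * Lp ≤ (shf t (-s0) p).2 t := by
      rw [C6_shf_t]
      linarith
    have h2 := hge _ h1
    constructor
    · change shf t s0 (Fs (shf t (-s0) p)) = p
      rw [h2.1, C6_shf_cancel']
    · change shf t s0 (Fs' (shf t (-s0) p)) = p
      rw [h2.2, C6_shf_cancel']
  · intro p hp hide
    by_cases h1 : 2 * Lp ≤ (shf t (-s0) p).2 t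
    · have h2 := hge _ h1
      constructor
      · change shf t s0 (Fs (shf t (-s0) p)) = p
        rw [h2.1, C6_shf_cancel']
      · change shf t s0 (Fs' (shf t (-s0) p)) = p
        rw [h2.2, C6_shf_cancel']
    · push Not at h1
      have hyV := C6_VV t Rc s0 R hRc hRR U p p hp (by simp) h1
      have h2 := hid _ hyV (fun z hz => by
        have h3 := hide _ (C6_mem t Rc s0 R hRc hRR p p z (by simp) h1 hz)
        constructor
        · rw [h3.1, C6_shf_cancel]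
        · rw [h3.2, C6_shf_cancel])
      have hl := hlt _ h1
      constructor
      · change shf t s0 (Fs (shf t (-s0) p)) = p
        rw [hl.1, h2.1, C4_iotkap t _ h1, C6_shf_cancel']
      · change shf t s0 (Fs' (shf t (-s0) p)) = p
        rw [hl.2, h2.2, C4_iotkap t _ h1, C6_shf_cancel']

end H80.LD
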