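import Pool.Agent.H80.LD.C6

/-!
# C7: the core theorem

`C7_U1`: for `NP ε L U e e'`, `ε > 0`, `L ≥ 1`, the set `U₁ = {p | closedBall p (2 ε) ⊆ U ∨ ∀ q ∈ closedBall p (2 ε), e q = q ∧ e' q = q}` has `NP ε L U₁ e e'`: type 1: `p ∈ U`, and `e p ∈ closedBall p ε ⊆ U`, so `e' (e p) = p`; type 2: `e p = p`, `e' p = p`, `e = e' = id` near `p`.
Core: given `L`, `C6_hat`: `R, ε₁, C₁`.  `R' = R + 3`, `ε₀ = min ε₁ (1/(8 C₁))`, `C = C₁ + L`.  Apply `C6_hat` to `U₁, e, e'`: `F̂, F̂'`.  `F p = e p` if `p.2 t ≤ 0`, `F̂ p` otherwise; same for `F'`.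
(a) `closedBall p (R + 3) ⊆ U` implies `closedBall q R ⊆ U₁` for `‖q - p‖ ≤ 1` (`2 ε ≤ 1`).
* `F p = e p` for `p.2 t ≤ 0` by definition; `F p = p` for `R' ≤ p.2 t`; identity: if `e = e' = id` on `closedBall p (R+3)`: `p.2 t ≤ 0`: `e p = p`; otherwise `closedBall p R ⊆ U₁` (type 2) and the identity property of `F̂`.
* NP on `G = {p | (p.2 t < 0 ∧ p ∈ U) ∨ closedBall p R' ⊆ U ∨ R' < p.2 t}`.
  disp: clear in all cases (`F̂` has displacement `≤ C₁ ε`).
  lip: `p.2 t < 0`, `p ∈ U`: `F = e` near `p`.  `closedBall p R' ⊆ U`, `p.2 t > 0`: `F = F̂` near `p`.  `closedBall p R' ⊆ U`, `p.2 t = 0`: for `q` near `p`, `q.2 t ≤ 1`, by (a) `F̂ q = e q`, so `F = e` near `p`.  `R' < p.2 t`: `F = id` near `p`.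
  inv: (i) `p.2 t ≤ 1/2` and (`p.2 t < 0 ∧ p ∈ U` or `closedBall p R' ⊆ U`): `F p = e p =: r` (for `0 < p.2 t ≤ 1/2` by (a)); `p ∈ U`; `r.2 t ≤ 1/2 + ε ≤ 1`; `r ∈ G`, so `r ∈ U` (third type is impossible) and `F' r = e' r` (`r.2 t ≤ 0`: definition; `r.2 t > 0`: `closedBall r R' ⊆ U` and (a));
  `e' (e p) = p`.  (ii) `p.2 t > 1/2`, `closedBall p R' ⊆ U`: `r = F̂ p`, `r.2 t ≥ 1/2 - C₁ ε > 0`, `F' r = F̂' r`, and `p`, `r` (`‖r - p‖ ≤ C₁ ε ≤ 1`) are in the NP set of `F̂` by (a): `F̂' (F̂ p) = p`.  (iii) `R' < p.2 t`: `F p = p`, `F' p = p`.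
  The primed statements are symmetric.
-/

open Filter Topology Metric Set

namespace H80.LD

theorem C7_U1 {X V : Type*} [NormedAddCommGroup X] [NormedAddCommGroup V] {ε L : ℝ} {U : Set (X × V)}
    {e e' : X × V → X × V} (h : NP ε L U e e') (hε : 0 < ε) (hL : 1 ≤ L) :
    NP ε L {p | closedBall p (2 * ε) ⊆ U ∨ ∀ q ∈ closedBall p (2 * ε), e q = q ∧ e' q = q} e e' := by
  have hself : ∀ p : X × V, p ∈ closedBall p (2 * ε) := fun p => mem_closedBall_self (by linarith)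
  refine ⟨h.pres, h.pres', ?_, ?_, ?_, ?_, ?_, ?_⟩
  · rintro p (hp | hp)
    · exact h.disp p (hp (hself p))
    · rw [(hp p (hself p)).1, sub_self, norm_zero]; exact hε.le
  · rintro p (hp | hp)
    · exact h.disp' p (hp (hself p))
    · rw [(hp p (hself p)).2, sub_self, norm_zero]; exact hε.le
  · rintro p (hp | hp)
    · exact h.lip p (hp (hself p))
    · filter_upwards [closedBall_mem_nhds p (by linarith : (0 : ℝ) < 2 * ε)] with q hq
      rw [(hp q hq).1, (hp p (hself p)).1]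
      nlinarith [norm_nonneg (q - p)]
  · rintro p (hp | hp)
    · exact h.lip' p (hp (hself p))
    · filter_upwards [closedBall_mem_nhds p (by linarith : (0 : ℝ) < 2 * ε)] with q hq
      rw [(hp q hq).2, (hp p (hself p)).2]
      nlinarith [norm_nonneg (q - p)]
  · rintro p (hp | hp) _
    · have h1 := h.disp p (hp (hself p))
      refine h.inv p (hp (hself p)) (hp ?_)
      rw [mem_closedBall, dist_eq_norm]; linarith
    · rw [(hp p (hself p)).1, (hp p (hself p)).2]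
  · rintro p (hp | hp) _
    · have h1 := h.disp' p (hp (hself p))
      refine h.inv' p (hp (hself p)) (hp ?_)
      rw [mem_closedBall, dist_eq_norm]; linarith
    · rw [(hp p (hself p)).2, (hp p (hself p)).1]

theorem C7_coord {X : Type} [NormedAddCommGroup X] {D : Type} [Fintype D] (t : D)
    (p q : X × (D → ℝ)) (r : ℝ) (h : ‖q - p‖ ≤ r) : |q.2 t - p.2 t| ≤ r := by
  have h1 : ‖(q - p).2‖ ≤ ‖q - p‖ := norm_snd_le (q - p)
  have h2 : ‖(q - p).2 t‖ ≤ ‖(q - p).2‖ := norm_le_pi_norm _ t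
  rw [Real.norm_eq_abs] at h2
  exact h2.trans (h1.trans h)

theorem C7_inv {X : Type} [NormedAddCommGroup X] {D : Type} [Fintype D] (t : D)
    (R ε δ : ℝ) (hR : 1 ≤ R) (hε : ε ≤ 1 / 8) (hδ : δ ≤ 1 / 8)
    (U U₁ : Set (X × (D → ℝ))) (e e' f f' : X × (D → ℝ) → X × (D → ℝ))
    (hU : ∀ p ∈ U, ‖e p - p‖ ≤ ε) (hinv : ∀ p ∈ U, e p ∈ U → e' (e p) = p)
    (hh : ∀ p : X × (D → ℝ), (closedBall p R ⊆ U₁ ∨ R < p.2 t) → ‖f p - p‖ ≤ δ)
    (hhinv : ∀ p : X × (D → ℝ), (closedBall p R ⊆ U₁ ∨ R < p.2 t) →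
      (closedBall (f p) R ⊆ U₁ ∨ R < (f p).2 t) → f' (f p) = p)
    (ha : ∀ p : X × (D → ℝ), closedBall p R ⊆ U₁ → p.2 t ≤ 1 → f p = e p)
    (ha' : ∀ p : X × (D → ℝ), closedBall p R ⊆ U₁ → p.2 t ≤ 1 → f' p = e' p)
    (hb : ∀ p : X × (D → ℝ), R ≤ p.2 t → f p = p) (hb' : ∀ p : X × (D → ℝ), R ≤ p.2 t → f' p = p)
    (hc : ∀ p q : X × (D → ℝ), closedBall p (R + 3) ⊆ U → ‖q - p‖ ≤ 1 → closedBall q R ⊆ U₁)
    (F F' : X × (D → ℝ) → X × (D → ℝ))
    (hF0 : ∀ p : X × (D → ℝ), p.2 t ≤ 0 → F p = e p) (hF1 : ∀ p : X × (D → ℝ), 0 < p.2 t → F p = f p)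
    (hF0' : ∀ p : X × (D → ℝ), p.2 t ≤ 0 → F' p = e' p) (hF1' : ∀ p : X × (D → ℝ), 0 < p.2 t → F' p = f' p)
    (p : X × (D → ℝ)) (hp : (p.2 t < 0 ∧ p ∈ U) ∨ closedBall p (R + 3) ⊆ U ∨ R + 3 < p.2 t)
    (hq : ((F p).2 t < 0 ∧ (F p) ∈ U) ∨ closedBall (F p) (R + 3) ⊆ U ∨ R + 3 < (F p).2 t) :
    F' (F p) = p := by
  have hself : ∀ p : X × (D → ℝ), p ∈ closedBall p (R + 3) := fun p => mem_closedBall_self (by linarith)
  have hc0 : ∀ p : X × (D → ℝ), closedBall p (R + 3) ⊆ U → closedBall p R ⊆ U₁ := by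
    intro p hp
    refine hc p p hp ?_
    rw [sub_self, norm_zero]; norm_num
  rcases le_or_gt (p.2 t) (1 / 2) with h1 | h1
  · -- case (i)
    have hpU : p ∈ U := by
      rcases hp with hp | hp | hp
      · exact hp.2
      · exact hp (hself p)
      · linarith
    have hFp : F p = e p := by
      rcases le_or_gt (p.2 t) 0 with h0 | h0
      · exact hF0 p h0
      · rw [hF1 p h0]
        rcases hp with hp | hp | hp
        · linarith [hp.1]
        · exact ha p (hc0 p hp) (by linarith)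
        · linarith
    rw [hFp] at hq ⊢
    have h2 := (abs_le.1 (C7_coord t p (e p) ε (hU p hpU))).2
    have h3 : (e p).2 t ≤ 1 := by linarith
    have hrU : e p ∈ U := by
      rcases hq with hq | hq | hq
      · exact hq.2
      · exact hq (hself _)
      · linarith
    have hFr : F' (e p) = e' (e p) := by
      rcases le_or_gt ((e p).2 t) 0 with h0 | h0
      · exact hF0' _ h0
      · rw [hF1' _ h0]
        rcases hq with hq | hq | hq
        · linarith [hq.1]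
        · exact ha' _ (hc0 _ hq) h3
        · linarith
    rw [hFr]
    exact hinv p hpU hrU
  · rcases hp with hp | hp | hp
    · linarith [hp.1]
    · have hG : closedBall p R ⊆ U₁ ∨ R < p.2 t := Or.inl (hc0 p hp)
      have h4 := hh p hG
      have h5 := (abs_le.1 (C7_coord t p (f p) δ h4)).1
      rw [hF1 p (by linarith), hF1' (f p) (by linarith)]
      exact hhinv p hG (Or.inl (hc p (f p) hp (by linarith)))
    · rw [hF1 p (by linarith), hb p (by linarith), hF1' p (by linarith), hb' p (by linarith)]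

theorem C7_of_hat (X : Type) [NormedAddCommGroup X] [NormedSpace ℝ X] (D : Type) [Fintype D] (t : D)
    (h : HatStmt X D t) : CoreStmt X D t := by
  classical
  intro L hL
  obtain ⟨R, hR, ε₁, hε₁, C₁, hC₁, H⟩ := h L hL
  refine ⟨R + 3, by linarith, min ε₁ (1 / (8 * C₁)), ?_, C₁ + L, by linarith, ?_⟩
  · exact lt_min hε₁ (by positivity)
  intro ε hε hεle U e e' hN
  have hε1 : ε ≤ ε₁ := hεle.trans (min_le_left _ _)
  have hε2 : C₁ * ε ≤ 1 / 8 := by
    have h1 : ε ≤ 1 / (8 * C₁) := hεle.trans (min_le_right _ _)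
    rw [le_div_iff₀ (by positivity)] at h1
    linarith
  have hε3 : ε ≤ 1 / 8 := by nlinarith
  have hN1 := C7_U1 hN hε hL
  set U₁ : Set (X × (D → ℝ)) :=
    {p | closedBall p (2 * ε) ⊆ U ∨ ∀ q ∈ closedBall p (2 * ε), e q = q ∧ e' q = q} with hU₁
  obtain ⟨f, f', hf, ha, hb, hid⟩ := H ε hε hε1 U₁ e e' hN1
  have hself : ∀ p : X × (D → ℝ), p ∈ closedBall p (R + 3) := fun p => mem_closedBall_self (by linarith)
  have hsub : ∀ p q z : X × (D → ℝ), ‖q - p‖ ≤ 1 → z ∈ closedBall q R →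
      closedBall z (2 * ε) ⊆ closedBall p (R + 3) := by
    intro p q z hpq hz w hw
    rw [mem_closedBall] at hz hw ⊢
    rw [← dist_eq_norm] at hpq
    have h1 := dist_triangle w z p
    have h2 := dist_triangle z q p
    linarith
  have hc : ∀ p q : X × (D → ℝ), closedBall p (R + 3) ⊆ U → ‖q - p‖ ≤ 1 → closedBall q R ⊆ U₁ := by
    intro p q hp hpq z hz
    exact Or.inl ((hsub p q z hpq hz).trans hp)
  have hc' : ∀ p q : X × (D → ℝ), (∀ w ∈ closedBall p (R + 3), e w = w ∧ e' w = w) → ‖q - p‖ ≤ 1 →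
      closedBall q R ⊆ U₁ := by
    intro p q hp hpq z hz
    exact Or.inr fun w hw => hp w (hsub p q z hpq hz hw)
  have hc0 : ∀ p : X × (D → ℝ), closedBall p (R + 3) ⊆ U → closedBall p R ⊆ U₁ := by
    intro p hp
    refine hc p p hp ?_
    rw [sub_self, norm_zero]; norm_num
  set F : X × (D → ℝ) → X × (D → ℝ) := fun p => if p.2 t ≤ 0 then e p else f p with hF
  set F' : X × (D → ℝ) → X × (D → ℝ) := fun p => if p.2 t ≤ 0 then e' p else f' p with hF'
  have hF0 : ∀ p : X × (D → ℝ), p.2 t ≤ 0 → F p = e p := fun p hp => by rw [hF]; exact if_pos hp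
  have hF1 : ∀ p : X × (D → ℝ), 0 < p.2 t → F p = f p := fun p hp => by
    rw [hF]; exact if_neg (not_le.2 hp)
  have hF0' : ∀ p : X × (D → ℝ), p.2 t ≤ 0 → F' p = e' p := fun p hp => by rw [hF']; exact if_pos hp
  have hF1' : ∀ p : X × (D → ℝ), 0 < p.2 t → F' p = f' p := fun p hp => by
    rw [hF']; exact if_neg (not_le.2 hp)
  have hct : Continuous fun p : X × (D → ℝ) => p.2 t := by fun_prop
  have key : ∀ p : X × (D → ℝ), ((p.2 t < 0 ∧ p ∈ U) ∨ closedBall p (R + 3) ⊆ U ∨ R + 3 < p.2 t) →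
      (p ∈ U ∧ ∀ᶠ q in 𝓝 p, F q = e q ∧ F' q = e' q) ∨
      ((closedBall p R ⊆ U₁ ∨ R < p.2 t) ∧ ∀ᶠ q in 𝓝 p, F q = f q ∧ F' q = f' q) := by
    intro p hp
    rcases lt_trichotomy (p.2 t) 0 with h0 | h0 | h0
    · left
      constructor
      · rcases hp with hp | hp | hp
        · exact hp.2
        · exact hp (hself p)
        · linarith
      · filter_upwards [hct.continuousAt.eventually_lt continuousAt_const h0] with q hq
        exact ⟨hF0 q hq.le, hF0' q hq.le⟩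
    · rcases hp with hp | hp | hp
      · linarith [hp.1]
      · left
        refine ⟨hp (hself p), ?_⟩
        filter_upwards [hct.continuousAt.eventually_lt continuousAt_const (show p.2 t < 1 by linarith),
          closedBall_mem_nhds p one_pos] with q hq1 hq2
        rw [mem_closedBall, dist_eq_norm] at hq2
        have h2 := ha q (hc p q hp hq2) hq1.le
        rcases le_or_gt (q.2 t) 0 with h3 | h3
        · exact ⟨hF0 q h3, hF0' q h3⟩
        · exact ⟨(hF1 q h3).trans h2.1, (hF1' q h3).trans h2.2⟩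
      · linarith
    · right
      constructor
      · rcases hp with hp | hp | hp
        · linarith [hp.1]
        · exact Or.inl (hc0 p hp)
        · exact Or.inr (by linarith)
      · filter_upwards [continuousAt_const.eventually_lt hct.continuousAt h0] with q hq
        exact ⟨hF1 q hq, hF1' q hq⟩
  have hCL : C₁ * ε ≤ (C₁ + L) * ε := by nlinarith
  have hCL' : ε ≤ (C₁ + L) * ε := by nlinarith
  refine ⟨F, F', ⟨?_, ?_, ?_, ?_, ?_, ?_, ?_, ?_⟩, ?_, ?_, ?_⟩
  · intro p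
    rcases le_or_gt (p.2 t) 0 with h0 | h0
    · rw [hF0 p h0]; exact hN.pres p
    · rw [hF1 p h0]; exact hf.pres p
  · intro p
    rcases le_or_gt (p.2 t) 0 with h0 | h0
    · rw [hF0' p h0]; exact hN.pres' p
    · rw [hF1' p h0]; exact hf.pres' p
  · intro p hp
    rcases key p hp with ⟨h1, h2⟩ | ⟨h1, h2⟩
    · rw [h2.self_of_nhds.1]; exact (hN.disp p h1).trans hCL'
    · rw [h2.self_of_nhds.1]; exact (hf.disp p h1).trans hCL
  · intro p hp
    rcases key p hp with ⟨h1, h2⟩ | ⟨h1, h2⟩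
    · rw [h2.self_of_nhds.2]; exact (hN.disp' p h1).trans hCL'
    · rw [h2.self_of_nhds.2]; exact (hf.disp' p h1).trans hCL
  · intro p hp
    rcases key p hp with ⟨h1, h2⟩ | ⟨h1, h2⟩
    · filter_upwards [h2, hN.lip p h1] with q hq1 hq2
      rw [h2.self_of_nhds.1, hq1.1]
      nlinarith [norm_nonneg (q - p)]
    · filter_upwards [h2, hf.lip p h1] with q hq1 hq2
      rw [h2.self_of_nhds.1, hq1.1]
      nlinarith [norm_nonneg (q - p)]
  · intro p hp
    rcases key p hp with ⟨h1, h2⟩ | ⟨h1, h2⟩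
    · filter_upwards [h2, hN.lip' p h1] with q hq1 hq2
      rw [h2.self_of_nhds.2, hq1.2]
      nlinarith [norm_nonneg (q - p)]
    · filter_upwards [h2, hf.lip' p h1] with q hq1 hq2
      rw [h2.self_of_nhds.2, hq1.2]
      nlinarith [norm_nonneg (q - p)]
  · intro p hp hq
    exact C7_inv t R ε (C₁ * ε) hR hε3 hε2 U U₁ e e' f f' hN.disp hN.inv (fun p hp => hf.disp p hp)
      (fun p hp hq => hf.inv p hp hq) (fun p h1 h2 => (ha p h1 h2).1) (fun p h1 h2 => (ha p h1 h2).2)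
      (fun p h1 => (hb p h1).1) (fun p h1 => (hb p h1).2) hc F F' hF0 hF1 hF0' hF1' p hp hq
  · intro p hp hq
    exact C7_inv t R ε (C₁ * ε) hR hε3 hε2 U U₁ e' e f' f hN.disp' hN.inv' (fun p hp => hf.disp' p hp)
      (fun p hp hq => hf.inv' p hp hq) (fun p h1 h2 => (ha p h1 h2).2) (fun p h1 h2 => (ha p h1 h2).1)
      (fun p h1 => (hb p h1).2) (fun p h1 => (hb p h1).1) hc F' F hF0' hF1' hF0 hF1 p hp hq
  · exact fun p hp => ⟨hF0 p hp, hF0' p hp⟩
  · intro p hp
    rw [hF1 p (by linarith), hF1' p (by linarith)]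
    exact hb p (by linarith)
  · intro p hp
    rcases le_or_gt (p.2 t) 0 with h0 | h0
    · rw [hF0 p h0, hF0' p h0]; exact hp p (hself p)
    · rw [hF1 p h0, hF1' p h0]
      refine hid p (hc' p p hp ?_) ?_
      · rw [sub_self, norm_zero]; norm_num
      · intro q hq
        exact hp q (closedBall_subset_closedBall (by linarith) hq)

theorem C7_core (X : Type) [NormedAddCommGroup X] [NormedSpace ℝ X] (D : Type) [Fintype D] [DecidableEq D]
    [Nontrivial D] (t : D) : CoreStmt X D t :=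
  C7_of_hat X D t (C6_hat X D t)

end H80.LD
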