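import Pool.Agent.H80.LD.B0a
import Pool.Agent.H80.LD.B0b

/-!
# E0: statements of the intermediate extension theorems

`X` is the parameter space, `D` the set of the other coordinates.  Walls are Lipschitz functions `w : X → ℝ` of the parameter.
-/

open Filter Topology Metric Set

namespace H80.LD

def Lipw {X : Type*} [NormedAddCommGroup X] (l : ℝ) (w : X → ℝ) : Prop := ∀ c c', |w c - w c'| ≤ l * ‖c - c'‖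

/-- taper on the right side of the wall `p.2 t = w p.1` -/
def HTStmt (X : Type) [NormedAddCommGroup X] (D : Type) [Fintype D] (t : D) : Prop :=
  ∀ L : ℝ, 1 ≤ L → ∀ η : ℝ, 0 < η → ∀ l : ℝ, 0 ≤ l → ∃ ε₀ : ℝ, 0 < ε₀ ∧ ∃ C : ℝ, 1 ≤ C ∧
    ∀ ε : ℝ, 0 < ε → ε ≤ ε₀ → ∀ (U : Set (X × (D → ℝ))) (e e' : X × (D → ℝ) → X × (D → ℝ)) (w : X → ℝ), Lipw l w →
      NP ε L U e e' → ∃ F F' : X × (D → ℝ) → X × (D → ℝ),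
        NP (C * ε) C {p : X × (D → ℝ) | (p.2 t < w p.1 ∧ p ∈ U) ∨ closedBall p η ⊆ U ∨ w p.1 + η < p.2 t} F F' ∧
        (∀ p : X × (D → ℝ), p.2 t ≤ w p.1 → F p = e p ∧ F' p = e' p) ∧
        (∀ p : X × (D → ℝ), w p.1 + η ≤ p.2 t → F p = p ∧ F' p = p) ∧
        (∀ p : X × (D → ℝ), (∀ q ∈ closedBall p η, e q = q ∧ e' q = q) → F p = p ∧ F' p = p)

/-- taper on the left side of the wall `p.2 t = w p.1` -/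
def HLStmt (X : Type) [NormedAddCommGroup X] (D : Type) [Fintype D] (t : D) : Prop :=
  ∀ L : ℝ, 1 ≤ L → ∀ η : ℝ, 0 < η → ∀ l : ℝ, 0 ≤ l → ∃ ε₀ : ℝ, 0 < ε₀ ∧ ∃ C : ℝ, 1 ≤ C ∧
    ∀ ε : ℝ, 0 < ε → ε ≤ ε₀ → ∀ (U : Set (X × (D → ℝ))) (e e' : X × (D → ℝ) → X × (D → ℝ)) (w : X → ℝ), Lipw l w →
      NP ε L U e e' → ∃ F F' : X × (D → ℝ) → X × (D → ℝ),
        NP (C * ε) C {p : X × (D → ℝ) | (w p.1 < p.2 t ∧ p ∈ U) ∨ closedBall p η ⊆ U ∨ p.2 t < w p.1 - η} F F' ∧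
        (∀ p : X × (D → ℝ), w p.1 ≤ p.2 t → F p = e p ∧ F' p = e' p) ∧
        (∀ p : X × (D → ℝ), p.2 t ≤ w p.1 - η → F p = p ∧ F' p = p) ∧
        (∀ p : X × (D → ℝ), (∀ q ∈ closedBall p η, e q = q ∧ e' q = q) → F p = p ∧ F' p = p)

/-- taper outside the boxes `w1 i ≤ p.2 i ≤ w2 i`, `i ∈ s` -/
def CTStmt (X : Type) [NormedAddCommGroup X] (D : Type) [Fintype D] (s : Finset D) : Prop :=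
  ∀ L : ℝ, 1 ≤ L → ∀ η : ℝ, 0 < η → ∀ l : ℝ, 0 ≤ l → ∃ ε₀ : ℝ, 0 < ε₀ ∧ ∃ C : ℝ, 1 ≤ C ∧
    ∀ ε : ℝ, 0 < ε → ε ≤ ε₀ → ∀ (U : Set (X × (D → ℝ))) (e e' : X × (D → ℝ) → X × (D → ℝ)) (w1 w2 : D → X → ℝ),
      (∀ i, Lipw l (w1 i) ∧ Lipw l (w2 i)) →
      NP ε L U e e' → ∃ F F' : X × (D → ℝ) → X × (D → ℝ),
        NP (C * ε) C {p : X × (D → ℝ) | closedBall p η ⊆ U} F F' ∧
        (∀ p : X × (D → ℝ), (∀ i ∈ s, w1 i p.1 ≤ p.2 i ∧ p.2 i ≤ w2 i p.1) → F p = e p ∧ F' p = e' p) ∧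
        (∀ p : X × (D → ℝ), (∃ i ∈ s, p.2 i ≤ w1 i p.1 - η ∨ w2 i p.1 + η ≤ p.2 i) → F p = p ∧ F' p = p) ∧
        (∀ p : X × (D → ℝ), (∀ q ∈ closedBall p η, e q = q ∧ e' q = q) → F p = p ∧ F' p = p)

/-- taper outside a ball -/
def BTStmt (X : Type) [NormedAddCommGroup X] (D : Type) [Fintype D] : Prop :=
  ∀ L : ℝ, 1 ≤ L → ∀ ρ₁ ρ₂ η : ℝ, 0 < ρ₁ → ρ₁ < ρ₂ → 0 < η → ∃ ε₀ : ℝ, 0 < ε₀ ∧ ∃ C : ℝ, 1 ≤ C ∧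
    ∀ ε : ℝ, 0 < ε → ε ≤ ε₀ → ∀ (z : X × (D → ℝ)) (U : Set (X × (D → ℝ))) (e e' : X × (D → ℝ) → X × (D → ℝ)),
      NP ε L U e e' → closedBall z (ρ₂ + η) ⊆ U → ∃ F F' : X × (D → ℝ) → X × (D → ℝ),
        NP (C * ε) C univ F F' ∧
        (∀ p ∈ closedBall z ρ₁, F p = e p ∧ F' p = e' p) ∧
        (∀ p, p ∉ closedBall z ρ₂ → F p = p ∧ F' p = p) ∧
        (∀ p : X × (D → ℝ), (∀ q ∈ closedBall p η, e q = q ∧ e' q = q) → F p = p ∧ F' p = p)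

/-- taper outside a separated family of balls -/
def FTStmt (X : Type) [NormedAddCommGroup X] (D : Type) [Fintype D] : Prop :=
  ∀ L : ℝ, 1 ≤ L → ∀ ρ₁ ρ₂ η : ℝ, 0 < ρ₁ → ρ₁ < ρ₂ → 0 < η → ∃ ε₀ : ℝ, 0 < ε₀ ∧ ∃ C : ℝ, 1 ≤ C ∧
    ∀ ε : ℝ, 0 < ε → ε ≤ ε₀ → ∀ (Zs : Set (X × (D → ℝ))), (∀ z ∈ Zs, ∀ z' ∈ Zs, z ≠ z' → 2 * ρ₂ + 2 * η ≤ dist z z') →
      ∀ (U : Set (X × (D → ℝ))) (e e' : X × (D → ℝ) → X × (D → ℝ)),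
      NP ε L U e e' → (∀ z ∈ Zs, closedBall z (ρ₂ + η) ⊆ U) → ∃ F F' : X × (D → ℝ) → X × (D → ℝ),
        NP (C * ε) C univ F F' ∧
        (∀ z ∈ Zs, ∀ p ∈ closedBall z ρ₁, F p = e p ∧ F' p = e' p) ∧
        (∀ p, (∀ z ∈ Zs, p ∉ closedBall z ρ₂) → F p = p ∧ F' p = p) ∧
        (∀ p : X × (D → ℝ), (∀ q ∈ closedBall p η, e q = q ∧ e' q = q) → F p = p ∧ F' p = p)

/-- covering by finitely many separated families -/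
def LatStmt (D : Type) [Fintype D] : Prop :=
  ∀ κ : ℝ, 0 < κ → ∃ (N : ℕ) (Zs : ℕ → Set (ℂ × (D → ℝ))), 0 < N ∧
    (∀ j, ∀ z ∈ Zs j, ∀ z' ∈ Zs j, z ≠ z' → 8 * κ ≤ dist z z') ∧ ∀ p : ℂ × (D → ℝ), ∃ j < N, ∃ z ∈ Zs j, dist p z ≤ κ

/-- after `k` of `N` families -/
def StepStmt (D : Type) [Fintype D] (κ : ℝ) (N : ℕ) (Zs : ℕ → Set (ℂ × (D → ℝ))) (L : ℝ) (k : ℕ) : Prop :=
  ∃ ε₀ : ℝ, 0 < ε₀ ∧ ∃ C : ℝ, 1 ≤ C ∧ ∀ ε : ℝ, 0 < ε → ε ≤ ε₀ →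
    ∀ (U : Set (ℂ × (D → ℝ))) (e e' : ℂ × (D → ℝ) → ℂ × (D → ℝ)), NP ε L U e e' →
      ∃ F F' : ℂ × (D → ℝ) → ℂ × (D → ℝ), NP (C * ε) C univ F F' ∧
        (∀ j < k, ∀ z ∈ Zs j, closedBall z (5 * κ) ⊆ U → ∀ p ∈ closedBall z (κ * (2 - (k : ℝ) / N)),
          F p = e p ∧ F' p = e' p) ∧
        (∀ p, (∀ j < k, ∀ z ∈ Zs j, closedBall z (5 * κ) ⊆ U → p ∉ closedBall z (3 * κ)) → F p = p ∧ F' p = p)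

end H80.LD
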