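import Pool.Agent.H80.LD.E0

/-!
# E1: tapering across a moving wall, from the core theorem

Given `L, η, l` apply `CoreStmt` with `L₁ = (1 + l)^2 L`: `R, ε₁, C₁`.  Put `s = (1 + l) R / η`, `a = s (1 + l)`, `b = (1 + l) / s`, `ε₀ = ε₁ / a`, `C = (1 + l)^2 C₁`.
For a wall `w` (`Lipw l w`): `Φ (c, y) = (s • c, s • (y with y t replaced by y t - w c))`, `Φ' (c, y) = (s⁻¹ • c, s⁻¹ • y with w (s⁻¹ • c) added to the coordinate t)`.  `Φ' Φ = id = Φ Φ'`, `‖Φ p - Φ q‖ ≤ a ‖p - q‖`, `‖Φ' p - Φ' q‖ ≤ b ‖p - q‖`, fibre preserving.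
`B0b_conj`: `NP (a ε) (a b L)` on `{p | Φ' p ∈ U}`, `a b = (1 + l)^2`.  Core gives `G, G'`; `F p = Φ' (G (Φ p))`, `F' p = Φ' (G' (Φ p))`; `B0b_conj` with `Φ'`, `Φ`: `NP (b C₁ a ε) (a b C₁)` on `{p | Φ p ∈ (core set)}`.
`(Φ p).2 t = s (p.2 t - w p.1)`.
* `p.2 t < w p.1`, `p ∈ U`: `(Φ p).2 t < 0`, `Φ' (Φ p) ∈ U`.  `closedBall p η ⊆ U`: for `q ∈ closedBall (Φ p) R`: `‖Φ' q - p‖ ≤ b R = η`.  `w p.1 + η < p.2 t`: `(Φ p).2 t > s η = (1 + l) R ≥ R`.
* values: `p.2 t ≤ w p.1`: `(Φ p).2 t ≤ 0`, `G (Φ p) = Φ (e (Φ' (Φ p)))`.  `w p.1 + η ≤ p.2 t`: `R ≤ (Φ p).2 t`.  Identity: the conjugated pair is the identity on `closedBall (Φ p) R`.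
-/

open Filter Topology Metric Set

namespace H80.LD

open Classical in
/-- straightening and dilating the wall -/
noncomputable def E1_Phi {X D : Type} [NormedAddCommGroup X] [NormedSpace ℝ X] (s : ℝ) (w : X → ℝ) (t : D)
    (p : X × (D → ℝ)) : X × (D → ℝ) := (s • p.1, fun i => s * (p.2 i - if i = t then w p.1 else 0))

open Classical in
/-- the inverse of the straightening -/
noncomputable def E1_Psi {X D : Type} [NormedAddCommGroup X] [NormedSpace ℝ X] (s : ℝ) (w : X → ℝ) (t : D)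
    (p : X × (D → ℝ)) : X × (D → ℝ) :=
  (s⁻¹ • p.1, fun i => s⁻¹ * p.2 i + if i = t then w (s⁻¹ • p.1) else 0)

theorem E1_Psi_Phi {X D : Type} [NormedAddCommGroup X] [NormedSpace ℝ X] {s : ℝ} (hs : 0 < s) (w : X → ℝ) (t : D)
    (p : X × (D → ℝ)) : E1_Psi s w t (E1_Phi s w t p) = p := by
  have h1 : s⁻¹ • s • p.1 = p.1 := by
    rw [smul_smul, inv_mul_cancel₀ hs.ne', one_smul]
  unfold E1_Psi E1_Phi
  refine Prod.ext h1 ?_
  funext i
  simp only [h1]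
  field_simp
  ring

theorem E1_Phi_Psi {X D : Type} [NormedAddCommGroup X] [NormedSpace ℝ X] {s : ℝ} (hs : 0 < s) (w : X → ℝ) (t : D)
    (p : X × (D → ℝ)) : E1_Phi s w t (E1_Psi s w t p) = p := by
  have h1 : s • s⁻¹ • p.1 = p.1 := by
    rw [smul_smul, mul_inv_cancel₀ hs.ne', one_smul]
  unfold E1_Psi E1_Phi
  refine Prod.ext h1 ?_
  funext i
  simp only []
  rw [add_sub_cancel_right, ← mul_assoc, mul_inv_cancel₀ hs.ne', one_mul]

theorem E1_Phi_t {X D : Type} [NormedAddCommGroup X] [NormedSpace ℝ X] (s : ℝ) (w : X → ℝ) (t : D)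
    (p : X × (D → ℝ)) : (E1_Phi s w t p).2 t = s * (p.2 t - w p.1) := by
  unfold E1_Phi
  simp

theorem E1_fst_le {X D : Type} [NormedAddCommGroup X] [Fintype D] (p q : X × (D → ℝ)) :
    ‖p.1 - q.1‖ ≤ ‖p - q‖ := norm_fst_le (p - q)

theorem E1_snd_le {X D : Type} [NormedAddCommGroup X] [Fintype D] (p q : X × (D → ℝ)) (i : D) :
    |p.2 i - q.2 i| ≤ ‖p - q‖ := by
  have h1 := norm_le_pi_norm (p - q).2 i
  have h2 := norm_snd_le (p - q)
  have h3 : ‖(p - q).2 i‖ = |p.2 i - q.2 i| := by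
    rw [Real.norm_eq_abs]
    rfl
  linarith

theorem E1_Phi_lip {X D : Type} [NormedAddCommGroup X] [NormedSpace ℝ X] [Fintype D] {s l : ℝ} (hs : 0 < s)
    (hl : 0 ≤ l) (w : X → ℝ) (hw : Lipw l w) (t : D) (p q : X × (D → ℝ)) :
    ‖E1_Phi s w t p - E1_Phi s w t q‖ ≤ s * (1 + l) * ‖p - q‖ := by
  classical
  have h1 := E1_fst_le p q
  have h0 : 0 ≤ ‖p - q‖ := norm_nonneg _
  have h2 := hw p.1 q.1
  rw [Prod.norm_def]
  refine max_le ?_ ?_
  · have e : (E1_Phi s w t p - E1_Phi s w t q).1 = s • (p.1 - q.1) := by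
      show s • p.1 - s • q.1 = _
      rw [smul_sub]
    rw [e, norm_smul, Real.norm_of_nonneg hs.le]
    have h3 : s * ‖p.1 - q.1‖ ≤ s * ‖p - q‖ := mul_le_mul_of_nonneg_left h1 hs.le
    have h4 : 0 ≤ s * (l * ‖p - q‖) := by positivity
    nlinarith
  · refine (pi_norm_le_iff_of_nonneg (by positivity)).2 fun i => ?_
    have h3 := E1_snd_le p q i
    have h5 : l * ‖p.1 - q.1‖ ≤ l * ‖p - q‖ := mul_le_mul_of_nonneg_left h1 hl
    by_cases hi : i = t
    · have e : (E1_Phi s w t p - E1_Phi s w t q).2 i = s * ((p.2 i - q.2 i) - (w p.1 - w q.1)) := by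
        show s * (p.2 i - if i = t then w p.1 else 0) - s * (q.2 i - if i = t then w q.1 else 0) = _
        rw [if_pos hi, if_pos hi]
        ring
      rw [e, norm_mul, Real.norm_of_nonneg hs.le, Real.norm_eq_abs]
      have h4 : |(p.2 i - q.2 i) - (w p.1 - w q.1)| ≤ (1 + l) * ‖p - q‖ := by
        have := abs_sub (p.2 i - q.2 i) (w p.1 - w q.1)
        linarith
      rw [mul_assoc]
      exact mul_le_mul_of_nonneg_left h4 hs.le
    · have e : (E1_Phi s w t p - E1_Phi s w t q).2 i = s * (p.2 i - q.2 i) := by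
        show s * (p.2 i - if i = t then w p.1 else 0) - s * (q.2 i - if i = t then w q.1 else 0) = _
        rw [if_neg hi, if_neg hi]
        ring
      rw [e, norm_mul, Real.norm_of_nonneg hs.le, Real.norm_eq_abs, mul_assoc]
      refine mul_le_mul_of_nonneg_left ?_ hs.le
      have : 0 ≤ l * ‖p - q‖ := by positivity
      linarith

theorem E1_Psi_lip {X D : Type} [NormedAddCommGroup X] [NormedSpace ℝ X] [Fintype D] {s l : ℝ} (hs : 0 < s)
    (hl : 0 ≤ l) (w : X → ℝ) (hw : Lipw l w) (t : D) (p q : X × (D → ℝ)) :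
    ‖E1_Psi s w t p - E1_Psi s w t q‖ ≤ (1 + l) / s * ‖p - q‖ := by
  classical
  have h1 := E1_fst_le p q
  have h0 : 0 ≤ ‖p - q‖ := norm_nonneg _
  have hi0 : 0 < s⁻¹ := inv_pos.2 hs
  have hb : (1 + l) / s = s⁻¹ * (1 + l) := by rw [div_eq_mul_inv, mul_comm]
  have h2 := hw (s⁻¹ • p.1) (s⁻¹ • q.1)
  have h2' : ‖s⁻¹ • p.1 - s⁻¹ • q.1‖ = s⁻¹ * ‖p.1 - q.1‖ := by
    rw [← smul_sub, norm_smul, Real.norm_of_nonneg hi0.le]
  rw [h2'] at h2
  rw [hb, Prod.norm_def]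
  refine max_le ?_ ?_
  · have e : (E1_Psi s w t p - E1_Psi s w t q).1 = s⁻¹ • p.1 - s⁻¹ • q.1 := rfl
    rw [e, h2']
    have h3 : s⁻¹ * ‖p.1 - q.1‖ ≤ s⁻¹ * ‖p - q‖ := mul_le_mul_of_nonneg_left h1 hi0.le
    have h4 : 0 ≤ s⁻¹ * (l * ‖p - q‖) := by positivity
    nlinarith
  · refine (pi_norm_le_iff_of_nonneg (by positivity)).2 fun i => ?_
    have h3 := E1_snd_le p q i
    have h5 : l * (s⁻¹ * ‖p.1 - q.1‖) ≤ l * (s⁻¹ * ‖p - q‖) :=
      mul_le_mul_of_nonneg_left (mul_le_mul_of_nonneg_left h1 hi0.le) hl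
    have h6 : s⁻¹ * |p.2 i - q.2 i| ≤ s⁻¹ * ‖p - q‖ := mul_le_mul_of_nonneg_left h3 hi0.le
    by_cases hi : i = t
    · have e : (E1_Psi s w t p - E1_Psi s w t q).2 i
          = s⁻¹ * (p.2 i - q.2 i) + (w (s⁻¹ • p.1) - w (s⁻¹ • q.1)) := by
        show (s⁻¹ * p.2 i + if i = t then w (s⁻¹ • p.1) else 0)
          - (s⁻¹ * q.2 i + if i = t then w (s⁻¹ • q.1) else 0) = _
        rw [if_pos hi, if_pos hi]
        ring
      rw [e, Real.norm_eq_abs]
      have h7 := abs_add_le (s⁻¹ * (p.2 i - q.2 i)) (w (s⁻¹ • p.1) - w (s⁻¹ • q.1))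
      rw [abs_mul, abs_of_pos hi0] at h7
      linarith
    · have e : (E1_Psi s w t p - E1_Psi s w t q).2 i = s⁻¹ * (p.2 i - q.2 i) := by
        show (s⁻¹ * p.2 i + if i = t then w (s⁻¹ • p.1) else 0)
          - (s⁻¹ * q.2 i + if i = t then w (s⁻¹ • q.1) else 0) = _
        rw [if_neg hi, if_neg hi]
        ring
      rw [e, norm_mul, Real.norm_of_nonneg hi0.le, Real.norm_eq_abs]
      have h4 : 0 ≤ s⁻¹ * (l * ‖p - q‖) := by positivity
      linarith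

theorem E1_ht (X : Type) [NormedAddCommGroup X] [NormedSpace ℝ X] (D : Type) [Fintype D] (t : D)
    (h : CoreStmt X D t) : HTStmt X D t := by
  intro L hL η hη l hl
  have h1l : (1 : ℝ) ≤ 1 + l := by linarith
  have h1l2 : (1 : ℝ) ≤ (1 + l) ^ 2 := one_le_pow₀ h1l
  have hL1 : (1 : ℝ) ≤ (1 + l) ^ 2 * L := by nlinarith
  obtain ⟨R, hR, ε₁, hε₁, C₁, hC₁, hcore⟩ := h ((1 + l) ^ 2 * L) hL1
  have hR0 : 0 < R := by linarith
  set s : ℝ := (1 + l) * R / η with hs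
  have hs0 : 0 < s := by positivity
  set a : ℝ := s * (1 + l) with ha
  have ha0 : 0 < a := by positivity
  set b : ℝ := (1 + l) / s with hb
  have hb0 : 0 < b := by positivity
  have hab : a * b = (1 + l) ^ 2 := by
    rw [ha, hb]
    field_simp
  have hsη : s * η = (1 + l) * R := by
    rw [hs]
    field_simp
  have hbR : b * R = η := by
    rw [hb, hs]
    field_simp
  refine ⟨ε₁ / a, by positivity, (1 + l) ^ 2 * C₁, by nlinarith, ?_⟩
  intro ε hε hεle U e e' w hw hNP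
  have hconj := B0b_conj hNP ha0.le hb0.le (by linarith) (E1_Phi s w t) (E1_Psi s w t)
    (E1_Psi_Phi hs0 w t) (E1_Phi_Psi hs0 w t) (E1_Phi_lip hs0 hl w hw t) (E1_Psi_lip hs0 hl w hw t)
    (fun p q hpq => by show s • p.1 = s • q.1; rw [hpq])
  rw [hab] at hconj
  have haε : a * ε ≤ ε₁ := by
    rw [le_div_iff₀ ha0] at hεle
    linarith
  obtain ⟨G, G', hG, hG1, hG2, hG3⟩ := hcore (a * ε) (by positivity) haε _ _ _ hconj
  have hfin := B0b_conj hG hb0.le ha0.le (by linarith) (E1_Psi s w t) (E1_Phi s w t)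
    (E1_Phi_Psi hs0 w t) (E1_Psi_Phi hs0 w t) (E1_Psi_lip hs0 hl w hw t) (E1_Phi_lip hs0 hl w hw t)
    (fun p q hpq => by show s⁻¹ • p.1 = s⁻¹ • q.1; rw [hpq])
  have hball : ∀ p : X × (D → ℝ), ∀ q ∈ closedBall (E1_Phi s w t p) R, E1_Psi s w t q ∈ closedBall p η := by
    intro p q hq
    rw [mem_closedBall, dist_eq_norm] at hq ⊢
    have h3 := E1_Psi_lip hs0 hl w hw t q (E1_Phi s w t p)
    rw [E1_Psi_Phi hs0 w t p] at h3
    calc ‖E1_Psi s w t q - p‖ ≤ b * ‖q - E1_Phi s w t p‖ := h3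
      _ ≤ b * R := mul_le_mul_of_nonneg_left hq hb0.le
      _ = η := hbR
  refine ⟨fun p => E1_Psi s w t (G (E1_Phi s w t p)), fun p => E1_Psi s w t (G' (E1_Phi s w t p)),
    ?_, ?_, ?_, ?_⟩
  · refine B0b_mono hfin (le_of_eq ?_) (le_of_eq ?_) ?_
    · calc b * (C₁ * (a * ε)) = (a * b) * C₁ * ε := by ring
        _ = (1 + l) ^ 2 * C₁ * ε := by rw [hab]
    · calc b * a * C₁ = (a * b) * C₁ := by ring
        _ = (1 + l) ^ 2 * C₁ := by rw [hab]
    · intro p hp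
      show E1_Phi s w t p ∈ {p : X × (D → ℝ) | _}
      rcases hp with ⟨h3, h4⟩ | h3 | h3
      · left
        refine ⟨?_, ?_⟩
        · rw [E1_Phi_t]
          exact mul_neg_of_pos_of_neg hs0 (by linarith)
        · show E1_Psi s w t (E1_Phi s w t p) ∈ U
          rw [E1_Psi_Phi hs0]
          exact h4
      · right; left
        intro q hq
        exact h3 (hball p q hq)
      · right; right
        show R < (E1_Phi s w t p).2 t
        rw [E1_Phi_t]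
        have h5 : s * η < s * (p.2 t - w p.1) := mul_lt_mul_of_pos_left (by linarith) hs0
        nlinarith
  · intro p hp
    have h3 : (E1_Phi s w t p).2 t ≤ 0 := by
      rw [E1_Phi_t]
      exact mul_nonpos_of_nonneg_of_nonpos hs0.le (by linarith)
    obtain ⟨h4, h5⟩ := hG1 _ h3
    constructor
    · show E1_Psi s w t (G (E1_Phi s w t p)) = e p
      rw [h4, E1_Psi_Phi hs0, E1_Psi_Phi hs0]
    · show E1_Psi s w t (G' (E1_Phi s w t p)) = e' p
      rw [h5, E1_Psi_Phi hs0, E1_Psi_Phi hs0]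
  · intro p hp
    have h3 : R ≤ (E1_Phi s w t p).2 t := by
      rw [E1_Phi_t]
      have h5 : s * η ≤ s * (p.2 t - w p.1) := mul_le_mul_of_nonneg_left (by linarith) hs0.le
      nlinarith
    obtain ⟨h4, h5⟩ := hG2 _ h3
    constructor
    · show E1_Psi s w t (G (E1_Phi s w t p)) = p
      rw [h4, E1_Psi_Phi hs0]
    · show E1_Psi s w t (G' (E1_Phi s w t p)) = p
      rw [h5, E1_Psi_Phi hs0]
  · intro p hp
    have h3 : ∀ q ∈ closedBall (E1_Phi s w t p) R,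
        E1_Phi s w t (e (E1_Psi s w t q)) = q ∧ E1_Phi s w t (e' (E1_Psi s w t q)) = q := by
      intro q hq
      obtain ⟨h4, h5⟩ := hp _ (hball p q hq)
      rw [h4, h5, E1_Phi_Psi hs0]
      exact ⟨rfl, rfl⟩
    obtain ⟨h4, h5⟩ := hG3 _ h3
    constructor
    · show E1_Psi s w t (G (E1_Phi s w t p)) = p
      rw [h4, E1_Psi_Phi hs0]
    · show E1_Psi s w t (G' (E1_Phi s w t p)) = p
      rw [h5, E1_Psi_Phi hs0]

end H80.LD
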