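import Pool.Agent.H80.LD.E0

/-!
# E2: reflection, and induction over the coordinates

* `E2_hl`: conjugation of `HTStmt` with the reflection `Φ (c, y) = (c, y with y t replaced by - y t)` (an involutive isometry preserving the first component), wall `- w`.
* `E2_empty`: `F = e`, `F' = e'`: `ε₀ = 1`, `C = L`; `closedBall p η ⊆ U` implies `p ∈ U`.
* `E2_step`: `i ∉ s`.  Given `L, η, l` put `η₁ = η/2`, `η₂ = η/(8 (1 + l))`.  `CTStmt s` with `(L, η₁, l)`: `ε₁, C₁`; `HLStmt` for `i` with `(C₁, η₂, l)`: `ε₂, C₂`; `HTStmt` for `i` with `(C₂, η₂, l)`: `ε₃, C₃`.  `ε₀ = min ε₁ (min (ε₂/C₁) (ε₃/(C₁ C₂)))`, `C = C₁ C₂ C₃`.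
  `F₁` from `CTStmt s` (NP on `U₁ = {closedBall p η₁ ⊆ U}`), `F₂` from `HLStmt` with wall `w1 i` applied to `F₁, U₁` (NP on a set containing `U₂ = {closedBall p η₂ ⊆ U₁}`), `F₃` from `HTStmt` with wall `w2 i` applied to `F₂, U₂` (NP on a set containing `{closedBall p η₂ ⊆ U₂}`,
  which contains `{closedBall p η ⊆ U}` since `η₁ + 2 η₂ ≤ η`).
  keep: `w1 i ≤ p.2 i ≤ w2 i`: `F₃ p = F₂ p = F₁ p = e p` (conditions for `j ∈ s`).
  identity outside: `w2 i p.1 + η ≤ p.2 i`: `F₃ p = p` as `η₂ ≤ η`.  `p.2 i ≤ w1 i p.1 - η`: for `q ∈ closedBall p η₂`, `q.2 i ≤ p.2 i + η₂ ≤ w1 i q.1 + l η₂ - η + η₂ ≤ w1 i q.1 - η₂`, so `F₂ q = q`; identity property of `F₃`.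
  `p.2 j ≤ w1 j p.1 - η`, `j ∈ s` (or `w2 j p.1 + η ≤ p.2 j`): for `‖q - p‖ ≤ 2 η₂`: `q.2 j ≤ w1 j q.1 - η₁` (as `2 η₂ (1 + l) ≤ η/2`), so `F₁ q = q`; hence `F₂ q = q` for `‖q - p‖ ≤ η₂` and `F₃ p = p`.
  identity property: same with `η₁ + 2 η₂ ≤ η`.  (Write one lemma for each of `F`, `F'`; or treat pairs.)
* `E2_ct`: `Finset.induction_on`.
-/

open Filter Topology Metric Set

namespace H80.LD

open Classical in
/-- reflection of the coordinate `t` -/
noncomputable def E2_R {X D : Type*} (t : D) (p : X × (D → ℝ)) : X × (D → ℝ) :=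
  (p.1, fun i => if i = t then -(p.2 i) else p.2 i)

theorem E2_R_R {X D : Type*} (t : D) (p : X × (D → ℝ)) : E2_R t (E2_R t p) = p := by
  unfold E2_R
  refine Prod.ext rfl ?_
  funext i
  by_cases h : i = t
  · simp [h]
  · simp [h]

theorem E2_R_t {X D : Type*} (t : D) (p : X × (D → ℝ)) : (E2_R t p).2 t = -(p.2 t) := by
  unfold E2_R
  simp

theorem E2_R_norm {X : Type*} [NormedAddCommGroup X] {D : Type*} [Fintype D] (t : D)
    (p q : X × (D → ℝ)) : ‖E2_R t p - E2_R t q‖ ≤ 1 * ‖p - q‖ := by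
  rw [one_mul, Prod.norm_def]
  apply max_le
  · exact norm_fst_le (p - q)
  · refine (pi_norm_le_iff_of_nonneg (norm_nonneg _)).mpr ?_
    intro i
    have h1 : ‖(p - q).2 i‖ ≤ ‖p - q‖ := (norm_le_pi_norm (p - q).2 i).trans (norm_snd_le (p - q))
    by_cases h : i = t
    · have h2 : (E2_R t p - E2_R t q).2 i = -((p - q).2 i) := by
        subst h
        change (E2_R i p).2 i - (E2_R i q).2 i = -(p.2 i - q.2 i)
        rw [E2_R_t, E2_R_t]
        ring
      rw [h2, norm_neg]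
      exact h1
    · have h2 : (E2_R t p - E2_R t q).2 i = (p - q).2 i := by
        simp [E2_R, h]
      rw [h2]
      exact h1

theorem E2_R_ball {X : Type*} [NormedAddCommGroup X] {D : Type*} [Fintype D] (t : D)
    (p q : X × (D → ℝ)) (η : ℝ) (h : q ∈ closedBall (E2_R t p) η) : E2_R t q ∈ closedBall p η := by
  rw [mem_closedBall, dist_eq_norm] at h ⊢
  have h1 := E2_R_norm t q (E2_R t p)
  rw [E2_R_R, one_mul] at h1
  exact h1.trans h

theorem E2_hl (X : Type) [NormedAddCommGroup X] (D : Type) [Fintype D] (t : D) (h : HTStmt X D t) : HLStmt X D t := by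
  intro L hL η hη l hl
  obtain ⟨ε₀, hε₀, C, hC, H⟩ := h L hL η hη l hl
  refine ⟨ε₀, hε₀, C, hC, ?_⟩
  intro ε hε hεε U e e' w hw hN
  have hL0 : 0 ≤ L := zero_le_one.trans hL
  have hC0 : 0 ≤ C := zero_le_one.trans hC
  have hN1 := B0b_conj hN zero_le_one zero_le_one hL0 (E2_R t) (E2_R t) (E2_R_R t) (E2_R_R t)
    (E2_R_norm t) (E2_R_norm t) (fun p q hpq => hpq)
  have hN2 : NP ε L {p : X × (D → ℝ) | E2_R t p ∈ U} (fun p => E2_R t (e (E2_R t p)))
      (fun p => E2_R t (e' (E2_R t p))) :=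
    B0b_mono hN1 (by rw [one_mul]) (by rw [one_mul, one_mul]) subset_rfl
  have hw' : Lipw l (fun c => -(w c)) := by
    intro c c'
    have := hw c c'
    have e1 : -(w c) - -(w c') = -(w c - w c') := by ring
    rw [e1, abs_neg]
    exact this
  obtain ⟨G, G', hG, g1, g2, g3⟩ := H ε hε hεε _ _ _ _ hw' hN2
  have hG1 := B0b_conj hG zero_le_one zero_le_one hC0 (E2_R t) (E2_R t) (E2_R_R t) (E2_R_R t)
    (E2_R_norm t) (E2_R_norm t) (fun p q hpq => hpq)
  refine ⟨fun p => E2_R t (G (E2_R t p)), fun p => E2_R t (G' (E2_R t p)), ?_, ?_, ?_, ?_⟩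
  · refine B0b_mono hG1 (by rw [one_mul]) (by rw [one_mul, one_mul]) ?_
    rintro p (⟨h1, h2⟩ | h1 | h1)
    · left
      refine ⟨?_, ?_⟩
      · rw [E2_R_t]
        exact neg_lt_neg h1
      · change E2_R t (E2_R t p) ∈ U
        rw [E2_R_R]
        exact h2
    · right
      left
      intro q hq
      exact h1 (E2_R_ball t p q η hq)
    · right
      right
      rw [E2_R_t]
      change -(w p.1) + η < -(p.2 t)
      linarith
  · intro p hp
    have := g1 (E2_R t p) (by rw [E2_R_t]; exact neg_le_neg hp)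
    constructor
    · change E2_R t (G (E2_R t p)) = e p
      rw [this.1, E2_R_R, E2_R_R]
    · change E2_R t (G' (E2_R t p)) = e' p
      rw [this.2, E2_R_R, E2_R_R]
  · intro p hp
    have := g2 (E2_R t p) (by
      rw [E2_R_t]
      change -(w p.1) + η ≤ -(p.2 t)
      linarith)
    constructor
    · change E2_R t (G (E2_R t p)) = p
      rw [this.1, E2_R_R]
    · change E2_R t (G' (E2_R t p)) = p
      rw [this.2, E2_R_R]
  · intro p hp
    have := g3 (E2_R t p) (by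
      intro q hq
      have h1 := hp _ (E2_R_ball t p q η hq)
      constructor
      · rw [h1.1, E2_R_R]
      · rw [h1.2, E2_R_R])
    constructor
    · change E2_R t (G (E2_R t p)) = p
      rw [this.1, E2_R_R]
    · change E2_R t (G' (E2_R t p)) = p
      rw [this.2, E2_R_R]

theorem E2_empty (X : Type) [NormedAddCommGroup X] (D : Type) [Fintype D] : CTStmt X D ∅ := by
  intro L hL η hη l hl
  refine ⟨1, one_pos, L, hL, ?_⟩
  intro ε hε _ U e e' w1 w2 _ hN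
  refine ⟨e, e', ?_, ?_, ?_, ?_⟩
  · refine B0b_mono hN (by nlinarith) le_rfl ?_
    intro p hp
    exact hp (mem_closedBall_self hη.le)
  · intro p _
    exact ⟨rfl, rfl⟩
  · rintro p ⟨i, hi, -⟩
    exact absurd hi (Finset.notMem_empty i)
  · intro p hp
    exact hp p (mem_closedBall_self hη.le)

theorem E2_coord {X : Type*} [NormedAddCommGroup X] {D : Type*} [Fintype D] (p q : X × (D → ℝ))
    (δ : ℝ) (h : ‖q - p‖ ≤ δ) (j : D) (l : ℝ) (hl : 0 ≤ l) (w : X → ℝ) (hw : Lipw l w) :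
    |q.2 j - p.2 j| ≤ δ ∧ |w q.1 - w p.1| ≤ l * δ := by
  constructor
  · have h1 : ‖(q - p).2 j‖ ≤ ‖q - p‖ := (norm_le_pi_norm (q - p).2 j).trans (norm_snd_le (q - p))
    exact h1.trans h
  · have h1 : ‖q.1 - p.1‖ ≤ ‖q - p‖ := norm_fst_le (q - p)
    exact (hw q.1 p.1).trans (mul_le_mul_of_nonneg_left (h1.trans h) hl)

theorem E2_prop {X : Type*} [NormedAddCommGroup X] {D : Type*} [Fintype D]
    {F₁ F₁' F₂ F₂' F₃ F₃' : X × (D → ℝ) → X × (D → ℝ)} {η₂ : ℝ}
    (i2 : ∀ p : X × (D → ℝ), (∀ q ∈ closedBall p η₂, F₁ q = q ∧ F₁' q = q) → F₂ p = p ∧ F₂' p = p)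
    (i3 : ∀ p : X × (D → ℝ), (∀ q ∈ closedBall p η₂, F₂ q = q ∧ F₂' q = q) → F₃ p = p ∧ F₃' p = p)
    (p : X × (D → ℝ)) (h : ∀ q, ‖q - p‖ ≤ 2 * η₂ → F₁ q = q ∧ F₁' q = q) :
    F₃ p = p ∧ F₃' p = p := by
  apply i3
  intro q hq
  apply i2
  intro r hr
  apply h
  rw [mem_closedBall, dist_eq_norm] at hq hr
  calc ‖r - p‖ = ‖(r - q) + (q - p)‖ := by congr 1; abel
    _ ≤ ‖r - q‖ + ‖q - p‖ := norm_add_le _ _
    _ ≤ 2 * η₂ := by linarith

theorem E2_step (X : Type) [NormedAddCommGroup X] (D : Type) [Fintype D] [DecidableEq D] (s : Finset D) (i : D)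
    (hi : i ∉ s) (h : CTStmt X D s) (h1 : HTStmt X D i) (h2 : HLStmt X D i) : CTStmt X D (insert i s) := by
  intro L hL η hη l hl
  have h8 : 0 < 8 * (1 + l) := by linarith
  have hη₁ : 0 < η / 2 := by linarith
  have hη₂ : 0 < η / (8 * (1 + l)) := div_pos hη h8
  have hη₂e : 8 * (1 + l) * (η / (8 * (1 + l))) = η := by field_simp
  generalize hη₂d : η / (8 * (1 + l)) = η₂ at hη₂ hη₂e
  have hη₂l : 0 ≤ l * η₂ := mul_nonneg hl hη₂.le
  obtain ⟨ε₁, hε₁, C₁, hC₁, H₁⟩ := h L hL (η / 2) hη₁ l hl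
  obtain ⟨ε₂, hε₂, C₂, hC₂, H₂⟩ := h2 C₁ hC₁ η₂ hη₂ l hl
  obtain ⟨ε₃, hε₃, C₃, hC₃, H₃⟩ := h1 C₂ hC₂ η₂ hη₂ l hl
  have hC₁0 : 0 < C₁ := by linarith
  have hC₂0 : 0 < C₂ := by linarith
  have hC₃0 : 0 < C₃ := by linarith
  have hC12 : 1 ≤ C₁ * C₂ := one_le_mul_of_one_le_of_one_le hC₁ hC₂
  refine ⟨min ε₁ (min (ε₂ / C₁) (ε₃ / (C₁ * C₂))), by positivity, C₁ * C₂ * C₃,
    one_le_mul_of_one_le_of_one_le hC12 hC₃, ?_⟩
  intro ε hε hεε U e e' w1 w2 hw hN
  have b1 : ε ≤ ε₁ := hεε.trans (min_le_left _ _)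
  have b2 : C₁ * ε ≤ ε₂ := by
    have := hεε.trans ((min_le_right _ _).trans (min_le_left _ _))
    rw [le_div_iff₀ hC₁0] at this
    linarith
  have b3 : C₂ * (C₁ * ε) ≤ ε₃ := by
    have := hεε.trans ((min_le_right _ _).trans (min_le_right _ _))
    rw [le_div_iff₀ (by positivity)] at this
    linarith
  obtain ⟨F₁, F₁', n1, k1, o1, i1⟩ := H₁ ε hε b1 U e e' w1 w2 hw hN
  obtain ⟨F₂, F₂', n2, k2, o2, i2⟩ := H₂ (C₁ * ε) (by positivity) b2 _ F₁ F₁' (w1 i) (hw i).1 n1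
  have n2' : NP (C₂ * (C₁ * ε)) C₂
      {p : X × (D → ℝ) | closedBall p η₂ ⊆ {p : X × (D → ℝ) | closedBall p (η / 2) ⊆ U}} F₂ F₂' :=
    B0b_mono n2 le_rfl le_rfl (fun p hp => Or.inr (Or.inl hp))
  obtain ⟨F₃, F₃', n3, k3, o3, i3⟩ := H₃ (C₂ * (C₁ * ε)) (by positivity) b3 _ F₂ F₂' (w2 i)
    (hw i).2 n2'
  refine ⟨F₃, F₃', ?_, ?_, ?_, ?_⟩
  · refine B0b_mono n3 (le_of_eq (by ring)) ?_ ?_
    · calc C₃ = 1 * C₃ := (one_mul _).symm
        _ ≤ C₁ * C₂ * C₃ := mul_le_mul_of_nonneg_right hC12 hC₃0.le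
    · intro p hp
      right
      left
      intro q hq r hr s' hs'
      apply hp
      rw [mem_closedBall] at hq hr hs' ⊢
      have t1 := dist_triangle s' r p
      have t2 := dist_triangle r q p
      nlinarith
  · intro p hp
    have hpi := hp i (Finset.mem_insert_self i s)
    have a1 := k1 p (fun j hj => hp j (Finset.mem_insert_of_mem hj))
    have a2 := k2 p hpi.1
    have a3 := k3 p hpi.2
    exact ⟨a3.1.trans (a2.1.trans a1.1), a3.2.trans (a2.2.trans a1.2)⟩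
  · rintro p ⟨j, hj, hjp⟩
    rcases Finset.mem_insert.mp hj with rfl | hjs
    · rcases hjp with hjp | hjp
      · apply i3
        intro q hq
        apply o2
        rw [mem_closedBall, dist_eq_norm] at hq
        obtain ⟨c1, c2⟩ := E2_coord p q η₂ hq j l hl (w1 j) (hw j).1
        rw [abs_le] at c1 c2
        nlinarith [c1.2, c2.1]
      · apply o3
        nlinarith
    · apply E2_prop i2 i3
      intro q hq
      apply o1
      refine ⟨j, hjs, ?_⟩
      rcases hjp with hjp | hjp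
      · left
        obtain ⟨c1, c2⟩ := E2_coord p q (2 * η₂) hq j l hl (w1 j) (hw j).1
        rw [abs_le] at c1 c2
        nlinarith [c1.2, c2.1]
      · right
        obtain ⟨c1, c2⟩ := E2_coord p q (2 * η₂) hq j l hl (w2 j) (hw j).2
        rw [abs_le] at c1 c2
        nlinarith [c1.1, c2.2]
  · intro p hp
    apply E2_prop i2 i3
    intro q hq
    apply i1
    intro r hr
    apply hp
    rw [mem_closedBall, dist_eq_norm] at hr ⊢
    calc ‖r - p‖ = ‖(r - q) + (q - p)‖ := by congr 1; abel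
      _ ≤ ‖r - q‖ + ‖q - p‖ := norm_add_le _ _
      _ ≤ η / 2 + 2 * η₂ := add_le_add hr hq
      _ ≤ η := by nlinarith

theorem E2_ct (X : Type) [NormedAddCommGroup X] (D : Type) [Fintype D] (h : ∀ t : D, HTStmt X D t) :
    CTStmt X D Finset.univ := by
  classical
  exact Finset.induction_on Finset.univ (E2_empty X D)
    (fun i s hi ih => E2_step X D s i hi ih (h i) (E2_hl X D i (h i)))

end H80.LD
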