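import Pool.Agent.H80.LD.E0

/-!
# E3: tapering outside a ball

Given `L, ρ₁ < ρ₂, η`: `δ = ρ₂ - ρ₁`, `η' = min η (δ/4)`, `l = 4 (ρ₁ + η')/δ`.  `CTStmt univ` with `(L, η', l)`: `ε₁, C`.  `ε₀ = min ε₁ (δ/(4 C))`.  Walls `w1 i c = z.2 i - ρ₁`, `w2 i c = z.2 i + ρ₁ - l * max 0 (‖c - z.1‖ - ρ₁)` (Lipschitz with constant `l`).
`F, F'` as given by `CTStmt`.
* `p ∈ closedBall z ρ₁`: `‖p.1 - z.1‖ ≤ ρ₁`, `|p.2 i - z.2 i| ≤ ρ₁`: `F p = e p`.
* (*) `p ∉ closedBall z (ρ₁ + δ/2)`: `F p = p`, `F' p = p`.  If `|p.2 i - z.2 i| > ρ₁ + δ/2` for some `i`: `p.2 i ≤ w1 i - η'` or `p.2 i ≥ z.2 i + ρ₁ + η' ≥ w2 i p.1 + η'`.  If `‖p.1 - z.1‖ > ρ₁ + δ/2`: `w2 i p.1 ≤ z.2 i + ρ₁ - l δ/2 = z.2 i + ρ₁ - 2 (ρ₁ + η')`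
  `= z.2 i - ρ₁ - 2 η'` for all `i` (`D` nonempty, take any `i`), so `p.2 i ≥ w2 i p.1 + η'` or `p.2 i < z.2 i - ρ₁ - η' = w1 i - η'`.
* NP on `univ`: let `B = closedBall z ρ₂`; for `p ∈ B`: `closedBall p η' ⊆ closedBall z (ρ₂ + η) ⊆ U`, so `p` is in the NP set.  disp, lip at `p ∈ B`: NP; at `p ∉ B`: `F = id` near `p` by (*) (complement of the smaller closed ball is open).
  inv: `p ∉ closedBall z (ρ₁ + δ/2)`: `F p = p = F' p`.  Otherwise `p ∈ B` and `F p ∈ closedBall z (ρ₁ + δ/2 + C ε) ⊆ B`: NP inv.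
* `p ∉ closedBall z ρ₂`: (*).  Identity property: `η' ≤ η`.
-/

open Filter Topology Metric Set

namespace H80.LD

theorem E3_far {X : Type} [NormedAddCommGroup X] {D : Type} [Fintype D] [Nonempty D]
    (z p : X × (D → ℝ)) (ρ₁ δ η' : ℝ) (hδ : 0 < δ) (hρ : 0 < ρ₁) (hη : 0 < η')
    (hη' : η' ≤ δ / 4) (hp : p ∉ closedBall z (ρ₁ + δ / 2)) :
    ∃ i ∈ (Finset.univ : Finset D), p.2 i ≤ z.2 i - ρ₁ - η' ∨
      z.2 i + ρ₁ - 4 * (ρ₁ + η') / δ * max 0 (‖p.1 - z.1‖ - ρ₁) + η' ≤ p.2 i := by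
  rw [mem_closedBall, Prod.dist_eq, max_le_iff, not_and_or] at hp
  have hl : 0 ≤ 4 * (ρ₁ + η') / δ := by positivity
  rcases hp with hp | hp
  · rw [not_le, dist_eq_norm] at hp
    obtain ⟨i⟩ := ‹Nonempty D›
    refine ⟨i, Finset.mem_univ _, ?_⟩
    have h1 : δ / 2 ≤ max 0 (‖p.1 - z.1‖ - ρ₁) := le_trans (by linarith) (le_max_right _ _)
    have h2 := mul_le_mul_of_nonneg_left h1 hl
    have h3 : 4 * (ρ₁ + η') / δ * (δ / 2) = 2 * (ρ₁ + η') := by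
      field_simp
      ring
    rw [h3] at h2
    rcases le_total (z.2 i + ρ₁ - 4 * (ρ₁ + η') / δ * max 0 (‖p.1 - z.1‖ - ρ₁) + η') (p.2 i) with h | h
    · exact Or.inr h
    · left
      linarith
  · have h1 : ∃ i, ¬ dist (p.2 i) (z.2 i) ≤ ρ₁ + δ / 2 := by
      by_contra hcon
      push Not at hcon
      exact hp ((dist_pi_le_iff (by positivity)).2 hcon)
    obtain ⟨i, hi⟩ := h1
    refine ⟨i, Finset.mem_univ _, ?_⟩
    rw [not_le, Real.dist_eq, lt_abs] at hi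
    have h2 : 0 ≤ 4 * (ρ₁ + η') / δ * max 0 (‖p.1 - z.1‖ - ρ₁) := mul_nonneg hl (le_max_left _ _)
    rcases hi with hi | hi
    · right
      linarith
    · left
      linarith

theorem E3_lipw {X : Type} [NormedAddCommGroup X] (c₀ : X) (a l ρ₁ : ℝ) (hl : 0 ≤ l) :
    Lipw l (fun c : X => a - l * max 0 (‖c - c₀‖ - ρ₁)) := by
  intro c c'
  have e : (a - l * max 0 (‖c - c₀‖ - ρ₁)) - (a - l * max 0 (‖c' - c₀‖ - ρ₁)) =
      -(l * (max (‖c - c₀‖ - ρ₁) 0 - max (‖c' - c₀‖ - ρ₁) 0)) := by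
    rw [max_comm 0, max_comm 0]
    ring
  show |(a - l * max 0 (‖c - c₀‖ - ρ₁)) - (a - l * max 0 (‖c' - c₀‖ - ρ₁))| ≤ l * ‖c - c'‖
  rw [e, abs_neg, abs_mul, abs_of_nonneg hl]
  refine mul_le_mul_of_nonneg_left ?_ hl
  refine (abs_max_sub_max_le_abs _ _ _).trans ?_
  have e2 : ‖c - c₀‖ - ρ₁ - (‖c' - c₀‖ - ρ₁) = ‖c - c₀‖ - ‖c' - c₀‖ := by ring
  rw [e2]
  refine (abs_norm_sub_norm_le _ _).trans ?_
  rw [sub_sub_sub_cancel_right]

/-- one half of the conditions -/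
theorem E3_half {X V : Type} [NormedAddCommGroup X] [NormedAddCommGroup V] (z : X × V)
    (F F' : X × V → X × V) (ρ₁ δ C ε : ℝ) (hδ : 0 < δ) (hC : 1 ≤ C) (hε : 0 < ε)
    (hCε : C * ε ≤ δ / 4)
    (hfar : ∀ p, p ∉ closedBall z (ρ₁ + δ / 2) → F p = p ∧ F' p = p)
    (hdisp : ∀ p ∈ closedBall z (ρ₁ + δ), ‖F p - p‖ ≤ C * ε)
    (hlip : ∀ p ∈ closedBall z (ρ₁ + δ), ∀ᶠ q in 𝓝 p, ‖F q - F p‖ ≤ C * ‖q - p‖)
    (hinv : ∀ p ∈ closedBall z (ρ₁ + δ), F p ∈ closedBall z (ρ₁ + δ) → F' (F p) = p) :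
    (∀ p, ‖F p - p‖ ≤ C * ε) ∧ (∀ p, ∀ᶠ q in 𝓝 p, ‖F q - F p‖ ≤ C * ‖q - p‖) ∧
      ∀ p, F' (F p) = p := by
  refine ⟨?_, ?_, ?_⟩
  · intro p
    by_cases hp : p ∈ closedBall z (ρ₁ + δ)
    · exact hdisp p hp
    · have h1 : p ∉ closedBall z (ρ₁ + δ / 2) := fun h =>
        hp (closedBall_subset_closedBall (by linarith) h)
      rw [(hfar p h1).1, sub_self, norm_zero]
      positivity
  · intro p
    by_cases hp : p ∈ closedBall z (ρ₁ + δ)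
    · exact hlip p hp
    · have h1 : p ∉ closedBall z (ρ₁ + δ / 2) := fun h =>
        hp (closedBall_subset_closedBall (by linarith) h)
      filter_upwards [isClosed_closedBall.isOpen_compl.mem_nhds h1] with q hq
      rw [(hfar p h1).1, (hfar q hq).1]
      exact le_mul_of_one_le_left (norm_nonneg _) hC
  · intro p
    by_cases hp : p ∈ closedBall z (ρ₁ + δ / 2)
    · have h1 : p ∈ closedBall z (ρ₁ + δ) := closedBall_subset_closedBall (by linarith) hp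
      refine hinv p h1 ?_
      rw [mem_closedBall] at hp ⊢
      have h2 := hdisp p h1
      rw [← dist_eq_norm] at h2
      calc dist (F p) z ≤ dist (F p) p + dist p z := dist_triangle _ _ _
        _ ≤ ρ₁ + δ := by linarith
    · rw [(hfar p hp).1, (hfar p hp).2]

theorem E3_bt (X : Type) [NormedAddCommGroup X] (D : Type) [Fintype D] [Nonempty D] (h : CTStmt X D Finset.univ) :
    BTStmt X D := by
  intro L hL ρ₁ ρ₂ η hρ₁ hρ₂ hη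
  obtain ⟨δ, hδd⟩ : ∃ δ, δ = ρ₂ - ρ₁ := ⟨_, rfl⟩
  have hδ : 0 < δ := by rw [hδd]; linarith
  have hρ : ρ₂ = ρ₁ + δ := by rw [hδd]; ring
  obtain ⟨η', hη'd⟩ : ∃ η', η' = min η (δ / 4) := ⟨_, rfl⟩
  have hη' : 0 < η' := by rw [hη'd]; exact lt_min hη (by positivity)
  have hη'1 : η' ≤ η := by rw [hη'd]; exact min_le_left _ _
  have hη'2 : η' ≤ δ / 4 := by rw [hη'd]; exact min_le_right _ _
  have hl : 0 ≤ 4 * (ρ₁ + η') / δ := by positivity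
  obtain ⟨ε₁, hε₁, C, hC, key⟩ := h L hL η' hη' (4 * (ρ₁ + η') / δ) hl
  have hC0 : 0 < C := by linarith
  refine ⟨min ε₁ (δ / (4 * C)), lt_min hε₁ (by positivity), C, hC, ?_⟩
  intro ε hε hεle z U e e' hNP hU
  have hε1 : ε ≤ ε₁ := hεle.trans (min_le_left _ _)
  have hε2 : C * ε ≤ δ / 4 := by
    have h1 : ε ≤ δ / (4 * C) := hεle.trans (min_le_right _ _)
    have h2 := mul_le_mul_of_nonneg_left h1 hC0.le
    have h3 : C * (δ / (4 * C)) = δ / 4 := by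
      field_simp
    linarith
  obtain ⟨F, F', hF, hin, hout, hid⟩ := key ε hε hε1 U e e' (fun i _ => z.2 i - ρ₁)
    (fun i c => z.2 i + ρ₁ - 4 * (ρ₁ + η') / δ * max 0 (‖c - z.1‖ - ρ₁))
    (fun i => ⟨fun c c' => by
      show |(z.2 i - ρ₁) - (z.2 i - ρ₁)| ≤ _
      rw [sub_self, abs_zero]
      positivity, E3_lipw z.1 (z.2 i + ρ₁) _ ρ₁ hl⟩) hNP
  have hfar : ∀ p, p ∉ closedBall z (ρ₁ + δ / 2) → F p = p ∧ F' p = p := fun p hp =>
    hout p (E3_far z p ρ₁ δ η' hδ hρ₁ hη' hη'2 hp)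
  have hset : ∀ p ∈ closedBall z (ρ₁ + δ), p ∈ {p : X × (D → ℝ) | closedBall p η' ⊆ U} := by
    intro p hp q hq
    apply hU
    rw [mem_closedBall] at hp hq ⊢
    calc dist q z ≤ dist q p + dist p z := dist_triangle _ _ _
      _ ≤ ρ₂ + η := by linarith
  have h1 := E3_half z F F' ρ₁ δ C ε hδ hC hε hε2 hfar (fun p hp => hF.disp p (hset p hp))
    (fun p hp => hF.lip p (hset p hp)) (fun p hp hp' => hF.inv p (hset p hp) (hset _ hp'))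
  have h2 := E3_half z F' F ρ₁ δ C ε hδ hC hε hε2 (fun p hp => (hfar p hp).symm)
    (fun p hp => hF.disp' p (hset p hp)) (fun p hp => hF.lip' p (hset p hp))
    (fun p hp hp' => hF.inv' p (hset p hp) (hset _ hp'))
  refine ⟨F, F', ⟨hF.pres, hF.pres', fun p _ => h1.1 p, fun p _ => h2.1 p, fun p _ => h1.2.1 p,
    fun p _ => h2.2.1 p, fun p _ _ => h1.2.2 p, fun p _ _ => h2.2.2 p⟩, ?_, ?_, ?_⟩
  · intro p hp
    rw [mem_closedBall, Prod.dist_eq, max_le_iff, dist_eq_norm] at hp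
    refine hin p fun i _ => ?_
    have h3 : dist (p.2 i) (z.2 i) ≤ ρ₁ := (dist_le_pi_dist p.2 z.2 i).trans hp.2
    rw [Real.dist_eq, abs_le] at h3
    have h4 : max 0 (‖p.1 - z.1‖ - ρ₁) = 0 := max_eq_left (by linarith [hp.1])
    show z.2 i - ρ₁ ≤ p.2 i ∧ p.2 i ≤ z.2 i + ρ₁ - 4 * (ρ₁ + η') / δ * max 0 (‖p.1 - z.1‖ - ρ₁)
    rw [h4, mul_zero, sub_zero]
    constructor <;> linarith [h3.1, h3.2]
  · intro p hp
    refine hfar p fun hp' => hp ?_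
    rw [hρ]
    exact closedBall_subset_closedBall (by linarith) hp'
  · intro p hp
    exact hid p fun q hq => hp q (closedBall_subset_closedBall hη'1 hq)

end H80.LD
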