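import Pool.Agent.H80.LD.E0

/-!
# E4: tapering outside a separated family of balls

Same constants as in `BTStmt` (with `C * ε₀ ≤ η/2` in addition: `ε₀' = min ε₀ (η/(2 C))`).  For `z ∈ Zs` choose `F_z, F_z'` (`classical choose`).  `F p = F_z p` if there is `z ∈ Zs` with `p ∈ closedBall z ρ₂` (then `z` is unique: two such centres have distance
`≤ 2 ρ₂ < 2 ρ₂ + 2 η`), `F p = p` otherwise; same for `F'`.
(1) If `z ∈ Zs`, `p ∈ ball z (ρ₂ + η)` then `F p = F_z p`, `F' p = F_z' p`: if `p ∈ closedBall z ρ₂` by definition; otherwise `F_z p = p`, and `p ∉ closedBall z' ρ₂` for `z' ≠ z` (`dist z z' ≥ 2 ρ₂ + 2 η`), so `F p = p`.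
(2) If `p ∉ ball z (ρ₂ + η)` for all `z ∈ Zs` then `F = id`, `F' = id` on `ball p η`.
NP: at `p` of type (1): disp, lip from `F_z` (`F = F_z` near `p`, the ball is open); inv: if `p ∈ closedBall z ρ₂` then `F p = F_z p ∈ ball z (ρ₂ + η)` (`C ε ≤ η/2`), so `F' (F p) = F_z' (F_z p) = p`; if `p ∉ closedBall z ρ₂`: `F p = F_z p = p`, `F' p = F_z' p = p`.  Type (2): identity near `p`.
Other properties: from those of `F_z`.
-/

open Filter Topology Metric Set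

namespace H80.LD

private lemma E4_glue {E : Type*} [PseudoMetricSpace E] (Zs : Set E) (ρ η : ℝ) (hη : 0 < η)
    (hsep : ∀ z ∈ Zs, ∀ z' ∈ Zs, z ≠ z' → 2 * ρ + 2 * η ≤ dist z z') (Φ : E → E → E)
    (hΦ : ∀ z ∈ Zs, ∀ p, p ∉ closedBall z ρ → Φ z p = p) :
    ∃ F : E → E, (∀ z ∈ Zs, ∀ p ∈ ball z (ρ + η), F p = Φ z p) ∧
      (∀ p, (∀ z ∈ Zs, p ∉ closedBall z ρ) → F p = p) := by
  classical
  refine ⟨fun p => if h : ∃ z ∈ Zs, p ∈ closedBall z ρ then Φ h.choose p else p, ?_, ?_⟩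
  · intro z hz p hp
    by_cases h : ∃ z ∈ Zs, p ∈ closedBall z ρ
    · simp only [dif_pos h]
      have hc := h.choose_spec
      by_cases hzz : h.choose = z
      · rw [hzz]
      · exfalso
        have h1 := hsep _ hc.1 z hz hzz
        have h2 : dist p h.choose ≤ ρ := hc.2
        have h3 : dist p z < ρ + η := hp
        have h4 : dist h.choose z ≤ dist h.choose p + dist p z := dist_triangle _ _ _
        rw [dist_comm h.choose p] at h4
        linarith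
    · simp only [dif_neg h]
      have h5 : p ∉ closedBall z ρ := fun h6 => h ⟨z, hz, h6⟩
      exact (hΦ z hz p h5).symm
  · intro p hp
    have h : ¬ ∃ z ∈ Zs, p ∈ closedBall z ρ := by
      rintro ⟨z, hz, h1⟩
      exact hp z hz h1
    simp only [dif_neg h]

private lemma E4_half {X V : Type*} [NormedAddCommGroup X] [NormedAddCommGroup V]
    {ε' C ρ η : ℝ} (hC : 1 ≤ C) (hη : 0 < η) (hε' : ε' ≤ η / 2) (hε0 : 0 ≤ ε')
    (Zs : Set (X × V)) (Φ Φ' : X × V → X × V → X × V)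
    (hpres : ∀ z ∈ Zs, ∀ p, (Φ z p).1 = p.1) (hdisp : ∀ z ∈ Zs, ∀ p, ‖Φ z p - p‖ ≤ ε')
    (hlip : ∀ z ∈ Zs, ∀ p, ∀ᶠ q in 𝓝 p, ‖Φ z q - Φ z p‖ ≤ C * ‖q - p‖)
    (hinv : ∀ z ∈ Zs, ∀ p, Φ' z (Φ z p) = p)
    (hid : ∀ z ∈ Zs, ∀ p, p ∉ closedBall z ρ → Φ z p = p ∧ Φ' z p = p)
    (F F' : X × V → X × V)
    (hF : ∀ z ∈ Zs, ∀ p ∈ ball z (ρ + η), F p = Φ z p)
    (hF0 : ∀ p, (∀ z ∈ Zs, p ∉ closedBall z ρ) → F p = p)
    (hF' : ∀ z ∈ Zs, ∀ p ∈ ball z (ρ + η), F' p = Φ' z p)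
    (hF0' : ∀ p, (∀ z ∈ Zs, p ∉ closedBall z ρ) → F' p = p) :
    (∀ p, (F p).1 = p.1) ∧ (∀ p, ‖F p - p‖ ≤ ε') ∧
      (∀ p, ∀ᶠ q in 𝓝 p, ‖F q - F p‖ ≤ C * ‖q - p‖) ∧ ∀ p, F' (F p) = p := by
  have hcb : ∀ p : X × V, (∀ z ∈ Zs, p ∉ ball z (ρ + η)) → ∀ q, dist q p < η →
      ∀ z ∈ Zs, q ∉ closedBall z ρ := by
    intro p hp q hq z hz hqz
    apply hp z hz
    have h1 : dist q z ≤ ρ := hqz
    have h2 : dist p z ≤ dist p q + dist q z := dist_triangle _ _ _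
    rw [dist_comm p q] at h2
    exact mem_ball.2 (by linarith)
  have hdich : ∀ p : X × V, (∃ z ∈ Zs, p ∈ ball z (ρ + η)) ∨ (∀ z ∈ Zs, p ∉ ball z (ρ + η)) := by
    intro p
    by_cases h : ∃ z ∈ Zs, p ∈ ball z (ρ + η)
    · exact Or.inl h
    · right
      intro z hz hp
      exact h ⟨z, hz, hp⟩
  have hself : ∀ p : X × V, (∀ z ∈ Zs, p ∉ ball z (ρ + η)) → ∀ z ∈ Zs, p ∉ closedBall z ρ :=
    fun p hp => hcb p hp p (by rw [dist_self]; exact hη)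
  refine ⟨?_, ?_, ?_, ?_⟩
  · intro p
    rcases hdich p with ⟨z, hz, hp⟩ | hp
    · rw [hF z hz p hp]
      exact hpres z hz p
    · rw [hF0 p (hself p hp)]
  · intro p
    rcases hdich p with ⟨z, hz, hp⟩ | hp
    · rw [hF z hz p hp]
      exact hdisp z hz p
    · rw [hF0 p (hself p hp), sub_self, norm_zero]
      exact hε0
  · intro p
    rcases hdich p with ⟨z, hz, hp⟩ | hp
    · filter_upwards [isOpen_ball.mem_nhds hp, hlip z hz p] with q hq1 hq2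
      rw [hF z hz q hq1, hF z hz p hp]
      exact hq2
    · filter_upwards [ball_mem_nhds p hη] with q hq
      rw [hF0 q (hcb p hp q hq), hF0 p (hself p hp)]
      exact le_mul_of_one_le_left (norm_nonneg _) hC
  · intro p
    rcases hdich p with ⟨z, hz, hp⟩ | hp
    · rw [hF z hz p hp]
      by_cases hpz : p ∈ closedBall z ρ
      · have h1 : Φ z p ∈ ball z (ρ + η) := by
          have h2 : dist p z ≤ ρ := hpz
          have h3 : dist (Φ z p) p ≤ ε' := by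
            rw [dist_eq_norm]
            exact hdisp z hz p
          have h4 : dist (Φ z p) z ≤ dist (Φ z p) p + dist p z := dist_triangle _ _ _
          exact mem_ball.2 (by linarith)
        rw [hF' z hz _ h1]
        exact hinv z hz p
      · rw [(hid z hz p hpz).1, hF' z hz p hp, (hid z hz p hpz).2]
    · rw [hF0 p (hself p hp), hF0' p (hself p hp)]

theorem E4_ft (X : Type) [NormedAddCommGroup X] (D : Type) [Fintype D] (h : BTStmt X D) : FTStmt X D := by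
  intro L hL ρ₁ ρ₂ η hρ₁ hρ₁₂ hη
  obtain ⟨ε₀, hε₀, C, hC, hbt⟩ := h L hL ρ₁ ρ₂ η hρ₁ hρ₁₂ hη
  have hCpos : 0 < C := by linarith
  refine ⟨min ε₀ (η / (2 * C)), lt_min hε₀ (by positivity), C, hC, ?_⟩
  intro ε hε hεε Zs hsep U e e' hNP hZU
  have hε1 : ε ≤ ε₀ := hεε.trans (min_le_left _ _)
  have hε2 : C * ε ≤ η / 2 := by
    have h1 := hεε.trans (min_le_right _ _)
    rw [le_div_iff₀ (by positivity)] at h1
    linarith
  have hε3 : 0 ≤ C * ε := by positivity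
  have hex : ∀ z : X × (D → ℝ), ∃ F F' : X × (D → ℝ) → X × (D → ℝ), z ∈ Zs →
      (NP (C * ε) C univ F F' ∧
        (∀ p ∈ closedBall z ρ₁, F p = e p ∧ F' p = e' p) ∧
        (∀ p, p ∉ closedBall z ρ₂ → F p = p ∧ F' p = p) ∧
        (∀ p : X × (D → ℝ), (∀ q ∈ closedBall p η, e q = q ∧ e' q = q) → F p = p ∧ F' p = p)) := by
    intro z
    by_cases hz : z ∈ Zs
    · obtain ⟨F, F', h1⟩ := hbt ε hε hε1 z U e e' hNP (hZU z hz)
      exact ⟨F, F', fun _ => h1⟩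
    · exact ⟨id, id, fun hz' => absurd hz' hz⟩
  choose Φ Φ' hΦ using hex
  obtain ⟨F, hF, hF0⟩ := E4_glue Zs ρ₂ η hη hsep Φ
    (fun z hz p hp => ((hΦ z hz).2.2.1 p hp).1)
  obtain ⟨F', hF', hF0'⟩ := E4_glue Zs ρ₂ η hη hsep Φ'
    (fun z hz p hp => ((hΦ z hz).2.2.1 p hp).2)
  obtain ⟨a1, a2, a3, a4⟩ := E4_half hC hη hε2 hε3 Zs Φ Φ'
    (fun z hz p => (hΦ z hz).1.pres p) (fun z hz p => (hΦ z hz).1.disp p (mem_univ _))
    (fun z hz p => (hΦ z hz).1.lip p (mem_univ _))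
    (fun z hz p => (hΦ z hz).1.inv p (mem_univ _) (mem_univ _))
    (fun z hz p hp => (hΦ z hz).2.2.1 p hp) F F' hF hF0 hF' hF0'
  obtain ⟨b1, b2, b3, b4⟩ := E4_half hC hη hε2 hε3 Zs Φ' Φ
    (fun z hz p => (hΦ z hz).1.pres' p) (fun z hz p => (hΦ z hz).1.disp' p (mem_univ _))
    (fun z hz p => (hΦ z hz).1.lip' p (mem_univ _))
    (fun z hz p => (hΦ z hz).1.inv' p (mem_univ _) (mem_univ _))
    (fun z hz p hp => ((hΦ z hz).2.2.1 p hp).symm) F' F hF' hF0' hF hF0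
  refine ⟨F, F', ⟨a1, b1, fun p _ => a2 p, fun p _ => b2 p, fun p _ => a3 p, fun p _ => b3 p,
    fun p _ _ => a4 p, fun p _ _ => b4 p⟩, ?_, ?_, ?_⟩
  · intro z hz p hp
    have h1 : p ∈ ball z (ρ₂ + η) := by
      have h2 : dist p z ≤ ρ₁ := hp
      exact mem_ball.2 (by linarith)
    rw [hF z hz p h1, hF' z hz p h1]
    exact (hΦ z hz).2.1 p hp
  · intro p hp
    exact ⟨hF0 p hp, hF0' p hp⟩
  · intro p hp
    by_cases h1 : ∃ z ∈ Zs, p ∈ ball z (ρ₂ + η)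
    · obtain ⟨z, hz, hpz⟩ := h1
      rw [hF z hz p hpz, hF' z hz p hpz]
      exact (hΦ z hz).2.2.2 p hp
    · have h2 : ∀ z ∈ Zs, p ∉ closedBall z ρ₂ := by
        intro z hz hpz
        apply h1
        have h3 : dist p z ≤ ρ₂ := hpz
        exact ⟨z, hz, mem_ball.2 (by linarith)⟩
      exact ⟨hF0 p h2, hF0' p h2⟩

end H80.LD
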