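import Pool.Agent.H80.LD.E0

/-!
# E5: lattice covering

Centres `z(k) = (κ (k₁ + k₂ i), κ m)`, `k = (k₁, k₂, m) ∈ ℤ × ℤ × (D → ℤ)`; classes by residues mod 8: `Fin 8 × Fin 8 × (D → Fin 8)` (or `ZMod 8`) is finite, use an equivalence with `Fin N` (`N = card > 0`); `Zs j` for `j < N` is the set of `z(k)` with residue class number `j`, and `∅` for `j ≥ N`.
* Separation: two different centres in the same class have `k ≠ k'`, all differences divisible by 8, so one coordinate of `k - k'` has absolute value `≥ 8`; `dist z z' ≥ 8 κ` (sup norm; in `ℂ` `‖w‖ ≥ |re w|, |im w|`).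
* Covering: round every real coordinate of `p/κ`: `|x - round x| ≤ 1/2`; `‖w‖ ≤ |re w| + |im w| ≤ κ` in `ℂ`.
-/

open Filter Topology Metric Set

namespace H80.LD

private noncomputable def E5_cen {D : Type} (κ : ℝ) (k : ℤ × ℤ × (D → ℤ)) : ℂ × (D → ℝ) :=
  (⟨κ * k.1, κ * k.2.1⟩, fun i => κ * k.2.2 i)

private def E5_res {D : Type} (k : ℤ × ℤ × (D → ℤ)) : ZMod 8 × ZMod 8 × (D → ZMod 8) :=
  ((k.1 : ZMod 8), (k.2.1 : ZMod 8), fun i => (k.2.2 i : ZMod 8))

private theorem E5_int {a b : ℤ} (h : (a : ZMod 8) = (b : ZMod 8)) (hne : a ≠ b) : (8 : ℝ) ≤ |(a : ℝ) - b| := by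
  have h1 : (8 : ℤ) ∣ b - a := by
    have := (ZMod.intCast_eq_intCast_iff_dvd_sub a b 8).1 h
    exact_mod_cast this
  obtain ⟨c, hc⟩ := h1
  have hc0 : c ≠ 0 := by
    rintro rfl
    apply hne
    omega
  have h2 : (8 : ℤ) ≤ |a - b| := by
    rw [abs_sub_comm, hc, abs_mul]
    have := Int.one_le_abs hc0
    norm_num
    omega
  exact_mod_cast h2

private theorem E5_sep {D : Type} [Fintype D] {κ : ℝ} (hκ : 0 < κ) {k k' : ℤ × ℤ × (D → ℤ)}
    (h : E5_res k = E5_res k') (hne : k ≠ k') : 8 * κ ≤ dist (E5_cen κ k) (E5_cen κ k') := by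
  obtain ⟨a, b, m⟩ := k
  obtain ⟨a', b', m'⟩ := k'
  simp only [E5_res, Prod.mk.injEq] at h
  obtain ⟨h1, h2, h3⟩ := h
  have hscale : ∀ x y : ℤ, (8 : ℝ) ≤ |(x : ℝ) - y| → 8 * κ ≤ |κ * x - κ * y| := by
    intro x y hxy
    rw [← mul_sub, abs_mul, abs_of_pos hκ, mul_comm 8 κ]
    gcongr
  by_cases e1 : a = a'
  · by_cases e2 : b = b'
    · have e3 : m ≠ m' := by
        rintro rfl
        apply hne
        rw [e1, e2]
      obtain ⟨i, hi⟩ := Function.ne_iff.1 e3
      have h4 := hscale _ _ (E5_int (congrFun h3 i) hi)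
      have h5 : dist ((E5_cen κ (a, b, m)).2 i) ((E5_cen κ (a', b', m')).2 i) ≤
          dist (E5_cen κ (a, b, m)).2 (E5_cen κ (a', b', m')).2 := dist_le_pi_dist _ _ i
      have h6 : dist (E5_cen κ (a, b, m)).2 (E5_cen κ (a', b', m')).2 ≤
          dist (E5_cen κ (a, b, m)) (E5_cen κ (a', b', m')) := by
        rw [Prod.dist_eq]
        exact le_max_right _ _
      rw [Real.dist_eq] at h5
      exact h4.trans (h5.trans h6)
    · have h4 := hscale _ _ (E5_int h2 e2)
      have h5 := Complex.abs_im_le_norm ((E5_cen κ (a, b, m)).1 - (E5_cen κ (a', b', m')).1)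
      have h6 : dist (E5_cen κ (a, b, m)).1 (E5_cen κ (a', b', m')).1 ≤
          dist (E5_cen κ (a, b, m)) (E5_cen κ (a', b', m')) := by
        rw [Prod.dist_eq]
        exact le_max_left _ _
      rw [dist_eq_norm] at h6
      exact h4.trans (h5.trans h6)
  · have h4 := hscale _ _ (E5_int h1 e1)
    have h5 := Complex.abs_re_le_norm ((E5_cen κ (a, b, m)).1 - (E5_cen κ (a', b', m')).1)
    have h6 : dist (E5_cen κ (a, b, m)).1 (E5_cen κ (a', b', m')).1 ≤
        dist (E5_cen κ (a, b, m)) (E5_cen κ (a', b', m')) := by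
      rw [Prod.dist_eq]
      exact le_max_left _ _
    rw [dist_eq_norm] at h6
    exact h4.trans (h5.trans h6)

private theorem E5_round {κ : ℝ} (hκ : 0 < κ) (x : ℝ) : |x - κ * (round (x / κ) : ℤ)| ≤ κ / 2 := by
  have h := abs_sub_round (x / κ)
  have e : x - κ * (round (x / κ) : ℤ) = κ * (x / κ - (round (x / κ) : ℤ)) := by
    field_simp
  rw [e, abs_mul, abs_of_pos hκ]
  calc κ * |x / κ - (round (x / κ) : ℤ)| ≤ κ * (1 / 2) := by gcongr
    _ = κ / 2 := by ring

theorem E5_lat (D : Type) [Fintype D] : LatStmt D := by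
  classical
  intro κ hκ
  refine ⟨Fintype.card (ZMod 8 × ZMod 8 × (D → ZMod 8)), fun j => {z | ∃ k : ℤ × ℤ × (D → ℤ),
    (Fintype.equivFin (ZMod 8 × ZMod 8 × (D → ZMod 8)) (E5_res k) : ℕ) = j ∧ z = E5_cen κ k},
    Fintype.card_pos, ?_, ?_⟩
  · rintro j z ⟨k, hk, rfl⟩ z' ⟨k', hk', rfl⟩ hne
    refine E5_sep hκ ?_ ?_
    · exact (Fintype.equivFin _).injective (Fin.ext (hk.trans hk'.symm))
    · rintro rfl
      exact hne rfl
  · intro p
    refine ⟨_, (Fintype.equivFin (ZMod 8 × ZMod 8 × (D → ZMod 8)) (E5_res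
      (round (p.1.re / κ), round (p.1.im / κ), fun i => round (p.2 i / κ)))).2, _, ⟨_, rfl, rfl⟩, ?_⟩
    rw [Prod.dist_eq]
    refine max_le ?_ ?_
    · rw [dist_eq_norm]
      refine (Complex.norm_le_abs_re_add_abs_im _).trans ?_
      have h1 := E5_round hκ p.1.re
      have h2 := E5_round hκ p.1.im
      have e1 : (p.1 - (E5_cen κ (round (p.1.re / κ), round (p.1.im / κ),
        fun i => round (p.2 i / κ))).1).re = p.1.re - κ * (round (p.1.re / κ) : ℤ) := rfl
      have e2 : (p.1 - (E5_cen κ (round (p.1.re / κ), round (p.1.im / κ),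
        fun i => round (p.2 i / κ))).1).im = p.1.im - κ * (round (p.1.im / κ) : ℤ) := rfl
      rw [e1, e2]
      linarith
    · rw [dist_pi_le_iff hκ.le]
      intro i
      rw [Real.dist_eq]
      have h1 := E5_round hκ (p.2 i)
      have e1 : p.2 i - (E5_cen κ (round (p.1.re / κ), round (p.1.im / κ),
        fun i => round (p.2 i / κ))).2 i = p.2 i - κ * (round (p.2 i / κ) : ℤ) := rfl
      rw [e1]
      linarith

end H80.LD
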