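import Pool.Agent.H80.LD.E0

/-!
# E6: induction over the families

`E6_zero`: `k = 0`: `F = F' = id` (`ε₀ = 1`, `C = 1`).
`E6_succ`: `k < N`, `κ > 0`, `Zs k` is `8 κ`-separated.  `StepStmt k`: `ε₁, C₁`.  `FTStmt ℂ D` with Lipschitz constant `L C₁`, `ρ₁ = 2 κ`, `ρ₂ = 3 κ`, `η = κ/(4 N)`: `ε₂, C₂`.  `C = C₁ + C₂ (1 + C₁)` and also `≥ C₁ C₂`; take `C = 4 C₁ C₂`; `ε₀ = min ε₁ (min (ε₂/(1 + C₁)) (κ/(4 N (1 + C₁))))`.
Given `e, e', U`: `F, F'` from `StepStmt k`; `h = e ∘ F'`, `h' = F ∘ e'`: `B0b_comp` (`e₁ = e`, `e₂ = F'` with `B0b_symm`, `U₂ = univ`): `NP ((1 + C₁) ε) (L C₁) {p | p ∈ U ∧ F' p ∈ U} h h'` (`ε + C₁ ε`).  `Zs' = {z ∈ Zs k | closedBall z (5 κ) ⊆ U}`; for `z ∈ Zs'`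
`closedBall z (3 κ + η) ⊆ {p ∈ U, F' p ∈ U}` as `C₁ ε ≤ κ/4`, `η ≤ κ/4`; separation `8 κ ≥ 6 κ + 2 η`.  `FTStmt`: `T, T'` with `NP (C₂ (1 + C₁) ε) C₂ univ T T'`.
`G = T ∘ F`, `G' = F' ∘ T'`: `NP (C₂ (1 + C₁) ε + C₁ ε) (C₂ C₁) univ` (`B0b_comp`).  Note `F' (F p) = p`, `F (F' p) = p` for all `p`.  Let `r_k = κ (2 - k/N)`, `r_{k+1} = r_k - κ/N ≥ κ`.
* `z ∈ Zs'`, `p ∈ closedBall z r_{k+1}`: `F p ∈ closedBall z (r_{k+1} + C₁ ε) ⊆ closedBall z (2 κ)`: `T (F p) = h (F p) = e (F' (F p)) = e p`; `p ∈ closedBall z (2 κ)`: `F' (T' p) = F' (h' p) = F' (F (e' p)) = e' p`.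
* `j < k`, `z ∈ Zs j` active, `p ∈ closedBall z r_{k+1}`: `F p = e p`, `F' p = e' p`.  For `‖q - p‖ ≤ η + C₁ ε` (`≤ κ/(2N)`): `q, e' q ∈ closedBall z r_k` (`ε ≤ κ/(4N)`), so `h q = e (F' q) = e (e' q) = q` (`inv'`: `q, e' q ∈ closedBall z (3 κ) ⊆ U`), `h' q = F (e' q) = e (e' q) = q`.
  Identity property of `T` at `F p` (`‖F p - p‖ ≤ C₁ ε`) and at `p`: `T (F p) = F p = e p`, `F' (T' p) = F' p = e' p`.
* outside all the balls: `F p = p`, `T p = p` etc.
-/

open Filter Topology Metric Set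

namespace H80.LD

theorem E6_zero (D : Type) [Fintype D] (κ : ℝ) (N : ℕ) (Zs : ℕ → Set (ℂ × (D → ℝ))) (L : ℝ) :
    StepStmt D κ N Zs L 0 := by
  refine ⟨1, one_pos, 1, le_rfl, fun ε hε _ U e e' _ => ⟨fun p => p, fun p => p, ?_, ?_, ?_⟩⟩
  · exact
      { pres := fun _ => rfl
        pres' := fun _ => rfl
        disp := fun p _ => by rw [sub_self, norm_zero]; linarith
        disp' := fun p _ => by rw [sub_self, norm_zero]; linarith
        lip := fun p _ => Eventually.of_forall fun q => by rw [one_mul]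
        lip' := fun p _ => Eventually.of_forall fun q => by rw [one_mul]
        inv := fun _ _ _ => rfl
        inv' := fun _ _ _ => rfl }
  · intro j hj
    omega
  · intro p _
    exact ⟨rfl, rfl⟩

theorem E6_near {P : Type*} [NormedAddCommGroup P] {p q z : P} {a b c : ℝ}
    (hp : p ∈ closedBall z a) (hq : ‖q - p‖ ≤ b) (h : a + b ≤ c) : q ∈ closedBall z c := by
  rw [mem_closedBall, dist_eq_norm] at hp ⊢
  have e : q - z = (q - p) + (p - z) := by abel
  rw [e]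
  exact (norm_add_le _ _).trans (by linarith)

theorem E6_succ (D : Type) [Fintype D] (hF : FTStmt ℂ D) (κ : ℝ) (hκ : 0 < κ) (N : ℕ) (Zs : ℕ → Set (ℂ × (D → ℝ)))
    (hs : ∀ j, ∀ z ∈ Zs j, ∀ z' ∈ Zs j, z ≠ z' → 8 * κ ≤ dist z z') (L : ℝ) (hL : 1 ≤ L) (k : ℕ) (hk : k < N)
    (h : StepStmt D κ N Zs L k) : StepStmt D κ N Zs L (k + 1) := by
  obtain ⟨ε₁, hε₁, C₁, hC₁, hstep⟩ := h
  have hN : (1 : ℝ) ≤ N := by
    have : 1 ≤ N := by omega
    exact_mod_cast this
  have hN0 : (0 : ℝ) < N := by linarith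
  set d : ℝ := κ / N with hd
  have hd0 : 0 < d := by positivity
  have hdκ : d ≤ κ := div_le_self hκ.le hN
  have hLC : 1 ≤ L * C₁ := by nlinarith
  obtain ⟨ε₂, hε₂, C₂, hC₂, hT⟩ := hF (L * C₁) hLC (2 * κ) (3 * κ) (d / 4) (by linarith)
    (by linarith) (by linarith)
  refine ⟨min ε₁ (min (ε₂ / (1 + C₁)) (d / 4 / (1 + C₁))), by positivity, 4 * C₁ * C₂,
    by nlinarith, ?_⟩
  intro ε hε hε0 U e e' hNP
  have hb1 : ε ≤ ε₁ := hε0.trans (min_le_left _ _)
  have hb2 : (1 + C₁) * ε ≤ ε₂ := by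
    have : ε ≤ ε₂ / (1 + C₁) := hε0.trans ((min_le_right _ _).trans (min_le_left _ _))
    rw [le_div_iff₀ (by linarith)] at this
    linarith
  have hb3 : (1 + C₁) * ε ≤ d / 4 := by
    have : ε ≤ d / 4 / (1 + C₁) := hε0.trans ((min_le_right _ _).trans (min_le_right _ _))
    rw [le_div_iff₀ (by linarith)] at this
    linarith
  have hCε : 0 < C₁ * ε := by positivity
  have hb4 : C₁ * ε ≤ d / 4 := by nlinarith
  have hb5 : ε ≤ d / 4 := by nlinarith
  obtain ⟨F, F', hFN, a1, a2⟩ := hstep ε hε hb1 U e e' hNP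
  have hFF' : ∀ p, F (F' p) = p := fun p => hFN.inv' p (mem_univ _) (mem_univ _)
  have hF'F : ∀ p, F' (F p) = p := fun p => hFN.inv p (mem_univ _) (mem_univ _)
  have hh := B0b_comp hNP (B0b_symm hFN) (by linarith) (by linarith)
  set Uh : Set (ℂ × (D → ℝ)) := {p | p ∈ U ∧ p ∈ univ ∧ F' p ∈ U ∧ e' p ∈ univ} with hUh
  set Z' : Set (ℂ × (D → ℝ)) := {z | z ∈ Zs k ∧ closedBall z (5 * κ) ⊆ U} with hZ'
  have hsep : ∀ z ∈ Z', ∀ z' ∈ Z', z ≠ z' → 2 * (3 * κ) + 2 * (d / 4) ≤ dist z z' := by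
    intro z hz z' hz' hne
    have := hs k z hz.1 z' hz'.1 hne
    linarith
  have hin : ∀ z ∈ Z', closedBall z (3 * κ + d / 4) ⊆ Uh := by
    intro z hz p hp
    refine ⟨hz.2 (closedBall_subset_closedBall (by linarith) hp), mem_univ _, hz.2 ?_, mem_univ _⟩
    exact E6_near hp (hFN.disp' p (mem_univ _)) (by linarith)
  have e1 : ε + C₁ * ε = (1 + C₁) * ε := by ring
  rw [e1] at hh
  obtain ⟨T, T', hTN, t1, t2, t3⟩ := hT ((1 + C₁) * ε) (by positivity) hb2 Z' hsep Uh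
    (fun p => e (F' p)) (fun p => F (e' p)) hh hin
  have hG := B0b_comp hTN hFN (by linarith) (by linarith)
  have hr : ∀ m : ℕ, κ * (2 - (m : ℝ) / N) = 2 * κ - m * d := by
    intro m
    rw [hd]
    field_simp
  have hk0 : (0 : ℝ) ≤ k := Nat.cast_nonneg k
  refine ⟨fun p => T (F p), fun p => F' (T' p), ?_, ?_, ?_⟩
  · refine B0b_mono hG ?_ ?_ ?_
    · have h1 : C₂ * ((1 + C₁) * ε) + C₁ * ε = (C₂ * (1 + C₁) + C₁) * ε := by ring
      rw [h1]
      refine mul_le_mul_of_nonneg_right ?_ hε.le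
      nlinarith
    · nlinarith
    · intro p _
      exact ⟨mem_univ _, mem_univ _, mem_univ _, mem_univ _⟩
  · intro j hj z hz hzU p hp
    rw [hr, Nat.cast_add, Nat.cast_one] at hp
    have hp2 : p ∈ closedBall z (2 * κ) :=
      closedBall_subset_closedBall (by nlinarith) hp
    rcases Nat.lt_succ_iff_lt_or_eq.1 hj with hjk | rfl
    · have hball : ∀ q, ‖q - p‖ ≤ d / 2 → e (F' q) = q ∧ F (e' q) = q := by
        intro q hq
        have hq1 : q ∈ closedBall z (κ * (2 - (k : ℝ) / N)) := by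
          rw [hr]
          exact E6_near hp hq (by linarith)
        have hq5 : q ∈ closedBall z (5 * κ) := E6_near hp2 hq (by linarith)
        have hqU := hzU hq5
        have hq2 : e' q ∈ closedBall z (κ * (2 - (k : ℝ) / N)) := by
          rw [hr]
          have hq3 : q ∈ closedBall z (2 * κ - (k + 1) * d + d / 2) := E6_near hp hq le_rfl
          exact E6_near hq3 (hNP.disp' q hqU) (by linarith)
        have hq6 : e' q ∈ U := by
          refine hzU (closedBall_subset_closedBall ?_ hq2)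
          rw [hr]
          nlinarith
        have h1 := a1 j hjk z hz hzU q hq1
        have h2 := a1 j hjk z hz hzU (e' q) hq2
        have h3 := hNP.inv' q hqU hq6
        exact ⟨by rw [h1.2, h3], by rw [h2.1, h3]⟩
      have hpk : p ∈ closedBall z (κ * (2 - (k : ℝ) / N)) := by
        rw [hr]
        exact closedBall_subset_closedBall (by linarith) hp
      have h1 := a1 j hjk z hz hzU p hpk
      have hFp : ‖F p - p‖ ≤ C₁ * ε := hFN.disp p (mem_univ _)
      have h2 := t3 (F p) (fun q hq => hball q (by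
        rw [mem_closedBall, dist_eq_norm] at hq
        have e2 : q - p = (q - F p) + (F p - p) := by abel
        rw [e2]
        exact (norm_add_le _ _).trans (by linarith)))
      have h3 := t3 p (fun q hq => hball q (by
        rw [mem_closedBall, dist_eq_norm] at hq
        linarith))
      exact ⟨by change T (F p) = e p; rw [h2.1, h1.1], by change F' (T' p) = e' p; rw [h3.2, h1.2]⟩
    · have hzZ : z ∈ Z' := ⟨hz, hzU⟩
      have hFp : F p ∈ closedBall z (2 * κ) :=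
        E6_near hp (hFN.disp p (mem_univ _)) (by nlinarith)
      have h1 := t1 z hzZ (F p) hFp
      have h2 := t1 z hzZ p hp2
      exact ⟨by change T (F p) = e p; rw [h1.1, hF'F], by change F' (T' p) = e' p; rw [h2.2, hF'F]⟩
  · intro p hp
    have h1 := a2 p fun j hj z hz hzU => hp j (by omega) z hz hzU
    have h2 := t2 p fun z hz => hp k (by omega) z hz.1 hz.2
    exact ⟨by change T (F p) = p; rw [h1.1, h2.1], by change F' (T' p) = p; rw [h2.2, h1.2]⟩

end H80.LD
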