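import Pool.Agent.H80.LD.E1
import Pool.Agent.H80.LD.E2
import Pool.Agent.H80.LD.E3
import Pool.Agent.H80.LD.E4
import Pool.Agent.H80.LD.E5
import Pool.Agent.H80.LD.E6
import Pool.Agent.H80.LD.C7

/-!
# E7: the extension theorem

`E7_of_ft`: given `L, ζ` put `κ = ζ/6`; `E5_lat`: `N, Zs`; `StepStmt D κ N Zs L N` by induction (`E6_zero`, `E6_succ`): `ε₀, C`.  For `e, e', U`: `F, F'`.
* `closedBall p ζ ⊆ U`: there are `j < N`, `z ∈ Zs j` with `dist p z ≤ κ`; `closedBall z (5 κ) ⊆ closedBall p (6 κ) ⊆ U`; `p ∈ closedBall z κ = closedBall z (κ (2 - N/N))`: `F p = e p`.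
* `p ∉ U`: `p ∉ closedBall z (3κ)` whenever `closedBall z (5 κ) ⊆ U`: `F p = p`.
`E7_ext`: `C7_core ℂ (Fin d) t` (`Fin d` is nontrivial for `d ≥ 2`: `Fin.nontrivial_iff_two_le`), `E1_ht`, `E2_ct`, `E3_bt`, `E4_ft`.
-/

open Filter Topology Metric Set

namespace H80.LD

theorem E7_of_ft (D : Type) [Fintype D] (hF : FTStmt ℂ D) (hl : LatStmt D) : ExtStmt D := by
  intro L hL ζ hζ
  have hκ : 0 < ζ / 6 := by positivity
  obtain ⟨N, Zs, hN, hsep, hcov⟩ := hl (ζ / 6) hκ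
  have hstep : ∀ k ≤ N, StepStmt D (ζ / 6) N Zs L k := by
    intro k
    induction k with
    | zero => intro _; exact E6_zero D (ζ / 6) N Zs L
    | succ k ih =>
      intro hk
      exact E6_succ D hF (ζ / 6) hκ N Zs hsep L hL k (by omega) (ih (by omega))
  obtain ⟨ε₀, h0, C, hC, H⟩ := hstep N le_rfl
  refine ⟨ε₀, h0, C, hC, fun ε hε hε0 U e e' hNP => ?_⟩
  obtain ⟨F, F', hF1, hF2, hF3⟩ := H ε hε hε0 U e e' hNP
  refine ⟨F, F', hF1, ?_, ?_⟩
  · intro p hp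
    obtain ⟨j, hj, z, hz, hd⟩ := hcov p
    refine hF2 j hj z hz ?_ p ?_
    · intro q hq
      apply hp
      rw [mem_closedBall] at hq ⊢
      have h1 := dist_triangle q z p
      rw [dist_comm z p] at h1
      linarith
    · have hN' : (N : ℝ) ≠ 0 := by positivity
      rw [mem_closedBall, div_self hN']
      linarith
  · intro p hp
    apply hF3
    intro j hj z hz hb hp'
    exact hp (hb (closedBall_subset_closedBall (by linarith) hp'))

theorem E7_ext (d : ℕ) (hd : 2 ≤ d) : ExtStmt (Fin d) := by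
  have : Nontrivial (Fin d) := Fin.nontrivial_iff_two_le.mpr hd
  exact E7_of_ft (Fin d) (E4_ft ℂ (Fin d) (E3_bt ℂ (Fin d) (E2_ct ℂ (Fin d) fun t =>
    E1_ht ℂ (Fin d) t (C7_core ℂ (Fin d) t)))) (E5_lat (Fin d))

end H80.LD
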