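import Pool.Agent.H80.LD.Defs

/-!
# F0: definitions for the near-identity Schoenflies theorem (Mazur swindle)

`P = X × V`, all maps preserve the first component, `‖p.2‖` is the radius.  Given `f, f'` near the identity on the shell
`1/3 < ‖p.2‖ < 2` we extend `f` to the ball.

On `‖p.2‖ ≥ 3/4` the extension is `f`.  For `3/8 ≤ ‖p.2‖ < 3/4` it is `stepF p`; for smaller radii it is continued by
self-similarity: `F p = ½ F (2 p)`.
-/

open Filter Topology Metric Set

namespace H80.LD

variable {X V : Type*} [NormedAddCommGroup X] [NormedAddCommGroup V] [NormedSpace ℝ V]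

/-- multiplication of the second component -/
def lam (a : ℝ) (p : X × V) : X × V := (p.1, a • p.2)

/-- radial map -/
noncomputable def rad (r : ℝ → ℝ) (p : X × V) : X × V := (p.1, (r ‖p.2‖ / ‖p.2‖) • p.2)

/-- `[0.6, 1.5] → [0.6, 0.75]`, identity below `0.6` -/
noncomputable def rS (g : ℝ) : ℝ := min g (1 / 2 + g / 6)
/-- inverse of `rS` -/
noncomputable def rSi (g : ℝ) : ℝ := max g (6 * g - 3)
/-- `[1, 1.2] → [0.5, 1.2]`, identity above `1.2` -/
noncomputable def rR (g : ℝ) : ℝ := min (7 / 2 * g - 3) g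
/-- inverse of `rR` -/
noncomputable def rRi (g : ℝ) : ℝ := max ((2 * g + 6) / 7) g

/-- inner part of the step map (used for `‖y.2‖ ≥ 1/2`) -/
noncomputable def stT (f f' : X × V → X × V) (y : X × V) : X × V :=
  if 3 / 5 ≤ ‖(f' y).2‖ then f (rad rS (f' y)) else y

/-- the step map, used for `3/8 ≤ ‖p.2‖ ≤ 3/4` -/
noncomputable def stF (f f' : X × V → X × V) (p : X × V) : X × V :=
  if 1 ≤ ‖(f (lam 2 p)).2‖ then stT f f' (rad rR (f (lam 2 p))) else lam (1 / 2) (f (lam 2 p))

/-- extension on `‖p.2‖ ≥ 3/8` -/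
noncomputable def gF (f f' : X × V → X × V) (p : X × V) : X × V :=
  if 3 / 4 ≤ ‖p.2‖ then f p else stF f f' p

/-- inverse of `stT` -/
noncomputable def stTi (f f' : X × V → X × V) (y : X × V) : X × V :=
  if 3 / 5 ≤ ‖(f' y).2‖ then f (rad rSi (f' y)) else y

/-- inverse of the extension on `‖y.2‖ ≥ 1/2` -/
noncomputable def gFi (f f' : X × V → X × V) (y : X × V) : X × V :=
  if 3 / 4 ≤ ‖(f' y).2‖ then f' y else lam (1 / 2) (f' (rad rRi (stTi f f' y)))

open Classical in
/-- number of doublings needed to reach radius `≥ a` -/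
noncomputable def kk (a : ℝ) (p : X × V) : ℕ :=
  if h : ∃ k : ℕ, a ≤ 2 ^ k * ‖p.2‖ then Nat.find h else 0

open Classical in
/-- self-similar continuation of `G` from radius `≥ a` to all radii -/
noncomputable def ext (a : ℝ) (G : X × V → X × V) (p : X × V) : X × V :=
  if p.2 = 0 then p else lam ((1 / 2) ^ kk a p) (G (lam (2 ^ kk a p) p))

/-- the raw extension -/
noncomputable def fF (f f' : X × V → X × V) : X × V → X × V := ext (3 / 8) (gF f f')
/-- its inverse -/
noncomputable def fFi (f f' : X × V → X × V) : X × V → X × V := ext (1 / 2) (gFi f f')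

/-- the shell `1/3 < ‖v‖ < 2` -/
def sh (V : Type*) [NormedAddCommGroup V] : Set V := {v | 1 / 3 < ‖v‖ ∧ ‖v‖ < 2}

end H80.LD
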