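import Pool.Agent.H80.LD.F0

/-!
# F1: elementary facts on radial maps and on the scale function `kk`

* `F1_rad_norm`: `‖(rad r p).2‖ = |r ‖p.2‖|` if `p.2 ≠ 0`.
* `F1_rad_rad`: `rad s (rad r p) = rad (s ∘ r) p` if `p.2 ≠ 0`, `0 < r ‖p.2‖`.
* `F1_rad_id`: if `r ‖p.2‖ = ‖p.2‖` then `rad r p = p` (also for `p.2 = 0`).
* `F1_rad_lip`: if `0 < ‖p.2‖`, `|r a - r b| ≤ ℓ |a - b|` for `a = ‖p.2‖`, `b = ‖q.2‖`, `0 ≤ r a ≤ ℓ a`, then `‖rad r q - rad r p‖ ≤ 3 ℓ ‖q - p‖`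
  (also for `q.2 = 0`).  Proof for `b > 0`:
  `‖(r a / a) v - (r b / b) w‖ ≤ (r a / a) ‖v - w‖ + |r a / a - r b / b| b`, and `|r a / a - r b / b| b = |r a * b / a - r b| ≤ (r a / a) |b - a| + |r a - r b|`.
  For `q.2 = 0` the left side is `max(‖q.1-p.1‖, r a) ≤ ℓ a ≤ ℓ ‖q-p‖` (use `1 ≤ ℓ` for the first component, also in the other case).
* `rS, rR, rSi, rRi`: piecewise linear, `rSi (rS g) = g = rS (rSi g)` for all real `g`, same for `rR, rRi`.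
* `kk`: for `a > 0`, `p.2 ≠ 0`: `a ≤ 2 ^ kk a p * ‖p.2‖` and (`kk a p = 0` or `2 ^ kk a p * ‖p.2‖ < 2 a`) (Nat.find_spec, Nat.find_min, Archimedean);
  `kk a p = 0` if `a ≤ ‖p.2‖`; `kk a (lam (1/2) p) = kk a p + 1` if `p.2 ≠ 0` and `‖p.2‖ < 2 * a`.
* `F1_ext_half`: `ext a G (lam (1/2) p) = lam (1/2) (ext a G p)` if `p.2 ≠ 0` and `‖p.2‖ < 2 * a` (consequence of the last fact).
* `F1_ext_big`: `ext a G p = G p` if `a ≤ ‖p.2‖`.
* `F1_kk_char`: if `a ≤ 2^k * ‖p.2‖` and (`k = 0` or `2^k * ‖p.2‖ < 2*a`) then `kk a p = k`.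
-/

open Filter Topology Metric Set

namespace H80.LD

variable {X V : Type*} [NormedAddCommGroup X] [NormedAddCommGroup V] [NormedSpace ℝ V]

theorem F1_lam_norm (a : ℝ) (ha : 0 ≤ a) (p : X × V) : ‖(lam a p).2‖ = a * ‖p.2‖ := by
  change ‖a • p.2‖ = a * ‖p.2‖
  rw [norm_smul, Real.norm_eq_abs, abs_of_nonneg ha]

theorem F1_lam_lam (a b : ℝ) (p : X × V) : lam a (lam b p) = lam (a * b) p := by
  simp only [lam, smul_smul]

theorem F1_lam_one (p : X × V) : lam 1 p = p := by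
  simp only [lam, one_smul]

theorem F1_lam_lip (a : ℝ) (ha : 1 ≤ a) (p q : X × V) : ‖lam a p - lam a q‖ ≤ a * ‖p - q‖ := by
  have h1 : lam a p - lam a q = (p.1 - q.1, a • (p.2 - q.2)) := by
    rw [smul_sub]
    rfl
  have h2 : ‖p.1 - q.1‖ ≤ ‖p - q‖ := norm_fst_le (p - q)
  have h3 : ‖p.2 - q.2‖ ≤ ‖p - q‖ := norm_snd_le (p - q)
  rw [h1, Prod.norm_def]
  apply max_le
  · have := norm_nonneg (p - q)
    nlinarith
  · rw [norm_smul, Real.norm_eq_abs, abs_of_nonneg (by linarith)]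
    exact mul_le_mul_of_nonneg_left h3 (by linarith)

theorem F1_lam_lip' (a : ℝ) (h0 : 0 ≤ a) (ha : a ≤ 1) (p q : X × V) : ‖lam a p - lam a q‖ ≤ ‖p - q‖ := by
  have h1 : lam a p - lam a q = (p.1 - q.1, a • (p.2 - q.2)) := by
    rw [smul_sub]
    rfl
  have h2 : ‖p.1 - q.1‖ ≤ ‖p - q‖ := norm_fst_le (p - q)
  have h3 : ‖p.2 - q.2‖ ≤ ‖p - q‖ := norm_snd_le (p - q)
  rw [h1, Prod.norm_def]
  apply max_le h2
  rw [norm_smul, Real.norm_eq_abs, abs_of_nonneg h0]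
  exact (mul_le_of_le_one_left (norm_nonneg _) ha).trans h3

theorem F1_rad_norm (r : ℝ → ℝ) (p : X × V) (hp : p.2 ≠ 0) : ‖(rad r p).2‖ = |r ‖p.2‖| := by
  have h1 : ‖p.2‖ ≠ 0 := norm_ne_zero_iff.2 hp
  change ‖(r ‖p.2‖ / ‖p.2‖) • p.2‖ = |r ‖p.2‖|
  rw [norm_smul, Real.norm_eq_abs, abs_div, abs_norm, div_mul_cancel₀ _ h1]

theorem F1_rad_rad (r s : ℝ → ℝ) (p : X × V) (hp : p.2 ≠ 0) (hr : 0 < r ‖p.2‖) :
    rad s (rad r p) = rad (fun g => s (r g)) p := by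
  have h1 : ‖p.2‖ ≠ 0 := norm_ne_zero_iff.2 hp
  have h2 := F1_rad_norm r p hp
  rw [abs_of_pos hr] at h2
  change ((rad r p).1, (s ‖(rad r p).2‖ / ‖(rad r p).2‖) • (rad r p).2) = _
  rw [h2]
  change (p.1, (s (r ‖p.2‖) / r ‖p.2‖) • (r ‖p.2‖ / ‖p.2‖) • p.2) =
    (p.1, (s (r ‖p.2‖) / ‖p.2‖) • p.2)
  rw [smul_smul, div_mul_div_cancel₀ hr.ne']

theorem F1_rad_id (r : ℝ → ℝ) (p : X × V) (hr : r ‖p.2‖ = ‖p.2‖) : rad r p = p := by
  by_cases hp : p.2 = 0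
  · have h1 : rad r p = (p.1, (r ‖p.2‖ / ‖p.2‖) • p.2) := rfl
    rw [h1, hp, smul_zero, ← hp]
  · have h1 : ‖p.2‖ ≠ 0 := norm_ne_zero_iff.2 hp
    have h2 : rad r p = (p.1, (r ‖p.2‖ / ‖p.2‖) • p.2) := rfl
    rw [h2, hr, div_self h1, one_smul]

theorem F1_rad_lip (r : ℝ → ℝ) (ℓ : ℝ) (hℓ : 1 ≤ ℓ) (p q : X × V) (hp : p.2 ≠ 0)
    (h1 : |r ‖q.2‖ - r ‖p.2‖| ≤ ℓ * |‖q.2‖ - ‖p.2‖|) (h0 : 0 ≤ r ‖p.2‖) (h2 : r ‖p.2‖ ≤ ℓ * ‖p.2‖) :
    ‖rad r q - rad r p‖ ≤ 3 * ℓ * ‖q - p‖ := by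
  obtain ⟨a, ha⟩ : ∃ a, a = ‖p.2‖ := ⟨_, rfl⟩
  obtain ⟨b, hb⟩ : ∃ b, b = ‖q.2‖ := ⟨_, rfl⟩
  have ha0 : 0 < a := by
    rw [ha]
    exact norm_pos_iff.2 hp
  have e1 : rad r q - rad r p = (q.1 - p.1, (r b / b) • q.2 - (r a / a) • p.2) := by
    rw [ha, hb]
    rfl
  have h3 : ‖q.1 - p.1‖ ≤ ‖q - p‖ := norm_fst_le (q - p)
  have h4 : ‖q.2 - p.2‖ ≤ ‖q - p‖ := norm_snd_le (q - p)
  rw [← ha, ← hb] at h1
  rw [← ha] at h0 h2
  have h5 : |b - a| ≤ ‖q.2 - p.2‖ := by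
    rw [ha, hb]
    exact abs_norm_sub_norm_le _ _
  have hN := norm_nonneg (q - p)
  have hN2 := norm_nonneg (q.2 - p.2)
  have h6 : 0 ≤ r a / a := div_nonneg h0 ha0.le
  have h7 : r a / a ≤ ℓ := by
    rw [div_le_iff₀ ha0]
    exact h2
  rw [e1, Prod.norm_def]
  apply max_le
  · change ‖q.1 - p.1‖ ≤ _
    nlinarith
  · change ‖(r b / b) • q.2 - (r a / a) • p.2‖ ≤ _
    have h8 : ‖(r b / b) • q.2 - (r a / a) • p.2‖ ≤ 3 * ℓ * ‖q.2 - p.2‖ := by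
      by_cases hq : q.2 = 0
      · rw [hq, smul_zero, zero_sub, zero_sub, norm_neg, norm_neg, norm_smul, Real.norm_eq_abs,
          abs_of_nonneg h6, ← ha, div_mul_cancel₀ _ ha0.ne']
        nlinarith
      · have hb0 : 0 < b := by
          rw [hb]
          exact norm_pos_iff.2 hq
        have e2 : (r b / b) • q.2 - (r a / a) • p.2 =
            (r a / a) • (q.2 - p.2) + (r b / b - r a / a) • q.2 := by
          rw [smul_sub, sub_smul]
          abel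
        have e3 : |r b / b - r a / a| * b ≤ 2 * ℓ * ‖q.2 - p.2‖ := by
          have e4 : |r b / b - r a / a| * b = |(r b - r a) - (r a / a) * (b - a)| := by
            have e9 : (r b - r a) - (r a / a) * (b - a) = (r b / b - r a / a) * b := by
              field_simp
              ring
            rw [e9, abs_mul, abs_of_pos hb0]
          rw [e4]
          have e5 := abs_sub (r b - r a) ((r a / a) * (b - a))
          rw [abs_mul, abs_of_nonneg h6] at e5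
          have e6 : (r a / a) * |b - a| ≤ ℓ * ‖q.2 - p.2‖ :=
            mul_le_mul h7 h5 (abs_nonneg _) (by linarith)
          have e7 : ℓ * |b - a| ≤ ℓ * ‖q.2 - p.2‖ := mul_le_mul_of_nonneg_left h5 (by linarith)
          linarith
        rw [e2]
        refine (norm_add_le _ _).trans ?_
        rw [norm_smul, norm_smul, Real.norm_eq_abs, Real.norm_eq_abs, abs_of_nonneg h6, ← hb]
        have e8 : (r a / a) * ‖q.2 - p.2‖ ≤ ℓ * ‖q.2 - p.2‖ := mul_le_mul_of_nonneg_right h7 hN2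
        linarith
    exact h8.trans (mul_le_mul_of_nonneg_left h4 (by linarith))

theorem F1_rS (g : ℝ) : rSi (rS g) = g ∧ rS (rSi g) = g := by
  constructor
  · rw [rSi, rS]
    rcases le_total g (1 / 2 + g / 6) with h | h
    · rw [min_eq_left h, max_eq_left (by linarith)]
    · rw [min_eq_right h, max_eq_right (by linarith)]
      ring
  · rw [rSi, rS]
    rcases le_total g (6 * g - 3) with h | h
    · rw [max_eq_right h, min_eq_right (by linarith)]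
      ring
    · rw [max_eq_left h, min_eq_left (by linarith)]

theorem F1_rR (g : ℝ) : rRi (rR g) = g ∧ rR (rRi g) = g := by
  constructor
  · rw [rRi, rR]
    rcases le_total (7 / 2 * g - 3) g with h | h
    · rw [min_eq_left h, max_eq_left (by linarith)]
      ring
    · rw [min_eq_right h, max_eq_right (by linarith)]
  · rw [rRi, rR]
    rcases le_total ((2 * g + 6) / 7) g with h | h
    · rw [max_eq_right h, min_eq_right (by linarith)]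
    · rw [max_eq_left h, min_eq_left (by linarith)]
      ring

theorem F1_lips (a b : ℝ) : |rS a - rS b| ≤ 1 * |a - b| ∧ |rSi a - rSi b| ≤ 6 * |a - b| ∧
    |rR a - rR b| ≤ 7 / 2 * |a - b| ∧ |rRi a - rRi b| ≤ 1 * |a - b| := by
  refine ⟨?_, ?_, ?_, ?_⟩
  · simp only [rS, min_def]
    rw [abs_le]
    rcases abs_cases (a - b) with ⟨h, h'⟩ | ⟨h, h'⟩ <;> rw [h] <;> split_ifs <;> constructor <;>
      linarith
  · simp only [rSi, max_def]
    rw [abs_le]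
    rcases abs_cases (a - b) with ⟨h, h'⟩ | ⟨h, h'⟩ <;> rw [h] <;> split_ifs <;> constructor <;>
      linarith
  · simp only [rR, min_def]
    rw [abs_le]
    rcases abs_cases (a - b) with ⟨h, h'⟩ | ⟨h, h'⟩ <;> rw [h] <;> split_ifs <;> constructor <;>
      linarith
  · simp only [rRi, max_def]
    rw [abs_le]
    rcases abs_cases (a - b) with ⟨h, h'⟩ | ⟨h, h'⟩ <;> rw [h] <;> split_ifs <;> constructor <;>
      linarith

theorem F1_kk (a : ℝ) (ha : 0 < a) (p : X × V) (hp : p.2 ≠ 0) :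
    a ≤ 2 ^ kk a p * ‖p.2‖ ∧ (kk a p = 0 ∨ 2 ^ kk a p * ‖p.2‖ < 2 * a) := by
  classical
  have hn : 0 < ‖p.2‖ := norm_pos_iff.2 hp
  have hex : ∃ k : ℕ, a ≤ 2 ^ k * ‖p.2‖ := by
    obtain ⟨k, hk⟩ := pow_unbounded_of_one_lt (a / ‖p.2‖) (show (1 : ℝ) < 2 by norm_num)
    exact ⟨k, ((div_lt_iff₀ hn).1 hk).le⟩
  have e : kk a p = Nat.find hex := by
    unfold kk
    rw [dif_pos hex]
  rw [e]
  refine ⟨Nat.find_spec hex, ?_⟩
  rcases Nat.eq_zero_or_pos (Nat.find hex) with h | h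
  · exact Or.inl h
  · right
    obtain ⟨j, hj⟩ : ∃ j, Nat.find hex = j + 1 := ⟨Nat.find hex - 1, by omega⟩
    have h1 := Nat.find_min hex (show j < Nat.find hex by omega)
    rw [hj, pow_succ]
    push Not at h1
    linarith

theorem F1_kk_char (a : ℝ) (ha : 0 < a) (p : X × V) (k : ℕ) (h : a ≤ 2 ^ k * ‖p.2‖)
    (h' : k = 0 ∨ 2 ^ k * ‖p.2‖ < 2 * a) : kk a p = k := by
  classical
  have hex : ∃ k : ℕ, a ≤ 2 ^ k * ‖p.2‖ := ⟨k, h⟩
  have e : kk a p = Nat.find hex := by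
    unfold kk
    rw [dif_pos hex]
  rw [e, Nat.find_eq_iff]
  refine ⟨h, fun m hm hc => ?_⟩
  rcases h' with h' | h'
  · omega
  · obtain ⟨j, rfl⟩ : ∃ j, k = m + 1 + j := ⟨k - (m + 1), by omega⟩
    have h1 : (1 : ℝ) ≤ 2 ^ j := one_le_pow₀ (by norm_num)
    have h2 : (2 : ℝ) ^ (m + 1 + j) * ‖p.2‖ = 2 * (2 ^ m * ‖p.2‖) * 2 ^ j := by ring
    rw [h2] at h'
    nlinarith

theorem F1_kk_half (a : ℝ) (ha : 0 < a) (p : X × V) (hp : p.2 ≠ 0) (h : ‖p.2‖ < 2 * a) :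
    kk a (lam (1 / 2) p) = kk a p + 1 := by
  obtain ⟨h1, h2⟩ := F1_kk a ha p hp
  apply F1_kk_char a ha
  · rw [F1_lam_norm _ (by norm_num), pow_succ]
    linarith
  · right
    rw [F1_lam_norm _ (by norm_num), pow_succ]
    rcases h2 with h2 | h2
    · rw [h2]
      linarith
    · linarith

theorem F1_ext_half (a : ℝ) (ha : 0 < a) (G : X × V → X × V) (p : X × V) (hp : p.2 ≠ 0) (h : ‖p.2‖ < 2 * a) :
    ext a G (lam (1 / 2) p) = lam (1 / 2) (ext a G p) := by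
  have h1 : (lam (1 / 2) p).2 ≠ 0 := by
    change (1 / 2 : ℝ) • p.2 ≠ 0
    exact smul_ne_zero (by norm_num) hp
  rw [ext, if_neg h1, ext, if_neg hp, F1_kk_half a ha p hp h, F1_lam_lam, F1_lam_lam]
  congr 1
  · rw [pow_succ]
    ring
  · congr 2
    rw [pow_succ]
    ring

theorem F1_ext_big (a : ℝ) (ha : 0 < a) (G : X × V → X × V) (p : X × V) (h : a ≤ ‖p.2‖) : ext a G p = G p := by
  have h1 : p.2 ≠ 0 := by
    rw [← norm_pos_iff]
    linarith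
  have h2 : kk a p = 0 := F1_kk_char a ha p 0 (by rw [pow_zero, one_mul]; exact h) (Or.inl rfl)
  rw [ext, if_neg h1, h2, pow_zero, pow_zero, F1_lam_one, F1_lam_one]

end H80.LD
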