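import Pool.Agent.H80.LD.F1
import Pool.Agent.H80.LD.B0b

/-!
# F2: `fFi (fF p) = p`

All points have first component `c`; `n p := ‖p.2‖`; `f, f'` move points of the shell by at most `ε ≤ 1/100` and are inverse to each other there.
If `p.2 = 0`: both maps fix `p`.  Let `p.2 ≠ 0`, `k = kk (3/8) p`, `p' = lam (2^k) p` (`F1_kk`), `fF p = lam ((1/2)^k) (gF p')`.

(A) `3/4 ≤ n p'`: then `k = 0`, `p' = p`, `fF p = f p`, `n (f p) ≥ 3/4 - 1/100 ≥ 1/2`, and `n (f p) < 2` by hypothesis, so `f p` is in the shell,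
`f' (f p) = p`, and `fFi (f p) = gFi (f p) = f' (f p) = p` (`F1_ext_big`).
(B) `3/8 ≤ n p' < 3/4`: claim `fFi (stF p') = p'` and `n (stF p') < 1`; then the general case follows from `F1_ext_half` (with `a = 1/2`) applied `k` times
(`lam ((1/2)^j) (stF p')` has radius `< 1 = 2 * (1/2)` and nonzero second component).
Let `w = f (lam 2 p')`, `n w ∈ [3/4 - ε, 3/2 + ε]`, `f' w = lam 2 p'`.
 (a) `1 ≤ n w`, `y = rad rR w`, `n y = rR (n w) ∈ [1/2, 1.51]`.
   (a1) `3/5 ≤ n (f' y)`: `z = rad rS (f' y)`, `q = stF p' = f z`.  `n (f' y) < 3/2` (if `n w ≥ 6/5` then `y = w`, `f' y = lam 2 p'`, radius `< 3/2`;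
        otherwise `n y < 6/5`), so `n z = 1/2 + n (f' y)/6 ∈ [3/5, 3/4)`, `n q ∈ [0.59, 0.76]`, `f' q = z`, and `gFi q = lam (1/2) (f' (rad rRi (f (rad rSi z))))`;
        `rad rSi z = f' y` (`F1_rad_rad`, `F1_rS`), `f (f' y) = y`, `rad rRi y = w`, `f' w = lam 2 p'`.
   (a2) `n (f' y) < 3/5`: `q = y`, `1/2 ≤ n y < 0.61`, `gFi y = lam (1/2) (f' (rad rRi y)) = lam (1/2) (f' w) = p'`.
 (b) `n w < 1`: `q = lam (1/2) w`, `fFi q = lam (1/2) (fFi w)` (`F1_ext_half`), `n w ≥ 1/2`, `fFi w = gFi w = f' w = lam 2 p'` because `n (lam 2 p') ≥ 3/4`.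
-/

open Filter Topology Metric Set

namespace H80.LD

variable {X V : Type*} [NormedAddCommGroup X] [NormedAddCommGroup V] [NormedSpace ℝ V]

theorem F2_norm {ε L : ℝ} (hε : ε ≤ 1 / 100) (c : X) (f f' : X × V → X × V)
    (h : NP ε L ({c} ×ˢ sh V) f f') (p : X × V) (hc : p.1 = c) (h1 : 1 / 3 < ‖p.2‖) (h2 : ‖p.2‖ < 2) :
    |‖(f p).2‖ - ‖p.2‖| ≤ 1 / 100 := by
  have hm : p ∈ ({c} ×ˢ sh V : Set (X × V)) := ⟨hc, h1, h2⟩
  have h3 := h.disp p hm
  have h4 : ‖(f p).2 - p.2‖ ≤ ‖f p - p‖ := by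
    have := norm_snd_le (f p - p)
    simpa using this
  exact (abs_norm_sub_norm_le _ _).trans (h4.trans (h3.trans hε))

theorem F2_norm' {ε L : ℝ} (hε : ε ≤ 1 / 100) (c : X) (f f' : X × V → X × V)
    (h : NP ε L ({c} ×ˢ sh V) f f') (p : X × V) (hc : p.1 = c) (h1 : 1 / 3 < ‖p.2‖) (h2 : ‖p.2‖ < 2) :
    |‖(f' p).2‖ - ‖p.2‖| ≤ 1 / 100 := by
  have hm : p ∈ ({c} ×ˢ sh V : Set (X × V)) := ⟨hc, h1, h2⟩
  have h3 := h.disp' p hm
  have h4 : ‖(f' p).2 - p.2‖ ≤ ‖f' p - p‖ := by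
    have := norm_snd_le (f' p - p)
    simpa using this
  exact (abs_norm_sub_norm_le _ _).trans (h4.trans (h3.trans hε))

theorem F2_inv {ε L : ℝ} (c : X) (f f' : X × V → X × V)
    (h : NP ε L ({c} ×ˢ sh V) f f') (p : X × V) (hc : p.1 = c) (h1 : 1 / 3 < ‖p.2‖) (h2 : ‖p.2‖ < 2)
    (h3 : 1 / 3 < ‖(f p).2‖) (h4 : ‖(f p).2‖ < 2) : f' (f p) = p :=
  h.inv p ⟨hc, h1, h2⟩ ⟨by rw [h.pres]; exact hc, h3, h4⟩

theorem F2_inv' {ε L : ℝ} (c : X) (f f' : X × V → X × V)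
    (h : NP ε L ({c} ×ˢ sh V) f f') (p : X × V) (hc : p.1 = c) (h1 : 1 / 3 < ‖p.2‖) (h2 : ‖p.2‖ < 2)
    (h3 : 1 / 3 < ‖(f' p).2‖) (h4 : ‖(f' p).2‖ < 2) : f (f' p) = p :=
  h.inv' p ⟨hc, h1, h2⟩ ⟨by rw [h.pres']; exact hc, h3, h4⟩

theorem F2_ne (p : X × V) (h : 0 < ‖p.2‖) : p.2 ≠ 0 := by
  intro h0
  rw [h0, norm_zero] at h
  exact lt_irrefl _ h

theorem F2_lam_half (p : X × V) : lam (1 / 2) (lam 2 p) = p := by
  rw [F1_lam_lam]
  norm_num
  exact F1_lam_one p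

/-- The claim (B) at radius in `[3/8, 3/4)`. -/
theorem F2_claim {ε L : ℝ} (hε : ε ≤ 1 / 100) (c : X) (f f' : X × V → X × V)
    (h : NP ε L ({c} ×ˢ sh V) f f') (p : X × V) (hc : p.1 = c) (h1 : 3 / 8 ≤ ‖p.2‖) (h2 : ‖p.2‖ < 3 / 4) :
    fFi f f' (stF f f' p) = p ∧ ‖(stF f f' p).2‖ < 1 ∧ 0 < ‖(stF f f' p).2‖ := by
  have hP : ‖(lam 2 p).2‖ = 2 * ‖p.2‖ := F1_lam_norm 2 (by norm_num) p
  have hPc : (lam 2 p).1 = c := hc
  have hw0 := abs_le.1 (F2_norm hε c f f' h (lam 2 p) hPc (by rw [hP]; linarith) (by rw [hP]; linarith))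
  rw [hP] at hw0
  have hwP : f' (f (lam 2 p)) = lam 2 p := F2_inv c f f' h _ hPc (by rw [hP]; linarith)
    (by rw [hP]; linarith) (by linarith [hw0.1]) (by linarith [hw0.2])
  have hwc : (f (lam 2 p)).1 = c := by rw [h.pres]; exact hPc
  unfold stF
  generalize hwe : f (lam 2 p) = w at hw0 hwP hwc ⊢
  have hwpos : w.2 ≠ 0 := F2_ne w (by linarith [hw0.1])
  by_cases hw1 : 1 ≤ ‖w.2‖
  · rw [if_pos hw1]
    have hrR : rR ‖w.2‖ ≤ ‖w.2‖ ∧ 1 / 2 ≤ rR ‖w.2‖ := by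
      unfold rR
      exact ⟨min_le_right _ _, le_min (by linarith) (by linarith)⟩
    have hyn : ‖(rad rR w).2‖ = rR ‖w.2‖ := by
      rw [F1_rad_norm rR w hwpos, abs_of_nonneg (by linarith [hrR.2])]
    have hyc : (rad rR w).1 = c := hwc
    have hback : rad rRi (rad rR w) = w := by
      rw [F1_rad_rad rR rRi w hwpos (by linarith [hrR.2])]
      exact F1_rad_id _ _ (F1_rR _).1
    have hcase : 6 / 5 ≤ ‖w.2‖ → rad rR w = w := by
      intro h65
      refine F1_rad_id _ _ ?_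
      unfold rR
      exact min_eq_right (by linarith)
    generalize rad rR w = y at hyn hyc hback hcase ⊢
    have hu0 := abs_le.1 (F2_norm' hε c f f' h y hyc (by rw [hyn]; linarith [hrR.2])
      (by rw [hyn]; linarith [hrR.1, hw0.2]))
    rw [hyn] at hu0
    by_cases hu1 : 3 / 5 ≤ ‖(f' y).2‖
    · have hst : stT f f' y = f (rad rS (f' y)) := by
        unfold stT
        rw [if_pos hu1]
      rw [hst]
      have hfu : f (f' y) = y := F2_inv' c f f' h y hyc (by rw [hyn]; linarith [hrR.2])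
        (by rw [hyn]; linarith [hrR.1, hw0.2]) (by linarith) (by linarith [hu0.2, hrR.1, hw0.2])
      have hu2 : ‖(f' y).2‖ < 3 / 2 := by
        by_cases h65 : 6 / 5 ≤ ‖w.2‖
        · rw [hcase h65, hwP, hP]; linarith
        · push Not at h65
          linarith [hu0.2, hrR.1]
      have huc : (f' y).1 = c := by rw [h.pres']; exact hyc
      generalize f' y = u at hu0 hu1 hfu hu2 huc ⊢
      have hupos : u.2 ≠ 0 := F2_ne u (by linarith)
      have hrS : rS ‖u.2‖ = 1 / 2 + ‖u.2‖ / 6 := by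
        unfold rS
        exact min_eq_right (by linarith)
      have hzn : ‖(rad rS u).2‖ = 1 / 2 + ‖u.2‖ / 6 := by
        rw [F1_rad_norm rS u hupos, hrS, abs_of_nonneg (by positivity)]
      have hzc : (rad rS u).1 = c := huc
      have hzback : rad rSi (rad rS u) = u := by
        rw [F1_rad_rad rS rSi u hupos (by rw [hrS]; positivity)]
        exact F1_rad_id _ _ (F1_rS _).1
      generalize rad rS u = z at hzn hzc hzback ⊢
      have hq0 := abs_le.1 (F2_norm hε c f f' h z hzc (by rw [hzn]; linarith) (by rw [hzn]; linarith))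
      rw [hzn] at hq0
      have hqz : f' (f z) = z := F2_inv c f f' h z hzc (by rw [hzn]; linarith) (by rw [hzn]; linarith)
        (by linarith [hq0.1]) (by linarith [hq0.2])
      refine ⟨?_, by linarith [hq0.2], by linarith [hq0.1]⟩
      have hbig : fFi f f' (f z) = gFi f f' (f z) :=
        F1_ext_big (1 / 2) (by norm_num) _ _ (by linarith [hq0.1])
      rw [hbig]
      unfold gFi stTi
      rw [hqz, if_neg (by rw [hzn]; linarith), if_pos (by rw [hzn]; linarith), hzback, hfu, hback, hwP]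
      exact F2_lam_half p
    · have hst : stT f f' y = y := by
        unfold stT
        rw [if_neg hu1]
      rw [hst]
      push Not at hu1
      refine ⟨?_, by rw [hyn]; linarith [hu0.1], by rw [hyn]; linarith [hrR.2]⟩
      have hbig : fFi f f' y = gFi f f' y :=
        F1_ext_big (1 / 2) (by norm_num) _ _ (by rw [hyn]; exact hrR.2)
      rw [hbig]
      unfold gFi stTi
      rw [if_neg (by linarith), if_neg (by linarith), hback, hwP]
      exact F2_lam_half p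
  · rw [if_neg hw1]
    push Not at hw1
    have hn : ‖(lam (1 / 2) w).2‖ = 1 / 2 * ‖w.2‖ := F1_lam_norm _ (by norm_num) w
    refine ⟨?_, by rw [hn]; linarith, by rw [hn]; linarith [hw0.1]⟩
    have e1 : fFi f f' (lam (1 / 2) w) = lam (1 / 2) (fFi f f' w) :=
      F1_ext_half (1 / 2) (by norm_num) _ w hwpos (by linarith)
    have e2 : fFi f f' w = gFi f f' w :=
      F1_ext_big (1 / 2) (by norm_num) _ _ (by linarith [hw0.1])
    rw [e1, e2]
    unfold gFi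
    rw [hwP, if_pos (by rw [hP]; linarith)]
    exact F2_lam_half p

theorem F2_iter (f f' : X × V → X × V) (q : X × V) (h0 : 0 < ‖q.2‖) (h1 : ‖q.2‖ < 1) (k : ℕ) :
    fFi f f' (lam ((1 / 2) ^ k) q) = lam ((1 / 2) ^ k) (fFi f f' q) := by
  induction k with
  | zero => rw [pow_zero, F1_lam_one, F1_lam_one]
  | succ k ih =>
    have hk : (0 : ℝ) < (1 / 2) ^ k := by positivity
    have hk1 : ((1 : ℝ) / 2) ^ k ≤ 1 := pow_le_one₀ (by norm_num) (by norm_num)
    have hn : ‖(lam ((1 / 2) ^ k) q).2‖ = (1 / 2) ^ k * ‖q.2‖ := F1_lam_norm _ hk.le q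
    have e : lam ((1 / 2) ^ (k + 1)) q = lam (1 / 2) (lam ((1 / 2) ^ k) q) := by
      rw [F1_lam_lam, pow_succ, mul_comm]
    have e' : lam ((1 / 2) ^ (k + 1)) (fFi f f' q) = lam (1 / 2) (lam ((1 / 2) ^ k) (fFi f f' q)) := by
      rw [F1_lam_lam, pow_succ, mul_comm]
    rw [e, e', ← ih]
    refine F1_ext_half (1 / 2) (by norm_num) _ _ (F2_ne _ ?_) ?_
    · rw [hn]; positivity
    · rw [hn]; nlinarith

theorem F2_left {ε L : ℝ} (hε : ε ≤ 1 / 100) (c : X) (f f' : X × V → X × V)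
    (h : NP ε L ({c} ×ˢ sh V) f f') (p : X × V) (hc : p.1 = c) (hp : ‖p.2‖ < 2) (hq : ‖(fF f f' p).2‖ < 2) :
    fFi f f' (fF f f' p) = p := by
  by_cases h0 : p.2 = 0
  · have e1 : fF f f' p = p := by
      unfold fF ext
      rw [if_pos h0]
    rw [e1]
    unfold fFi ext
    rw [if_pos h0]
  by_cases h1 : 3 / 4 ≤ ‖p.2‖
  · have e1 : fF f f' p = f p := by
      have : fF f f' p = gF f f' p := F1_ext_big (3 / 8) (by norm_num) _ _ (by linarith)
      rw [this]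
      unfold gF
      rw [if_pos h1]
    rw [e1] at hq ⊢
    have hn := abs_le.1 (F2_norm hε c f f' h p hc (by linarith) hp)
    have hi : f' (f p) = p := F2_inv c f f' h p hc (by linarith) hp (by linarith [hn.1]) hq
    have e2 : fFi f f' (f p) = gFi f f' (f p) :=
      F1_ext_big (1 / 2) (by norm_num) _ _ (by linarith [hn.1])
    rw [e2]
    unfold gFi
    rw [hi, if_pos h1]
  push Not at h1
  obtain ⟨k1, k2⟩ := F1_kk (3 / 8) (by norm_num) p h0
  have e1 : fF f f' p = lam ((1 / 2) ^ kk (3 / 8) p) (gF f f' (lam (2 ^ kk (3 / 8) p) p)) := by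
    unfold fF ext
    rw [if_neg h0]
  rw [e1]
  generalize kk (3 / 8) p = k at k1 k2 ⊢
  have hpn : ‖(lam (2 ^ k) p).2‖ = 2 ^ k * ‖p.2‖ := F1_lam_norm _ (by positivity) p
  have hlt : 2 ^ k * ‖p.2‖ < 3 / 4 := by
    rcases k2 with rfl | k2
    · rw [pow_zero, one_mul]; exact h1
    · linarith
  obtain ⟨c1, c2, c3⟩ := F2_claim hε c f f' h (lam (2 ^ k) p) hc (by rw [hpn]; exact k1)
    (by rw [hpn]; exact hlt)
  have e2 : gF f f' (lam (2 ^ k) p) = stF f f' (lam (2 ^ k) p) := by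
    unfold gF
    rw [if_neg (by rw [hpn]; linarith)]
  rw [e2, F2_iter f f' _ c3 c2 k, c1, F1_lam_lam]
  have : ((1 : ℝ) / 2) ^ k * 2 ^ k = 1 := by
    rw [← mul_pow]; norm_num
  rw [this, F1_lam_one]

end H80.LD
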