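import Pool.Agent.H80.LD.F1
import Pool.Agent.H80.LD.B0b

/-!
# F3: `fF (fFi y) = y`

Notation as in F2 (`n y := ‖y.2‖`).  If `y.2 = 0` both maps fix `y`.  Let `k = kk (1/2) y`, `y' = lam (2^k) y`, `n y' ≥ 1/2`, and `n y' < 1` if `k ≥ 1`;
`fFi y = lam ((1/2)^k) (gFi y')`.
(A) `3/4 ≤ n (f' y')`, `r = f' y'` (`y'` is in the shell: `1/2 ≤ n y' < 2`).
   `k = 0`: `fFi y = r`, `n r < 2` by hypothesis, `fF r = gF r = f r = y` (`F1_ext_big`, `inv'`).
   `k ≥ 1`: `n y' < 1`, `n r < 1.01`.  `fF (lam (1/2) r) = stF (lam (1/2) r)` as `3/8 ≤ n r / 2 < 3/4`; `f (lam 2 (lam (1/2) r)) = f r = y'` has radius `< 1`, so it is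
   `lam (1/2) y'`.  Then `k - 1` applications of `F1_ext_half` (`a = 3/8`; the radius of `lam (1/2) r` is `< 3/4 = 2a`, and smaller afterwards).
(B) `n (f' y') < 3/4`: `r = lam (1/2) (f' (rad rRi u))`, `u = stTi y'`.  Here `n y' < 1`.
   (B1) `3/5 ≤ n (f' y')`: `s = rad rSi (f' y')`, `n s = 6 n(f' y') - 3 ∈ [3/5, 3/2)`, `u = f s`, `f' u = s`, `n u ∈ [0.59, 1.51]`.
   (B2) `n (f' y') < 3/5`: `u = y'`, `n u ∈ [1/2, 0.61)`.
   `v = rad rRi u`, `n v = rRi (n u) ≥ 1` and `< 1.52`; `f' v` has radius `≥ 0.99`, `< 3/2` (if `n u ≥ 6/5`, case B1, then `v = u`, `f' v = s`; otherwise `n v < 6/5`).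
   So `3/8 ≤ n r < 3/4`, `fF r = gF r = stF r`; `f (lam 2 r) = f (f' v) = v`, `1 ≤ n v`, `rad rR v = u`; `stT u`: B1: `n (f' u) = n s ≥ 3/5`,
   `f (rad rS s) = f (f' y') = y'`; B2: `n (f' u) < 3/5` so `stT u = u = y'`.  Hence `fF r = y'`; the powers of 2 by `F1_ext_half` as `n r < 3/4`.
-/

open Filter Topology Metric Set

namespace H80.LD

variable {X V : Type*} [NormedAddCommGroup X] [NormedAddCommGroup V] [NormedSpace ℝ V]

omit [NormedSpace ℝ V] in
theorem F3_near {ε : ℝ} (hε : ε ≤ 1 / 100) (q p : X × V) (hd : ‖q - p‖ ≤ ε) :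
    ‖q.2‖ ≤ ‖p.2‖ + 1 / 100 ∧ ‖p.2‖ ≤ ‖q.2‖ + 1 / 100 := by
  have h1 : ‖q.2 - p.2‖ ≤ ‖q - p‖ := norm_snd_le (q - p)
  have h2 := abs_norm_sub_norm_le q.2 p.2
  rw [abs_le] at h2
  constructor <;> linarith [h2.1, h2.2]

theorem F3_pow (a : ℝ) (ha : 0 < a) (G : X × V → X × V) (r : X × V) (hr0 : r.2 ≠ 0)
    (hr : ‖r.2‖ < 2 * a) (j : ℕ) :
    ext a G (lam ((1 / 2) ^ j) r) = lam ((1 / 2) ^ j) (ext a G r) := by
  induction j with
  | zero => rw [pow_zero, F1_lam_one, F1_lam_one]
  | succ j ih =>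
    have e : lam ((1 / 2 : ℝ) ^ (j + 1)) r = lam (1 / 2) (lam ((1 / 2) ^ j) r) := by
      rw [F1_lam_lam, pow_succ, mul_comm]
    have hpos : (0 : ℝ) < (1 / 2) ^ j := by positivity
    have hle : ((1 / 2 : ℝ)) ^ j ≤ 1 := pow_le_one₀ (by norm_num) (by norm_num)
    rw [e, F1_ext_half a ha G _ ?_ ?_, ih, F1_lam_lam, pow_succ, mul_comm]
    · show ((1 / 2 : ℝ) ^ j) • r.2 ≠ 0
      exact smul_ne_zero hpos.ne' hr0
    · rw [F1_lam_norm _ hpos.le]
      have := norm_nonneg r.2
      nlinarith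

theorem F3_right {ε L : ℝ} (hε : ε ≤ 1 / 100) (c : X) (f f' : X × V → X × V)
    (h : NP ε L ({c} ×ˢ sh V) f f') (y : X × V) (hc : y.1 = c) (hy : ‖y.2‖ < 2) (hq : ‖(fFi f f' y).2‖ < 2) :
    fF f f' (fFi f f' y) = y := by
  by_cases hy0 : y.2 = 0
  · have e1 : fFi f f' y = y := by
      unfold fFi ext
      rw [if_pos hy0]
    rw [e1]
    unfold fF ext
    rw [if_pos hy0]
  have mem : ∀ a : X × V, a.1 = c → 1 / 3 < ‖a.2‖ → ‖a.2‖ < 2 → a ∈ ({c} ×ˢ sh V : Set (X × V)) :=
    fun a h1 h2 h3 => ⟨h1, h2, h3⟩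
  obtain ⟨hk1, hk2⟩ := F1_kk (1 / 2) (by norm_num) y hy0
  have hfi : fFi f f' y = lam ((1 / 2) ^ kk (1 / 2) y) (gFi f f' (lam (2 ^ kk (1 / 2) y) y)) := by
    unfold fFi ext
    rw [if_neg hy0]
  set k := kk (1 / 2) y with hk
  set y' : X × V := lam (2 ^ k) y with hy'
  have hn : ‖y'.2‖ = 2 ^ k * ‖y.2‖ := F1_lam_norm _ (by positivity) y
  rw [← hn] at hk1 hk2
  have hy1 : y'.1 = c := hc
  have hy2 : ‖y'.2‖ < 2 := by
    rcases hk2 with h0 | h1
    · rw [hn, h0, pow_zero, one_mul]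
      exact hy
    · linarith
  have hyS := mem y' hy1 (by linarith) hy2
  have hback : lam ((1 / 2 : ℝ) ^ k) y' = y := by
    rw [hy', F1_lam_lam, ← mul_pow]
    norm_num
    exact F1_lam_one y
  have hr1 : (f' y').1 = c := by rw [h.pres', hy1]
  obtain ⟨hd1, hd2⟩ := F3_near hε (f' y') y' (h.disp' y' hyS)
  by_cases hA : 3 / 4 ≤ ‖(f' y').2‖
  · -- case A
    have hg : gFi f f' y' = f' y' := by
      unfold gFi
      rw [if_pos hA]
    rw [hg] at hfi
    rcases Nat.eq_zero_or_pos k with h0 | h0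
    · have e0 : y' = y := by rw [hy', h0, pow_zero, F1_lam_one]
      rw [h0, pow_zero, F1_lam_one] at hfi
      rw [hfi] at hq ⊢
      have e1 : fF f f' (f' y') = f (f' y') := by
        unfold fF
        rw [F1_ext_big _ (by norm_num) _ _ (by linarith)]
        unfold gF
        rw [if_pos hA]
      rw [e1, h.inv' y' hyS (mem _ hr1 (by linarith) hq), e0]
    · have h1 : ‖y'.2‖ < 1 := by
        rcases hk2 with h2 | h2
        · omega
        · linarith
      obtain ⟨j, hj⟩ : ∃ j, k = j + 1 := ⟨k - 1, by omega⟩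
      have hrS : f' y' ∈ ({c} ×ˢ sh V : Set (X × V)) := mem _ hr1 (by linarith) (by linarith)
      have hff : f (f' y') = y' := h.inv' y' hyS hrS
      set r := f' y' with hr
      have hn1 : ‖(lam (1 / 2) r).2‖ = 1 / 2 * ‖r.2‖ := F1_lam_norm _ (by norm_num) r
      have hr0 : (lam (1 / 2) r).2 ≠ 0 := by
        intro h0
        rw [h0, norm_zero] at hn1
        linarith
      have e2 : lam ((1 / 2 : ℝ) ^ k) r = lam ((1 / 2) ^ j) (lam (1 / 2) r) := by
        rw [F1_lam_lam, hj, pow_succ]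
      have e3 : fF f f' (lam (1 / 2) r) = lam (1 / 2) y' := by
        unfold fF
        rw [F1_ext_big _ (by norm_num) _ _ (by rw [hn1]; linarith)]
        unfold gF
        rw [if_neg (by rw [hn1]; linarith)]
        unfold stF
        have e4 : lam 2 (lam (1 / 2) r) = r := by
          rw [F1_lam_lam]
          norm_num
          exact F1_lam_one r
        rw [e4, hff, if_neg (by linarith)]
      rw [hfi, e2]
      have e5 := F3_pow (3 / 8) (by norm_num) (gF f f') (lam (1 / 2) r) hr0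
        (by rw [hn1]; linarith) j
      have e6 : ext (3 / 8) (gF f f') (lam (1 / 2) r) = lam (1 / 2) y' := e3
      show ext (3 / 8) (gF f f') _ = y
      rw [e5, e6, F1_lam_lam, ← pow_succ, ← hj, hback]
  · -- case B
    have hA' : ‖(f' y').2‖ < 3 / 4 := not_le.1 hA
    have hg : gFi f f' y' = lam (1 / 2) (f' (rad rRi (stTi f f' y'))) := by
      unfold gFi
      rw [if_neg hA]
    set t := ‖(f' y').2‖ with ht
    set u := stTi f f' y' with hu
    -- properties of u
    have key : u.1 = c ∧ 1 / 2 ≤ ‖u.2‖ ∧ ‖u.2‖ ≤ 151 / 100 ∧ (6 / 5 ≤ ‖u.2‖ → ‖(f' u).2‖ < 3 / 2) ∧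
        stT f f' u = y' := by
      by_cases hB : 3 / 5 ≤ t
      · have hu1 : u = f (rad rSi (f' y')) := by
          rw [hu]
          unfold stTi
          rw [if_pos hB]
        have hrs : rSi t = 6 * t - 3 := by
          unfold rSi
          exact max_eq_right (by linarith)
        have hfy0 : (f' y').2 ≠ 0 := by
          intro h0
          rw [ht, h0, norm_zero] at hB
          linarith
        have hsn : ‖(rad rSi (f' y')).2‖ = 6 * t - 3 := by
          rw [F1_rad_norm _ _ hfy0, ← ht, hrs, abs_of_nonneg (by linarith)]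
        have hs1 : (rad rSi (f' y')).1 = c := hr1
        have hsS := mem _ hs1 (by rw [hsn]; linarith) (by rw [hsn]; linarith)
        obtain ⟨h5, h6⟩ := F3_near hε _ _ (h.disp _ hsS)
        rw [← hu1, hsn] at h5 h6
        have huc : u.1 = c := by rw [hu1, h.pres]; exact hs1
        have huS := mem u huc (by linarith) (by linarith)
        have hfu : f' u = rad rSi (f' y') := by
          rw [hu1]
          exact h.inv _ hsS (by rw [← hu1]; exact huS)
        refine ⟨huc, by linarith, by linarith, fun _ => by rw [hfu, hsn]; linarith, ?_⟩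
        unfold stT
        rw [if_pos (by rw [hfu, hsn]; linarith), hfu, F1_rad_rad _ _ _ hfy0 (by
          rw [← ht, hrs]; linarith), F1_rad_id _ _ (F1_rS _).2]
        exact h.inv' y' hyS (mem _ hr1 (by rw [← ht]; linarith) (by rw [← ht]; linarith))
      · have hu1 : u = y' := by
          rw [hu]
          unfold stTi
          rw [if_neg hB]
        refine ⟨by rw [hu1]; exact hy1, by rw [hu1]; linarith, ?_, ?_, ?_⟩
        · rw [hu1]; linarith
        · intro h7
          rw [hu1, ← ht]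
          linarith
        · unfold stT
          rw [hu1, if_neg hB]
    obtain ⟨huc, hu1, hu2, hu3, hst⟩ := key
    have hu0 : u.2 ≠ 0 := by
      intro h0
      rw [h0, norm_zero] at hu1
      linarith
    have hR1 : 1 ≤ rRi ‖u.2‖ := by
      unfold rRi
      refine le_trans ?_ (le_max_left _ _)
      linarith
    have hR2 : rRi ‖u.2‖ ≤ 151 / 100 := by
      unfold rRi
      refine max_le ?_ hu2
      linarith
    have hvn : ‖(rad rRi u).2‖ = rRi ‖u.2‖ := by
      rw [F1_rad_norm _ _ hu0, abs_of_nonneg (by linarith)]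
    have hvc : (rad rRi u).1 = c := huc
    have hvS := mem _ hvc (by rw [hvn]; linarith) (by rw [hvn]; linarith)
    obtain ⟨h5, h6⟩ := F3_near hε _ _ (h.disp' _ hvS)
    rw [hvn] at h5 h6
    have hfv : ‖(f' (rad rRi u)).2‖ < 3 / 2 := by
      by_cases h7 : 6 / 5 ≤ ‖u.2‖
      · have h8 : rRi ‖u.2‖ = ‖u.2‖ := by
          unfold rRi
          exact max_eq_right (by linarith)
        rw [F1_rad_id _ _ h8]
        exact hu3 h7
      · have h8 : rRi ‖u.2‖ = (2 * ‖u.2‖ + 6) / 7 := by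
          unfold rRi
          exact max_eq_left (by linarith)
        rw [h8] at h5
        linarith
    have hfvc : (f' (rad rRi u)).1 = c := by rw [h.pres']; exact hvc
    have hffv : f (f' (rad rRi u)) = rad rRi u :=
      h.inv' _ hvS (mem _ hfvc (by linarith) (by linarith))
    set r := lam (1 / 2) (f' (rad rRi u)) with hr
    have hrn : ‖r.2‖ = 1 / 2 * ‖(f' (rad rRi u)).2‖ := F1_lam_norm _ (by norm_num) _
    have hr0 : r.2 ≠ 0 := by
      intro h0
      rw [h0, norm_zero] at hrn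
      linarith
    have e1 : ext (3 / 8) (gF f f') r = y' := by
      rw [F1_ext_big _ (by norm_num) _ _ (by rw [hrn]; linarith)]
      unfold gF
      rw [if_neg (by rw [hrn]; linarith)]
      unfold stF
      have e4 : lam 2 r = f' (rad rRi u) := by
        rw [hr, F1_lam_lam]
        norm_num
        exact F1_lam_one _
      rw [e4, hffv, if_pos (by rw [hvn]; exact hR1), F1_rad_rad _ _ _ hu0 (by linarith),
        F1_rad_id _ _ (F1_rR _).2]
      exact hst
    rw [hfi, hg]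
    show ext (3 / 8) (gF f f') (lam ((1 / 2) ^ k) r) = y
    rw [F3_pow (3 / 8) (by norm_num) (gF f f') r hr0 (by rw [hrn]; linarith) k, e1, hback]

end H80.LD
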