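import Pool.Agent.H80.LD.F1
import Pool.Agent.H80.LD.B0b

/-!
# F4: pointwise Lipschitz bound of `fF`

Tools: `B0b_plip_comp` (chain rule), `B0b_ite` (two formulas which agree at the point), `B0b_cont`, `F1_rad_lip` (factor `3 ℓ`; `rR`: `ℓ = 7/2`, `rS`: `ℓ = 1`,
note `rR g ≤ g`, `rS g ≤ g`).  The pointwise bounds of `f` are used at points of the shell with first component `c` only.
The centre `p.2 = 0` is treated in F4b.
* `p.2 ≠ 0`, `k = kk (3/8) p`, `p' = lam (2^k) p`.  If `3/8 < n p' < 3/4`: near `p`, `kk` is constant (`F1_kk_char`) and `fF q = lam ((1/2)^k) (stF (lam (2^k) q))`; scaling does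
  not change the constant (`lam ((1/2)^k)` multiplies the second component by `2^{-k}`, `lam (2^k)` by `2^k`; write the bound for
  `‖(fF q - fF p).2‖` and note that the first component is `q.1 - p.1`; at `p'` use the bound of `stF` for the point `lam (2^k) q`, whose distance to `p'` is
  `max (‖q.1 - p.1‖, 2^k ‖q.2 - p.2‖) ≤ 2^k ‖q - p‖`).
  If `n p' = 3/8` : near `p`, `fF q` is `lam ((1/2)^k) (lam (1/2) (f (lam 2 (lam (2^k) q))))` or `lam ((1/2)^(k+1)) (stF (lam (2^(k+1)) q))` where the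
  latter is `lam ((1/2)^(k+1)) (f (rad rS (f' (f (lam 2 (lam (2^(k+1)) q))))))`, equal at `q = p` (`f' (f x) = x` at `x = lam 2 (lam (2^(k+1)) p)`, radius `3/2`, `rS (3/2) = 3/4`).
  If `n p' = 3/4` then `k = 0`, near `p` `fF q` is `f q` or the same formula `f (rad rS (f' (f (lam 2 q))))`.
  If `n p' > 3/4` then `k = 0` and `fF = f` near `p`.
* `stF` at `p'` with `3/8 < n p' < 3/4` (`w = f (lam 2 p')`): if `n w < 1`: near `p'` it is `lam (1/2) ∘ f ∘ lam 2`; if `n w = 1` it is that or `stT (rad rR (f (lam 2 q)))`, where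
  near `y = rad rR w` (radius `1/2`, `n (f' y) < 3/5`) `stT` is the identity; if `n w > 1` it is `stT ∘ rad rR ∘ f ∘ lam 2`.  `stT` at `y`, `1/2 ≤ n y ≤ 1.51`: `y` if `n (f' y) < 3/5`; `f ∘ rad rS ∘ f'` if
  `> 3/5`; one of the two if `= 3/5` (`rS (3/5) = 3/5`, `f (f' y) = y`).
Constant: `2 * L * (21/2) * L * 3 * L ≤ 100 L^3`.
-/

open Filter Topology Metric Set

set_option linter.unusedSectionVars false

namespace H80.LD

variable {X V : Type*} [NormedAddCommGroup X] [NormedAddCommGroup V] [NormedSpace ℝ V]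

theorem F4_mem {c : X} {x : X × V} (hc : x.1 = c) (h1 : 1 / 3 < ‖x.2‖) (h2 : ‖x.2‖ < 2) :
    x ∈ ({c} : Set X) ×ˢ sh V := ⟨hc, h1, h2⟩

theorem F4_near {x y : X × V} {ε : ℝ} (h : ‖y - x‖ ≤ ε) :
    ‖x.2‖ - ε ≤ ‖y.2‖ ∧ ‖y.2‖ ≤ ‖x.2‖ + ε := by
  have h1 : ‖y.2 - x.2‖ ≤ ε := (norm_snd_le (y - x)).trans h
  have h2 := norm_sub_norm_le x.2 y.2
  have h3 := norm_sub_norm_le y.2 x.2
  rw [norm_sub_rev] at h2
  constructor <;> linarith

/-- local equality -/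
theorem F4_evt {E F : Type*} [NormedAddCommGroup E] [NormedAddCommGroup F] {G G₁ : E → F}
    {L : ℝ} {p : E} (h : ∀ᶠ q in 𝓝 p, G q = G₁ q)
    (l1 : ∀ᶠ q in 𝓝 p, ‖G₁ q - G₁ p‖ ≤ L * ‖q - p‖) :
    ∀ᶠ q in 𝓝 p, ‖G q - G p‖ ≤ L * ‖q - p‖ := by
  have h0 : G p = G₁ p := h.self_of_nhds
  filter_upwards [h, l1] with q h1 h2
  rw [h1, h0]
  exact h2

theorem F4_mono {E F : Type*} [NormedAddCommGroup E] [NormedAddCommGroup F] {G : E → F}
    {L M : ℝ} {p : E} (hLM : L ≤ M) (l : ∀ᶠ q in 𝓝 p, ‖G q - G p‖ ≤ L * ‖q - p‖) :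
    ∀ᶠ q in 𝓝 p, ‖G q - G p‖ ≤ M * ‖q - p‖ := by
  filter_upwards [l] with q hq
  exact hq.trans (mul_le_mul_of_nonneg_right hLM (norm_nonneg _))

theorem F4_lamc (a : ℝ) : Continuous (lam a : X × V → X × V) := by
  unfold lam
  fun_prop

theorem F4_rS (g : ℝ) (hg : 0 ≤ g) : 0 ≤ rS g ∧ rS g ≤ g := by
  unfold rS
  exact ⟨le_min hg (by linarith), min_le_left _ _⟩

section
variable {ε L : ℝ} {c : X} {f f' : X × V → X × V}

/-- the map `f ∘ rad rS ∘ f'` -/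
theorem F4_T1 (hL : 1 ≤ L) (hε : ε ≤ 1 / 100) (h : NP ε L ({c} ×ˢ sh V) f f') (y : X × V)
    (hc : y.1 = c) (h1 : 1 / 2 ≤ ‖y.2‖) (h2 : ‖y.2‖ ≤ 151 / 100) :
    ∀ᶠ q in 𝓝 y, ‖f (rad rS (f' q)) - f (rad rS (f' y))‖ ≤ (L * (3 * L)) * ‖q - y‖ := by
  have hyU : y ∈ ({c} : Set X) ×ˢ sh V := F4_mem hc (by linarith) (by linarith)
  have hd := F4_near (h.disp' y hyU)
  have hz0 : (f' y).2 ≠ 0 := by
    intro h0
    rw [h0, norm_zero] at hd
    linarith [hd.1]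
  have l1 := h.lip' y hyU
  have l2 : ∀ᶠ q in 𝓝 (f' y), ‖rad rS q - rad rS (f' y)‖ ≤ (3 * 1) * ‖q - f' y‖ := by
    refine Filter.Eventually.of_forall (fun q => ?_)
    have hh := F4_rS ‖(f' y).2‖ (norm_nonneg _)
    exact F1_rad_lip rS 1 le_rfl (f' y) q hz0 (F1_lips _ _).1 hh.1 (by linarith [hh.2])
  have l12 := B0b_plip_comp (by norm_num) l1 l2
  have hrad : ‖(rad rS (f' y)).2‖ = rS ‖(f' y).2‖ := by
    rw [F1_rad_norm rS (f' y) hz0, abs_of_nonneg (F4_rS _ (norm_nonneg _)).1]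
  have hU2 : rad rS (f' y) ∈ ({c} : Set X) ×ˢ sh V := by
    refine F4_mem ?_ ?_ ?_
    · show (f' y).1 = c
      rw [h.pres', hc]
    · rw [hrad]
      unfold rS
      rw [lt_min_iff]
      constructor <;> linarith [hd.1]
    · rw [hrad]
      have := (F4_rS ‖(f' y).2‖ (norm_nonneg _)).2
      linarith [hd.2]
  have l3 := h.lip _ hU2
  have l123 := B0b_plip_comp (G := fun q => rad rS (f' q)) (by linarith : (0 : ℝ) ≤ L) l12 l3
  refine F4_mono ?_ l123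
  nlinarith

theorem F4_T (hL : 1 ≤ L) (hε : ε ≤ 1 / 100) (h : NP ε L ({c} ×ˢ sh V) f f') (y : X × V)
    (hc : y.1 = c) (h1 : 1 / 2 ≤ ‖y.2‖) (h2 : ‖y.2‖ ≤ 151 / 100) :
    ∀ᶠ q in 𝓝 y, ‖stT f f' q - stT f f' y‖ ≤ (L * (3 * L)) * ‖q - y‖ := by
  have hyU : y ∈ ({c} : Set X) ×ˢ sh V := F4_mem hc (by linarith) (by linarith)
  have hd := F4_near (h.disp' y hyU)
  have lT := F4_T1 hL hε h y hc h1 h2
  have lid : ∀ᶠ q in 𝓝 y, ‖(fun q => q) q - (fun q => q) y‖ ≤ (L * (3 * L)) * ‖q - y‖ := by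
    refine Filter.Eventually.of_forall (fun q => ?_)
    have h3 : 1 ≤ L * (3 * L) := by nlinarith
    have := norm_nonneg (q - y)
    show ‖q - y‖ ≤ (L * (3 * L)) * ‖q - y‖
    nlinarith
  have hcont : ContinuousAt (fun q => ‖(f' q).2‖) y :=
    (continuous_norm.continuousAt).comp (continuous_snd.continuousAt.comp
      (B0b_cont (h.lip' y hyU)))
  rcases lt_trichotomy ‖(f' y).2‖ (3 / 5) with hlt | heq | hgt
  · refine F4_evt ?_ lid
    filter_upwards [hcont.eventually (gt_mem_nhds hlt)] with q hq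
    unfold stT
    rw [if_neg (not_le.mpr hq)]
  · refine B0b_ite (Filter.Eventually.of_forall (fun q => ?_)) ?_ ?_ lT lid
    · unfold stT
      split_ifs
      · left; rfl
      · right; rfl
    · unfold stT
      rw [if_pos heq.ge]
    · unfold stT
      rw [if_pos heq.ge]
      have h3 : rad rS (f' y) = f' y := by
        apply F1_rad_id
        rw [heq]
        unfold rS
        norm_num
      rw [h3]
      exact h.inv' y hyU (F4_mem (by rw [h.pres', hc]) (by rw [heq]; norm_num)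
        (by rw [heq]; norm_num))
  · refine F4_evt ?_ lT
    filter_upwards [hcont.eventually (lt_mem_nhds hgt)] with q hq
    unfold stT
    rw [if_pos (le_of_lt hq)]

theorem F4_f2 (hL : 1 ≤ L) (h : NP ε L ({c} ×ˢ sh V) f f') (p : X × V)
    (hc : p.1 = c) (h1 : 3 / 8 ≤ ‖p.2‖) (h2 : ‖p.2‖ ≤ 3 / 4) :
    ∀ᶠ q in 𝓝 p, ‖f (lam 2 q) - f (lam 2 p)‖ ≤ (L * 2) * ‖q - p‖ := by
  have hn : ‖(lam 2 p).2‖ = 2 * ‖p.2‖ := F1_lam_norm 2 (by norm_num) p
  have hU : lam 2 p ∈ ({c} : Set X) ×ˢ sh V :=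
    F4_mem (show (lam 2 p).1 = c from hc) (by rw [hn]; linarith) (by rw [hn]; linarith)
  have l1 : ∀ᶠ q in 𝓝 p, ‖lam 2 q - lam 2 p‖ ≤ 2 * ‖q - p‖ :=
    Filter.Eventually.of_forall (fun q => F1_lam_lip 2 (by norm_num) q p)
  exact B0b_plip_comp (G := fun q => lam 2 q) (by linarith : (0 : ℝ) ≤ L) l1 (h.lip _ hU)

theorem F4_stF (hL : 1 ≤ L) (hε : ε ≤ 1 / 100) (h : NP ε L ({c} ×ˢ sh V) f f') (p : X × V)
    (hc : p.1 = c) (h1 : 3 / 8 ≤ ‖p.2‖) (h2 : ‖p.2‖ ≤ 3 / 4) :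
    ∀ᶠ q in 𝓝 p, ‖stF f f' q - stF f f' p‖ ≤ (100 * L ^ 3) * ‖q - p‖ := by
  have hn : ‖(lam 2 p).2‖ = 2 * ‖p.2‖ := F1_lam_norm 2 (by norm_num) p
  have hU : lam 2 p ∈ ({c} : Set X) ×ˢ sh V :=
    F4_mem (show (lam 2 p).1 = c from hc) (by rw [hn]; linarith) (by rw [hn]; linarith)
  have hd := F4_near (h.disp _ hU)
  rw [hn] at hd
  have lf := F4_f2 hL h p hc h1 h2
  have hL3 : L ≤ L ^ 3 := by nlinarith [mul_nonneg (sub_nonneg.mpr hL) (sub_nonneg.mpr hL)]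
  have hL2 : L ^ 3 = L * L * L := by ring
  have lA : ∀ᶠ q in 𝓝 p, ‖(fun q => lam (1 / 2) (f (lam 2 q))) q -
      (fun q => lam (1 / 2) (f (lam 2 q))) p‖ ≤ (100 * L ^ 3) * ‖q - p‖ := by
    filter_upwards [lf] with q hq
    have h3 := F1_lam_lip' (1 / 2) (by norm_num) (by norm_num) (f (lam 2 q)) (f (lam 2 p))
    refine h3.trans (hq.trans (mul_le_mul_of_nonneg_right ?_ (norm_nonneg _)))
    linarith
  have hw0 : (f (lam 2 p)).2 ≠ 0 := by
    intro h0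
    rw [h0, norm_zero] at hd
    linarith [hd.1]
  have hcw : (f (lam 2 p)).1 = c := by
    rw [h.pres]; exact hc
  have lB : 1 ≤ ‖(f (lam 2 p)).2‖ → ∀ᶠ q in 𝓝 p,
      ‖(fun q => stT f f' (rad rR (f (lam 2 q)))) q -
      (fun q => stT f f' (rad rR (f (lam 2 q)))) p‖ ≤ (100 * L ^ 3) * ‖q - p‖ := by
    intro hw
    have hr1 : 1 / 2 ≤ rR ‖(f (lam 2 p)).2‖ := by
      unfold rR
      exact le_min (by linarith) (by linarith)
    have hr2 : rR ‖(f (lam 2 p)).2‖ ≤ ‖(f (lam 2 p)).2‖ := by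
      unfold rR
      exact min_le_right _ _
    have l2 : ∀ᶠ q in 𝓝 (f (lam 2 p)), ‖rad rR q - rad rR (f (lam 2 p))‖ ≤
        (3 * (7 / 2)) * ‖q - f (lam 2 p)‖ := by
      refine Filter.Eventually.of_forall (fun q => ?_)
      exact F1_rad_lip rR (7 / 2) (by norm_num) (f (lam 2 p)) q hw0 (F1_lips _ _).2.2.1
        (by linarith) (by linarith)
    have l12 := B0b_plip_comp (G := fun q => f (lam 2 q)) (by norm_num) lf l2
    have hy : ‖(rad rR (f (lam 2 p))).2‖ = rR ‖(f (lam 2 p)).2‖ := by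
      rw [F1_rad_norm rR _ hw0, abs_of_nonneg (by linarith)]
    have l3 := F4_T hL hε h (rad rR (f (lam 2 p))) hcw (by rw [hy]; exact hr1)
      (by rw [hy]; linarith [hd.2])
    have l123 := B0b_plip_comp (G := fun q => rad rR (f (lam 2 q)))
      (by nlinarith : (0 : ℝ) ≤ L * (3 * L)) l12 l3
    refine F4_mono ?_ l123
    have : 0 ≤ L ^ 3 := by positivity
    nlinarith
  have hcont : ContinuousAt (fun q => ‖(f (lam 2 q)).2‖) p :=
    (continuous_norm.continuousAt).comp (continuous_snd.continuousAt.comp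
      (B0b_cont lf))
  rcases lt_trichotomy ‖(f (lam 2 p)).2‖ 1 with hlt | heq | hgt
  · refine F4_evt ?_ lA
    filter_upwards [hcont.eventually (gt_mem_nhds hlt)] with q hq
    unfold stF
    rw [if_neg (not_le.mpr hq)]
  · refine B0b_ite (Filter.Eventually.of_forall (fun q => ?_)) ?_ ?_ (lB heq.ge) lA
    · unfold stF
      split_ifs
      · left; rfl
      · right; rfl
    · unfold stF
      rw [if_pos heq.ge]
    · unfold stF
      rw [if_pos heq.ge]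
      have hrr : rR 1 = 1 / 2 := by
        unfold rR
        norm_num
      have hy : ‖(rad rR (f (lam 2 p))).2‖ = 1 / 2 := by
        rw [F1_rad_norm rR _ hw0, heq, hrr, abs_of_nonneg (by norm_num)]
      have hyU : rad rR (f (lam 2 p)) ∈ ({c} : Set X) ×ˢ sh V :=
        F4_mem hcw (by rw [hy]; norm_num) (by rw [hy]; norm_num)
      have hd2 := F4_near (h.disp' _ hyU)
      rw [hy] at hd2
      unfold stT
      rw [if_neg (by rw [not_le]; linarith [hd2.2])]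
      unfold rad lam
      rw [Prod.mk.injEq]
      refine ⟨rfl, ?_⟩
      have h4 : ‖(f (p.1, (2 : ℝ) • p.2)).2‖ = 1 := heq
      rw [h4, hrr, div_one]
  · refine F4_evt ?_ (lB hgt.le)
    filter_upwards [hcont.eventually (lt_mem_nhds hgt)] with q hq
    unfold stF
    rw [if_pos (le_of_lt hq)]

/-- the value of `stF` on the sphere of radius `3/4` -/
theorem F4_val (hε : ε ≤ 1 / 100) (h : NP ε L ({c} ×ˢ sh V) f f') (x : X × V)
    (hc : x.1 = c) (h1 : ‖x.2‖ = 3 / 4) : stF f f' x = f x := by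
  have hn : ‖(lam 2 x).2‖ = 3 / 2 := by
    rw [F1_lam_norm 2 (by norm_num) x, h1]; norm_num
  have hU : lam 2 x ∈ ({c} : Set X) ×ˢ sh V :=
    F4_mem (show (lam 2 x).1 = c from hc) (by rw [hn]; norm_num) (by rw [hn]; norm_num)
  have hd := F4_near (h.disp _ hU)
  rw [hn] at hd
  unfold stF
  rw [if_pos (by linarith [hd.1])]
  have h3 : rad rR (f (lam 2 x)) = f (lam 2 x) := by
    apply F1_rad_id
    unfold rR
    rw [min_eq_right (by linarith [hd.1])]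
  rw [h3]
  have hU2 : f (lam 2 x) ∈ ({c} : Set X) ×ˢ sh V :=
    F4_mem (by rw [h.pres]; exact hc) (by linarith [hd.1]) (by linarith [hd.2])
  unfold stT
  rw [h.inv _ hU hU2, if_pos (by rw [hn]; norm_num)]
  congr 1
  unfold rad
  rw [hn]
  have h4 : rS (3 / 2) = 3 / 4 := by
    unfold rS
    norm_num
  rw [h4]
  unfold lam
  refine Prod.ext rfl ?_
  show ((3 / 4 : ℝ) / (3 / 2)) • ((2 : ℝ) • x.2) = x.2
  rw [smul_smul]
  norm_num

theorem F4_gF (hL : 1 ≤ L) (hε : ε ≤ 1 / 100) (h : NP ε L ({c} ×ˢ sh V) f f') (p : X × V)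
    (hc : p.1 = c) (h1 : 3 / 8 < ‖p.2‖) (h2 : ‖p.2‖ < 2) :
    ∀ᶠ q in 𝓝 p, ‖gF f f' q - gF f f' p‖ ≤ (100 * L ^ 3) * ‖q - p‖ := by
  have hL3 : L ≤ L ^ 3 := by nlinarith [mul_nonneg (sub_nonneg.mpr hL) (sub_nonneg.mpr hL)]
  have hcont : ContinuousAt (fun q : X × V => ‖q.2‖) p := by fun_prop
  have hpU : p ∈ ({c} : Set X) ×ˢ sh V := F4_mem hc (by linarith) h2
  have lf : ∀ᶠ q in 𝓝 p, ‖f q - f p‖ ≤ (100 * L ^ 3) * ‖q - p‖ :=
    F4_mono (by linarith) (h.lip p hpU)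
  rcases lt_trichotomy ‖p.2‖ (3 / 4) with hlt | heq | hgt
  · refine F4_evt ?_ (F4_stF hL hε h p hc h1.le hlt.le)
    filter_upwards [hcont.eventually (gt_mem_nhds hlt)] with q hq
    unfold gF
    rw [if_neg (not_le.mpr hq)]
  · refine B0b_ite (Filter.Eventually.of_forall (fun q => ?_)) ?_ ?_ lf
      (F4_stF hL hε h p hc h1.le heq.le)
    · unfold gF
      split_ifs
      · left; rfl
      · right; rfl
    · unfold gF
      rw [if_pos heq.ge]
    · unfold gF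
      rw [if_pos heq.ge, F4_val hε h p hc heq]
  · refine F4_evt ?_ lf
    filter_upwards [hcont.eventually (lt_mem_nhds hgt)] with q hq
    unfold gF
    rw [if_pos (le_of_lt hq)]

/-- scaling -/
theorem F4_scale {M : ℝ} (hM : 1 ≤ M) (k : ℕ) (G : X × V → X × V) (hG : ∀ q, (G q).1 = q.1)
    (p : X × V)
    (l : ∀ᶠ q in 𝓝 (lam (2 ^ k) p), ‖G q - G (lam (2 ^ k) p)‖ ≤ M * ‖q - lam (2 ^ k) p‖) :
    ∀ᶠ q in 𝓝 p, ‖lam ((1 / 2) ^ k) (G (lam (2 ^ k) q)) - lam ((1 / 2) ^ k) (G (lam (2 ^ k) p))‖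
      ≤ M * ‖q - p‖ := by
  have hc : ContinuousAt (lam (2 ^ k) : X × V → X × V) p := (F4_lamc _).continuousAt
  filter_upwards [hc.eventually l] with q hq
  rw [Prod.norm_def]
  refine max_le ?_ ?_
  · show ‖(G (lam (2 ^ k) q)).1 - (G (lam (2 ^ k) p)).1‖ ≤ M * ‖q - p‖
    rw [hG, hG]
    show ‖q.1 - p.1‖ ≤ M * ‖q - p‖
    have h1 : ‖q.1 - p.1‖ ≤ ‖q - p‖ := norm_fst_le (q - p)
    have h2 := norm_nonneg (q - p)
    nlinarith
  · show ‖((1 / 2 : ℝ) ^ k) • (G (lam (2 ^ k) q)).2 - ((1 / 2 : ℝ) ^ k) • (G (lam (2 ^ k) p)).2‖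
      ≤ M * ‖q - p‖
    rw [← smul_sub, norm_smul, Real.norm_of_nonneg (by positivity)]
    have h1 : ‖(G (lam (2 ^ k) q)).2 - (G (lam (2 ^ k) p)).2‖ ≤
        ‖G (lam (2 ^ k) q) - G (lam (2 ^ k) p)‖ :=
      norm_snd_le (G (lam (2 ^ k) q) - G (lam (2 ^ k) p))
    have h2 := F1_lam_lip ((2 : ℝ) ^ k) (one_le_pow₀ (by norm_num)) q p
    have h3 : ‖(G (lam (2 ^ k) q)).2 - (G (lam (2 ^ k) p)).2‖ ≤ M * (2 ^ k * ‖q - p‖) :=
      h1.trans (hq.trans (mul_le_mul_of_nonneg_left h2 (by linarith)))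
    have h4 : ((1 / 2 : ℝ) ^ k) * (M * (2 ^ k * ‖q - p‖)) = M * ‖q - p‖ := by
      rw [one_div, inv_pow]
      field_simp
    calc ((1 / 2 : ℝ) ^ k) * ‖(G (lam (2 ^ k) q)).2 - (G (lam (2 ^ k) p)).2‖
        ≤ ((1 / 2 : ℝ) ^ k) * (M * (2 ^ k * ‖q - p‖)) :=
          mul_le_mul_of_nonneg_left h3 (by positivity)
      _ = _ := h4

theorem F4_stT1 (h : NP ε L ({c} ×ˢ sh V) f f') (q : X × V) : (stT f f' q).1 = q.1 := by
  unfold stT
  split_ifs
  · rw [h.pres]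
    show (f' q).1 = q.1
    exact h.pres' q
  · rfl

theorem F4_stF1 (h : NP ε L ({c} ×ˢ sh V) f f') (q : X × V) : (stF f f' q).1 = q.1 := by
  unfold stF
  split_ifs
  · rw [F4_stT1 h]
    show (f (lam 2 q)).1 = q.1
    rw [h.pres]
    rfl
  · show (f (lam 2 q)).1 = q.1
    rw [h.pres]
    rfl

theorem F4_gF1 (h : NP ε L ({c} ×ˢ sh V) f f') (q : X × V) : (gF f f' q).1 = q.1 := by
  unfold gF
  split_ifs
  · exact h.pres q
  · exact F4_stF1 h q

end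

theorem F4_lip {ε L : ℝ} (hL : 1 ≤ L) (hε : ε ≤ 1 / 100) (c : X) (f f' : X × V → X × V)
    (h : NP ε L ({c} ×ˢ sh V) f f') (p : X × V) (hc : p.1 = c) (hp : ‖p.2‖ < 2) (h0 : p.2 ≠ 0) :
    ∀ᶠ q in 𝓝 p, ‖fF f f' q - fF f f' p‖ ≤ 100 * L ^ 3 * ‖q - p‖ := by
  have hM : 1 ≤ 100 * L ^ 3 := by
    have : 1 ≤ L ^ 3 := one_le_pow₀ hL
    linarith
  obtain ⟨k, hk⟩ : ∃ k : ℕ, k = kk (3 / 8) p := ⟨_, rfl⟩
  have hkk := F1_kk (3 / 8) (by norm_num) p h0
  rw [← hk] at hkk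
  have hne : ∀ᶠ q : X × V in 𝓝 p, q.2 ≠ 0 := by
    have : ContinuousAt (fun q : X × V => q.2) p := by fun_prop
    exact this.eventually_ne h0
  have hnk : ∀ (m : ℕ) (q : X × V), ‖(lam (2 ^ m) q).2‖ = 2 ^ m * ‖q.2‖ := fun m q =>
    F1_lam_norm _ (by positivity) q
  have hcm : ∀ m : ℕ, ContinuousAt (fun q : X × V => 2 ^ m * ‖q.2‖) p := by
    intro m; fun_prop
  -- the upper bound is open
  have hup : ∀ᶠ q : X × V in 𝓝 p, k = 0 ∨ 2 ^ k * ‖q.2‖ < 2 * (3 / 8) := by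
    rcases hkk.2 with h1 | h1
    · exact Filter.Eventually.of_forall (fun q => Or.inl h1)
    · filter_upwards [(hcm k).eventually (gt_mem_nhds h1)] with q hq
      exact Or.inr hq
  have hext : ∀ q : X × V, q.2 ≠ 0 → ∀ m : ℕ, kk (3 / 8) q = m →
      fF f f' q = lam ((1 / 2) ^ m) (gF f f' (lam (2 ^ m) q)) := by
    intro q hq m hm
    unfold fF ext
    rw [if_neg hq, hm]
  have hlt2 : 2 ^ k * ‖p.2‖ < 2 := by
    rcases hkk.2 with h1 | h1
    · rw [h1, pow_zero, one_mul]; exact hp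
    · linarith
  rcases lt_or_eq_of_le hkk.1 with hgt | heq
  · -- radius larger than 3/8
    have l1 : ∀ᶠ q in 𝓝 (lam (2 ^ k) p), ‖gF f f' q - gF f f' (lam (2 ^ k) p)‖ ≤
        (100 * L ^ 3) * ‖q - lam (2 ^ k) p‖ :=
      F4_gF hL hε h (lam (2 ^ k) p) hc (by rw [hnk]; exact hgt) (by rw [hnk]; exact hlt2)
    have l2 := F4_scale hM k (gF f f') (F4_gF1 h) p l1
    refine F4_evt (G₁ := fun q => lam ((1 / 2) ^ k) (gF f f' (lam (2 ^ k) q))) ?_ l2
    filter_upwards [hne, hup, (hcm k).eventually (lt_mem_nhds hgt)] with q hq1 hq2 hq3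
    exact hext q hq1 k (F1_kk_char (3 / 8) (by norm_num) q k (le_of_lt hq3) hq2)
  · -- radius equal to 3/8
    have hn1 : ‖(lam (2 ^ k) p).2‖ = 3 / 8 := by rw [hnk, ← heq]
    have hn2 : ‖(lam (2 ^ (k + 1)) p).2‖ = 3 / 4 := by
      rw [hnk, pow_succ, mul_comm ((2 : ℝ) ^ k) 2, mul_assoc, ← heq]; norm_num
    have l1 : ∀ᶠ q in 𝓝 (lam (2 ^ k) p), ‖stF f f' q - stF f f' (lam (2 ^ k) p)‖ ≤
        (100 * L ^ 3) * ‖q - lam (2 ^ k) p‖ :=
      F4_stF hL hε h (lam (2 ^ k) p) hc (by rw [hn1]) (by rw [hn1]; norm_num)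
    have l1' := F4_scale hM k (stF f f') (F4_stF1 h) p l1
    have l2 : ∀ᶠ q in 𝓝 (lam (2 ^ (k + 1)) p), ‖stF f f' q - stF f f' (lam (2 ^ (k + 1)) p)‖ ≤
        (100 * L ^ 3) * ‖q - lam (2 ^ (k + 1)) p‖ :=
      F4_stF hL hε h (lam (2 ^ (k + 1)) p) hc (by rw [hn2]; norm_num) (by rw [hn2])
    have l2' := F4_scale hM (k + 1) (stF f f') (F4_stF1 h) p l2
    have hkp : fF f f' p = lam ((1 / 2) ^ k) (stF f f' (lam (2 ^ k) p)) := by
      rw [hext p h0 k hk.symm]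
      unfold gF
      rw [if_neg (by rw [hn1]; norm_num)]
    have heq2 : lam ((1 / 2) ^ k) (stF f f' (lam (2 ^ k) p)) =
        lam ((1 / 2) ^ (k + 1)) (stF f f' (lam (2 ^ (k + 1)) p)) := by
      rw [F4_val hε h (lam (2 ^ (k + 1)) p) hc hn2]
      have h3 : lam 2 (lam (2 ^ k) p) = lam (2 ^ (k + 1)) p := by
        rw [F1_lam_lam]
        congr 1
        rw [pow_succ]; ring
      have h4 : stF f f' (lam (2 ^ k) p) = lam (1 / 2) (f (lam (2 ^ (k + 1)) p)) := by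
        have hU : lam (2 ^ (k + 1)) p ∈ ({c} : Set X) ×ˢ sh V :=
          F4_mem hc (by rw [hn2]; norm_num) (by rw [hn2]; norm_num)
        have hd := F4_near (h.disp _ hU)
        rw [hn2] at hd
        unfold stF
        rw [h3, if_neg (by rw [not_le]; linarith [hd.2])]
      rw [h4, F1_lam_lam]
      congr 1
    refine B0b_ite (G₁ := fun q => lam ((1 / 2) ^ k) (stF f f' (lam (2 ^ k) q)))
      (G₂ := fun q => lam ((1 / 2) ^ (k + 1)) (stF f f' (lam (2 ^ (k + 1)) q))) ?_ hkp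
      (hkp.trans heq2) l1' l2'
    have hlow : (3 / 8 : ℝ) < 2 ^ (k + 1) * ‖p.2‖ := by
      rw [← hnk, hn2]; norm_num
    have hup1 : 2 ^ k * ‖p.2‖ < (3 / 4 : ℝ) := by rw [← heq]; norm_num
    filter_upwards [hne, (hcm (k + 1)).eventually (lt_mem_nhds hlow),
      (hcm k).eventually (gt_mem_nhds hup1)] with q hq1 hq2 hq3
    by_cases hq4 : 3 / 8 ≤ 2 ^ k * ‖q.2‖
    · left
      rw [hext q hq1 k (F1_kk_char (3 / 8) (by norm_num) q k hq4 (Or.inr (by linarith)))]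
      unfold gF
      rw [if_neg (by rw [hnk]; linarith)]
    · right
      push Not at hq4
      have hq5 : 2 ^ (k + 1) * ‖q.2‖ < 2 * (3 / 8) := by
        rw [pow_succ]; linarith
      rw [hext q hq1 (k + 1) (F1_kk_char (3 / 8) (by norm_num) q (k + 1) hq2.le (Or.inr hq5))]
      unfold gF
      rw [if_neg (by rw [hnk]; linarith)]

end H80.LD
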