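import Pool.Agent.H80.LD.F1
import Pool.Agent.H80.LD.B0b

/-!
# F5: pointwise Lipschitz bound of `fFi` (same method as F4)

`y.2 ≠ 0`, `k = kk (1/2) y`, `y' = lam (2^k) y`, `1/2 ≤ n y'`, `n y' < 1` if `k ≥ 1`.
* If `1/2 < n y'` and (`k = 0` or `n y' < 1`): `kk` is constant near `y` and `fFi q = lam ((1/2)^k) (gFi (lam (2^k) q))` near `y` (scaling does not change the constant).
  `gFi` at `y'` (`1/2 < n y' < 2`): if `n (f' y') > 3/4` it is `f'` near `y'`; if `n (f' y') < 3/4` (then `n y' < 1`) it is `A = lam (1/2) ∘ f' ∘ rad rRi ∘ stTi f f'` near `y'`; if `n (f' y') = 3/4`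
  it is one of the two, and `A y' = f' y'`: `stTi y' = f (rad rSi (f' y'))`, `rSi (3/4) = 3/2`, `s = rad rSi (f' y') = lam 2 (f' y')`, `n (f s) ≥ 1.49 ≥ 6/5`, `rad rRi (f s) = f s`,
  `f' (f s) = s`, `lam (1/2) s = f' y'`.  `stTi` at `y'`: identity near `y'` if `n (f' y') < 3/5`, `f ∘ rad rSi ∘ f'` if `> 3/5`, one of the two if `= 3/5`
  (`rSi (3/5) = 3/5`, `f (f' y') = y'`).
* If `n y' = 1/2`: near `y`, `fFi q` is `lam ((1/2)^k) (gFi (lam (2^k) q))` with `gFi = A` and `stTi = id` near `y'` (`n (f' y') < 3/5`), i.e. `lam (1/2) ∘ f' ∘ rad rRi`, or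
  `lam ((1/2)^(k+1)) (gFi (lam (2^(k+1)) q))` with radius of `lam (2^(k+1)) q` slightly below `1`, where `gFi = f'` (`n (f' ·) ≥ 0.98 ≥ 3/4`).  Both agree at `y`:
  `rRi (1/2) = 1`, `rad rRi y' = lam 2 y'`.
Lipschitz factors: `rad rSi`: `3 * 6` (`rSi g ≤ 6 g`), `rad rRi`: `3 * 2` at points of radius `≥ 1/2` (`rRi g ≤ 2 g` there), so the total is `(1/2) * L * 6 * L * 18 * L ≤ 100 L^3`
(the factor `1/2` may be ignored for the first component: `6*18 = 108`; use the bound `200 * L^3`).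
The pointwise bounds of `f, f'` are used at points of the shell with first component `c` only: check that all intermediate points have radius between `0.49` and `1.6`, or `< 2`.
-/

open Filter Topology Metric Set

namespace H80.LD

variable {X V : Type*} [NormedAddCommGroup X] [NormedAddCommGroup V] [NormedSpace ℝ V]

/-- pointwise Lipschitz bound -/
def F5_pl (G : X × V → X × V) (C : ℝ) (p : X × V) : Prop :=
  ∀ᶠ q in 𝓝 p, ‖G q - G p‖ ≤ C * ‖q - p‖

theorem F5_mono {G : X × V → X × V} {C C' : ℝ} {p : X × V} (h : F5_pl G C p) (hC : C ≤ C') :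
    F5_pl G C' p := by
  filter_upwards [h] with q hq
  exact hq.trans (mul_le_mul_of_nonneg_right hC (norm_nonneg _))

theorem F5_comp {G G1 : X × V → X × V} {C C1 : ℝ} {p : X × V} (hC : 0 ≤ C1) (h : F5_pl G C p)
    (h1 : F5_pl G1 C1 (G p)) : F5_pl (fun q => G1 (G q)) (C1 * C) p :=
  B0b_plip_comp hC h h1

theorem F5_congr {G G1 : X × V → X × V} {C : ℝ} {p : X × V} (h : F5_pl G C p)
    (he : ∀ᶠ q in 𝓝 p, G1 q = G q) : F5_pl G1 C p := by
  have h0 := he.self_of_nhds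
  filter_upwards [h, he] with q h1 h2
  rw [h2, h0]
  exact h1

theorem F5_cont {G : X × V → X × V} {C : ℝ} {p : X × V} (h : F5_pl G C p) :
    ContinuousAt (fun q => ‖(G q).2‖) p :=
  (continuous_snd.norm.continuousAt).comp (B0b_cont h)

theorem F5_rad {r : ℝ → ℝ} {l : ℝ} {p : X × V} (hl : 1 ≤ l) (hp : p.2 ≠ 0)
    (h1 : ∀ a b, |r a - r b| ≤ l * |a - b|) (h0 : 0 ≤ r ‖p.2‖) (h2 : r ‖p.2‖ ≤ l * ‖p.2‖) :
    F5_pl (rad r) (3 * l) p :=
  Eventually.of_forall fun q => F1_rad_lip r l hl p q hp (h1 _ _) h0 h2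

theorem F5_near {f : X × V → X × V} {ε : ℝ} {p : X × V} (h : ‖f p - p‖ ≤ ε) :
    ‖(f p).2‖ ≤ ‖p.2‖ + ε ∧ ‖p.2‖ ≤ ‖(f p).2‖ + ε := by
  have h1 : ‖(f p).2 - p.2‖ ≤ ε := (norm_snd_le (f p - p)).trans h
  constructor
  · have := norm_le_norm_add_norm_sub' (f p).2 p.2
    linarith
  · have := norm_le_norm_add_norm_sub' p.2 (f p).2
    rw [norm_sub_rev] at this
    linarith

section

variable {ε L : ℝ} {c : X} {f f' : X × V → X × V}

theorem F5_mem {p : X × V} (hc : p.1 = c) (h1 : 1 / 3 < ‖p.2‖) (h2 : ‖p.2‖ < 2) :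
    p ∈ ({c} ×ˢ sh V : Set (X × V)) := ⟨hc, h1, h2⟩

theorem F5_ne {p : X × V} {a : ℝ} (ha : 0 < a) (h : a ≤ ‖p.2‖) : p.2 ≠ 0 :=
  norm_pos_iff.1 (lt_of_lt_of_le ha h)

/-- the map `f ∘ rad rSi ∘ f'` -/
theorem F5_S (hL : 1 ≤ L) (hε : ε ≤ 1 / 100) (h : NP ε L ({c} ×ˢ sh V) f f') {y : X × V}
    (hc : y.1 = c) (h1 : 1 / 2 ≤ ‖y.2‖) (h2 : ‖y.2‖ < 2) (h3 : 3 / 5 ≤ ‖(f' y).2‖)
    (h4 : ‖(f' y).2‖ ≤ 3 / 4) : F5_pl (fun q => f (rad rSi (f' q))) (L * (3 * 6 * L)) y := by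
  have hy := F5_mem hc (by linarith) h2
  have hne : (f' y).2 ≠ 0 := F5_ne (by norm_num) h3
  have hr : rSi ‖(f' y).2‖ = 6 * ‖(f' y).2‖ - 3 := max_eq_right (by linarith)
  have hn : ‖(rad rSi (f' y)).2‖ = 6 * ‖(f' y).2‖ - 3 := by
    rw [F1_rad_norm _ _ hne, hr, abs_of_nonneg (by linarith)]
  have hz : rad rSi (f' y) ∈ ({c} ×ˢ sh V : Set (X × V)) := by
    refine F5_mem ?_ (by rw [hn]; linarith) (by rw [hn]; linarith)
    change (f' y).1 = c
    rw [h.pres', hc]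
  have a1 : F5_pl f' L y := h.lip' y hy
  have a2 : F5_pl (rad rSi) (3 * 6) (f' y) := by
    refine F5_rad (by norm_num) hne (fun a b => (F1_lips a b).2.1) ?_ ?_
    · rw [hr]; linarith
    · rw [hr]; linarith
  have a3 : F5_pl f L (rad rSi (f' y)) := h.lip _ hz
  exact F5_comp (by linarith) (F5_comp (by norm_num) a1 a2) a3

theorem F5_stTi (hL : 1 ≤ L) (hε : ε ≤ 1 / 100) (h : NP ε L ({c} ×ˢ sh V) f f') {y : X × V}
    (hc : y.1 = c) (h1 : 1 / 2 ≤ ‖y.2‖) (h2 : ‖y.2‖ < 2) (h4 : ‖(f' y).2‖ ≤ 3 / 4) :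
    F5_pl (stTi f f') (18 * L ^ 2) y := by
  have hy := F5_mem hc (by linarith) h2
  have hL0 : 0 < L := by linarith
  have a1 : F5_pl f' L y := h.lip' y hy
  have hcont := F5_cont a1
  have hid : F5_pl (fun q : X × V => q) (18 * L ^ 2) y := by
    refine Eventually.of_forall fun q => ?_
    have : 1 ≤ 18 * L ^ 2 := by nlinarith
    exact le_mul_of_one_le_left (norm_nonneg _) this
  rcases lt_trichotomy ‖(f' y).2‖ (3 / 5) with h3 | h3 | h3
  · refine F5_congr hid ?_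
    filter_upwards [hcont.eventually_lt_const h3] with q hq
    rw [stTi, if_neg (by linarith)]
  · have hS := F5_mono (F5_S hL hε h hc h1 h2 h3.ge h4) (by nlinarith : L * (3 * 6 * L) ≤ 18 * L ^ 2)
    have e1 : f (rad rSi (f' y)) = y := by
      have e2 : rad rSi (f' y) = f' y := by
        refine F1_rad_id _ _ ?_
        rw [h3, rSi]
        norm_num
      rw [e2]
      refine h.inv' y hy (F5_mem ?_ ?_ ?_)
      · rw [h.pres', hc]
      · rw [h3]; norm_num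
      · rw [h3]; norm_num
    refine B0b_ite (G₁ := fun q => f (rad rSi (f' q))) (G₂ := fun q => q)
      (Eventually.of_forall fun q => ?_) ?_ ?_ hS hid
    · rw [stTi]
      split_ifs
      · exact Or.inl rfl
      · exact Or.inr rfl
    · rw [stTi, if_pos h3.ge]
    · rw [stTi, if_pos h3.ge, e1]
  · have hS := F5_mono (F5_S hL hε h hc h1 h2 h3.le h4) (by nlinarith : L * (3 * 6 * L) ≤ 18 * L ^ 2)
    refine F5_congr hS ?_
    filter_upwards [hcont.eventually_const_lt h3] with q hq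
    rw [stTi, if_pos hq.le]

/-- size of `stTi` -/
theorem F5_stTi_norm (hε : ε ≤ 1 / 100) (h : NP ε L ({c} ×ˢ sh V) f f')
    {y : X × V} (hc : y.1 = c) (h1 : 1 / 2 ≤ ‖y.2‖) (h2 : ‖y.2‖ < 2)
    (h4 : ‖(f' y).2‖ ≤ 3 / 4) : (stTi f f' y).1 = c ∧ 1 / 2 ≤ ‖(stTi f f' y).2‖ ∧
      ‖(stTi f f' y).2‖ ≤ 151 / 100 := by
  have hy := F5_mem hc (by linarith) h2
  have hd := F5_near (h.disp' y hy)
  by_cases h3 : 3 / 5 ≤ ‖(f' y).2‖
  · have hne : (f' y).2 ≠ 0 := F5_ne (by norm_num) h3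
    have hr : rSi ‖(f' y).2‖ = 6 * ‖(f' y).2‖ - 3 := max_eq_right (by linarith)
    have hn : ‖(rad rSi (f' y)).2‖ = 6 * ‖(f' y).2‖ - 3 := by
      rw [F1_rad_norm _ _ hne, hr, abs_of_nonneg (by linarith)]
    have hz : rad rSi (f' y) ∈ ({c} ×ˢ sh V : Set (X × V)) := by
      refine F5_mem ?_ (by rw [hn]; linarith) (by rw [hn]; linarith)
      change (f' y).1 = c
      rw [h.pres', hc]
    have hd2 := F5_near (h.disp _ hz)
    rw [hn] at hd2
    rw [stTi, if_pos h3]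
    refine ⟨?_, by linarith [hd2.2], by linarith [hd2.1]⟩
    rw [h.pres]
    change (f' y).1 = c
    rw [h.pres', hc]
  · rw [stTi, if_neg h3]
    exact ⟨hc, h1, by linarith [hd.2]⟩

theorem F5_rRi {g : ℝ} (h1 : 1 / 2 ≤ g) : 1 ≤ rRi g ∧ rRi g ≤ 2 * g ∧ rRi g ≤ g + 1 / 2 := by
  refine ⟨?_, ?_, ?_⟩
  · exact le_trans (by linarith) (le_max_left _ _)
  · exact max_le (by linarith) (by linarith)
  · exact max_le (by linarith) (by linarith)

theorem F5_rRi' {g : ℝ} (h1 : 1 / 2 ≤ g) (h2 : g ≤ 151 / 100) : rRi g ≤ 152 / 100 :=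
  max_le (by linarith) (by linarith)

theorem F5_A (hL : 1 ≤ L) (hε : ε ≤ 1 / 100) (h : NP ε L ({c} ×ˢ sh V) f f') {y : X × V}
    (hc : y.1 = c) (h1 : 1 / 2 ≤ ‖y.2‖) (h2 : ‖y.2‖ < 2) (h4 : ‖(f' y).2‖ ≤ 3 / 4) :
    F5_pl (fun q => lam (1 / 2) (f' (rad rRi (stTi f f' q)))) (200 * L ^ 3) y := by
  have hL0 : 0 < L := by linarith
  obtain ⟨b1, b2, b3⟩ := F5_stTi_norm hε h hc h1 h2 h4
  have a1 := F5_stTi hL hε h hc h1 h2 h4
  set u := stTi f f' y with hu
  have hne : u.2 ≠ 0 := F5_ne (by norm_num) b2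
  have hr := F5_rRi b2
  have hr' := F5_rRi' b2 b3
  have a2 : F5_pl (rad rRi) (3 * 2) u := by
    refine F5_rad (by norm_num) hne (fun a b => ?_) (by linarith [hr.1]) hr.2.1
    have := (F1_lips a b).2.2.2
    have h0 := abs_nonneg (a - b)
    linarith
  have hn : ‖(rad rRi u).2‖ = rRi ‖u.2‖ := by
    rw [F1_rad_norm _ _ hne, abs_of_nonneg (by linarith [hr.1])]
  have hz : rad rRi u ∈ ({c} ×ˢ sh V : Set (X × V)) :=
    F5_mem b1 (by rw [hn]; linarith [hr.1]) (by rw [hn]; linarith)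
  have a3 : F5_pl f' L (rad rRi u) := h.lip' _ hz
  have a4 : F5_pl (lam (1 / 2) : X × V → X × V) 1 (f' (rad rRi u)) := by
    refine Eventually.of_forall fun q => ?_
    rw [one_mul]
    exact F1_lam_lip' (1 / 2) (by norm_num) (by norm_num) _ _
  have a5 := F5_comp (by norm_num) (F5_comp hL0.le (F5_comp (by norm_num) a1 a2) a3) a4
  refine F5_mono a5 ?_
  have h3 : 0 < L ^ 3 := by positivity
  nlinarith

theorem F5_gFi (hL : 1 ≤ L) (hε : ε ≤ 1 / 100) (h : NP ε L ({c} ×ˢ sh V) f f') {y : X × V}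
    (hc : y.1 = c) (h1 : 1 / 2 ≤ ‖y.2‖) (h2 : ‖y.2‖ < 2) :
    F5_pl (gFi f f') (200 * L ^ 3) y := by
  have hL0 : 0 < L := by linarith
  have hy := F5_mem hc (by linarith) h2
  have a1 : F5_pl f' L y := h.lip' y hy
  have hcont := F5_cont a1
  have a1' : F5_pl f' (200 * L ^ 3) y := by
    refine F5_mono a1 ?_
    have h3 : 1 ≤ L ^ 2 := by nlinarith
    nlinarith
  rcases lt_trichotomy ‖(f' y).2‖ (3 / 4) with h3 | h3 | h3
  · refine F5_congr (F5_A hL hε h hc h1 h2 h3.le) ?_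
    filter_upwards [hcont.eventually_lt_const h3] with q hq
    rw [gFi, if_neg (by linarith)]
  · have hA := F5_A hL hε h hc h1 h2 h3.le
    have e1 : lam (1 / 2) (f' (rad rRi (stTi f f' y))) = f' y := by
      have hst : stTi f f' y = f (rad rSi (f' y)) := by
        rw [stTi, if_pos (by rw [h3]; norm_num)]
      have hs : rad rSi (f' y) = lam 2 (f' y) := by
        have hr : rSi ‖(f' y).2‖ = 3 / 2 := by
          rw [h3, rSi]; norm_num
        rw [rad, lam, hr, h3]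
        norm_num
      have hn : ‖(lam 2 (f' y)).2‖ = 3 / 2 := by
        rw [F1_lam_norm 2 (by norm_num), h3]; norm_num
      have hz : lam 2 (f' y) ∈ ({c} ×ˢ sh V : Set (X × V)) := by
        refine F5_mem ?_ (by rw [hn]; norm_num) (by rw [hn]; norm_num)
        change (f' y).1 = c
        rw [h.pres', hc]
      have hd2 := F5_near (h.disp _ hz)
      rw [hn] at hd2
      have hz2 : f (lam 2 (f' y)) ∈ ({c} ×ˢ sh V : Set (X × V)) := by
        refine F5_mem ?_ (by linarith [hd2.2]) (by linarith [hd2.1])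
        rw [h.pres]
        change (f' y).1 = c
        rw [h.pres', hc]
      have hrr : rad rRi (f (lam 2 (f' y))) = f (lam 2 (f' y)) := by
        refine F1_rad_id _ _ ?_
        exact max_eq_right (by linarith [hd2.2])
      rw [hst, hs, hrr, h.inv _ hz hz2, F1_lam_lam]
      norm_num
      exact F1_lam_one _
    refine B0b_ite (G₁ := f') (G₂ := fun q => lam (1 / 2) (f' (rad rRi (stTi f f' q))))
      (Eventually.of_forall fun q => ?_) ?_ ?_ a1' hA
    · rw [gFi]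
      split_ifs
      · exact Or.inl rfl
      · exact Or.inr rfl
    · rw [gFi, if_pos h3.ge]
    · rw [gFi, if_pos h3.ge, e1]
  · refine F5_congr a1' ?_
    filter_upwards [hcont.eventually_const_lt h3] with q hq
    rw [gFi, if_pos hq.le]

theorem F5_gFi_fst (h : NP ε L ({c} ×ˢ sh V) f f') (q : X × V) : (gFi f f' q).1 = q.1 := by
  rw [gFi]
  split_ifs
  · exact h.pres' q
  · change (f' (rad rRi (stTi f f' q))).1 = q.1
    rw [h.pres']
    change (stTi f f' q).1 = q.1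
    rw [stTi]
    split_ifs
    · rw [h.pres]
      change (f' q).1 = q.1
      exact h.pres' q
    · rfl

/-- scaling does not change the constant -/
theorem F5_scale {G : X × V → X × V} {C : ℝ} (hC : 1 ≤ C) (hG : ∀ q, (G q).1 = q.1) (k : ℕ)
    {y : X × V} (h : F5_pl G C (lam (2 ^ k) y)) :
    F5_pl (fun q => lam ((1 / 2) ^ k) (G (lam (2 ^ k) q))) C y := by
  have h2k : (1 : ℝ) ≤ 2 ^ k := one_le_pow₀ (by norm_num)
  have hc : Tendsto (fun q : X × V => lam (2 ^ k) q) (𝓝 y) (𝓝 (lam (2 ^ k) y)) := by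
    have : Continuous (fun q : X × V => (q.1, (2 ^ k : ℝ) • q.2)) :=
      continuous_fst.prodMk (continuous_snd.const_smul _)
    exact this.tendsto y
  filter_upwards [hc.eventually h] with q hq
  have h1 : ‖q - y‖ = max ‖q.1 - y.1‖ ‖q.2 - y.2‖ := rfl
  have hb : ‖(G (lam (2 ^ k) q)).2 - (G (lam (2 ^ k) y)).2‖ ≤ C * (2 ^ k * ‖q - y‖) := by
    refine (norm_snd_le (G (lam (2 ^ k) q) - G (lam (2 ^ k) y))).trans (hq.trans ?_)
    exact mul_le_mul_of_nonneg_left (F1_lam_lip _ h2k _ _) (by linarith)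
  change max ‖(G (lam (2 ^ k) q)).1 - (G (lam (2 ^ k) y)).1‖
    ‖((1 / 2 : ℝ) ^ k) • (G (lam (2 ^ k) q)).2 - ((1 / 2 : ℝ) ^ k) • (G (lam (2 ^ k) y)).2‖ ≤ _
  refine max_le ?_ ?_
  · rw [hG, hG]
    change ‖q.1 - y.1‖ ≤ _
    have h3 : ‖q.1 - y.1‖ ≤ ‖q - y‖ := norm_fst_le (q - y)
    exact h3.trans (le_mul_of_one_le_left (norm_nonneg _) hC)
  · rw [← smul_sub, norm_smul, Real.norm_eq_abs, abs_of_nonneg (by positivity)]
    calc (1 / 2 : ℝ) ^ k * ‖(G (lam (2 ^ k) q)).2 - (G (lam (2 ^ k) y)).2‖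
        ≤ (1 / 2 : ℝ) ^ k * (C * (2 ^ k * ‖q - y‖)) :=
          mul_le_mul_of_nonneg_left hb (by positivity)
      _ = ((1 / 2 : ℝ) ^ k * 2 ^ k) * (C * ‖q - y‖) := by ring
      _ = C * ‖q - y‖ := by rw [← mul_pow]; norm_num

theorem F5_half (hε : ε ≤ 1 / 100) (h : NP ε L ({c} ×ˢ sh V) f f') {y : X × V}
    (hc : y.1 = c) (h1 : ‖y.2‖ = 1 / 2) :
    lam (1 / 2) (gFi f f' (lam 2 y)) = gFi f f' y := by
  have hy := F5_mem hc (by rw [h1]; norm_num) (by rw [h1]; norm_num)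
  have hd := F5_near (h.disp' y hy)
  rw [h1] at hd
  have hn : ‖(lam 2 y).2‖ = 1 := by
    rw [F1_lam_norm 2 (by norm_num), h1]; norm_num
  have hy2 : lam 2 y ∈ ({c} ×ˢ sh V : Set (X × V)) :=
    F5_mem hc (by rw [hn]; norm_num) (by rw [hn]; norm_num)
  have hd2 := F5_near (h.disp' _ hy2)
  rw [hn] at hd2
  have e1 : gFi f f' (lam 2 y) = f' (lam 2 y) := by
    rw [gFi, if_pos (by linarith [hd2.2])]
  have e2 : stTi f f' y = y := by
    rw [stTi, if_neg (by linarith [hd.1])]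
  have e3 : rad rRi y = lam 2 y := by
    have hr : rRi ‖y.2‖ = 1 := by
      rw [h1, rRi]; norm_num
    rw [rad, lam, hr, h1]
    norm_num
  have e4 : gFi f f' y = lam (1 / 2) (f' (rad rRi (stTi f f' y))) := by
    rw [gFi, if_neg (by linarith [hd.1])]
  rw [e1, e4, e2, e3]

end

theorem F5_lip {ε L : ℝ} (hL : 1 ≤ L) (hε : ε ≤ 1 / 100) (c : X) (f f' : X × V → X × V)
    (h : NP ε L ({c} ×ˢ sh V) f f') (y : X × V) (hc : y.1 = c) (hy : ‖y.2‖ < 2) (h0 : y.2 ≠ 0) :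
    ∀ᶠ q in 𝓝 y, ‖fFi f f' q - fFi f f' y‖ ≤ 200 * L ^ 3 * ‖q - y‖ := by
  have hn : 0 < ‖y.2‖ := norm_pos_iff.2 h0
  obtain ⟨hk1, hk2⟩ := F1_kk (1 / 2) (by norm_num) y h0
  set k := kk (1 / 2) y with hk
  have hL3 : 1 ≤ 200 * L ^ 3 := by
    have h3 : 1 ≤ L ^ 3 := one_le_pow₀ hL
    linarith
  have hne : ∀ᶠ q : X × V in 𝓝 y, q.2 ≠ 0 :=
    continuous_snd.continuousAt.eventually_ne h0
  have hcn : ContinuousAt (fun q : X × V => 2 ^ k * ‖q.2‖) y :=
    (continuous_const.mul continuous_snd.norm).continuousAt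
  have hn' : ‖(lam (2 ^ k) y).2‖ = 2 ^ k * ‖y.2‖ := F1_lam_norm _ (by positivity) y
  have hlt2 : 2 ^ k * ‖y.2‖ < 2 := by
    rcases hk2 with hk2 | hk2
    · rw [hk2, pow_zero, one_mul]; exact hy
    · linarith
  have hPk : F5_pl (fun q => lam ((1 / 2) ^ k) (gFi f f' (lam (2 ^ k) q))) (200 * L ^ 3) y :=
    F5_scale hL3 (F5_gFi_fst h) k
      (F5_gFi hL hε h (y := lam (2 ^ k) y) hc (by rw [hn']; exact hk1) (by rw [hn']; exact hlt2))
  have hup : ∀ᶠ q : X × V in 𝓝 y, k = 0 ∨ 2 ^ k * ‖q.2‖ < 2 * (1 / 2) := by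
    rcases hk2 with hk2 | hk2
    · exact Eventually.of_forall fun _ => Or.inl hk2
    · filter_upwards [hcn.eventually_lt_const hk2] with q hq
      exact Or.inr hq
  have hat : fFi f f' y = lam ((1 / 2) ^ k) (gFi f f' (lam (2 ^ k) y)) := by
    rw [fFi, ext, if_neg h0]
  rcases lt_or_eq_of_le hk1 with hlt | heq
  · refine F5_congr hPk ?_
    filter_upwards [hne, hup, hcn.eventually_const_lt hlt] with q q1 q2 q3
    have hkq := F1_kk_char (1 / 2) (by norm_num) q k q3.le q2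
    rw [fFi, ext, if_neg q1, hkq]
  · have hn1 : ‖(lam (2 ^ (k + 1)) y).2‖ = 1 := by
      rw [F1_lam_norm _ (by positivity) y, pow_succ, mul_right_comm, ← heq]; norm_num
    have hPk1 : F5_pl (fun q => lam ((1 / 2) ^ (k + 1)) (gFi f f' (lam (2 ^ (k + 1)) q)))
        (200 * L ^ 3) y :=
      F5_scale hL3 (F5_gFi_fst h) (k + 1)
        (F5_gFi hL hε h (y := lam (2 ^ (k + 1)) y) hc (by rw [hn1]; norm_num)
          (by rw [hn1]; norm_num))
    have hagree : lam ((1 / 2) ^ (k + 1)) (gFi f f' (lam (2 ^ (k + 1)) y)) =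
        lam ((1 / 2) ^ k) (gFi f f' (lam (2 ^ k) y)) := by
      have e1 : lam (2 ^ (k + 1)) y = lam 2 (lam (2 ^ k) y) := by
        rw [F1_lam_lam]
        congr 1
        ring
      rw [e1, pow_succ, ← F1_lam_lam,
        F5_half hε h (y := lam (2 ^ k) y) hc (by rw [hn', ← heq])]
    have hlo : ∀ᶠ q : X × V in 𝓝 y, 1 / 4 < 2 ^ k * ‖q.2‖ :=
      hcn.eventually_const_lt (by linarith)
    refine B0b_ite (G₁ := fun q => lam ((1 / 2) ^ k) (gFi f f' (lam (2 ^ k) q)))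
      (G₂ := fun q => lam ((1 / 2) ^ (k + 1)) (gFi f f' (lam (2 ^ (k + 1)) q)))
      ?_ hat (hat.trans hagree.symm) hPk hPk1
    filter_upwards [hne, hup, hlo] with q q1 q2 q3
    by_cases q4 : 1 / 2 ≤ 2 ^ k * ‖q.2‖
    · left
      have hkq := F1_kk_char (1 / 2) (by norm_num) q k q4 q2
      rw [fFi, ext, if_neg q1, hkq]
    · right
      have q5 : 1 / 2 ≤ 2 ^ (k + 1) * ‖q.2‖ := by
        rw [pow_succ, mul_right_comm]; linarith
      have q6 : 2 ^ (k + 1) * ‖q.2‖ < 2 * (1 / 2) := by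
        rw [pow_succ, mul_right_comm]; linarith
      have hkq := F1_kk_char (1 / 2) (by norm_num) q (k + 1) q5 (Or.inr q6)
      rw [fFi, ext, if_neg q1, hkq]

end H80.LD
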