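import Pool.Agent.H80.LD.F4
import Pool.Agent.H80.LD.F5

/-!
# F4b: the bounds at the centre (`V` proper)

`K = {v | 3/8 ≤ ‖v‖ ≤ 3/4}` is compact.  For `v ∈ K`: `‖(fF (c, v)).2‖ ≤ 4/5` (cases as in F2) and by `F4_lip` (continuity at `(c, v)`) `‖(fF q).2‖ ≤ 1` for `q` near `(c, v)`.
By the tube lemma (`IsCompact.eventually_forall_of_forall_eventually`) there is a neighbourhood of `c` such that `‖(fF (c', v)).2‖ ≤ 1` for all `v ∈ K` and `c'` in it.
For `q = (c', u)` near `(c, 0)`, `u ≠ 0`, `‖u‖ < 3/8`: `k = kk (3/8) q`, `2^k u ∈ K`, `‖(fF q).2‖ = 2^{-k} ‖(gF (c', 2^k u)).2‖ ≤ 2^{-k} ≤ (8/3) ‖u‖` (`gF = fF` on `K` by `F1_ext_big`).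
Same for `fFi` with `K' = {1/2 ≤ ‖v‖ ≤ 1}`, `‖(fFi (c, v)).2‖ ≤ 1.01` there (`gFi` is `f'` or has radius `< 3/4`), constant `2.2`.
-/

open Filter Topology Metric Set

namespace H80.LD

variable {X V : Type*} [NormedAddCommGroup X] [NormedAddCommGroup V] [NormedSpace ℝ V] [ProperSpace V]

omit [NormedAddCommGroup X] [ProperSpace V] in
theorem F4b_ext_fst (a : ℝ) (G : X × V → X × V) (hG : ∀ p, (G p).1 = p.1) (p : X × V) :
    (ext a G p).1 = p.1 := by
  unfold ext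
  split_ifs
  · rfl
  · simp only [lam]
    rw [hG]

theorem F4b_core (a b : ℝ) (ha : 0 < a) (c : X) (G : X × V → X × V)
    (hc : ∀ v : V, a ≤ ‖v‖ → ‖v‖ ≤ 2 * a → ContinuousAt (ext a G) (c, v) ∧
      ‖(ext a G (c, v)).2‖ < b) :
    ∀ᶠ q in 𝓝 ((c, 0) : X × V), ‖(ext a G q).2‖ ≤ b / a * ‖q.2‖ := by
  have hK : IsCompact (closedBall (0 : V) (2 * a) ∩ {v : V | a ≤ ‖v‖}) :=
    (isCompact_closedBall _ _).inter_right (isClosed_le continuous_const continuous_norm)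
  have h1 := hK.eventually_forall_of_forall_eventually (x₀ := c)
    (P := fun x v => ‖(ext a G (x, v)).2‖ < b) (by
      intro v hv
      have hv1 : ‖v‖ ≤ 2 * a := by simpa using hv.1
      obtain ⟨h1, h2⟩ := hc v hv.2 hv1
      have h3 : ContinuousAt (fun z => ‖(ext a G z).2‖) (c, v) :=
        (continuous_snd.continuousAt.comp h1).norm
      exact h3.eventually (gt_mem_nhds h2))
  have h2 : ∀ᶠ q in 𝓝 ((c, 0) : X × V), ∀ v ∈ closedBall (0 : V) (2 * a) ∩ {v : V | a ≤ ‖v‖},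
      ‖(ext a G (q.1, v)).2‖ < b := by
    have : Tendsto (fun q : X × V => q.1) (𝓝 (c, 0)) (𝓝 c) := continuous_fst.tendsto _
    exact this.eventually h1
  have h3 : ∀ᶠ q in 𝓝 ((c, 0) : X × V), ‖q.2‖ < a := by
    have : Tendsto (fun q : X × V => ‖q.2‖) (𝓝 (c, 0)) (𝓝 ‖(0 : V)‖) :=
      (continuous_snd.norm).tendsto _
    rw [norm_zero] at this
    exact this.eventually (gt_mem_nhds ha)
  filter_upwards [h2, h3] with q hq2 hq3
  by_cases h0 : q.2 = 0
  · have : ext a G q = q := by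
      unfold ext
      rw [if_pos h0]
    rw [this, h0, norm_zero, mul_zero]
  · obtain ⟨e1, e2⟩ := F1_kk a ha q h0
    set k := kk a q with hk
    have hk0 : k ≠ 0 := by
      intro h
      rw [h, pow_zero, one_mul] at e1
      linarith
    have e3 : 2 ^ k * ‖q.2‖ < 2 * a := e2.resolve_left hk0
    have hn : ‖(lam (2 ^ k) q).2‖ = 2 ^ k * ‖q.2‖ := F1_lam_norm _ (by positivity) q
    have e4 : ext a G q = lam ((1 / 2) ^ k) (ext a G (lam (2 ^ k) q)) := by
      rw [F1_ext_big a ha G (lam (2 ^ k) q) (by rw [hn]; exact e1)]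
      conv_lhs => unfold ext
      rw [if_neg h0, ← hk]
    have e5 : ‖(ext a G (lam (2 ^ k) q)).2‖ < b := by
      have := hq2 (lam (2 ^ k) q).2 ⟨by simp only [mem_closedBall, dist_zero_right, hn]; exact e3.le,
        by show a ≤ ‖(lam (2 ^ k) q).2‖; rw [hn]; exact e1⟩
      exact this
    rw [e4, F1_lam_norm _ (by positivity)]
    have hp : (0 : ℝ) < (1 / 2) ^ k := by positivity
    have hpp : (1 / 2 : ℝ) ^ k * 2 ^ k = 1 := by
      rw [← mul_pow]
      norm_num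
    have hb : 0 ≤ b := (norm_nonneg _).trans e5.le
    have e6 : (1 / 2 : ℝ) ^ k ≤ ‖q.2‖ / a := by
      rw [le_div_iff₀ ha]
      calc (1 / 2 : ℝ) ^ k * a ≤ (1 / 2) ^ k * (2 ^ k * ‖q.2‖) :=
            mul_le_mul_of_nonneg_left e1 hp.le
        _ = ‖q.2‖ := by rw [← mul_assoc, hpp, one_mul]
    calc (1 / 2 : ℝ) ^ k * ‖(ext a G (lam (2 ^ k) q)).2‖ ≤ (1 / 2) ^ k * b :=
          mul_le_mul_of_nonneg_left e5.le hp.le
      _ ≤ ‖q.2‖ / a * b := mul_le_mul_of_nonneg_right e6 hb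
      _ = b / a * ‖q.2‖ := by ring

theorem F4b_main (a b C : ℝ) (ha : 0 < a) (c : X) (G : X × V → X × V) (hG : ∀ p, (G p).1 = p.1)
    (hC : 1 ≤ C) (hC' : b / a ≤ C)
    (hc : ∀ v : V, a ≤ ‖v‖ → ‖v‖ ≤ 2 * a → ContinuousAt (ext a G) (c, v) ∧
      ‖(ext a G (c, v)).2‖ < b) :
    ∀ᶠ q in 𝓝 ((c, 0) : X × V), ‖ext a G q - ext a G (c, 0)‖ ≤ C * ‖q - (c, 0)‖ := by
  filter_upwards [F4b_core a b ha c G hc] with q hq
  have h0 : ext a G ((c, 0) : X × V) = (c, 0) := by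
    unfold ext
    rw [if_pos rfl]
  rw [h0, Prod.norm_def, Prod.norm_def]
  simp only [Prod.fst_sub, Prod.snd_sub, sub_zero, F4b_ext_fst a G hG q]
  have h1 : 0 ≤ max ‖q.1 - c‖ ‖q.2‖ := (norm_nonneg _).trans (le_max_left _ _)
  refine max_le ?_ ?_
  · calc ‖q.1 - c‖ ≤ max ‖q.1 - c‖ ‖q.2‖ := le_max_left _ _
      _ = 1 * max ‖q.1 - c‖ ‖q.2‖ := (one_mul _).symm
      _ ≤ C * max ‖q.1 - c‖ ‖q.2‖ := mul_le_mul_of_nonneg_right hC h1
  · calc ‖(ext a G q).2‖ ≤ b / a * ‖q.2‖ := hq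
      _ ≤ C * ‖q.2‖ := mul_le_mul_of_nonneg_right hC' (norm_nonneg _)
      _ ≤ C * max ‖q.1 - c‖ ‖q.2‖ :=
        mul_le_mul_of_nonneg_left (le_max_right _ _) (by linarith)

omit [NormedSpace ℝ V] [ProperSpace V] in
theorem F4b_disp {ε L : ℝ} (hε : ε ≤ 1 / 100) (c : X) (f f' : X × V → X × V)
    (h : NP ε L ({c} ×ˢ sh V) f f') (x : X × V) (hc : x.1 = c) (h1 : 1 / 3 < ‖x.2‖)
    (h2 : ‖x.2‖ < 2) : |‖(f x).2‖ - ‖x.2‖| ≤ 1 / 100 ∧ |‖(f' x).2‖ - ‖x.2‖| ≤ 1 / 100 := by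
  have hx : x ∈ ({c} ×ˢ sh V : Set (X × V)) := ⟨hc, h1, h2⟩
  constructor
  · calc |‖(f x).2‖ - ‖x.2‖| ≤ ‖(f x).2 - x.2‖ := abs_norm_sub_norm_le _ _
      _ ≤ ‖f x - x‖ := norm_snd_le (f x - x)
      _ ≤ 1 / 100 := (h.disp x hx).trans hε
  · calc |‖(f' x).2‖ - ‖x.2‖| ≤ ‖(f' x).2 - x.2‖ := abs_norm_sub_norm_le _ _
      _ ≤ ‖f' x - x‖ := norm_snd_le (f' x - x)
      _ ≤ 1 / 100 := (h.disp' x hx).trans hε

omit [ProperSpace V] in
theorem F4b_rad {r : ℝ → ℝ} (w : X × V) (hw : 0 < ‖w.2‖) (hr : 0 ≤ r ‖w.2‖) :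
    ‖(rad r w).2‖ = r ‖w.2‖ := by
  rw [F1_rad_norm r w (norm_pos_iff.1 hw), abs_of_nonneg hr]

omit [ProperSpace V] in
theorem F4b_gF {ε L : ℝ} (hε : ε ≤ 1 / 100) (c : X) (f f' : X × V → X × V)
    (h : NP ε L ({c} ×ˢ sh V) f f') (v : V) (h1 : 3 / 8 ≤ ‖v‖) (h2 : ‖v‖ ≤ 3 / 4) :
    ‖(gF f f' (c, v)).2‖ < 1 := by
  unfold gF
  split_ifs with g1
  · have := (abs_le.1 (F4b_disp hε c f f' h (c, v) rfl (by simp only; linarith)
      (by simp only; linarith)).1).2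
    simp only at this
    linarith
  · unfold stF
    have e1 : ‖(lam 2 ((c, v) : X × V)).2‖ = 2 * ‖v‖ := F1_lam_norm 2 (by norm_num) _
    have e2 := abs_le.1 (F4b_disp hε c f f' h (lam 2 (c, v)) rfl (by rw [e1]; linarith)
      (by rw [e1]; linarith)).1
    rw [e1] at e2
    set w := f (lam 2 (c, v)) with hw
    have hwc : w.1 = c := by rw [hw, h.pres]; rfl
    split_ifs with g2
    · have hr1 : 1 / 2 ≤ rR ‖w.2‖ := by
        unfold rR
        refine le_min ?_ ?_ <;> linarith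
      have hr2 : rR ‖w.2‖ ≤ ‖w.2‖ := min_le_right _ _
      have ey := F4b_rad (r := rR) w (by linarith) (by linarith)
      set y := rad rR w with hy
      have hyc : y.1 = c := hwc
      have e3 := abs_le.1 (F4b_disp hε c f f' h y hyc (by rw [ey]; linarith)
        (by rw [ey]; linarith)).2
      rw [ey] at e3
      unfold stT
      split_ifs with g3
      · have hs1 : 3 / 5 ≤ rS ‖(f' y).2‖ := by
          unfold rS
          refine le_min g3 ?_
          linarith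
        have hs2 : rS ‖(f' y).2‖ ≤ 1 / 2 + ‖(f' y).2‖ / 6 := min_le_right _ _
        have ez := F4b_rad (r := rS) (f' y) (by linarith) (by linarith)
        have e4 := abs_le.1 (F4b_disp hε c f f' h (rad rS (f' y))
          (by show (f' y).1 = c; rw [h.pres']; exact hyc) (by rw [ez]; linarith)
          (by rw [ez]; linarith)).1
        rw [ez] at e4
        linarith
      · rw [ey]
        linarith
    · rw [F1_lam_norm _ (by norm_num)]
      linarith

omit [ProperSpace V] in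
theorem F4b_gFi {ε L : ℝ} (hε : ε ≤ 1 / 100) (c : X) (f f' : X × V → X × V)
    (h : NP ε L ({c} ×ˢ sh V) f f') (v : V) (h1 : 1 / 2 ≤ ‖v‖) (h2 : ‖v‖ ≤ 1) :
    ‖(gFi f f' (c, v)).2‖ < 2 := by
  have hr : ∀ y : X × V, y.1 = c → 1 / 2 ≤ ‖y.2‖ → ‖y.2‖ ≤ 152 / 100 →
      ‖(lam (1 / 2) (f' (rad rRi y))).2‖ < 2 := by
    intro y hyc hy1 hy2
    have hr1 : ‖y.2‖ ≤ rRi ‖y.2‖ := le_max_right _ _
    have hr2 : rRi ‖y.2‖ ≤ 152 / 100 := by
      unfold rRi
      refine max_le ?_ hy2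
      linarith
    have ez := F4b_rad (r := rRi) y (by linarith) (by linarith)
    have e4 := abs_le.1 (F4b_disp hε c f f' h (rad rRi y) hyc (by rw [ez]; linarith)
      (by rw [ez]; linarith)).2
    rw [ez] at e4
    rw [F1_lam_norm _ (by norm_num)]
    linarith
  unfold gFi
  have e1 := abs_le.1 (F4b_disp hε c f f' h (c, v) rfl (by simp only; linarith)
      (by simp only; linarith)).2
  simp only at e1
  split_ifs with g1
  · linarith
  · push Not at g1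
    unfold stTi
    split_ifs with g2
    · have hs1 : ‖(f' (c, v)).2‖ ≤ rSi ‖(f' (c, v)).2‖ := le_max_left _ _
      have hs2 : rSi ‖(f' (c, v)).2‖ ≤ 3 / 2 := by
        unfold rSi
        refine max_le ?_ ?_ <;> linarith
      have ez := F4b_rad (r := rSi) (f' (c, v)) (by linarith) (by linarith)
      have e4 := abs_le.1 (F4b_disp hε c f f' h (rad rSi (f' (c, v)))
        (by show (f' (c, v)).1 = c; rw [h.pres']) (by rw [ez]; linarith)
        (by rw [ez]; linarith)).1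
      rw [ez] at e4
      refine hr _ ?_ ?_ ?_
      · rw [h.pres]
        show (f' (c, v)).1 = c
        rw [h.pres']
      · linarith
      · linarith
    · exact hr (c, v) rfl h1 (by simp only; linarith)

omit [ProperSpace V] in
theorem F4b_pres {ε L : ℝ} {U : Set (X × V)} (f f' : X × V → X × V)
    (h : NP ε L U f f') : (∀ p, (gF f f' p).1 = p.1) ∧ ∀ p, (gFi f f' p).1 = p.1 := by
  constructor
  · intro p
    unfold gF
    split_ifs
    · exact h.pres p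
    · unfold stF
      split_ifs
      · unfold stT
        split_ifs
        · simp only [rad, h.pres, h.pres', lam]
        · simp only [rad, h.pres, lam]
      · simp only [h.pres, lam]
  · intro p
    unfold gFi
    split_ifs
    · exact h.pres' p
    · unfold stTi
      split_ifs
      · simp only [rad, h.pres, h.pres', lam]
      · simp only [rad, h.pres', lam]

theorem F4b_lip {ε L : ℝ} (hL : 1 ≤ L) (hε : ε ≤ 1 / 100) (c : X) (f f' : X × V → X × V)
    (h : NP ε L ({c} ×ˢ sh V) f f') (p : X × V) (hc : p.1 = c) (hp : ‖p.2‖ < 2) :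
    ∀ᶠ q in 𝓝 p, ‖fF f f' q - fF f f' p‖ ≤ 200 * L ^ 3 * ‖q - p‖ := by
  have hL3 : 1 ≤ L ^ 3 := one_le_pow₀ hL
  by_cases h0 : p.2 = 0
  · obtain ⟨x, v⟩ := p
    simp only at hc h0
    subst hc h0
    refine F4b_main (3 / 8) 1 (200 * L ^ 3) (by norm_num) x (gF f f') (F4b_pres f f' h).1
      (by linarith) (by norm_num; linarith) ?_
    intro v h1 h2
    have h3 : v ≠ 0 := by
      rw [← norm_pos_iff]
      linarith
    refine ⟨B0b_cont (F4_lip hL hε x f f' h (x, v) rfl (by simp only; linarith) h3), ?_⟩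
    rw [F1_ext_big _ (by norm_num) _ _ h1]
    exact F4b_gF hε x f f' h v h1 (by linarith)
  · filter_upwards [F4_lip hL hε c f f' h p hc hp h0] with q hq
    refine hq.trans (mul_le_mul_of_nonneg_right ?_ (norm_nonneg _))
    linarith

theorem F4b_lip' {ε L : ℝ} (hL : 1 ≤ L) (hε : ε ≤ 1 / 100) (c : X) (f f' : X × V → X × V)
    (h : NP ε L ({c} ×ˢ sh V) f f') (p : X × V) (hc : p.1 = c) (hp : ‖p.2‖ < 2) :
    ∀ᶠ q in 𝓝 p, ‖fFi f f' q - fFi f f' p‖ ≤ 200 * L ^ 3 * ‖q - p‖ := by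
  have hL3 : 1 ≤ L ^ 3 := one_le_pow₀ hL
  by_cases h0 : p.2 = 0
  · obtain ⟨x, v⟩ := p
    simp only at hc h0
    subst hc h0
    refine F4b_main (1 / 2) 2 (200 * L ^ 3) (by norm_num) x (gFi f f') (F4b_pres f f' h).2
      (by linarith) (by norm_num; linarith) ?_
    intro v h1 h2
    have h3 : v ≠ 0 := by
      rw [← norm_pos_iff]
      linarith
    refine ⟨B0b_cont (F5_lip hL hε x f f' h (x, v) rfl (by simp only; linarith) h3), ?_⟩
    rw [F1_ext_big _ (by norm_num) _ _ h1]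
    exact F4b_gFi hε x f f' h v h1 (by linarith)
  · exact F5_lip hL hε c f f' h p hc hp h0

end H80.LD
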