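import Pool.Agent.H80.LD.F1
import Pool.Agent.H80.LD.B0b

/-!
# F6: `fF f f'` is close to `fF id id`

`‖fF f f' p - fF id id p‖ ≤ 40 ε` for `p.1 = c`, `‖p.2‖ < 2`.  Both use the same `k = kk (3/8) p`, so it is enough to bound `‖gF f f' p' - gF id id p'‖` for `p' = lam (2^k) p`
(scaling by `(1/2)^k ≤ 1`; first components are equal).  `n p' ≥ 3/4`: `‖f p' - p'‖ ≤ ε`.  `3/8 ≤ n p' < 3/4`: put `w₀ = lam 2 p'`, `w = f w₀`, `‖w - w₀‖ ≤ ε`,
`S0 x := rad (fun g => rS (max (g/2) (rR g))) x`.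
* `stF id id p' = S0 w₀`: if `n w₀ < 1`: `rR g ≤ g/2` for `g ≤ 1`, `rS (g/2) = g/2`, so `S0 w₀ = lam (1/2) w₀`; if `n w₀ ≥ 1`: `rR g ≥ g/2`, `S0 w₀ = rad rS (rad rR w₀)`, and `stT id id y` is
  `rad rS y` in both cases (`rS g = g` for `g ≤ 3/5`).
* `stF f f' p' ≈ S0 w` within `4 ε`: if `n w < 1` equality (as before).  If `n w ≥ 1`, `y = rad rR w`: case `3/5 ≤ n (f' y)`: `stT y = f (rad rS (f' y))`, `‖f z - z‖ ≤ ε`,
  `‖rad rS (f' y) - rad rS y‖ ≤ 3 ε` (`F1_rad_lip`, `ℓ = 1`).  Case `n (f' y) < 3/5`: `n y < 3/5 + ε`, `stT y = y` and `‖y - rad rS y‖ = n y - rS (n y) ≤ (5/6) (n y - 3/5) ≤ ε`.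
* `‖S0 w - S0 w₀‖ ≤ 3 * (7/2) * ε * ...`: the function `g ↦ rS (max (g/2) (rR g))` is `7/2`-Lipschitz and `≤ g ≤ (7/2) g`, so `‖S0 w - S0 w₀‖ ≤ (21/2) ε`.
Total `≤ 15 ε ≤ 40 ε`.  Same for `fFi`: not needed.
Also here: the functions `fF f f', fFi f f'` at `(c, v)`, `‖v‖ < 2`, depend only on the values of `f, f'` on `{c} ×ˢ sh V`: `F6_congr` (for two NP pairs which agree there).
-/

open Filter Topology Metric Set

namespace H80.LD

variable {X V : Type*} [NormedAddCommGroup X] [NormedAddCommGroup V] [NormedSpace ℝ V]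

theorem F6_rS_nonneg {g : ℝ} (hg : 0 ≤ g) : 0 ≤ rS g := by
  unfold rS; exact le_min hg (by linarith)

theorem F6_rS_le (g : ℝ) : rS g ≤ g := min_le_left _ _

theorem F6_rS_eq {g : ℝ} (hg : g ≤ 3 / 5) : rS g = g := by
  unfold rS; exact min_eq_left (by linarith)

theorem F6_rS_eq' {g : ℝ} (hg : 3 / 5 ≤ g) : rS g = 1 / 2 + g / 6 := by
  unfold rS; exact min_eq_right (by linarith)

theorem F6_rR_le (g : ℝ) : rR g ≤ g := min_le_right _ _

theorem F6_rR_ge {g : ℝ} (hg : 1 ≤ g) : g / 2 ≤ rR g := by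
  unfold rR; exact le_min (by linarith) (by linarith)

theorem F6_rR_le' {g : ℝ} (hg : g ≤ 1) : rR g ≤ g / 2 := by
  unfold rR; exact le_trans (min_le_left _ _) (by linarith)

/-- the model radial function -/
noncomputable def F6_s (g : ℝ) : ℝ := rS (max (g / 2) (rR g))

theorem F6_s_lip (a b : ℝ) : |F6_s a - F6_s b| ≤ 7 / 2 * |a - b| := by
  unfold F6_s
  have h1 := (F1_lips (max (a / 2) (rR a)) (max (b / 2) (rR b))).1
  have h2 := abs_max_sub_max_le_max (a / 2) (rR a) (b / 2) (rR b)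
  have h3 := (F1_lips a b).2.2.1
  have h4 : |a / 2 - b / 2| ≤ 7 / 2 * |a - b| := by
    have : a / 2 - b / 2 = (a - b) * (1 / 2) := by ring
    rw [this, abs_mul, abs_of_pos (by norm_num : (0:ℝ) < 1 / 2)]
    have := abs_nonneg (a - b)
    linarith
  have h5 := max_le h4 h3
  linarith

theorem F6_s_nonneg {g : ℝ} (hg : 0 ≤ g) : 0 ≤ F6_s g :=
  F6_rS_nonneg (le_trans (by linarith : (0:ℝ) ≤ g / 2) (le_max_left _ _))

theorem F6_s_le {g : ℝ} (hg : 0 ≤ g) : F6_s g ≤ g :=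
  le_trans (F6_rS_le _) (max_le (by linarith) (F6_rR_le g))

theorem F6_ne {p : X × V} (h : 0 < ‖p.2‖) : p.2 ≠ 0 := by
  intro h0; rw [h0, norm_zero] at h; exact lt_irrefl _ h

/-- the model step is radial -/
theorem F6_model (w : X × V) (hw : 0 < ‖w.2‖) :
    (if 1 ≤ ‖w.2‖ then rad rS (rad rR w) else lam (1 / 2) w) = rad F6_s w := by
  have hne := F6_ne hw
  split_ifs with h
  · have hr := F6_rR_ge h
    rw [F1_rad_rad rR rS w hne (by linarith)]
    unfold rad F6_s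
    simp only
    rw [max_eq_right hr]
  · push Not at h
    have hr := F6_rR_le' h.le
    unfold rad lam F6_s
    rw [max_eq_left hr, F6_rS_eq (by linarith)]
    congr 2
    field_simp

theorem F6_stT_id (y : X × V) : stT id id y = rad rS y := by
  unfold stT
  simp only [id]
  split_ifs with h
  · rfl
  · push Not at h
    exact (F1_rad_id rS y (F6_rS_eq h.le)).symm

theorem F6_stF_id (p : X × V) (hp : 0 < ‖p.2‖) : stF id id p = rad F6_s (lam 2 p) := by
  have h2 : ‖(lam 2 p).2‖ = 2 * ‖p.2‖ := F1_lam_norm 2 (by norm_num) p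
  rw [← F6_model (lam 2 p) (by rw [h2]; linarith)]
  unfold stF
  simp only [id]
  rw [F6_stT_id]

theorem F6_snd_sub (w v : X × V) : |‖w.2‖ - ‖v.2‖| ≤ ‖w - v‖ := by
  have h1 := abs_norm_sub_norm_le w.2 v.2
  have h2 : ‖w.2 - v.2‖ ≤ ‖w - v‖ := norm_snd_le (w - v)
  linarith

theorem F6_rad_fst (r : ℝ → ℝ) (p : X × V) : (rad r p).1 = p.1 := rfl

theorem F6_lam_fst (a : ℝ) (p : X × V) : (lam a p).1 = p.1 := rfl

theorem F6_mem {c : X} {p : X × V} (h1 : p.1 = c) (h2 : 1 / 3 < ‖p.2‖) (h3 : ‖p.2‖ < 2) :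
    p ∈ ({c} ×ˢ sh V : Set (X × V)) := ⟨h1, h2, h3⟩

theorem F6_rad_norm' (r : ℝ → ℝ) (p : X × V) (hp : 0 < ‖p.2‖) (hr : 0 ≤ r ‖p.2‖) :
    ‖(rad r p).2‖ = r ‖p.2‖ := by
  rw [F1_rad_norm r p (F6_ne hp), abs_of_nonneg hr]

theorem F6_stT {ε L : ℝ} (hε0 : 0 ≤ ε) (hε : ε ≤ 1 / 100) (c : X) (f f' : X × V → X × V)
    (h : NP ε L ({c} ×ˢ sh V) f f') (y : X × V) (hc : y.1 = c) (h1 : 1 / 2 ≤ ‖y.2‖)
    (h2 : ‖y.2‖ ≤ 8 / 5) : ‖stT f f' y - rad rS y‖ ≤ 4 * ε := by
  have hy := F6_mem hc (by linarith) (by linarith)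
  have hd := h.disp' y hy
  have hn := abs_le.mp (F6_snd_sub (f' y) y)
  unfold stT
  split_ifs with h3
  · have hz1 : ‖(rad rS (f' y)).2‖ = rS ‖(f' y).2‖ :=
      F6_rad_norm' rS (f' y) (by linarith) (F6_rS_nonneg (by linarith))
    have hz2 := F6_rS_eq' h3
    have hz3 := F6_rS_le ‖(f' y).2‖
    have hz : rad rS (f' y) ∈ ({c} ×ˢ sh V : Set (X × V)) := by
      refine F6_mem ?_ ?_ ?_
      · rw [F6_rad_fst, h.pres', hc]
      · rw [hz1]; linarith
      · rw [hz1]; linarith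
    have hd2 := h.disp _ hz
    have hl : ‖rad rS (f' y) - rad rS y‖ ≤ 3 * 1 * ‖f' y - y‖ := by
      refine F1_rad_lip rS 1 le_rfl y (f' y) (F6_ne (by linarith)) (F1_lips _ _).1
        (F6_rS_nonneg (by linarith)) ?_
      rw [one_mul]; exact F6_rS_le _
    have ht : ‖f (rad rS (f' y)) - rad rS y‖
        ≤ ‖f (rad rS (f' y)) - rad rS (f' y)‖ + ‖rad rS (f' y) - rad rS y‖ := by
      have := norm_add_le (f (rad rS (f' y)) - rad rS (f' y)) (rad rS (f' y) - rad rS y)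
      simpa using this
    linarith
  · push Not at h3
    have hg : 0 < ‖y.2‖ := by linarith
    have e1 : y - rad rS y = (0, (1 - rS ‖y.2‖ / ‖y.2‖) • y.2) := by
      unfold rad
      ext
      · simp
      · simp [sub_smul]
    have e2 : ‖(0 : X)‖ = 0 := norm_zero
    have e3 : ‖(1 - rS ‖y.2‖ / ‖y.2‖) • y.2‖ = ‖y.2‖ - rS ‖y.2‖ := by
      rw [norm_smul, Real.norm_eq_abs, abs_of_nonneg]
      · field_simp
      · rw [sub_nonneg, div_le_one hg]; exact F6_rS_le _
    rw [e1, Prod.norm_def]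
    simp only [e2, e3]
    apply max_le (by linarith)
    rcases le_total ‖y.2‖ (3 / 5) with h4 | h4
    · rw [F6_rS_eq h4]; linarith
    · rw [F6_rS_eq' h4]; linarith

theorem F6_gF {ε L : ℝ} (hε0 : 0 ≤ ε) (hε : ε ≤ 1 / 100) (c : X) (f f' : X × V → X × V)
    (h : NP ε L ({c} ×ˢ sh V) f f') (p : X × V) (hc : p.1 = c) (h1 : 3 / 8 ≤ ‖p.2‖)
    (h2 : ‖p.2‖ < 2) : ‖gF f f' p - gF id id p‖ ≤ 40 * ε := by
  unfold gF
  split_ifs with h3
  · have := h.disp p (F6_mem hc (by linarith) h2)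
    simp only [id]
    linarith
  · push Not at h3
    rw [F6_stF_id p (by linarith)]
    have hw0 : ‖(lam 2 p).2‖ = 2 * ‖p.2‖ := F1_lam_norm 2 (by norm_num) p
    set w0 := lam 2 p with hw0def
    have hc0 : w0.1 = c := hc
    have hd := h.disp w0 (F6_mem hc0 (by linarith) (by linarith))
    have hn := abs_le.mp (F6_snd_sub (f w0) w0)
    have hcw : (f w0).1 = c := by rw [h.pres, hc0]
    have hA : ‖stF f f' p - rad F6_s (f w0)‖ ≤ 4 * ε := by
      rw [← F6_model (f w0) (by linarith)]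
      unfold stF
      rw [← hw0def]
      split_ifs with h4
      · have h5 := F6_rR_ge h4
        have h6 := F6_rR_le ‖(f w0).2‖
        have h7 : ‖(rad rR (f w0)).2‖ = rR ‖(f w0).2‖ :=
          F6_rad_norm' rR (f w0) (by linarith) (by linarith)
        refine F6_stT hε0 hε c f f' h (rad rR (f w0)) ?_ ?_ ?_
        · rw [F6_rad_fst, hcw]
        · rw [h7]; linarith
        · rw [h7]; linarith
      · rw [sub_self, norm_zero]; linarith
    have hB : ‖rad F6_s (f w0) - rad F6_s w0‖ ≤ 3 * (7 / 2) * ‖f w0 - w0‖ := by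
      refine F1_rad_lip F6_s (7 / 2) (by norm_num) w0 (f w0) (F6_ne (by linarith)) (F6_s_lip _ _)
        (F6_s_nonneg (by linarith)) ?_
      have := F6_s_le (norm_nonneg w0.2)
      have := norm_nonneg w0.2
      linarith
    have ht : ‖stF f f' p - rad F6_s w0‖
        ≤ ‖stF f f' p - rad F6_s (f w0)‖ + ‖rad F6_s (f w0) - rad F6_s w0‖ := by
      have := norm_add_le (stF f f' p - rad F6_s (f w0)) (rad F6_s (f w0) - rad F6_s w0)
      simpa using this
    linarith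

/-- the scale of `p` -/
theorem F6_scale (a : ℝ) (ha : 0 < a) (ha' : a ≤ 1) (p : X × V) (hp : p.2 ≠ 0) (h2 : ‖p.2‖ < 2) :
    a ≤ ‖(lam (2 ^ kk a p) p).2‖ ∧ ‖(lam (2 ^ kk a p) p).2‖ < 2 := by
  obtain ⟨h3, h4⟩ := F1_kk a ha p hp
  have h5 : ‖(lam (2 ^ kk a p) p).2‖ = 2 ^ kk a p * ‖p.2‖ := F1_lam_norm _ (by positivity) p
  rw [h5]
  refine ⟨h3, ?_⟩
  rcases h4 with h4 | h4
  · rw [h4]; simpa using h2
  · linarith

theorem F6_close {ε L : ℝ} (hε0 : 0 ≤ ε) (hε : ε ≤ 1 / 100) (c : X) (f f' : X × V → X × V)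
    (h : NP ε L ({c} ×ˢ sh V) f f') (p : X × V) (hc : p.1 = c) (hp : ‖p.2‖ < 2) :
    ‖fF f f' p - fF id id p‖ ≤ 40 * ε := by
  unfold fF ext
  split_ifs with h0
  · rw [sub_self, norm_zero]; linarith
  · obtain ⟨h1, h2⟩ := F6_scale (3 / 8) (by norm_num) (by norm_num) p h0 hp
    refine le_trans (F1_lam_lip' _ (by positivity) ?_ _ _)
      (F6_gF hε0 hε c f f' h _ (by rw [F6_lam_fst, hc]) h1 h2)
    exact pow_le_one₀ (by norm_num) (by norm_num)

theorem F6_val {c : X} {f : X × V → X × V} (h : ∀ v ∈ sh V, f (c, v) = (c, v)) (p : X × V)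
    (h1 : p.1 = c) (h2 : 1 / 3 < ‖p.2‖) (h3 : ‖p.2‖ < 2) : f p = p := by
  have := h p.2 ⟨h2, h3⟩
  rw [← h1] at this
  exact this

/-- if `f, f'` are the identity on the shell over `c` then `fF f f' = fF id id`, `fFi f f' = fFi id id` over `c` -/
theorem F6_congr (c : X) (f f' : X × V → X × V)
    (h : ∀ v ∈ sh V, f (c, v) = (c, v) ∧ f' (c, v) = (c, v)) (p : X × V) (hc : p.1 = c) (hp : ‖p.2‖ < 2) :
    fF f f' p = fF id id p ∧ fFi f f' p = fFi id id p := by
  have hf := fun (q : X × V) => F6_val (f := f) (fun v hv => (h v hv).1) q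
  have hf' := fun (q : X × V) => F6_val (f := f') (fun v hv => (h v hv).2) q
  constructor
  · unfold fF ext
    split_ifs with h0
    · rfl
    · obtain ⟨h1, h2⟩ := F6_scale (3 / 8) (by norm_num) (by norm_num) p h0 hp
      have hc' : (lam (2 ^ kk (3 / 8) p) p).1 = c := hc
      generalize lam (2 ^ kk (3 / 8) p) p = q at h1 h2 hc'
      congr 1
      unfold gF
      split_ifs with h3
      · exact hf q hc' (by linarith) h2
      · push Not at h3
        have hw0 : ‖(lam 2 q).2‖ = 2 * ‖q.2‖ := F1_lam_norm 2 (by norm_num) q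
        have hc0 : (lam 2 q).1 = c := hc'
        unfold stF
        simp only [id]
        rw [hf (lam 2 q) hc0 (by linarith) (by linarith)]
        split_ifs with h4
        · have h5 := F6_rR_ge h4
          have h6 := F6_rR_le ‖(lam 2 q).2‖
          have h7 : ‖(rad rR (lam 2 q)).2‖ = rR ‖(lam 2 q).2‖ :=
            F6_rad_norm' rR (lam 2 q) (by linarith) (by linarith)
          have h8 : (rad rR (lam 2 q)).1 = c := hc0
          unfold stT
          simp only [id]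
          rw [hf' (rad rR (lam 2 q)) h8 (by rw [h7]; linarith) (by rw [h7]; linarith)]
          split_ifs with h9
          · have h10 := F6_rS_eq' h9
            have h11 := F6_rS_le ‖(rad rR (lam 2 q)).2‖
            have h12 : ‖(rad rS (rad rR (lam 2 q))).2‖ = rS ‖(rad rR (lam 2 q)).2‖ :=
              F6_rad_norm' rS _ (by linarith) (F6_rS_nonneg (by linarith))
            exact hf _ h8 (by rw [h12]; linarith) (by rw [h12]; rw [h7] at h11; rw [h7]; linarith)
          · rfl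
        · rfl
  · unfold fFi ext
    split_ifs with h0
    · rfl
    · obtain ⟨h1, h2⟩ := F6_scale (1 / 2) (by norm_num) (by norm_num) p h0 hp
      have hc' : (lam (2 ^ kk (1 / 2) p) p).1 = c := hc
      generalize lam (2 ^ kk (1 / 2) p) p = q at h1 h2 hc'
      congr 1
      unfold gFi
      simp only [id]
      rw [hf' q hc' (by linarith) h2]
      split_ifs with h3
      · rfl
      · push Not at h3
        have hS : stTi f f' q = stTi id id q ∧ (stTi id id q).1 = c ∧ 1 / 2 ≤ ‖(stTi id id q).2‖ ∧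
            ‖(stTi id id q).2‖ < 3 / 2 := by
          unfold stTi
          simp only [id]
          rw [hf' q hc' (by linarith) h2]
          split_ifs with h4
          · have h5 : ‖q.2‖ ≤ rSi ‖q.2‖ := le_max_left _ _
            have h6 : rSi ‖q.2‖ < 3 / 2 := max_lt (by linarith) (by linarith)
            have h7 : ‖(rad rSi q).2‖ = rSi ‖q.2‖ := F6_rad_norm' rSi q (by linarith) (by linarith)
            refine ⟨hf _ hc' (by rw [h7]; linarith) (by rw [h7]; linarith), hc', ?_, ?_⟩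
            · rw [h7]; linarith
            · rw [h7]; linarith
          · exact ⟨rfl, hc', h1, by linarith⟩
        obtain ⟨hS1, hS2, hS3, hS4⟩ := hS
        rw [hS1]
        generalize stTi id id q = u at hS2 hS3 hS4
        congr 1
        have h5 : ‖u.2‖ ≤ rRi ‖u.2‖ := le_max_right _ _
        have h6 : rRi ‖u.2‖ < 2 := max_lt (by linarith) (by linarith)
        have h7 : ‖(rad rRi u).2‖ = rRi ‖u.2‖ := F6_rad_norm' rRi u (by linarith) (by linarith)
        exact hf' _ hS2 (by rw [h7]; linarith) (by rw [h7]; linarith)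

end H80.LD
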