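import Pool.Agent.H80.LD.F2
import Pool.Agent.H80.LD.F3
import Pool.Agent.H80.LD.F4b
import Pool.Agent.H80.LD.F6

/-!
# F7: the normalised extension

`F p = fF f f' (fFi id id p)`, `F' p = fF id id (fFi f f' p)`.  `(id, id)` is an `NP 0 1` pair everywhere, so F2-F6 apply to it.  Facts for `id`: `fF id id`, `fFi id id` are radial
(they map radius `< 2` to radius `< 2`), equal to the identity for radius `≥ 3/4`, mutually inverse.
* For `4/5 ≤ ‖p.2‖ < 2`, `p.1 = c`: `fFi id id p = p`, `fF f f' p = f p`; `fFi f f' p = gFi f f' p = f' p` as `n (f' p) ≥ 3/4`, and `fF id id (f' p) = f' p`.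
* displacement: `r = fFi id id p`, `p = fF id id r`, `F p - p = fF f f' r - fF id id r` (`F6_close`).  For `F'`: if `r = fFi f f' p` has radius `< 2`: `p = fF f f' r` (`F3_right`), same bound; if not,
  then `n p ≥ 4/5` (otherwise `r` has small radius: `n r ≤ 0.9`: for `n p < 4/5` the cases of F3 give this) and `F' p = f' p`.
* Lipschitz: `fFi id id` is `200`-Lipschitz (pointwise, F4b), `fF f f'` is `200 L^3`; for `F'` at `p` with `n p > 4/5` near `p` (in all fibres: `n (f' q) ≥ 3/4` by continuity of `f'` at `p`) `F' = f'`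
  (and for `n p < 2`), for `n p ≤ 4/5` compose (`fFi f f' p` has radius `< 2`).
* `inv`: `r = fFi id id p`, `F p = fF f f' r` has radius `< 2`: `fFi f f' (fF f f' r) = r` (F2), `fF id id r = p` (F3 for id).
* `inv'`: `s = fFi f f' p`.  If `n s < 2`: `fFi id id (fF id id s) = s` (F2 for id, `n (fF id id s) < 2`), `fF f f' s = p` (F3).  If `n s ≥ 2` then `F' p = fF id id s = s` is not in the ball.
* identity property: `F6_congr` and F2/F3 for `id`.
* `pres`: `fF`, `fFi` preserve the first component if `f, f'` do.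
-/

open Filter Topology Metric Set

namespace H80.LD

variable {X V : Type*} [NormedAddCommGroup X] [NormedAddCommGroup V] [NormedSpace ℝ V] [ProperSpace V]

omit [ProperSpace V] in
theorem F7_ext_pres (a : ℝ) (G : X × V → X × V) (hG : ∀ p, (G p).1 = p.1) (p : X × V) :
    (ext a G p).1 = p.1 := by
  unfold ext
  split_ifs
  · rfl
  · show (G (lam (2 ^ kk a p) p)).1 = p.1
    rw [hG]
    rfl

omit [ProperSpace V] in
theorem F7_fF_pres (f f' : X × V → X × V) (hf : ∀ p, (f p).1 = p.1) (hf' : ∀ p, (f' p).1 = p.1)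
    (p : X × V) : (fF f f' p).1 = p.1 := by
  refine F7_ext_pres _ _ (fun q => ?_) p
  have h1 : ∀ y, (stT f f' y).1 = y.1 := by
    intro y
    unfold stT
    split_ifs
    · rw [hf]
      show (f' y).1 = y.1
      rw [hf']
    · rfl
  unfold gF
  split_ifs
  · exact hf q
  · unfold stF
    split_ifs
    · rw [h1]
      show (f (lam 2 q)).1 = q.1
      rw [hf]
      rfl
    · show (f (lam 2 q)).1 = q.1
      rw [hf]
      rfl

omit [ProperSpace V] in
theorem F7_fFi_pres (f f' : X × V → X × V) (hf : ∀ p, (f p).1 = p.1) (hf' : ∀ p, (f' p).1 = p.1)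
    (p : X × V) : (fFi f f' p).1 = p.1 := by
  refine F7_ext_pres _ _ (fun q => ?_) p
  have h1 : ∀ y, (stTi f f' y).1 = y.1 := by
    intro y
    unfold stTi
    split_ifs
    · rw [hf]
      show (f' y).1 = y.1
      rw [hf']
    · rfl
  unfold gFi
  split_ifs
  · exact hf' q
  · show (f' (rad rRi (stTi f f' q))).1 = q.1
    rw [hf']
    show (stTi f f' q).1 = q.1
    exact h1 q

omit [NormedSpace ℝ V] [ProperSpace V] in
theorem F7_mem (c : X) (q : X × V) : q ∈ ({c} ×ˢ sh V : Set (X × V)) ↔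
    q.1 = c ∧ 1 / 3 < ‖q.2‖ ∧ ‖q.2‖ < 2 := by
  rw [mem_prod, mem_singleton_iff]
  rfl

omit [NormedSpace ℝ V] [ProperSpace V] in
theorem F7_n {ε L : ℝ} {c : X} {f f' : X × V → X × V}
    (h : NP ε L ({c} ×ˢ sh V) f f') (q : X × V) (h0 : q.1 = c) (h1 : 1 / 3 < ‖q.2‖)
    (h2 : ‖q.2‖ < 2) :
    (‖(f q).2‖ ≤ ‖q.2‖ + ε ∧ ‖q.2‖ - ε ≤ ‖(f q).2‖) ∧
      (‖(f' q).2‖ ≤ ‖q.2‖ + ε ∧ ‖q.2‖ - ε ≤ ‖(f' q).2‖) := by
  have hq := (F7_mem c q).2 ⟨h0, h1, h2⟩
  have key : ∀ x : X × V, ‖x - q‖ ≤ ε → ‖x.2‖ ≤ ‖q.2‖ + ε ∧ ‖q.2‖ - ε ≤ ‖x.2‖ := by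
    intro x hx
    have h3 : ‖x.2 - q.2‖ ≤ ε := (norm_snd_le (x - q)).trans hx
    have h4 := abs_norm_sub_norm_le x.2 q.2
    have h5 := abs_le.1 (h4.trans h3)
    exact ⟨by linarith [h5.2], by linarith [h5.1]⟩
  exact ⟨key _ (h.disp q hq), key _ (h.disp' q hq)⟩

omit [ProperSpace V] in
theorem F7_fF_big (f f' : X × V → X × V) (p : X × V) (h : 3 / 4 ≤ ‖p.2‖) : fF f f' p = f p := by
  unfold fF
  rw [F1_ext_big _ (by norm_num) _ _ (by linarith)]
  unfold gF
  rw [if_pos h]

omit [ProperSpace V] in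
theorem F7_fFi_big (f f' : X × V → X × V) (p : X × V) (h : 1 / 2 ≤ ‖p.2‖)
    (h' : 3 / 4 ≤ ‖(f' p).2‖) : fFi f f' p = f' p := by
  unfold fFi
  rw [F1_ext_big _ (by norm_num) _ _ h]
  unfold gFi
  rw [if_pos h']

omit [ProperSpace V] in
theorem F7_rad_norm (r : ℝ → ℝ) (p : X × V) (hp : 0 < ‖p.2‖) (hr : 0 ≤ r ‖p.2‖) :
    ‖(rad r p).2‖ = r ‖p.2‖ := by
  rw [F1_rad_norm r p (norm_pos_iff.1 hp), abs_of_nonneg hr]

omit [ProperSpace V] in
/-- the inverse maps small radii to radii below `2` -/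
theorem F7_small {ε L : ℝ} (hε0 : 0 ≤ ε) (hε : ε ≤ 1 / 100) (c : X) (f f' : X × V → X × V)
    (hf : ∀ p, (f p).1 = p.1) (hf' : ∀ p, (f' p).1 = p.1)
    (h : NP ε L ({c} ×ˢ sh V) f f') (p : X × V) (hc : p.1 = c) (hp : ‖p.2‖ ≤ 4 / 5) :
    ‖(fFi f f' p).2‖ < 2 := by
  by_cases h0 : p.2 = 0
  · unfold fFi ext
    rw [if_pos h0, h0, norm_zero]
    norm_num
  · obtain ⟨hk1, hk2⟩ := F1_kk (1 / 2) (by norm_num) p h0
    set k := kk (1 / 2) p with hk
    set p' := lam (2 ^ k) p with hp'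
    have hn' : ‖p'.2‖ = 2 ^ k * ‖p.2‖ := F1_lam_norm _ (by positivity) p
    have h1 : 1 / 2 ≤ ‖p'.2‖ := by rw [hn']; exact hk1
    have h2 : ‖p'.2‖ < 1 := by
      rcases hk2 with h3 | h3
      · rw [hn', h3, pow_zero, one_mul]
        linarith
      · rw [hn']
        linarith
    have hc' : p'.1 = c := hc
    have hfp : ‖(fFi f f' p).2‖ = (1 / 2) ^ k * ‖(gFi f f' p').2‖ := by
      have h3 : fFi f f' p = lam ((1 / 2) ^ k) (gFi f f' p') := by
        unfold fFi ext
        rw [if_neg h0]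
      rw [h3, F1_lam_norm _ (by positivity)]
    have hpow : ((1 : ℝ) / 2) ^ k ≤ 1 := pow_le_one₀ (by norm_num) (by norm_num)
    have hg : ‖(gFi f f' p').2‖ < 2 := by
      obtain ⟨_, h4, h5⟩ := F7_n h p' hc' (by linarith) (by linarith)
      unfold gFi
      split_ifs with h6
      · linarith
      · rw [F1_lam_norm _ (by norm_num)]
        push Not at h6
        have h7 : 9 / 20 ≤ ‖(stTi f f' p').2‖ ∧ ‖(stTi f f' p').2‖ ≤ 151 / 100 ∧
            (stTi f f' p').1 = c := by
          unfold stTi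
          split_ifs with h8
          · have h9 : ‖(rad rSi (f' p')).2‖ = rSi ‖(f' p').2‖ := by
              refine F7_rad_norm _ _ (by linarith) ?_
              unfold rSi
              exact le_max_of_le_left (norm_nonneg _)
            have h10 : 3 / 5 ≤ rSi ‖(f' p').2‖ := by
              unfold rSi
              exact le_max_of_le_left h8
            have h11 : rSi ‖(f' p').2‖ ≤ 3 / 2 := by
              unfold rSi
              exact max_le (by linarith) (by linarith)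
            have h12 : (rad rSi (f' p')).1 = c := by
              show (f' p').1 = c
              rw [hf']
              exact hc'
            obtain ⟨⟨h13, h14⟩, _⟩ := F7_n h (rad rSi (f' p')) h12 (by rw [h9]; linarith)
              (by rw [h9]; linarith)
            rw [h9] at h13 h14
            refine ⟨by linarith, by linarith, ?_⟩
            rw [hf]
            exact h12
          · exact ⟨by linarith, by linarith, hc'⟩
        obtain ⟨h8, h9, h10⟩ := h7
        set u := stTi f f' p' with hu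
        have h11 : ‖(rad rRi u).2‖ = rRi ‖u.2‖ := by
          refine F7_rad_norm _ _ (by linarith) ?_
          unfold rRi
          exact le_max_of_le_right (norm_nonneg _)
        have h12 : 9 / 20 ≤ rRi ‖u.2‖ := by
          unfold rRi
          exact le_max_of_le_right h8
        have h13 : rRi ‖u.2‖ ≤ 151 / 100 := by
          unfold rRi
          exact max_le (by linarith) h9
        obtain ⟨_, h14, h15⟩ := F7_n h (rad rRi u) h10 (by rw [h11]; linarith)
          (by rw [h11]; linarith)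
        rw [h11] at h14
        linarith
    rw [hfp]
    have h3 : (1 / 2 : ℝ) ^ k * ‖(gFi f f' p').2‖ ≤ 1 * ‖(gFi f f' p').2‖ :=
      mul_le_mul_of_nonneg_right hpow (norm_nonneg _)
    linarith

omit [NormedSpace ℝ V] [ProperSpace V] in
theorem F7_id (U : Set (X × V)) : NP 0 1 U (id : X × V → X × V) id where
  pres := fun _ => rfl
  pres' := fun _ => rfl
  disp := fun p _ => by simp
  disp' := fun p _ => by simp
  lip := fun p _ => Eventually.of_forall fun q => by simp
  lip' := fun p _ => Eventually.of_forall fun q => by simp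
  inv := fun _ _ _ => rfl
  inv' := fun _ _ _ => rfl

omit [ProperSpace V] in
theorem F7_idi (p : X × V) (hp : ‖p.2‖ < 2) : ‖(fFi (id : X × V → X × V) id p).2‖ < 2 := by
  rcases le_or_gt ‖p.2‖ (4 / 5) with h | h
  · exact F7_small le_rfl (by norm_num) p.1 id id (fun _ => rfl) (fun _ => rfl)
      (F7_id _) p rfl h
  · rw [F7_fFi_big id id p (by linarith) (by show 3 / 4 ≤ ‖p.2‖; linarith)]
    exact hp

theorem F7_fill (f f' : X × V → X × V) (hf : ∀ p, (f p).1 = p.1) (hf' : ∀ p, (f' p).1 = p.1) :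
    ∃ F F' : X × V → X × V, (∀ p, (F p).1 = p.1) ∧ (∀ p, (F' p).1 = p.1) ∧
      ∀ (c : X) (ε L : ℝ), 1 ≤ L → 0 ≤ ε → ε ≤ 1 / 100 → NP ε L ({c} ×ˢ sh V) f f' →
        NP (40 * ε) (10 ^ 5 * L ^ 3) ({c} ×ˢ ball (0 : V) 2) F F' ∧
        (∀ v : V, 4 / 5 ≤ ‖v‖ → ‖v‖ < 2 → F (c, v) = f (c, v) ∧ F' (c, v) = f' (c, v)) ∧
        ((∀ v ∈ sh V, f (c, v) = (c, v) ∧ f' (c, v) = (c, v)) →
          ∀ v : V, ‖v‖ < 2 → F (c, v) = (c, v) ∧ F' (c, v) = (c, v)) := by
  have hid1 : ∀ p : X × V, ((id : X × V → X × V) p).1 = p.1 := fun _ => rfl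
  have hF1 : ∀ p : X × V, (fF f f' (fFi id id p)).1 = p.1 := by
    intro p
    rw [F7_fF_pres f f' hf hf', F7_fFi_pres id id hid1 hid1]
  have hF1' : ∀ p : X × V, (fF id id (fFi f f' p)).1 = p.1 := by
    intro p
    rw [F7_fF_pres id id hid1 hid1, F7_fFi_pres f f' hf hf']
  refine ⟨fun p => fF f f' (fFi id id p), fun p => fF id id (fFi f f' p), hF1, hF1', ?_⟩
  intro c ε L hL hε0 hε h
  have hL3 : 1 ≤ L ^ 3 := one_le_pow₀ hL
  have hLL : L ≤ 10 ^ 5 * L ^ 3 := by
    have h1 : L ≤ L ^ 3 := le_self_pow₀ hL (by norm_num)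
    nlinarith
  have hmem : ∀ p : X × V, p ∈ ({c} ×ˢ ball (0 : V) 2 : Set (X × V)) ↔ p.1 = c ∧ ‖p.2‖ < 2 := by
    intro p
    rw [mem_prod, mem_singleton_iff, mem_ball_zero_iff]
  have hidc : NP 0 1 ({c} ×ˢ sh V) (id : X × V → X × V) id := F7_id _
  -- `fF id id (fFi id id p) = p`
  have hidr : ∀ p : X × V, p.1 = c → ‖p.2‖ < 2 → fF id id (fFi id id p) = p := fun p hc hp =>
    F3_right (by norm_num) c id id hidc p hc hp (F7_idi p hp)
  have hri : ∀ p : X × V, p.1 = c → (fFi (id : X × V → X × V) id p).1 = c := fun p hc => by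
    rw [F7_fFi_pres id id hid1 hid1]
    exact hc
  have hsi : ∀ p : X × V, p.1 = c → (fFi f f' p).1 = c := fun p hc => by
    rw [F7_fFi_pres f f' hf hf']
    exact hc
  -- big radii
  have hbig : ∀ v : V, 4 / 5 ≤ ‖v‖ → ‖v‖ < 2 →
      fF f f' (fFi id id (c, v)) = f (c, v) ∧ fF id id (fFi f f' (c, v)) = f' (c, v) := by
    intro v h1 h2
    have h3 := F7_n h (c, v) rfl (by show 1 / 3 < ‖v‖; linarith) h2
    have h4 : 3 / 4 ≤ ‖(f' (c, v)).2‖ := by
      have := h3.2.2
      have h5 : ‖((c, v) : X × V).2‖ = ‖v‖ := rfl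
      rw [h5] at this
      linarith
    refine ⟨?_, ?_⟩
    · rw [F7_fFi_big id id (c, v) (by show 1 / 2 ≤ ‖v‖; linarith)
        (by show 3 / 4 ≤ ‖v‖; linarith)]
      exact F7_fF_big f f' (c, v) (by show 3 / 4 ≤ ‖v‖; linarith)
    · rw [F7_fFi_big f f' (c, v) (by show 1 / 2 ≤ ‖v‖; linarith) h4]
      exact F7_fF_big id id _ h4
  have hbig' : ∀ p : X × V, p.1 = c → 4 / 5 ≤ ‖p.2‖ → ‖p.2‖ < 2 →
      fF id id (fFi f f' p) = f' p := by
    rintro ⟨c', v⟩ hc h1 h2
    replace hc : c' = c := hc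
    subst hc
    exact (hbig v h1 h2).2
  have hlarge : ∀ p : X × V, p.1 = c → ¬ ‖(fFi f f' p).2‖ < 2 → 4 / 5 < ‖p.2‖ := by
    intro p hc h1
    by_contra h2
    push Not at h2
    exact h1 (F7_small hε0 hε c f f' hf hf' h p hc h2)
  refine ⟨?_, hbig, ?_⟩
  · refine ⟨hF1, hF1', ?_, ?_, ?_, ?_, ?_, ?_⟩
    · -- disp
      intro p hp
      obtain ⟨hc, hp2⟩ := (hmem p).1 hp
      have h1 := F6_close hε0 hε c f f' h (fFi id id p) (hri p hc) (F7_idi p hp2)
      rw [hidr p hc hp2] at h1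
      exact h1
    · -- disp'
      intro p hp
      obtain ⟨hc, hp2⟩ := (hmem p).1 hp
      by_cases h1 : ‖(fFi f f' p).2‖ < 2
      · have h2 := F6_close hε0 hε c f f' h (fFi f f' p) (hsi p hc) h1
        rw [F3_right hε c f f' h p hc hp2 h1, norm_sub_rev] at h2
        exact h2
      · have h2 := hlarge p hc h1
        show ‖fF id id (fFi f f' p) - p‖ ≤ 40 * ε
        rw [hbig' p hc h2.le hp2]
        have h3 := h.disp' p ((F7_mem c p).2 ⟨hc, by linarith, hp2⟩)
        linarith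
    · -- lip
      intro p hp
      obtain ⟨hc, hp2⟩ := (hmem p).1 hp
      have h1 := F4b_lip' (L := 1) le_rfl (by norm_num : (0 : ℝ) ≤ 1 / 100) c id id hidc p hc hp2
      have h2 := F4b_lip hL hε c f f' h (fFi id id p) (hri p hc) (F7_idi p hp2)
      have h3 := B0b_plip_comp (by positivity : (0 : ℝ) ≤ 200 * L ^ 3) h1 h2
      filter_upwards [h3] with q hq
      refine hq.trans (mul_le_mul_of_nonneg_right ?_ (norm_nonneg _))
      nlinarith
    · -- lip'
      intro p hp
      obtain ⟨hc, hp2⟩ := (hmem p).1 hp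
      by_cases h1 : ‖(fFi f f' p).2‖ < 2
      · have h2 := F4b_lip' hL hε c f f' h p hc hp2
        have h3 := F4b_lip (L := 1) le_rfl (by norm_num : (0 : ℝ) ≤ 1 / 100) c id id hidc
          (fFi f f' p) (hsi p hc) h1
        have h4 := B0b_plip_comp (by norm_num : (0 : ℝ) ≤ 200 * 1 ^ 3) h2 h3
        filter_upwards [h4] with q hq
        refine hq.trans (mul_le_mul_of_nonneg_right ?_ (norm_nonneg _))
        nlinarith
      · have h2 := hlarge p hc h1
        have hps : p ∈ ({c} ×ˢ sh V : Set (X × V)) := (F7_mem c p).2 ⟨hc, by linarith, hp2⟩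
        have h3 := h.lip' p hps
        have h4 : ContinuousAt f' p := B0b_cont h3
        have h5 : 3 / 4 < ‖(f' p).2‖ := by
          have := (F7_n h p hc (by linarith) hp2).2.2
          linarith
        have h6 : ∀ᶠ q in 𝓝 p, 3 / 4 < ‖(f' q).2‖ :=
          (((continuous_snd.norm).continuousAt).comp h4).eventually
            (lt_mem_nhds (a := 3 / 4) h5)
        have h7 : ∀ᶠ q : X × V in 𝓝 p, 4 / 5 < ‖q.2‖ :=
          (continuous_snd.norm).continuousAt.eventually (lt_mem_nhds (a := 4 / 5) h2)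
        have h8 : fF id id (fFi f f' p) = f' p := hbig' p hc h2.le hp2
        filter_upwards [h3, h6, h7] with q hq1 hq2 hq3
        have h9 : fF id id (fFi f f' q) = f' q := by
          rw [F7_fFi_big f f' q (by linarith) hq2.le]
          exact F7_fF_big id id _ hq2.le
        show ‖fF id id (fFi f f' q) - fF id id (fFi f f' p)‖ ≤ 10 ^ 5 * L ^ 3 * ‖q - p‖
        rw [h8, h9]
        exact hq1.trans (mul_le_mul_of_nonneg_right hLL (norm_nonneg _))
    · -- inv
      intro p hp hp'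
      obtain ⟨hc, hp2⟩ := (hmem p).1 hp
      obtain ⟨_, hp3⟩ := (hmem _).1 hp'
      show fF id id (fFi f f' (fF f f' (fFi id id p))) = p
      rw [F2_left hε c f f' h (fFi id id p) (hri p hc) (F7_idi p hp2) hp3]
      exact hidr p hc hp2
    · -- inv'
      intro p hp hp'
      obtain ⟨hc, hp2⟩ := (hmem p).1 hp
      obtain ⟨_, hp3⟩ := (hmem _).1 hp'
      replace hp3 : ‖(fF id id (fFi f f' p)).2‖ < 2 := hp3
      show fF f f' (fFi id id (fF id id (fFi f f' p))) = p
      by_cases h1 : ‖(fFi f f' p).2‖ < 2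
      · rw [F2_left (by norm_num) c id id hidc (fFi f f' p) (hsi p hc) h1 hp3]
        exact F3_right hε c f f' h p hc hp2 h1
      · exfalso
        rw [F7_fF_big id id (fFi f f' p) (by linarith)] at hp3
        exact h1 hp3
  · intro hfid v hv
    refine ⟨?_, ?_⟩
    · show fF f f' (fFi id id (c, v)) = (c, v)
      rw [(F6_congr c f f' hfid (fFi id id (c, v)) (hri (c, v) rfl) (F7_idi (c, v) hv)).1]
      exact hidr (c, v) rfl hv
    · show fF id id (fFi f f' (c, v)) = (c, v)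
      rw [(F6_congr c f f' hfid (c, v) rfl hv).2]
      exact hidr (c, v) rfl hv

end H80.LD
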