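import Pool.Agent.H80.LD.F7

/-!
# F8: the filling theorem for the thin shell `21/20 < ‖v‖ < 6/5`

Radial reparametrisation `Φ = rad θ`, `Φ' = rad θ'`, `θ g = max (20 g / 63) (1/3 + (100/9) (g - 21/20))`, `θ' s = min (63 s / 20) (21/20 + (9/100) (s - 1/3))` (increasing piecewise linear, mutually inverse,
`θ (21/20) = 1/3`, `θ (6/5) = 2`, `θ 0 = 0`).  `Φ` is `34`-Lipschitz, `Φ'` is `10`-Lipschitz (`F1_rad_lip`; for `p.2 = 0` exchange the points).  `B0b_conj` with `Φ`: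
`NP (34 ε) (340 L)` on `{c} ×ˢ sh V`; apply F7 (`34 ε ≤ 1/100`), and conjugate back with `Φ'` (`B0b_mono` to fix the sets).
`θ g ≥ 4/5` for `g ≥ 219/200`: then `F (c,v) = Φ' (Φ (f (Φ' (Φ (c,v))))) = f (c,v)`.  If `f, f'` are the identity on the thin shell then the conjugates are the identity on `sh V`.
`ε₀ = 1/3400`, `C = 10 ^ 16 * L ^ 3` works.
-/

open Filter Topology Metric Set

namespace H80.LD

variable {X V : Type*} [NormedAddCommGroup X] [NormedAddCommGroup V] [NormedSpace ℝ V] [ProperSpace V]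

/-- the radial function of the header -/
noncomputable def F8_th (g : ℝ) : ℝ := max (20 * g / 63) (1 / 3 + (100 / 9) * (g - 21 / 20))

/-- its inverse -/
noncomputable def F8_th' (s : ℝ) : ℝ := min (63 * s / 20) (21 / 20 + (9 / 100) * (s - 1 / 3))

theorem F8_inv (g : ℝ) : F8_th' (F8_th g) = g := by
  unfold F8_th F8_th'
  rcases le_total (20 * g / 63) (1 / 3 + (100 / 9) * (g - 21 / 20)) with h | h
  · rw [max_eq_right h, min_eq_right (by linarith)]; ring
  · rw [max_eq_left h, min_eq_left (by linarith)]; ring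

theorem F8_inv' (g : ℝ) : F8_th (F8_th' g) = g := by
  unfold F8_th F8_th'
  rcases le_total (63 * g / 20) (21 / 20 + (9 / 100) * (g - 1 / 3)) with h | h
  · rw [min_eq_left h, max_eq_left (by linarith)]; ring
  · rw [min_eq_right h, max_eq_right (by linarith)]; ring

theorem F8_lip (a b : ℝ) : |F8_th a - F8_th b| ≤ (100 / 9) * |a - b| := by
  unfold F8_th
  refine (abs_max_sub_max_le_max _ _ _ _).trans (max_le ?_ ?_)
  · have : 20 * a / 63 - 20 * b / 63 = (20 / 63) * (a - b) := by ring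
    rw [this, abs_mul, abs_of_pos (by norm_num : (0 : ℝ) < 20 / 63)]
    have := abs_nonneg (a - b)
    nlinarith
  · have : 1 / 3 + 100 / 9 * (a - 21 / 20) - (1 / 3 + 100 / 9 * (b - 21 / 20)) = (100 / 9) * (a - b) := by ring
    rw [this, abs_mul, abs_of_pos (by norm_num : (0 : ℝ) < 100 / 9)]

theorem F8_lip' (a b : ℝ) : |F8_th' a - F8_th' b| ≤ (63 / 20) * |a - b| := by
  unfold F8_th'
  refine (abs_min_sub_min_le_max _ _ _ _).trans (max_le ?_ ?_)
  · have : 63 * a / 20 - 63 * b / 20 = (63 / 20) * (a - b) := by ring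
    rw [this, abs_mul, abs_of_pos (by norm_num : (0 : ℝ) < 63 / 20)]
  · have : 21 / 20 + 9 / 100 * (a - 1 / 3) - (21 / 20 + 9 / 100 * (b - 1 / 3)) = (9 / 100) * (a - b) := by ring
    rw [this, abs_mul, abs_of_pos (by norm_num : (0 : ℝ) < 9 / 100)]
    have := abs_nonneg (a - b)
    nlinarith

theorem F8_zero : F8_th 0 = 0 := by
  unfold F8_th; rw [max_eq_left (by norm_num)]; norm_num

theorem F8_zero' : F8_th' 0 = 0 := by
  unfold F8_th'; rw [min_eq_left (by norm_num)]; norm_num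

theorem F8_nonneg (a : ℝ) (ha : 0 ≤ a) : 0 ≤ F8_th a :=
  le_max_of_le_left (by positivity)

theorem F8_nonneg' (a : ℝ) (ha : 0 ≤ a) : 0 ≤ F8_th' a :=
  le_min (by positivity) (by nlinarith)

theorem F8_pos (a : ℝ) (ha : 0 < a) : 0 < F8_th a :=
  lt_max_of_lt_left (by positivity)

theorem F8_pos' (a : ℝ) (ha : 0 < a) : 0 < F8_th' a :=
  lt_min (by positivity) (by nlinarith)

theorem F8_radlip (r : ℝ → ℝ) (ℓ : ℝ) (hℓ : 1 ≤ ℓ) (h1 : ∀ a b, |r a - r b| ≤ ℓ * |a - b|)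
    (h0 : r 0 = 0) (hn : ∀ a, 0 ≤ a → 0 ≤ r a) (p q : X × V) :
    ‖rad r q - rad r p‖ ≤ 3 * ℓ * ‖q - p‖ := by
  have hle : ∀ a, 0 ≤ a → r a ≤ ℓ * a := by
    intro a ha
    have := h1 a 0
    rw [h0, sub_zero, sub_zero, abs_of_nonneg ha] at this
    exact (le_abs_self _).trans this
  by_cases hp : p.2 = 0
  · by_cases hq : q.2 = 0
    · have e1 : rad r p = p := by
        apply Prod.ext
        · rfl
        · simp [rad, hp]
      have e2 : rad r q = q := by
        apply Prod.ext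
        · rfl
        · simp [rad, hq]
      rw [e1, e2]
      have := norm_nonneg (q - p)
      nlinarith
    · rw [norm_sub_rev, norm_sub_rev q p]
      exact F1_rad_lip r ℓ hℓ q p hq (h1 _ _) (hn _ (norm_nonneg _)) (hle _ (norm_nonneg _))
  · exact F1_rad_lip r ℓ hℓ p q hp (h1 _ _) (hn _ (norm_nonneg _)) (hle _ (norm_nonneg _))

theorem F8_radinv (r s : ℝ → ℝ) (hp : ∀ a, 0 < a → 0 < r a) (h : ∀ a, s (r a) = a) (p : X × V) :
    rad s (rad r p) = p := by
  by_cases hz : p.2 = 0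
  · have e1 : rad r p = p := by
      apply Prod.ext
      · rfl
      · simp [rad, hz]
    rw [e1]
    apply Prod.ext
    · rfl
    · simp [rad, hz]
  · rw [F1_rad_rad r s p hz (hp _ (norm_pos_iff.2 hz))]
    exact F1_rad_id _ p (h _)

theorem F8_radnorm (r : ℝ → ℝ) (h0 : r 0 = 0) (hn : ∀ a, 0 ≤ a → 0 ≤ r a) (p : X × V) :
    ‖(rad r p).2‖ = r ‖p.2‖ := by
  by_cases hz : p.2 = 0
  · simp [rad, hz, h0]
  · rw [F1_rad_norm r p hz, abs_of_nonneg (hn _ (norm_nonneg _))]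

theorem F8_fill (f f' : X × V → X × V) (hf : ∀ p, (f p).1 = p.1) (hf' : ∀ p, (f' p).1 = p.1) :
    ∃ F F' : X × V → X × V, (∀ p, (F p).1 = p.1) ∧ (∀ p, (F' p).1 = p.1) ∧
      ∀ (c : X) (ε L : ℝ), 1 ≤ L → 0 ≤ ε → ε ≤ 1 / 3400 →
        NP ε L ({c} ×ˢ {v : V | 21 / 20 < ‖v‖ ∧ ‖v‖ < 6 / 5}) f f' →
        NP (10 ^ 5 * ε) (10 ^ 16 * L ^ 3) ({c} ×ˢ ball (0 : V) (6 / 5)) F F' ∧
        (∀ v : V, 219 / 200 ≤ ‖v‖ → ‖v‖ < 6 / 5 → F (c, v) = f (c, v) ∧ F' (c, v) = f' (c, v)) ∧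
        ((∀ v : V, 21 / 20 < ‖v‖ → ‖v‖ < 6 / 5 → f (c, v) = (c, v) ∧ f' (c, v) = (c, v)) →
          ∀ v : V, ‖v‖ < 6 / 5 → F (c, v) = (c, v) ∧ F' (c, v) = (c, v)) := by
  set P : X × V → X × V := rad F8_th with hP
  set Q : X × V → X × V := rad F8_th' with hQ
  have hQP : ∀ p, Q (P p) = p := F8_radinv _ _ F8_pos F8_inv
  have hPQ : ∀ p, P (Q p) = p := F8_radinv _ _ F8_pos' F8_inv'
  have hPn : ∀ p, ‖(P p).2‖ = F8_th ‖p.2‖ := F8_radnorm _ F8_zero F8_nonneg
  have hQn : ∀ p, ‖(Q p).2‖ = F8_th' ‖p.2‖ := F8_radnorm _ F8_zero' F8_nonneg'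
  have hPl : ∀ p q, ‖P p - P q‖ ≤ 34 * ‖p - q‖ := fun p q => by
    have := F8_radlip F8_th (100 / 9) (by norm_num) F8_lip F8_zero F8_nonneg q p
    have h2 := norm_nonneg (p - q)
    exact this.trans (by nlinarith)
  have hQl : ∀ p q, ‖Q p - Q q‖ ≤ 10 * ‖p - q‖ := fun p q => by
    have := F8_radlip F8_th' (63 / 20) (by norm_num) F8_lip' F8_zero' F8_nonneg' q p
    have h2 := norm_nonneg (p - q)
    exact this.trans (by nlinarith)
  have hP1 : ∀ p, (P p).1 = p.1 := fun p => rfl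
  have hQ1 : ∀ p, (Q p).1 = p.1 := fun p => rfl
  obtain ⟨G, G', hG1, hG1', hG⟩ := F7_fill (fun p => P (f (Q p))) (fun p => P (f' (Q p)))
    (fun p => by simp only [hP1, hf, hQ1]) (fun p => by simp only [hP1, hf', hQ1])
  refine ⟨fun p => Q (G (P p)), fun p => Q (G' (P p)), fun p => by simp only [hQ1, hG1, hP1],
    fun p => by simp only [hQ1, hG1', hP1], ?_⟩
  intro c ε L hL hε hε2 hN
  have hthin : ∀ v : V, v ∈ sh V → 21 / 20 < ‖(Q (c, v)).2‖ ∧ ‖(Q (c, v)).2‖ < 6 / 5 := by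
    intro v hv
    obtain ⟨h1, h2⟩ := hv
    rw [hQn]
    simp only [F8_th']
    constructor
    · exact lt_min (by linarith) (by linarith)
    · exact min_lt_of_right_lt (by linarith)
  have hc := B0b_conj hN (a := 34) (b := 10) (by norm_num) (by norm_num) (by linarith) P Q hQP hPQ hPl hQl
    (fun p q h => h)
  have hc2 : NP (34 * ε) (34 * 10 * L) ({c} ×ˢ sh V) (fun p => P (f (Q p))) (fun p => P (f' (Q p))) := by
    refine B0b_mono hc le_rfl le_rfl ?_
    rintro ⟨x, v⟩ ⟨hx, hv⟩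
    simp only [mem_singleton_iff] at hx
    subst hx
    exact ⟨rfl, hthin v hv⟩
  obtain ⟨g1, g2, g3⟩ := hG c (34 * ε) (34 * 10 * L) (by linarith) (by linarith) (by linarith) hc2
  have hball : ∀ v : V, ‖v‖ < 6 / 5 → ‖(P (c, v)).2‖ < 2 := by
    intro v hv
    rw [hPn]
    simp only [F8_th]
    exact max_lt (by linarith) (by linarith)
  refine ⟨?_, ?_, ?_⟩
  · have := B0b_conj g1 (a := 10) (b := 34) (by norm_num) (by norm_num) (by positivity) Q P hPQ hQP hQl hPl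
      (fun p q h => h)
    refine B0b_mono this (by linarith) ?_ ?_
    · have h3 : (0 : ℝ) ≤ L ^ 3 := by positivity
      nlinarith
    · rintro ⟨x, v⟩ ⟨hx, hv⟩
      simp only [mem_singleton_iff] at hx
      subst hx
      refine ⟨rfl, ?_⟩
      simp only [mem_ball_zero_iff] at hv ⊢
      exact hball v hv
  · intro v h1 h2
    have hw : P (c, v) = (c, (P (c, v)).2) := rfl
    have h45 : 4 / 5 ≤ ‖(P (c, v)).2‖ := by
      rw [hPn]
      simp only [F8_th]
      exact le_max_of_le_right (by linarith)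
    obtain ⟨e1, e2⟩ := g2 (P (c, v)).2 h45 (hball v h2)
    rw [← hw] at e1 e2
    constructor
    · show Q (G (P (c, v))) = _
      rw [e1]; simp only [hQP]
    · show Q (G' (P (c, v))) = _
      rw [e2]; simp only [hQP]
  · intro hid v hv
    have key := g3 (by
      intro v hv
      obtain ⟨a1, a2⟩ := hthin v hv
      have hw : Q (c, v) = (c, (Q (c, v)).2) := rfl
      obtain ⟨b1, b2⟩ := hid (Q (c, v)).2 a1 a2
      rw [← hw] at b1 b2
      constructor
      · simp only [b1, hPQ]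
      · simp only [b2, hPQ])
    have hw : P (c, v) = (c, (P (c, v)).2) := rfl
    obtain ⟨e1, e2⟩ := key (P (c, v)).2 (hball v hv)
    rw [← hw] at e1 e2
    constructor
    · show Q (G (P (c, v))) = _
      rw [e1, hQP]
    · show Q (G' (P (c, v))) = _
      rw [e2, hQP]

end H80.LD
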