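import Pool.Agent.H80.LD.GDefs

/-!
# GCov (project MP_816883_LD, blocks 8-9): coloured covering at the scale `s`

`N = 192`, colours: `ZMod 8 × (Fin n → ZMod N × ZMod N)` (finite; `M` = its cardinality, `Fintype.equivFin`; take `Z i = ∅` for `i ≥ M`).
For a colour `c` let `Z_c` be the set of `z` with `z ≠ 0`, `‖z‖ < r/2` such that there are `k : ℤ` and `v : Fin n → ℤ × ℤ` with
`z i = 2^(k-3) * ((v i).1 + (v i).2 * I)` for all `i`, `2^(k-1) ≤ s z ≤ 2^(k+2)` and colour of `(k, v)` `= ((k : ZMod 8), fun i => ((v i).1, (v i).2)) = c`.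

* covering: `x ≠ 0`, `‖x‖ < r/4`: `0 < s x`, `exists_mem_Ico_zpow` gives `k` with `2^k ≤ s x < 2^(k+1)`. `v i = (round (re (x i) / 2^(k-3)), round (im (x i) / 2^(k-3)))`,
  `z i = 2^(k-3) ((v i).1 + (v i).2 I)`; `|x i - z i| ≤ |re| + |im| ≤ 2^(k-3)` (`abs_sub_round`), so `‖x - z‖ ≤ 2^(k-3) ≤ s x / 8 ≤ ε ‖x‖ / 8 < ‖x‖`: `z ≠ 0`,
  `‖z‖ < 2 ‖x‖ < r/2`. `|s z - s x| ≤ ε s x / 8 ≤ s x / 4`: `2^(k-1) ≤ 3/4 * 2^k ≤ s z ≤ 5/4 * 2^(k+1) ≤ 2^(k+2)`, and `‖x - z‖ ≤ s x / 8 < s z`.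
* separation: `z ≠ z'` in `Z_c` with `(k, v)`, `(k', v')`.
  `k = k'`: there is `i` with `v i ≠ v' i`, say first components `a ≠ a'`; `N ∣ a - a'` (`ZMod.intCast_eq_intCast_iff_dvd_sub` or `ZMod.intCast_zmod_eq_zero_iff_dvd`), so
  `|a - a'| ≥ N` and `‖z - z'‖ ≥ |re (z i - z' i)| = 2^(k-3) |a - a'| ≥ 192 * 2^(k-3) = 6 * 2^(k+2) ≥ 6 max (s z) (s z')` (the same with `im`; `norm_le_pi_norm`, `Complex.abs_re_le_norm`).
  `k ≠ k'`: by symmetry `k < k'`, `8 ∣ k' - k`, so `k' ≥ k + 8`; `s z ≤ 2^(k+2) ≤ 2^(k'-6)`, `s z' ≥ 2^(k'-1)`: `s z' - s z ≥ 2^(k'-2) ≥ s z' / 16`, and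
  `s z' - s z ≤ ε ‖z - z'‖` gives `‖z - z'‖ ≥ s z' / (16 ε) ≥ 6 s z'`, `max (s z) (s z') = s z'`.
-/

open Filter Topology Metric Set

namespace H80.LD

/-- colours -/
abbrev gcov_Col (n : ℕ) : Type := ZMod 8 × (Fin n → ZMod 192 × ZMod 192)

/-- lattice points -/
noncomputable def gcov_pt {n : ℕ} (k : ℤ) (v : Fin n → ℤ × ℤ) : Fin n → ℂ := fun i =>
  (((2 : ℝ) ^ k / 8 : ℝ) : ℂ) * ((((v i).1 : ℝ) : ℂ) + (((v i).2 : ℝ) : ℂ) * Complex.I)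

/-- colour of a lattice point -/
def gcov_col {n : ℕ} (k : ℤ) (v : Fin n → ℤ × ℤ) : gcov_Col n :=
  ((k : ZMod 8), fun i => (((v i).1 : ZMod 192), ((v i).2 : ZMod 192)))

/-- centres of one colour -/
def gcov_Z {n : ℕ} (s : (Fin n → ℂ) → ℝ) (r : ℝ) (c : gcov_Col n) : Set (Fin n → ℂ) :=
  {z | z ≠ 0 ∧ ‖z‖ < r / 2 ∧ ∃ (k : ℤ) (v : Fin n → ℤ × ℤ), z = gcov_pt k v ∧
    (2 : ℝ) ^ k / 2 ≤ s z ∧ s z ≤ 4 * (2 : ℝ) ^ k ∧ gcov_col k v = c}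

theorem gcov_re {n : ℕ} (k : ℤ) (v : Fin n → ℤ × ℤ) (i : Fin n) :
    (gcov_pt k v i).re = (2 : ℝ) ^ k / 8 * (v i).1 ∧ (gcov_pt k v i).im = (2 : ℝ) ^ k / 8 * (v i).2 := by
  unfold gcov_pt
  constructor
  · rw [Complex.re_ofReal_mul]; simp
  · rw [Complex.im_ofReal_mul]; simp

theorem gcov_int (m : ℕ) (hm : 0 < m) (a b : ℤ) (h : (a : ZMod m) = (b : ZMod m)) (hab : a ≠ b) :
    (m : ℝ) ≤ |(a : ℝ) - b| := by
  rw [ZMod.intCast_eq_intCast_iff_dvd_sub] at h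
  obtain ⟨t, ht⟩ := h
  have ht0 : t ≠ 0 := by
    rintro rfl
    rw [mul_zero] at ht
    exact hab (sub_eq_zero.1 ht).symm
  have h1 : (1 : ℤ) ≤ |t| := Int.one_le_abs ht0
  have h2 : (a : ℝ) - b = -((m : ℝ) * t) := by
    have : ((b - a : ℤ) : ℝ) = ((m * t : ℤ) : ℝ) := by rw [ht]
    push_cast at this
    linarith
  rw [h2, abs_neg, abs_mul, Nat.abs_cast]
  have h3 : (1 : ℝ) ≤ |(t : ℝ)| := by exact_mod_cast h1
  exact le_mul_of_one_le_right (Nat.cast_nonneg m) h3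

theorem gcov_lt {s1 s2 d ε : ℝ} {k k' : ℤ} (hkk : k + 8 ≤ k') (h1 : s1 ≤ 4 * (2 : ℝ) ^ k)
    (h2 : (2 : ℝ) ^ k' / 2 ≤ s2) (h2' : s2 ≤ 4 * (2 : ℝ) ^ k') (hε0 : 0 < ε) (hε : ε ≤ 1 / 1000)
    (hd0 : 0 ≤ d) (hd : |s1 - s2| ≤ ε * d) : 6 * max s1 s2 ≤ d := by
  have hk : (2 : ℝ) ^ k ≤ (2 : ℝ) ^ k' / 256 := by
    have h3 : (2 : ℝ) ^ (k + 8) ≤ (2 : ℝ) ^ k' := zpow_le_zpow_right₀ (by norm_num) hkk
    rw [zpow_add₀ (by norm_num)] at h3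
    have h4 : (2 : ℝ) ^ (8 : ℤ) = 256 := by norm_num
    rw [h4] at h3
    linarith
  have hpos : (0 : ℝ) < (2 : ℝ) ^ k' := by positivity
  have h5 : s1 ≤ s2 := by linarith
  rw [max_eq_right h5]
  rw [abs_sub_comm, abs_of_nonneg (by linarith)] at hd
  nlinarith

theorem gcov_sep {n : ℕ} {s : (Fin n → ℂ) → ℝ} {r ε : ℝ} (hr : 0 < r) (hε0 : 0 < ε) (hε : ε ≤ 1 / 1000)
    (hs : ∀ x ∈ ball (0 : Fin n → ℂ) r, ∀ y ∈ ball (0 : Fin n → ℂ) r, |s x - s y| ≤ ε * ‖x - y‖)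
    (c : gcov_Col n) (z z' : Fin n → ℂ) (hz : z ∈ gcov_Z s r c) (hz' : z' ∈ gcov_Z s r c)
    (hne : z ≠ z') : 6 * max (s z) (s z') ≤ ‖z - z'‖ := by
  obtain ⟨hz0, hzr, k, v, hzv, h1, h2, hc⟩ := hz
  obtain ⟨hz0', hzr', k', v', hzv', h1', h2', hc'⟩ := hz'
  have hb : z ∈ ball (0 : Fin n → ℂ) r := by rw [mem_ball_zero_iff]; linarith
  have hb' : z' ∈ ball (0 : Fin n → ℂ) r := by rw [mem_ball_zero_iff]; linarith
  have hss := hs z hb z' hb'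
  have hcc : gcov_col k v = gcov_col k' v' := hc.trans hc'.symm
  have hk8 : (k : ZMod 8) = (k' : ZMod 8) := congrArg Prod.fst hcc
  rcases lt_trichotomy k k' with hlt | heq | hgt
  · have h8 := gcov_int 8 (by norm_num) k k' hk8 hlt.ne
    have h9 : k + 8 ≤ k' := by
      have : ((8 : ℕ) : ℝ) ≤ |((k - k' : ℤ) : ℝ)| := by push_cast; exact h8
      rw [← Int.cast_abs] at this
      have h10 : (8 : ℤ) ≤ |k - k'| := by exact_mod_cast this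
      rw [abs_of_neg (by omega)] at h10
      omega
    exact gcov_lt h9 h2 h1' h2' hε0 hε (norm_nonneg _) hss
  · subst heq
    have hvv : v ≠ v' := by
      rintro rfl
      exact hne (hzv.trans hzv'.symm)
    obtain ⟨i, hi⟩ := Function.ne_iff.1 hvv
    have hci := congrFun (congrArg Prod.snd hcc) i
    have hpos : (0 : ℝ) < (2 : ℝ) ^ k := by positivity
    have hmax : 6 * max (s z) (s z') ≤ 24 * (2 : ℝ) ^ k := by
      have := max_le h2 h2'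
      linarith
    refine hmax.trans ?_
    refine le_trans ?_ (norm_le_pi_norm (z - z') i)
    rw [Pi.sub_apply]
    by_cases hi1 : (v i).1 = (v' i).1
    · have hi2 : (v i).2 ≠ (v' i).2 := fun h => hi (Prod.ext hi1 h)
      have h3 := gcov_int 192 (by norm_num) _ _ (congrArg Prod.snd hci) hi2
      refine le_trans ?_ (Complex.abs_im_le_norm _)
      rw [Complex.sub_im, hzv, hzv', (gcov_re k v i).2, (gcov_re k v' i).2, ← mul_sub, abs_mul,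
        abs_of_pos (by positivity)]
      push_cast at h3
      nlinarith
    · have h3 := gcov_int 192 (by norm_num) _ _ (congrArg Prod.fst hci) hi1
      refine le_trans ?_ (Complex.abs_re_le_norm _)
      rw [Complex.sub_re, hzv, hzv', (gcov_re k v i).1, (gcov_re k v' i).1, ← mul_sub, abs_mul,
        abs_of_pos (by positivity)]
      push_cast at h3
      nlinarith
  · have h8 := gcov_int 8 (by norm_num) k k' hk8 hgt.ne'
    have h9 : k' + 8 ≤ k := by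
      have : ((8 : ℕ) : ℝ) ≤ |((k - k' : ℤ) : ℝ)| := by push_cast; exact h8
      rw [← Int.cast_abs] at this
      have h10 : (8 : ℤ) ≤ |k - k'| := by exact_mod_cast this
      rw [abs_of_pos (by omega)] at h10
      omega
    rw [max_comm, norm_sub_rev]
    rw [abs_sub_comm, norm_sub_rev] at hss
    exact gcov_lt h9 h2' h1 h2 hε0 hε (norm_nonneg _) hss

theorem gcov_round (δ t : ℝ) (hδ : 0 < δ) : |t - δ * round (t / δ)| ≤ δ / 2 := by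
  have h1 := abs_sub_round (t / δ)
  have h2 : t - δ * round (t / δ) = δ * (t / δ - round (t / δ)) := by field_simp
  rw [h2, abs_mul, abs_of_pos hδ]
  nlinarith

theorem gcov_cov {n : ℕ} {s : (Fin n → ℂ) → ℝ} {r ε : ℝ} (hr : 0 < r) (hε0 : 0 < ε) (hε : ε ≤ 1 / 1000)
    (hpos : ∀ x ∈ ball (0 : Fin n → ℂ) r, x ≠ 0 → 0 < s x)
    (hs : ∀ x ∈ ball (0 : Fin n → ℂ) r, ∀ y ∈ ball (0 : Fin n → ℂ) r, |s x - s y| ≤ ε * ‖x - y‖)
    (hsm : ∀ x ∈ ball (0 : Fin n → ℂ) r, s x ≤ ε * ‖x‖) (x : Fin n → ℂ) (hx0 : x ≠ 0)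
    (hx : ‖x‖ < r / 4) : ∃ c : gcov_Col n, ∃ z ∈ gcov_Z s r c, x ∈ ball z (1 * s z) := by
  have hxb : x ∈ ball (0 : Fin n → ℂ) r := by rw [mem_ball_zero_iff]; linarith
  have hsx := hpos x hxb hx0
  have hxn : 0 < ‖x‖ := norm_pos_iff.2 hx0
  obtain ⟨k, hk1, hk2⟩ := exists_mem_Ico_zpow hsx (by norm_num : (1 : ℝ) < 2)
  rw [zpow_add₀ (by norm_num), zpow_one] at hk2
  have hδ : (0 : ℝ) < (2 : ℝ) ^ k / 8 := by positivity
  set v : Fin n → ℤ × ℤ := fun i =>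
    (round ((x i).re / ((2 : ℝ) ^ k / 8)), round ((x i).im / ((2 : ℝ) ^ k / 8))) with hv
  have hd : ‖x - gcov_pt k v‖ ≤ (2 : ℝ) ^ k / 8 := by
    refine (pi_norm_le_iff_of_nonneg hδ.le).2 fun i => ?_
    refine (Complex.norm_le_abs_re_add_abs_im _).trans ?_
    rw [Pi.sub_apply, Complex.sub_re, Complex.sub_im, (gcov_re k v i).1, (gcov_re k v i).2]
    have h1 := gcov_round _ (x i).re hδ
    have h2 := gcov_round _ (x i).im hδ
    simp only [hv]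
    linarith
  have hxs := hsm x hxb
  have hxs' : s x ≤ ‖x‖ / 1000 := by nlinarith
  have hz1 : ‖gcov_pt k v‖ ≤ ‖x‖ + ‖x - gcov_pt k v‖ := by
    have := norm_sub_le x (x - gcov_pt k v)
    rwa [sub_sub_cancel] at this
  have hz2 : ‖x‖ ≤ ‖gcov_pt k v‖ + ‖x - gcov_pt k v‖ := by
    have := norm_add_le (gcov_pt k v) (x - gcov_pt k v)
    rwa [add_sub_cancel] at this
  have hzr : ‖gcov_pt k v‖ < r / 2 := by linarith
  have hzb : gcov_pt k v ∈ ball (0 : Fin n → ℂ) r := by rw [mem_ball_zero_iff]; linarith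
  have hz0 : gcov_pt k v ≠ 0 := by
    intro h
    rw [h, norm_zero, sub_zero] at hz2
    rw [h, sub_zero] at hd
    linarith
  have hsz := abs_le.1 (hs x hxb (gcov_pt k v) hzb)
  have hεd : ε * ‖x - gcov_pt k v‖ ≤ s x / 8 := by
    have h1 : 0 ≤ ‖x - gcov_pt k v‖ := norm_nonneg _
    nlinarith
  refine ⟨gcov_col k v, gcov_pt k v, ⟨hz0, hzr, k, v, rfl, ?_, ?_, rfl⟩, ?_⟩
  · linarith [hsz.2]
  · linarith [hsz.1]
  · rw [mem_ball, dist_eq_norm, one_mul]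
    linarith [hsz.2]

theorem cover (n : ℕ) : ∃ M : ℕ, 0 < M ∧ ∀ (s : (Fin n → ℂ) → ℝ) (r ε : ℝ), 0 < r → 0 < ε →
    ε ≤ 1 / 1000 → (∀ x ∈ ball (0 : Fin n → ℂ) r, x ≠ 0 → 0 < s x) →
    (∀ x ∈ ball (0 : Fin n → ℂ) r, ∀ y ∈ ball (0 : Fin n → ℂ) r, |s x - s y| ≤ ε * ‖x - y‖) →
    (∀ x ∈ ball (0 : Fin n → ℂ) r, s x ≤ ε * ‖x‖) →
    ∃ Z : ℕ → Set (Fin n → ℂ), (∀ i, ∀ z ∈ Z i, z ≠ 0 ∧ ‖z‖ < r / 2) ∧
      (∀ i, ∀ z ∈ Z i, ∀ z' ∈ Z i, z ≠ z' → 6 * max (s z) (s z') ≤ ‖z - z'‖) ∧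
      ∀ x : Fin n → ℂ, x ≠ 0 → ‖x‖ < r / 4 → ∃ i < M, ∃ z ∈ Z i, x ∈ ball z (1 * s z) := by
  classical
  refine ⟨Fintype.card (gcov_Col n), Fintype.card_pos, fun s r ε hr hε0 hε hpos hs hsm => ?_⟩
  set e := Fintype.equivFin (gcov_Col n) with he
  refine ⟨fun i => if h : i < Fintype.card (gcov_Col n) then gcov_Z s r (e.symm ⟨i, h⟩) else ∅,
    ?_, ?_, ?_⟩
  · intro i z hz
    by_cases h : i < Fintype.card (gcov_Col n)
    · simp only [dif_pos h] at hz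
      exact ⟨hz.1, hz.2.1⟩
    · simp only [dif_neg h] at hz
      exact hz.elim
  · intro i z hz z' hz' hne
    by_cases h : i < Fintype.card (gcov_Col n)
    · simp only [dif_pos h] at hz hz'
      exact gcov_sep hr hε0 hε hs _ z z' hz hz' hne
    · simp only [dif_neg h] at hz
      exact hz.elim
  · intro x hx0 hx
    obtain ⟨c, z, hz, hxz⟩ := gcov_cov hr hε0 hε hpos hs hsm x hx0 hx
    refine ⟨(e c : ℕ), (e c).2, z, ?_, hxz⟩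
    simp only [dif_pos (e c).2, Fin.eta, Equiv.symm_apply_apply]
    exact hz

end H80.LD
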