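import Pool.Agent.H80.LD.Defs
import Pool.Agent.H24.LS.Base

/-!
# GDefs (project MP_816883_LD, blocks 8-9): definitions for the gluing of local approximants

`E` is the source and target space, `s : E → ℝ` the scale function (`s x = K ‖f'(x)‖` in the application),
`A, B : E → E` the coarse equivalence, all errors are at most `ε s`.
All conditions on points `x, y` are on the ball of radius `r`; centres and the set `D` are in the ball of radius `r2`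
with `8 L^2 r2 ≤ r`, so that all auxiliary points stay in `ball 0 r`.
-/

open Filter Topology Metric Set

namespace H80.LD

/-- the environment: a coarse equivalence `A, B` with errors at most `ε s`, `s` is `ε`-Lipschitz. -/
structure Env {E : Type*} [NormedAddCommGroup E] (A B : E → E) (s : E → ℝ) (L ε r : ℝ) : Prop where
  hL : 1 ≤ L
  hε : 0 < ε
  hr : 0 < r
  A0 : A 0 = 0
  B0 : B 0 = 0
  spos : ∀ x ∈ ball (0 : E) r, x ≠ 0 → 0 < s x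
  slip : ∀ x ∈ ball (0 : E) r, ∀ y ∈ ball (0 : E) r, |s x - s y| ≤ ε * ‖x - y‖
  ssmall : ∀ x ∈ ball (0 : E) r, s x ≤ ε * ‖x‖
  lipA : ∀ x ∈ ball (0 : E) r, ∀ y ∈ ball (0 : E) r, ‖A x - A y‖ ≤ L * ‖x - y‖
  lipB : ∀ x ∈ ball (0 : E) r, ∀ y ∈ ball (0 : E) r, ‖B x - B y‖ ≤ L * ‖x - y‖
  BA : ∀ x ∈ ball (0 : E) r, ‖B (A x) - x‖ ≤ ε * s x
  AB : ∀ y ∈ ball (0 : E) r, ‖A (B y) - y‖ ≤ ε * s (B y)
  nB : ∀ y ∈ ball (0 : E) r, ‖y‖ ≤ 2 * L * ‖B y‖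

/-- local data at a centre `z`: an exact equivalence `h, h'` close to `A, B` and a chart `Ψ, Ψ'` adapted to `f`. -/
structure Loc {E : Type*} [NormedAddCommGroup E] {D : Type*} [Fintype D] (f g : E → ℂ) (A B : E → E)
    (s : E → ℝ) (L C R ε : ℝ) (z : E) (h h' : E → E) (Ψ : E → ℂ × (D → ℝ)) (Ψ' : ℂ × (D → ℝ) → E) :
    Prop where
  hlip : ∀ x y, ‖h x - h y‖ ≤ 4 * L * ‖x - y‖
  hlip' : ∀ x y, ‖h' x - h' y‖ ≤ 4 * L * ‖x - y‖
  inv : ∀ x, h' (h x) = x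
  inv' : ∀ y, h (h' y) = y
  fh : ∀ x ∈ ball z (R * s z), f x = g (h x)
  fhA : ∀ x ∈ ball z (R * s z), ‖h x - A x‖ ≤ ε * s z
  gh : ∀ y ∈ ball (A z) (R * s z), g y = f (h' y)
  ghB : ∀ y ∈ ball (A z) (R * s z), ‖h' y - B y‖ ≤ ε * s z
  clip : ∀ x y, ‖Ψ x - Ψ y‖ ≤ C / s z * ‖x - y‖
  clip' : ∀ p q, ‖Ψ' p - Ψ' q‖ ≤ C * s z * ‖p - q‖
  cinv : ∀ x, Ψ' (Ψ x) = x
  cinv' : ∀ p, Ψ (Ψ' p) = p
  c0 : Ψ z = 0
  c1 : ∀ x ∈ ball z (R * s z), ∀ y ∈ ball z (R * s z), ((Ψ x).1 = (Ψ y).1 ↔ f x = f y)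

/-- the state on a set `D` of source points: exact equivalence `G, H` on `D`, close to `A, B`. -/
structure St {E : Type*} [NormedAddCommGroup E] (f g : E → ℂ) (A B : E → E) (s : E → ℝ) (r : ℝ)
    (D : Set E) (ε Λ : ℝ) (G H : E → E) : Prop where
  s1 : ∀ x ∈ D, f x = g (G x)
  s1d : ∀ x ∈ D, ‖G x - A x‖ ≤ ε * s x
  s1l : ∀ x ∈ D, ∀ᶠ x' in 𝓝 x, ‖G x' - G x‖ ≤ Λ * ‖x' - x‖
  s2 : ∀ y ∈ ball (0 : E) r, B y ∈ D → g y = f (H y)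
  s2d : ∀ y ∈ ball (0 : E) r, B y ∈ D → ‖H y - B y‖ ≤ ε * s (B y)
  s2l : ∀ y ∈ ball (0 : E) r, B y ∈ D → ∀ᶠ y' in 𝓝 y, ‖H y' - H y‖ ≤ Λ * ‖y' - y‖
  s3 : ∀ x ∈ D, B (G x) ∈ D → H (G x) = x
  s3' : ∀ y ∈ ball (0 : E) r, B y ∈ D → H y ∈ D → G (H y) = y

theorem St.mono {E : Type*} [NormedAddCommGroup E] {f g : E → ℂ} {A B : E → E} {s : E → ℝ} {r : ℝ}
    {D D' : Set E} {ε Λ : ℝ} {G H : E → E} (h : St f g A B s r D ε Λ G H) (hD : D' ⊆ D) :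
    St f g A B s r D' ε Λ G H :=
  { s1 := fun x hx => h.s1 x (hD hx)
    s1d := fun x hx => h.s1d x (hD hx)
    s1l := fun x hx => h.s1l x (hD hx)
    s2 := fun y hy hx => h.s2 y hy (hD hx)
    s2d := fun y hy hx => h.s2d y hy (hD hx)
    s2l := fun y hy hx => h.s2l y hy (hD hx)
    s3 := fun x hx hy => h.s3 x (hD hx) (hD hy)
    s3' := fun y hy hx hH => h.s3' y hy (hD hx) (hD hH) }

/-- the new maps `g1, k1` at a centre `z`: they are global bijections inverse to each other, exact near `z`, and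
agree with the old maps `G, H` at the points of `D` with a margin. -/
structure LocOut {E : Type*} [NormedAddCommGroup E] (f g : E → ℂ) (A B : E → E) (s : E → ℝ) (r : ℝ)
    (z : E) (D : Set E) (τ ε Λ : ℝ) (G H g1 k1 : E → E) : Prop where
  o1 : ∀ x ∈ ball z (3 * s z), f x = g (g1 x)
  o1d : ∀ x ∈ ball z (3 * s z), ‖g1 x - A x‖ ≤ ε * s z
  o1l : ∀ x, ∀ᶠ x' in 𝓝 x, ‖g1 x' - g1 x‖ ≤ Λ * ‖x' - x‖
  o2 : ∀ y ∈ ball (0 : E) r, B y ∈ ball z (3 * s z) → g y = f (k1 y)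
  o2d : ∀ y ∈ ball (0 : E) r, B y ∈ ball z (3 * s z) → ‖k1 y - B y‖ ≤ ε * s z
  o2l : ∀ y, ∀ᶠ y' in 𝓝 y, ‖k1 y' - k1 y‖ ≤ Λ * ‖y' - y‖
  o3 : ∀ x, k1 (g1 x) = x
  o3' : ∀ y, g1 (k1 y) = y
  o4 : ∀ x ∈ ball z (3 * s z), closedBall x (τ * s z) ⊆ D → g1 x = G x
  o5 : ∀ y ∈ ball (0 : E) r, B y ∈ ball z (3 * s z) → closedBall (B y) (τ * s z) ⊆ D → k1 y = H y

/-- points of `D` with margin `2 τ s`, together with the balls of radius `2 s z`. -/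
def newD {E : Type*} [NormedAddCommGroup E] (s : E → ℝ) (D Z : Set E) (τ : ℝ) : Set E :=
  {x | x ∈ D ∧ closedBall x (2 * τ * s x) ⊆ D} ∪ ⋃ z ∈ Z, ball z (2 * s z)

/-- the whole system: environment, local data at every centre, and a coloured set of centres. -/
structure Sys {E : Type*} [NormedAddCommGroup E] (D : Type*) [Fintype D] (f g : E → ℂ)
    (A B : E → E) (s : E → ℝ) (L C R ε r r2 : ℝ) (Z : ℕ → Set E) : Prop where
  env : Env A B s L ε r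
  hr2 : 0 < r2
  h8 : 8 * L ^ 2 * r2 ≤ r
  loc : ∀ z : E, z ≠ 0 → ‖z‖ < r2 → ∃ (h h' : E → E) (Ψ : E → ℂ × (D → ℝ)) (Ψ' : ℂ × (D → ℝ) → E),
    Loc f g A B s L C R ε z h h' Ψ Ψ'
  cen : ∀ i, ∀ z ∈ Z i, z ≠ 0 ∧ ‖z‖ < r2 / 2
  sep : ∀ i, ∀ z ∈ Z i, ∀ z' ∈ Z i, z ≠ z' → 6 * max (s z) (s z') ≤ ‖z - z'‖

/-- the union of the balls of radius `a s z` around the centres of the first `j` colours -/
def domJ {E : Type*} [NormedAddCommGroup E] (s : E → ℝ) (Z : ℕ → Set E) (a : ℝ) (j : ℕ) : Set E :=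
  {x | ∃ i < j, ∃ z ∈ Z i, x ∈ ball z (a * s z)}

end H80.LD
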