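import Pool.Agent.H80.LD.GDefs

/-!
# GEnv (project MP_816883_LD, blocks 8-9): first consequences of `Env` (proved)
-/

open Filter Topology Metric Set

namespace H80.LD

variable {E : Type*} [NormedAddCommGroup E] {A B : E → E} {s : E → ℝ} {L ε r : ℝ}

theorem Env.s_le (h : Env A B s L ε r) {x z : E} (hx : x ∈ ball (0 : E) r)
    (hz : z ∈ ball (0 : E) r) : s x ≤ s z + ε * ‖x - z‖ := by
  have := (abs_le.1 (h.slip x hx z hz)).2
  linarith

theorem Env.nA (h : Env A B s L ε r) {x : E} (hx : x ∈ ball (0 : E) r) : ‖A x‖ ≤ L * ‖x‖ := by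
  have := h.lipA x hx 0 (mem_ball_self h.hr)
  rwa [h.A0, sub_zero, sub_zero] at this

theorem Env.nB1 (h : Env A B s L ε r) {x : E} (hx : x ∈ ball (0 : E) r) : ‖B x‖ ≤ L * ‖x‖ := by
  have := h.lipB x hx 0 (mem_ball_self h.hr)
  rwa [h.B0, sub_zero, sub_zero] at this

theorem Env.contB (h : Env A B s L ε r) {y : E} (hy : y ∈ ball (0 : E) r) : ContinuousAt B y := by
  have h1 : ∀ᶠ y' in 𝓝 y, ‖B y' - B y‖ ≤ L * ‖y' - y‖ := by
    filter_upwards [isOpen_ball.mem_nhds hy] with y' hy'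
    exact h.lipB y' hy' y hy
  have h2 : Tendsto (fun y' : E => L * ‖y' - y‖) (𝓝 y) (𝓝 0) := by
    have : Continuous (fun y' : E => L * ‖y' - y‖) := by fun_prop
    have h3 := this.tendsto y
    simpa using h3
  unfold ContinuousAt
  rw [tendsto_iff_norm_sub_tendsto_zero]
  exact squeeze_zero' (Eventually.of_forall fun y => norm_nonneg _) h1 h2

/-- a centre `z` and a point `x` at distance at most `a s z`, `a ε ≤ 1/2` -/
theorem Env.near (h : Env A B s L ε r) {r2 a : ℝ} {z x : E} (h8 : 8 * L ^ 2 * r2 ≤ r) (hz : z ≠ 0)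
    (hz2 : ‖z‖ < r2) (ha : a * ε ≤ 1 / 2) (hx : ‖x - z‖ ≤ a * s z) :
    x ≠ 0 ∧ ‖x‖ < 2 * r2 ∧ x ∈ ball (0 : E) r ∧ s x ≤ 2 * s z ∧ s z ≤ 2 * s x ∧ 0 < s x ∧
      0 < s z ∧ z ∈ ball (0 : E) r := by
  have hL := h.hL
  have hz0 : 0 < ‖z‖ := norm_pos_iff.2 hz
  have hr2 : 0 < r2 := hz0.trans hz2
  have hL2 : 1 ≤ L ^ 2 := by nlinarith
  have hr : 8 * r2 ≤ r := by nlinarith
  have hzr : z ∈ ball (0 : E) r := by
    rw [mem_ball_zero_iff]; linarith
  have hs := h.spos z hzr hz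
  have hsz := h.ssmall z hzr
  have hε := h.hε
  have ha0 : 0 ≤ a := by
    by_contra hneg
    push Not at hneg
    have h1 : a * s z < 0 := mul_neg_of_neg_of_pos hneg hs
    linarith [norm_nonneg (x - z)]
  have h1 : a * s z ≤ 1 / 2 * ‖z‖ := by
    calc a * s z ≤ a * (ε * ‖z‖) := mul_le_mul_of_nonneg_left hsz ha0
      _ = (a * ε) * ‖z‖ := by ring
      _ ≤ 1 / 2 * ‖z‖ := mul_le_mul_of_nonneg_right ha hz0.le
  have h2 : ‖x‖ ≤ ‖x - z‖ + ‖z‖ := by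
    calc ‖x‖ = ‖(x - z) + z‖ := by rw [sub_add_cancel]
      _ ≤ _ := norm_add_le _ _
  have h3 : ‖z‖ ≤ ‖x‖ + ‖x - z‖ := by
    calc ‖z‖ = ‖x - (x - z)‖ := by rw [sub_sub_cancel]
      _ ≤ _ := norm_sub_le _ _
  have hx0 : x ≠ 0 := by
    rintro rfl
    rw [norm_zero] at h3
    linarith
  have hx2 : ‖x‖ < 2 * r2 := by linarith
  have hxr : x ∈ ball (0 : E) r := by
    rw [mem_ball_zero_iff]; linarith
  have h4 : ε * ‖x - z‖ ≤ 1 / 2 * s z := by
    calc ε * ‖x - z‖ ≤ ε * (a * s z) := mul_le_mul_of_nonneg_left hx hε.le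
      _ = (a * ε) * s z := by ring
      _ ≤ 1 / 2 * s z := mul_le_mul_of_nonneg_right ha hs.le
  have h5 := h.s_le hxr hzr
  have h6 := h.s_le hzr hxr
  rw [norm_sub_rev] at h6
  exact ⟨hx0, hx2, hxr, by linarith, by linarith, h.spos x hxr hx0, hs, hzr⟩

end H80.LD
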