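import Pool.Agent.H80.LD.GEnv
import Pool.Agent.H80.LD.B0a

/-!
# GFin (project MP_816883_LD, blocks 8-9): from the state on a punctured ball to Lipschitz equivalence

`h x = if x = 0 then 0 else G x`, `h' y = if y = 0 then 0 else H y`, `ρ = r3 / (4 L)` (so `4 L ρ ≤ r3 ≤ r`).
* `x ≠ 0`, `‖x‖ < ρ`: `x ∈ D`, `‖G x - A x‖ ≤ ε1 s x ≤ ε1 ε ‖x‖ ≤ ‖x‖` (`L ε1 ε ≤ 1/2`), `‖G x‖ ≤ (L + 1) ‖x‖ < r`; `‖B (G x) - x‖ ≤ L ε1 s x + ε s x ≤ (L ε1 + ε) ε ‖x‖ ≤ ‖x‖ / 2`, so `B (G x) ≠ 0`,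
  `‖B (G x)‖ ≤ 3/2 ‖x‖ < r3`, `B (G x) ∈ D`, `H (G x) = x` (`s3`), and `G x ≠ 0` as `B 0 = 0`. So `h' (h x) = x`; also for `x = 0`. `f x = g (h x)` (`s1`, `f 0 = g 0`).
* `y ≠ 0`, `‖y‖ < ρ`: `B y ≠ 0` (`nB`), `‖B y‖ ≤ L ‖y‖ < r3`, `B y ∈ D`; `‖H y - B y‖ ≤ ε1 s (B y) ≤ ‖B y‖ / 2`, so `H y ≠ 0`, `‖H y‖ ≤ 3/2 L ‖y‖ < r3`, `H y ∈ D`, `G (H y) = y` (`s3'`): `h (h' y) = y`.
* Lipschitz: with `K = max Λ (2 L)` every point of `ball 0 ρ` satisfies the pointwise bound for `h` (near `x ≠ 0` it is `G`; at `0`: `‖h x‖ ≤ (L + 1) ‖x‖`) and for `h'` (`‖H y‖ ≤ 3/2 L ‖y‖`);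
  `B0a_lip_seg` on segments of the convex ball.
-/

open Filter Topology Metric Set H24.LS

namespace H80.LD

theorem gfin_src {E : Type*} [NormedAddCommGroup E] {f g : E → ℂ} {A B : E → E}
    {s : E → ℝ} {L ε r ε1 Λ r3 : ℝ} {D : Set E} {G H : E → E} (env : Env A B s L ε r)
    (hSt : St f g A B s r D ε1 Λ G H) (hr3r : r3 ≤ r)
    (hD : ∀ x : E, x ≠ 0 → ‖x‖ < r3 → x ∈ D) (hε1 : 0 < ε1)
    (hsm : (L * ε1 + ε) * ε ≤ 1 / 2) (x : E) (hx0 : x ≠ 0) (hx : ‖x‖ < r3 / (4 * L)) :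
    x ∈ D ∧ G x ≠ 0 ∧ H (G x) = x ∧ ‖G x‖ ≤ 2 * L * ‖x‖ := by
  have hL := env.hL
  have hε := env.hε
  have hLp : (0 : ℝ) < 4 * L := by linarith
  rw [lt_div_iff₀ hLp] at hx
  have hxp : 0 < ‖x‖ := norm_pos_iff.2 hx0
  have hLx : ‖x‖ ≤ L * ‖x‖ := by nlinarith
  have hxr3 : ‖x‖ < r3 := by nlinarith
  have hxr : x ∈ ball (0 : E) r := by
    rw [mem_ball_zero_iff]
    linarith
  have hxD : x ∈ D := hD x hx0 hxr3
  have hs := env.ssmall x hxr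
  have hsp := env.spos x hxr hx0
  have h1 := hSt.s1d x hxD
  have hAx := env.nA hxr
  have hAr : A x ∈ ball (0 : E) r := by
    rw [mem_ball_zero_iff]
    nlinarith
  have hsm1 : ε1 * ε ≤ 1 / 2 := by nlinarith [mul_pos hε1 hε, mul_pos hε hε]
  have h2 : ‖G x - A x‖ ≤ 1 / 2 * ‖x‖ := by
    calc ‖G x - A x‖ ≤ ε1 * s x := h1
      _ ≤ ε1 * (ε * ‖x‖) := mul_le_mul_of_nonneg_left hs hε1.le
      _ = (ε1 * ε) * ‖x‖ := by ring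
      _ ≤ 1 / 2 * ‖x‖ := mul_le_mul_of_nonneg_right hsm1 hxp.le
  have h3 : ‖G x‖ ≤ ‖G x - A x‖ + ‖A x‖ := by
    calc ‖G x‖ = ‖(G x - A x) + A x‖ := by rw [sub_add_cancel]
      _ ≤ _ := norm_add_le _ _
  have hGx : ‖G x‖ ≤ 2 * L * ‖x‖ := by nlinarith
  have hGr : G x ∈ ball (0 : E) r := by
    rw [mem_ball_zero_iff]
    nlinarith
  have h4 : ‖B (G x) - x‖ ≤ 1 / 2 * ‖x‖ := by
    have e : B (G x) - x = (B (G x) - B (A x)) + (B (A x) - x) := by abel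
    have h5 := env.lipB (G x) hGr (A x) hAr
    have h6 := env.BA x hxr
    have h7 : L * ‖G x - A x‖ ≤ L * (ε1 * s x) := mul_le_mul_of_nonneg_left h1 (by linarith)
    calc ‖B (G x) - x‖ ≤ ‖B (G x) - B (A x)‖ + ‖B (A x) - x‖ := by
          rw [e]
          exact norm_add_le _ _
      _ ≤ (L * ε1 + ε) * s x := by linarith
      _ ≤ (L * ε1 + ε) * (ε * ‖x‖) := mul_le_mul_of_nonneg_left hs (by nlinarith)
      _ = ((L * ε1 + ε) * ε) * ‖x‖ := by ring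
      _ ≤ 1 / 2 * ‖x‖ := mul_le_mul_of_nonneg_right hsm hxp.le
  have h8 : ‖x‖ ≤ ‖B (G x)‖ + ‖B (G x) - x‖ := by
    calc ‖x‖ = ‖B (G x) - (B (G x) - x)‖ := by rw [sub_sub_cancel]
      _ ≤ _ := norm_sub_le _ _
  have h9 : ‖B (G x)‖ ≤ ‖B (G x) - x‖ + ‖x‖ := by
    calc ‖B (G x)‖ = ‖(B (G x) - x) + x‖ := by rw [sub_add_cancel]
      _ ≤ _ := norm_add_le _ _
  have hB0 : B (G x) ≠ 0 := by
    intro h0
    rw [h0, norm_zero] at h8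
    rw [h0] at h4
    linarith
  have hG0 : G x ≠ 0 := by
    intro h0
    rw [h0] at hB0
    exact hB0 env.B0
  refine ⟨hxD, hG0, hSt.s3 x hxD (hD _ hB0 (by nlinarith)), hGx⟩

theorem gfin_tgt {E : Type*} [NormedAddCommGroup E] {f g : E → ℂ} {A B : E → E}
    {s : E → ℝ} {L ε r ε1 Λ r3 : ℝ} {D : Set E} {G H : E → E} (env : Env A B s L ε r)
    (hSt : St f g A B s r D ε1 Λ G H) (hr3r : r3 ≤ r)
    (hD : ∀ x : E, x ≠ 0 → ‖x‖ < r3 → x ∈ D) (hε1 : 0 < ε1)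
    (hsm : (L * ε1 + ε) * ε ≤ 1 / 2) (y : E) (hy0 : y ≠ 0) (hy : ‖y‖ < r3 / (4 * L)) :
    y ∈ ball (0 : E) r ∧ B y ∈ D ∧ H y ≠ 0 ∧ G (H y) = y ∧ ‖H y‖ ≤ 2 * L * ‖y‖ := by
  have hL := env.hL
  have hε := env.hε
  have hLp : (0 : ℝ) < 4 * L := by linarith
  rw [lt_div_iff₀ hLp] at hy
  have hyp : 0 < ‖y‖ := norm_pos_iff.2 hy0
  have hLy : ‖y‖ ≤ L * ‖y‖ := by nlinarith
  have hyr : y ∈ ball (0 : E) r := by
    rw [mem_ball_zero_iff]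
    nlinarith
  have hB := env.nB1 hyr
  have hnB := env.nB y hyr
  have hBy0 : B y ≠ 0 := by
    intro h0
    rw [h0, norm_zero] at hnB
    linarith
  have hBp : 0 < ‖B y‖ := norm_pos_iff.2 hBy0
  have hBD : B y ∈ D := hD _ hBy0 (by nlinarith)
  have hBr : B y ∈ ball (0 : E) r := by
    rw [mem_ball_zero_iff]
    nlinarith
  have hsm1 : ε1 * ε ≤ 1 / 2 := by nlinarith [mul_pos hε1 hε, mul_pos hε hε]
  have h2 : ‖H y - B y‖ ≤ 1 / 2 * ‖B y‖ := by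
    calc ‖H y - B y‖ ≤ ε1 * s (B y) := hSt.s2d y hyr hBD
      _ ≤ ε1 * (ε * ‖B y‖) := mul_le_mul_of_nonneg_left (env.ssmall _ hBr) hε1.le
      _ = (ε1 * ε) * ‖B y‖ := by ring
      _ ≤ 1 / 2 * ‖B y‖ := mul_le_mul_of_nonneg_right hsm1 hBp.le
  have h8 : ‖B y‖ ≤ ‖H y‖ + ‖H y - B y‖ := by
    calc ‖B y‖ = ‖H y - (H y - B y)‖ := by rw [sub_sub_cancel]
      _ ≤ _ := norm_sub_le _ _
  have h9 : ‖H y‖ ≤ ‖H y - B y‖ + ‖B y‖ := by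
    calc ‖H y‖ = ‖(H y - B y) + B y‖ := by rw [sub_add_cancel]
      _ ≤ _ := norm_add_le _ _
  have hH0 : H y ≠ 0 := by
    intro h0
    rw [h0, norm_zero] at h8
    rw [h0] at h2
    linarith
  have hHy : ‖H y‖ ≤ 2 * L * ‖y‖ := by nlinarith
  exact ⟨hyr, hBD, hH0, hSt.s3' y hyr hBD (hD _ hH0 (by nlinarith)), hHy⟩

theorem gfin_lip {E : Type*} [NormedAddCommGroup E] [NormedSpace ℝ E] (G : E → E) (ρ L Λ : ℝ)
    (h : E → E) (hh : ∀ x, x ≠ 0 → h x = G x) (h0 : h 0 = 0)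
    (hG : ∀ x, x ≠ 0 → ‖x‖ < ρ → ∀ᶠ x' in 𝓝 x, ‖G x' - G x‖ ≤ Λ * ‖x' - x‖)
    (hb : ∀ x, x ≠ 0 → ‖x‖ < ρ → ‖G x‖ ≤ 2 * L * ‖x‖) :
    ∀ x ∈ ball (0 : E) ρ, ∀ y ∈ ball (0 : E) ρ, ‖h x - h y‖ ≤ max Λ (2 * L) * ‖x - y‖ := by
  intro x hx y hy
  refine B0a_lip_convex h (max Λ (2 * L)) (ball (0 : E) ρ) (convex_ball _ _) ?_ y hy x hx
  intro z hz
  rw [mem_ball_zero_iff] at hz
  by_cases hz0 : z = 0
  · subst hz0
    filter_upwards [isOpen_ball.mem_nhds (mem_ball_zero_iff.2 hz)] with w hw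
    rw [mem_ball_zero_iff] at hw
    rw [h0, sub_zero, sub_zero]
    by_cases hw0 : w = 0
    · rw [hw0, h0, norm_zero, mul_zero]
    · rw [hh w hw0]
      exact (hb w hw0 hw).trans (mul_le_mul_of_nonneg_right (le_max_right _ _) (norm_nonneg _))
  · filter_upwards [hG z hz0 hz, isOpen_ne.mem_nhds hz0] with w hw hw0
    rw [hh w hw0, hh z hz0]
    exact hw.trans (mul_le_mul_of_nonneg_right (le_max_left _ _) (norm_nonneg _))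

theorem gfin {E : Type*} [NormedAddCommGroup E] [NormedSpace ℝ E] {f g : E → ℂ} {A B : E → E}
    {s : E → ℝ} {L ε r ε1 Λ r3 : ℝ} {D : Set E} {G H : E → E} (env : Env A B s L ε r)
    (hSt : St f g A B s r D ε1 Λ G H) (hr3 : 0 < r3) (hr3r : r3 ≤ r)
    (hD : ∀ x : E, x ≠ 0 → ‖x‖ < r3 → x ∈ D) (f0 : f 0 = 0) (g0 : g 0 = 0) (hε1 : 0 < ε1)
    (hsm : (L * ε1 + ε) * ε ≤ 1 / 2) : LipEquiv f g := by
  classical
  have hL := env.hL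
  have hρ : 0 < r3 / (4 * L) := div_pos hr3 (by linarith)
  have hsrc := gfin_src env hSt hr3r hD hε1 hsm
  have htgt := gfin_tgt env hSt hr3r hD hε1 hsm
  obtain ⟨h, hh⟩ : ∃ h : E → E, h = fun x => if x = 0 then 0 else G x := ⟨_, rfl⟩
  obtain ⟨h', hh'⟩ : ∃ h' : E → E, h' = fun y => if y = 0 then 0 else H y := ⟨_, rfl⟩
  have e0 : h 0 = 0 := by
    rw [hh]
    simp
  have e0' : h' 0 = 0 := by
    rw [hh']
    simp
  have e1 : ∀ x, x ≠ 0 → h x = G x := fun x hx => by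
    rw [hh]
    simp [hx]
  have e1' : ∀ y, y ≠ 0 → h' y = H y := fun y hy => by
    rw [hh']
    simp [hy]
  have hball : ∀ᶠ x in 𝓝 (0 : E), ‖x‖ < r3 / (4 * L) := by
    filter_upwards [isOpen_ball.mem_nhds (mem_ball_self hρ)] with x hx
    exact mem_ball_zero_iff.1 hx
  refine ⟨h, h', max Λ (2 * L), r3 / (4 * L), hρ, e0, e0', ?_, ?_, ?_, ?_, ?_⟩
  · exact gfin_lip G _ L Λ h e1 e0 (fun x hx0 hx => hSt.s1l x (hsrc x hx0 hx).1)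
      (fun x hx0 hx => (hsrc x hx0 hx).2.2.2)
  · exact gfin_lip H _ L Λ h' e1' e0'
      (fun y hy0 hy => hSt.s2l y (htgt y hy0 hy).1 (htgt y hy0 hy).2.1)
      (fun y hy0 hy => (htgt y hy0 hy).2.2.2.2)
  · filter_upwards [hball] with x hx
    by_cases hx0 : x = 0
    · rw [hx0, e0, e0']
    · obtain ⟨_, hG0, hHG, _⟩ := hsrc x hx0 hx
      rw [e1 x hx0, e1' _ hG0, hHG]
  · filter_upwards [hball] with y hy
    by_cases hy0 : y = 0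
    · rw [hy0, e0', e0]
    · obtain ⟨_, _, hH0, hGH, _⟩ := htgt y hy0 hy
      rw [e1' y hy0, e1 _ hH0, hGH]
  · filter_upwards [hball] with x hx
    by_cases hx0 : x = 0
    · rw [hx0, e0, f0, g0]
    · rw [e1 x hx0]
      exact hSt.s1 x (hsrc x hx0 hx).1

end H80.LD
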