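import Pool.Agent.H80.LD.GEnv

/-!
# GGlA (project MP_816883_LD, blocks 8-9): glued maps, basic properties

`glu s Z b g1 G x = g1 z x` if `b x ∈ ball z (5/2 s z)` for some `z ∈ Z`, and `G x` otherwise. It is used with `b = id` (source maps) and `b = B` (target maps).
* `glu_eq`: uniqueness of `z`: if `b x ∈ ball z (5/2 s z)` and `b x ∈ ball z' (5/2 s z')`, `z ≠ z'`, then `‖z - z'‖ < 5/2 (s z + s z') ≤ 5 max < 6 max ≤ ‖z - z'‖` (`0 < s z`).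
* `glu_margin`: put `x0 = b x`, `δ = τ s x0 / 3 > 0` (`x0 ∈ Dm`, so `x0 ≠ 0`, `x0 ∈ ball 0 r`). For `x'` near `x`: `hg` holds at `x'`, `w = b x'` satisfies `‖w - x0‖ ≤ δ` and `w ∈ ball 0 r`.
  If `w ∈ ball z (5/2 s z)` for a `z ∈ Z`: `glu x' = g1 z x'` (`glu_eq`), `w ∈ ball z (3 s z)`; `s z ≤ s w + 5/2 ε s z ≤ s w + s z / 4`, so `s z ≤ 4/3 s w`, `s w ≤ s x0 + ε δ`;
  `τ s z + δ ≤ 4/3 τ (s x0 + ε δ) + δ ≤ 4/3 τ s x0 + 2 δ = 2 τ s x0` (as `4/3 τ ε ≤ 1`), hence `closedBall w (τ s z) ⊆ closedBall x0 (2 τ s x0) ⊆ Dm`, and `hg` gives `g1 z x' = G x'`.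
  If there is no such `z`, `glu x' = G x'` by definition.
-/

open Filter Topology Metric Set

namespace H80.LD

variable {E : Type*} [NormedAddCommGroup E]

open scoped Classical in
noncomputable def glu (s : E → ℝ) (Z : Set E) (b : E → E) (g1 : E → E → E) (G : E → E) (x : E) : E :=
  if h : ∃ z ∈ Z, b x ∈ ball z (5 / 2 * s z) then g1 h.choose x else G x

theorem glu_eq {s : E → ℝ} {Z : Set E} {b : E → E} {g1 : E → E → E} {G : E → E}
    (hpos : ∀ z ∈ Z, 0 < s z)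
    (hsep : ∀ z ∈ Z, ∀ z' ∈ Z, z ≠ z' → 6 * max (s z) (s z') ≤ ‖z - z'‖) {x z : E} (hz : z ∈ Z)
    (hx : b x ∈ ball z (5 / 2 * s z)) : glu s Z b g1 G x = g1 z x := by
  have h : ∃ z ∈ Z, b x ∈ ball z (5 / 2 * s z) := ⟨z, hz, hx⟩
  have e1 : glu s Z b g1 G x = g1 h.choose x := by
    unfold glu
    rw [dif_pos h]
  obtain ⟨h1, h2⟩ := h.choose_spec
  have e2 : h.choose = z := by
    by_contra hne
    have h3 := hsep _ h1 z hz hne
    rw [mem_ball_iff_norm] at h2 hx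
    have h4 : ‖h.choose - z‖ ≤ ‖b x - z‖ + ‖b x - h.choose‖ := by
      calc ‖h.choose - z‖ = ‖(b x - z) - (b x - h.choose)‖ := by
            congr 1
            abel
        _ ≤ _ := norm_sub_le _ _
    have h5 := le_max_left (s h.choose) (s z)
    have h6 := le_max_right (s h.choose) (s z)
    have h7 := hpos z hz
    linarith
  rw [e1, e2]

theorem glu_margin {A B : E → E} {s : E → ℝ} {L ε r r2 τ : ℝ} {Dm Z : Set E} {b : E → E}
    {g1 : E → E → E} {G : E → E} (env : Env A B s L ε r) (h8 : 8 * L ^ 2 * r2 ≤ r) (hτ : 0 < τ)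
    (hτ1 : τ ≤ 1) (hε : ε ≤ 1 / 10) (hD : ∀ x ∈ Dm, x ≠ 0 ∧ ‖x‖ < r2)
    (hZ : ∀ z ∈ Z, z ≠ 0 ∧ ‖z‖ < r2)
    (hsep : ∀ z ∈ Z, ∀ z' ∈ Z, z ≠ z' → 6 * max (s z) (s z') ≤ ‖z - z'‖) {x : E}
    (hb : ContinuousAt b x) (hx : b x ∈ Dm) (hx2 : closedBall (b x) (2 * τ * s (b x)) ⊆ Dm)
    (hg : ∀ᶠ x' in 𝓝 x, ∀ z ∈ Z, b x' ∈ ball z (3 * s z) →
      closedBall (b x') (τ * s z) ⊆ Dm → g1 z x' = G x') :
    ∀ᶠ x' in 𝓝 x, glu s Z b g1 G x' = G x' := by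
  obtain ⟨hx0, hxr2⟩ := hD _ hx
  have hL := env.hL
  have hr2 : 0 < r2 := (norm_nonneg _).trans_lt hxr2
  have hL2 : 1 ≤ L ^ 2 := by nlinarith
  have hr : 8 * r2 ≤ r := by nlinarith
  have hball : ∀ z : E, ‖z‖ < r2 → z ∈ ball (0 : E) r := by
    intro z hz
    rw [mem_ball_zero_iff]
    linarith
  have hxr := hball _ hxr2
  have hs0 := env.spos _ hxr hx0
  have hpos : ∀ z ∈ Z, 0 < s z := fun z hz => env.spos z (hball z (hZ z hz).2) (hZ z hz).1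
  have hε0 := env.hε
  obtain ⟨δ, hδ⟩ : ∃ δ : ℝ, δ = τ * s (b x) / 3 := ⟨_, rfl⟩
  have hδ0 : 0 < δ := by rw [hδ]; positivity
  have hev1 : ∀ᶠ x' in 𝓝 x, b x' ∈ ball (b x) δ := hb.eventually (ball_mem_nhds _ hδ0)
  have hev2 : ∀ᶠ x' in 𝓝 x, b x' ∈ ball (0 : E) r := hb.eventually (isOpen_ball.mem_nhds hxr)
  filter_upwards [hg, hev1, hev2] with x' h1 h2 h3
  by_cases hex : ∃ z ∈ Z, b x' ∈ ball z (5 / 2 * s z)
  · obtain ⟨z, hz, hzb⟩ := hex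
    rw [glu_eq hpos hsep hz hzb]
    have hsz := hpos z hz
    have hzr := hball z (hZ z hz).2
    have h4 := env.s_le hzr h3
    have hzb' := hzb
    rw [mem_ball_iff_norm, ← norm_neg, neg_sub] at hzb'
    have h5 : ε * ‖z - b x'‖ ≤ 1 / 10 * (5 / 2 * s z) :=
      mul_le_mul hε hzb'.le (norm_nonneg _) (by norm_num)
    have h6 := env.s_le h3 hxr
    rw [mem_ball_iff_norm] at h2
    have h7 : ε * ‖b x' - b x‖ ≤ ε * δ := mul_le_mul_of_nonneg_left h2.le hε0.le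
    refine h1 z hz (ball_subset_ball (by linarith) hzb) ?_
    refine Subset.trans ?_ hx2
    intro y hy
    rw [mem_closedBall_iff_norm] at hy ⊢
    have h8 : ‖y - b x‖ ≤ ‖y - b x'‖ + ‖b x' - b x‖ := by
      calc ‖y - b x‖ = ‖(y - b x') + (b x' - b x)‖ := by
            congr 1
            abel
        _ ≤ _ := norm_add_le _ _
    have h9 : s z ≤ 4 / 3 * (s (b x) + ε * δ) := by linarith
    have h10 : τ * s z ≤ τ * (4 / 3 * (s (b x) + ε * δ)) := mul_le_mul_of_nonneg_left h9 hτ.le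
    have h11 : τ * ε ≤ 1 * (1 / 10) := mul_le_mul hτ1 hε hε0.le zero_le_one
    have h12 : τ * ε * δ ≤ 1 * (1 / 10) * δ := mul_le_mul_of_nonneg_right h11 hδ0.le
    have h13 : 3 * δ = τ * s (b x) := by rw [hδ]; ring
    nlinarith
  · unfold glu
    rw [dif_neg hex]

end H80.LD
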