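import Pool.Agent.H80.LD.GGlA

/-!
# GGlB (project MP_816883_LD, blocks 8-9): gluing lemma

`G' = glu s Z id g1 G`, `H' = glu s Z B k1 H`, `ε' = max ε1 (2 ε2)`, `D' = newD s Dm Z τ`.
(M) At a margin point `x` (`x ∈ Dm`, `closedBall x (2 τ s x) ⊆ Dm`): `G' = G` near `x` and at `x` (`glu_margin` with `b = id`, `hg` from `o4`; `Eventually.self_of_nhds`).
(M') At `y ∈ ball 0 r` with `B y` a margin point: `H' = H` near `y` and at `y` (`glu_margin` with `b = B`, `Env.contB`, `hg` from `o5` on the open ball).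
(C) For `z ∈ Z`, `x ∈ ball z (5/2 s z)`: `G' = g1 z` near `x` and at `x`; for `y ∈ ball 0 r`, `B y ∈ ball z (5/2 s z)`: `H' = k1 z` near `y` and at `y` (`glu_eq`, openness, `Env.contB`).
* `s1, s1d, s1l` for `x ∈ D'`: margin point: (M) and the old state (`ε1 ≤ ε'`, `Λ1 ≤ max`); `x ∈ ball z (2 s z)`: (C), `o1, o1d, o1l`, `s z ≤ 2 s x` (`Env.near` with `a = 2`), so
  `ε2 s z ≤ ε' s x`. `s2, s2d, s2l` the same with `B y`.
* distance: for `x ∈ D'`, `y = G' x`: `‖x‖ < 2 r2`, `‖y‖ ≤ L ‖x‖ + ε' s x ≤ 2 L ‖x‖ < r`, `‖B y - x‖ ≤ ‖B y - B (A x)‖ + ‖B (A x) - x‖ ≤ (L ε' + ε) s x ≤ s x / 10`. For `y ∈ ball 0 r`, `B y ∈ D'`, `x = H' y`: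
  `‖x - B y‖ ≤ ε' s (B y) ≤ s (B y) / 10`.
* (T) if `u ∈ ball z (2 s z)` and `‖v - u‖ ≤ s u / 10` or `‖v - u‖ ≤ s v / 10` (`v ∈ ball 0 r`) then `v ∈ ball z (5/2 s z)`: first case `s u ≤ 2 s z`, `2 + 1/5 < 5/2`;
  second case `s v ≤ s u + ε ‖v - u‖ ≤ 2 s z + s v / 100`, so `s v / 10 ≤ 1/4 s z`.
* `s3`: `x ∈ D'`, `B y ∈ D'` with `y = G' x`. If both `x` and `B y` are margin points: `G' x = G x`, `H' y = H y`, old `s3`. Otherwise one of them is in some `ball z (2 s z)`, by (T) both are in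
  `ball z (5/2 s z)`, so `G' x = g1 z x`, `H' y = k1 z y` and `o3`.
* `s3'`: `y ∈ ball 0 r`, `B y ∈ D'`, `x = H' y ∈ D'`. Both margin points: `H' y = H y`, `G' x = G x`, old `s3'`. Otherwise by (T) both in `ball z (5/2 s z)`: `H' y = k1 z y`, `G' x = g1 z x`, `o3'`.
-/

open Filter Topology Metric Set

namespace H80.LD

theorem gglb_pos {E : Type*} [NormedAddCommGroup E] {A B : E → E} {s : E → ℝ}
    {L ε r r2 : ℝ} (env : Env A B s L ε r) (h8 : 8 * L ^ 2 * r2 ≤ r) {z : E} (hz : z ≠ 0)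
    (hz2 : ‖z‖ < r2) : 0 < s z ∧ z ∈ ball (0 : E) r ∧ ‖z‖ < 2 * r2 := by
  have h := env.near (a := 0) (x := z) h8 hz hz2 (by norm_num) (by simp)
  exact ⟨h.2.2.2.2.2.1, h.2.2.1, h.2.1⟩

/-- Every point of the new domain is good. -/
theorem gglb_dom {E : Type*} [NormedAddCommGroup E] {A B : E → E} {s : E → ℝ}
    {L ε r r2 τ : ℝ} {Dm Z : Set E} (env : Env A B s L ε r) (h8 : 8 * L ^ 2 * r2 ≤ r)
    (hε : ε ≤ 1 / 10) (hD : ∀ x ∈ Dm, x ≠ 0 ∧ ‖x‖ < r2) (hZ : ∀ z ∈ Z, z ≠ 0 ∧ ‖z‖ < r2)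
    {x : E} (hx : x ∈ newD s Dm Z τ) : 0 < s x ∧ x ∈ ball (0 : E) r ∧ ‖x‖ < 2 * r2 := by
  rcases hx with hx | hx
  · exact gglb_pos env h8 (hD x hx.1).1 (hD x hx.1).2
  · simp only [mem_iUnion] at hx
    obtain ⟨z, hz, hxz⟩ := hx
    rw [mem_ball_iff_norm] at hxz
    have h := env.near (a := 2) (x := x) h8 (hZ z hz).1 (hZ z hz).2 (by linarith) hxz.le
    exact ⟨h.2.2.2.2.2.1, h.2.2.1, h.2.1⟩

/-- (T) -/
theorem gglb_T {E : Type*} [NormedAddCommGroup E] {A B : E → E} {s : E → ℝ}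
    {L ε r r2 : ℝ} {Z : Set E} (env : Env A B s L ε r) (h8 : 8 * L ^ 2 * r2 ≤ r)
    (hε : ε ≤ 1 / 10) (hZ : ∀ z ∈ Z, z ≠ 0 ∧ ‖z‖ < r2)
    {z u v : E} (hz : z ∈ Z) (hu : u ∈ ball z (2 * s z)) (hv : v ∈ ball (0 : E) r)
    (h : ‖v - u‖ ≤ s u / 10 ∨ ‖v - u‖ ≤ s v / 10) : v ∈ ball z (5 / 2 * s z) := by
  rw [mem_ball_iff_norm] at hu ⊢
  have hn := env.near (a := 2) (x := u) h8 (hZ z hz).1 (hZ z hz).2 (by linarith) hu.le
  obtain ⟨-, -, hur, hsu, -, hsu0, hsz0, -⟩ := hn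
  have htri : ‖v - z‖ ≤ ‖v - u‖ + ‖u - z‖ := by
    calc ‖v - z‖ = ‖(v - u) + (u - z)‖ := by rw [sub_add_sub_cancel]
      _ ≤ _ := norm_add_le _ _
  rcases h with h | h
  · linarith
  · have h1 := env.s_le hv hur
    have h2 : ε * ‖v - u‖ ≤ 1 / 10 * ‖v - u‖ := mul_le_mul_of_nonneg_right hε (norm_nonneg _)
    linarith

/-- (M) -/
theorem gglb_M {E : Type*} [NormedAddCommGroup E] {f g : E → ℂ} {A B : E → E} {s : E → ℝ}
    {L ε r r2 τ ε2 Λ2 : ℝ} {Dm Z : Set E} {G H : E → E} (env : Env A B s L ε r)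
    (h8 : 8 * L ^ 2 * r2 ≤ r) (hτ : 0 < τ) (hτ1 : τ ≤ 1) (hε : ε ≤ 1 / 10)
    (hD : ∀ x ∈ Dm, x ≠ 0 ∧ ‖x‖ < r2) (hZ : ∀ z ∈ Z, z ≠ 0 ∧ ‖z‖ < r2)
    (hsep : ∀ z ∈ Z, ∀ z' ∈ Z, z ≠ z' → 6 * max (s z) (s z') ≤ ‖z - z'‖) (g1 k1 : E → E → E)
    (hout : ∀ z ∈ Z, LocOut f g A B s r z Dm τ ε2 Λ2 G H (g1 z) (k1 z))
    {x : E} (hx : x ∈ Dm) (hx2 : closedBall x (2 * τ * s x) ⊆ Dm) :
    ∀ᶠ x' in 𝓝 x, glu s Z id g1 G x' = G x' := by
  refine glu_margin env h8 hτ hτ1 hε hD hZ hsep (b := id) continuousAt_id hx hx2 ?_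
  exact Eventually.of_forall (fun x' z hz h1 h2 => (hout z hz).o4 x' h1 h2)

/-- (M') -/
theorem gglb_M' {E : Type*} [NormedAddCommGroup E] {f g : E → ℂ} {A B : E → E} {s : E → ℝ}
    {L ε r r2 τ ε2 Λ2 : ℝ} {Dm Z : Set E} {G H : E → E} (env : Env A B s L ε r)
    (h8 : 8 * L ^ 2 * r2 ≤ r) (hτ : 0 < τ) (hτ1 : τ ≤ 1) (hε : ε ≤ 1 / 10)
    (hD : ∀ x ∈ Dm, x ≠ 0 ∧ ‖x‖ < r2) (hZ : ∀ z ∈ Z, z ≠ 0 ∧ ‖z‖ < r2)
    (hsep : ∀ z ∈ Z, ∀ z' ∈ Z, z ≠ z' → 6 * max (s z) (s z') ≤ ‖z - z'‖) (g1 k1 : E → E → E)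
    (hout : ∀ z ∈ Z, LocOut f g A B s r z Dm τ ε2 Λ2 G H (g1 z) (k1 z))
    {y : E} (hy : y ∈ ball (0 : E) r) (hx : B y ∈ Dm)
    (hx2 : closedBall (B y) (2 * τ * s (B y)) ⊆ Dm) :
    ∀ᶠ y' in 𝓝 y, glu s Z B k1 H y' = H y' := by
  refine glu_margin env h8 hτ hτ1 hε hD hZ hsep (b := B) (env.contB hy) hx hx2 ?_
  filter_upwards [isOpen_ball.mem_nhds hy] with y' hy' z hz h1 h2
  exact (hout z hz).o5 y' hy' h1 h2

/-- (C) -/
theorem gglb_C {E : Type*} [NormedAddCommGroup E] {s : E → ℝ} {Z : Set E} {G : E → E}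
    (hpos : ∀ z ∈ Z, 0 < s z)
    (hsep : ∀ z ∈ Z, ∀ z' ∈ Z, z ≠ z' → 6 * max (s z) (s z') ≤ ‖z - z'‖) (g1 : E → E → E)
    {x z : E} (hz : z ∈ Z) (hx : x ∈ ball z (5 / 2 * s z)) :
    ∀ᶠ x' in 𝓝 x, glu s Z id g1 G x' = g1 z x' := by
  filter_upwards [isOpen_ball.mem_nhds hx] with x' hx'
  exact glu_eq hpos hsep hz hx'

/-- (C') -/
theorem gglb_C' {E : Type*} [NormedAddCommGroup E] {A B : E → E} {s : E → ℝ} {L ε r : ℝ}
    {Z : Set E} {H : E → E} (env : Env A B s L ε r)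
    (hpos : ∀ z ∈ Z, 0 < s z)
    (hsep : ∀ z ∈ Z, ∀ z' ∈ Z, z ≠ z' → 6 * max (s z) (s z') ≤ ‖z - z'‖) (k1 : E → E → E)
    {y z : E} (hz : z ∈ Z) (hy : y ∈ ball (0 : E) r) (hx : B y ∈ ball z (5 / 2 * s z)) :
    ∀ᶠ y' in 𝓝 y, glu s Z B k1 H y' = k1 z y' := by
  filter_upwards [(env.contB hy).preimage_mem_nhds (isOpen_ball.mem_nhds hx)] with y' hy'
  exact glu_eq hpos hsep hz hy'

theorem gglb_sub {E : Type*} [NormedAddCommGroup E] {z x : E} {t : ℝ} (a b : ℝ) (hab : a ≤ b)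
    (ht : 0 < t) (hx : x ∈ ball z (a * t)) : x ∈ ball z (b * t) :=
  ball_subset_ball (mul_le_mul_of_nonneg_right hab ht.le) hx

theorem gglue {E : Type*} [NormedAddCommGroup E] {f g : E → ℂ} {A B : E → E} {s : E → ℝ}
    {L ε r r2 τ ε1 ε2 Λ1 Λ2 : ℝ} {Dm Z : Set E} {G H : E → E} (env : Env A B s L ε r)
    (h8 : 8 * L ^ 2 * r2 ≤ r) (hτ : 0 < τ) (hτ1 : τ ≤ 1) (hε1 : 0 < ε1) (hε2 : 0 < ε2)
    (hsm : L * max ε1 (2 * ε2) + ε ≤ 1 / 10) (hD : ∀ x ∈ Dm, x ≠ 0 ∧ ‖x‖ < r2)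
    (hSt : St f g A B s r Dm ε1 Λ1 G H) (hZ : ∀ z ∈ Z, z ≠ 0 ∧ ‖z‖ < r2)
    (hsep : ∀ z ∈ Z, ∀ z' ∈ Z, z ≠ z' → 6 * max (s z) (s z') ≤ ‖z - z'‖) (g1 k1 : E → E → E)
    (hout : ∀ z ∈ Z, LocOut f g A B s r z Dm τ ε2 Λ2 G H (g1 z) (k1 z)) :
    ∃ G' H' : E → E, St f g A B s r (newD s Dm Z τ) (max ε1 (2 * ε2)) (max Λ1 Λ2) G' H' := by
  have hL := env.hL
  set ε' := max ε1 (2 * ε2) with hε'
  have hε'1 : ε1 ≤ ε' := le_max_left _ _
  have hε'2 : 2 * ε2 ≤ ε' := le_max_right _ _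
  have hε'0 : 0 < ε' := lt_of_lt_of_le hε1 hε'1
  have hLε : ε' ≤ L * ε' := by nlinarith
  have hε0 := env.hε
  have hε : ε ≤ 1 / 10 := by linarith
  have hpos : ∀ z ∈ Z, 0 < s z := fun z hz => (gglb_pos env h8 (hZ z hz).1 (hZ z hz).2).1
  have hdom : ∀ x ∈ newD s Dm Z τ, 0 < s x ∧ x ∈ ball (0 : E) r ∧ ‖x‖ < 2 * r2 :=
    fun x hx => gglb_dom env h8 hε hD hZ hx
  -- a case principle
  have hcase : ∀ x ∈ newD s Dm Z τ, (x ∈ Dm ∧ closedBall x (2 * τ * s x) ⊆ Dm) ∨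
      ∃ z ∈ Z, x ∈ ball z (2 * s z) := by
    rintro x (hx | hx)
    · exact Or.inl hx
    · simp only [mem_iUnion, exists_prop] at hx
      exact Or.inr hx
  have M : ∀ x, x ∈ Dm → closedBall x (2 * τ * s x) ⊆ Dm →
      ∀ᶠ x' in 𝓝 x, glu s Z id g1 G x' = G x' :=
    fun x hx hx2 => gglb_M env h8 hτ hτ1 hε hD hZ hsep g1 k1 hout hx hx2
  have M' : ∀ y, y ∈ ball (0 : E) r → B y ∈ Dm → closedBall (B y) (2 * τ * s (B y)) ⊆ Dm →
      ∀ᶠ y' in 𝓝 y, glu s Z B k1 H y' = H y' :=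
    fun y hy hx hx2 => gglb_M' env h8 hτ hτ1 hε hD hZ hsep g1 k1 hout hy hx hx2
  have C : ∀ z ∈ Z, ∀ x ∈ ball z (5 / 2 * s z), ∀ᶠ x' in 𝓝 x, glu s Z id g1 G x' = g1 z x' :=
    fun z hz x hx => gglb_C hpos hsep g1 hz hx
  have C' : ∀ z ∈ Z, ∀ y ∈ ball (0 : E) r, B y ∈ ball z (5 / 2 * s z) →
      ∀ᶠ y' in 𝓝 y, glu s Z B k1 H y' = k1 z y' :=
    fun z hz y hy hx => gglb_C' env hpos hsep k1 hz hy hx
  have T : ∀ z ∈ Z, ∀ u ∈ ball z (2 * s z), ∀ v ∈ ball (0 : E) r,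
      (‖v - u‖ ≤ s u / 10 ∨ ‖v - u‖ ≤ s v / 10) → v ∈ ball z (5 / 2 * s z) :=
    fun z hz u hu v hv h => gglb_T env h8 hε hZ hz hu hv h
  have hnear : ∀ z ∈ Z, ∀ x ∈ ball z (2 * s z), s z ≤ 2 * s x := by
    intro z hz x hx
    rw [mem_ball_iff_norm] at hx
    exact (env.near (a := 2) (x := x) h8 (hZ z hz).1 (hZ z hz).2 (by linarith) hx.le).2.2.2.2.1
  -- first half
  have h1 : ∀ x ∈ newD s Dm Z τ, f x = g (glu s Z id g1 G x) ∧
      ‖glu s Z id g1 G x - A x‖ ≤ ε' * s x := by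
    intro x hx
    have hsx := (hdom x hx).1
    rcases hcase x hx with ⟨hx1, hx2⟩ | ⟨z, hz, hxz⟩
    · rw [(M x hx1 hx2).self_of_nhds]
      exact ⟨hSt.s1 x hx1, (hSt.s1d x hx1).trans (mul_le_mul_of_nonneg_right hε'1 hsx.le)⟩
    · rw [(C z hz x (gglb_sub 2 (5 / 2) (by norm_num) (hpos z hz) hxz)).self_of_nhds]
      have hx3 := gglb_sub 2 3 (by norm_num) (hpos z hz) hxz
      refine ⟨(hout z hz).o1 x hx3, ((hout z hz).o1d x hx3).trans ?_⟩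
      have h2 := hnear z hz x hxz
      calc ε2 * s z ≤ ε2 * (2 * s x) := mul_le_mul_of_nonneg_left h2 hε2.le
        _ = (2 * ε2) * s x := by ring
        _ ≤ ε' * s x := mul_le_mul_of_nonneg_right hε'2 hsx.le
  have h2 : ∀ y ∈ ball (0 : E) r, B y ∈ newD s Dm Z τ → g y = f (glu s Z B k1 H y) ∧
      ‖glu s Z B k1 H y - B y‖ ≤ ε' * s (B y) := by
    intro y hy hx
    have hsx := (hdom _ hx).1
    rcases hcase _ hx with ⟨hx1, hx2⟩ | ⟨z, hz, hxz⟩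
    · rw [(M' y hy hx1 hx2).self_of_nhds]
      exact ⟨hSt.s2 y hy hx1, (hSt.s2d y hy hx1).trans (mul_le_mul_of_nonneg_right hε'1 hsx.le)⟩
    · rw [(C' z hz y hy (gglb_sub 2 (5 / 2) (by norm_num) (hpos z hz) hxz)).self_of_nhds]
      have hx3 := gglb_sub 2 3 (by norm_num) (hpos z hz) hxz
      refine ⟨(hout z hz).o2 y hy hx3, ((hout z hz).o2d y hy hx3).trans ?_⟩
      have h2 := hnear z hz _ hxz
      calc ε2 * s z ≤ ε2 * (2 * s (B y)) := mul_le_mul_of_nonneg_left h2 hε2.le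
        _ = (2 * ε2) * s (B y) := by ring
        _ ≤ ε' * s (B y) := mul_le_mul_of_nonneg_right hε'2 hsx.le
  -- the distances
  have hdist : ∀ x ∈ newD s Dm Z τ, glu s Z id g1 G x ∈ ball (0 : E) r ∧
      ‖B (glu s Z id g1 G x) - x‖ ≤ s x / 10 := by
    intro x hx
    obtain ⟨hsx, hxr, hx2⟩ := hdom x hx
    have hd := (h1 x hx).2
    set y := glu s Z id g1 G x with hy
    have hr2 : 0 < r2 := by linarith [norm_nonneg x]
    have hnA := env.nA hxr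
    have hA1 : L * ‖x‖ ≤ L * (2 * r2) := mul_le_mul_of_nonneg_left hx2.le (by linarith)
    have hLL : L ≤ L ^ 2 := by nlinarith
    have hLr : L * r2 ≤ L ^ 2 * r2 := mul_le_mul_of_nonneg_right hLL hr2.le
    have hLr0 : 0 < L * r2 := mul_pos (by linarith) hr2
    have hAr : A x ∈ ball (0 : E) r := by
      rw [mem_ball_zero_iff]
      nlinarith
    have hss := env.ssmall x hxr
    have hyn : ‖y‖ ≤ ‖y - A x‖ + ‖A x‖ := by
      calc ‖y‖ = ‖(y - A x) + A x‖ := by rw [sub_add_cancel]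
        _ ≤ _ := norm_add_le _ _
    have hyr : y ∈ ball (0 : E) r := by
      rw [mem_ball_zero_iff]
      have h3 : ε' * s x ≤ 1 * s x := mul_le_mul_of_nonneg_right (by linarith) hsx.le
      have h4 : ε * ‖x‖ ≤ 1 * ‖x‖ := mul_le_mul_of_nonneg_right (by linarith) (norm_nonneg x)
      have h5 : 1 * ‖x‖ ≤ L * ‖x‖ := mul_le_mul_of_nonneg_right hL (norm_nonneg x)
      nlinarith
    refine ⟨hyr, ?_⟩
    have h3 := env.lipB y hyr (A x) hAr
    have h4 := env.BA x hxr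
    have h5 : ‖B y - x‖ ≤ ‖B y - B (A x)‖ + ‖B (A x) - x‖ := by
      calc ‖B y - x‖ = ‖(B y - B (A x)) + (B (A x) - x)‖ := by rw [sub_add_sub_cancel]
        _ ≤ _ := norm_add_le _ _
    have h6 : L * ‖y - A x‖ ≤ L * (ε' * s x) := mul_le_mul_of_nonneg_left hd (by linarith)
    have h7 : (L * ε' + ε) * s x ≤ 1 / 10 * s x := mul_le_mul_of_nonneg_right hsm hsx.le
    nlinarith
  refine ⟨glu s Z id g1 G, glu s Z B k1 H, ?_⟩
  exact
    { s1 := fun x hx => (h1 x hx).1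
      s1d := fun x hx => (h1 x hx).2
      s1l := by
        intro x hx
        rcases hcase x hx with ⟨hx1, hx2⟩ | ⟨z, hz, hxz⟩
        · have h3 := M x hx1 hx2
          rw [h3.self_of_nhds]
          filter_upwards [h3, hSt.s1l x hx1] with x' h4 h5
          rw [h4]
          exact h5.trans (mul_le_mul_of_nonneg_right (le_max_left _ _) (norm_nonneg _))
        · have h3 := C z hz x (gglb_sub 2 (5 / 2) (by norm_num) (hpos z hz) hxz)
          rw [h3.self_of_nhds]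
          filter_upwards [h3, (hout z hz).o1l x] with x' h4 h5
          rw [h4]
          exact h5.trans (mul_le_mul_of_nonneg_right (le_max_right _ _) (norm_nonneg _))
      s2 := fun y hy hx => (h2 y hy hx).1
      s2d := fun y hy hx => (h2 y hy hx).2
      s2l := by
        intro y hy hx
        rcases hcase _ hx with ⟨hx1, hx2⟩ | ⟨z, hz, hxz⟩
        · have h3 := M' y hy hx1 hx2
          rw [h3.self_of_nhds]
          filter_upwards [h3, hSt.s2l y hy hx1] with x' h4 h5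
          rw [h4]
          exact h5.trans (mul_le_mul_of_nonneg_right (le_max_left _ _) (norm_nonneg _))
        · have h3 := C' z hz y hy (gglb_sub 2 (5 / 2) (by norm_num) (hpos z hz) hxz)
          rw [h3.self_of_nhds]
          filter_upwards [h3, (hout z hz).o2l y] with x' h4 h5
          rw [h4]
          exact h5.trans (mul_le_mul_of_nonneg_right (le_max_right _ _) (norm_nonneg _))
      s3 := by
        intro x hx hBy
        obtain ⟨hyr, hd⟩ := hdist x hx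
        have hxr := (hdom x hx).2.1
        have hByr := (hdom _ hBy).2.1
        have key : ∀ z ∈ Z, x ∈ ball z (5 / 2 * s z) →
            B (glu s Z id g1 G x) ∈ ball z (5 / 2 * s z) →
            glu s Z B k1 H (glu s Z id g1 G x) = x := by
          intro z hz h3 h4
          rw [(C' z hz _ hyr h4).self_of_nhds, (C z hz x h3).self_of_nhds]
          exact (hout z hz).o3 x
        rcases hcase x hx with ⟨hx1, hx2⟩ | ⟨z, hz, hxz⟩
        · rcases hcase _ hBy with ⟨hx3, hx4⟩ | ⟨z, hz, hxz⟩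
          · rw [(M' _ hyr hx3 hx4).self_of_nhds]
            have h3 := (M x hx1 hx2).self_of_nhds
            rw [h3] at hx3 ⊢
            exact hSt.s3 x hx1 hx3
          · refine key z hz (T z hz _ hxz x hxr (Or.inr ?_))
              (gglb_sub 2 (5 / 2) (by norm_num) (hpos z hz) hxz)
            rw [norm_sub_rev]
            exact hd
        · exact key z hz (gglb_sub 2 (5 / 2) (by norm_num) (hpos z hz) hxz)
            (T z hz x hxz _ hByr (Or.inl hd))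
      s3' := by
        intro y hy hBy hxD
        have hd := (h2 y hy hBy).2
        obtain ⟨hsB, hByr, -⟩ := hdom _ hBy
        have hxr := (hdom _ hxD).2.1
        have hd' : ‖glu s Z B k1 H y - B y‖ ≤ s (B y) / 10 := by
          have h3 : ε' * s (B y) ≤ 1 / 10 * s (B y) :=
            mul_le_mul_of_nonneg_right (by linarith) hsB.le
          linarith
        have key : ∀ z ∈ Z, glu s Z B k1 H y ∈ ball z (5 / 2 * s z) →
            B y ∈ ball z (5 / 2 * s z) →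
            glu s Z id g1 G (glu s Z B k1 H y) = y := by
          intro z hz h3 h4
          rw [(C z hz _ h3).self_of_nhds, (C' z hz _ hy h4).self_of_nhds]
          exact (hout z hz).o3' y
        rcases hcase _ hBy with ⟨hx1, hx2⟩ | ⟨z, hz, hxz⟩
        · rcases hcase _ hxD with ⟨hx3, hx4⟩ | ⟨z, hz, hxz⟩
          · rw [(M _ hx3 hx4).self_of_nhds]
            have h3 := (M' y hy hx1 hx2).self_of_nhds
            rw [h3] at hx3 ⊢
            exact hSt.s3' y hy hx1 hx3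
          · refine key z hz (gglb_sub 2 (5 / 2) (by norm_num) (hpos z hz) hxz)
              (T z hz _ hxz _ hByr (Or.inr ?_))
            rw [norm_sub_rev]
            exact hd'
        · exact key z hz (T z hz _ hxz _ hxr (Or.inl hd'))
            (gglb_sub 2 (5 / 2) (by norm_num) (hpos z hz) hxz) }

end H80.LD
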