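import Pool.Agent.H80.LD.GLocB
import Pool.Agent.H80.LD.GGlB

/-!
# GInd (project MP_816883_LD, blocks 8-9): induction over the colours

* `gstep`: `gloc` gives `Λ', c', e0'` (for `L, C, R, τ, Λ, c`). New constants `Λ'' = max Λ Λ'`, `c'' = max c (2 c')`, `e0 = min e0' (1 / (10 (L c'' + 1)))`. For every `z ∈ Z` choose the local data and
  `g1 z, k1 z` (`choose`; outside `Z` put anything, e.g. use `Classical.choice`/`if`); `gglue` with `ε1 = c ε`, `ε2 = c' ε`, `max (c ε) (2 (c' ε)) = c'' ε`.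
* `ginduct`: `τ = 1/(4 M)`. `j = 0`: the set is empty, `St` is trivial (`Λ = c = e0 = 1`, `G = H = id`). Step `j → j+1 ≤ M`: `a_j = 2 - j/M ≤ 2`. `Dm = domJ s Z (2 - j/M) j` is open (union of balls);
  for `x ∈ Dm`, `x ∈ ball z (2 s z)`, `‖z‖ < r2/2`, `z ≠ 0`: `x ≠ 0`, `‖x‖ < ‖z‖ + 2 ε ‖z‖ ≤ r2` (`ε ≤ 1/10`). `gstep` with `Z j` and `τ`. Finally
  `domJ s Z (2 - (j+1)/M) (j+1) ⊆ newD s Dm (Z j) τ` and `St.mono`: let `x ∈ ball z (a_{j+1} s z)`, `z ∈ Z i`, `i ≤ j`. If `i = j`: `x ∈ ball z (2 s z)`.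
  If `i < j`: `s x ≤ 2 s z` (`Env.near`, `a = 2`), `2 τ s x ≤ 4 τ s z = s z / M`, so `closedBall x (2 τ s x) ⊆ ball z (a_j s z) ⊆ Dm`. `e0 = min (e0 of gstep) (e0 of j) (1/10)`.
-/

open Filter Topology Metric Set

namespace H80.LD

theorem gstep {E : Type*} [NormedAddCommGroup E] {D : Type} [Fintype D] (hExt : ExtStmt D)
    (L C R τ Λ c : ℝ) (hL : 1 ≤ L) (hC : 1 ≤ C) (hR : R = L * (C * (4 * C + 1)) + 2) (hτ : 0 < τ)
    (hτ1 : τ ≤ 1) (hΛ : 1 ≤ Λ) (hc : 1 ≤ c) :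
    ∃ Λ' c' e0 : ℝ, 1 ≤ Λ' ∧ 1 ≤ c' ∧ 0 < e0 ∧ ∀ ε : ℝ, ε ≤ e0 →
      ∀ (f g : E → ℂ) (A B : E → E) (s : E → ℝ) (r r2 : ℝ), Env A B s L ε r →
      8 * L ^ 2 * r2 ≤ r → (∀ z : E, z ≠ 0 → ‖z‖ < r2 →
        ∃ (h h' : E → E) (Ψ : E → ℂ × (D → ℝ)) (Ψ' : ℂ × (D → ℝ) → E),
          Loc f g A B s L C R ε z h h' Ψ Ψ') → ∀ Dm : Set E, IsOpen Dm →
      (∀ x ∈ Dm, x ≠ 0 ∧ ‖x‖ < r2) → ∀ G H : E → E, St f g A B s r Dm (c * ε) Λ G H →
      ∀ Z : Set E, (∀ z ∈ Z, z ≠ 0 ∧ ‖z‖ < r2) →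
      (∀ z ∈ Z, ∀ z' ∈ Z, z ≠ z' → 6 * max (s z) (s z') ≤ ‖z - z'‖) →
      ∃ G' H' : E → E, St f g A B s r (newD s Dm Z τ) (c' * ε) Λ' G' H' := by
  obtain ⟨Λ1, c1, e1, hΛ1, hc1, he1, key⟩ := gloc (E := E) hExt L C R τ Λ c hL hC hR hτ hτ1 hΛ hc
  have hcc : 1 ≤ max c (2 * c1) := hc.trans (le_max_left _ _)
  have hpos : 0 < 10 * (L * max c (2 * c1) + 1) := by
    have h1 : 0 ≤ L * max c (2 * c1) := mul_nonneg (by linarith) (by linarith)
    linarith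
  refine ⟨max Λ Λ1, max c (2 * c1), min e1 (1 / (10 * (L * max c (2 * c1) + 1))),
    hΛ.trans (le_max_left _ _), hcc, lt_min he1 (one_div_pos.2 hpos), ?_⟩
  intro ε hε f g A B s r r2 env h8 hloc Dm hDo hD G H hSt Z hZ hsep
  have hε0 := env.hε
  have hεe1 : ε ≤ e1 := hε.trans (min_le_left _ _)
  have hε2 : ε ≤ 1 / (10 * (L * max c (2 * c1) + 1)) := hε.trans (min_le_right _ _)
  have hout : ∀ z : E, ∃ g1 k1 : E → E, z ∈ Z →
      LocOut f g A B s r z Dm τ (c1 * ε) Λ1 G H g1 k1 := by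
    intro z
    by_cases hz : z ∈ Z
    · obtain ⟨hz0, hz2⟩ := hZ z hz
      obtain ⟨h, h', Ψ, Ψ', hl⟩ := hloc z hz0 hz2
      obtain ⟨g1, k1, h1⟩ := key ε hεe1 f g A B s r r2 env h8 z hz0 hz2 h h' Ψ Ψ' hl Dm hDo hD
        G H hSt
      exact ⟨g1, k1, fun _ => h1⟩
    · exact ⟨id, id, fun h => absurd h hz⟩
  choose g1 k1 hgk using hout
  have hmax : max (c * ε) (2 * (c1 * ε)) = max c (2 * c1) * ε := by
    rw [max_mul_of_nonneg _ _ hε0.le, mul_assoc]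
  have hsm : L * max (c * ε) (2 * (c1 * ε)) + ε ≤ 1 / 10 := by
    rw [hmax]
    have h1 : (10 * (L * max c (2 * c1) + 1)) * ε ≤ 1 := by
      have h2 := mul_le_mul_of_nonneg_left hε2 hpos.le
      rwa [mul_one_div_cancel hpos.ne'] at h2
    have h3 : (10 * (L * max c (2 * c1) + 1)) * ε = 10 * (L * (max c (2 * c1) * ε) + ε) := by ring
    rw [h3] at h1
    linarith
  obtain ⟨G', H', h1⟩ := gglue env h8 hτ hτ1 (mul_pos (by linarith) hε0)
    (mul_pos (by linarith) hε0) hsm hD hSt hZ hsep g1 k1 (fun z hz => hgk z hz)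
  rw [hmax] at h1
  exact ⟨G', H', h1⟩

theorem ginduct {E : Type*} [NormedAddCommGroup E] {D : Type} [Fintype D] (hExt : ExtStmt D)
    (L C R : ℝ) (hL : 1 ≤ L) (hC : 1 ≤ C) (hR : R = L * (C * (4 * C + 1)) + 2) (M : ℕ)
    (hM : 0 < M) (j : ℕ) (hj : j ≤ M) :
    ∃ Λ c e0 : ℝ, 1 ≤ Λ ∧ 1 ≤ c ∧ 0 < e0 ∧ ∀ ε : ℝ, ε ≤ e0 →
      ∀ (f g : E → ℂ) (A B : E → E) (s : E → ℝ) (r r2 : ℝ) (Z : ℕ → Set E),
      Sys D f g A B s L C R ε r r2 Z →
      ∃ G H : E → E, St f g A B s r (domJ s Z (2 - (j : ℝ) / (M : ℝ)) j) (c * ε) Λ G H := by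
  induction j with
  | zero =>
    refine ⟨1, 1, 1, le_rfl, le_rfl, one_pos, ?_⟩
    intro ε _ f g A B s r r2 Z _
    have hno : ∀ x, x ∉ domJ s Z (2 - ((0 : ℕ) : ℝ) / (M : ℝ)) 0 := by
      rintro x ⟨i, hi, -⟩
      omega
    exact ⟨id, id,
      { s1 := fun x hx => absurd hx (hno x)
        s1d := fun x hx => absurd hx (hno x)
        s1l := fun x hx => absurd hx (hno x)
        s2 := fun y _ hx => absurd hx (hno _)
        s2d := fun y _ hx => absurd hx (hno _)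
        s2l := fun y _ hx => absurd hx (hno _)
        s3 := fun x hx => absurd hx (hno x)
        s3' := fun y _ hx => absurd hx (hno _) }⟩
  | succ j ih =>
    obtain ⟨Λ, c, e0, hΛ, hc, he0, key⟩ := ih (by omega)
    have hMr : (0 : ℝ) < (M : ℝ) := by exact_mod_cast hM
    have hM1 : (1 : ℝ) ≤ (M : ℝ) := by exact_mod_cast hM
    have hτ : (0 : ℝ) < 1 / (4 * (M : ℝ)) := by positivity
    have hτ1 : 1 / (4 * (M : ℝ)) ≤ 1 := by
      rw [div_le_one (by positivity)]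
      linarith
    obtain ⟨Λ1, c1, e1, hΛ1, hc1, he1, key1⟩ := gstep (E := E) hExt L C R (1 / (4 * (M : ℝ))) Λ c
      hL hC hR hτ hτ1 hΛ hc
    refine ⟨Λ1, c1, min (min e0 e1) (1 / 10), hΛ1, hc1,
      lt_min (lt_min he0 he1) (by norm_num), ?_⟩
    intro ε hε f g A B s r r2 Z sys
    have hεe0 : ε ≤ e0 := hε.trans ((min_le_left _ _).trans (min_le_left _ _))
    have hεe1 : ε ≤ e1 := hε.trans ((min_le_left _ _).trans (min_le_right _ _))
    have hε10 : ε ≤ 1 / 10 := hε.trans (min_le_right _ _)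
    have hr2 := sys.hr2
    obtain ⟨G, H, hSt⟩ := key ε hεe0 f g A B s r r2 Z sys
    have ha0 : 0 ≤ (j : ℝ) / (M : ℝ) := by positivity
    have hstep : ((j + 1 : ℕ) : ℝ) / (M : ℝ) = (j : ℝ) / (M : ℝ) + 1 / (M : ℝ) := by
      push_cast
      ring
    have hstep0 : 0 < 1 / (M : ℝ) := by positivity
    -- a point in one of the balls
    have hnear : ∀ i, ∀ z ∈ Z i, ∀ x, dist x z < 2 * s z → x ≠ 0 ∧ ‖x‖ < 2 * r2 ∧
        x ∈ ball (0 : E) r ∧ s x ≤ 2 * s z ∧ s z ≤ 2 * s x ∧ 0 < s x ∧ 0 < s z ∧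
        z ∈ ball (0 : E) r := by
      intro i z hz x hx
      obtain ⟨hz0, hz2⟩ := sys.cen i z hz
      rw [dist_eq_norm] at hx
      exact sys.env.near sys.h8 hz0 (by linarith) (a := 2) (by linarith) hx.le
    have hspos : ∀ i, ∀ z ∈ Z i, 0 < s z := by
      intro i z hz
      obtain ⟨hz0, hz2⟩ := sys.cen i z hz
      have h1 := norm_pos_iff.2 hz0
      have hL2 : 1 ≤ L ^ 2 := by nlinarith
      refine sys.env.spos z ?_ hz0
      rw [mem_ball_zero_iff]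
      have := sys.h8
      nlinarith
    have hDo : IsOpen (domJ s Z (2 - (j : ℝ) / (M : ℝ)) j) := by
      rw [isOpen_iff_mem_nhds]
      rintro x ⟨i, hi, z, hz, hx⟩
      exact Filter.mem_of_superset (isOpen_ball.mem_nhds hx) fun y hy => ⟨i, hi, z, hz, hy⟩
    have hD : ∀ x ∈ domJ s Z (2 - (j : ℝ) / (M : ℝ)) j, x ≠ 0 ∧ ‖x‖ < r2 := by
      rintro x ⟨i, hi, z, hz, hx⟩
      obtain ⟨hz0, hz2⟩ := sys.cen i z hz
      have hs := hspos i z hz
      rw [mem_ball] at hx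
      have h1 : dist x z < 2 * s z := by
        refine hx.trans_le (mul_le_mul_of_nonneg_right (by linarith) hs.le)
      obtain ⟨h2, -, -, -, -, -, -, h3⟩ := hnear i z hz x h1
      refine ⟨h2, ?_⟩
      rw [dist_eq_norm] at h1
      have h4 := sys.env.ssmall z h3
      have h5 : ‖x‖ ≤ ‖x - z‖ + ‖z‖ := by
        calc ‖x‖ = ‖(x - z) + z‖ := by rw [sub_add_cancel]
          _ ≤ _ := norm_add_le _ _
      have h6 : ε * ‖z‖ ≤ 1 / 10 * ‖z‖ := mul_le_mul_of_nonneg_right hε10 (norm_nonneg _)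
      have h7 := norm_nonneg z
      linarith
    obtain ⟨G', H', hSt'⟩ := key1 ε hεe1 f g A B s r r2 sys.env sys.h8 sys.loc
      (domJ s Z (2 - (j : ℝ) / (M : ℝ)) j) hDo hD G H hSt (Z j)
      (fun z hz => ⟨(sys.cen j z hz).1, by linarith [(sys.cen j z hz).2]⟩) (sys.sep j)
    refine ⟨G', H', hSt'.mono ?_⟩
    rintro x ⟨i, hi, z, hz, hx⟩
    have hs := hspos i z hz
    rw [mem_ball, hstep] at hx
    have h1 : dist x z < 2 * s z := by
      refine hx.trans_le (mul_le_mul_of_nonneg_right (by linarith) hs.le)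
    rcases Nat.lt_succ_iff_lt_or_eq.1 hi with h2 | h2
    · left
      obtain ⟨-, -, -, h3, -, h4, -, -⟩ := hnear i z hz x h1
      constructor
      · refine ⟨i, h2, z, hz, ?_⟩
        rw [mem_ball]
        refine hx.trans_le (mul_le_mul_of_nonneg_right (by linarith) hs.le)
      · intro y hy
        rw [mem_closedBall] at hy
        refine ⟨i, h2, z, hz, ?_⟩
        rw [mem_ball]
        have h5 : 2 * (1 / (4 * (M : ℝ))) * s x ≤ 1 / (M : ℝ) * s z := by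
          have e : 2 * (1 / (4 * (M : ℝ))) * s x = 1 / (M : ℝ) * (s x / 2) := by
            field_simp
            ring
          rw [e]
          exact mul_le_mul_of_nonneg_left (by linarith) hstep0.le
        calc dist y z ≤ dist y x + dist x z := dist_triangle _ _ _
          _ < 1 / (M : ℝ) * s z + (2 - ((j : ℝ) / (M : ℝ) + 1 / (M : ℝ))) * s z :=
              add_lt_add_of_le_of_lt (hy.trans h5) hx
          _ = (2 - (j : ℝ) / (M : ℝ)) * s z := by ring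
    · right
      subst h2
      exact Set.mem_biUnion hz (by rw [mem_ball]; exact h1)

end H80.LD
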