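import Pool.Agent.H80.LD.GEnv

/-!
# GLocA (project MP_816883_LD, blocks 8-9): the near-identity pair in a chart

Write `ρ = s z`, `R1 = 4 C + 1`, `a = C R1`, `R = L a + 2` (so `a + 2 ≤ R`, `5 ≤ a`), `x = Ψ' p`. All points below are in `ball 0 r` by `Env.near` with `a := R`
(points of `ball z (R ρ)`: `‖x‖ < 2 r2`, `s x ≤ 2 ρ`), `Env.nA`, `Env.nB1`: for `x ∈ ball z (R ρ)`: `‖A x‖ ≤ 2 L r2`, `‖h x‖ ≤ 3 L r2 < r`
(`‖h x - A x‖ ≤ ε ρ ≤ r2`), for `x ∈ Dm`: `‖G x‖ ≤ L r2 + c ε s x ≤ 2 L r2 < r`.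
* `‖p‖ < R1` gives `‖x - z‖ = ‖Ψ' p - Ψ' (Ψ z)‖ ≤ C ρ ‖p‖ < a ρ` (`c0`, `cinv`). So `x ∈ ball z (R ρ)`, `h x ∈ ball (A z) (R ρ)`:
  `‖h x - A z‖ ≤ ε ρ + L a ρ`.
* if moreover `x ∈ Dm`: `‖G x - A x‖ ≤ c ε s x ≤ 2 c ε ρ`, so `‖G x - A z‖ ≤ (1 + L a) ρ`, `G x ∈ ball (A z) (R ρ)`, and
  `‖h' (G x) - x‖ = ‖h' (G x) - h' (h x)‖ ≤ 4 L (‖G x - A x‖ + ‖h x - A x‖) ≤ 4 L (2 c + 1) ε ρ ≤ ρ`; so `h' (G x) ∈ ball z (R ρ)` and `f (h' (G x)) = g (G x) = f x`,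
  hence by `c1`, `cinv'`: `(Ψ (h' (G x))).1 = (Ψ x).1 = p.1`. This is `pres` for `eMap`; `disp`: `‖Ψ (h' (G x)) - Ψ x‖ ≤ (C/ρ) 4 L (2 c + 1) ε ρ`.
* if `‖p‖ < R1` and `B y ∈ Dm`, `y = h x` (`y ∈ ball 0 r`, `h' y = x`): `‖x - B y‖ = ‖h' y - B y‖ ≤ ε ρ` (`ghB`), so `‖B y - z‖ ≤ (a + 1) ρ`, `s (B y) ≤ 2 ρ`;
  `‖H y - x‖ ≤ ‖H y - B y‖ + ‖B y - x‖ ≤ (2 c + 1) ε ρ ≤ ρ`, `H y ∈ ball z (R ρ)`, `f (H y) = g y = g (h x) = f x`: `pres'`, `disp'`.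
* `lip` at `p ∈ eU`: for `q` near `p`: `‖q‖ < R1`, `Ψ' q ∈ Dm` (open, `Ψ'` continuous), so `eMap q = Ψ (h' (G (Ψ' q)))`, and by `s1l` at `x` (pulled back by `Ψ'`):
  `‖eMap q - eMap p‖ ≤ (C/ρ) (4 L) Λ (C ρ) ‖q - p‖`. `lip'` the same with `B (h (Ψ' q)) ∈ Dm` (`Env.contB` at `h x`) and `s2l` at `h x`.
* `inv`: `p ∈ eU`, `eMap p ∈ eU`: `x ∈ Dm`, `Ψ' (eMap p) = h' (G x)`, `h (h' (G x)) = G x`, so `B (G x) ∈ Dm`; `eMap' (eMap p) = Ψ (H (G x)) = Ψ x = p` by `s3`.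
* `inv'`: `y = h x`, `B y ∈ Dm`, `Ψ' (eMap' p) = H y ∈ Dm`; `eMap (eMap' p) = Ψ (h' (G (H y))) = Ψ (h' y) = Ψ x = p` by `s3'`.
-/

open Filter Topology Metric Set

namespace H80.LD

variable {E : Type*} [NormedAddCommGroup E] {D : Type*} [Fintype D]

open scoped Classical in
noncomputable def eMap (R1 : ℝ) (Dm : Set E) (G h' : E → E) (Ψ : E → ℂ × (D → ℝ))
    (Ψ' : ℂ × (D → ℝ) → E) (p : ℂ × (D → ℝ)) : ℂ × (D → ℝ) :=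
  if ‖p‖ < R1 ∧ Ψ' p ∈ Dm then Ψ (h' (G (Ψ' p))) else p

open scoped Classical in
noncomputable def eMap' (R1 : ℝ) (Dm : Set E) (B H h : E → E) (Ψ : E → ℂ × (D → ℝ))
    (Ψ' : ℂ × (D → ℝ) → E) (p : ℂ × (D → ℝ)) : ℂ × (D → ℝ) :=
  if ‖p‖ < R1 ∧ B (h (Ψ' p)) ∈ Dm then Ψ (H (h (Ψ' p))) else p

def eU (R1 : ℝ) (Dm : Set E) (B h : E → E) (Ψ' : ℂ × (D → ℝ) → E) : Set (ℂ × (D → ℝ)) :=
  {p | ‖p‖ < R1 ∧ Ψ' p ∈ Dm ∧ B (h (Ψ' p)) ∈ Dm}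

theorem gloca_num {L C R ε : ℝ} (hL : 1 ≤ L) (hε : 0 < ε) (hC : 1 ≤ C)
    (hR : R = L * (C * (4 * C + 1)) + 2) (hRε : R * ε ≤ 1 / 2) :
    5 ≤ C * (4 * C + 1) ∧ C * (4 * C + 1) ≤ L * (C * (4 * C + 1)) ∧
      C * (4 * C + 1) + 2 ≤ R ∧ ε ≤ 1 / 14 := by
  have h1 : 5 ≤ C * (4 * C + 1) := by nlinarith
  have h2 : C * (4 * C + 1) ≤ L * (C * (4 * C + 1)) := by nlinarith
  have h3 : C * (4 * C + 1) + 2 ≤ R := by linarith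
  refine ⟨h1, h2, h3, ?_⟩
  have h4 : 7 * ε ≤ R * ε := mul_le_mul_of_nonneg_right (by linarith) hε.le
  linarith

theorem gloca_x {f g : E → ℂ} {A B : E → E} {s : E → ℝ} {L C R ε r r2 : ℝ} {z : E}
    {h h' : E → E} {Ψ : E → ℂ × (D → ℝ)} {Ψ' : ℂ × (D → ℝ) → E}
    (env : Env A B s L ε r) (h8 : 8 * L ^ 2 * r2 ≤ r) (hz : z ≠ 0) (hz2 : ‖z‖ < r2)
    (loc : Loc f g A B s L C R ε z h h' Ψ Ψ') (hC : 1 ≤ C)
    (hR : R = L * (C * (4 * C + 1)) + 2) (hRε : R * ε ≤ 1 / 2)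
    {p : ℂ × (D → ℝ)} (hp : ‖p‖ < 4 * C + 1) :
    0 < s z ∧ ‖Ψ' p - z‖ < C * (4 * C + 1) * s z ∧ Ψ' p ∈ ball z (R * s z) ∧
      Ψ' p ∈ ball (0 : E) r ∧ s (Ψ' p) ≤ 2 * s z ∧ ‖Ψ' p‖ < 2 * r2 ∧
      h (Ψ' p) ∈ ball (A z) (R * s z) ∧ h (Ψ' p) ∈ ball (0 : E) r ∧
      ‖h (Ψ' p) - A (Ψ' p)‖ ≤ ε * s z ∧ ‖A (Ψ' p) - A z‖ ≤ L * (C * (4 * C + 1)) * s z ∧
      s z ≤ r2 := by
  have hL := env.hL
  have hε := env.hε
  obtain ⟨n1, n2, n3, n4⟩ := gloca_num hL hε hC hR hRε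
  have hz0 : 0 < ‖z‖ := norm_pos_iff.2 hz
  have hr2 : 0 < r2 := hz0.trans hz2
  have hL2 : 1 ≤ L ^ 2 := by nlinarith
  have hLL : L ≤ L ^ 2 := by nlinarith
  have hr8 : 8 * r2 ≤ r := by nlinarith
  have hr8L : 8 * (L * r2) ≤ r := by
    have : L * r2 ≤ L ^ 2 * r2 := mul_le_mul_of_nonneg_right hLL hr2.le
    linarith
  have hzr : z ∈ ball (0 : E) r := by
    rw [mem_ball_zero_iff]; linarith
  have hs : 0 < s z := env.spos z hzr hz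
  have hsr : s z ≤ r2 := by
    have h1 := env.ssmall z hzr
    have h2 : ε * ‖z‖ ≤ 1 * r2 := mul_le_mul (by linarith) hz2.le hz0.le zero_le_one
    linarith
  have hP0 : Ψ' 0 = z := by rw [← loc.c0, loc.cinv]
  have h1 : ‖Ψ' p - z‖ ≤ C * s z * ‖p‖ := by
    have := loc.clip' p 0
    rwa [hP0, sub_zero] at this
  have hCs : 0 < C * s z := mul_pos (by linarith) hs
  have h2 : ‖Ψ' p - z‖ < C * (4 * C + 1) * s z := by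
    refine lt_of_le_of_lt h1 ?_
    calc C * s z * ‖p‖ < C * s z * (4 * C + 1) := mul_lt_mul_of_pos_left hp hCs
      _ = C * (4 * C + 1) * s z := by ring
  have hRs : C * (4 * C + 1) * s z + 2 * s z ≤ R * s z := by
    have := mul_le_mul_of_nonneg_right n3 hs.le
    linarith
  have h3 : Ψ' p ∈ ball z (R * s z) := by
    rw [mem_ball_iff_norm]
    linarith
  obtain ⟨m1, m2, m3, m4, m5, m6, -, -⟩ := env.near h8 hz hz2 hRε (x := Ψ' p)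
    (mem_ball_iff_norm.1 h3).le
  have h4 := loc.fhA _ h3
  have h5 : ‖A (Ψ' p) - A z‖ ≤ L * (C * (4 * C + 1)) * s z := by
    refine (env.lipA _ m3 _ hzr).trans ?_
    calc L * ‖Ψ' p - z‖ ≤ L * (C * (4 * C + 1) * s z) :=
          mul_le_mul_of_nonneg_left h2.le (by linarith)
      _ = _ := by ring
  have h6 : ε * s z ≤ s z := by
    have := mul_le_mul_of_nonneg_right (show ε ≤ 1 by linarith) hs.le
    linarith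
  refine ⟨hs, h2, h3, m3, m4, m2, ?_, ?_, h4, h5, hsr⟩
  · rw [mem_ball_iff_norm]
    have h7 : ‖h (Ψ' p) - A z‖ ≤ ‖h (Ψ' p) - A (Ψ' p)‖ + ‖A (Ψ' p) - A z‖ := by
      calc ‖h (Ψ' p) - A z‖ = ‖(h (Ψ' p) - A (Ψ' p)) + (A (Ψ' p) - A z)‖ := by
            rw [sub_add_sub_cancel]
        _ ≤ _ := norm_add_le _ _
    have h8 : R * s z = L * (C * (4 * C + 1)) * s z + 2 * s z := by rw [hR]; ring
    linarith
  · rw [mem_ball_zero_iff]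
    have h7 : ‖h (Ψ' p)‖ ≤ ‖h (Ψ' p) - A (Ψ' p)‖ + ‖A (Ψ' p)‖ := by
      calc ‖h (Ψ' p)‖ = ‖(h (Ψ' p) - A (Ψ' p)) + A (Ψ' p)‖ := by rw [sub_add_cancel]
        _ ≤ _ := norm_add_le _ _
    have h9 := env.nA m3
    have h10 : L * ‖Ψ' p‖ ≤ L * (2 * r2) := mul_le_mul_of_nonneg_left m2.le (by linarith)
    have h11 : r2 ≤ L * r2 := by nlinarith
    linarith

theorem gloca_G {f g : E → ℂ} {A B : E → E} {s : E → ℝ} {L C R ε r r2 c Λ : ℝ} {z : E}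
    {h h' : E → E} {Ψ : E → ℂ × (D → ℝ)} {Ψ' : ℂ × (D → ℝ) → E} {Dm : Set E} {G H : E → E}
    (env : Env A B s L ε r) (h8 : 8 * L ^ 2 * r2 ≤ r) (hz : z ≠ 0) (hz2 : ‖z‖ < r2)
    (loc : Loc f g A B s L C R ε z h h' Ψ Ψ') (hC : 1 ≤ C) (hc : 1 ≤ c)
    (hR : R = L * (C * (4 * C + 1)) + 2) (hRε : R * ε ≤ 1 / 2) (hcε : 12 * L * c * ε ≤ 1)
    (hSt : St f g A B s r Dm (c * ε) Λ G H)
    {p : ℂ × (D → ℝ)} (hp : ‖p‖ < 4 * C + 1) (hx : Ψ' p ∈ Dm) :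
    ‖h' (G (Ψ' p)) - Ψ' p‖ ≤ 4 * L * (2 * c + 1) * ε * s z ∧
      (Ψ (h' (G (Ψ' p)))).1 = p.1 := by
  have hL := env.hL
  have hε := env.hε
  obtain ⟨n1, n2, n3, n4⟩ := gloca_num hL hε hC hR hRε
  obtain ⟨hs, k1, k2, k3, k4, k5, k6, k7, k8, k9, k10⟩ :=
    gloca_x env h8 hz hz2 loc hC hR hRε hp
  have hcε2 : 0 < c * ε := mul_pos (by linarith) hε
  have h12 : 12 * (c * ε) ≤ 1 := by
    have h1 : 1 * (12 * (c * ε)) ≤ L * (12 * (c * ε)) :=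
      mul_le_mul_of_nonneg_right hL (by positivity)
    have h2 : L * (12 * (c * ε)) = 12 * L * c * ε := by ring
    linarith
  have h1 : ‖G (Ψ' p) - A (Ψ' p)‖ ≤ 2 * (c * ε) * s z := by
    refine (hSt.s1d _ hx).trans ?_
    calc c * ε * s (Ψ' p) ≤ c * ε * (2 * s z) := mul_le_mul_of_nonneg_left k4 hcε2.le
      _ = _ := by ring
  have h1' : 2 * (c * ε) * s z ≤ s z := by
    have := mul_le_mul_of_nonneg_right (show 2 * (c * ε) ≤ 1 by linarith) hs.le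
    linarith
  have h2 : G (Ψ' p) ∈ ball (A z) (R * s z) := by
    rw [mem_ball_iff_norm]
    have h7 : ‖G (Ψ' p) - A z‖ ≤ ‖G (Ψ' p) - A (Ψ' p)‖ + ‖A (Ψ' p) - A z‖ := by
      calc ‖G (Ψ' p) - A z‖ = ‖(G (Ψ' p) - A (Ψ' p)) + (A (Ψ' p) - A z)‖ := by
            rw [sub_add_sub_cancel]
        _ ≤ _ := norm_add_le _ _
    have h8 : R * s z = L * (C * (4 * C + 1)) * s z + 2 * s z := by rw [hR]; ring
    linarith
  have h3 : ‖h' (G (Ψ' p)) - Ψ' p‖ ≤ 4 * L * (2 * c + 1) * ε * s z := by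
    have e1 : h' (G (Ψ' p)) - Ψ' p = h' (G (Ψ' p)) - h' (h (Ψ' p)) := by rw [loc.inv]
    rw [e1]
    refine (loc.hlip' _ _).trans ?_
    have e2 : ‖G (Ψ' p) - h (Ψ' p)‖ ≤ 2 * (c * ε) * s z + ε * s z := by
      calc ‖G (Ψ' p) - h (Ψ' p)‖ =
            ‖(G (Ψ' p) - A (Ψ' p)) - (h (Ψ' p) - A (Ψ' p))‖ := by
              rw [sub_sub_sub_cancel_right]
        _ ≤ ‖G (Ψ' p) - A (Ψ' p)‖ + ‖h (Ψ' p) - A (Ψ' p)‖ := norm_sub_le _ _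
        _ ≤ _ := add_le_add h1 k8
    calc 4 * L * ‖G (Ψ' p) - h (Ψ' p)‖ ≤ 4 * L * (2 * (c * ε) * s z + ε * s z) :=
          mul_le_mul_of_nonneg_left e2 (by linarith)
      _ = _ := by ring
  refine ⟨h3, ?_⟩
  have h4 : 4 * L * (2 * c + 1) * ε * s z ≤ s z := by
    have e1 : 4 * L * (2 * c + 1) * ε ≤ 12 * L * c * ε := by
      have e2 : 0 ≤ 4 * L * ε * (c - 1) :=
        mul_nonneg (mul_nonneg (by linarith) hε.le) (by linarith)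
      linarith
    have := mul_le_mul_of_nonneg_right (e1.trans hcε) hs.le
    linarith
  have h5 : h' (G (Ψ' p)) ∈ ball z (R * s z) := by
    rw [mem_ball_iff_norm]
    have h7 : ‖h' (G (Ψ' p)) - z‖ ≤ ‖h' (G (Ψ' p)) - Ψ' p‖ + ‖Ψ' p - z‖ := by
      calc ‖h' (G (Ψ' p)) - z‖ = ‖(h' (G (Ψ' p)) - Ψ' p) + (Ψ' p - z)‖ := by
            rw [sub_add_sub_cancel]
        _ ≤ _ := norm_add_le _ _
    have h8 := mul_le_mul_of_nonneg_right n3 hs.le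
    linarith
  have h6 : f (h' (G (Ψ' p))) = f (Ψ' p) := by
    rw [← loc.gh _ h2, ← hSt.s1 _ hx]
  have h7 := (loc.c1 _ h5 _ k2).2 h6
  rw [h7, loc.cinv']

theorem gloca_H {f g : E → ℂ} {A B : E → E} {s : E → ℝ} {L C R ε r r2 c Λ : ℝ} {z : E}
    {h h' : E → E} {Ψ : E → ℂ × (D → ℝ)} {Ψ' : ℂ × (D → ℝ) → E} {Dm : Set E} {G H : E → E}
    (env : Env A B s L ε r) (h8 : 8 * L ^ 2 * r2 ≤ r) (hz : z ≠ 0) (hz2 : ‖z‖ < r2)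
    (loc : Loc f g A B s L C R ε z h h' Ψ Ψ') (hC : 1 ≤ C) (hc : 1 ≤ c)
    (hR : R = L * (C * (4 * C + 1)) + 2) (hRε : R * ε ≤ 1 / 2) (hcε : 12 * L * c * ε ≤ 1)
    (hSt : St f g A B s r Dm (c * ε) Λ G H)
    {p : ℂ × (D → ℝ)} (hp : ‖p‖ < 4 * C + 1) (hx : B (h (Ψ' p)) ∈ Dm) :
    ‖H (h (Ψ' p)) - Ψ' p‖ ≤ (2 * c + 1) * ε * s z ∧
      (Ψ (H (h (Ψ' p)))).1 = p.1 := by
  have hL := env.hL
  have hε := env.hε
  obtain ⟨n1, n2, n3, n4⟩ := gloca_num hL hε hC hR hRε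
  obtain ⟨hs, k1, k2, k3, k4, k5, k6, k7, k8, k9, k10⟩ :=
    gloca_x env h8 hz hz2 loc hC hR hRε hp
  have hcε2 : 0 < c * ε := mul_pos (by linarith) hε
  have h12 : 12 * (c * ε) ≤ 1 := by
    have h1 : 1 * (12 * (c * ε)) ≤ L * (12 * (c * ε)) :=
      mul_le_mul_of_nonneg_right hL (by positivity)
    have h2 : L * (12 * (c * ε)) = 12 * L * c * ε := by ring
    linarith
  have h1 : ‖Ψ' p - B (h (Ψ' p))‖ ≤ ε * s z := by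
    have := loc.ghB _ k6
    rwa [loc.inv] at this
  have h1' : ε * s z ≤ s z := by
    have := mul_le_mul_of_nonneg_right (show ε ≤ 1 by linarith) hs.le
    linarith
  have hR3 := mul_le_mul_of_nonneg_right n3 hs.le
  have h2 : ‖B (h (Ψ' p)) - z‖ ≤ R * s z := by
    have h7 : ‖B (h (Ψ' p)) - z‖ ≤ ‖Ψ' p - B (h (Ψ' p))‖ + ‖Ψ' p - z‖ := by
      calc ‖B (h (Ψ' p)) - z‖ = ‖(Ψ' p - z) - (Ψ' p - B (h (Ψ' p)))‖ := by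
            rw [sub_sub_sub_cancel_left]
        _ ≤ ‖Ψ' p - z‖ + ‖Ψ' p - B (h (Ψ' p))‖ := norm_sub_le _ _
        _ = _ := add_comm _ _
    linarith
  obtain ⟨-, -, -, m4, -, -, -, -⟩ := env.near h8 hz hz2 hRε h2
  have h3 : ‖H (h (Ψ' p)) - B (h (Ψ' p))‖ ≤ 2 * (c * ε) * s z := by
    refine (hSt.s2d _ k7 hx).trans ?_
    calc c * ε * s (B (h (Ψ' p))) ≤ c * ε * (2 * s z) := mul_le_mul_of_nonneg_left m4 hcε2.le
      _ = _ := by ring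
  have h4 : ‖H (h (Ψ' p)) - Ψ' p‖ ≤ (2 * c + 1) * ε * s z := by
    calc ‖H (h (Ψ' p)) - Ψ' p‖ =
          ‖(H (h (Ψ' p)) - B (h (Ψ' p))) - (Ψ' p - B (h (Ψ' p)))‖ := by
            rw [sub_sub_sub_cancel_right]
      _ ≤ ‖H (h (Ψ' p)) - B (h (Ψ' p))‖ + ‖Ψ' p - B (h (Ψ' p))‖ := norm_sub_le _ _
      _ ≤ 2 * (c * ε) * s z + ε * s z := add_le_add h3 h1
      _ = _ := by ring
  refine ⟨h4, ?_⟩
  have h4' : (2 * c + 1) * ε * s z ≤ s z := by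
    have e1 : (2 * c + 1) * ε ≤ 1 := by nlinarith
    have := mul_le_mul_of_nonneg_right e1 hs.le
    linarith
  have h5 : H (h (Ψ' p)) ∈ ball z (R * s z) := by
    rw [mem_ball_iff_norm]
    have h7 : ‖H (h (Ψ' p)) - z‖ ≤ ‖H (h (Ψ' p)) - Ψ' p‖ + ‖Ψ' p - z‖ := by
      calc ‖H (h (Ψ' p)) - z‖ = ‖(H (h (Ψ' p)) - Ψ' p) + (Ψ' p - z)‖ := by
            rw [sub_add_sub_cancel]
        _ ≤ _ := norm_add_le _ _
    linarith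
  have h6 : f (H (h (Ψ' p))) = f (Ψ' p) := by
    rw [← hSt.s2 _ k7 hx, loc.fh _ k2]
  have h7 := (loc.c1 _ h5 _ k2).2 h6
  rw [h7, loc.cinv']

theorem gloca_lipcont {X Y : Type*} [SeminormedAddCommGroup X] [SeminormedAddCommGroup Y]
    (φ : X → Y) (K : ℝ) (hφ : ∀ x y, ‖φ x - φ y‖ ≤ K * ‖x - y‖) : Continuous φ := by
  rw [continuous_iff_continuousAt]
  intro x
  have h2 : Tendsto (fun y : X => K * ‖y - x‖) (𝓝 x) (𝓝 0) := by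
    have : Continuous (fun y : X => K * ‖y - x‖) := by fun_prop
    have h3 := this.tendsto x
    simpa using h3
  unfold ContinuousAt
  rw [tendsto_iff_norm_sub_tendsto_zero]
  exact squeeze_zero (fun y => norm_nonneg _) (fun y => hφ y x) h2

theorem gloca_cont {f g : E → ℂ} {A B : E → E} {s : E → ℝ} {L C R ε : ℝ} {z : E}
    {h h' : E → E} {Ψ : E → ℂ × (D → ℝ)} {Ψ' : ℂ × (D → ℝ) → E}
    (loc : Loc f g A B s L C R ε z h h' Ψ Ψ') : Continuous Ψ' ∧ Continuous h := by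
  exact ⟨gloca_lipcont _ _ loc.clip', gloca_lipcont _ _ loc.hlip⟩

theorem gloc_np {f g : E → ℂ} {A B : E → E} {s : E → ℝ} {L C R ε r r2 c Λ : ℝ} {z : E}
    {h h' : E → E} {Ψ : E → ℂ × (D → ℝ)} {Ψ' : ℂ × (D → ℝ) → E} {Dm : Set E} {G H : E → E}
    (env : Env A B s L ε r) (h8 : 8 * L ^ 2 * r2 ≤ r) (hz : z ≠ 0) (hz2 : ‖z‖ < r2)
    (loc : Loc f g A B s L C R ε z h h' Ψ Ψ') (hC : 1 ≤ C) (hc : 1 ≤ c) (hΛ : 1 ≤ Λ)
    (hR : R = L * (C * (4 * C + 1)) + 2) (hRε : R * ε ≤ 1 / 2) (hcε : 12 * L * c * ε ≤ 1)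
    (hDo : IsOpen Dm) (hD : ∀ x ∈ Dm, x ≠ 0 ∧ ‖x‖ < r2)
    (hSt : St f g A B s r Dm (c * ε) Λ G H) :
    NP (4 * L * C * (2 * c + 1) * ε) (4 * L * Λ * C ^ 2) (eU (4 * C + 1) Dm B h Ψ')
      (eMap (4 * C + 1) Dm G h' Ψ Ψ') (eMap' (4 * C + 1) Dm B H h Ψ Ψ') := by
  have hL := env.hL
  have hε := env.hε
  obtain ⟨hΨc, hhc⟩ := gloca_cont loc
  have hs : 0 < s z := (gloca_x env h8 hz hz2 loc hC hR hRε (p := 0) (by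
    rw [norm_zero]; linarith)).1
  have hCs : C / s z * s z = C := div_mul_cancel₀ C hs.ne'
  have hCs0 : 0 ≤ C / s z := div_nonneg (by linarith) hs.le
  have hopen : ∀ p : ℂ × (D → ℝ), ‖p‖ < 4 * C + 1 → ∀ᶠ q in 𝓝 p, ‖q‖ < 4 * C + 1 := fun p hp =>
    (isOpen_lt continuous_norm continuous_const).mem_nhds hp
  refine ⟨?_, ?_, ?_, ?_, ?_, ?_, ?_, ?_⟩
  · intro p
    unfold eMap
    split_ifs with hp
    · exact (gloca_G env h8 hz hz2 loc hC hc hR hRε hcε hSt hp.1 hp.2).2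
    · rfl
  · intro p
    unfold eMap'
    split_ifs with hp
    · exact (gloca_H env h8 hz hz2 loc hC hc hR hRε hcε hSt hp.1 hp.2).2
    · rfl
  · rintro p ⟨hp1, hp2, hp3⟩
    unfold eMap
    rw [if_pos ⟨hp1, hp2⟩]
    have h1 := (gloca_G env h8 hz hz2 loc hC hc hR hRε hcε hSt hp1 hp2).1
    have h2 := loc.clip (h' (G (Ψ' p))) (Ψ' p)
    rw [loc.cinv'] at h2
    refine h2.trans ?_
    calc C / s z * ‖h' (G (Ψ' p)) - Ψ' p‖ ≤ C / s z * (4 * L * (2 * c + 1) * ε * s z) :=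
          mul_le_mul_of_nonneg_left h1 hCs0
      _ = 4 * L * (C / s z * s z) * (2 * c + 1) * ε := by ring
      _ = _ := by rw [hCs]
  · rintro p ⟨hp1, hp2, hp3⟩
    unfold eMap'
    rw [if_pos ⟨hp1, hp3⟩]
    have h1 := (gloca_H env h8 hz hz2 loc hC hc hR hRε hcε hSt hp1 hp3).1
    have h2 := loc.clip (H (h (Ψ' p))) (Ψ' p)
    rw [loc.cinv'] at h2
    refine h2.trans ?_
    calc C / s z * ‖H (h (Ψ' p)) - Ψ' p‖ ≤ C / s z * ((2 * c + 1) * ε * s z) :=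
          mul_le_mul_of_nonneg_left h1 hCs0
      _ = (C / s z * s z) * ((2 * c + 1) * ε) := by ring
      _ = 1 * (C * ((2 * c + 1) * ε)) := by rw [hCs, one_mul]
      _ ≤ (4 * L) * (C * ((2 * c + 1) * ε)) := by
          refine mul_le_mul_of_nonneg_right (by linarith) ?_
          exact mul_nonneg (by linarith) (mul_nonneg (by linarith) hε.le)
      _ = _ := by ring
  · rintro p ⟨hp1, hp2, hp3⟩
    have e1 : eMap (4 * C + 1) Dm G h' Ψ Ψ' p = Ψ (h' (G (Ψ' p))) := if_pos ⟨hp1, hp2⟩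
    have e2 : ∀ᶠ q in 𝓝 p, Ψ' q ∈ Dm := hΨc.continuousAt.eventually (hDo.mem_nhds hp2)
    have e3 : ∀ᶠ q in 𝓝 p, ‖G (Ψ' q) - G (Ψ' p)‖ ≤ Λ * ‖Ψ' q - Ψ' p‖ :=
      hΨc.continuousAt.eventually (hSt.s1l _ hp2)
    filter_upwards [hopen p hp1, e2, e3] with q q1 q2 q3
    have e4 : eMap (4 * C + 1) Dm G h' Ψ Ψ' q = Ψ (h' (G (Ψ' q))) := if_pos ⟨q1, q2⟩
    rw [e1, e4]
    refine (loc.clip _ _).trans ?_
    have e5 : ‖h' (G (Ψ' q)) - h' (G (Ψ' p))‖ ≤ 4 * L * (Λ * (C * s z * ‖q - p‖)) := by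
      refine (loc.hlip' _ _).trans (mul_le_mul_of_nonneg_left ?_ (by linarith))
      refine q3.trans (mul_le_mul_of_nonneg_left ?_ (by linarith))
      exact loc.clip' q p
    calc C / s z * ‖h' (G (Ψ' q)) - h' (G (Ψ' p))‖ ≤
          C / s z * (4 * L * (Λ * (C * s z * ‖q - p‖))) := mul_le_mul_of_nonneg_left e5 hCs0
      _ = 4 * L * Λ * ((C / s z * s z) * C) * ‖q - p‖ := by ring
      _ = _ := by rw [hCs]; ring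
  · rintro p ⟨hp1, hp2, hp3⟩
    obtain ⟨-, -, -, -, -, -, -, k7, -, -, -⟩ := gloca_x env h8 hz hz2 loc hC hR hRε hp1
    have e1 : eMap' (4 * C + 1) Dm B H h Ψ Ψ' p = Ψ (H (h (Ψ' p))) := if_pos ⟨hp1, hp3⟩
    have hhc2 : ContinuousAt (fun q => h (Ψ' q)) p := (hhc.comp hΨc).continuousAt
    have e2 : ∀ᶠ q in 𝓝 p, B (h (Ψ' q)) ∈ Dm := by
      have h1 : ContinuousAt (fun q => B (h (Ψ' q))) p :=
        ContinuousAt.comp (f := fun q => h (Ψ' q)) (g := B) (env.contB k7) hhc2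
      exact h1.eventually (hDo.mem_nhds hp3)
    have e3 : ∀ᶠ q in 𝓝 p, ‖H (h (Ψ' q)) - H (h (Ψ' p))‖ ≤ Λ * ‖h (Ψ' q) - h (Ψ' p)‖ :=
      hhc2.eventually (hSt.s2l _ k7 hp3)
    filter_upwards [hopen p hp1, e2, e3] with q q1 q2 q3
    have e4 : eMap' (4 * C + 1) Dm B H h Ψ Ψ' q = Ψ (H (h (Ψ' q))) := if_pos ⟨q1, q2⟩
    rw [e1, e4]
    refine (loc.clip _ _).trans ?_
    have e5 : ‖H (h (Ψ' q)) - H (h (Ψ' p))‖ ≤ Λ * (4 * L * (C * s z * ‖q - p‖)) := by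
      refine q3.trans (mul_le_mul_of_nonneg_left ?_ (by linarith))
      refine (loc.hlip _ _).trans (mul_le_mul_of_nonneg_left ?_ (by linarith))
      exact loc.clip' q p
    calc C / s z * ‖H (h (Ψ' q)) - H (h (Ψ' p))‖ ≤
          C / s z * (Λ * (4 * L * (C * s z * ‖q - p‖))) := mul_le_mul_of_nonneg_left e5 hCs0
      _ = 4 * L * Λ * ((C / s z * s z) * C) * ‖q - p‖ := by ring
      _ = _ := by rw [hCs]; ring
  · rintro p ⟨hp1, hp2, hp3⟩ hq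
    have e1 : eMap (4 * C + 1) Dm G h' Ψ Ψ' p = Ψ (h' (G (Ψ' p))) := if_pos ⟨hp1, hp2⟩
    rw [e1] at hq ⊢
    obtain ⟨hq1, hq2, hq3⟩ := hq
    have e2 : eMap' (4 * C + 1) Dm B H h Ψ Ψ' (Ψ (h' (G (Ψ' p)))) =
        Ψ (H (h (Ψ' (Ψ (h' (G (Ψ' p))))))) := if_pos ⟨hq1, hq3⟩
    rw [e2]
    rw [loc.cinv, loc.inv'] at hq3 ⊢
    rw [hSt.s3 _ hp2 hq3, loc.cinv']
  · rintro p ⟨hp1, hp2, hp3⟩ hq
    obtain ⟨-, -, -, -, -, -, -, k7, -, -, -⟩ := gloca_x env h8 hz hz2 loc hC hR hRε hp1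
    have e1 : eMap' (4 * C + 1) Dm B H h Ψ Ψ' p = Ψ (H (h (Ψ' p))) := if_pos ⟨hp1, hp3⟩
    rw [e1] at hq ⊢
    obtain ⟨hq1, hq2, hq3⟩ := hq
    have e2 : eMap (4 * C + 1) Dm G h' Ψ Ψ' (Ψ (H (h (Ψ' p)))) =
        Ψ (h' (G (Ψ' (Ψ (H (h (Ψ' p))))))) := if_pos ⟨hq1, hq2⟩
    rw [e2]
    rw [loc.cinv] at hq2 ⊢
    rw [hSt.s3' _ k7 hp3 hq2, loc.inv, loc.cinv']

end H80.LD
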