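import Pool.Agent.H80.LD.Defs

/-!
# K0: definitions for the clock function

`a, b : D` are the two special coordinates; `JJ a b` the others.  `cb` (c bar) is a continuous function of `y b` and of the coordinates
`y i`, `i ∈ JJ a b`, with `⌊y b⌋ ≤ cb y ≤ ⌊y b⌋ + 1`.  The unit interval is divided into `MM` subintervals, one for each colour `κ : JJ a b → Bool`;
in the subinterval number `num κ` only the part `wt κ` of the partition of unity is raised.
-/

open Filter Topology Metric Set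

namespace H80.LD

noncomputable def cl (x : ℝ) : ℝ := max 0 (min 1 x)
noncomputable def ramp (s : ℝ) : ℝ := cl (2 * s - 1 / 2)
noncomputable def uu (η : ℝ) : ℝ := cl (3 - 10 * |η - round η|)

section
variable {D : Type*} [Fintype D] [DecidableEq D]

abbrev JJ (a b : D) : Type _ := {i : D // i ≠ a ∧ i ≠ b}

noncomputable def MM (a b : D) : ℕ := Fintype.card (JJ a b → Bool)

noncomputable def num (a b : D) : (JJ a b → Bool) ≃ Fin (MM a b) := Fintype.equivFin _

noncomputable def wt (a b : D) (κ : JJ a b → Bool) (η : D → ℝ) : ℝ :=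
  ∏ i : JJ a b, if κ i then uu (η i) else 1 - uu (η i)

/-- scale of the coordinate `i` at level `j` -/
noncomputable def sH (σ : ℝ → ℝ) (H : Finset D) (j : ℤ) (i : D) : ℝ := if i ∈ H then σ (j : ℝ) else 1

noncomputable def eta (σ : ℝ → ℝ) (H : Finset D) (b : D) (y : D → ℝ) (i : D) : ℝ := sH σ H ⌊y b⌋ i * y i

/-- the clock function -/
noncomputable def cb (σ : ℝ → ℝ) (H : Finset D) (a b : D) (y : D → ℝ) : ℝ :=
  (⌊y b⌋ : ℝ) + ∑ κ : JJ a b → Bool,
    wt a b κ (eta σ H b y) * ramp ((MM a b : ℝ) * Int.fract (y b) - ((num a b κ : ℕ) : ℝ))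

/-- number of the current subinterval -/
noncomputable def nn (a b : D) (y : D → ℝ) : ℕ := ⌊(MM a b : ℝ) * Int.fract (y b)⌋₊

/-- current colour -/
noncomputable def col (a b : D) (y : D → ℝ) : JJ a b → Bool :=
  if h : nn a b y < MM a b then (num a b).symm ⟨nn a b y, h⟩ else fun _ => true

/-- centre of the box -/
noncomputable def ZZ (σ : ℝ → ℝ) (lj : ℤ → ℝ) (H : Finset D) (a b : D) (y : D → ℝ) (i : D) : ℝ :=
  if h : i ≠ a ∧ i ≠ b then
    (if col a b y ⟨i, h⟩ then (round (eta σ H b y i) : ℝ) else (⌊eta σ H b y i⌋ : ℝ) + 1 / 2) / sH σ H ⌊y b⌋ i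
  else if i = b then (⌊y b⌋ : ℝ) + ((nn a b y : ℝ) + 1 / 2) / (MM a b : ℝ)
  else ((⌊y a / lj ⌊y b⌋ + 1 / 8⌋ : ℝ) + 3 / 8) * lj ⌊y b⌋

/-- half sides of the box -/
noncomputable def LL (σ : ℝ → ℝ) (lj : ℤ → ℝ) (H : Finset D) (a b : D) (y : D → ℝ) (i : D) : ℝ :=
  if i ≠ a ∧ i ≠ b then 35 / 100 / sH σ H ⌊y b⌋ i
  else if i = b then 3 / 10 / (MM a b : ℝ)
  else 34 / 100 * lj ⌊y b⌋

/-- is there a box -/
def ndd (lj : ℤ → ℝ) (nd : ℤ → ℤ → Prop) (b a : D) (y : D → ℝ) : Prop := nd ⌊y b⌋ ⌊y a / lj ⌊y b⌋ + 1 / 8⌋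

/-- weights: `σ (p b)` on `H`, `1` elsewhere -/
noncomputable def wgt {X : Type*} (σ : ℝ → ℝ) (H : Finset D) (b : D) (p : X × (D → ℝ)) (i : D) : ℝ :=
  if i ∈ H then σ (p.2 b) else 1

end

end H80.LD
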