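import Pool.Agent.H80.LD.K0

/-!
# K1: the one variable functions

`cl` is the projection to `[0,1]`: cases of min/max.  `ramp`: from `cl`.  `uu`: `|x - round x| ≤ |x - z|` for integers `z` (`round_le`), so `|x - round x|` is 1-Lipschitz:
`|x - round x| ≤ |x - round y| ≤ |x - y| + |y - round y|`.  `K1_half`: `x - ⌊x⌋ = Int.fract x =: f`, `|x - round x| = min f (1 - f)` (`abs_sub_round_eq_min`), `|x - (⌊x⌋ + 1/2)| = |f - 1/2| = 1/2 - |x - round x|`.
-/

open Filter Topology Metric Set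

namespace H80.LD

theorem K1_cl_mem (x : ℝ) : 0 ≤ cl x ∧ cl x ≤ 1 := by
  unfold cl
  exact ⟨le_max_left _ _, max_le zero_le_one (min_le_left _ _)⟩

theorem K1_cl_lip (x y : ℝ) : |cl x - cl y| ≤ |x - y| := by
  unfold cl
  rw [abs_le]
  simp only [max_def, min_def]
  constructor
  · split_ifs <;> cases abs_cases (x - y) <;> linarith
  · split_ifs <;> cases abs_cases (x - y) <;> linarith

theorem K1_cl_zero (x : ℝ) (h : x ≤ 0) : cl x = 0 := by
  unfold cl
  exact max_eq_left ((min_le_right _ _).trans h)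

theorem K1_cl_one (x : ℝ) (h : 1 ≤ x) : cl x = 1 := by
  unfold cl
  rw [min_eq_left h]
  exact max_eq_right zero_le_one

theorem K1_cl_mid (x : ℝ) (h : 0 ≤ x) (h' : x ≤ 1) : cl x = x := by
  unfold cl
  rw [min_eq_right h']
  exact max_eq_right h

theorem K1_cl_mono (x y : ℝ) (h : x ≤ y) : cl x ≤ cl y := by
  unfold cl
  exact max_le_max le_rfl (min_le_min le_rfl h)

theorem K1_ramp_mem (x : ℝ) : 0 ≤ ramp x ∧ ramp x ≤ 1 := K1_cl_mem _

theorem K1_ramp_lip (x y : ℝ) : |ramp x - ramp y| ≤ 2 * |x - y| := by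
  have h := K1_cl_lip (2 * x - 1 / 2) (2 * y - 1 / 2)
  have e : 2 * x - 1 / 2 - (2 * y - 1 / 2) = 2 * (x - y) := by ring
  rw [e, abs_mul, abs_of_pos (by norm_num : (0 : ℝ) < 2)] at h
  exact h

theorem K1_ramp_zero (x : ℝ) (h : x ≤ 1 / 4) : ramp x = 0 := by
  unfold ramp
  exact K1_cl_zero _ (by linarith)

theorem K1_ramp_one (x : ℝ) (h : 3 / 4 ≤ x) : ramp x = 1 := by
  unfold ramp
  exact K1_cl_one _ (by linarith)

theorem K1_uu_mem (x : ℝ) : 0 ≤ uu x ∧ uu x ≤ 1 := K1_cl_mem _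

theorem K1_dist_lip (x y : ℝ) : |x - round x| ≤ |x - y| + |y - round y| := by
  have h1 := round_le x (round y)
  have h2 := abs_sub_le x y (round y : ℝ)
  linarith

theorem K1_uu_lip (x y : ℝ) : |uu x - uu y| ≤ 10 * |x - y| := by
  have h := K1_cl_lip (3 - 10 * |x - round x|) (3 - 10 * |y - round y|)
  have h1 := K1_dist_lip x y
  have h2 := K1_dist_lip y x
  rw [abs_sub_comm y x] at h2
  refine h.trans ?_
  rw [abs_le]
  constructor <;> linarith

theorem K1_uu_zero (x : ℝ) (h : 3 / 10 ≤ |x - round x|) : uu x = 0 := by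
  unfold uu
  exact K1_cl_zero _ (by linarith)

theorem K1_uu_one (x : ℝ) (h : |x - round x| ≤ 1 / 5) : uu x = 1 := by
  unfold uu
  exact K1_cl_one _ (by linarith)

theorem K1_half (x : ℝ) : |x - (⌊x⌋ + 1 / 2)| = 1 / 2 - |x - round x| := by
  rw [abs_sub_round_eq_min]
  have h1 : x - (⌊x⌋ + 1 / 2) = Int.fract x - 1 / 2 := by
    have := Int.floor_add_fract x
    linarith
  rw [h1, min_def]
  split_ifs with h
  · rw [abs_of_nonpos (by linarith)]
    ring
  · push Not at h
    rw [abs_of_nonneg (by linarith)]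
    ring

/-- points in the same cell -/
theorem K1_round_eq (x : ℝ) (z : ℤ) (h : |x - z| < 1 / 2) : round x = z := by
  rw [round_eq, Int.floor_eq_iff]
  rw [abs_lt] at h
  constructor <;> linarith

theorem K1_floor_eq (x : ℝ) (z : ℤ) (h : |x - (z + 1 / 2)| < 1 / 2) : ⌊x⌋ = z := by
  rw [Int.floor_eq_iff]
  rw [abs_lt] at h
  constructor <;> linarith

end H80.LD
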