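import Pool.Agent.H80.LD.K1

/-!
# K2: the partition of unity `wt`

* `K2_sum`: `∏ i, ∑ c : Bool, (if c then uu (η i) else 1 - uu (η i)) = 1` and `Finset.prod_univ_sum` (`Fintype.piFinset`, `Finset.univ`).
* `K2_mem`: products of numbers in `[0,1]`.
* `K2_lip`: for factors `x_i, y_i ∈ [0,1]`, `|∏ x - ∏ y| ≤ ∑ |x_i - y_i|` (induction over the finset), `uu` is 10-Lipschitz.
* `K2_zero`: one factor vanishes.
* `K2_MM`: `MM ≥ 1`.
-/

open Filter Topology Metric Set

namespace H80.LD

variable {D : Type*} [Fintype D] [DecidableEq D]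

theorem K2_MM (a b : D) : 1 ≤ MM a b := by
  unfold MM
  exact Fintype.card_pos

theorem K2_sum (a b : D) (η : D → ℝ) : ∑ κ : JJ a b → Bool, wt a b κ η = 1 := by
  unfold wt
  have h := Finset.prod_univ_sum (fun _ : JJ a b => (Finset.univ : Finset Bool))
    (fun i c => if c then uu (η i) else 1 - uu (η i))
  rw [Fintype.piFinset_univ] at h
  have h2 : ∏ i : JJ a b, ∑ c : Bool, (if c then uu (η i) else 1 - uu (η i)) = 1 := by
    refine Finset.prod_eq_one fun i _ => ?_
    rw [Fintype.sum_bool]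
    simp
  exact h.symm.trans h2

omit [Fintype D] [DecidableEq D] in
theorem K2_fac (a b : D) (κ : JJ a b → Bool) (η : D → ℝ) (i : JJ a b) :
    0 ≤ (if κ i then uu (η i) else 1 - uu (η i)) ∧ (if κ i then uu (η i) else 1 - uu (η i)) ≤ 1 := by
  have h := K1_uu_mem (η i)
  split_ifs
  · exact h
  · constructor <;> linarith [h.1, h.2]

theorem K2_mem (a b : D) (κ : JJ a b → Bool) (η : D → ℝ) : 0 ≤ wt a b κ η ∧ wt a b κ η ≤ 1 := by
  unfold wt
  exact ⟨Finset.prod_nonneg fun i _ => (K2_fac a b κ η i).1,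
    Finset.prod_le_one (fun i _ => (K2_fac a b κ η i).1) fun i _ => (K2_fac a b κ η i).2⟩

theorem K2_prod {ι : Type*} [DecidableEq ι] (s : Finset ι) (x y : ι → ℝ)
    (hx : ∀ i, 0 ≤ x i ∧ x i ≤ 1) (hy : ∀ i, 0 ≤ y i ∧ y i ≤ 1) :
    |∏ i ∈ s, x i - ∏ i ∈ s, y i| ≤ ∑ i ∈ s, |x i - y i| := by
  induction s using Finset.induction_on with
  | empty => simp
  | insert j s hj ih =>
    rw [Finset.prod_insert hj, Finset.prod_insert hj, Finset.sum_insert hj]
    have e : x j * ∏ i ∈ s, x i - y j * ∏ i ∈ s, y i =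
        (x j - y j) * ∏ i ∈ s, x i + y j * (∏ i ∈ s, x i - ∏ i ∈ s, y i) := by ring
    rw [e]
    refine (abs_add_le _ _).trans (add_le_add ?_ ?_)
    · rw [abs_mul]
      have h1 : |∏ i ∈ s, x i| ≤ 1 := by
        rw [abs_of_nonneg (Finset.prod_nonneg fun i _ => (hx i).1)]
        exact Finset.prod_le_one (fun i _ => (hx i).1) fun i _ => (hx i).2
      exact mul_le_of_le_one_right (abs_nonneg _) h1
    · rw [abs_mul]
      have h1 : |y j| ≤ 1 := by
        rw [abs_of_nonneg (hy j).1]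
        exact (hy j).2
      exact (mul_le_of_le_one_left (abs_nonneg _) h1).trans ih

theorem K2_lip (a b : D) (κ : JJ a b → Bool) (η η' : D → ℝ) :
    |wt a b κ η - wt a b κ η'| ≤ 10 * ∑ i : JJ a b, |η i - η' i| := by
  unfold wt
  refine (K2_prod Finset.univ (fun i : JJ a b => if κ i then uu (η i) else 1 - uu (η i))
    (fun i : JJ a b => if κ i then uu (η' i) else 1 - uu (η' i)) (K2_fac a b κ η)
    (K2_fac a b κ η')).trans ?_
  rw [Finset.mul_sum]
  refine Finset.sum_le_sum fun i _ => ?_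
  have h := K1_uu_lip (η i) (η' i)
  by_cases hk : κ i
  · simp only [hk, if_true]
    exact h
  · simp only [hk]
    have e : (1 - uu (η i)) - (1 - uu (η' i)) = -(uu (η i) - uu (η' i)) := by ring
    simp only [Bool.false_eq_true, if_false]
    rw [e, abs_neg]
    exact h

theorem K2_congr (a b : D) (κ : JJ a b → Bool) (η η' : D → ℝ) (h : ∀ i : JJ a b, η i = η' i) :
    wt a b κ η = wt a b κ η' := by
  unfold wt
  exact Finset.prod_congr rfl fun i _ => by rw [h i]

theorem K2_zero (a b : D) (κ : JJ a b → Bool) (η : D → ℝ) (i : JJ a b)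
    (h : if κ i then uu (η i) = 0 else uu (η i) = 1) : wt a b κ η = 0 := by
  unfold wt
  refine Finset.prod_eq_zero (Finset.mem_univ i) ?_
  split_ifs at h ⊢ with hk
  · exact h
  · rw [h, sub_self]

end H80.LD
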