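import Pool.Agent.H80.LD.K2

/-!
# K3: bounds, Lipschitz estimate and locality of the clock function

`M = MM a b ≥ 1`, `j = ⌊y b⌋`, `f = Int.fract (y b)`, `S = ∑ κ, wt κ (eta y) * ramp (M f - num κ) ∈ [0,1]` (`K2_sum`, `K2_mem`).
* `K3_mem`: `cb y = j + S`; `K3_abs`: both `y b` and `cb y` are in `[j, j+1]`.
* `K3_lip`, same floor: `|cb y - cb y'| ≤ ∑ κ |wt κ - wt' κ| * 1 + ∑ κ wt' κ * 2 M |f - f'| ≤ M * 10 * ∑ i s_i |y i - y' i| + 2 M |y b - y' b|`  (`s_i = sH σ H j i ≥ 0` the same for both).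
* different floors, `j < j' = ⌊y' b⌋` (or symmetric): `cb y' - j' ≤ 2 M f'` since `ramp (M f' - n) ≤ 2 M f'` (`ramp s ≤ 2 max s 0`), `j + 1 - cb y = ∑ wt κ (1 - ramp (M f - num κ)) ≤ 2 M (1 - f)` since for `n ≤ M - 1`
  `1 - ramp (M f - n) ≤ 1 - ramp (1 - M (1 - f)) ≤ 2 M (1 - f)`.  Also `cb y ≤ j + 1 ≤ j' ≤ cb y'`.  Sum: `0 ≤ cb y' - cb y ≤ 2 M f' + (j' - j - 1) + 2 M (1 - f) ≤ 2 M (y' b - y b)`.
* `K3_congr`: `cb` depends only on `y i`, `i ≠ a`.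
* `K3_const`: if `ramp`s are saturated: `K3_left`: if `0 ≤ M f - n ≤ 1/4`... see K4.
-/

open Filter Topology Metric Set

namespace H80.LD

variable {D : Type*} [Fintype D] [DecidableEq D]

theorem K3_ramp_up (s t : ℝ) (ht : 0 ≤ t) (h : s ≤ t) : ramp s ≤ 2 * t := by
  unfold ramp cl
  refine max_le (by linarith) ((min_le_right _ _).trans (by linarith))

theorem K3_ramp_low (s t : ℝ) (ht : 0 ≤ t) (h : 1 - t ≤ s) : 1 - ramp s ≤ 2 * t := by
  unfold ramp cl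
  have h1 : 1 - 2 * t ≤ min 1 (2 * s - 1 / 2) := le_min (by linarith) (by linarith)
  have h2 := le_max_right 0 (min 1 (2 * s - 1 / 2))
  linarith

theorem K3_S (σ : ℝ → ℝ) (H : Finset D) (a b : D) (y : D → ℝ) :
    0 ≤ ∑ κ : JJ a b → Bool, wt a b κ (eta σ H b y) *
      ramp ((MM a b : ℝ) * Int.fract (y b) - ((num a b κ : ℕ) : ℝ)) ∧
    (∑ κ : JJ a b → Bool, wt a b κ (eta σ H b y) *
      ramp ((MM a b : ℝ) * Int.fract (y b) - ((num a b κ : ℕ) : ℝ))) ≤ 1 ∧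
    (∑ κ : JJ a b → Bool, wt a b κ (eta σ H b y) *
      ramp ((MM a b : ℝ) * Int.fract (y b) - ((num a b κ : ℕ) : ℝ))) ≤
        2 * ((MM a b : ℝ) * Int.fract (y b)) ∧
    1 - (∑ κ : JJ a b → Bool, wt a b κ (eta σ H b y) *
      ramp ((MM a b : ℝ) * Int.fract (y b) - ((num a b κ : ℕ) : ℝ))) ≤
        2 * ((MM a b : ℝ) * (1 - Int.fract (y b))) := by
  have hM : (0 : ℝ) ≤ (MM a b : ℝ) := Nat.cast_nonneg _
  have hf0 := Int.fract_nonneg (y b)
  have hf1 := (Int.fract_lt_one (y b)).le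
  have hw : ∀ κ, 0 ≤ wt a b κ (eta σ H b y) := fun κ => (K2_mem a b κ _).1
  have hsum := K2_sum a b (eta σ H b y)
  have hlow : ∀ κ : JJ a b → Bool, 1 - (MM a b : ℝ) * (1 - Int.fract (y b)) ≤
      (MM a b : ℝ) * Int.fract (y b) - ((num a b κ : ℕ) : ℝ) := by
    intro κ
    have h1 : ((num a b κ : ℕ) : ℝ) + 1 ≤ (MM a b : ℝ) := by exact_mod_cast (num a b κ).2
    nlinarith
  refine ⟨Finset.sum_nonneg fun κ _ => mul_nonneg (hw κ) (K1_ramp_mem _).1, ?_, ?_, ?_⟩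
  · calc _ ≤ ∑ κ : JJ a b → Bool, wt a b κ (eta σ H b y) :=
        Finset.sum_le_sum fun κ _ => mul_le_of_le_one_right (hw κ) (K1_ramp_mem _).2
      _ = 1 := hsum
  · calc _ ≤ ∑ κ : JJ a b → Bool, wt a b κ (eta σ H b y) *
          (2 * ((MM a b : ℝ) * Int.fract (y b))) := by
          refine Finset.sum_le_sum fun κ _ => mul_le_mul_of_nonneg_left ?_ (hw κ)
          refine K3_ramp_up _ _ (mul_nonneg hM hf0) ?_
          have : (0 : ℝ) ≤ ((num a b κ : ℕ) : ℝ) := Nat.cast_nonneg _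
          linarith
      _ = 2 * ((MM a b : ℝ) * Int.fract (y b)) := by rw [← Finset.sum_mul, hsum, one_mul]
  · calc _ = ∑ κ : JJ a b → Bool, wt a b κ (eta σ H b y) *
          (1 - ramp ((MM a b : ℝ) * Int.fract (y b) - ((num a b κ : ℕ) : ℝ))) := by
          simp only [mul_sub, mul_one, Finset.sum_sub_distrib, hsum]
      _ ≤ ∑ κ : JJ a b → Bool, wt a b κ (eta σ H b y) *
          (2 * ((MM a b : ℝ) * (1 - Int.fract (y b)))) := by
          refine Finset.sum_le_sum fun κ _ => mul_le_mul_of_nonneg_left ?_ (hw κ)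
          exact K3_ramp_low _ _ (mul_nonneg hM (by linarith)) (hlow κ)
      _ = 2 * ((MM a b : ℝ) * (1 - Int.fract (y b))) := by rw [← Finset.sum_mul, hsum, one_mul]

theorem K3_mem (σ : ℝ → ℝ) (H : Finset D) (a b : D) (y : D → ℝ) :
    (⌊y b⌋ : ℝ) ≤ cb σ H a b y ∧ cb σ H a b y ≤ ⌊y b⌋ + 1 := by
  have h := K3_S σ H a b y
  unfold cb
  constructor
  · linarith [h.1]
  · linarith [h.2.1]

theorem K3_abs (σ : ℝ → ℝ) (H : Finset D) (a b : D) (y : D → ℝ) : |y b - cb σ H a b y| ≤ 1 := by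
  have h := K3_mem σ H a b y
  have h1 := Int.floor_le (y b)
  have h2 := (Int.lt_floor_add_one (y b)).le
  rw [abs_le]
  constructor <;> linarith [h.1, h.2]

theorem K3_congr (σ : ℝ → ℝ) (H : Finset D) (a b : D) (hab : a ≠ b) (y y' : D → ℝ) (h : ∀ i, i ≠ a → y i = y' i) :
    cb σ H a b y = cb σ H a b y' := by
  have hb : y b = y' b := h b hab.symm
  unfold cb
  rw [hb]
  congr 1
  refine Finset.sum_congr rfl fun κ _ => ?_
  congr 1
  refine K2_congr a b κ _ _ fun i => ?_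
  unfold eta
  rw [hb, h i i.2.1]

theorem K3_jump (σ : ℝ → ℝ) (H : Finset D) (a b : D) (y y' : D → ℝ) (h : ⌊y b⌋ < ⌊y' b⌋) :
    |cb σ H a b y - cb σ H a b y'| ≤ 2 * (MM a b : ℝ) * |y b - y' b| := by
  have h1 := K3_mem σ H a b y
  have h1' := K3_mem σ H a b y'
  have h2 : (⌊y b⌋ : ℝ) + 1 ≤ (⌊y' b⌋ : ℝ) := by exact_mod_cast h
  have hM : (1 : ℝ) ≤ (MM a b : ℝ) := by exact_mod_cast K2_MM a b
  have h3 := (K3_S σ H a b y).2.2.2
  have h3' := (K3_S σ H a b y').2.2.1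
  have e : y b = ⌊y b⌋ + Int.fract (y b) := (Int.floor_add_fract (y b)).symm
  have e' : y' b = ⌊y' b⌋ + Int.fract (y' b) := (Int.floor_add_fract (y' b)).symm
  have hf1 := (Int.fract_lt_one (y b)).le
  have hf0 := Int.fract_nonneg (y' b)
  have hle : cb σ H a b y ≤ cb σ H a b y' := by linarith [h1.2, h1'.1]
  have hyy : y b - y' b ≤ 0 := by linarith
  rw [abs_of_nonpos (by linarith : cb σ H a b y - cb σ H a b y' ≤ 0), abs_of_nonpos hyy]
  have h4 : cb σ H a b y' - ⌊y' b⌋ ≤ 2 * ((MM a b : ℝ) * Int.fract (y' b)) := by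
    unfold cb
    linarith
  have h5 : ⌊y b⌋ + 1 - cb σ H a b y ≤ 2 * ((MM a b : ℝ) * (1 - Int.fract (y b))) := by
    unfold cb
    linarith
  have h6 : ((⌊y' b⌋ : ℝ) - ⌊y b⌋ - 1) ≤ 2 * (MM a b : ℝ) * ((⌊y' b⌋ : ℝ) - ⌊y b⌋ - 1) :=
    le_mul_of_one_le_left (by linarith) (by linarith)
  have h7 : 2 * (MM a b : ℝ) * (-(y b - y' b)) = 2 * ((MM a b : ℝ) * Int.fract (y' b)) +
      2 * (MM a b : ℝ) * ((⌊y' b⌋ : ℝ) - ⌊y b⌋ - 1) +
      2 * ((MM a b : ℝ) * (1 - Int.fract (y b))) := by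
    rw [e, e', Int.fract_intCast_add, Int.fract_intCast_add, Int.floor_intCast_add,
      Int.floor_intCast_add, Int.fract_fract, Int.fract_fract, Int.floor_fract, Int.floor_fract]
    push_cast
    ring
  rw [h7]
  linarith

theorem K3_same (σ : ℝ → ℝ) (hσ : ∀ c, 0 ≤ σ c) (H : Finset D) (a b : D) (y y' : D → ℝ)
    (hj : ⌊y b⌋ = ⌊y' b⌋) :
    |cb σ H a b y - cb σ H a b y'| ≤ 2 * (MM a b : ℝ) * |y b - y' b| +
      10 * (MM a b : ℝ) * ∑ i : JJ a b, sH σ H ⌊y b⌋ i * |y i - y' i| := by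
  have hM : (0 : ℝ) ≤ (MM a b : ℝ) := Nat.cast_nonneg _
  have hs : ∀ i : D, 0 ≤ sH σ H ⌊y b⌋ i := fun i => by
    unfold sH
    split_ifs
    · exact hσ _
    · exact zero_le_one
  set r : (JJ a b → Bool) → ℝ := fun κ =>
    ramp ((MM a b : ℝ) * Int.fract (y b) - ((num a b κ : ℕ) : ℝ)) with hr
  set r' : (JJ a b → Bool) → ℝ := fun κ =>
    ramp ((MM a b : ℝ) * Int.fract (y' b) - ((num a b κ : ℕ) : ℝ)) with hr'
  set w : (JJ a b → Bool) → ℝ := fun κ => wt a b κ (eta σ H b y) with hw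
  set w' : (JJ a b → Bool) → ℝ := fun κ => wt a b κ (eta σ H b y') with hw'
  have e1 : cb σ H a b y - cb σ H a b y' = ∑ κ, ((w κ - w' κ) * r κ + w' κ * (r κ - r' κ)) := by
    have : cb σ H a b y = (⌊y b⌋ : ℝ) + ∑ κ, w κ * r κ := rfl
    rw [this]
    have : cb σ H a b y' = (⌊y' b⌋ : ℝ) + ∑ κ, w' κ * r' κ := rfl
    rw [this, hj, add_sub_add_left_eq_sub, ← Finset.sum_sub_distrib]
    refine Finset.sum_congr rfl fun κ _ => ?_
    ring
  have hff : |Int.fract (y b) - Int.fract (y' b)| = |y b - y' b| := by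
    rw [← Int.self_sub_floor, ← Int.self_sub_floor, hj]
    congr 1
    ring
  have hrr : ∀ κ, |r κ - r' κ| ≤ 2 * (MM a b : ℝ) * |y b - y' b| := by
    intro κ
    refine (K1_ramp_lip _ _).trans ?_
    rw [sub_sub_sub_cancel_right, ← mul_sub, abs_mul, hff, abs_of_nonneg hM, mul_assoc]
  have hww : ∀ κ, |w κ - w' κ| ≤ 10 * ∑ i : JJ a b, sH σ H ⌊y b⌋ i * |y i - y' i| := by
    intro κ
    refine (K2_lip a b κ _ _).trans (le_of_eq ?_)
    congr 1
    refine Finset.sum_congr rfl fun i _ => ?_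
    unfold eta
    rw [← hj, ← mul_sub, abs_mul, abs_of_nonneg (hs i)]
  have hw0 : ∀ κ, 0 ≤ w' κ := fun κ => (K2_mem a b κ _).1
  have hsum : ∑ κ, w' κ = 1 := K2_sum a b _
  rw [e1]
  refine (Finset.abs_sum_le_sum_abs _ _).trans ?_
  calc ∑ κ, |(w κ - w' κ) * r κ + w' κ * (r κ - r' κ)|
      ≤ ∑ κ : JJ a b → Bool, (10 * (∑ i : JJ a b, sH σ H ⌊y b⌋ i * |y i - y' i|) +
        w' κ * (2 * (MM a b : ℝ) * |y b - y' b|)) := by
        refine Finset.sum_le_sum fun κ _ => ?_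
        refine (abs_add_le _ _).trans (add_le_add ?_ ?_)
        · rw [abs_mul, abs_of_nonneg (K1_ramp_mem _).1]
          exact (mul_le_of_le_one_right (abs_nonneg _) (K1_ramp_mem _).2).trans (hww κ)
        · rw [abs_mul, abs_of_nonneg (hw0 κ)]
          exact mul_le_mul_of_nonneg_left (hrr κ) (hw0 κ)
    _ = 2 * (MM a b : ℝ) * |y b - y' b| +
      10 * (MM a b : ℝ) * ∑ i : JJ a b, sH σ H ⌊y b⌋ i * |y i - y' i| := by
        rw [Finset.sum_add_distrib, Finset.sum_const, Finset.card_univ, nsmul_eq_mul,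
          ← Finset.sum_mul, hsum]
        change (MM a b : ℝ) * _ + _ = _
        ring

theorem K3_lip (σ : ℝ → ℝ) (hσ : ∀ c, 0 ≤ σ c) (H : Finset D) (a b : D) (y y' : D → ℝ) :
    |cb σ H a b y - cb σ H a b y'| ≤ 2 * (MM a b : ℝ) * |y b - y' b| +
      10 * (MM a b : ℝ) * ∑ i : JJ a b, sH σ H ⌊y b⌋ i * |y i - y' i| := by
  have hM : (0 : ℝ) ≤ (MM a b : ℝ) := Nat.cast_nonneg _
  have hs : 0 ≤ ∑ i : JJ a b, sH σ H ⌊y b⌋ i * |y i - y' i| := by
    refine Finset.sum_nonneg fun i _ => mul_nonneg ?_ (abs_nonneg _)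
    unfold sH
    split_ifs
    · exact hσ _
    · exact zero_le_one
  have hs' : 0 ≤ 10 * (MM a b : ℝ) * ∑ i : JJ a b, sH σ H ⌊y b⌋ i * |y i - y' i| := by
    positivity
  rcases lt_trichotomy ⌊y b⌋ ⌊y' b⌋ with h | h | h
  · linarith [K3_jump σ H a b y y' h]
  · exact K3_same σ hσ H a b y y' h
  · have := K3_jump σ H a b y' y h
    rw [abs_sub_comm (cb σ H a b y'), abs_sub_comm (y' b)] at this
    linarith

end H80.LD
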