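import Pool.Agent.H80.LD.K3

/-!
# K4: the clock is locally independent of the coordinate `b` near points outside the `(b, J)`-box

`M = MM a b`, `j = ⌊y b⌋`, `n = nn a b y < M`, `κ = col a b y`, `num κ = n`, `s_i = sH σ H j i > 0`, `F = M * fract (y b) ∈ [n, n+1)`, so `y b = j + F / M`.
In all cases, with the same floor `eta y' i = s_i y' i`, the value is the same for `y'` and `y''` if they agree on `J`.
-/

open Filter Topology Metric Set

namespace H80.LD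

variable {D : Type*} [Fintype D] [DecidableEq D]

/-- current subinterval and colour -/
theorem K4_nn (a b : D) (y : D → ℝ) : nn a b y < MM a b ∧ (nn a b y : ℝ) ≤ (MM a b : ℝ) * Int.fract (y b) ∧
    (MM a b : ℝ) * Int.fract (y b) < nn a b y + 1 ∧ ((num a b (col a b y) : ℕ)) = nn a b y := by
  have hM : (1 : ℝ) ≤ (MM a b : ℝ) := by exact_mod_cast K2_MM a b
  have h0 : 0 ≤ (MM a b : ℝ) * Int.fract (y b) :=
    mul_nonneg (by linarith) (Int.fract_nonneg _)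
  have h1 : nn a b y < MM a b := by
    unfold nn
    rw [Nat.floor_lt h0]
    have := Int.fract_lt_one (y b)
    nlinarith
  refine ⟨h1, Nat.floor_le h0, Nat.lt_floor_add_one _, ?_⟩
  unfold col
  rw [dif_pos h1, Equiv.apply_symm_apply]

theorem K4_floor_aux (M : ℝ) (hM : 1 ≤ M) (z : ℝ) (j : ℤ) (h0 : 0 ≤ M * (z - j))
    (h1 : M * (z - j) < M) : ⌊z⌋ = j ∧ M * Int.fract z = M * (z - j) := by
  have hM0 : 0 < M := by linarith
  have ha : 0 ≤ z - j := nonneg_of_mul_nonneg_right h0 hM0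
  have hb : z - j < 1 := by
    by_contra hcon
    push Not at hcon
    nlinarith
  have hf : ⌊z⌋ = j := by
    rw [Int.floor_eq_iff]
    constructor <;> linarith
  refine ⟨hf, ?_⟩
  rw [Int.fract, hf]

theorem K4_val (σ : ℝ → ℝ) (H : Finset D) (a b : D) (y' : D → ℝ) (j : ℤ) (m : ℕ)
    (hfl : ⌊y' b⌋ = j) (G : ℝ) (hG : (MM a b : ℝ) * Int.fract (y' b) = G)
    (h1 : ∀ κ : JJ a b → Bool, ((num a b κ : ℕ)) < m →
      3 / 4 ≤ G - ((num a b κ : ℕ) : ℝ) ∨ wt a b κ (eta σ H b y') = 0)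
    (h2 : ∀ κ : JJ a b → Bool, m ≤ ((num a b κ : ℕ)) →
      G - ((num a b κ : ℕ) : ℝ) ≤ 1 / 4 ∨ wt a b κ (eta σ H b y') = 0) :
    cb σ H a b y' = (j : ℝ) + ∑ κ : JJ a b → Bool,
      if ((num a b κ : ℕ)) < m then wt a b κ (eta σ H b y') else 0 := by
  unfold cb
  rw [hfl, hG]
  congr 1
  refine Finset.sum_congr rfl fun κ _ => ?_
  split_ifs with h
  · rcases h1 κ h with h' | h'
    · rw [K1_ramp_one _ h', mul_one]
    · rw [h', zero_mul]
  · rcases h2 κ (not_lt.1 h) with h' | h'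
    · rw [K1_ramp_zero _ h', mul_zero]
    · rw [h', zero_mul]

theorem K4_val_congr (σ : ℝ → ℝ) (H : Finset D) (a b : D) (y' y'' : D → ℝ) (j : ℤ) (m : ℕ)
    (h' : cb σ H a b y' = (j : ℝ) + ∑ κ : JJ a b → Bool,
      if ((num a b κ : ℕ)) < m then wt a b κ (eta σ H b y') else 0)
    (h'' : cb σ H a b y'' = (j : ℝ) + ∑ κ : JJ a b → Bool,
      if ((num a b κ : ℕ)) < m then wt a b κ (eta σ H b y'') else 0)
    (hf' : ⌊y' b⌋ = j) (hf'' : ⌊y'' b⌋ = j) (heq : ∀ i : JJ a b, y' i = y'' i) :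
    cb σ H a b y' = cb σ H a b y'' := by
  rw [h', h'']
  congr 1
  refine Finset.sum_congr rfl fun κ _ => ?_
  split_ifs with h
  · refine K2_congr a b κ _ _ fun i => ?_
    unfold eta
    rw [hf', hf'', heq i]
  · rfl

theorem K4_num_lt (a b : D) (κ : JJ a b → Bool) : (((num a b κ : ℕ)) : ℝ) + 1 ≤ (MM a b : ℝ) := by
  exact_mod_cast (num a b κ).2

theorem K4_all (σ : ℝ → ℝ) (H : Finset D) (a b : D) (y' : D → ℝ) (j : ℤ)
    (hfl : ⌊y' b⌋ = j) (G : ℝ) (hG : (MM a b : ℝ) * Int.fract (y' b) = G)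
    (h1 : (MM a b : ℝ) - 1 / 4 ≤ G) : cb σ H a b y' = (j : ℝ) + 1 := by
  rw [K4_val σ H a b y' j (MM a b) hfl G hG]
  · congr 1
    rw [← K2_sum a b (eta σ H b y')]
    refine Finset.sum_congr rfl fun κ _ => ?_
    rw [if_pos (num a b κ).2]
  · intro κ _
    left
    have := K4_num_lt a b κ
    linarith
  · intro κ h
    exact absurd (num a b κ).2 (not_lt.2 h)

theorem K4_none (σ : ℝ → ℝ) (H : Finset D) (a b : D) (y' : D → ℝ) (j : ℤ)
    (hfl : ⌊y' b⌋ = j) (G : ℝ) (hG : (MM a b : ℝ) * Int.fract (y' b) = G)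
    (h1 : G ≤ 1 / 4) : cb σ H a b y' = (j : ℝ) := by
  rw [K4_val σ H a b y' j 0 hfl G hG]
  · simp
  · intro κ h
    exact absurd h (Nat.not_lt_zero _)
  · intro κ _
    left
    have : (0 : ℝ) ≤ ((num a b κ : ℕ) : ℝ) := Nat.cast_nonneg _
    linarith

theorem K4_sH_pos (σ : ℝ → ℝ) (hσ : ∀ c, 0 < σ c) (H : Finset D) (j : ℤ) (i : D) :
    0 < sH σ H j i := by
  unfold sH
  split_ifs
  · exact hσ _
  · exact one_pos

theorem K4_wt_zero (σ : ℝ → ℝ) (hσ : ∀ c, 0 < σ c) (lj : ℤ → ℝ) (H : Finset D) (a b : D) (y : D → ℝ)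
    (i : JJ a b) (hi : 35 / 100 / sH σ H ⌊y b⌋ i ≤ |y i - ZZ σ lj H a b y i|)
    (y' : D → ℝ) (hfl : ⌊y' b⌋ = ⌊y b⌋) (h' : sH σ H ⌊y b⌋ i * |y' i - y i| ≤ 1 / 25) :
    wt a b (col a b y) (eta σ H b y') = 0 := by
  have hs := K4_sH_pos σ hσ H ⌊y b⌋ i
  have hd : |eta σ H b y i - eta σ H b y' i| ≤ 1 / 25 := by
    unfold eta
    rw [hfl, ← mul_sub, abs_mul, abs_of_pos hs, abs_sub_comm]
    exact h'
  have hd2 : |eta σ H b y' i - eta σ H b y i| ≤ 1 / 25 := by rwa [abs_sub_comm]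
  have hi' : 35 / 100 ≤ |eta σ H b y i - (if col a b y i then (round (eta σ H b y i) : ℝ)
      else (⌊eta σ H b y i⌋ : ℝ) + 1 / 2)| := by
    rw [div_le_iff₀ hs] at hi
    have hZ : ZZ σ lj H a b y i = (if col a b y i then (round (eta σ H b y i) : ℝ)
      else (⌊eta σ H b y i⌋ : ℝ) + 1 / 2) / sH σ H ⌊y b⌋ i := by
      unfold ZZ
      rw [dif_pos i.2]
    rw [hZ] at hi
    set c := (if col a b y i then (round (eta σ H b y i) : ℝ)
      else (⌊eta σ H b y i⌋ : ℝ) + 1 / 2)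
    have : |y i - c / sH σ H ⌊y b⌋ i| * sH σ H ⌊y b⌋ i = |eta σ H b y i - c| := by
      rw [← abs_of_pos hs, ← abs_mul, abs_of_pos hs]
      congr 1
      unfold eta
      field_simp
    rwa [this] at hi
  refine K2_zero a b _ _ i ?_
  split_ifs with hc
  · rw [if_pos hc] at hi'
    refine K1_uu_zero _ ?_
    have := K1_dist_lip (eta σ H b y i) (eta σ H b y' i)
    linarith
  · rw [if_neg hc, K1_half] at hi'
    refine K1_uu_one _ ?_
    have := K1_dist_lip (eta σ H b y' i) (eta σ H b y i)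
    linarith

theorem K4_F (a b : D) (y : D → ℝ) (y' : D → ℝ) (hb' : |y' b - y b| ≤ 1 / (25 * (MM a b : ℝ))) :
    |(MM a b : ℝ) * (y' b - ⌊y b⌋) - (MM a b : ℝ) * Int.fract (y b)| ≤ 1 / 25 := by
  have hM : (1 : ℝ) ≤ (MM a b : ℝ) := by exact_mod_cast K2_MM a b
  have hM0 : (0 : ℝ) < (MM a b : ℝ) := by linarith
  have e : (MM a b : ℝ) * (y' b - ⌊y b⌋) - (MM a b : ℝ) * Int.fract (y b)
      = (MM a b : ℝ) * (y' b - y b) := by
    rw [Int.fract]; ring
  rw [e, abs_mul, abs_of_pos hM0]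
  calc (MM a b : ℝ) * |y' b - y b| ≤ (MM a b : ℝ) * (1 / (25 * (MM a b : ℝ))) :=
        mul_le_mul_of_nonneg_left hb' hM0.le
    _ = 1 / 25 := by field_simp

theorem K4_box (a b : D) (y : D → ℝ) :
    |y b - ((⌊y b⌋ : ℝ) + ((nn a b y : ℝ) + 1 / 2) / (MM a b : ℝ))| =
      |(MM a b : ℝ) * Int.fract (y b) - (nn a b y + 1 / 2)| / (MM a b : ℝ) := by
  have hM : (1 : ℝ) ≤ (MM a b : ℝ) := by exact_mod_cast K2_MM a b
  have hM0 : (0 : ℝ) < (MM a b : ℝ) := by linarith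
  rw [eq_div_iff hM0.ne', ← abs_of_pos hM0, ← abs_mul, abs_of_pos hM0]
  congr 1
  rw [Int.fract]
  field_simp
  ring

/-- the value of the clock in all cases -/
theorem K4_cases (σ : ℝ → ℝ) (hσ : ∀ c, 0 < σ c) (lj : ℤ → ℝ) (H : Finset D) (a b : D) (y : D → ℝ)
    (hy : 3 / 10 / (MM a b : ℝ) ≤ |y b - ((⌊y b⌋ : ℝ) + ((nn a b y : ℝ) + 1 / 2) / (MM a b : ℝ))| ∨
      ∃ i : JJ a b, 35 / 100 / sH σ H ⌊y b⌋ i ≤ |y i - ZZ σ lj H a b y i|) :
    (∃ v : ℝ, ∀ y' : D → ℝ, |y' b - y b| ≤ 1 / (25 * (MM a b : ℝ)) → cb σ H a b y' = v) ∨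
    ∃ m : ℕ, ∀ y' : D → ℝ, |y' b - y b| ≤ 1 / (25 * (MM a b : ℝ)) →
      (∀ i : JJ a b, sH σ H ⌊y b⌋ i * |y' i - y i| ≤ 1 / 25) →
      ⌊y' b⌋ = ⌊y b⌋ ∧ cb σ H a b y' = (⌊y b⌋ : ℝ) + ∑ κ : JJ a b → Bool,
      if ((num a b κ : ℕ)) < m then wt a b κ (eta σ H b y') else 0 := by
  have hM : (1 : ℝ) ≤ (MM a b : ℝ) := by exact_mod_cast K2_MM a b
  have hM0 : (0 : ℝ) < (MM a b : ℝ) := by linarith
  obtain ⟨n1, n2, n3, n4⟩ := K4_nn a b y
  have n1' : (nn a b y : ℝ) + 1 ≤ (MM a b : ℝ) := by exact_mod_cast n1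
  rw [K4_box, div_le_div_iff_of_pos_right hM0] at hy
  set F := (MM a b : ℝ) * Int.fract (y b) with hF
  set n := nn a b y with hn
  set j := ⌊y b⌋ with hj
  -- cases
  by_cases hA : 3 / 10 ≤ |F - ((n : ℝ) + 1 / 2)|
  · rcases le_abs.1 hA with h4 | h1
    · -- F ≥ n + 4/5
      have hF5 : (n : ℝ) + 4 / 5 ≤ F := by linarith
      by_cases hn1 : n + 1 < MM a b
      · -- A3
        right
        refine ⟨n + 1, fun y' hb' _ => ?_⟩
        have hn2 : (n : ℝ) + 2 ≤ (MM a b : ℝ) := by exact_mod_cast hn1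
        have hn0 : (0 : ℝ) ≤ n := Nat.cast_nonneg _
        have hFF := abs_le.1 (K4_F a b y y' hb')
        rw [← hF, ← hj] at hFF
        obtain ⟨hfl, hG⟩ := K4_floor_aux (MM a b) hM (y' b) j (by linarith [hFF.1]) (by linarith [hFF.2])
        refine ⟨hfl, K4_val σ H a b y' j (n + 1) hfl _ hG ?_ ?_⟩
        · intro κ hκ
          left
          have : ((num a b κ : ℕ) : ℝ) ≤ n := by exact_mod_cast Nat.lt_succ_iff.1 hκ
          linarith [hFF.1]
        · intro κ hκ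
          left
          have : (n : ℝ) + 1 ≤ ((num a b κ : ℕ) : ℝ) := by exact_mod_cast hκ
          linarith [hFF.2]
      · -- A4
        left
        refine ⟨(j : ℝ) + 1, fun y' hb' => ?_⟩
        have hn2 : (MM a b : ℝ) = n + 1 := by
          have : MM a b = n + 1 := le_antisymm (not_lt.1 hn1) n1
          exact_mod_cast this
        have hn0 : (0 : ℝ) ≤ n := Nat.cast_nonneg _
        have hFF := abs_le.1 (K4_F a b y y' hb')
        rw [← hF, ← hj] at hFF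
        by_cases hlt : (MM a b : ℝ) * (y' b - j) < (MM a b : ℝ)
        · obtain ⟨hfl, hG⟩ := K4_floor_aux (MM a b) hM (y' b) j (by linarith [hFF.1]) hlt
          exact K4_all σ H a b y' j hfl _ hG (by linarith [hFF.1])
        · push Not at hlt
          have e : (MM a b : ℝ) * (y' b - ((j + 1 : ℤ) : ℝ)) = (MM a b : ℝ) * (y' b - j) - MM a b := by
            push_cast; ring
          obtain ⟨hfl, hG⟩ := K4_floor_aux (MM a b) hM (y' b) (j + 1) (by rw [e]; linarith)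
            (by rw [e]; linarith [hFF.2])
          have := K4_none σ H a b y' (j + 1) hfl _ hG (by rw [e]; linarith [hFF.2])
          rw [this]; push_cast; ring
    · -- F ≤ n + 1/5
      have hF5 : F ≤ (n : ℝ) + 1 / 5 := by linarith
      by_cases hn1 : 1 ≤ n
      · -- A1
        right
        refine ⟨n, fun y' hb' _ => ?_⟩
        have hn0 : (1 : ℝ) ≤ n := by exact_mod_cast hn1
        have hFF := abs_le.1 (K4_F a b y y' hb')
        rw [← hF, ← hj] at hFF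
        obtain ⟨hfl, hG⟩ := K4_floor_aux (MM a b) hM (y' b) j (by linarith [hFF.1]) (by linarith [hFF.2])
        refine ⟨hfl, K4_val σ H a b y' j n hfl _ hG ?_ ?_⟩
        · intro κ hκ
          left
          have : ((num a b κ : ℕ) : ℝ) + 1 ≤ n := by exact_mod_cast hκ
          linarith [hFF.1]
        · intro κ hκ
          left
          have : (n : ℝ) ≤ ((num a b κ : ℕ) : ℝ) := by exact_mod_cast hκ
          linarith [hFF.2]
      · -- A2
        left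
        refine ⟨(j : ℝ), fun y' hb' => ?_⟩
        have hn2 : (n : ℝ) = 0 := by
          have : n = 0 := by omega
          exact_mod_cast this
        have hFF := abs_le.1 (K4_F a b y y' hb')
        rw [← hF, ← hj] at hFF
        by_cases hlt : 0 ≤ (MM a b : ℝ) * (y' b - j)
        · obtain ⟨hfl, hG⟩ := K4_floor_aux (MM a b) hM (y' b) j hlt (by linarith [hFF.2])
          exact K4_none σ H a b y' j hfl _ hG (by linarith [hFF.2])
        · push Not at hlt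
          have e : (MM a b : ℝ) * (y' b - ((j - 1 : ℤ) : ℝ)) = (MM a b : ℝ) * (y' b - j) + MM a b := by
            push_cast; ring
          obtain ⟨hfl, hG⟩ := K4_floor_aux (MM a b) hM (y' b) (j - 1) (by rw [e]; linarith [hFF.1])
            (by rw [e]; linarith [hFF.2])
          have := K4_all σ H a b y' (j - 1) hfl _ hG (by rw [e]; linarith [hFF.1])
          rw [this]; push_cast; ring
  · -- B
    have hy' : ∃ i : JJ a b, 35 / 100 / sH σ H j i ≤ |y i - ZZ σ lj H a b y i| :=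
      hy.resolve_left hA
    obtain ⟨i, hi⟩ := hy'
    push Not at hA
    have hA' := abs_lt.1 hA
    right
    refine ⟨n, fun y' hb' hJ => ?_⟩
    have hn0 : (0 : ℝ) ≤ n := Nat.cast_nonneg _
    have hFF := abs_le.1 (K4_F a b y y' hb')
    rw [← hF, ← hj] at hFF
    obtain ⟨hfl, hG⟩ := K4_floor_aux (MM a b) hM (y' b) j (by linarith [hFF.1, hA'.1])
      (by linarith [hFF.2, hA'.2])
    refine ⟨hfl, K4_val σ H a b y' j n hfl _ hG ?_ ?_⟩
    · intro κ hκ
      left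
      have : ((num a b κ : ℕ) : ℝ) + 1 ≤ n := by exact_mod_cast hκ
      linarith [hFF.1, hA'.1]
    · intro κ hκ
      rcases hκ.eq_or_lt with h | h
      · right
        have hκc : κ = col a b y := by
          apply (num a b).injective
          apply Fin.ext
          rw [n4]; exact h.symm
        rw [hκc]
        exact K4_wt_zero σ hσ lj H a b y i hi y' hfl (hJ i)
      · left
        have : (n : ℝ) + 1 ≤ ((num a b κ : ℕ) : ℝ) := by exact_mod_cast h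
        linarith [hFF.2, hA'.2]

theorem K4_indep (σ : ℝ → ℝ) (hσ : ∀ c, 0 < σ c) (lj : ℤ → ℝ) (H : Finset D) (a b : D) (hab : a ≠ b) (y : D → ℝ)
    (hy : 3 / 10 / (MM a b : ℝ) ≤ |y b - ((⌊y b⌋ : ℝ) + ((nn a b y : ℝ) + 1 / 2) / (MM a b : ℝ))| ∨
      ∃ i : JJ a b, 35 / 100 / sH σ H ⌊y b⌋ i ≤ |y i - ZZ σ lj H a b y i|)
    (y' y'' : D → ℝ) (hb' : |y' b - y b| ≤ 1 / (25 * (MM a b : ℝ))) (hb'' : |y'' b - y b| ≤ 1 / (25 * (MM a b : ℝ)))
    (h' : ∀ i : JJ a b, sH σ H ⌊y b⌋ i * |y' i - y i| ≤ 1 / 25)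
    (h'' : ∀ i : JJ a b, sH σ H ⌊y b⌋ i * |y'' i - y i| ≤ 1 / 25) (heq : ∀ i : JJ a b, y' i = y'' i) :
    cb σ H a b y' = cb σ H a b y'' := by
  rcases K4_cases σ hσ lj H a b y hy with ⟨v, hv⟩ | ⟨m, hm⟩
  · rw [hv y' hb', hv y'' hb'']
  · obtain ⟨f1, c1⟩ := hm y' hb' h'
    obtain ⟨f2, c2⟩ := hm y'' hb'' h''
    exact K4_val_congr σ H a b y' y'' ⌊y b⌋ m c1 c2 f1 f2 heq

/-- inside the `b`-interval of the box the floor does not change -/
theorem K4_floor (a b : D) (y : D → ℝ)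
    (hy : |y b - ((⌊y b⌋ : ℝ) + ((nn a b y : ℝ) + 1 / 2) / (MM a b : ℝ))| < 3 / 10 / (MM a b : ℝ))
    (y' : D → ℝ) (hb' : |y' b - y b| ≤ 1 / (25 * (MM a b : ℝ))) : ⌊y' b⌋ = ⌊y b⌋ := by
  have hM : (1 : ℝ) ≤ (MM a b : ℝ) := by exact_mod_cast K2_MM a b
  have hM0 : (0 : ℝ) < (MM a b : ℝ) := by linarith
  obtain ⟨n1, n2, n3, n4⟩ := K4_nn a b y
  have n1' : (nn a b y : ℝ) + 1 ≤ (MM a b : ℝ) := by exact_mod_cast n1
  rw [K4_box, div_lt_div_iff_of_pos_right hM0] at hy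
  have hA' := abs_lt.1 hy
  have hn0 : (0 : ℝ) ≤ nn a b y := Nat.cast_nonneg _
  have hFF := abs_le.1 (K4_F a b y y' hb')
  exact (K4_floor_aux (MM a b) hM (y' b) ⌊y b⌋ (by linarith [hFF.1, hA'.1])
      (by linarith [hFF.2, hA'.2])).1

end H80.LD
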