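import Pool.Agent.H80.LD.K4

/-!
# K5: the box data are constant on the open box `6/5`

`y' ` with `|y' i - ZZ y i| < 6/5 * LL y i` for all `i`.
* `i = b`: `|y' b - (⌊y b⌋ + (n + 1/2)/M)| < 36/100/M`, so `M (y' b - ⌊y b⌋) ∈ (n + 14/100, n + 86/100) ⊂ (0, M)`: `⌊y' b⌋ = ⌊y b⌋`, `nn y' = n`, hence the same colour.
* `i ∈ J`: `s_i = sH σ H ⌊y b⌋ i` is the same; `|s_i y' i - z| < 42/100` where `z = round (eta y i)` or `⌊eta y i⌋ + 1/2`: `K1_round_eq`, `K1_floor_eq`.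
* `i = a`: `λ = lj ⌊y b⌋ > 0`, `|y' a / λ - (m + 3/8)| < 408/1000`, so `y' a / λ + 1/8 ∈ (m + 1/2 - 0.408, m + 1/2 + 0.408)`, `⌊y' a / λ + 1/8⌋ = m`.
-/

open Filter Topology Metric Set

namespace H80.LD

variable {D : Type*} [Fintype D] [DecidableEq D]

theorem K5_sH_pos (σ : ℝ → ℝ) (hσ : ∀ c, 0 < σ c) (H : Finset D) (j : ℤ) (i : D) : 0 < sH σ H j i := by
  unfold sH
  split_ifs
  · exact hσ _
  · exact one_pos

theorem K5_MM_pos (a b : D) : (0 : ℝ) < (MM a b : ℝ) := by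
  have h := K2_MM a b
  have h2 : 0 < MM a b := by omega
  exact_mod_cast h2

theorem K5_pos (σ : ℝ → ℝ) (hσ : ∀ c, 0 < σ c) (lj : ℤ → ℝ) (hl : ∀ j, 0 < lj j) (H : Finset D) (a b : D) (y : D → ℝ) (i : D) :
    0 < LL σ lj H a b y i := by
  unfold LL
  have h1 := K5_sH_pos σ hσ H ⌊y b⌋ i
  have h2 := K5_MM_pos a b
  have h3 := hl ⌊y b⌋
  split_ifs <;> positivity

theorem K5_ZZ_J (σ : ℝ → ℝ) (lj : ℤ → ℝ) (H : Finset D) (a b : D) (y : D → ℝ) (i : D) (hi : i ≠ a ∧ i ≠ b) :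
    ZZ σ lj H a b y i = (if col a b y ⟨i, hi⟩ then (round (eta σ H b y i) : ℝ) else
      (⌊eta σ H b y i⌋ : ℝ) + 1 / 2) / sH σ H ⌊y b⌋ i := by
  unfold ZZ
  rw [dif_pos hi]

theorem K5_ZZ_b (σ : ℝ → ℝ) (lj : ℤ → ℝ) (H : Finset D) (a b : D) (y : D → ℝ) :
    ZZ σ lj H a b y b = (⌊y b⌋ : ℝ) + ((nn a b y : ℝ) + 1 / 2) / (MM a b : ℝ) := by
  unfold ZZ
  rw [dif_neg (fun h => h.2 rfl), if_pos rfl]

theorem K5_ZZ_a (σ : ℝ → ℝ) (lj : ℤ → ℝ) (H : Finset D) (a b : D) (hab : a ≠ b) (y : D → ℝ) :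
    ZZ σ lj H a b y a = ((⌊y a / lj ⌊y b⌋ + 1 / 8⌋ : ℝ) + 3 / 8) * lj ⌊y b⌋ := by
  unfold ZZ
  rw [dif_neg (fun h => h.1 rfl), if_neg hab]

theorem K5_LL_J (σ : ℝ → ℝ) (lj : ℤ → ℝ) (H : Finset D) (a b : D) (y : D → ℝ) (i : D) (hi : i ≠ a ∧ i ≠ b) :
    LL σ lj H a b y i = 35 / 100 / sH σ H ⌊y b⌋ i := by
  unfold LL
  rw [if_pos hi]

theorem K5_LL_b (σ : ℝ → ℝ) (lj : ℤ → ℝ) (H : Finset D) (a b : D) (y : D → ℝ) :
    LL σ lj H a b y b = 3 / 10 / (MM a b : ℝ) := by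
  unfold LL
  rw [if_neg (fun h => h.2 rfl), if_pos rfl]

theorem K5_LL_a (σ : ℝ → ℝ) (lj : ℤ → ℝ) (H : Finset D) (a b : D) (hab : a ≠ b) (y : D → ℝ) :
    LL σ lj H a b y a = 34 / 100 * lj ⌊y b⌋ := by
  unfold LL
  rw [if_neg (fun h => h.1 rfl), if_neg hab]

theorem K5_col (a b : D) (y y' : D → ℝ) (h : nn a b y' = nn a b y) : col a b y' = col a b y := by
  unfold col
  simp only [h]

theorem K5_box (σ : ℝ → ℝ) (hσ : ∀ c, 0 < σ c) (lj : ℤ → ℝ) (hl : ∀ j, 0 < lj j) (nd : ℤ → ℤ → Prop)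
    (H : Finset D) (a b : D) (hab : a ≠ b) (y y' : D → ℝ)
    (h : ∀ i, |y' i - ZZ σ lj H a b y i| < 6 / 5 * LL σ lj H a b y i) :
    ZZ σ lj H a b y' = ZZ σ lj H a b y ∧ LL σ lj H a b y' = LL σ lj H a b y ∧
      (ndd lj nd b a y' ↔ ndd lj nd b a y) := by
  have hM := K5_MM_pos a b
  obtain ⟨hn1, hn2, hn3, -⟩ := K4_nn a b y
  have hb := h b
  rw [K5_ZZ_b, K5_LL_b, abs_lt] at hb
  have hn4 : (nn a b y : ℝ) + 1 ≤ (MM a b : ℝ) := by exact_mod_cast hn1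
  have e1 : 6 / 5 * (3 / 10 / (MM a b : ℝ)) = (36 / 100) / (MM a b : ℝ) := by ring
  rw [e1] at hb
  obtain ⟨hb1, hb2⟩ := hb
  -- multiply by M
  have hb1' : (nn a b y : ℝ) + 14 / 100 < (MM a b : ℝ) * (y' b - ⌊y b⌋) := by
    have h1 : ((nn a b y : ℝ) + 14 / 100) / (MM a b : ℝ) < y' b - ⌊y b⌋ := by
      have h2 : ((nn a b y : ℝ) + 14 / 100) / (MM a b : ℝ) =
        ((nn a b y : ℝ) + 1 / 2) / (MM a b : ℝ) - (36 / 100) / (MM a b : ℝ) := by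
        ring
      rw [h2]
      linarith
    rw [div_lt_iff₀ hM] at h1
    linarith
  have hb2' : (MM a b : ℝ) * (y' b - ⌊y b⌋) < (nn a b y : ℝ) + 86 / 100 := by
    have h1 : y' b - ⌊y b⌋ < ((nn a b y : ℝ) + 86 / 100) / (MM a b : ℝ) := by
      have h2 : ((nn a b y : ℝ) + 86 / 100) / (MM a b : ℝ) =
        ((nn a b y : ℝ) + 1 / 2) / (MM a b : ℝ) + (36 / 100) / (MM a b : ℝ) := by
        ring
      rw [h2]
      linarith
    rw [lt_div_iff₀ hM] at h1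
    linarith
  have hn0 : (0 : ℝ) ≤ (nn a b y : ℝ) := Nat.cast_nonneg _
  have hfl : ⌊y' b⌋ = ⌊y b⌋ := by
    rw [Int.floor_eq_iff]
    constructor
    · by_contra hlt
      push Not at hlt
      have h3 : (MM a b : ℝ) * (y' b - ⌊y b⌋) < 0 := mul_neg_of_pos_of_neg hM (by linarith)
      linarith
    · by_contra hle
      push Not at hle
      have h3 : (MM a b : ℝ) * 1 ≤ (MM a b : ℝ) * (y' b - ⌊y b⌋) :=
        mul_le_mul_of_nonneg_left (by linarith) hM.le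
      linarith
  have hnn : nn a b y' = nn a b y := by
    change ⌊(MM a b : ℝ) * Int.fract (y' b)⌋₊ = nn a b y
    have hfr : Int.fract (y' b) = y' b - ⌊y b⌋ := by
      rw [← hfl]
      rfl
    rw [hfr, Nat.floor_eq_iff (by linarith)]
    constructor <;> linarith
  have hcol := K5_col a b y y' hnn
  have ha := h a
  rw [K5_ZZ_a _ _ _ _ _ hab, K5_LL_a _ _ _ _ _ hab, abs_lt] at ha
  have hlam := hl ⌊y b⌋
  have hfa : ⌊y' a / lj ⌊y' b⌋ + 1 / 8⌋ = ⌊y a / lj ⌊y b⌋ + 1 / 8⌋ := by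
    rw [hfl, Int.floor_eq_iff]
    obtain ⟨ha1, ha2⟩ := ha
    constructor
    · have h3 : ((⌊y a / lj ⌊y b⌋ + 1 / 8⌋ : ℝ) - 1 / 8) ≤ y' a / lj ⌊y b⌋ := by
        rw [le_div_iff₀ hlam]
        nlinarith
      linarith
    · have h3 : y' a / lj ⌊y b⌋ < ((⌊y a / lj ⌊y b⌋ + 1 / 8⌋ : ℝ) + 7 / 8) := by
        rw [div_lt_iff₀ hlam]
        nlinarith
      linarith
  refine ⟨?_, ?_, ?_⟩
  · funext i
    by_cases hia : i = a
    · subst hia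
      rw [K5_ZZ_a _ _ _ _ _ hab, K5_ZZ_a _ _ _ _ _ hab, hfa, hfl]
    · by_cases hib : i = b
      · subst hib
        rw [K5_ZZ_b, K5_ZZ_b, hnn, hfl]
      · have hi : i ≠ a ∧ i ≠ b := ⟨hia, hib⟩
        have hs := K5_sH_pos σ hσ H ⌊y b⌋ i
        have hJ := h i
        rw [K5_LL_J _ _ _ _ _ _ _ hi, K5_ZZ_J _ _ _ _ _ _ _ hi] at hJ
        rw [K5_ZZ_J _ _ _ _ _ _ _ hi, K5_ZZ_J _ _ _ _ _ _ _ hi, hcol, hfl]
        have heta : eta σ H b y' i = sH σ H ⌊y b⌋ i * y' i := by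
          unfold eta
          rw [hfl]
        have key : ∀ w : ℝ, |y' i - w / sH σ H ⌊y b⌋ i| < 6 / 5 * (35 / 100 / sH σ H ⌊y b⌋ i) →
            |eta σ H b y' i - w| < 1 / 2 := by
          intro w hw
          have h4 : eta σ H b y' i - w = sH σ H ⌊y b⌋ i * (y' i - w / sH σ H ⌊y b⌋ i) := by
            rw [heta]
            field_simp
          rw [h4, abs_mul, abs_of_pos hs]
          have h5 := mul_lt_mul_of_pos_left hw hs
          have h6 : sH σ H ⌊y b⌋ i * (6 / 5 * (35 / 100 / sH σ H ⌊y b⌋ i)) = 42 / 100 := by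
            field_simp
            norm_num
          rw [h6] at h5
          linarith
        congr 1
        cases hc : col a b y ⟨i, hi⟩ with
        | true =>
          rw [hc] at hJ
          simp only [if_true] at hJ ⊢
          rw [K1_round_eq _ _ (key _ hJ)]
        | false =>
          rw [hc] at hJ
          simp only [Bool.false_eq_true, if_false] at hJ ⊢
          rw [K1_floor_eq _ _ (key _ hJ)]
  · funext i
    unfold LL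
    rw [hfl]
  · unfold ndd
    rw [hfa, hfl]

/-- outside the open box: one of the three kinds of good points -/
theorem K5_good (σ : ℝ → ℝ) (hσ : ∀ c, 0 < σ c) (lj : ℤ → ℝ) (hl : ∀ j, 0 < lj j)
    (H : Finset D) (a b : D) (hab : a ≠ b) (y : D → ℝ)
    (h : ∃ i, LL σ lj H a b y i ≤ |y i - ZZ σ lj H a b y i|) :
    (3 / 10 / (MM a b : ℝ) ≤ |y b - ((⌊y b⌋ : ℝ) + ((nn a b y : ℝ) + 1 / 2) / (MM a b : ℝ))| ∨
      ∃ i : JJ a b, 35 / 100 / sH σ H ⌊y b⌋ i ≤ |y i - ZZ σ lj H a b y i|) ∨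
    34 / 100 * lj ⌊y b⌋ ≤ |y a - ((⌊y a / lj ⌊y b⌋ + 1 / 8⌋ : ℝ) + 3 / 8) * lj ⌊y b⌋| := by
  obtain ⟨i, hi⟩ := h
  by_cases hia : i = a
  · subst hia
    rw [K5_ZZ_a _ _ _ _ _ hab, K5_LL_a _ _ _ _ _ hab] at hi
    exact Or.inr hi
  · by_cases hib : i = b
    · subst hib
      rw [K5_ZZ_b, K5_LL_b] at hi
      exact Or.inl (Or.inl hi)
    · rw [K5_LL_J _ _ _ _ _ _ _ ⟨hia, hib⟩] at hi
      exact Or.inl (Or.inr ⟨⟨i, hia, hib⟩, hi⟩)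

end H80.LD
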