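import Pool.Agent.H80.LD.F8
import Pool.Agent.H80.LD.B0b

/-!
# T0: definitions for the transfer of near-identity pairs along a punctured immersion

`β` is a map of `P = X × (D → ℝ)`, a local bi-Lipschitz homeomorphism (uniformly, in weighted norms) outside disjoint boxes.
-/

open Filter Topology Metric Set

namespace H80.LD

section
variable {X : Type*} [NormedAddCommGroup X] {D : Type*} [Fintype D]

/-- the box gauge: `y` is in the closed box with centre `Z y` and half sides `ℓ y` iff `gau Z ℓ y ≤ 1` -/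
noncomputable def gau (Z ℓ : (D → ℝ) → D → ℝ) (y : D → ℝ) : ℝ := ‖fun i => (y i - Z y i) / ℓ y i‖

/-- punctured immersion: `W` source weights, `W'` target weights, `Z, ℓ` centre and half sides of the box of a point
(meaningful where `need` holds), `β` is bi-Lipschitz on the `r`-ball around every point which is not in the open box. -/
structure PImm (W W' : X × (D → ℝ) → D → ℝ) (β : X × (D → ℝ) → X × (D → ℝ)) (Z ℓ : (D → ℝ) → D → ℝ)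
    (need : (D → ℝ) → Prop) (r C : ℝ) : Prop where
  r0 : 0 < r
  r1 : r ≤ 1 / 4
  C1 : 1 ≤ C
  pres : ∀ p, (β p).1 = p.1
  pos : ∀ p i, 0 < W p i
  pos' : ∀ p i, 0 < W' p i
  slow : ∀ p q : X × (D → ℝ), ‖sc (W p) (q - p)‖ ≤ 1 → ∀ i, W q i ≤ 2 * W p i
  low : ∀ p : X × (D → ℝ), (need p.2 → 1 ≤ gau Z ℓ p.2) → ∀ q q' : X × (D → ℝ),
    ‖sc (W p) (q - p)‖ ≤ r → ‖sc (W p) (q' - p)‖ ≤ r →
    ‖sc (W p) (q - q')‖ ≤ C * ‖sc (W' (β p)) (β q - β q')‖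
  upp : ∀ p : X × (D → ℝ), (need p.2 → 1 ≤ gau Z ℓ p.2) → ∀ q q' : X × (D → ℝ),
    ‖sc (W p) (q - p)‖ ≤ r → ‖sc (W p) (q' - p)‖ ≤ r →
    ‖sc (W' (β p)) (β q - β q')‖ ≤ C * ‖sc (W p) (q - q')‖
  surj : ∀ p : X × (D → ℝ), (need p.2 → 1 ≤ gau Z ℓ p.2) → ∀ w : X × (D → ℝ),
    ‖sc (W' (β p)) (w - β p)‖ ≤ r / C → ∃ q : X × (D → ℝ), ‖sc (W p) (q - p)‖ ≤ r ∧ β q = w
  lpos : ∀ y i, 0 < ℓ y i
  box : ∀ y y' : D → ℝ, need y → (∀ i, |y' i - Z y i| < 6 / 5 * ℓ y i) → Z y' = Z y ∧ ℓ y' = ℓ y ∧ need y'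
  size : ∀ (p : X × (D → ℝ)) (i : D), 1 / C ≤ W p i * ℓ p.2 i ∧ W p i * ℓ p.2 i ≤ C

open Classical in
/-- the lift of `e` along `β` -/
noncomputable def lift (W : X × (D → ℝ) → D → ℝ) (β : X × (D → ℝ) → X × (D → ℝ)) (r : ℝ)
    (e : X × (D → ℝ) → X × (D → ℝ)) (p : X × (D → ℝ)) : X × (D → ℝ) :=
  if h : ∃ q : X × (D → ℝ), ‖sc (W p) (q - p)‖ ≤ r / 4 ∧ β q = e (β p) then h.choose else p

/-- box coordinates -/
noncomputable def bo (z l : D → ℝ) (p : X × (D → ℝ)) : X × (D → ℝ) := (p.1, fun i => (p.2 i - z i) / l i)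

/-- inverse box coordinates -/
noncomputable def bi (z l : D → ℝ) (p : X × (D → ℝ)) : X × (D → ℝ) := (p.1, fun i => z i + l i * p.2 i)

/-- what F8 gives -/
structure Fills {V : Type*} [NormedAddCommGroup V] (f f' F F' : X × V → X × V) : Prop where
  pres : ∀ p, (F p).1 = p.1
  pres' : ∀ p, (F' p).1 = p.1
  np : ∀ (c : X) (ε L : ℝ), 1 ≤ L → 0 ≤ ε → ε ≤ 1 / 3400 →
        NP ε L ({c} ×ˢ {v : V | 21 / 20 < ‖v‖ ∧ ‖v‖ < 6 / 5}) f f' →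
        NP (10 ^ 5 * ε) (10 ^ 16 * L ^ 3) ({c} ×ˢ ball (0 : V) (6 / 5)) F F'
  eq : ∀ (c : X) (ε L : ℝ), 1 ≤ L → 0 ≤ ε → ε ≤ 1 / 3400 →
        NP ε L ({c} ×ˢ {v : V | 21 / 20 < ‖v‖ ∧ ‖v‖ < 6 / 5}) f f' →
        ∀ v : V, 219 / 200 ≤ ‖v‖ → ‖v‖ < 6 / 5 → F (c, v) = f (c, v) ∧ F' (c, v) = f' (c, v)
  idp : ∀ (c : X) (ε L : ℝ), 1 ≤ L → 0 ≤ ε → ε ≤ 1 / 3400 →
        NP ε L ({c} ×ˢ {v : V | 21 / 20 < ‖v‖ ∧ ‖v‖ < 6 / 5}) f f' →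
        (∀ v : V, 21 / 20 < ‖v‖ → ‖v‖ < 6 / 5 → f (c, v) = (c, v) ∧ f' (c, v) = (c, v)) →
          ∀ v : V, ‖v‖ < 6 / 5 → F (c, v) = (c, v) ∧ F' (c, v) = (c, v)

open Classical in
/-- the transferred map: filled in the boxes, lifted outside -/
noncomputable def tr (Z ℓ : (D → ℝ) → D → ℝ) (need : (D → ℝ) → Prop) (lf : X × (D → ℝ) → X × (D → ℝ))
    (Φ : (D → ℝ) → (D → ℝ) → X × (D → ℝ) → X × (D → ℝ)) (p : X × (D → ℝ)) : X × (D → ℝ) :=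
  if need p.2 ∧ gau Z ℓ p.2 < 11 / 10 then bi (Z p.2) (ℓ p.2) (Φ (Z p.2) (ℓ p.2) (bo (Z p.2) (ℓ p.2) p)) else lf p

/-- the lift in box coordinates -/
noncomputable def bl (W : X × (D → ℝ) → D → ℝ) (β : X × (D → ℝ) → X × (D → ℝ)) (r : ℝ)
    (e : X × (D → ℝ) → X × (D → ℝ)) (z l : D → ℝ) (p : X × (D → ℝ)) : X × (D → ℝ) :=
  bo z l (lift W β r e (bi z l p))

theorem NI.symm {W : X × (D → ℝ) → D → ℝ} {ε L : ℝ} {U : Set (X × (D → ℝ))}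
    {e e' : X × (D → ℝ) → X × (D → ℝ)} (h : NI W ε L U e e') : NI W ε L U e' e :=
  ⟨h.pres', h.pres, h.disp', h.disp, h.lip', h.lip, h.inv', h.inv⟩

theorem Fills.symm {V : Type*} [NormedAddCommGroup V] {f f' F F' : X × V → X × V} (h : Fills f f' F F') :
    Fills f' f F' F :=
  ⟨h.pres', h.pres, fun c ε L h1 h2 h3 h4 => B0b_symm (h.np c ε L h1 h2 h3 (B0b_symm h4)),
    fun c ε L h1 h2 h3 h4 v h5 h6 => (h.eq c ε L h1 h2 h3 (B0b_symm h4) v h5 h6).symm,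
    fun c ε L h1 h2 h3 h4 h5 v h6 =>
      (h.idp c ε L h1 h2 h3 (B0b_symm h4) (fun v h7 h8 => (h5 v h7 h8).symm) v h6).symm⟩

theorem T0_fills (f f' : X × (D → ℝ) → X × (D → ℝ)) (hf : ∀ p, (f p).1 = p.1) (hf' : ∀ p, (f' p).1 = p.1) :
    ∃ F F' : X × (D → ℝ) → X × (D → ℝ), Fills f f' F F' := by
  obtain ⟨F, F', h1, h2, h3⟩ := F8_fill f f' hf hf'
  exact ⟨F, F', h1, h2, fun c ε L a b d e => (h3 c ε L a b d e).1, fun c ε L a b d e => (h3 c ε L a b d e).2.1,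
    fun c ε L a b d e => (h3 c ε L a b d e).2.2⟩

end

end H80.LD
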