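import Pool.Agent.H80.LD.K0
import Pool.Agent.H80.LD.T0

/-!
# M0: patterns and fold maps

A pattern is a family of immersed curves `x ↦ (g1 c x, g2 c x)` in the plane with transversal field `(ν1, ν2)`, of speed about `σ c`.  `lj j` is the length of the cells
for `c ∈ [j, j+1]`; near the cell boundaries (columns) the field is vertical and `g2 = 0`.  The fold map replaces the coordinates `(y a, y b)` by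
`(0, c) + (g1, g2) (c, y a) + (y b - c) (ν1, ν2) (c, y a)` where `c = cb y`.
-/

open Filter Topology Metric Set

namespace H80.LD

structure Pat (σ : ℝ → ℝ) (lj : ℤ → ℝ) (g1 g2 ν1 ν2 : ℝ → ℝ → ℝ) (nd : ℤ → ℤ → Prop) (K : ℝ) : Prop where
  K1 : 1 ≤ K
  s1 : ∀ c, 1 ≤ σ c
  s2 : ∀ c c', |c - c'| ≤ K + 3 → σ c' ≤ 2 * σ c
  l1 : ∀ (j : ℤ) (c : ℝ), (j : ℝ) ≤ c → c ≤ j + 1 → 1 ≤ σ c * lj j ∧ σ c * lj j ≤ K
  p1 : ∀ c x x', |g1 c x - g1 c x'| ≤ K * (σ c * |x - x'|) ∧ |g2 c x - g2 c x'| ≤ K * (σ c * |x - x'|)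
  p2 : ∀ c c' x, |g1 c x - g1 c' x| ≤ K * |c - c'| ∧ |g2 c x - g2 c' x| ≤ K * |c - c'| ∧
    |ν1 c x - ν1 c' x| ≤ K * |c - c'| ∧ |ν2 c x - ν2 c' x| ≤ K * |c - c'|
  p3 : ∀ c x x', |ν1 c x - ν1 c x'| ≤ σ c * |x - x'| / 10 ^ 5 ∧ |ν2 c x - ν2 c x'| ≤ σ c * |x - x'| / 10 ^ 5
  p3b : ∀ c x, |ν1 c x| ≤ 1 ∧ |ν2 c x| ≤ 1
  p4 : ∀ c x0, ∃ D1 D2 : ℝ, |D1| ≤ 3 ∧ |D2| ≤ 1 ∧ 1 / 40 ≤ D1 * ν2 c x0 - D2 * ν1 c x0 ∧
    ∀ x x', σ c * |x - x0| ≤ 1 → σ c * |x' - x0| ≤ 1 →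
      |g1 c x - g1 c x' - σ c * (x - x') * D1| ≤ σ c * |x - x'| / 10 ^ 5 ∧
      |g2 c x - g2 c x' - σ c * (x - x') * D2| ≤ σ c * |x - x'| / 10 ^ 5
  p5 : ∀ c x, |g2 c x| ≤ K
  p6 : ∀ (j m : ℤ) (x c : ℝ), -(3 / 10) ≤ x / lj j - m → x / lj j - m ≤ 1 / 20 → (j : ℝ) ≤ c → c ≤ j + 1 →
    ν1 c x = 0 ∧ ν2 c x = 1 ∧ g2 c x = 0
  p7 : ∀ (j m : ℤ), ¬ nd j m → ∀ (x c : ℝ), (m : ℝ) ≤ x / lj j → x / lj j ≤ m + 1 → (j : ℝ) ≤ c → c ≤ j + 1 →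
    ν1 c x = 0 ∧ ν2 c x = 1 ∧ g2 c x = 0

/-- first planar coordinate -/
noncomputable def ph1 (g1 ν1 : ℝ → ℝ → ℝ) (c x s : ℝ) : ℝ := g1 c x + (s - c) * ν1 c x
/-- second planar coordinate -/
noncomputable def ph2 (g2 ν2 : ℝ → ℝ → ℝ) (c x s : ℝ) : ℝ := c + g2 c x + (s - c) * ν2 c x

/-- the fold map -/
noncomputable def fold {X D : Type*} [Fintype D] [DecidableEq D] (σ : ℝ → ℝ) (H : Finset D) (a b : D)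
    (g1 g2 ν1 ν2 : ℝ → ℝ → ℝ) (p : X × (D → ℝ)) : X × (D → ℝ) :=
  (p.1, fun i => if i = a then ph1 g1 ν1 (cb σ H a b p.2) (p.2 a) (p.2 b)
    else if i = b then ph2 g2 ν2 (cb σ H a b p.2) (p.2 a) (p.2 b) else p.2 i)

/-- the constant of the fold map -/
noncomputable def cc {D : Type*} [Fintype D] [DecidableEq D] (a b : D) (K : ℝ) : ℝ :=
  10 ^ 6 * K * (MM a b : ℝ) * (Fintype.card D : ℝ)

/-- the radius -/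
noncomputable def rr {D : Type*} [Fintype D] [DecidableEq D] (a b : D) : ℝ := 1 / (100 * (MM a b : ℝ))

end H80.LD
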