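import Pool.Agent.H80.LD.Defs

/-!
# M1: planar maps close to linear maps

`A (u, v) = (A1 u + B1 v, A2 u + B2 v)`, `δ = A1 B2 - A2 B1 ≥ 1/40`.  If `(f, g) = A (u, v)` then `δ u = B2 f - B1 g`, `δ v = A1 g - A2 f`, so `max |u| |v| ≤ 160 max |f| |g|`.
* `M1_low`: `‖z - z'‖ ≤ 160 ‖A (z - z')‖ ≤ 160 (‖G z - G z'‖ + ‖z - z'‖/1000)`, so `(1 - 0.16) ‖z - z'‖ ≤ 160 ‖G z - G z'‖`, `‖z - z'‖ ≤ 200 ‖G z - G z'‖`.
* `M1_surj`: `T z = z - A⁻¹ (G z - w)` maps the closed ball to itself and is a contraction: `T z - T z' = - A⁻¹ (G z - G z' - A (z - z'))` has norm `≤ 160/1000 ‖z - z'‖`;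
  `‖T z - z0‖ ≤ ‖T z - T z0‖ + ‖A⁻¹ (G z0 - w)‖ ≤ 0.16 ρ + 160 ρ/200 ≤ ρ`.  Banach fixed point theorem on the complete space `closedBall z0 ρ`
  (`ContractingWith.exists_fixedPoint'`, or `LipschitzOnWith`...), a fixed point has `A⁻¹ (G z - w) = 0`, so `G z = w`.
-/

open Filter Topology Metric Set

namespace H80.LD

theorem M1_bd (A1 A2 B1 B2 : ℝ) (hA1 : |A1| ≤ 3) (hA2 : |A2| ≤ 1) (hB1 : |B1| ≤ 1)
    (hB2 : |B2| ≤ 1) (hdet : 1 / 40 ≤ A1 * B2 - A2 * B1) (f g : ℝ) :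
    ‖(((B2 * f - B1 * g) / (A1 * B2 - A2 * B1), (A1 * g - A2 * f) / (A1 * B2 - A2 * B1)) : ℝ × ℝ)‖ ≤
      160 * ‖((f, g) : ℝ × ℝ)‖ := by
  set δ := A1 * B2 - A2 * B1 with hδ
  have hδ0 : 0 < δ := by linarith
  have hf : |f| ≤ ‖((f, g) : ℝ × ℝ)‖ := norm_fst_le ((f, g) : ℝ × ℝ)
  have hg : |g| ≤ ‖((f, g) : ℝ × ℝ)‖ := norm_snd_le ((f, g) : ℝ × ℝ)
  set m := ‖((f, g) : ℝ × ℝ)‖ with hm
  have hm0 : 0 ≤ m := norm_nonneg _
  have key : ∀ x : ℝ, |x| ≤ 4 * m → |x / δ| ≤ 160 * m := by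
    intro x hx
    rw [abs_div, abs_of_pos hδ0, div_le_iff₀ hδ0]
    nlinarith
  have e1 : |B2 * f| ≤ m := by
    rw [abs_mul]
    nlinarith [abs_nonneg B2, abs_nonneg f]
  have e2 : |B1 * g| ≤ m := by
    rw [abs_mul]
    nlinarith [abs_nonneg B1, abs_nonneg g]
  have e3 : |A1 * g| ≤ 3 * m := by
    rw [abs_mul]
    nlinarith [abs_nonneg A1, abs_nonneg g]
  have e4 : |A2 * f| ≤ m := by
    rw [abs_mul]
    nlinarith [abs_nonneg A2, abs_nonneg f]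
  rw [abs_le] at e1 e2 e3 e4
  rw [Prod.norm_mk]
  refine max_le (key _ ?_) (key _ ?_)
  · rw [abs_le]
    constructor <;> linarith [e1.1, e1.2, e2.1, e2.2]
  · rw [abs_le]
    constructor <;> linarith [e3.1, e3.2, e4.1, e4.2]

theorem M1_low (G : ℝ × ℝ → ℝ × ℝ) (A1 A2 B1 B2 : ℝ) (hA1 : |A1| ≤ 3) (hA2 : |A2| ≤ 1) (hB1 : |B1| ≤ 1)
    (hB2 : |B2| ≤ 1) (hdet : 1 / 40 ≤ A1 * B2 - A2 * B1) (z0 : ℝ × ℝ) (ρ : ℝ)
    (h : ∀ z ∈ closedBall z0 ρ, ∀ z' ∈ closedBall z0 ρ,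
      ‖G z - G z' - (A1 * (z - z').1 + B1 * (z - z').2, A2 * (z - z').1 + B2 * (z - z').2)‖ ≤ ‖z - z'‖ / 1000) :
    ∀ z ∈ closedBall z0 ρ, ∀ z' ∈ closedBall z0 ρ, ‖z - z'‖ ≤ 200 * ‖G z - G z'‖ := by
  intro z hz z' hz'
  have h1 := h z hz z' hz'
  set u := (z - z').1 with hu
  set v := (z - z').2 with hv
  have hδ0 : A1 * B2 - A2 * B1 ≠ 0 := by
    intro h0
    rw [h0] at hdet
    norm_num at hdet
  have h2 := M1_bd A1 A2 B1 B2 hA1 hA2 hB1 hB2 hdet (A1 * u + B1 * v) (A2 * u + B2 * v)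
  have e : (((B2 * (A1 * u + B1 * v) - B1 * (A2 * u + B2 * v)) / (A1 * B2 - A2 * B1),
      (A1 * (A2 * u + B2 * v) - A2 * (A1 * u + B1 * v)) / (A1 * B2 - A2 * B1)) : ℝ × ℝ) = z - z' := by
    apply Prod.ext
    · show _ = u
      simp only
      rw [div_eq_iff hδ0]
      ring
    · show _ = v
      simp only
      rw [div_eq_iff hδ0]
      ring
  rw [e] at h2
  have h3 : ‖((A1 * u + B1 * v, A2 * u + B2 * v) : ℝ × ℝ)‖ ≤ ‖G z - G z'‖ + ‖z - z'‖ / 1000 := by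
    have e2 : ((A1 * u + B1 * v, A2 * u + B2 * v) : ℝ × ℝ) =
        (G z - G z') - (G z - G z' - (A1 * u + B1 * v, A2 * u + B2 * v)) := by abel
    calc ‖((A1 * u + B1 * v, A2 * u + B2 * v) : ℝ × ℝ)‖
        = ‖(G z - G z') - (G z - G z' - (A1 * u + B1 * v, A2 * u + B2 * v))‖ := congrArg _ e2
      _ ≤ ‖G z - G z'‖ + ‖G z - G z' - (A1 * u + B1 * v, A2 * u + B2 * v)‖ := norm_sub_le _ _
      _ ≤ _ := by linarith
  have h4 := norm_nonneg (G z - G z')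
  nlinarith

theorem M1_surj (G : ℝ × ℝ → ℝ × ℝ) (A1 A2 B1 B2 : ℝ) (hA1 : |A1| ≤ 3) (hA2 : |A2| ≤ 1) (hB1 : |B1| ≤ 1)
    (hB2 : |B2| ≤ 1) (hdet : 1 / 40 ≤ A1 * B2 - A2 * B1) (z0 : ℝ × ℝ) (ρ : ℝ) (hρ : 0 < ρ)
    (h : ∀ z ∈ closedBall z0 ρ, ∀ z' ∈ closedBall z0 ρ,
      ‖G z - G z' - (A1 * (z - z').1 + B1 * (z - z').2, A2 * (z - z').1 + B2 * (z - z').2)‖ ≤ ‖z - z'‖ / 1000) :
    ∀ w : ℝ × ℝ, ‖w - G z0‖ ≤ ρ / 200 → ∃ z ∈ closedBall z0 ρ, G z = w := by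
  intro w hw
  have hδ0 : A1 * B2 - A2 * B1 ≠ 0 := by
    intro h0
    rw [h0] at hdet
    norm_num at hdet
  set δ := A1 * B2 - A2 * B1 with hδ
  let Ai : ℝ × ℝ → ℝ × ℝ := fun p => ((B2 * p.1 - B1 * p.2) / δ, (A1 * p.2 - A2 * p.1) / δ)
  have hAi : ∀ p, ‖Ai p‖ ≤ 160 * ‖p‖ := fun p =>
    M1_bd A1 A2 B1 B2 hA1 hA2 hB1 hB2 hdet p.1 p.2
  have hsub : ∀ p q, Ai p - Ai q = Ai (p - q) := by
    intro p q
    apply Prod.ext
    · show (B2 * p.1 - B1 * p.2) / δ - (B2 * q.1 - B1 * q.2) / δ =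
        (B2 * (p.1 - q.1) - B1 * (p.2 - q.2)) / δ
      ring
    · show (A1 * p.2 - A2 * p.1) / δ - (A1 * q.2 - A2 * q.1) / δ =
        (A1 * (p.2 - q.2) - A2 * (p.1 - q.1)) / δ
      ring
  have hAA : ∀ d : ℝ × ℝ, Ai (A1 * d.1 + B1 * d.2, A2 * d.1 + B2 * d.2) = d := by
    intro d
    apply Prod.ext
    · show (B2 * (A1 * d.1 + B1 * d.2) - B1 * (A2 * d.1 + B2 * d.2)) / δ = d.1
      rw [div_eq_iff hδ0, hδ]
      ring
    · show (A1 * (A2 * d.1 + B2 * d.2) - A2 * (A1 * d.1 + B1 * d.2)) / δ = d.2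
      rw [div_eq_iff hδ0, hδ]
      ring
  have hA0 : ∀ p, Ai p = 0 → p = 0 := by
    intro p hp
    have h1 : (B2 * p.1 - B1 * p.2) / δ = 0 := congrArg Prod.fst hp
    have h2 : (A1 * p.2 - A2 * p.1) / δ = 0 := congrArg Prod.snd hp
    rw [div_eq_zero_iff] at h1 h2
    have h3 := h1.resolve_right hδ0
    have h4 := h2.resolve_right hδ0
    apply Prod.ext
    · show p.1 = 0
      have : δ * p.1 = 0 := by
        rw [hδ]
        linear_combination A1 * h3 + B1 * h4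
      exact (mul_eq_zero.1 this).resolve_left hδ0
    · show p.2 = 0
      have : δ * p.2 = 0 := by
        rw [hδ]
        linear_combination A2 * h3 + B2 * h4
      exact (mul_eq_zero.1 this).resolve_left hδ0
  let T : ℝ × ℝ → ℝ × ℝ := fun z => z - Ai (G z - w)
  have hT : ∀ z ∈ closedBall z0 ρ, ∀ z' ∈ closedBall z0 ρ,
      ‖T z - T z'‖ ≤ 16 / 100 * ‖z - z'‖ := by
    intro z hz z' hz'
    have h1 := h z hz z' hz'
    have e : T z - T z' =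
        -Ai (G z - G z' - (A1 * (z - z').1 + B1 * (z - z').2, A2 * (z - z').1 + B2 * (z - z').2)) := by
      rw [← hsub, hAA]
      show z - Ai (G z - w) - (z' - Ai (G z' - w)) = _
      have e1 : Ai (G z - G z') = Ai (G z - w) - Ai (G z' - w) := by
        rw [hsub]
        congr 1
        abel
      rw [e1]
      abel
    rw [e, norm_neg]
    refine (hAi _).trans ?_
    linarith
  have hz0 : z0 ∈ closedBall z0 ρ := mem_closedBall_self hρ.le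
  have hmaps : MapsTo T (closedBall z0 ρ) (closedBall z0 ρ) := by
    intro z hz
    rw [mem_closedBall, dist_eq_norm] at hz ⊢
    have h1 := hT z (by rwa [mem_closedBall, dist_eq_norm]) z0 hz0
    have h2 : ‖T z0 - z0‖ ≤ 160 * (ρ / 200) := by
      have e : T z0 - z0 = -Ai (G z0 - w) := by
        show z0 - Ai (G z0 - w) - z0 = _
        abel
      rw [e, norm_neg]
      refine (hAi _).trans ?_
      rw [norm_sub_rev]
      linarith
    have h3 : ‖T z - z0‖ ≤ ‖T z - T z0‖ + ‖T z0 - z0‖ := by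
      have e : T z - z0 = (T z - T z0) + (T z0 - z0) := by abel
      rw [e]
      exact norm_add_le _ _
    linarith
  have hcon : ContractingWith (16 / 100 : NNReal) (hmaps.restrict T (closedBall z0 ρ) (closedBall z0 ρ)) := by
    refine ⟨?_, LipschitzWith.of_dist_le_mul fun x y => ?_⟩
    · rw [← NNReal.coe_lt_coe]
      push_cast
      norm_num
    · rw [Subtype.dist_eq, Subtype.dist_eq, dist_eq_norm, dist_eq_norm]
      have := hT x.1 x.2 y.1 y.2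
      push_cast
      exact this
  obtain ⟨z, hz, hfix, -⟩ := hcon.exists_fixedPoint' isClosed_closedBall.isComplete hmaps hz0
    (edist_ne_top _ _)
  refine ⟨z, hz, ?_⟩
  have h1 : z - Ai (G z - w) = z := hfix
  have h2 : Ai (G z - w) = 0 := by
    have := congrArg (fun x => z - x) h1
    simpa using this
  exact sub_eq_zero.1 (hA0 _ h2)

end H80.LD
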