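import Pool.Agent.H80.LD.M0
import Pool.Agent.H80.LD.M1

/-!
# M2: the planar fold for fixed `c`

`G (u, v) = (ph1 c (x0 + u / σ) (s0 + v), ph2 c (x0 + u / σ) (s0 + v))`, `σ = σ c ≥ 1`, `z0 = 0`.  With `x = x0 + u/σ`, `s = s0 + v` etc.
`G z - G z' - A (z - z')`, `A1 = D1, A2 = D2` (from `p4` at `x0`), `B = (ν1, ν2) (c, x0)`, `σ (x - x') = u - u'`:
`ph1 (x,s) - ph1 (x',s') = [g1 x - g1 x'] + (s - s') ν1 x + (s' - c) (ν1 x - ν1 x')`, so the error in the first coordinate is at most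
`|u - u'|/10^5 + |s - s'| |ν1 x - ν1 x0| + |s' - c| |ν1 x - ν1 x'| ≤ (1 + 1 + 2) 10^{-5} ‖z - z'‖ ≤ ‖z - z'‖/1000`  (`|s' - c| ≤ 3/2 + 1/2`, `σ |x - x0| ≤ 1/2`).
Same for the second.  Apply M1 with `ρ ≤ 1/2`.
-/

open Filter Topology Metric Set

namespace H80.LD

/-- the error of the linear approximation in one coordinate -/
theorem M2_err1 {S c x0 s0 x s x' s' gx gx' D n0 nx nx' : ℝ} (hs : |s0 - c| ≤ 3 / 2)
    (h1 : S * |x - x0| ≤ 1 / 2) (h2' : |s' - s0| ≤ 1 / 2)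
    (hg : |gx - gx' - S * (x - x') * D| ≤ S * |x - x'| / 10 ^ 5)
    (hn0 : |nx - n0| ≤ S * |x - x0| / 10 ^ 5) (hn : |nx - nx'| ≤ S * |x - x'| / 10 ^ 5) :
    |(gx + (s - c) * nx) - (gx' + (s' - c) * nx') - (D * (S * (x - x')) + n0 * (s - s'))| ≤
      max (S * |x - x'|) |s - s'| / 1000 := by
  set M := max (S * |x - x'|) |s - s'| with hM
  have hM1 : S * |x - x'| ≤ M := le_max_left _ _
  have hM2 : |s - s'| ≤ M := le_max_right _ _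
  have hM0 : 0 ≤ M := (abs_nonneg _).trans hM2
  have e : (gx + (s - c) * nx) - (gx' + (s' - c) * nx') - (D * (S * (x - x')) + n0 * (s - s')) =
      (gx - gx' - S * (x - x') * D) + (s - s') * (nx - n0) + (s' - c) * (nx - nx') := by ring
  rw [e]
  have hc : |s' - c| ≤ 2 := by
    have : s' - c = (s' - s0) + (s0 - c) := by ring
    rw [this]
    exact (abs_add_le _ _).trans (by linarith)
  have b1 : |(s - s') * (nx - n0)| ≤ M * (1 / 2 / 10 ^ 5) := by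
    rw [abs_mul]
    exact mul_le_mul hM2 (hn0.trans (by gcongr)) (abs_nonneg _) hM0
  have b2 : |(s' - c) * (nx - nx')| ≤ 2 * (M / 10 ^ 5) := by
    rw [abs_mul]
    exact mul_le_mul hc (hn.trans (by gcongr)) (abs_nonneg _) (by norm_num)
  have b3 : |gx - gx' - S * (x - x') * D| ≤ M / 10 ^ 5 := hg.trans (by gcongr)
  have t := (abs_add_le ((gx - gx' - S * (x - x') * D) + (s - s') * (nx - n0))
    ((s' - c) * (nx - nx'))).trans (add_le_add_left (abs_add_le _ _) _)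
  have : M / 10 ^ 5 + M * (1 / 2 / 10 ^ 5) + 2 * (M / 10 ^ 5) ≤ M / 1000 := by
    have : M / 1000 - (M / 10 ^ 5 + M * (1 / 2 / 10 ^ 5) + 2 * (M / 10 ^ 5))
      = M * (193 / 200000) := by ring
    nlinarith
  linarith

theorem M2_err {σ : ℝ → ℝ} {lj : ℤ → ℝ} {g1 g2 ν1 ν2 : ℝ → ℝ → ℝ} {nd : ℤ → ℤ → Prop} {K : ℝ}
    (h : Pat σ lj g1 g2 ν1 ν2 nd K) (c x0 s0 : ℝ) (hs : |s0 - c| ≤ 3 / 2) :
    ∃ D1 D2 : ℝ, |D1| ≤ 3 ∧ |D2| ≤ 1 ∧ 1 / 40 ≤ D1 * ν2 c x0 - D2 * ν1 c x0 ∧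
    ∀ x s x' s' : ℝ, σ c * |x - x0| ≤ 1 / 2 → |s - s0| ≤ 1 / 2 → σ c * |x' - x0| ≤ 1 / 2 →
      |s' - s0| ≤ 1 / 2 →
      |ph1 g1 ν1 c x s - ph1 g1 ν1 c x' s' - (D1 * (σ c * (x - x')) + ν1 c x0 * (s - s'))| ≤
        max (σ c * |x - x'|) |s - s'| / 1000 ∧
      |ph2 g2 ν2 c x s - ph2 g2 ν2 c x' s' - (D2 * (σ c * (x - x')) + ν2 c x0 * (s - s'))| ≤
        max (σ c * |x - x'|) |s - s'| / 1000 := by
  obtain ⟨D1, D2, hD1, hD2, hd, hD⟩ := h.p4 c x0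
  refine ⟨D1, D2, hD1, hD2, hd, ?_⟩
  intro x s x' s' h1 h2 h1' h2'
  obtain ⟨e1, e2⟩ := hD x x' (by linarith) (by linarith)
  refine ⟨?_, ?_⟩
  · exact M2_err1 hs h1 h2' e1 (h.p3 c x x0).1 (h.p3 c x x').1
  · have := M2_err1 hs h1 h2' e2 (h.p3 c x x0).2 (h.p3 c x x').2 (s := s)
    have e : ph2 g2 ν2 c x s - ph2 g2 ν2 c x' s' - (D2 * (σ c * (x - x')) + ν2 c x0 * (s - s'))
      = (g2 c x + (s - c) * ν2 c x) - (g2 c x' + (s' - c) * ν2 c x')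
        - (D2 * (σ c * (x - x')) + ν2 c x0 * (s - s')) := by
      simp only [ph2]; ring
    rw [e]; exact this

theorem M2_low {σ : ℝ → ℝ} {lj : ℤ → ℝ} {g1 g2 ν1 ν2 : ℝ → ℝ → ℝ} {nd : ℤ → ℤ → Prop} {K : ℝ}
    (h : Pat σ lj g1 g2 ν1 ν2 nd K) (c x0 s0 : ℝ) (hs : |s0 - c| ≤ 3 / 2) (x s x' s' : ℝ)
    (h1 : σ c * |x - x0| ≤ 1 / 2) (h2 : |s - s0| ≤ 1 / 2) (h1' : σ c * |x' - x0| ≤ 1 / 2) (h2' : |s' - s0| ≤ 1 / 2) :
    max (σ c * |x - x'|) |s - s'| ≤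
      200 * max |ph1 g1 ν1 c x s - ph1 g1 ν1 c x' s'| |ph2 g2 ν2 c x s - ph2 g2 ν2 c x' s'| := by
  obtain ⟨D1, D2, hD1, hD2, hd, hD⟩ := M2_err h c x0 s0 hs
  obtain ⟨e1, e2⟩ := hD x s x' s' h1 h2 h1' h2'
  have hσ : 0 < σ c := lt_of_lt_of_le one_pos (h.s1 c)
  set f := ph1 g1 ν1 c x s - ph1 g1 ν1 c x' s'
  set g := ph2 g2 ν2 c x s - ph2 g2 ν2 c x' s'
  set U := σ c * (x - x') with hU
  set V := s - s' with hV
  have hUa : σ c * |x - x'| = |U| := by rw [hU, abs_mul, abs_of_pos hσ]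
  rw [hUa] at e1 e2 ⊢
  set M := max |U| |V| with hM
  set F := max |f| |g| with hF
  set a := f - (D1 * U + ν1 c x0 * V) with ha
  set b := g - (D2 * U + ν2 c x0 * V) with hb
  have hf : |f| ≤ F := le_max_left _ _
  have hg : |g| ≤ F := le_max_right _ _
  have hn1 : |ν1 c x0| ≤ 1 := (h.p3b c x0).1
  have hn2 : |ν2 c x0| ≤ 1 := (h.p3b c x0).2
  have hM0 : 0 ≤ M := (abs_nonneg _).trans (le_max_left _ _)
  have hfa : |f - a| ≤ F + M / 1000 := (abs_sub _ _).trans (add_le_add hf e1)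
  have hgb : |g - b| ≤ F + M / 1000 := (abs_sub _ _).trans (add_le_add hg e2)
  have hP : 0 ≤ F + M / 1000 := (abs_nonneg _).trans hfa
  have eU : (D1 * ν2 c x0 - D2 * ν1 c x0) * U = ν2 c x0 * (f - a) - ν1 c x0 * (g - b) := by
    rw [ha, hb]; ring
  have eV : (D1 * ν2 c x0 - D2 * ν1 c x0) * V = D1 * (g - b) - D2 * (f - a) := by
    rw [ha, hb]; ring
  have dpos : 0 < D1 * ν2 c x0 - D2 * ν1 c x0 := by linarith
  have mU : (D1 * ν2 c x0 - D2 * ν1 c x0) * |U| ≤ 4 * (F + M / 1000) := by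
    have := congrArg abs eU
    rw [abs_mul, abs_of_pos dpos] at this
    rw [this]
    refine (abs_sub _ _).trans ?_
    rw [abs_mul, abs_mul]
    have t1 : |ν2 c x0| * |f - a| ≤ 1 * (F + M / 1000) :=
      mul_le_mul hn2 hfa (abs_nonneg _) zero_le_one
    have t2 : |ν1 c x0| * |g - b| ≤ 1 * (F + M / 1000) :=
      mul_le_mul hn1 hgb (abs_nonneg _) zero_le_one
    linarith
  have mV : (D1 * ν2 c x0 - D2 * ν1 c x0) * |V| ≤ 4 * (F + M / 1000) := by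
    have := congrArg abs eV
    rw [abs_mul, abs_of_pos dpos] at this
    rw [this]
    refine (abs_sub _ _).trans ?_
    rw [abs_mul, abs_mul]
    have t1 : |D1| * |g - b| ≤ 3 * (F + M / 1000) :=
      mul_le_mul hD1 hgb (abs_nonneg _) (by norm_num)
    have t2 : |D2| * |f - a| ≤ 1 * (F + M / 1000) :=
      mul_le_mul hD2 hfa (abs_nonneg _) zero_le_one
    linarith
  have mM : 1 / 40 * M ≤ 4 * (F + M / 1000) := by
    have q1 := (mul_le_mul_of_nonneg_right hd (abs_nonneg U)).trans mU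
    have q2 := (mul_le_mul_of_nonneg_right hd (abs_nonneg V)).trans mV
    rcases max_choice |U| |V| with hc | hc
    · have : M = |U| := hc
      rw [this] at q1 ⊢
      exact q1
    · have : M = |V| := hc
      rw [this] at q2 ⊢
      exact q2
  have hF0 : 0 ≤ F := (abs_nonneg _).trans hf
  linarith

theorem M2_surj {σ : ℝ → ℝ} {lj : ℤ → ℝ} {g1 g2 ν1 ν2 : ℝ → ℝ → ℝ} {nd : ℤ → ℤ → Prop} {K : ℝ}
    (h : Pat σ lj g1 g2 ν1 ν2 nd K) (c x0 s0 : ℝ) (hs : |s0 - c| ≤ 3 / 2) (ρ : ℝ) (hρ0 : 0 < ρ) (hρ : ρ ≤ 1 / 2)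
    (w1 w2 : ℝ) (h1 : |w1 - ph1 g1 ν1 c x0 s0| ≤ ρ / 200) (h2 : |w2 - ph2 g2 ν2 c x0 s0| ≤ ρ / 200) :
    ∃ x s, σ c * |x - x0| ≤ ρ ∧ |s - s0| ≤ ρ ∧ ph1 g1 ν1 c x s = w1 ∧ ph2 g2 ν2 c x s = w2 := by
  obtain ⟨D1, D2, hD1, hD2, hd, hD⟩ := M2_err h c x0 s0 hs
  have hσ : 0 < σ c := lt_of_lt_of_le one_pos (h.s1 c)
  have hn1 : |ν1 c x0| ≤ 1 := (h.p3b c x0).1
  have hn2 : |ν2 c x0| ≤ 1 := (h.p3b c x0).2
  have hx : ∀ u : ℝ, σ c * |x0 + u / σ c - x0| = |u| := by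
    intro u
    rw [add_sub_cancel_left, abs_div, abs_of_pos hσ, mul_div_cancel₀ _ hσ.ne']
  obtain ⟨z, hz, hGz⟩ := M1_surj
    (fun z => (ph1 g1 ν1 c (x0 + z.1 / σ c) (s0 + z.2), ph2 g2 ν2 c (x0 + z.1 / σ c) (s0 + z.2)))
    D1 D2 (ν1 c x0) (ν2 c x0) hD1 hD2 hn1 hn2 hd (0, 0) ρ hρ0 (by
      intro z hz z' hz'
      have hz1 : |z.1| ≤ ρ ∧ |z.2| ≤ ρ := by
        rw [mem_closedBall_iff_norm, Prod.norm_def, max_le_iff] at hz
        simpa using hz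
      have hz2 : |z'.1| ≤ ρ ∧ |z'.2| ≤ ρ := by
        rw [mem_closedBall_iff_norm, Prod.norm_def, max_le_iff] at hz'
        simpa using hz'
      obtain ⟨e1, e2⟩ := hD (x0 + z.1 / σ c) (s0 + z.2) (x0 + z'.1 / σ c) (s0 + z'.2)
        (by rw [hx]; linarith [hz1.1]) (by rw [add_sub_cancel_left]; linarith [hz1.2])
        (by rw [hx]; linarith [hz2.1]) (by rw [add_sub_cancel_left]; linarith [hz2.2])
      have hU : σ c * (x0 + z.1 / σ c - (x0 + z'.1 / σ c)) = (z - z').1 := by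
        rw [Prod.fst_sub]
        field_simp
        ring
      have hUa : σ c * |x0 + z.1 / σ c - (x0 + z'.1 / σ c)| = |(z - z').1| := by
        rw [← hU, abs_mul, abs_of_pos hσ]
      have hV : s0 + z.2 - (s0 + z'.2) = (z - z').2 := by
        rw [Prod.snd_sub]; ring
      rw [hU, hUa, hV] at e1 e2
      have hn : ‖z - z'‖ = max |(z - z').1| |(z - z').2| := by
        rw [Prod.norm_def]; rfl
      rw [Prod.norm_def, hn, max_le_iff]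
      exact ⟨e1, e2⟩) (w1, w2) (by
      rw [Prod.norm_def, max_le_iff]
      simp only [Prod.fst_sub, Prod.snd_sub, zero_div, add_zero, Real.norm_eq_abs]
      exact ⟨h1, h2⟩)
  have hz1 : |z.1| ≤ ρ ∧ |z.2| ≤ ρ := by
    rw [mem_closedBall_iff_norm, Prod.norm_def, max_le_iff] at hz
    simpa using hz
  refine ⟨x0 + z.1 / σ c, s0 + z.2, ?_, ?_, ?_, ?_⟩
  · rw [hx]; exact hz1.1
  · rw [add_sub_cancel_left]; exact hz1.2
  · exact congrArg Prod.fst hGz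
  · exact congrArg Prod.snd hGz

theorem M2_D1 {σ : ℝ → ℝ} {lj : ℤ → ℝ} {g1 g2 ν1 ν2 : ℝ → ℝ → ℝ} {nd : ℤ → ℤ → Prop} {K : ℝ}
    (h : Pat σ lj g1 g2 ν1 ν2 nd K) (c x0 : ℝ) (hf : ν1 c x0 = 0 ∧ ν2 c x0 = 1) :
    ∃ D1 : ℝ, 1 / 40 ≤ D1 ∧ ∀ x x', σ c * |x - x0| ≤ 1 / 2 → σ c * |x' - x0| ≤ 1 / 2 →
      |g1 c x - g1 c x' - σ c * (x - x') * D1| ≤ σ c * |x - x'| / 10 ^ 5 := by
  obtain ⟨D1, D2, hD1, hD2, hd, hD⟩ := h.p4 c x0
  rw [hf.1, hf.2] at hd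
  exact ⟨D1, by linarith, fun x x' h1 h2 => (hD x x' (by linarith) (by linarith)).1⟩

/-- columns: one dimensional version -/
theorem M2_low1 {σ : ℝ → ℝ} {lj : ℤ → ℝ} {g1 g2 ν1 ν2 : ℝ → ℝ → ℝ} {nd : ℤ → ℤ → Prop} {K : ℝ}
    (h : Pat σ lj g1 g2 ν1 ν2 nd K) (c x0 : ℝ) (hf : ν1 c x0 = 0 ∧ ν2 c x0 = 1) (x x' : ℝ)
    (h1 : σ c * |x - x0| ≤ 1 / 2) (h1' : σ c * |x' - x0| ≤ 1 / 2) :
    σ c * |x - x'| ≤ 50 * |g1 c x - g1 c x'| := by
  obtain ⟨D1, hd, hD⟩ := M2_D1 h c x0 hf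
  have hσ : 0 < σ c := lt_of_lt_of_le one_pos (h.s1 c)
  have e := hD x x' h1 h1'
  have h3 : |σ c * (x - x') * D1| = σ c * |x - x'| * D1 := by
    rw [abs_mul, abs_mul, abs_of_pos hσ, abs_of_pos (by linarith : (0 : ℝ) < D1)]
  have h4 : |σ c * (x - x') * D1| ≤ |g1 c x - g1 c x'| + σ c * |x - x'| / 10 ^ 5 := by
    have : σ c * (x - x') * D1 = (g1 c x - g1 c x')
      - (g1 c x - g1 c x' - σ c * (x - x') * D1) := by ring
    rw [this]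
    exact (abs_sub _ _).trans (add_le_add_right e _)
  have h5 : 0 ≤ σ c * |x - x'| := mul_nonneg hσ.le (abs_nonneg _)
  have h6 : σ c * |x - x'| * (1 / 40) ≤ σ c * |x - x'| * D1 := mul_le_mul_of_nonneg_left hd h5
  rw [h3] at h4
  have h7 : σ c * |x - x'| / 10 ^ 5 = σ c * |x - x'| * (1 / 10 ^ 5) := by ring
  rw [h7] at h4
  nlinarith [abs_nonneg (g1 c x - g1 c x')]

/-- `g1 c` is continuous and `g1 c x - g1 c x' ≥ σ (x - x') / 50` for `x ≥ x'` near `x0` (`D1 ≥ 1/40`), intermediate value theorem -/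
theorem M2_surj1 {σ : ℝ → ℝ} {lj : ℤ → ℝ} {g1 g2 ν1 ν2 : ℝ → ℝ → ℝ} {nd : ℤ → ℤ → Prop} {K : ℝ}
    (h : Pat σ lj g1 g2 ν1 ν2 nd K) (c x0 : ℝ) (hf : ν1 c x0 = 0 ∧ ν2 c x0 = 1) (ρ : ℝ) (hρ0 : 0 < ρ) (hρ : ρ ≤ 1 / 2)
    (w1 : ℝ) (h1 : |w1 - g1 c x0| ≤ ρ / 50) : ∃ x, σ c * |x - x0| ≤ ρ ∧ g1 c x = w1 := by
  obtain ⟨D1, hd, hD⟩ := M2_D1 h c x0 hf
  have hσ : 0 < σ c := lt_of_lt_of_le one_pos (h.s1 c)
  have hcont : Continuous (g1 c) := by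
    have hL : LipschitzWith (Real.toNNReal (K * σ c)) (g1 c) := by
      refine LipschitzWith.of_dist_le_mul fun x x' => ?_
      rw [Real.dist_eq, Real.dist_eq, Real.coe_toNNReal _
        (mul_nonneg (zero_le_one.trans h.K1) hσ.le)]
      calc |g1 c x - g1 c x'| ≤ K * (σ c * |x - x'|) := (h.p1 c x x').1
        _ = K * σ c * |x - x'| := by ring
    exact hL.continuous
  have hq : 0 < ρ / σ c := div_pos hρ0 hσ
  have hσq : σ c * (ρ / σ c) = ρ := mul_div_cancel₀ _ hσ.ne'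
  have a1 : g1 c x0 + ρ / 50 ≤ g1 c (x0 + ρ / σ c) := by
    have e := hD (x0 + ρ / σ c) x0
      (by rw [add_sub_cancel_left, abs_of_pos hq, hσq]; exact hρ)
      (by rw [sub_self, abs_zero, mul_zero]; norm_num)
    rw [add_sub_cancel_left, abs_of_pos hq, hσq] at e
    have e' := (abs_le.1 e).1
    nlinarith
  have a2 : g1 c (x0 - ρ / σ c) ≤ g1 c x0 - ρ / 50 := by
    have e := hD x0 (x0 - ρ / σ c)
      (by rw [sub_self, abs_zero, mul_zero]; norm_num)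
      (by rw [sub_sub_cancel_left, abs_neg, abs_of_pos hq, hσq]; exact hρ)
    rw [sub_sub_cancel, abs_of_pos hq, hσq] at e
    have e' := (abs_le.1 e).1
    nlinarith
  have hle : x0 - ρ / σ c ≤ x0 + ρ / σ c := by linarith
  have hw := abs_le.1 h1
  obtain ⟨x, hx, hxw⟩ := intermediate_value_Icc hle hcont.continuousOn
    (show w1 ∈ Set.Icc (g1 c (x0 - ρ / σ c)) (g1 c (x0 + ρ / σ c)) from
      ⟨by linarith [hw.1], by linarith [hw.2]⟩)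
  refine ⟨x, ?_, hxw⟩
  have : |x - x0| ≤ ρ / σ c := abs_le.2 ⟨by linarith [hx.1], by linarith [hx.2]⟩
  calc σ c * |x - x0| ≤ σ c * (ρ / σ c) := mul_le_mul_of_nonneg_left this hσ.le
    _ = ρ := hσq

theorem M2_upp1 {S K c c' x s x' s' gx gm gx' nx nm nx' : ℝ} (hK : 1 ≤ K)
    (hs : |s' - c'| ≤ 2) (a1 : |gx - gm| ≤ K * (S * |x - x'|)) (a2 : |gm - gx'| ≤ K * |c - c'|)
    (b1 : |nx - nm| ≤ S * |x - x'| / 10 ^ 5) (b2 : |nm - nx'| ≤ K * |c - c'|) (b3 : |nx| ≤ 1)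
    (hS : 0 ≤ S * |x - x'|) :
    |(gx + (s - c) * nx) - (gx' + (s' - c') * nx')| ≤
      5 * K * (|c - c'| + S * |x - x'| + |s - s'|) := by
  have e : (gx + (s - c) * nx) - (gx' + (s' - c') * nx') =
      ((gx - gm) + (gm - gx')) + (((s - s') - (c - c')) * nx + (s' - c') * ((nx - nm) + (nm - nx'))) := by
    ring
  rw [e]
  have t1 : |(gx - gm) + (gm - gx')| ≤ K * (S * |x - x'|) + K * |c - c'| :=
    (abs_add_le _ _).trans (add_le_add a1 a2)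
  have t2 : |((s - s') - (c - c')) * nx| ≤ (|s - s'| + |c - c'|) * 1 := by
    rw [abs_mul]
    exact mul_le_mul (abs_sub _ _) b3 (abs_nonneg _) (by positivity)
  have t3 : |(s' - c') * ((nx - nm) + (nm - nx'))| ≤ 2 * (S * |x - x'| / 10 ^ 5 + K * |c - c'|) := by
    rw [abs_mul]
    exact mul_le_mul hs ((abs_add_le _ _).trans (add_le_add b1 b2)) (abs_nonneg _) (by norm_num)
  have t4 := (abs_add_le ((gx - gm) + (gm - gx'))
    (((s - s') - (c - c')) * nx + (s' - c') * ((nx - nm) + (nm - nx'))))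
  have t5 := abs_add_le (((s - s') - (c - c')) * nx) ((s' - c') * ((nx - nm) + (nm - nx')))
  have hC : 0 ≤ |c - c'| := abs_nonneg _
  have hV : 0 ≤ |s - s'| := abs_nonneg _
  have k1 : |c - c'| ≤ K * |c - c'| := le_mul_of_one_le_left hC hK
  have k2 : S * |x - x'| ≤ K * (S * |x - x'|) := le_mul_of_one_le_left hS hK
  have k3 : |s - s'| ≤ K * |s - s'| := le_mul_of_one_le_left hV hK
  have k4 : S * |x - x'| / 10 ^ 5 ≤ S * |x - x'| := div_le_self hS (by norm_num)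
  have k5 : 5 * K * (|c - c'| + S * |x - x'| + |s - s'|)
    = 5 * (K * |c - c'|) + 5 * (K * (S * |x - x'|)) + 5 * (K * |s - s'|) := by ring
  rw [k5]
  linarith

/-- upper bound, all variables -/
theorem M2_upp {σ : ℝ → ℝ} {lj : ℤ → ℝ} {g1 g2 ν1 ν2 : ℝ → ℝ → ℝ} {nd : ℤ → ℤ → Prop} {K : ℝ}
    (h : Pat σ lj g1 g2 ν1 ν2 nd K) (c c' x s x' s' : ℝ) (hs : |s' - c'| ≤ 2) :
    |ph1 g1 ν1 c x s - ph1 g1 ν1 c' x' s'| ≤ 6 * K * (|c - c'| + σ c * |x - x'| + |s - s'|) ∧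
    |ph2 g2 ν2 c x s - ph2 g2 ν2 c' x' s'| ≤ 6 * K * (|c - c'| + σ c * |x - x'| + |s - s'|) := by
  have hσ : 0 < σ c := lt_of_lt_of_le one_pos (h.s1 c)
  have hS : 0 ≤ σ c * |x - x'| := mul_nonneg hσ.le (abs_nonneg _)
  have hK0 : 0 ≤ K := zero_le_one.trans h.K1
  have u1 := M2_upp1 (s := s) h.K1 hs (h.p1 c x x').1 (h.p2 c c' x').1 (h.p3 c x x').1
    (h.p2 c c' x').2.2.1 (h.p3b c x).1 hS
  have u2 := M2_upp1 (s := s) h.K1 hs (h.p1 c x x').2 (h.p2 c c' x').2.1 (h.p3 c x x').2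
    (h.p2 c c' x').2.2.2 (h.p3b c x).2 hS
  have hC : 0 ≤ |c - c'| := abs_nonneg _
  have hV : 0 ≤ |s - s'| := abs_nonneg _
  have k1 : |c - c'| ≤ K * |c - c'| := le_mul_of_one_le_left hC h.K1
  have k0 : 0 ≤ K * (|c - c'| + σ c * |x - x'| + |s - s'|) := by positivity
  have k2 : K * |c - c'| ≤ K * (|c - c'| + σ c * |x - x'| + |s - s'|) := by
    apply mul_le_mul_of_nonneg_left _ hK0
    linarith
  refine ⟨?_, ?_⟩
  · refine u1.trans ?_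
    linarith
  · have e : ph2 g2 ν2 c x s - ph2 g2 ν2 c' x' s'
      = (c - c') + ((g2 c x + (s - c) * ν2 c x) - (g2 c' x' + (s' - c') * ν2 c' x')) := by
      simp only [ph2]; ring
    rw [e]
    refine (abs_add_le _ _).trans ?_
    linarith

end H80.LD
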