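import Pool.Agent.H80.LD.T0

/-!
# T0b: elementary facts on weighted norms and box coordinates

`‖sc w v‖ = max ‖v.1‖ (sup_i |w i * v.2 i|)` (Prod.norm_def, pi_norm_le_iff_of_nonneg, norm_le_pi_norm).
* `T0b_add`, `T0b_sub`: triangle inequality, `sc w` is additive; `T0b_symm`: `‖sc w (p - q)‖ = ‖sc w (q - p)‖`.
* `T0b_mono`: if `0 ≤ w i ≤ c * w' i`, `1 ≤ c` then `‖sc w v‖ ≤ c * ‖sc w' v‖`.
* `T0b_zero`: if all `w i > 0` and `‖sc w (p - q)‖ ≤ 0` then `p = q`.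
* `T0b_nhds`: for every `δ > 0`, `‖sc w (q - p)‖ < δ` for all `q` near `p` (continuity; norms).
* `T0b_le`: `‖sc w v‖ ≤ c` iff `‖v.1‖ ≤ c` and `w i * |v.2 i| ≤ c` for all `i` (for `0 ≤ c`, `0 ≤ w`).
* `T0b_conv`: if `‖sc w (G q - G p)‖ ≤ K ‖sc w (q - p)‖` for `q` near `p` and all `w, w'` positive, then `G` is continuous at `p` (two different weights allowed):
  coordinatewise `|(G q - G p).2 i| ≤ (1 / w' i) * K * ‖sc w (q-p)‖ → 0`.
* boxes: `bo (bi p) = p`, `bi (bo p) = p` for `l > 0`; if `1/C ≤ w i * l i ≤ C`, `1 ≤ C`, `0 < l i`: `‖bo z l p - bo z l q‖ ≤ C ‖sc w (p - q)‖`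
  (`|p_i - q_i| / l_i = w_i |p_i-q_i| / (w_i l_i)`), `‖sc w (bi z l p - bi z l q)‖ ≤ C ‖p - q‖`.
* `bo`, `bi` are continuous (`continuous_pi`).
* `T0b_gau`: `Z p.2 = z`, `ℓ p.2 = l` imply `gau Z ℓ p.2 = ‖(bo z l p).2‖` (by definition).
-/

open Filter Topology Metric Set

namespace H80.LD

variable {X : Type*} [NormedAddCommGroup X] {D : Type*} [Fintype D]

theorem T0b_le (w : D → ℝ) (hw : ∀ i, 0 ≤ w i) (v : X × (D → ℝ)) (c : ℝ) (hc : 0 ≤ c) :
    ‖sc w v‖ ≤ c ↔ ‖v.1‖ ≤ c ∧ ∀ i, w i * |v.2 i| ≤ c := by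
  rw [Prod.norm_def, max_le_iff]
  have h1 : ‖(sc w v).2‖ ≤ c ↔ ∀ i, w i * |v.2 i| ≤ c := by
    rw [pi_norm_le_iff_of_nonneg hc]
    refine forall_congr' (fun i => ?_)
    show ‖w i * v.2 i‖ ≤ c ↔ _
    rw [norm_mul, Real.norm_eq_abs, Real.norm_eq_abs, abs_of_nonneg (hw i)]
  rw [h1]
  rfl

theorem T0b_lt (w : D → ℝ) (hw : ∀ i, 0 ≤ w i) (v : X × (D → ℝ)) (c : ℝ) (hc : 0 < c) :
    ‖sc w v‖ < c ↔ ‖v.1‖ < c ∧ ∀ i, w i * |v.2 i| < c := by
  rw [Prod.norm_def, max_lt_iff]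
  have h1 : ‖(sc w v).2‖ < c ↔ ∀ i, w i * |v.2 i| < c := by
    rw [pi_norm_lt_iff hc]
    refine forall_congr' (fun i => ?_)
    show ‖w i * v.2 i‖ < c ↔ _
    rw [norm_mul, Real.norm_eq_abs, Real.norm_eq_abs, abs_of_nonneg (hw i)]
  rw [h1]
  rfl

theorem T0b_fst (w : D → ℝ) (v : X × (D → ℝ)) : ‖v.1‖ ≤ ‖sc w v‖ := by
  exact norm_fst_le (sc w v)

theorem T0b_coord (w : D → ℝ) (hw : ∀ i, 0 ≤ w i) (v : X × (D → ℝ)) (i : D) : w i * |v.2 i| ≤ ‖sc w v‖ := by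
  exact ((T0b_le w hw v _ (norm_nonneg _)).1 le_rfl).2 i

theorem T0b_tri (w : D → ℝ) (p q s : X × (D → ℝ)) : ‖sc w (p - s)‖ ≤ ‖sc w (p - q)‖ + ‖sc w (q - s)‖ := by
  have h : sc w (p - s) = sc w (p - q) + sc w (q - s) := by
    unfold sc
    refine Prod.ext ?_ ?_
    · show p.1 - s.1 = (p.1 - q.1) + (q.1 - s.1)
      abel
    · funext i
      show w i * (p.2 i - s.2 i) = w i * (p.2 i - q.2 i) + w i * (q.2 i - s.2 i)
      ring
  rw [h]
  exact norm_add_le _ _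

theorem T0b_symm (w : D → ℝ) (p q : X × (D → ℝ)) : ‖sc w (p - q)‖ = ‖sc w (q - p)‖ := by
  have h : sc w (p - q) = -sc w (q - p) := by
    unfold sc
    refine Prod.ext ?_ ?_
    · show p.1 - q.1 = -(q.1 - p.1)
      abel
    · funext i
      show w i * (p.2 i - q.2 i) = -(w i * (q.2 i - p.2 i))
      ring
  rw [h, norm_neg]

theorem T0b_self (w : D → ℝ) (p : X × (D → ℝ)) : ‖sc w (p - p)‖ = 0 := by
  have h : sc w (p - p) = 0 := by
    unfold sc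
    refine Prod.ext ?_ ?_
    · show p.1 - p.1 = 0
      abel
    · funext i
      show w i * (p.2 i - p.2 i) = 0
      ring
  rw [h, norm_zero]

theorem T0b_mono (w w' : D → ℝ) (c : ℝ) (hc : 1 ≤ c) (hw : ∀ i, 0 ≤ w i) (h : ∀ i, w i ≤ c * w' i)
    (v : X × (D → ℝ)) : ‖sc w v‖ ≤ c * ‖sc w' v‖ := by
  have hc0 : 0 ≤ c := le_trans zero_le_one hc
  rw [T0b_le w hw v _ (mul_nonneg hc0 (norm_nonneg _))]
  have hw' : ∀ i, 0 ≤ w' i := by
    intro i
    by_contra h0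
    have h1 := h i
    have h2 := hw i
    nlinarith
  refine ⟨?_, fun i => ?_⟩
  · have h1 := T0b_fst w' v
    have h2 : ‖sc w' v‖ ≤ c * ‖sc w' v‖ := le_mul_of_one_le_left (norm_nonneg _) hc
    exact h1.trans h2
  · calc w i * |v.2 i| ≤ (c * w' i) * |v.2 i| := mul_le_mul_of_nonneg_right (h i) (abs_nonneg _)
      _ = c * (w' i * |v.2 i|) := by ring
      _ ≤ c * ‖sc w' v‖ := mul_le_mul_of_nonneg_left (T0b_coord w' hw' v i) hc0

theorem T0b_zero (w : D → ℝ) (hw : ∀ i, 0 < w i) (p q : X × (D → ℝ)) (h : ‖sc w (p - q)‖ ≤ 0) : p = q := by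
  have hw' : ∀ i, 0 ≤ w i := fun i => (hw i).le
  obtain ⟨h1, h2⟩ := (T0b_le w hw' (p - q) 0 le_rfl).1 h
  refine Prod.ext ?_ ?_
  · have h3 : p.1 - q.1 = 0 := norm_le_zero_iff.1 h1
    exact sub_eq_zero.1 h3
  · funext i
    have h3 : w i * |p.2 i - q.2 i| ≤ 0 := h2 i
    have h4 : |p.2 i - q.2 i| = 0 := by
      have h5 := abs_nonneg (p.2 i - q.2 i)
      have h6 := hw i
      by_contra h7
      have h8 : 0 < |p.2 i - q.2 i| := lt_of_le_of_ne h5 (Ne.symm h7)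
      have h9 := mul_pos h6 h8
      linarith
    exact sub_eq_zero.1 (abs_eq_zero.1 h4)

theorem T0b_nhds (w : D → ℝ) (p : X × (D → ℝ)) (δ : ℝ) (hδ : 0 < δ) : ∀ᶠ q in 𝓝 p, ‖sc w (q - p)‖ < δ := by
  have hc : Continuous (fun q : X × (D → ℝ) => ‖sc w (q - p)‖) := by
    refine Continuous.norm ?_
    unfold sc
    refine Continuous.prodMk ?_ ?_
    · exact continuous_fst.comp (continuous_id.sub continuous_const)
    · refine continuous_pi (fun i => continuous_const.mul ?_)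
      exact (continuous_apply i).comp (continuous_snd.comp (continuous_id.sub continuous_const))
  have h0 : ‖sc w (p - p)‖ < δ := by rw [T0b_self]; exact hδ
  exact hc.continuousAt.eventually (gt_mem_nhds h0)

theorem T0b_cont (w w' : D → ℝ) (hw' : ∀ i, 0 < w' i) (K : ℝ) (G : X × (D → ℝ) → X × (D → ℝ)) (p : X × (D → ℝ))
    (h : ∀ᶠ q in 𝓝 p, ‖sc w' (G q - G p)‖ ≤ K * ‖sc w (q - p)‖) : ContinuousAt G p := by
  have hnh : Tendsto (fun q : X × (D → ℝ) => ‖sc w (q - p)‖) (𝓝 p) (𝓝 0) := by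
    rw [Metric.tendsto_nhds]
    intro ε hε
    filter_upwards [T0b_nhds w p ε hε] with q hq
    rw [Real.dist_eq, sub_zero, abs_of_nonneg (norm_nonneg _)]
    exact hq
  have hK : Tendsto (fun q : X × (D → ℝ) => K * ‖sc w (q - p)‖) (𝓝 p) (𝓝 0) := by
    have := hnh.const_mul K
    rwa [mul_zero] at this
  have hG : Tendsto (fun q : X × (D → ℝ) => ‖sc w' (G q - G p)‖) (𝓝 p) (𝓝 0) :=
    squeeze_zero' (Filter.Eventually.of_forall (fun q => norm_nonneg _)) h hK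
  have hw0 : ∀ i, 0 ≤ w' i := fun i => (hw' i).le
  show Tendsto G (𝓝 p) (𝓝 (G p))
  have e1 : Tendsto (fun q => (G q).1) (𝓝 p) (𝓝 (G p).1) := by
    rw [tendsto_iff_norm_sub_tendsto_zero]
    exact squeeze_zero (fun q => norm_nonneg _) (fun q => T0b_fst w' (G q - G p)) hG
  have e2 : Tendsto (fun q => (G q).2) (𝓝 p) (𝓝 (G p).2) := by
    rw [tendsto_pi_nhds]
    intro i
    rw [tendsto_iff_norm_sub_tendsto_zero]
    have h3 : Tendsto (fun q : X × (D → ℝ) => (w' i)⁻¹ * ‖sc w' (G q - G p)‖) (𝓝 p) (𝓝 0) := by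
      have := hG.const_mul (w' i)⁻¹
      rwa [mul_zero] at this
    refine squeeze_zero (fun q => norm_nonneg _) (fun q => ?_) h3
    rw [le_inv_mul_iff₀ (hw' i)]
    exact T0b_coord w' hw0 (G q - G p) i
  exact e1.prodMk_nhds e2

theorem T0b_one (v : X × (D → ℝ)) : ‖sc (fun _ : D => (1 : ℝ)) v‖ = ‖v‖ := by
  have h : sc (fun _ : D => (1 : ℝ)) v = v := by
    unfold sc
    refine Prod.ext rfl ?_
    funext i
    exact one_mul _
  rw [h]

theorem T0b_bobi (z l : D → ℝ) (hl : ∀ i, 0 < l i) (p : X × (D → ℝ)) : bo z l (bi z l p) = p := by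
  unfold bo bi
  refine Prod.ext rfl ?_
  funext i
  show (z i + l i * p.2 i - z i) / l i = p.2 i
  have := (hl i).ne'
  field_simp
  ring

theorem T0b_bibo (z l : D → ℝ) (hl : ∀ i, 0 < l i) (p : X × (D → ℝ)) : bi z l (bo z l p) = p := by
  unfold bo bi
  refine Prod.ext rfl ?_
  funext i
  show z i + l i * ((p.2 i - z i) / l i) = p.2 i
  have := (hl i).ne'
  field_simp
  ring

theorem T0b_bo_lip (z l w : D → ℝ) (hl : ∀ i, 0 < l i) (C : ℝ) (hC : 1 ≤ C) (h : ∀ i, 1 / C ≤ w i * l i)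
    (p q : X × (D → ℝ)) : ‖bo z l p - bo z l q‖ ≤ C * ‖sc w (p - q)‖ := by
  have hC0 : 0 < C := lt_of_lt_of_le zero_lt_one hC
  have hw : ∀ i, 0 ≤ w i := by
    intro i
    have h1 : 0 < w i * l i := lt_of_lt_of_le (by positivity) (h i)
    by_contra h0
    have h2 : w i * l i ≤ 0 := mul_nonpos_of_nonpos_of_nonneg (not_le.1 h0).le (hl i).le
    linarith
  rw [← T0b_one, T0b_le _ (fun _ => zero_le_one) _ _ (mul_nonneg hC0.le (norm_nonneg _))]
  refine ⟨?_, fun i => ?_⟩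
  · show ‖p.1 - q.1‖ ≤ _
    exact (T0b_fst w (p - q)).trans (le_mul_of_one_le_left (norm_nonneg _) hC)
  · show 1 * |(p.2 i - z i) / l i - (q.2 i - z i) / l i| ≤ _
    have e : (p.2 i - z i) / l i - (q.2 i - z i) / l i = (p.2 i - q.2 i) / l i := by
      rw [← sub_div]; congr 1; ring
    rw [e, one_mul, abs_div, abs_of_pos (hl i), div_le_iff₀ (hl i)]
    have h1 : w i * |p.2 i - q.2 i| ≤ ‖sc w (p - q)‖ := T0b_coord w hw (p - q) i
    have h2 : 1 ≤ C * (w i * l i) := by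
      have := h i
      rw [div_le_iff₀ hC0] at this
      linarith
    have h3 := abs_nonneg (p.2 i - q.2 i)
    calc |p.2 i - q.2 i| ≤ (C * (w i * l i)) * |p.2 i - q.2 i| := le_mul_of_one_le_left h3 h2
      _ = (C * l i) * (w i * |p.2 i - q.2 i|) := by ring
      _ ≤ (C * l i) * ‖sc w (p - q)‖ :=
          mul_le_mul_of_nonneg_left h1 (mul_nonneg hC0.le (hl i).le)
      _ = C * ‖sc w (p - q)‖ * l i := by ring

theorem T0b_bi_lip (z l w : D → ℝ) (hl : ∀ i, 0 < l i) (hw : ∀ i, 0 ≤ w i) (C : ℝ) (hC : 1 ≤ C)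
    (h : ∀ i, w i * l i ≤ C) (p q : X × (D → ℝ)) : ‖sc w (bi z l p - bi z l q)‖ ≤ C * ‖p - q‖ := by
  have hC0 : 0 < C := lt_of_lt_of_le zero_lt_one hC
  rw [T0b_le w hw _ _ (mul_nonneg hC0.le (norm_nonneg _))]
  refine ⟨?_, fun i => ?_⟩
  · show ‖p.1 - q.1‖ ≤ _
    exact (norm_fst_le (p - q)).trans (le_mul_of_one_le_left (norm_nonneg _) hC)
  · show w i * |(z i + l i * p.2 i) - (z i + l i * q.2 i)| ≤ _
    have e : (z i + l i * p.2 i) - (z i + l i * q.2 i) = l i * (p.2 i - q.2 i) := by ring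
    rw [e, abs_mul, abs_of_pos (hl i), ← mul_assoc]
    have h1 : |p.2 i - q.2 i| ≤ ‖p - q‖ := (norm_le_pi_norm (p - q).2 i).trans (norm_snd_le _)
    exact mul_le_mul (h i) h1 (abs_nonneg _) hC0.le

theorem T0b_bo_cont (z l : D → ℝ) : Continuous (bo z l : X × (D → ℝ) → X × (D → ℝ)) := by
  unfold bo
  refine Continuous.prodMk continuous_fst (continuous_pi (fun i => ?_))
  exact (((continuous_apply i).comp continuous_snd).sub continuous_const).div_const _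

theorem T0b_bi_cont (z l : D → ℝ) : Continuous (bi z l : X × (D → ℝ) → X × (D → ℝ)) := by
  unfold bi
  refine Continuous.prodMk continuous_fst (continuous_pi (fun i => ?_))
  exact continuous_const.add (continuous_const.mul ((continuous_apply i).comp continuous_snd))

/-- the open `ρ`-box in terms of box coordinates -/
theorem T0b_box_iff (z l : D → ℝ) (hl : ∀ i, 0 < l i) (ρ : ℝ) (hρ : 0 < ρ) (p : X × (D → ℝ)) :
    ‖(bo z l p).2‖ < ρ ↔ ∀ i, |p.2 i - z i| < ρ * l i := by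
  rw [pi_norm_lt_iff hρ]
  refine forall_congr' (fun i => ?_)
  show ‖(p.2 i - z i) / l i‖ < ρ ↔ _
  rw [Real.norm_eq_abs, abs_div, abs_of_pos (hl i), div_lt_iff₀ (hl i)]

/-- `gau` is continuous where box data are constant: near `p` with `need p.2` and `gau < 6/5` the box data are constant -/
theorem T0b_near (Z ℓ : (D → ℝ) → D → ℝ) (need : (D → ℝ) → Prop) (hl : ∀ y i, 0 < ℓ y i)
    (hb : ∀ y y' : D → ℝ, need y → (∀ i, |y' i - Z y i| < 6 / 5 * ℓ y i) → Z y' = Z y ∧ ℓ y' = ℓ y ∧ need y')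
    (p : X × (D → ℝ)) (hn : need p.2) (hg : gau Z ℓ p.2 < 6 / 5) :
    ∀ᶠ q in 𝓝 p, Z q.2 = Z p.2 ∧ ℓ q.2 = ℓ p.2 ∧ need q.2 ∧ gau Z ℓ q.2 < 6 / 5 := by
  have h65 : (0 : ℝ) < 6 / 5 := by norm_num
  have hp : ∀ i, |p.2 i - Z p.2 i| < 6 / 5 * ℓ p.2 i :=
    (T0b_box_iff (Z p.2) (ℓ p.2) (hl p.2) (6 / 5) h65 p).1 hg
  have hev : ∀ᶠ q : X × (D → ℝ) in 𝓝 p, ∀ i, |q.2 i - Z p.2 i| < 6 / 5 * ℓ p.2 i := by
    rw [Filter.eventually_all]
    intro i
    have hc : Continuous (fun q : X × (D → ℝ) => |q.2 i - Z p.2 i|) :=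
      (((continuous_apply i).comp continuous_snd).sub continuous_const).abs
    exact hc.continuousAt.eventually (gt_mem_nhds (hp i))
  filter_upwards [hev] with q hq
  obtain ⟨h1, h2, h3⟩ := hb p.2 q.2 hn hq
  refine ⟨h1, h2, h3, ?_⟩
  have h4 := (T0b_box_iff (Z p.2) (ℓ p.2) (hl p.2) (6 / 5) h65 q).2 hq
  have h5 : gau Z ℓ q.2 = ‖(bo (Z p.2) (ℓ p.2) q).2‖ := by
    unfold gau
    rw [h1, h2]
    rfl
  rw [h5]
  exact h4

end H80.LD
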