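import Pool.Agent.H80.LD.M2
import Pool.Agent.H80.LD.K5
import Pool.Agent.H80.LD.T0b

/-!
# M3: elementary facts on the fold map and the weights

Standing: `a ≠ b`, `a ∉ H`, `b ∉ H`; `W = wgt σ (insert a H) b`, `W' = wgt σ H b`, `β = fold σ H a b g1 g2 ν1 ν2`, `c q = cb σ H a b q.2`, `M = MM a b`, `N v = ‖sc (W p) v‖`, `r = rr a b = 1/(100 M)`.
* `M3_disp`: `|(β q).2 b - q.2 b| ≤ |c - q.2 b| + |g2| + |q.2 b - c| |ν2| ≤ K + 2` (`K3_abs`).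
* `M3_w`: hence by `s2` (both directions) `W' (β p) i ≤ 2 W p i` and, for `i ≠ a`, `W p i ≤ 2 W' (β p) i`; for `i = a`, `W p a = σ (p.2 b)`, `W' (β p) a = 1`.
* `M3_sH`: `|⌊q.2 b⌋ - p.2 b| ≤ 2` if `|q.2 b - p.2 b| ≤ 1`, so `sH σ H ⌊q.2 b⌋ i ≤ 2 W p i` for `i ≠ a`.
* `M3_cb`: for `q, q'` with `|q.2 b - p.2 b| ≤ 1`: by `K3_lip` `|c q - c q'| ≤ 2 M |q.2 b - q'.2 b| + 20 M ∑_J W p i |q.2 i - q'.2 i|`.
* `M3_sig`: `|c q - p.2 b| ≤ 2` if `|q.2 b - p.2 b| ≤ 1`, so `σ (c q) ≤ 2 σ (p.2 b)`, `σ (p.2 b) ≤ 2 σ (c q)`.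
* `M3_slow`: `N (q - p) ≤ 1` implies `|q.2 b - p.2 b| ≤ 1` (weight of `b` is 1), so `W q i ≤ 2 W p i`.
* `M3_size`: `i ∈ J`: `W p i * (35/100) / sH`, with `sH / 2 ≤ W p i ≤ 2 sH`; `i = b`: `(3/10)/M`; `i = a`: `σ (p.2 b) * (34/100) * lj ⌊p.2 b⌋`, `l1`.
-/

open Filter Topology Metric Set

namespace H80.LD

variable {X : Type*} [NormedAddCommGroup X] {D : Type*} [Fintype D] [DecidableEq D]

theorem M3_disp {σ : ℝ → ℝ} {lj : ℤ → ℝ} {g1 g2 ν1 ν2 : ℝ → ℝ → ℝ} {nd : ℤ → ℤ → Prop} {K : ℝ}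
    (h : Pat σ lj g1 g2 ν1 ν2 nd K) (H : Finset D) (a b : D) (hab : a ≠ b) (q : X × (D → ℝ)) :
    |(fold σ H a b g1 g2 ν1 ν2 q).2 b - q.2 b| ≤ K + 2 := by
  have e : (fold σ H a b g1 g2 ν1 ν2 q).2 b =
      ph2 g2 ν2 (cb σ H a b q.2) (q.2 a) (q.2 b) := by
    show (if b = a then ph1 g1 ν1 (cb σ H a b q.2) (q.2 a) (q.2 b)
      else if b = b then ph2 g2 ν2 (cb σ H a b q.2) (q.2 a) (q.2 b) else q.2 b) = _
    rw [if_neg hab.symm, if_pos rfl]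
  rw [e]
  unfold ph2
  have h1 := K3_abs σ H a b q.2
  have h2 := h.p5 (cb σ H a b q.2) (q.2 a)
  have h3 := (h.p3b (cb σ H a b q.2) (q.2 a)).2
  have h4 : |(q.2 b - cb σ H a b q.2) * ν2 (cb σ H a b q.2) (q.2 a)| ≤ 1 := by
    rw [abs_mul]
    exact mul_le_one₀ h1 (abs_nonneg _) h3
  rw [abs_le] at h1 h2 h4 ⊢
  constructor
  · linarith [h1.1, h1.2, h2.1, h2.2, h4.1, h4.2]
  · linarith [h1.1, h1.2, h2.1, h2.2, h4.1, h4.2]

theorem M3_ins (H : Finset D) (a i : D) (hi : i ≠ a) : i ∈ insert a H ↔ i ∈ H := by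
  rw [Finset.mem_insert]
  exact ⟨fun h => h.resolve_left hi, Or.inr⟩

theorem M3_w {σ : ℝ → ℝ} {lj : ℤ → ℝ} {g1 g2 ν1 ν2 : ℝ → ℝ → ℝ} {nd : ℤ → ℤ → Prop} {K : ℝ}
    (h : Pat σ lj g1 g2 ν1 ν2 nd K) (H : Finset D) (a b : D) (hab : a ≠ b) (ha : a ∉ H) (p : X × (D → ℝ)) (i : D)
    (hi : i ≠ a) :
    wgt σ H b (fold σ H a b g1 g2 ν1 ν2 p) i ≤ 2 * wgt σ (insert a H) b p i ∧
    wgt σ (insert a H) b p i ≤ 2 * wgt σ H b (fold σ H a b g1 g2 ν1 ν2 p) i := by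
  have h1 := M3_disp h H a b hab p
  have h2 := h.s2 (p.2 b) ((fold σ H a b g1 g2 ν1 ν2 p).2 b) (by
    rw [abs_sub_comm]
    linarith)
  have h3 := h.s2 ((fold σ H a b g1 g2 ν1 ν2 p).2 b) (p.2 b) (by linarith)
  unfold wgt
  by_cases hH : i ∈ H
  · have hH' : i ∈ insert a H := (M3_ins H a i hi).2 hH
    rw [if_pos hH, if_pos hH']
    exact ⟨h2, h3⟩
  · have hH' : i ∉ insert a H := fun h' => hH ((M3_ins H a i hi).1 h')
    rw [if_neg hH, if_neg hH']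
    constructor <;> norm_num

theorem M3_wa (σ : ℝ → ℝ) (H : Finset D) (a b : D) (ha : a ∉ H) (hb : b ∉ H) (hab : a ≠ b) (p : X × (D → ℝ)) :
    wgt σ H b p a = 1 ∧ wgt σ H b p b = 1 ∧ wgt σ (insert a H) b p a = σ (p.2 b) ∧ wgt σ (insert a H) b p b = 1 := by
  have hb' : b ∉ insert a H := fun h' => hb ((M3_ins H a b hab.symm).1 h')
  unfold wgt
  rw [if_neg ha, if_neg hb, if_pos (Finset.mem_insert_self a H), if_neg hb']
  exact ⟨rfl, rfl, rfl, rfl⟩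

theorem M3_sH {σ : ℝ → ℝ} {lj : ℤ → ℝ} {g1 g2 ν1 ν2 : ℝ → ℝ → ℝ} {nd : ℤ → ℤ → Prop} {K : ℝ}
    (h : Pat σ lj g1 g2 ν1 ν2 nd K) (H : Finset D) (a b : D) (p q : X × (D → ℝ)) (hq : |q.2 b - p.2 b| ≤ 1) (i : D)
    (hi : i ≠ a) :
    sH σ H ⌊q.2 b⌋ i ≤ 2 * wgt σ (insert a H) b p i ∧ wgt σ (insert a H) b p i ≤ 2 * sH σ H ⌊q.2 b⌋ i := by
  have hK := h.K1
  have h1 := Int.floor_le (q.2 b)
  have h2 := Int.lt_floor_add_one (q.2 b)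
  rw [abs_le] at hq
  have h3 : |p.2 b - (⌊q.2 b⌋ : ℝ)| ≤ K + 3 := by
    rw [abs_le]
    constructor <;> linarith [hq.1, hq.2]
  have h4 := h.s2 (p.2 b) (⌊q.2 b⌋ : ℝ) h3
  have h5 := h.s2 (⌊q.2 b⌋ : ℝ) (p.2 b) (by rwa [abs_sub_comm])
  unfold wgt sH
  by_cases hH : i ∈ H
  · have hH' : i ∈ insert a H := (M3_ins H a i hi).2 hH
    rw [if_pos hH, if_pos hH']
    exact ⟨h4, h5⟩
  · have hH' : i ∉ insert a H := fun h' => hH ((M3_ins H a i hi).1 h')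
    rw [if_neg hH, if_neg hH']
    constructor <;> norm_num

theorem M3_sig {σ : ℝ → ℝ} {lj : ℤ → ℝ} {g1 g2 ν1 ν2 : ℝ → ℝ → ℝ} {nd : ℤ → ℤ → Prop} {K : ℝ}
    (h : Pat σ lj g1 g2 ν1 ν2 nd K) (H : Finset D) (a b : D) (p q : X × (D → ℝ)) (hq : |q.2 b - p.2 b| ≤ 1) :
    σ (cb σ H a b q.2) ≤ 2 * σ (p.2 b) ∧ σ (p.2 b) ≤ 2 * σ (cb σ H a b q.2) := by
  have hK := h.K1
  have h1 := K3_abs σ H a b q.2
  rw [abs_le] at hq h1
  have h3 : |p.2 b - cb σ H a b q.2| ≤ K + 3 := by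
    rw [abs_le]
    constructor <;> linarith [hq.1, hq.2, h1.1, h1.2]
  exact ⟨h.s2 _ _ h3, h.s2 _ _ (by rwa [abs_sub_comm])⟩

theorem M3_cb {σ : ℝ → ℝ} {lj : ℤ → ℝ} {g1 g2 ν1 ν2 : ℝ → ℝ → ℝ} {nd : ℤ → ℤ → Prop} {K : ℝ}
    (h : Pat σ lj g1 g2 ν1 ν2 nd K) (H : Finset D) (a b : D) (p q q' : X × (D → ℝ)) (hq : |q.2 b - p.2 b| ≤ 1) :
    |cb σ H a b q.2 - cb σ H a b q'.2| ≤ 2 * (MM a b : ℝ) * |q.2 b - q'.2 b| +
      20 * (MM a b : ℝ) * ∑ i : JJ a b, wgt σ (insert a H) b p i * |q.2 i - q'.2 i| := by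
  have h1 := K3_lip σ (fun c => zero_le_one.trans (h.s1 c)) H a b q.2 q'.2
  have h2 : ∑ i : JJ a b, sH σ H ⌊q.2 b⌋ i * |q.2 i - q'.2 i| ≤
      2 * ∑ i : JJ a b, wgt σ (insert a H) b p i * |q.2 i - q'.2 i| := by
    rw [Finset.mul_sum]
    refine Finset.sum_le_sum fun i _ => ?_
    have h3 := mul_le_mul_of_nonneg_right (M3_sH h H a b p q hq i i.2.1).1
      (abs_nonneg (q.2 i - q'.2 i))
    linarith
  have hM : (0 : ℝ) ≤ 10 * (MM a b : ℝ) := by positivity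
  have h3 := mul_le_mul_of_nonneg_left h2 hM
  linarith

theorem M3_slow {σ : ℝ → ℝ} {lj : ℤ → ℝ} {g1 g2 ν1 ν2 : ℝ → ℝ → ℝ} {nd : ℤ → ℤ → Prop} {K : ℝ}
    (h : Pat σ lj g1 g2 ν1 ν2 nd K) (H : Finset D) (a b : D) (hab : a ≠ b) (hb : b ∉ H) (p q : X × (D → ℝ))
    (hq : ‖sc (wgt σ (insert a H) b p) (q - p)‖ ≤ 1) (i : D) :
    wgt σ (insert a H) b q i ≤ 2 * wgt σ (insert a H) b p i := by
  have hK := h.K1
  have hb' : b ∉ insert a H := fun h' => hb ((M3_ins H a b hab.symm).1 h')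
  have hw : ∀ i, 0 ≤ wgt σ (insert a H) b p i := fun i => by
    unfold wgt
    split_ifs
    · exact zero_le_one.trans (h.s1 _)
    · exact zero_le_one
  have h1 := T0b_coord (wgt σ (insert a H) b p) hw (q - p) b
  have h2 : wgt σ (insert a H) b p b = 1 := by
    unfold wgt
    rw [if_neg hb']
  rw [h2, one_mul] at h1
  have h3 : |q.2 b - p.2 b| ≤ 1 := h1.trans hq
  have h4 := h.s2 (p.2 b) (q.2 b) (by
    rw [abs_sub_comm]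
    linarith)
  unfold wgt
  split_ifs
  · exact h4
  · norm_num

theorem M3_cc {K : ℝ} (hK : 1 ≤ K) (a b : D) : 10 ^ 6 ≤ cc a b K ∧ 10 ^ 6 * K * (MM a b : ℝ) ≤ cc a b K := by
  have hM : (1 : ℝ) ≤ (MM a b : ℝ) := by exact_mod_cast K2_MM a b
  have hD : (1 : ℝ) ≤ (Fintype.card D : ℝ) := by
    have h1 : 0 < Fintype.card D := Fintype.card_pos_iff.2 ⟨a⟩
    exact_mod_cast h1
  have h1 : 1 ≤ K * (MM a b : ℝ) := one_le_mul_of_one_le_of_one_le hK hM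
  have h2 : 0 ≤ 10 ^ 6 * K * (MM a b : ℝ) := by positivity
  have h3 : 10 ^ 6 * K * (MM a b : ℝ) ≤ cc a b K := by
    unfold cc
    exact le_mul_of_one_le_right h2 hD
  refine ⟨le_trans ?_ h3, h3⟩
  calc (10 : ℝ) ^ 6 = 10 ^ 6 * 1 := (mul_one _).symm
    _ ≤ 10 ^ 6 * (K * (MM a b : ℝ)) := mul_le_mul_of_nonneg_left h1 (by positivity)
    _ = 10 ^ 6 * K * (MM a b : ℝ) := by ring

theorem M3_size {σ : ℝ → ℝ} {lj : ℤ → ℝ} {g1 g2 ν1 ν2 : ℝ → ℝ → ℝ} {nd : ℤ → ℤ → Prop} {K : ℝ}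
    (h : Pat σ lj g1 g2 ν1 ν2 nd K) (H : Finset D) (a b : D) (hab : a ≠ b) (ha : a ∉ H) (hb : b ∉ H)
    (p : X × (D → ℝ)) (i : D) :
    1 / cc a b K ≤ wgt σ (insert a H) b p i * LL σ lj H a b p.2 i ∧
      wgt σ (insert a H) b p i * LL σ lj H a b p.2 i ≤ cc a b K := by
  have hK := h.K1
  obtain ⟨hc1, hc2⟩ := M3_cc hK a b
  have hM : (1 : ℝ) ≤ (MM a b : ℝ) := by exact_mod_cast K2_MM a b
  have hM0 : (0 : ℝ) < (MM a b : ℝ) := by linarith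
  obtain ⟨-, -, hwa, hwb⟩ := M3_wa σ H a b ha hb hab p
  have hcK : K ≤ cc a b K := by
    refine le_trans ?_ hc2
    have h1 : K * 1 ≤ K * (MM a b : ℝ) := mul_le_mul_of_nonneg_left hM (by linarith)
    nlinarith
  have hcM : (MM a b : ℝ) ≤ cc a b K := by
    refine le_trans ?_ hc2
    have h1 : 1 * (MM a b : ℝ) ≤ K * (MM a b : ℝ) := mul_le_mul_of_nonneg_right hK hM0.le
    nlinarith
  have hc0 : 0 < cc a b K := by linarith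
  have hinv : 1 / cc a b K ≤ 1 / 10 ^ 6 := one_div_le_one_div_of_le (by norm_num) hc1
  by_cases hia : i = a
  · subst hia
    rw [hwa, K5_LL_a _ _ _ _ _ hab]
    obtain ⟨h1, h2⟩ := h.l1 ⌊p.2 b⌋ (p.2 b) (Int.floor_le _) (Int.lt_floor_add_one _).le
    have e : σ (p.2 b) * (34 / 100 * lj ⌊p.2 b⌋) = 34 / 100 * (σ (p.2 b) * lj ⌊p.2 b⌋) := by ring
    rw [e]
    constructor
    · norm_num at hinv ⊢
      linarith
    · linarith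
  · by_cases hib : i = b
    · subst hib
      rw [hwb, K5_LL_b, one_mul]
      constructor
      · have h1 : 1 / cc a i K ≤ 1 / (10 ^ 6 * (MM a i : ℝ)) := by
          refine one_div_le_one_div_of_le (by positivity) (le_trans ?_ hc2)
          have h1 : 1 * (MM a i : ℝ) ≤ K * (MM a i : ℝ) := mul_le_mul_of_nonneg_right hK hM0.le
          nlinarith
        refine h1.trans ?_
        rw [div_div, div_le_div_iff₀ (by positivity) (by positivity)]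
        nlinarith
      · have h1 : 3 / 10 / (MM a i : ℝ) ≤ 3 / 10 := div_le_self (by norm_num) hM
        linarith
    · rw [K5_LL_J _ _ _ _ _ _ _ ⟨hia, hib⟩]
      obtain ⟨h1, h2⟩ := M3_sH h H a b p p (by simp) i hia
      have hs : 0 < sH σ H ⌊p.2 b⌋ i := K5_sH_pos σ (fun c => zero_lt_one.trans_le (h.s1 c)) H _ i
      have h3 : 35 / 200 ≤ wgt σ (insert a H) b p i * (35 / 100 / sH σ H ⌊p.2 b⌋ i) := by
        rw [mul_div_assoc', le_div_iff₀ hs]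
        linarith
      have h4 : wgt σ (insert a H) b p i * (35 / 100 / sH σ H ⌊p.2 b⌋ i) ≤ 1 := by
        rw [mul_div_assoc', div_le_one hs]
        linarith
      constructor
      · norm_num at hinv h3 ⊢
        linarith
      · linarith

end H80.LD
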