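import Pool.Agent.H80.LD.M0

/-!
# P0: definitions of the patterns (all functions are piecewise linear or integrals of such)
-/

open Filter Topology Metric Set MeasureTheory

namespace H80.LD

/-- bump pair supported in `[1/10, 2/5]`, odd about `1/4` -/
noncomputable def T1f (u : ℝ) : ℝ := cl (20 * u - 2) - 2 * cl (10 * u - 2) + cl (20 * u - 7)

noncomputable def fp (w : ℝ) : ℝ := max 0 (1 - 2 * |w|)
noncomputable def fm (w : ℝ) : ℝ := max 0 (2 * |w| - 1)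
/-- odd, `2 w` on `[0, 1/2]`, `2 - 2 w` on `[1/2, 1]` -/
noncomputable def fs (w : ℝ) : ℝ := 2 * w - 4 * max (w - 1 / 2) 0 + 4 * max (-w - 1 / 2) 0

/-- pattern in the unit cell with parameters `A, θ ∈ [0,1]` -/
noncomputable def WW (A θ u : ℝ) : ℝ := A * (T1f ((1 + θ) * u) + θ * T1f (2 * u - 1))

/-- periodic pattern -/
noncomputable def pw (A θ z : ℝ) : ℝ := WW A θ (Int.fract z)

noncomputable def Ip (A θ : ℝ) : ℝ := ∫ u in (0 : ℝ)..1, fp (WW A θ u)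
noncomputable def Im (A θ : ℝ) : ℝ := ∫ u in (0 : ℝ)..1, fm (WW A θ u)

noncomputable def G1 (A θ α z : ℝ) : ℝ := ∫ t in (0 : ℝ)..z, (α * fp (pw A θ t) - fm (pw A θ t))
noncomputable def G2 (A θ z : ℝ) : ℝ := ∫ t in (0 : ℝ)..z, fs (pw A θ t)

noncomputable def Lam : ℝ := 10 ^ 8
noncomputable def Lp : ℝ := 10 ^ 10
noncomputable def KK : ℝ := 10 ^ 9

/-- the scale function -/
noncomputable def sg (c : ℝ) : ℝ := (2 : ℝ) ^ (max (c / Lp) 0)
noncomputable def lam' (i : ℕ) : ℝ := Lam / 2 ^ i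
noncomputable def th (i : ℕ) (c : ℝ) : ℝ := max (c / Lp) 0 - i
noncomputable def am (c : ℝ) : ℝ := cl (1 + c / Lp)
noncomputable def al (i : ℕ) (c : ℝ) : ℝ := (1 / sg c + Im (am c) (th i c)) / Ip (am c) (th i c)
noncomputable def Wf (i : ℕ) (c x : ℝ) : ℝ := pw (am c) (th i c) (x / lam' i)
noncomputable def g1f (i : ℕ) (c x : ℝ) : ℝ := lam' i * sg c * G1 (am c) (th i c) (al i c) (x / lam' i)
noncomputable def g2f (i : ℕ) (c x : ℝ) : ℝ := lam' i * sg c * G2 (am c) (th i c) (x / lam' i)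

noncomputable def lev (c : ℝ) : ℕ := ⌊c / Lp⌋₊

/-- the growing pattern -/
noncomputable def b1 (c x : ℝ) : ℝ := g1f (lev c) c x
noncomputable def b2 (c x : ℝ) : ℝ := g2f (lev c) c x
noncomputable def bn1 (c x : ℝ) : ℝ := -fs (Wf (lev c) c x)
noncomputable def bn2 (c x : ℝ) : ℝ := 1 - 2 * |Wf (lev c) c x|
noncomputable def blj (j : ℤ) : ℝ := lam' (lev (j : ℝ))
def bnd (j _m : ℤ) : Prop := -Lp ≤ (j : ℝ)

/-- the outermost pattern (no drift for `t ≥ 0`) -/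
noncomputable def Wo (t : ℝ) : ℝ := pw 1 0 (max t 0 / Lam)
noncomputable def alo : ℝ := Im 1 0 / Ip 1 0
noncomputable def Do (y : ℝ) : ℝ := alo * fp (Wo y) - fm (Wo y) + (1 - alo) * cl (1 - 20 * y / Lam)
noncomputable def o1 (_c t : ℝ) : ℝ := ∫ y in (0 : ℝ)..t, Do y
noncomputable def o2 (_c t : ℝ) : ℝ := ∫ y in (0 : ℝ)..t, fs (Wo y)
noncomputable def on1 (_c t : ℝ) : ℝ := -fs (Wo t)
noncomputable def on2 (_c t : ℝ) : ℝ := 1 - 2 * |Wo t|
noncomputable def olj (_j : ℤ) : ℝ := Lam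
def ond (_j m : ℤ) : Prop := 0 ≤ m

end H80.LD
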