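import Pool.Agent.H80.LD.P0
import Pool.Agent.H80.LD.K1

/-!
# P1: elementary facts on the piecewise linear functions

`cl` is the projection to `[0,1]`.  All statements by case distinction (`cl` by `K1_cl_zero`, `K1_cl_one`, `K1_cl_mid`).
* `T1f`: `0` for `u ≤ 1/10`; `20u-2` on `[1/10, 3/20]`; `1` on `[3/20, 1/5]`; `1 - 2 (10u - 2)` on `[1/5, 3/10]`; `-1` on `[3/10, 7/20]`; `20u - 8` on `[7/20, 2/5]`; `0` for `u ≥ 2/5`.
* `P1_odd`: `cl (1 - x) = 1 - cl x` and `20 (1/2 - u) - 2 = 1 - (20 u - 7)`, `10 (1/2-u) - 2 = 1 - (10u - 2)`, `20(1/2-u) - 7 = 1 - (20u-2)`.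
* Lipschitz with constant 20: piecewise linear; e.g. monotone pieces, or: `T1f u = min(...)`; simplest: `u ≤ v`; `cl` monotone and 1-Lipschitz; distinguish whether `10u - 2 ≤ 0`...: the slopes of the three terms are
  never active at the same time except `cl(20u-2)` constant.  Alternative: use `B0a`-type argument or the general lemma that a function which is `L`-Lipschitz on finitely many adjacent closed intervals covering `ℝ` is `L`-Lipschitz.
* `P1_det`: `D1 ν2 - D2 ν1` with `D1 = α fp w - fm w`, `D2 = fs w`, `ν1 = - fs w`, `ν2 = 1 - 2|w| = fp w - fm w`, equals `α fp² + fm² + fs²` (`fp fm = 0`); for `|w| ≤ 1/2`: `fm = 0`, `|fs| = 1 - fp`; for `|w| ≥ 1/2`: `fp = 0`, `|fs| = 1 - fm`; `a² + (1-a)² ≥ 1/2`,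
  `α ≥ 1/20`.
-/

open Filter Topology Metric Set MeasureTheory

namespace H80.LD

theorem P1_T_cases (u : ℝ) : (u ≤ 1 / 10 ∧ T1f u = 0) ∨ (1 / 10 ≤ u ∧ u ≤ 3 / 20 ∧ T1f u = 20 * u - 2) ∨
    (3 / 20 ≤ u ∧ u ≤ 1 / 5 ∧ T1f u = 1) ∨ (1 / 5 ≤ u ∧ u ≤ 3 / 10 ∧ T1f u = 5 - 20 * u) ∨
    (3 / 10 ≤ u ∧ u ≤ 7 / 20 ∧ T1f u = -1) ∨ (7 / 20 ≤ u ∧ u ≤ 2 / 5 ∧ T1f u = 20 * u - 8) ∨
    (2 / 5 ≤ u ∧ T1f u = 0) := by
  rcases le_total u (1 / 10) with h1 | h1
  · left
    refine ⟨h1, ?_⟩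
    unfold T1f
    rw [K1_cl_zero _ (by linarith), K1_cl_zero _ (by linarith), K1_cl_zero _ (by linarith)]
    norm_num
  right
  rcases le_total u (3 / 20) with h2 | h2
  · left
    refine ⟨h1, h2, ?_⟩
    unfold T1f
    rw [K1_cl_mid (20 * u - 2) (by linarith) (by linarith), K1_cl_zero (10 * u - 2) (by linarith),
      K1_cl_zero (20 * u - 7) (by linarith)]
    ring
  right
  rcases le_total u (1 / 5) with h3 | h3
  · left
    refine ⟨h2, h3, ?_⟩
    unfold T1f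
    rw [K1_cl_one (20 * u - 2) (by linarith), K1_cl_zero (10 * u - 2) (by linarith),
      K1_cl_zero (20 * u - 7) (by linarith)]
    ring
  right
  rcases le_total u (3 / 10) with h4 | h4
  · left
    refine ⟨h3, h4, ?_⟩
    unfold T1f
    rw [K1_cl_one (20 * u - 2) (by linarith), K1_cl_mid (10 * u - 2) (by linarith) (by linarith),
      K1_cl_zero (20 * u - 7) (by linarith)]
    ring
  right
  rcases le_total u (7 / 20) with h5 | h5
  · left
    refine ⟨h4, h5, ?_⟩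
    unfold T1f
    rw [K1_cl_one (20 * u - 2) (by linarith), K1_cl_one (10 * u - 2) (by linarith),
      K1_cl_zero (20 * u - 7) (by linarith)]
    ring
  right
  rcases le_total u (2 / 5) with h6 | h6
  · left
    refine ⟨h5, h6, ?_⟩
    unfold T1f
    rw [K1_cl_one (20 * u - 2) (by linarith), K1_cl_one (10 * u - 2) (by linarith),
      K1_cl_mid (20 * u - 7) (by linarith) (by linarith)]
    ring
  right
  refine ⟨h6, ?_⟩
  unfold T1f
  rw [K1_cl_one (20 * u - 2) (by linarith), K1_cl_one (10 * u - 2) (by linarith),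
    K1_cl_one (20 * u - 7) (by linarith)]
  norm_num

theorem P1_T_zero (u : ℝ) (h : u ≤ 1 / 10 ∨ 2 / 5 ≤ u) : T1f u = 0 := by
  unfold T1f
  rcases h with h | h
  · rw [K1_cl_zero (20 * u - 2) (by linarith), K1_cl_zero (10 * u - 2) (by linarith),
      K1_cl_zero (20 * u - 7) (by linarith)]
    norm_num
  · rw [K1_cl_one (20 * u - 2) (by linarith), K1_cl_one (10 * u - 2) (by linarith),
      K1_cl_one (20 * u - 7) (by linarith)]
    norm_num

theorem P1_T_one (u : ℝ) (h : 3 / 20 ≤ u) (h' : u ≤ 1 / 5) : T1f u = 1 := by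
  unfold T1f
  rw [K1_cl_one (20 * u - 2) (by linarith), K1_cl_zero (10 * u - 2) (by linarith),
    K1_cl_zero (20 * u - 7) (by linarith)]
  norm_num

theorem P1_T_neg (u : ℝ) (h : 3 / 10 ≤ u) (h' : u ≤ 7 / 20) : T1f u = -1 := by
  unfold T1f
  rw [K1_cl_one (20 * u - 2) (by linarith), K1_cl_one (10 * u - 2) (by linarith),
    K1_cl_zero (20 * u - 7) (by linarith)]
  norm_num

theorem P1_T_abs (u : ℝ) : |T1f u| ≤ 1 := by
  rw [abs_le]
  rcases P1_T_cases u with h | h | h | h | h | h | h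
  · rw [h.2]
    norm_num
  · rw [h.2.2]
    constructor <;> linarith [h.1, h.2.1]
  · rw [h.2.2]
    norm_num
  · rw [h.2.2]
    constructor <;> linarith [h.1, h.2.1]
  · rw [h.2.2]
    norm_num
  · rw [h.2.2]
    constructor <;> linarith [h.1, h.2.1]
  · rw [h.2]
    norm_num

theorem P1_T_lip_aux (u v : ℝ) (huv : u ≤ v) :
    T1f v - T1f u ≤ 20 * (v - u) ∧ -(20 * (v - u)) ≤ T1f v - T1f u := by
  rcases P1_T_cases u with ⟨h1, h⟩ | ⟨h1, h2, h⟩ | ⟨h1, h2, h⟩ | ⟨h1, h2, h⟩ | ⟨h1, h2, h⟩ | ⟨h1, h2, h⟩ | ⟨h1, h⟩ <;>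
  rcases P1_T_cases v with ⟨k1, k⟩ | ⟨k1, k2, k⟩ | ⟨k1, k2, k⟩ | ⟨k1, k2, k⟩ | ⟨k1, k2, k⟩ | ⟨k1, k2, k⟩ | ⟨k1, k⟩ <;>
  rw [h, k] <;> constructor <;> linarith

theorem P1_T_lip (u v : ℝ) : |T1f u - T1f v| ≤ 20 * |u - v| := by
  rcases le_total u v with h | h
  · have := P1_T_lip_aux u v h
    rw [abs_sub_comm u v, abs_of_nonneg (sub_nonneg.2 h), abs_le]
    constructor <;> linarith [this.1, this.2]
  · have := P1_T_lip_aux v u h
    rw [abs_of_nonneg (sub_nonneg.2 h), abs_le]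
    constructor <;> linarith [this.1, this.2]

theorem P1_cl_one_sub (x : ℝ) : cl (1 - x) = 1 - cl x := by
  rcases le_total x 0 with h | h
  · rw [K1_cl_zero x h, K1_cl_one (1 - x) (by linarith)]
    norm_num
  rcases le_total x 1 with h' | h'
  · rw [K1_cl_mid x h h', K1_cl_mid (1 - x) (by linarith) (by linarith)]
  · rw [K1_cl_one x h', K1_cl_zero (1 - x) (by linarith)]
    norm_num

theorem P1_odd (u : ℝ) : T1f (1 / 2 - u) = -T1f u := by
  unfold T1f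
  have e1 : 20 * (1 / 2 - u) - 2 = 1 - (20 * u - 7) := by ring
  have e2 : 10 * (1 / 2 - u) - 2 = 1 - (10 * u - 2) := by ring
  have e3 : 20 * (1 / 2 - u) - 7 = 1 - (20 * u - 2) := by ring
  rw [e1, e2, e3, P1_cl_one_sub, P1_cl_one_sub, P1_cl_one_sub]
  ring

theorem P1_f_zero : fp 0 = 1 ∧ fm 0 = 0 ∧ fs 0 = 0 := by
  unfold fp fm fs
  refine ⟨?_, ?_, ?_⟩
  · rw [abs_zero]
    norm_num
  · rw [abs_zero]
    norm_num
  · rw [max_eq_right (by norm_num : (0 : ℝ) - 1 / 2 ≤ 0), max_eq_right (by norm_num : -(0 : ℝ) - 1 / 2 ≤ 0)]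
    norm_num

theorem P1_f_one : fm 1 = 1 ∧ fm (-1) = 1 := by
  unfold fm
  rw [abs_neg, abs_one]
  norm_num

theorem P1_fp_lip (u v : ℝ) : |fp u - fp v| ≤ 2 * |u - v| := by
  unfold fp
  rw [abs_le]
  simp only [max_def]
  have h1 := abs_abs_sub_abs_le_abs_sub u v
  rw [abs_le] at h1
  constructor
  · split_ifs <;> linarith [abs_nonneg (u - v)]
  · split_ifs <;> linarith [abs_nonneg (u - v)]

theorem P1_fm_lip (u v : ℝ) : |fm u - fm v| ≤ 2 * |u - v| := by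
  unfold fm
  rw [abs_le]
  simp only [max_def]
  have h1 := abs_abs_sub_abs_le_abs_sub u v
  rw [abs_le] at h1
  constructor
  · split_ifs <;> linarith [abs_nonneg (u - v)]
  · split_ifs <;> linarith [abs_nonneg (u - v)]

theorem P1_fs_cases (w : ℝ) : (w ≤ -(1 / 2) ∧ fs w = -2 - 2 * w) ∨ (-(1 / 2) ≤ w ∧ w ≤ 1 / 2 ∧ fs w = 2 * w) ∨
    (1 / 2 ≤ w ∧ fs w = 2 - 2 * w) := by
  unfold fs
  rcases le_total w (-(1 / 2)) with h | h
  · left
    refine ⟨h, ?_⟩
    rw [max_eq_right (by linarith : w - 1 / 2 ≤ 0), max_eq_left (by linarith : 0 ≤ -w - 1 / 2)]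
    ring
  rcases le_total w (1 / 2) with h' | h'
  · right
    left
    refine ⟨h, h', ?_⟩
    rw [max_eq_right (by linarith : w - 1 / 2 ≤ 0), max_eq_right (by linarith : -w - 1 / 2 ≤ 0)]
    ring
  · right
    right
    refine ⟨h', ?_⟩
    rw [max_eq_left (by linarith : 0 ≤ w - 1 / 2), max_eq_right (by linarith : -w - 1 / 2 ≤ 0)]
    ring

theorem P1_fs_lip_aux (u v : ℝ) (huv : u ≤ v) :
    fs v - fs u ≤ 2 * (v - u) ∧ -(2 * (v - u)) ≤ fs v - fs u := by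
  rcases P1_fs_cases u with ⟨h1, h⟩ | ⟨h1, h2, h⟩ | ⟨h1, h⟩ <;>
  rcases P1_fs_cases v with ⟨k1, k⟩ | ⟨k1, k2, k⟩ | ⟨k1, k⟩ <;>
  rw [h, k] <;> constructor <;> linarith

theorem P1_fs_lip (u v : ℝ) : |fs u - fs v| ≤ 2 * |u - v| := by
  rcases le_total u v with h | h
  · have := P1_fs_lip_aux u v h
    rw [abs_sub_comm u v, abs_of_nonneg (sub_nonneg.2 h), abs_le]
    constructor <;> linarith [this.1, this.2]
  · have := P1_fs_lip_aux v u h
    rw [abs_of_nonneg (sub_nonneg.2 h), abs_le]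
    constructor <;> linarith [this.1, this.2]

theorem P1_f_mem (w : ℝ) (hw : |w| ≤ 1) : 0 ≤ fp w ∧ fp w ≤ 1 ∧ 0 ≤ fm w ∧ fm w ≤ 1 ∧ |fs w| ≤ 1 := by
  have h0 := abs_nonneg w
  refine ⟨le_max_left _ _, ?_, le_max_left _ _, ?_, ?_⟩
  · unfold fp
    exact max_le (by norm_num) (by linarith)
  · unfold fm
    exact max_le (by norm_num) (by linarith)
  · rw [abs_le] at hw ⊢
    rcases P1_fs_cases w with ⟨h1, h⟩ | ⟨h1, h2, h⟩ | ⟨h1, h⟩ <;> rw [h] <;> constructor <;> linarith [hw.1, hw.2]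

theorem P1_fs_odd (w : ℝ) : fs (-w) = -fs w := by
  unfold fs
  rw [neg_neg]
  ring

/-- the values of the three functions in terms of `|w|` -/
theorem P1_vals (w : ℝ) (_hw : |w| ≤ 1) : (|w| ≤ 1 / 2 ∧ fp w = 1 - 2 * |w| ∧ fm w = 0 ∧ fs w ^ 2 = (2 * |w|) ^ 2) ∨
    (1 / 2 ≤ |w| ∧ fp w = 0 ∧ fm w = 2 * |w| - 1 ∧ fs w ^ 2 = (2 - 2 * |w|) ^ 2) := by
  rcases le_total |w| (1 / 2) with h | h
  · left
    refine ⟨h, ?_, ?_, ?_⟩
    · unfold fp
      exact max_eq_right (by linarith)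
    · unfold fm
      exact max_eq_left (by linarith)
    · have h' := abs_le.1 h
      rcases P1_fs_cases w with ⟨h1, k⟩ | ⟨h1, h2, k⟩ | ⟨h1, k⟩
      · have : w = -(1 / 2) := le_antisymm h1 h'.1
        rw [k, this]
        norm_num [abs_of_pos]
      · rw [k, mul_pow, mul_pow, sq_abs]
      · have : w = 1 / 2 := le_antisymm h'.2 h1
        rw [k, this]
        norm_num [abs_of_pos]
  · right
    refine ⟨h, ?_, ?_, ?_⟩
    · unfold fp
      exact max_eq_left (by linarith)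
    · unfold fm
      exact max_eq_right (by linarith)
    · rcases le_total 0 w with hw | hw
      · rw [abs_of_nonneg hw] at h ⊢
        rcases P1_fs_cases w with ⟨h1, k⟩ | ⟨h1, h2, k⟩ | ⟨h1, k⟩
        · exfalso
          linarith
        · have : w = 1 / 2 := le_antisymm h2 h
          rw [k, this]
          norm_num
        · rw [k]
      · rw [abs_of_nonpos hw] at h ⊢
        rcases P1_fs_cases w with ⟨h1, k⟩ | ⟨h1, h2, k⟩ | ⟨h1, k⟩
        · rw [k]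
          ring
        · have : w = -(1 / 2) := le_antisymm (by linarith) h1
          rw [k, this]
          norm_num
        · exfalso
          linarith

theorem P1_det (w α : ℝ) (hw : |w| ≤ 1) (hα : 1 / 20 ≤ α) :
    1 / 40 ≤ (α * fp w - fm w) * (1 - 2 * |w|) - fs w * (-fs w) := by
  have e : (α * fp w - fm w) * (1 - 2 * |w|) - fs w * (-fs w) =
      (α * fp w - fm w) * (1 - 2 * |w|) + fs w ^ 2 := by ring
  rw [e]
  rcases P1_vals w hw with ⟨h, h1, h2, h3⟩ | ⟨h, h1, h2, h3⟩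
  · rw [h1, h2, h3]
    have : 1 / 20 * (1 - 2 * |w|) ^ 2 ≤ α * (1 - 2 * |w|) ^ 2 :=
      mul_le_mul_of_nonneg_right hα (sq_nonneg _)
    nlinarith [sq_nonneg (21 * (2 * |w|) - 1)]
  · rw [h1, h2, h3]
    nlinarith [sq_nonneg (2 * |w| - 3 / 2)]

theorem P1_D (w α : ℝ) (hw : |w| ≤ 1) (hα : 0 ≤ α) (hα' : α ≤ 3) : |α * fp w - fm w| ≤ 3 := by
  rcases P1_vals w hw with ⟨h, h1, h2, h3⟩ | ⟨h, h1, h2, h3⟩
  · rw [h1, h2, abs_le]
    have h0 := abs_nonneg w
    constructor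
    · nlinarith
    · nlinarith
  · rw [h1, h2, abs_le]
    constructor <;> linarith

end H80.LD
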