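import Pool.Agent.H80.LD.P1

/-!
# P2: the pattern in the cell and on the line

`A, θ ∈ [0,1]`, `u ∈ [0,1]`.  `T1f ((1+θ) u) ≠ 0` implies `(1 + θ) u < 2/5`, so `u < 2/5`; `T1f (2u - 1) ≠ 0` implies `2u - 1 > 1/10`, `u > 11/20`: at most one term is nonzero (`P2_disj`).
* `P2_abs`: `|WW| ≤ 1`.
* `P2_lip`: `|WW A θ u - WW A θ v| ≤ A (20 (1 + θ) + 40 θ) |u - v| ≤ 80 |u - v|`.
* `P2_par`: `|WW A θ u - WW A' θ' u| ≤ 2 |A - A'| + 21 |θ - θ'|` for `u ∈ [0,1]`: `|A x - A' x'| ≤ |A - A'| |x| + |x - x'|`, `|x| ≤ 2`, `|x - x'| ≤ 20 |θ-θ'| u + |θ - θ'|`.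
* `P2_zero`: `u ≤ 1/20`: `(1+θ) u ≤ 1/10`, `2u - 1 < 0`; `u ≥ 7/10`: `(1+θ) u ≥ 2/5`, `2u - 1 ≥ 2/5`; `2/5 ≤ u ≤ 11/20`: `(1+θ) u ≥ 2/5`, `2u - 1 ≤ 1/10`.
* `P2_pw_lip`: same floor: `P2_lip`; different floors `z < z'`: `|pw z| = |WW (fract z) - WW 1| ≤ 80 (1 - fract z)`, `|pw z'| = |WW (fract z') - WW 0| ≤ 80 fract z'`, and `1 - fract z + fract z' ≤ z' - z`.
* `P2_pw_zero`: `-3/10 ≤ z - m ≤ 1/20`: `fract z ∈ [7/10, 1) ∪ [0, 1/20]`.
* `P2_double`: `pw A 1 z = pw A 0 (2 z)`: `f = fract z < 1/2`: `fract (2z) = 2f`, `WW A 1 f = A (T1f (2f) + T1f (2f-1))`, `T1f (2f - 1) = 0`; `f ≥ 1/2`: `fract (2 z) = 2f - 1`, `T1f (2f) = 0` (`2f ≥ 1`); `WW A 0 u = A T1f u`.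
* `P2_amp0`: `WW 0 θ u = 0`.
-/

open Filter Topology Metric Set MeasureTheory

namespace H80.LD

theorem P2_disj (θ u : ℝ) (h0 : 0 ≤ θ) (h1 : θ ≤ 1) (hu : 0 ≤ u) :
    T1f ((1 + θ) * u) = 0 ∨ T1f (2 * u - 1) = 0 := by
  rcases le_or_gt (2 / 5) u with h | h
  · left
    apply P1_T_zero
    right
    nlinarith
  · right
    apply P1_T_zero
    left
    linarith

theorem P2_abs (A θ u : ℝ) (hA : 0 ≤ A) (hA' : A ≤ 1) (h0 : 0 ≤ θ) (h1 : θ ≤ 1) (hu : 0 ≤ u) : |WW A θ u| ≤ 1 := by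
  unfold WW
  have hx := P1_T_abs ((1 + θ) * u)
  have hy := P1_T_abs (2 * u - 1)
  rcases P2_disj θ u h0 h1 hu with h | h
  · rw [h, zero_add, abs_mul, abs_mul, abs_of_nonneg hA, abs_of_nonneg h0]
    have h2 : θ * |T1f (2 * u - 1)| ≤ 1 := by
      calc θ * |T1f (2 * u - 1)| ≤ 1 * 1 := by gcongr
        _ = 1 := one_mul 1
    calc A * (θ * |T1f (2 * u - 1)|) ≤ 1 * 1 := by gcongr
      _ = 1 := one_mul 1
  · rw [h, mul_zero, add_zero, abs_mul, abs_of_nonneg hA]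
    calc A * |T1f ((1 + θ) * u)| ≤ 1 * 1 := by gcongr
      _ = 1 := one_mul 1

theorem P2_lip (A θ u v : ℝ) (hA : 0 ≤ A) (hA' : A ≤ 1) (h0 : 0 ≤ θ) (h1 : θ ≤ 1) :
    |WW A θ u - WW A θ v| ≤ 80 * |u - v| := by
  unfold WW
  have hx := P1_T_lip ((1 + θ) * u) ((1 + θ) * v)
  have hy := P1_T_lip (2 * u - 1) (2 * v - 1)
  have e1 : (1 + θ) * u - (1 + θ) * v = (1 + θ) * (u - v) := by ring
  have e2 : 2 * u - 1 - (2 * v - 1) = 2 * (u - v) := by ring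
  rw [e1, abs_mul, abs_of_nonneg (by linarith : (0 : ℝ) ≤ 1 + θ)] at hx
  rw [e2, abs_mul, abs_of_pos (by norm_num : (0 : ℝ) < 2)] at hy
  have e3 : A * (T1f ((1 + θ) * u) + θ * T1f (2 * u - 1)) - A * (T1f ((1 + θ) * v) + θ * T1f (2 * v - 1)) =
      A * ((T1f ((1 + θ) * u) - T1f ((1 + θ) * v)) + θ * (T1f (2 * u - 1) - T1f (2 * v - 1))) := by ring
  rw [e3, abs_mul, abs_of_nonneg hA]
  have h2 : |(T1f ((1 + θ) * u) - T1f ((1 + θ) * v)) + θ * (T1f (2 * u - 1) - T1f (2 * v - 1))| ≤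
      80 * |u - v| := by
    refine (abs_add_le _ _).trans ?_
    rw [abs_mul, abs_of_nonneg h0]
    have h3 : (1 + θ) * |u - v| ≤ 2 * |u - v| := by
      have := abs_nonneg (u - v)
      gcongr
      linarith
    have h4 : θ * |T1f (2 * u - 1) - T1f (2 * v - 1)| ≤ 1 * (20 * (2 * |u - v|)) := by
      gcongr
    linarith
  calc A * |(T1f ((1 + θ) * u) - T1f ((1 + θ) * v)) + θ * (T1f (2 * u - 1) - T1f (2 * v - 1))|
      ≤ 1 * (80 * |u - v|) := by gcongr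
    _ = 80 * |u - v| := one_mul _

theorem P2_par (A A' θ θ' u : ℝ) (hA : 0 ≤ A) (hA1 : A ≤ 1) (h0' : 0 ≤ θ') (h1' : θ' ≤ 1) (h0 : 0 ≤ θ) (h1 : θ ≤ 1)
    (hu : 0 ≤ u) (hu' : u ≤ 1) (hA' : 0 ≤ A') (hA1' : A' ≤ 1) :
    |WW A θ u - WW A' θ' u| ≤ 2 * |A - A'| + 21 * |θ - θ'| := by
  unfold WW
  have hx := P1_T_abs ((1 + θ) * u)
  have hy := P1_T_abs (2 * u - 1)
  have hl := P1_T_lip ((1 + θ) * u) ((1 + θ') * u)
  have e1 : (1 + θ) * u - (1 + θ') * u = (θ - θ') * u := by ring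
  rw [e1, abs_mul, abs_of_nonneg hu] at hl
  have e3 : A * (T1f ((1 + θ) * u) + θ * T1f (2 * u - 1)) - A' * (T1f ((1 + θ') * u) + θ' * T1f (2 * u - 1)) =
      (A - A') * (T1f ((1 + θ) * u) + θ * T1f (2 * u - 1)) +
        A' * ((T1f ((1 + θ) * u) - T1f ((1 + θ') * u)) + (θ - θ') * T1f (2 * u - 1)) := by ring
  rw [e3]
  refine (abs_add_le _ _).trans ?_
  rw [abs_mul, abs_mul, abs_of_nonneg hA']
  have h2 : |T1f ((1 + θ) * u) + θ * T1f (2 * u - 1)| ≤ 2 := by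
    refine (abs_add_le _ _).trans ?_
    rw [abs_mul, abs_of_nonneg h0]
    have : θ * |T1f (2 * u - 1)| ≤ 1 * 1 := by gcongr
    linarith
  have h3 : |(T1f ((1 + θ) * u) - T1f ((1 + θ') * u)) + (θ - θ') * T1f (2 * u - 1)| ≤
      21 * |θ - θ'| := by
    refine (abs_add_le _ _).trans ?_
    rw [abs_mul]
    have h4 : |θ - θ'| * |T1f (2 * u - 1)| ≤ |θ - θ'| * 1 := by gcongr
    have h5 : |θ - θ'| * u ≤ |θ - θ'| * 1 := by gcongr
    linarith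
  have h6 : |A - A'| * |T1f ((1 + θ) * u) + θ * T1f (2 * u - 1)| ≤ |A - A'| * 2 := by gcongr
  have h7 : A' * |(T1f ((1 + θ) * u) - T1f ((1 + θ') * u)) + (θ - θ') * T1f (2 * u - 1)| ≤
      1 * (21 * |θ - θ'|) := by gcongr
  linarith

theorem P2_zero (A θ u : ℝ) (h0 : 0 ≤ θ) (h1 : θ ≤ 1) (hu : 0 ≤ u)
    (h : u ≤ 1 / 20 ∨ 7 / 10 ≤ u ∨ (2 / 5 ≤ u ∧ u ≤ 11 / 20)) : WW A θ u = 0 := by
  have hθ : (1 + θ) * u ≤ 2 * u := by nlinarith
  have hθ' : u ≤ (1 + θ) * u := by nlinarith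
  have hx : T1f ((1 + θ) * u) = 0 := by
    apply P1_T_zero
    rcases h with h | h | ⟨h, h'⟩
    · left; linarith
    · right; linarith
    · right; linarith
  have hy : T1f (2 * u - 1) = 0 := by
    apply P1_T_zero
    rcases h with h | h | ⟨h, h'⟩
    · left; linarith
    · right; linarith
    · left; linarith
  unfold WW
  rw [hx, hy, mul_zero, add_zero, mul_zero]

theorem P2_pw_abs (A θ z : ℝ) (hA : 0 ≤ A) (hA' : A ≤ 1) (h0 : 0 ≤ θ) (h1 : θ ≤ 1) : |pw A θ z| ≤ 1 :=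
  P2_abs A θ (Int.fract z) hA hA' h0 h1 (Int.fract_nonneg z)

private theorem P2_pw_lip_aux (A θ z z' : ℝ) (hA : 0 ≤ A) (hA' : A ≤ 1) (h0 : 0 ≤ θ) (h1 : θ ≤ 1)
    (hzz : z ≤ z') : |pw A θ z - pw A θ z'| ≤ 80 * |z - z'| := by
  unfold pw
  have hfl : ⌊z⌋ ≤ ⌊z'⌋ := Int.floor_le_floor hzz
  rcases hfl.eq_or_lt with h | h
  · have e : Int.fract z - Int.fract z' = z - z' := by
      unfold Int.fract
      rw [h]
      ring
    have := P2_lip A θ (Int.fract z) (Int.fract z') hA hA' h0 h1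
    rwa [e] at this
  · have h3 : (⌊z⌋ : ℝ) + 1 ≤ ⌊z'⌋ := by exact_mod_cast h
    have e1 : Int.fract z = z - ⌊z⌋ := rfl
    have e2 : Int.fract z' = z' - ⌊z'⌋ := rfl
    have l1 := P2_lip A θ (Int.fract z) 1 hA hA' h0 h1
    have l2 := P2_lip A θ (Int.fract z') 0 hA hA' h0 h1
    rw [P2_zero A θ 1 h0 h1 (by norm_num) (Or.inr (Or.inl (by norm_num))), sub_zero,
      abs_sub_comm (Int.fract z) 1,
      abs_of_nonneg (by have := (Int.fract_lt_one z).le; linarith : (0 : ℝ) ≤ 1 - Int.fract z)] at l1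
    rw [P2_zero A θ 0 h0 h1 le_rfl (Or.inl (by norm_num)), sub_zero, sub_zero,
      abs_of_nonneg (Int.fract_nonneg z')] at l2
    have h4 := abs_sub_le (WW A θ (Int.fract z)) 0 (WW A θ (Int.fract z'))
    rw [sub_zero, zero_sub, abs_neg] at h4
    rw [abs_sub_comm z z', abs_of_nonneg (by linarith : (0 : ℝ) ≤ z' - z)]
    rw [e1] at l1
    rw [e2] at l2
    rw [e1, e2] at h4 ⊢
    linarith

theorem P2_pw_lip (A θ z z' : ℝ) (hA : 0 ≤ A) (hA' : A ≤ 1) (h0 : 0 ≤ θ) (h1 : θ ≤ 1) :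
    |pw A θ z - pw A θ z'| ≤ 80 * |z - z'| := by
  rcases le_total z z' with h | h
  · exact P2_pw_lip_aux A θ z z' hA hA' h0 h1 h
  · rw [abs_sub_comm, abs_sub_comm z z']
    exact P2_pw_lip_aux A θ z' z hA hA' h0 h1 h

theorem P2_pw_zero (A θ z : ℝ) (m : ℤ) (h0 : 0 ≤ θ) (h1 : θ ≤ 1) (h : -(3 / 10) ≤ z - m) (h' : z - m ≤ 1 / 20) :
    pw A θ z = 0 := by
  unfold pw
  rcases le_or_gt 0 (z - m) with h2 | h2
  · have e : Int.fract z = z - m := by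
      rw [Int.fract_eq_iff]
      exact ⟨h2, by linarith, m, by ring⟩
    rw [e]
    exact P2_zero A θ _ h0 h1 h2 (Or.inl h')
  · have e : Int.fract z = z - m + 1 := by
      rw [Int.fract_eq_iff]
      refine ⟨by linarith, by linarith, m - 1, ?_⟩
      push_cast
      ring
    rw [e]
    exact P2_zero A θ _ h0 h1 (by linarith) (Or.inr (Or.inl (by linarith)))

theorem P2_pw_per (A θ z : ℝ) (m : ℤ) : pw A θ (z + m) = pw A θ z := by
  unfold pw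
  rw [Int.fract_add_intCast]

theorem P2_pw_unit (A θ u : ℝ) (h0 : 0 ≤ θ) (h1 : θ ≤ 1) (hu : 0 ≤ u) (hu' : u ≤ 1) : pw A θ u = WW A θ u := by
  unfold pw
  rcases hu'.eq_or_lt with h | h
  · rw [h, Int.fract_one, P2_zero A θ 0 h0 h1 le_rfl (Or.inl (by norm_num)),
      P2_zero A θ 1 h0 h1 zero_le_one (Or.inr (Or.inl (by norm_num)))]
  · rw [Int.fract_eq_self.2 ⟨hu, h⟩]

theorem P2_double (A z : ℝ) : pw A 1 z = pw A 0 (2 * z) := by
  unfold pw WW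
  have hf0 := Int.fract_nonneg z
  have hf1 := Int.fract_lt_one z
  have hz : z = ⌊z⌋ + Int.fract z := (Int.floor_add_fract z).symm
  rcases lt_or_ge (Int.fract z) (1 / 2) with h | h
  · have e : Int.fract (2 * z) = 2 * Int.fract z := by
      rw [Int.fract_eq_iff]
      refine ⟨by linarith, by linarith, 2 * ⌊z⌋, ?_⟩
      push_cast
      linarith
    rw [e, P1_T_zero (2 * Int.fract z - 1) (Or.inl (by linarith))]
    norm_num
  · have e : Int.fract (2 * z) = 2 * Int.fract z - 1 := by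
      rw [Int.fract_eq_iff]
      refine ⟨by linarith, by linarith, 2 * ⌊z⌋ + 1, ?_⟩
      push_cast
      linarith
    rw [e, P1_T_zero ((1 + 1) * Int.fract z) (Or.inr (by linarith))]
    norm_num

theorem P2_amp0 (θ z : ℝ) : pw 0 θ z = 0 := by
  unfold pw WW
  rw [zero_mul]

end H80.LD
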