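import Pool.Agent.H80.LD.P2

open Filter Topology Metric Set MeasureTheory

namespace H80.LD

theorem P3_cT : Continuous T1f := by
  have h : LipschitzWith 20 T1f := LipschitzWith.of_dist_le_mul (fun u v => by
    rw [Real.dist_eq, Real.dist_eq]
    exact P1_T_lip u v)
  exact h.continuous

theorem P3_cfp : Continuous fp := by
  show Continuous (fun w : ℝ => max 0 (1 - 2 * |w|))
  fun_prop

theorem P3_cfm : Continuous fm := by
  show Continuous (fun w : ℝ => max 0 (2 * |w| - 1))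
  fun_prop

theorem P3_cfs : Continuous fs := by
  show Continuous (fun w : ℝ => 2 * w - 4 * max (w - 1 / 2) 0 + 4 * max (-w - 1 / 2) 0)
  fun_prop

theorem P3_cW (A θ : ℝ) : Continuous (fun u => WW A θ u) := by
  show Continuous (fun u : ℝ => A * (T1f ((1 + θ) * u) + θ * T1f (2 * u - 1)))
  have h1 : Continuous (fun u : ℝ => T1f ((1 + θ) * u)) := P3_cT.comp (by fun_prop)
  have h2 : Continuous (fun u : ℝ => T1f (2 * u - 1)) := P3_cT.comp (by fun_prop)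
  exact continuous_const.mul (h1.add (continuous_const.mul h2))

theorem P3_ii (f : ℝ → ℝ) (hf : Continuous f) (A θ a b : ℝ) :
    IntervalIntegrable (fun u => f (WW A θ u)) volume a b :=
  (hf.comp (P3_cW A θ)).intervalIntegrable a b

theorem P3_split (g : ℝ → ℝ) (hg : Continuous g) :
    ∫ u in (0 : ℝ)..1, g u = (∫ u in (0 : ℝ)..(1 / 20), g u) + (∫ u in (1 / 20 : ℝ)..(2 / 5), g u) +
      (∫ u in (2 / 5 : ℝ)..(11 / 20), g u) + (∫ u in (11 / 20 : ℝ)..(7 / 10), g u) +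
      (∫ u in (7 / 10 : ℝ)..1, g u) := by
  have h := fun a b : ℝ => hg.intervalIntegrable (μ := volume) a b
  rw [intervalIntegral.integral_add_adjacent_intervals (h _ _) (h _ _),
    intervalIntegral.integral_add_adjacent_intervals (h _ _) (h _ _),
    intervalIntegral.integral_add_adjacent_intervals (h _ _) (h _ _),
    intervalIntegral.integral_add_adjacent_intervals (h _ _) (h _ _)]

theorem P3_int_const (g : ℝ → ℝ) (c a b : ℝ) (hab : a ≤ b) (h : ∀ u, a ≤ u → u ≤ b → g u = c) :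
    ∫ u in a..b, g u = (b - a) * c := by
  rw [intervalIntegral.integral_congr (g := fun _ => c) (fun u hu => by
    rw [uIcc_of_le hab] at hu
    exact h u hu.1 hu.2)]
  rw [intervalIntegral.integral_const, smul_eq_mul]

theorem P3_int_bd (g : ℝ → ℝ) (hg : Continuous g) (a b : ℝ) (hab : a ≤ b)
    (h : ∀ u, a ≤ u → u ≤ b → 0 ≤ g u ∧ g u ≤ 1) :
    0 ≤ ∫ u in a..b, g u ∧ ∫ u in a..b, g u ≤ b - a := by
  constructor
  · exact intervalIntegral.integral_nonneg hab (fun u hu => (h u hu.1 hu.2).1)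
  · have h1 : ∫ u in a..b, g u ≤ ∫ u in a..b, (1 : ℝ) :=
      intervalIntegral.integral_mono_on hab (hg.intervalIntegrable a b)
        (continuous_const.intervalIntegrable a b) (fun u hu => (h u hu.1 hu.2).2)
    rw [intervalIntegral.integral_const, smul_eq_mul, mul_one] at h1
    exact h1

theorem P3_Ip (A θ : ℝ) (hA : 0 ≤ A) (hA' : A ≤ 1) (h0 : 0 ≤ θ) (h1 : θ ≤ 1) : 1 / 2 ≤ Ip A θ ∧ Ip A θ ≤ 1 := by
  have hc : Continuous (fun u => fp (WW A θ u)) := P3_cfp.comp (P3_cW A θ)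
  have hb : ∀ u, 0 ≤ u → 0 ≤ fp (WW A θ u) ∧ fp (WW A θ u) ≤ 1 := fun u hu => by
    have h := P1_f_mem (WW A θ u) (P2_abs A θ u hA hA' h0 h1 hu)
    exact ⟨h.1, h.2.1⟩
  have e1 : ∫ u in (0 : ℝ)..(1 / 20), fp (WW A θ u) = (1 / 20 - 0) * 1 :=
    P3_int_const _ _ _ _ (by norm_num) (fun u hu hu' => by
      rw [P2_zero A θ u h0 h1 hu (Or.inl hu')]; exact P1_f_zero.1)
  have e2 : ∫ u in (2 / 5 : ℝ)..(11 / 20), fp (WW A θ u) = (11 / 20 - 2 / 5) * 1 :=
    P3_int_const _ _ _ _ (by norm_num) (fun u hu hu' => by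
      rw [P2_zero A θ u h0 h1 (by linarith) (Or.inr (Or.inr ⟨hu, hu'⟩))]; exact P1_f_zero.1)
  have e3 : ∫ u in (7 / 10 : ℝ)..1, fp (WW A θ u) = (1 - 7 / 10) * 1 :=
    P3_int_const _ _ _ _ (by norm_num) (fun u hu hu' => by
      rw [P2_zero A θ u h0 h1 (by linarith) (Or.inr (Or.inl hu))]; exact P1_f_zero.1)
  have e4 := P3_int_bd _ hc (1 / 20) (2 / 5) (by norm_num) (fun u hu _ => hb u (by linarith))
  have e5 := P3_int_bd _ hc (11 / 20) (7 / 10) (by norm_num) (fun u hu _ => hb u (by linarith))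
  have e6 : Ip A θ = _ := P3_split _ hc
  rw [e1, e2, e3] at e6
  constructor
  · linarith [e4.1, e5.1]
  · linarith [e4.2, e5.2]

theorem P3_Im (A θ : ℝ) (hA : 0 ≤ A) (hA' : A ≤ 1) (h0 : 0 ≤ θ) (h1 : θ ≤ 1) : 0 ≤ Im A θ ∧ Im A θ ≤ 1 / 2 := by
  have hc : Continuous (fun u => fm (WW A θ u)) := P3_cfm.comp (P3_cW A θ)
  have hb : ∀ u, 0 ≤ u → 0 ≤ fm (WW A θ u) ∧ fm (WW A θ u) ≤ 1 := fun u hu => by
    have h := P1_f_mem (WW A θ u) (P2_abs A θ u hA hA' h0 h1 hu)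
    exact ⟨h.2.2.1, h.2.2.2.1⟩
  have e1 : ∫ u in (0 : ℝ)..(1 / 20), fm (WW A θ u) = (1 / 20 - 0) * 0 :=
    P3_int_const _ _ _ _ (by norm_num) (fun u hu hu' => by
      rw [P2_zero A θ u h0 h1 hu (Or.inl hu')]; exact P1_f_zero.2.1)
  have e2 : ∫ u in (2 / 5 : ℝ)..(11 / 20), fm (WW A θ u) = (11 / 20 - 2 / 5) * 0 :=
    P3_int_const _ _ _ _ (by norm_num) (fun u hu hu' => by
      rw [P2_zero A θ u h0 h1 (by linarith) (Or.inr (Or.inr ⟨hu, hu'⟩))]; exact P1_f_zero.2.1)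
  have e3 : ∫ u in (7 / 10 : ℝ)..1, fm (WW A θ u) = (1 - 7 / 10) * 0 :=
    P3_int_const _ _ _ _ (by norm_num) (fun u hu hu' => by
      rw [P2_zero A θ u h0 h1 (by linarith) (Or.inr (Or.inl hu))]; exact P1_f_zero.2.1)
  have e4 := P3_int_bd _ hc (1 / 20) (2 / 5) (by norm_num) (fun u hu _ => hb u (by linarith))
  have e5 := P3_int_bd _ hc (11 / 20) (7 / 10) (by norm_num) (fun u hu _ => hb u (by linarith))
  have e6 : Im A θ = _ := P3_split _ hc
  rw [e1, e2, e3] at e6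
  constructor
  · linarith [e4.1, e5.1]
  · linarith [e4.2, e5.2]

theorem P3_Im_one (θ : ℝ) (h0 : 0 ≤ θ) (h1 : θ ≤ 1) : 1 / 20 ≤ Im 1 θ := by
  have hc : Continuous (fun u => fm (WW 1 θ u)) := P3_cfm.comp (P3_cW 1 θ)
  have hb : ∀ u, 0 ≤ u → 0 ≤ fm (WW 1 θ u) ∧ fm (WW 1 θ u) ≤ 1 := fun u hu => by
    have h := P1_f_mem (WW 1 θ u) (P2_abs 1 θ u zero_le_one le_rfl h0 h1 hu)
    exact ⟨h.2.2.1, h.2.2.2.1⟩
  have ht : 0 < 1 + θ := by linarith
  set a1 := (3 / 20) / (1 + θ) with ha1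
  set a2 := (1 / 5) / (1 + θ) with ha2
  set a3 := (3 / 10) / (1 + θ) with ha3
  set a4 := (7 / 20) / (1 + θ) with ha4
  have m1 : (1 + θ) * a1 = 3 / 20 := by rw [ha1]; field_simp
  have m2 : (1 + θ) * a2 = 1 / 5 := by rw [ha2]; field_simp
  have m3 : (1 + θ) * a3 = 3 / 10 := by rw [ha3]; field_simp
  have m4 : (1 + θ) * a4 = 7 / 20 := by rw [ha4]; field_simp
  have p1 : 0 ≤ a1 := by positivity
  have p4 : a4 ≤ 7 / 20 := by
    rw [ha4, div_le_iff₀ ht]; nlinarith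
  have o12 : a1 ≤ a2 := by
    rw [ha1, ha2]; exact div_le_div_of_nonneg_right (by norm_num) ht.le
  have o23 : a2 ≤ a3 := by
    rw [ha2, ha3]; exact div_le_div_of_nonneg_right (by norm_num) ht.le
  have o34 : a3 ≤ a4 := by
    rw [ha3, ha4]; exact div_le_div_of_nonneg_right (by norm_num) ht.le
  have d12 : 1 / 40 ≤ a2 - a1 := by
    have : (1 + θ) * (a2 - a1) = 1 / 20 := by rw [mul_sub, m1, m2]; norm_num
    nlinarith
  have d34 : 1 / 40 ≤ a4 - a3 := by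
    have : (1 + θ) * (a4 - a3) = 1 / 20 := by rw [mul_sub, m3, m4]; norm_num
    nlinarith
  have e12 : ∫ u in a1..a2, fm (WW 1 θ u) = (a2 - a1) * 1 :=
    P3_int_const _ _ _ _ o12 (fun u hu hu' => by
      have k1 : 3 / 20 ≤ (1 + θ) * u := by nlinarith
      have k2 : (1 + θ) * u ≤ 1 / 5 := by nlinarith
      have k3 : T1f (2 * u - 1) = 0 := P1_T_zero _ (Or.inl (by linarith))
      have k4 : WW 1 θ u = 1 := by
        show 1 * (T1f ((1 + θ) * u) + θ * T1f (2 * u - 1)) = 1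
        rw [P1_T_one _ k1 k2, k3]; ring
      rw [k4]; exact P1_f_one.1)
  have e34 : ∫ u in a3..a4, fm (WW 1 θ u) = (a4 - a3) * 1 :=
    P3_int_const _ _ _ _ o34 (fun u hu hu' => by
      have k1 : 3 / 10 ≤ (1 + θ) * u := by nlinarith
      have k2 : (1 + θ) * u ≤ 7 / 20 := by nlinarith
      have k3 : T1f (2 * u - 1) = 0 := P1_T_zero _ (Or.inl (by linarith))
      have k4 : WW 1 θ u = -1 := by
        show 1 * (T1f ((1 + θ) * u) + θ * T1f (2 * u - 1)) = -1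
        rw [P1_T_neg _ k1 k2, k3]; ring
      rw [k4]; exact P1_f_one.2)
  have f1 := P3_int_bd _ hc 0 a1 p1 (fun u hu _ => hb u hu)
  have f2 := P3_int_bd _ hc a2 a3 o23 (fun u hu _ => hb u (by linarith))
  have f3 := P3_int_bd _ hc a4 1 (by linarith) (fun u hu _ => hb u (by linarith))
  have hI : Im 1 θ = (∫ u in (0 : ℝ)..a1, fm (WW 1 θ u)) + (∫ u in a1..a2, fm (WW 1 θ u)) +
      (∫ u in a2..a3, fm (WW 1 θ u)) + (∫ u in a3..a4, fm (WW 1 θ u)) +
      (∫ u in a4..1, fm (WW 1 θ u)) := by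
    have h := fun a b : ℝ => hc.intervalIntegrable (μ := volume) a b
    rw [intervalIntegral.integral_add_adjacent_intervals (h _ _) (h _ _),
      intervalIntegral.integral_add_adjacent_intervals (h _ _) (h _ _),
      intervalIntegral.integral_add_adjacent_intervals (h _ _) (h _ _),
      intervalIntegral.integral_add_adjacent_intervals (h _ _) (h _ _)]
    rfl
  rw [e12, e34] at hI
  linarith [f1.1, f2.1, f3.1]

theorem P3_lip_gen (f : ℝ → ℝ) (hf : Continuous f) (hl : ∀ u v, |f u - f v| ≤ 2 * |u - v|)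
    (A A' θ θ' : ℝ) (hA : 0 ≤ A) (hA1 : A ≤ 1) (hA' : 0 ≤ A') (hA1' : A' ≤ 1) (h0 : 0 ≤ θ) (h1 : θ ≤ 1)
    (h0' : 0 ≤ θ') (h1' : θ' ≤ 1) :
    |(∫ u in (0 : ℝ)..1, f (WW A θ u)) - ∫ u in (0 : ℝ)..1, f (WW A' θ' u)| ≤
      4 * |A - A'| + 42 * |θ - θ'| := by
  rw [← intervalIntegral.integral_sub (P3_ii f hf A θ 0 1) (P3_ii f hf A' θ' 0 1)]
  have h := intervalIntegral.norm_integral_le_of_norm_le_const (a := (0 : ℝ)) (b := 1)
    (f := fun u => f (WW A θ u) - f (WW A' θ' u)) (C := 4 * |A - A'| + 42 * |θ - θ'|) (by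
      intro u hu
      rw [uIoc_of_le zero_le_one] at hu
      rw [Real.norm_eq_abs]
      have k1 := hl (WW A θ u) (WW A' θ' u)
      have k2 := P2_par A A' θ θ' u hA hA1 h0' h1' h0 h1 hu.1.le hu.2 hA' hA1'
      linarith)
  rw [Real.norm_eq_abs, sub_zero, abs_one, mul_one] at h
  exact h

theorem P3_Ip_lip (A A' θ θ' : ℝ) (hA : 0 ≤ A) (hA1 : A ≤ 1) (hA' : 0 ≤ A') (hA1' : A' ≤ 1) (h0 : 0 ≤ θ) (h1 : θ ≤ 1)
    (h0' : 0 ≤ θ') (h1' : θ' ≤ 1) : |Ip A θ - Ip A' θ'| ≤ 4 * |A - A'| + 42 * |θ - θ'| :=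
  P3_lip_gen fp P3_cfp P1_fp_lip A A' θ θ' hA hA1 hA' hA1' h0 h1 h0' h1'

theorem P3_Im_lip (A A' θ θ' : ℝ) (hA : 0 ≤ A) (hA1 : A ≤ 1) (hA' : 0 ≤ A') (hA1' : A' ≤ 1) (h0 : 0 ≤ θ) (h1 : θ ≤ 1)
    (h0' : 0 ≤ θ') (h1' : θ' ≤ 1) : |Im A θ - Im A' θ'| ≤ 4 * |A - A'| + 42 * |θ - θ'| :=
  P3_lip_gen fm P3_cfm P1_fm_lip A A' θ θ' hA hA1 hA' hA1' h0 h1 h0' h1'

theorem P3_half (c : ℝ) : ∫ v in (0 : ℝ)..(1 / 2), fs (c * T1f v) = 0 := by
  have h1 : ∫ v in (0 : ℝ)..(1 / 2), fs (c * T1f (1 / 2 - v)) =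
      ∫ v in (0 : ℝ)..(1 / 2), fs (c * T1f v) := by
    have h := intervalIntegral.integral_comp_sub_left (a := (0 : ℝ)) (b := 1 / 2)
      (fun v => fs (c * T1f v)) (1 / 2)
    rw [h]
    norm_num
  have h2 : ∫ v in (0 : ℝ)..(1 / 2), fs (c * T1f (1 / 2 - v)) =
      -∫ v in (0 : ℝ)..(1 / 2), fs (c * T1f v) := by
    rw [← intervalIntegral.integral_neg]
    refine intervalIntegral.integral_congr (fun v _ => ?_)
    show fs (c * T1f (1 / 2 - v)) = -fs (c * T1f v)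
    rw [P1_odd, mul_neg, P1_fs_odd]
  linarith

theorem P3_fs0 : fs 0 = 0 := P1_f_zero.2.2

theorem P3_long (c b : ℝ) (hb : 1 / 2 ≤ b) : ∫ v in (0 : ℝ)..b, fs (c * T1f v) = 0 := by
  have hc : Continuous (fun v => fs (c * T1f v)) :=
    P3_cfs.comp (continuous_const.mul P3_cT)
  rw [← intervalIntegral.integral_add_adjacent_intervals (hc.intervalIntegrable 0 (1 / 2))
    (hc.intervalIntegrable (1 / 2) b), P3_half, zero_add]
  rw [P3_int_const _ 0 _ _ hb (fun u hu _ => by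
    rw [P1_T_zero u (Or.inr (by linarith)), mul_zero]; exact P3_fs0)]
  ring

theorem P3_fs (A θ : ℝ) (hA : 0 ≤ A) (hA' : A ≤ 1) (h0 : 0 ≤ θ) (h1 : θ ≤ 1) :
    ∫ u in (0 : ℝ)..1, fs (WW A θ u) = 0 := by
  have c1 : Continuous (fun v => fs (A * T1f v)) := P3_cfs.comp (continuous_const.mul P3_cT)
  have c2 : Continuous (fun v => fs ((A * θ) * T1f v)) := P3_cfs.comp (continuous_const.mul P3_cT)
  have c3 : Continuous (fun u : ℝ => fs (A * T1f ((1 + θ) * u))) :=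
    c1.comp (continuous_const.mul continuous_id)
  have c4 : Continuous (fun u : ℝ => fs ((A * θ) * T1f (2 * u - 1))) :=
    c2.comp (show Continuous (fun u : ℝ => 2 * u - 1) by fun_prop)
  have e1 : ∫ u in (0 : ℝ)..1, fs (WW A θ u) =
      ∫ u in (0 : ℝ)..1, (fs (A * T1f ((1 + θ) * u)) + fs ((A * θ) * T1f (2 * u - 1))) := by
    refine intervalIntegral.integral_congr (fun u hu => ?_)
    rw [uIcc_of_le zero_le_one] at hu
    show fs (A * (T1f ((1 + θ) * u) + θ * T1f (2 * u - 1))) =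
      fs (A * T1f ((1 + θ) * u)) + fs ((A * θ) * T1f (2 * u - 1))
    rcases P2_disj θ u h0 h1 hu.1 with h | h
    · rw [h, mul_zero, P3_fs0, zero_add, zero_add]
      congr 1
      ring
    · rw [h, mul_zero, mul_zero, P3_fs0, add_zero, add_zero]
  rw [e1, intervalIntegral.integral_add (c3.intervalIntegrable 0 1) (c4.intervalIntegrable 0 1)]
  have ht : (1 + θ) ≠ 0 := by positivity
  have e2 : ∫ u in (0 : ℝ)..1, fs (A * T1f ((1 + θ) * u)) = 0 := by
    have h := intervalIntegral.integral_comp_mul_left (a := (0 : ℝ)) (b := 1)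
      (fun v => fs (A * T1f v)) ht
    rw [h, mul_zero, mul_one, P3_long A (1 + θ) (by linarith), smul_zero]
  have e3 : ∫ u in (0 : ℝ)..1, fs ((A * θ) * T1f (2 * u - 1)) = 0 := by
    have h := intervalIntegral.integral_comp_mul_sub (a := (0 : ℝ)) (b := 1)
      (fun v => fs ((A * θ) * T1f v)) (two_ne_zero) (1 : ℝ)
    rw [h]
    have k : ∫ v in (2 * (0 : ℝ) - 1)..(2 * 1 - 1), fs ((A * θ) * T1f v) = 0 := by
      rw [show (2 * (0 : ℝ) - 1) = -1 by norm_num, show (2 * (1 : ℝ) - 1) = 1 by norm_num]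
      rw [← intervalIntegral.integral_add_adjacent_intervals (c2.intervalIntegrable (-1) 0)
        (c2.intervalIntegrable 0 1), P3_long _ 1 (by norm_num), add_zero]
      rw [P3_int_const _ 0 _ _ (by norm_num) (fun u _ hu => by
        rw [P1_T_zero u (Or.inl (by linarith)), mul_zero]; exact P3_fs0)]
      ring
    rw [k, smul_zero]
  rw [e2, e3, add_zero]

theorem P3_double_gen (f : ℝ → ℝ) (hf : Continuous f) (A : ℝ) (hA : 0 ≤ A) (hA' : A ≤ 1) :
    ∫ u in (0 : ℝ)..1, f (WW A 1 u) = ∫ u in (0 : ℝ)..1, f (WW A 0 u) := by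
  have hl : LipschitzWith 80 (fun z => pw A 0 z) := LipschitzWith.of_dist_le_mul (fun u v => by
    rw [Real.dist_eq, Real.dist_eq]
    exact P2_pw_lip A 0 u v hA hA' le_rfl zero_le_one)
  have hc : Continuous (fun z => f (pw A 0 z)) := hf.comp hl.continuous
  have e1 : ∫ u in (0 : ℝ)..1, f (WW A 1 u) = ∫ u in (0 : ℝ)..1, f (pw A 0 (2 * u)) := by
    refine intervalIntegral.integral_congr (fun u hu => ?_)
    rw [uIcc_of_le zero_le_one] at hu
    show f (WW A 1 u) = f (pw A 0 (2 * u))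
    rw [← P2_double, P2_pw_unit A 1 u zero_le_one le_rfl hu.1 hu.2]
  have e0 : ∫ u in (0 : ℝ)..1, f (WW A 0 u) = ∫ u in (0 : ℝ)..1, f (pw A 0 u) := by
    refine intervalIntegral.integral_congr (fun u hu => ?_)
    rw [uIcc_of_le zero_le_one] at hu
    show f (WW A 0 u) = f (pw A 0 u)
    rw [P2_pw_unit A 0 u le_rfl zero_le_one hu.1 hu.2]
  have e2 := intervalIntegral.integral_comp_mul_left (a := (0 : ℝ)) (b := 1)
      (fun v => f (pw A 0 v)) (two_ne_zero (α := ℝ))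
  have e3 : ∫ u in (1 : ℝ)..2, f (pw A 0 u) = ∫ u in (0 : ℝ)..1, f (pw A 0 u) := by
    have h := intervalIntegral.integral_comp_add_right (a := (0 : ℝ)) (b := 1)
      (fun v => f (pw A 0 v)) 1
    rw [show (0 : ℝ) + 1 = 1 by norm_num, show (1 : ℝ) + 1 = 2 by norm_num] at h
    rw [← h]
    refine intervalIntegral.integral_congr (fun u _ => ?_)
    show f (pw A 0 (u + 1)) = f (pw A 0 u)
    have := P2_pw_per A 0 u 1
    rw [Int.cast_one] at this
    rw [this]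
  rw [e1, e2, e0, mul_zero, mul_one,
    ← intervalIntegral.integral_add_adjacent_intervals (hc.intervalIntegrable 0 1)
      (hc.intervalIntegrable 1 2), e3, smul_eq_mul]
  ring

theorem P3_double (A : ℝ) (hA : 0 ≤ A) (hA' : A ≤ 1) : Ip A 1 = Ip A 0 ∧ Im A 1 = Im A 0 :=
  ⟨P3_double_gen fp P3_cfp A hA hA', P3_double_gen fm P3_cfm A hA hA'⟩

theorem P3_al (A θ μ : ℝ) (hA : 0 ≤ A) (hA' : A ≤ 1) (h0 : 0 ≤ θ) (h1 : θ ≤ 1) (hμ : 0 ≤ μ) (hμ' : μ ≤ 1)
    (h : μ = 1 ∨ A = 1) : 1 / 20 ≤ (μ + Im A θ) / Ip A θ ∧ (μ + Im A θ) / Ip A θ ≤ 3 := by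
  have a := P3_Ip A θ hA hA' h0 h1
  have b := P3_Im A θ hA hA' h0 h1
  have hp : 0 < Ip A θ := by linarith [a.1]
  have hl : 1 / 20 ≤ μ + Im A θ := by
    rcases h with h | h
    · linarith [b.1]
    · subst h
      linarith [P3_Im_one θ h0 h1]
  constructor
  · rw [le_div_iff₀ hp]
    nlinarith [a.2]
  · rw [div_le_iff₀ hp]
    nlinarith [a.1, b.2]

theorem P3_amp0 (θ : ℝ) : Ip 0 θ = 1 ∧ Im 0 θ = 0 := by
  have hW : ∀ u, WW 0 θ u = 0 := fun u => by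
    show 0 * (T1f ((1 + θ) * u) + θ * T1f (2 * u - 1)) = 0
    rw [zero_mul]
  constructor
  · show ∫ u in (0 : ℝ)..1, fp (WW 0 θ u) = 1
    rw [P3_int_const _ 1 _ _ zero_le_one (fun u _ _ => by rw [hW u]; exact P1_f_zero.1)]
    norm_num
  · show ∫ u in (0 : ℝ)..1, fm (WW 0 θ u) = 0
    rw [P3_int_const _ 0 _ _ zero_le_one (fun u _ _ => by rw [hW u]; exact P1_f_zero.2.1)]
    norm_num

end H80.LD
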