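import Pool.Agent.H80.LD.P3

/-!
# P4: the primitive functions `G1, G2`

`A, θ ∈ [0,1]`, `0 ≤ α ≤ 3`.  Integrands `F1 t = α fp (pw t) - fm (pw t)`, `F2 t = fs (pw t)`: `|F1| ≤ 3` (`P1_D`), `|F2| ≤ 1`, Lipschitz with constants `(2α + 2) * 80 ≤ 640`, `160`; continuous; periodic with period 1.
* `P4_lip`: bounds of the integrals over `[z', z]`.
* `P4_lin`: `G1 z - G1 z' - (z - z') F1 z0 = ∫_{z'}^z (F1 t - F1 z0) dt`, and `|t - z0| ≤ ρ` on the interval between `z'` and `z`: `≤ 640 ρ |z - z'|`.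
* `P4_per`: `∫_0^1 F1 = α Ip - Im = μ` if `α = (μ + Im)/Ip` (`P2_pw_unit`), so `G1 (z + m) = G1 z + μ m` for integers `m` (induction, or `Function.Periodic.intervalIntegral_add_eq` etc.); `∫_0^1 F2 = 0` (`P3_fs`), `G2 (z + m) = G2 z`.
* `P4_col`: `G2 z = 0` if `-3/10 ≤ z - m ≤ 1/20`: by periodicity `m = 0`; for `z ∈ [-3/10, 1/20]` `pw = 0` between `0` and `z`.
* `P4_par`: for `z ∈ [0,1]`: `|G2 A θ z - G2 A' θ' z| ≤ 4|A-A'| + 42|θ-θ'|`; `|G1 A θ α z - G1 A' θ' α' z| ≤ |α - α'| + 4 (4 |A-A'| + 42 |θ-θ'|)`  (`|α fp - α' fp'| ≤ |α-α'| + 3 |fp - fp'|`).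
* `P4_double`: `G1 A 1 α z = (1/2) G1 A 0 α (2z)`, `G2 A 1 z = (1/2) G2 A 0 (2z)`: substitution, `P2_double`.
* `P4_amp0`: `G1 0 θ 1 z = z`, `G2 0 θ z = 0`.
-/

open Filter Topology Metric Set MeasureTheory

namespace H80.LD

/-- the first integrand -/
noncomputable def P4_F1 (A θ α t : ℝ) : ℝ := α * fp (pw A θ t) - fm (pw A θ t)

/-- the second integrand -/
noncomputable def P4_F2 (A θ t : ℝ) : ℝ := fs (pw A θ t)

theorem P4_G1 (A θ α z : ℝ) : G1 A θ α z = ∫ t in (0 : ℝ)..z, P4_F1 A θ α t := rfl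

theorem P4_G2 (A θ z : ℝ) : G2 A θ z = ∫ t in (0 : ℝ)..z, P4_F2 A θ t := rfl

theorem P4_cont_of_lip (f : ℝ → ℝ) (K : ℝ) (h : ∀ x y, |f x - f y| ≤ K * |x - y|) :
    Continuous f := by
  have hK : 0 ≤ K := by
    have := h 1 0
    rw [sub_zero, abs_one, mul_one] at this
    exact (abs_nonneg _).trans this
  have hL : LipschitzWith (Real.toNNReal K) f := by
    refine LipschitzWith.of_dist_le_mul fun x y => ?_
    rw [Real.dist_eq, Real.dist_eq, Real.coe_toNNReal _ hK]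
    exact h x y
  exact hL.continuous

theorem P4_F1_lip (A θ α s t : ℝ) (hA : 0 ≤ A) (hA' : A ≤ 1) (h0 : 0 ≤ θ) (h1 : θ ≤ 1) (hα : 0 ≤ α)
    (hα' : α ≤ 3) : |P4_F1 A θ α s - P4_F1 A θ α t| ≤ 640 * |s - t| := by
  have a := P2_pw_lip A θ s t hA hA' h0 h1
  have b := P1_fp_lip (pw A θ s) (pw A θ t)
  have c := P1_fm_lip (pw A θ s) (pw A θ t)
  have e : P4_F1 A θ α s - P4_F1 A θ α t = α * (fp (pw A θ s) - fp (pw A θ t))
    - (fm (pw A θ s) - fm (pw A θ t)) := by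
    simp only [P4_F1]; ring
  rw [e]
  refine (abs_sub _ _).trans ?_
  rw [abs_mul, abs_of_nonneg hα]
  have d : α * |fp (pw A θ s) - fp (pw A θ t)| ≤ 3 * (2 * |pw A θ s - pw A θ t|) :=
    mul_le_mul hα' b (abs_nonneg _) (by norm_num)
  linarith

theorem P4_F2_lip (A θ s t : ℝ) (hA : 0 ≤ A) (hA' : A ≤ 1) (h0 : 0 ≤ θ) (h1 : θ ≤ 1) :
    |P4_F2 A θ s - P4_F2 A θ t| ≤ 160 * |s - t| := by
  have a := P2_pw_lip A θ s t hA hA' h0 h1
  have b := P1_fs_lip (pw A θ s) (pw A θ t)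
  have e : P4_F2 A θ s - P4_F2 A θ t = fs (pw A θ s) - fs (pw A θ t) := rfl
  rw [e]
  linarith

theorem P4_F1_cont (A θ α : ℝ) (hA : 0 ≤ A) (hA' : A ≤ 1) (h0 : 0 ≤ θ) (h1 : θ ≤ 1) :
    Continuous (P4_F1 A θ α) := by
  have h2 : Continuous (pw A θ) :=
    P4_cont_of_lip _ 80 fun x y => P2_pw_lip A θ x y hA hA' h0 h1
  have h3 : Continuous fp := P4_cont_of_lip _ 2 fun x y => P1_fp_lip x y
  have h4 : Continuous fm := P4_cont_of_lip _ 2 fun x y => P1_fm_lip x y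
  exact (continuous_const.mul (h3.comp h2)).sub (h4.comp h2)

theorem P4_F2_cont (A θ : ℝ) (hA : 0 ≤ A) (hA' : A ≤ 1) (h0 : 0 ≤ θ) (h1 : θ ≤ 1) :
    Continuous (P4_F2 A θ) :=
  P4_cont_of_lip _ 160 fun x y => P4_F2_lip A θ x y hA hA' h0 h1

theorem P4_F1_le (A θ α t : ℝ) (hA : 0 ≤ A) (hA' : A ≤ 1) (h0 : 0 ≤ θ) (h1 : θ ≤ 1) (hα : 0 ≤ α)
    (hα' : α ≤ 3) : |P4_F1 A θ α t| ≤ 3 :=
  P1_D _ _ (P2_pw_abs A θ t hA hA' h0 h1) hα hα'

theorem P4_F2_le (A θ t : ℝ) (hA : 0 ≤ A) (hA' : A ≤ 1) (h0 : 0 ≤ θ) (h1 : θ ≤ 1) :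
    |P4_F2 A θ t| ≤ 1 :=
  (P1_f_mem _ (P2_pw_abs A θ t hA hA' h0 h1)).2.2.2.2

theorem P4_sub (f : ℝ → ℝ) (hf : Continuous f) (z z' : ℝ) :
    (∫ t in (0 : ℝ)..z, f t) - (∫ t in (0 : ℝ)..z', f t) = ∫ t in z'..z, f t :=
  intervalIntegral.integral_interval_sub_left (hf.intervalIntegrable _ _)
    (hf.intervalIntegrable _ _)

theorem P4_mem (z z' z0 ρ t : ℝ) (hz : |z - z0| ≤ ρ) (hz' : |z' - z0| ≤ ρ) (ht : t ∈ Set.uIoc z' z) :
    |t - z0| ≤ ρ := by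
  have a := abs_le.1 hz
  have b := abs_le.1 hz'
  rcases Set.mem_uIoc.1 ht with h | h
  · exact abs_le.2 ⟨by linarith [h.1, b.1], by linarith [h.2, a.2]⟩
  · exact abs_le.2 ⟨by linarith [h.1, a.1], by linarith [h.2, b.2]⟩

theorem P4_nle (f : ℝ → ℝ) (a b C : ℝ) (h : ∀ t ∈ Set.uIoc a b, |f t| ≤ C) :
    |∫ t in a..b, f t| ≤ C * |b - a| := by
  have h' : ∀ t ∈ Set.uIoc a b, ‖f t‖ ≤ C := h
  have := intervalIntegral.norm_integral_le_of_norm_le_const h'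
  rwa [Real.norm_eq_abs] at this

theorem P4_lin0 (f : ℝ → ℝ) (C : ℝ) (hC : 0 ≤ C) (hf : ∀ x y, |f x - f y| ≤ C * |x - y|)
    (z z' z0 ρ : ℝ) (hz : |z - z0| ≤ ρ) (hz' : |z' - z0| ≤ ρ) :
    |(∫ t in (0 : ℝ)..z, f t) - (∫ t in (0 : ℝ)..z', f t) - (z - z') * f z0| ≤
      C * ρ * |z - z'| := by
  have hc := P4_cont_of_lip f C hf
  rw [P4_sub f hc]
  have e : (∫ t in z'..z, f t) - (z - z') * f z0 = ∫ t in z'..z, (f t - f z0) := by
    rw [intervalIntegral.integral_sub (hc.intervalIntegrable _ _)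
      (continuous_const.intervalIntegrable _ _), intervalIntegral.integral_const, smul_eq_mul]
  rw [e]
  exact P4_nle (fun t => f t - f z0) z' z (C * ρ) fun t ht =>
    (hf t z0).trans (mul_le_mul_of_nonneg_left (P4_mem z z' z0 ρ t hz hz' ht) hC)

theorem P4_lip (A θ α z z' : ℝ) (hA : 0 ≤ A) (hA' : A ≤ 1) (h0 : 0 ≤ θ) (h1 : θ ≤ 1) (hα : 0 ≤ α) (hα' : α ≤ 3) :
    |G1 A θ α z - G1 A θ α z'| ≤ 3 * |z - z'| ∧ |G2 A θ z - G2 A θ z'| ≤ |z - z'| := by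
  rw [P4_G1, P4_G1, P4_G2, P4_G2, P4_sub _ (P4_F1_cont A θ α hA hA' h0 h1),
    P4_sub _ (P4_F2_cont A θ hA hA' h0 h1)]
  refine ⟨?_, ?_⟩
  · exact P4_nle _ _ _ _ fun t _ => P4_F1_le A θ α t hA hA' h0 h1 hα hα'
  · have := intervalIntegral.norm_integral_le_of_norm_le_const (a := z') (b := z)
      (f := P4_F2 A θ) (C := 1) fun t _ => P4_F2_le A θ t hA hA' h0 h1
    rw [one_mul] at this
    exact this

theorem P4_lin (A θ α z z' z0 ρ : ℝ) (hA : 0 ≤ A) (hA' : A ≤ 1) (h0 : 0 ≤ θ) (h1 : θ ≤ 1) (hα : 0 ≤ α) (hα' : α ≤ 3)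
    (hz : |z - z0| ≤ ρ) (hz' : |z' - z0| ≤ ρ) :
    |G1 A θ α z - G1 A θ α z' - (z - z') * (α * fp (pw A θ z0) - fm (pw A θ z0))| ≤ 640 * ρ * |z - z'| ∧
    |G2 A θ z - G2 A θ z' - (z - z') * fs (pw A θ z0)| ≤ 640 * ρ * |z - z'| := by
  refine ⟨?_, ?_⟩
  · exact P4_lin0 (P4_F1 A θ α) 640 (by norm_num)
      (fun x y => P4_F1_lip A θ α x y hA hA' h0 h1 hα hα') z z' z0 ρ hz hz'
  · refine P4_lin0 (P4_F2 A θ) 640 (by norm_num) (fun x y => ?_) z z' z0 ρ hz hz'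
    refine (P4_F2_lip A θ x y hA hA' h0 h1).trans ?_
    have := abs_nonneg (x - y)
    linarith

theorem P4_int1 (A θ α : ℝ) (hA : 0 ≤ A) (hA' : A ≤ 1) (h0 : 0 ≤ θ) (h1 : θ ≤ 1) :
    ∫ t in (0 : ℝ)..1, P4_F1 A θ α t = α * Ip A θ - Im A θ := by
  have hW : Continuous (WW A θ) := P4_cont_of_lip _ 80 fun x y => P2_lip A θ x y hA hA' h0 h1
  have h3 : Continuous fp := P4_cont_of_lip _ 2 fun x y => P1_fp_lip x y
  have h4 : Continuous fm := P4_cont_of_lip _ 2 fun x y => P1_fm_lip x y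
  have e : ∫ t in (0 : ℝ)..1, P4_F1 A θ α t
      = ∫ t in (0 : ℝ)..1, (α * fp (WW A θ t) - fm (WW A θ t)) := by
    refine intervalIntegral.integral_congr fun t ht => ?_
    rw [Set.uIcc_of_le zero_le_one] at ht
    simp only [P4_F1]
    rw [P2_pw_unit A θ t h0 h1 ht.1 ht.2]
  have i1 : IntervalIntegrable (fun t => α * fp (WW A θ t)) volume 0 1 :=
    (continuous_const.mul (h3.comp hW)).intervalIntegrable _ _
  have i2 : IntervalIntegrable (fun t => fm (WW A θ t)) volume 0 1 :=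
    (h4.comp hW).intervalIntegrable _ _
  rw [e, intervalIntegral.integral_sub i1 i2, intervalIntegral.integral_const_mul]
  rfl

theorem P4_int2 (A θ : ℝ) (hA : 0 ≤ A) (hA' : A ≤ 1) (h0 : 0 ≤ θ) (h1 : θ ≤ 1) :
    ∫ t in (0 : ℝ)..1, P4_F2 A θ t = 0 := by
  refine Eq.trans ?_ (P3_fs A θ hA hA' h0 h1)
  refine intervalIntegral.integral_congr (f := P4_F2 A θ) (g := fun t => fs (WW A θ t))
    fun t ht => ?_
  rw [Set.uIcc_of_le zero_le_one] at ht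
  simp only [P4_F2]
  rw [P2_pw_unit A θ t h0 h1 ht.1 ht.2]

theorem P4_per0 (f : ℝ → ℝ) (hf : Continuous f) (hp : ∀ z : ℝ, f (z + 1) = f z) (z : ℝ) (m : ℤ) :
    (∫ t in (0 : ℝ)..(z + m), f t) = (∫ t in (0 : ℝ)..z, f t) + m * ∫ t in (0 : ℝ)..1, f t := by
  have hP : Function.Periodic f 1 := hp
  have e1 := intervalIntegral.integral_add_adjacent_intervals
    (hf.intervalIntegrable (μ := volume) 0 z) (hf.intervalIntegrable (μ := volume) z (z + m))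
  have e2 : ∫ t in z..(z + m), f t = m * ∫ t in (0 : ℝ)..1, f t := by
    have a := hP.intervalIntegral_add_zsmul_eq m z (fun a b => hf.intervalIntegrable a b)
    have b := hP.intervalIntegral_add_eq z 0
    rw [zero_add] at b
    rw [b, zsmul_eq_mul, zsmul_eq_mul, mul_one] at a
    exact a
  rw [← e1, e2]

theorem P4_per (A θ μ z : ℝ) (m : ℤ) (hA : 0 ≤ A) (hA' : A ≤ 1) (h0 : 0 ≤ θ) (h1 : θ ≤ 1) :
    G1 A θ ((μ + Im A θ) / Ip A θ) (z + m) = G1 A θ ((μ + Im A θ) / Ip A θ) z + μ * m ∧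
    G2 A θ (z + m) = G2 A θ z := by
  have hI : 0 < Ip A θ := by linarith [(P3_Ip A θ hA hA' h0 h1).1]
  refine ⟨?_, ?_⟩
  · rw [P4_G1, P4_G1, P4_per0 _ (P4_F1_cont A θ _ hA hA' h0 h1), P4_int1 A θ _ hA hA' h0 h1]
    · rw [div_mul_cancel₀ _ hI.ne']
      ring
    · intro z
      have := P2_pw_per A θ z 1
      rw [Int.cast_one] at this
      simp only [P4_F1, this]
  · rw [P4_G2, P4_G2, P4_per0 _ (P4_F2_cont A θ hA hA' h0 h1), P4_int2 A θ hA hA' h0 h1]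
    · rw [mul_zero, add_zero]
    · intro z
      have := P2_pw_per A θ z 1
      rw [Int.cast_one] at this
      simp only [P4_F2, this]

theorem P4_col (A θ z : ℝ) (m : ℤ) (hA : 0 ≤ A) (hA' : A ≤ 1) (h0 : 0 ≤ θ) (h1 : θ ≤ 1) (h : -(3 / 10) ≤ z - m)
    (h' : z - m ≤ 1 / 20) : G2 A θ z = 0 := by
  have e := (P4_per A θ 0 (z - m) m hA hA' h0 h1).2
  rw [sub_add_cancel] at e
  rw [e, P4_G2]
  have : ∫ t in (0 : ℝ)..(z - m), P4_F2 A θ t = ∫ t in (0 : ℝ)..(z - m), (0 : ℝ) := by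
    refine intervalIntegral.integral_congr fun t ht => ?_
    rcases Set.mem_uIcc.1 ht with ht | ht
    · have := P2_pw_zero A θ t 0 h0 h1 (by rw [Int.cast_zero]; linarith [ht.1])
        (by rw [Int.cast_zero]; linarith [ht.2])
      simp only [P4_F2, this, P1_f_zero.2.2]
    · have := P2_pw_zero A θ t 0 h0 h1 (by rw [Int.cast_zero]; linarith [ht.1])
        (by rw [Int.cast_zero]; linarith [ht.2])
      simp only [P4_F2, this, P1_f_zero.2.2]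
  rw [this, intervalIntegral.integral_zero]

theorem P4_zero (A θ α : ℝ) : G1 A θ α 0 = 0 ∧ G2 A θ 0 = 0 := by
  refine ⟨?_, ?_⟩
  · rw [P4_G1, intervalIntegral.integral_same]
  · rw [P4_G2, intervalIntegral.integral_same]

theorem P4_bound (A θ μ z : ℝ) (hA : 0 ≤ A) (hA' : A ≤ 1) (h0 : 0 ≤ θ) (h1 : θ ≤ 1) (hα : 0 ≤ (μ + Im A θ) / Ip A θ)
    (hα' : (μ + Im A θ) / Ip A θ ≤ 3) (hμ : 0 ≤ μ) (hμ' : μ ≤ 1) :
    |G1 A θ ((μ + Im A θ) / Ip A θ) z - μ * z| ≤ 4 ∧ |G2 A θ z| ≤ 1 := by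
  obtain ⟨p1, p2⟩ := P4_per A θ μ (Int.fract z) ⌊z⌋ hA hA' h0 h1
  rw [Int.fract_add_floor] at p1 p2
  obtain ⟨l1, l2⟩ := P4_lip A θ ((μ + Im A θ) / Ip A θ) (Int.fract z) 0 hA hA' h0 h1 hα hα'
  obtain ⟨z1, z2⟩ := P4_zero A θ ((μ + Im A θ) / Ip A θ)
  have f0 := Int.fract_nonneg z
  have f1 := (Int.fract_lt_one z).le
  rw [z1, sub_zero, sub_zero, abs_of_nonneg f0] at l1
  rw [z2, sub_zero, sub_zero, abs_of_nonneg f0] at l2
  refine ⟨?_, ?_⟩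
  · have e : G1 A θ ((μ + Im A θ) / Ip A θ) z - μ * z
      = G1 A θ ((μ + Im A θ) / Ip A θ) (Int.fract z) - μ * Int.fract z := by
      rw [p1]
      have := Int.fract_add_floor z
      have h2 : μ * z = μ * (Int.fract z + ⌊z⌋) := by rw [this]
      rw [h2]; ring
    rw [e]
    refine (abs_sub _ _).trans ?_
    have h3 : |μ * Int.fract z| ≤ 1 := by
      rw [abs_of_nonneg (mul_nonneg hμ f0)]
      exact mul_le_one₀ hμ' f0 f1
    linarith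
  · rw [p2]
    exact l2.trans f1

theorem P4_int_le (f g : ℝ → ℝ) (hf : Continuous f) (hg : Continuous g) (C z : ℝ) (hz : 0 ≤ z)
    (hz' : z ≤ 1) (h : ∀ t, 0 ≤ t → t ≤ 1 → |f t - g t| ≤ C) :
    |(∫ t in (0 : ℝ)..z, f t) - ∫ t in (0 : ℝ)..z, g t| ≤ C := by
  rw [← intervalIntegral.integral_sub (hf.intervalIntegrable _ _) (hg.intervalIntegrable _ _)]
  have hC : 0 ≤ C := (abs_nonneg _).trans (h 0 le_rfl zero_le_one)
  have := intervalIntegral.norm_integral_le_of_norm_le_const (a := 0) (b := z)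
    (f := fun t => f t - g t) (C := C) fun t ht => by
      rw [Set.uIoc_of_le hz] at ht
      exact h t ht.1.le (ht.2.trans hz')
  rw [sub_zero, abs_of_nonneg hz] at this
  exact this.trans (mul_le_of_le_one_right hC hz')

theorem P4_par (A A' θ θ' α α' z : ℝ) (hA : 0 ≤ A) (hA1 : A ≤ 1) (hA' : 0 ≤ A') (hA1' : A' ≤ 1) (h0 : 0 ≤ θ) (h1 : θ ≤ 1)
    (h0' : 0 ≤ θ') (h1' : θ' ≤ 1) (hα : 0 ≤ α) (hα1 : α ≤ 3) (hα' : 0 ≤ α') (hα1' : α' ≤ 3) (hz : 0 ≤ z) (hz' : z ≤ 1) :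
    |G1 A θ α z - G1 A' θ' α' z| ≤ |α - α'| + 16 * |A - A'| + 168 * |θ - θ'| ∧
    |G2 A θ z - G2 A' θ' z| ≤ 4 * |A - A'| + 42 * |θ - θ'| := by
  have hw : ∀ t, 0 ≤ t → t ≤ 1 →
      |pw A θ t - pw A' θ' t| ≤ 2 * |A - A'| + 21 * |θ - θ'| := by
    intro t ht ht'
    rw [P2_pw_unit A θ t h0 h1 ht ht', P2_pw_unit A' θ' t h0' h1' ht ht']
    exact P2_par A A' θ θ' t hA hA1 h0' h1' h0 h1 ht ht' hA' hA1'
  refine ⟨?_, ?_⟩
  · refine P4_int_le _ _ (P4_F1_cont A θ α hA hA1 h0 h1) (P4_F1_cont A' θ' α' hA' hA1' h0' h1') _ z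
      hz hz' fun t ht ht' => ?_
    have a := hw t ht ht'
    have b := P1_fp_lip (pw A θ t) (pw A' θ' t)
    have c := P1_fm_lip (pw A θ t) (pw A' θ' t)
    obtain ⟨m1, m2, -, -, -⟩ := P1_f_mem _ (P2_pw_abs A θ t hA hA1 h0 h1)
    have e : α * fp (pw A θ t) - fm (pw A θ t) - (α' * fp (pw A' θ' t) - fm (pw A' θ' t))
      = ((α - α') * fp (pw A θ t) + α' * (fp (pw A θ t) - fp (pw A' θ' t)))
        - (fm (pw A θ t) - fm (pw A' θ' t)) := by ring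
    change |α * fp (pw A θ t) - fm (pw A θ t) - (α' * fp (pw A' θ' t) - fm (pw A' θ' t))| ≤ _
    rw [e]
    refine (abs_sub _ _).trans ?_
    have t1 := abs_add_le ((α - α') * fp (pw A θ t)) (α' * (fp (pw A θ t) - fp (pw A' θ' t)))
    have t2 : |(α - α') * fp (pw A θ t)| ≤ |α - α'| := by
      rw [abs_mul, abs_of_nonneg m1]
      exact mul_le_of_le_one_right (abs_nonneg _) m2
    have t3 : |α' * (fp (pw A θ t) - fp (pw A' θ' t))| ≤ 3 * (2 * |pw A θ t - pw A' θ' t|) := by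
      rw [abs_mul, abs_of_nonneg hα']
      exact mul_le_mul hα1' b (abs_nonneg _) (by norm_num)
    linarith
  · refine P4_int_le _ _ (P4_F2_cont A θ hA hA1 h0 h1) (P4_F2_cont A' θ' hA' hA1' h0' h1') _ z
      hz hz' fun t ht ht' => ?_
    have a := hw t ht ht'
    have b := P1_fs_lip (pw A θ t) (pw A' θ' t)
    change |fs (pw A θ t) - fs (pw A' θ' t)| ≤ _
    linarith

theorem P4_double (A α z : ℝ) (hA : 0 ≤ A) (hA' : A ≤ 1) :
    G1 A 1 α z = 1 / 2 * G1 A 0 α (2 * z) ∧ G2 A 1 z = 1 / 2 * G2 A 0 (2 * z) := by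
  refine ⟨?_, ?_⟩
  · have e : G1 A 1 α z = ∫ t in (0 : ℝ)..z, P4_F1 A 0 α (2 * t) := by
      rw [P4_G1]
      refine intervalIntegral.integral_congr fun t _ => ?_
      simp only [P4_F1, P2_double]
    rw [e, intervalIntegral.integral_comp_mul_left _ (two_ne_zero), mul_zero, smul_eq_mul, P4_G1,
      one_div]
  · have e : G2 A 1 z = ∫ t in (0 : ℝ)..z, P4_F2 A 0 (2 * t) := by
      rw [P4_G2]
      refine intervalIntegral.integral_congr fun t _ => ?_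
      simp only [P4_F2, P2_double]
    rw [e, intervalIntegral.integral_comp_mul_left _ (two_ne_zero), mul_zero, smul_eq_mul, P4_G2,
      one_div]

theorem P4_amp0 (θ z : ℝ) : G1 0 θ 1 z = z ∧ G2 0 θ z = 0 := by
  obtain ⟨a, b, c⟩ := P1_f_zero
  refine ⟨?_, ?_⟩
  · have e : G1 0 θ 1 z = ∫ _t in (0 : ℝ)..z, (1 : ℝ) := by
      rw [P4_G1]
      refine intervalIntegral.integral_congr fun t _ => ?_
      simp only [P4_F1, P2_amp0, a, b]
      norm_num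
    rw [e, intervalIntegral.integral_const, smul_eq_mul, mul_one, sub_zero]
  · have e : G2 0 θ z = ∫ _t in (0 : ℝ)..z, (0 : ℝ) := by
      rw [P4_G2]
      refine intervalIntegral.integral_congr fun t _ => ?_
      simp only [P4_F2, P2_amp0, c]
    rw [e, intervalIntegral.integral_zero]

end H80.LD
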