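import Pool.Agent.H80.LD.P4

/-!
# P5: the growing pattern at a closed level, scale function

A number `c` is in the closed level `i : ℕ` if `i ≤ max (c/Lp) 0 ≤ i + 1`; then `θ = th i c ∈ [0,1]`.  `sg c = 2 ^ (i + θ)` (`Real.rpow_natCast`, `rpow_add`), so `lam' i * sg c = Lam * 2 ^ θ ∈ [Lam, 2 Lam]`.
* `P5_sg`: `1 ≤ sg c`; `P5_sg_slow`: `|c - c'| ≤ Lp` implies `sg c' ≤ 2 sg c` (exponents differ by at most 1).
* `P5_lev`: `c` is in the closed level `lev c` (`Nat.floor_le`, `Nat.lt_floor_add_one`; for `c < 0` the floor is 0); for integers `j` and `c ∈ [j, j+1]`, `c` is in the closed level `lev j`: `Lp = 10^10` is an integer, so for `j ≥ 0` `j < (i+1) Lp`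
  implies `j + 1 ≤ (i + 1) Lp` with `i = ⌊j/Lp⌋₊`.
* `P5_cons`: if `c` is in the closed level `i` then `Wf i c x = Wf (lev c) c x`, `g1f`, `g2f` same.  If `lev c = i` trivial.  Otherwise `max (c/Lp) 0 = i + 1`, `lev c = i + 1`, `th i c = 1`, `th (i+1) c = 0`, `am c = 1`, `lam' (i+1) = lam' i / 2`: `P2_double`, `P3_double` (so `al i c = al (i+1) c`), `P4_double`.
* `P5_am`: `am c ∈ [0,1]`, and `sg c = 1` (`c ≤ 0`) or `am c = 1` (`c ≥ 0`): so `1/20 ≤ al i c ≤ 3` (`P3_al`, `μ = 1/sg c`).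
* Lipschitz in `c` on a closed level: `|am c - am c'| ≤ |c - c'|/Lp`, `|th i c - th i c'| ≤ |c - c'|/Lp`.
-/

open Filter Topology Metric Set MeasureTheory

namespace H80.LD

theorem P5_Lp_pos : 0 < Lp := by
  unfold Lp
  positivity

theorem P5_Lam_pos : 0 < Lam := by
  unfold Lam
  positivity

theorem P5_rp (x : ℝ) (hx : 0 ≤ x) : 1 + x / 2 ≤ (2 : ℝ) ^ x ∧ 1 - x ≤ (2 : ℝ) ^ (-x) := by
  have h1 := Real.log_two_gt_d9
  have h2 := Real.log_two_lt_d9
  constructor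
  · rw [Real.rpow_def_of_pos (by norm_num : (0 : ℝ) < 2)]
    have h3 := Real.add_one_le_exp (Real.log 2 * x)
    nlinarith
  · rw [Real.rpow_def_of_pos (by norm_num : (0 : ℝ) < 2)]
    have h3 := Real.add_one_le_exp (Real.log 2 * -x)
    nlinarith

theorem P5_lam_succ (i : ℕ) : lam' (i + 1) = lam' i / 2 := by
  unfold lam'
  rw [pow_succ, div_div]

theorem P5_lam_pos (i : ℕ) : 0 < lam' i := by
  unfold lam'
  exact div_pos P5_Lam_pos (by positivity)

theorem P5_sg (c : ℝ) : 1 ≤ sg c := by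
  exact Real.one_le_rpow (by norm_num) (le_max_right _ _)

theorem P5_sg_slow (c c' : ℝ) (h : |c - c'| ≤ Lp) : sg c' ≤ 2 * sg c := by
  have hL := P5_Lp_pos
  have h1 : max (c' / Lp) 0 ≤ max (c / Lp) 0 + 1 := by
    apply max_le
    · have h2 : c' ≤ c + Lp := by
        have := neg_abs_le (c - c')
        linarith
      have h3 : c' / Lp ≤ c / Lp + 1 := by
        rw [div_le_iff₀ hL, add_mul, div_mul_cancel₀ _ hL.ne', one_mul]
        exact h2
      have := le_max_left (c / Lp) 0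
      linarith
    · have := le_max_right (c / Lp) 0
      linarith
  unfold sg
  calc (2 : ℝ) ^ (max (c' / Lp) 0) ≤ (2 : ℝ) ^ (max (c / Lp) 0 + 1) :=
        Real.rpow_le_rpow_of_exponent_le (by norm_num) h1
    _ = 2 * (2 : ℝ) ^ (max (c / Lp) 0) := by
        rw [Real.rpow_add_one (by norm_num)]
        ring

theorem P5_sg_mono (c c' : ℝ) (h : c ≤ c') : sg c ≤ sg c' := by
  have hL := P5_Lp_pos
  unfold sg
  apply Real.rpow_le_rpow_of_exponent_le (by norm_num)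
  apply max_le_max _ le_rfl
  gcongr

theorem P5_sg_neg (c : ℝ) (h : c ≤ 0) : sg c = 1 := by
  have hL := P5_Lp_pos
  unfold sg
  rw [max_eq_right (div_nonpos_of_nonpos_of_nonneg h hL.le), Real.rpow_zero]

/-- `2^b - 2^a ≤ 2^b (b - a)` and `≥ 2^a (b - a)/2` for `a ≤ b` -/
theorem P5_sg_diff (c c' : ℝ) (h0 : 0 ≤ c) (h : c ≤ c') :
    sg c * (c' - c) / (2 * Lp) ≤ sg c' - sg c ∧ sg c' - sg c ≤ sg c' * (c' - c) / Lp := by
  have hL := P5_Lp_pos
  have hc' : 0 ≤ c' := h0.trans h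
  have e1 : sg c = (2 : ℝ) ^ (c / Lp) := by
    unfold sg
    rw [max_eq_left (by positivity)]
  have e2 : sg c' = (2 : ℝ) ^ (c' / Lp) := by
    unfold sg
    rw [max_eq_left (by positivity)]
  have hx : 0 ≤ (c' - c) / Lp := div_nonneg (by linarith) hL.le
  obtain ⟨h1, h2⟩ := P5_rp _ hx
  have e3 : sg c' = sg c * (2 : ℝ) ^ ((c' - c) / Lp) := by
    rw [e1, e2, ← Real.rpow_add (by norm_num)]
    congr 1
    field_simp
    ring
  have e4 : sg c = sg c' * (2 : ℝ) ^ (-((c' - c) / Lp)) := by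
    rw [e1, e2, ← Real.rpow_add (by norm_num)]
    congr 1
    field_simp
    ring
  have p1 : 0 < sg c := by rw [e1]; positivity
  have p2 : 0 < sg c' := by rw [e2]; positivity
  constructor
  · have h3 : sg c * (1 + (c' - c) / Lp / 2) ≤ sg c' := by
      rw [e3]
      exact mul_le_mul_of_nonneg_left h1 p1.le
    have e5 : sg c * (c' - c) / (2 * Lp) = sg c * ((c' - c) / Lp / 2) := by
      field_simp
    rw [e5]
    linarith
  · have h3 : sg c' * (1 - (c' - c) / Lp) ≤ sg c := by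
      calc sg c' * (1 - (c' - c) / Lp) ≤ sg c' * (2 : ℝ) ^ (-((c' - c) / Lp)) :=
            mul_le_mul_of_nonneg_left h2 p2.le
        _ = sg c := e4.symm
    have e5 : sg c' * (c' - c) / Lp = sg c' * ((c' - c) / Lp) := by
      rw [mul_div_assoc]
    rw [e5]
    linarith

theorem P5_lev_lt (c : ℝ) : max (c / Lp) 0 < lev c + 1 := by
  unfold lev
  apply max_lt
  · exact Nat.lt_floor_add_one _
  · positivity

theorem P5_lev (c : ℝ) : (lev c : ℝ) ≤ max (c / Lp) 0 ∧ max (c / Lp) 0 ≤ lev c + 1 := by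
  refine ⟨?_, (P5_lev_lt c).le⟩
  unfold lev
  rcases le_total 0 (c / Lp) with hc | hc
  · exact (Nat.floor_le hc).trans (le_max_left _ _)
  · rw [Nat.floor_of_nonpos hc, Nat.cast_zero]
    exact le_max_right _ _

theorem P5_levj (j : ℤ) (c : ℝ) (h : (j : ℝ) ≤ c) (h' : c ≤ j + 1) :
    (lev (j : ℝ) : ℝ) ≤ max (c / Lp) 0 ∧ max (c / Lp) 0 ≤ lev (j : ℝ) + 1 := by
  have hL := P5_Lp_pos
  have hjc : (j : ℝ) / Lp ≤ c / Lp := by gcongr
  refine ⟨(P5_lev (j : ℝ)).1.trans (max_le_max hjc le_rfl), ?_⟩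
  apply max_le _ (by positivity)
  rw [div_le_iff₀ hL]
  have h1 : (j : ℝ) < ((lev (j : ℝ) : ℝ) + 1) * Lp := by
    rw [← div_lt_iff₀ hL]
    exact (le_max_left _ _).trans_lt (P5_lev_lt (j : ℝ))
  have h2 : (j : ℝ) < (((lev (j : ℝ) : ℤ) + 1) * 10 ^ 10 : ℤ) := by
    have : Lp = 10 ^ 10 := rfl
    rw [this] at h1
    push_cast
    linarith
  have h3 : j + 1 ≤ ((lev (j : ℝ) : ℤ) + 1) * 10 ^ 10 := by
    have := Int.cast_lt.mp h2
    omega
  have h4 : ((j + 1 : ℤ) : ℝ) ≤ (((lev (j : ℝ) : ℤ) + 1) * 10 ^ 10 : ℤ) := Int.cast_le.mpr h3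
  push_cast at h4
  have h5 : Lp = 10 ^ 10 := rfl
  rw [h5]
  linarith

theorem P5_size (i : ℕ) (c : ℝ) (h : (i : ℝ) ≤ max (c / Lp) 0) (h' : max (c / Lp) 0 ≤ i + 1) :
    Lam ≤ lam' i * sg c ∧ lam' i * sg c ≤ 2 * Lam := by
  have e1 : sg c = 2 ^ i * (2 : ℝ) ^ (max (c / Lp) 0 - i) := by
    unfold sg
    rw [← Real.rpow_natCast, ← Real.rpow_add (by norm_num)]
    congr 1
    ring
  have e2 : lam' i * sg c = Lam * (2 : ℝ) ^ (max (c / Lp) 0 - i) := by
    rw [e1]
    unfold lam'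
    have : (2 : ℝ) ^ i ≠ 0 := by positivity
    field_simp
  have h1 : 1 ≤ (2 : ℝ) ^ (max (c / Lp) 0 - i) := Real.one_le_rpow (by norm_num) (by linarith)
  have h2 : (2 : ℝ) ^ (max (c / Lp) 0 - i) ≤ 2 := by
    calc (2 : ℝ) ^ (max (c / Lp) 0 - i) ≤ (2 : ℝ) ^ (1 : ℝ) :=
          Real.rpow_le_rpow_of_exponent_le (by norm_num) (by linarith)
      _ = 2 := Real.rpow_one 2
  have h3 := P5_Lam_pos
  rw [e2]
  constructor
  · nlinarith
  · nlinarith

theorem P5_th (i : ℕ) (c : ℝ) (h : (i : ℝ) ≤ max (c / Lp) 0) (h' : max (c / Lp) 0 ≤ i + 1) :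
    0 ≤ th i c ∧ th i c ≤ 1 ∧ 0 ≤ am c ∧ am c ≤ 1 := by
  have h1 := K1_cl_mem (1 + c / Lp)
  refine ⟨?_, ?_, h1.1, h1.2⟩
  · unfold th
    linarith
  · unfold th
    linarith

theorem P5_al (i : ℕ) (c : ℝ) (h : (i : ℝ) ≤ max (c / Lp) 0) (h' : max (c / Lp) 0 ≤ i + 1) :
    1 / 20 ≤ al i c ∧ al i c ≤ 3 := by
  obtain ⟨h1, h2, h3, h4⟩ := P5_th i c h h'
  have hs := P5_sg c
  have hs0 : 0 < sg c := by linarith
  refine P3_al (am c) (th i c) (1 / sg c) h3 h4 h1 h2 (by positivity) ?_ ?_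
  · rw [div_le_one hs0]
    exact hs
  · rcases le_total c 0 with hc | hc
    · left
      rw [P5_sg_neg c hc, div_one]
    · right
      unfold am
      apply K1_cl_one
      have := div_nonneg hc P5_Lp_pos.le
      linarith

theorem P5_cons (i : ℕ) (c x : ℝ) (h : (i : ℝ) ≤ max (c / Lp) 0) (h' : max (c / Lp) 0 ≤ i + 1) :
    Wf i c x = Wf (lev c) c x ∧ g1f i c x = g1f (lev c) c x ∧ g2f i c x = g2f (lev c) c x ∧ al i c = al (lev c) c := by
  have h1 := P5_lev c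
  have h2 := P5_lev_lt c
  have h3 : i ≤ lev c := by
    have : (i : ℝ) < ((lev c + 1 : ℕ) : ℝ) := by push_cast; linarith
    have := Nat.cast_lt.mp this
    omega
  have h4 : lev c ≤ i + 1 := by
    have : ((lev c : ℕ) : ℝ) ≤ ((i + 1 : ℕ) : ℝ) := by push_cast; linarith
    exact Nat.cast_le.mp this
  rcases Nat.eq_or_lt_of_le h3 with h5 | h5
  · rw [← h5]
    exact ⟨rfl, rfl, rfl, rfl⟩
  · have h6 : lev c = i + 1 := by omega
    rw [h6]
    rw [h6] at h1
    have h7 : max (c / Lp) 0 = i + 1 := by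
      apply le_antisymm h'
      have := h1.1
      push_cast at this
      exact this
    have t1 : th i c = 1 := by
      unfold th
      rw [h7]
      ring
    have t2 : th (i + 1) c = 0 := by
      unfold th
      rw [h7]
      push_cast
      ring
    have a1 := K1_cl_mem (1 + c / Lp)
    have hli := P5_lam_pos i
    have x1 : x / lam' (i + 1) = 2 * (x / lam' i) := by
      rw [P5_lam_succ]
      field_simp
    have d3 := P3_double (am c) a1.1 a1.2
    have hal : al i c = al (i + 1) c := by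
      unfold al
      rw [t1, t2, d3.1, d3.2]
    have d4 := P4_double (am c) (al (i + 1) c) (x / lam' i) a1.1 a1.2
    refine ⟨?_, ?_, ?_, hal⟩
    · unfold Wf
      rw [t1, t2, x1, P2_double]
    · unfold g1f
      rw [t1, t2, x1, hal, d4.1, P5_lam_succ]
      ring
    · unfold g2f
      rw [t1, t2, x1, d4.2, P5_lam_succ]
      ring

end H80.LD
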