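import Pool.Agent.H80.LD.T0b

/-!
# T1: the lift of a near-identity map along a punctured immersion, at a point `p` which is not in an open box

`h : PImm ...`, `hN : NI W' ε L U e e'`, `C ε ≤ r/32`, `hg` : `p` is good, `β p ∈ U`.  Notation `N v = ‖sc (W p) v‖`, `N' v = ‖sc (W' (β p)) v‖`, `lift p` = `lift W β r e p`.
* `T1_exists`: `N' (e (β p) - β p) ≤ ε ≤ r / C` (as `C ε ≤ r/32`), so `surj` gives `q`, `N (q - p) ≤ r`, `β q = e (β p)`; `low` with `q' = p` gives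
  `N (q - p) ≤ C N' (e (β p) - β p) ≤ C ε ≤ r / 4`.  Hence the `if` is satisfied, `β (lift p) = e (β p)` and `N (lift p - p) ≤ r/4`; again by `low` `N (lift p - p) ≤ C ε`.
* `T1_lip`: for `q` near `p` (`N (q - p)` small, `< r/32`, and `L * C * N (q-p) ≤ r / (32 C)`, and the pointwise bound of `e` at `β p` holds at `β q`: `β` is continuous at `p` by `upp`
  with `T0b_cont`): `N' (e (β q) - β p) ≤ L C N (q - p) + ε ≤ r / (16 C)`; `surj` gives `s` with `N (s - p) ≤ r`, `β s = e (β q)`, by `low` `N (s - p) ≤ r/16`.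
  `W q ≤ 2 W p` (`slow`), so `‖sc (W q) (s - q)‖ ≤ 2 (r/16 + r/32) ≤ r/4`: the `if` at `q` is satisfied, `β (lift q) = e (β q)`, `‖sc (W q) (lift q - q)‖ ≤ r/4`.
  `W p ≤ 2 W q` (`slow` at `q`: `‖sc (W q) (p - q)‖ ≤ 2 N (p-q) ≤ 1`), so `N (lift q - p) ≤ r/2 + r/32 ≤ r`, and `low` gives
  `N (lift q - lift p) ≤ C N' (e (β q) - e (β p)) ≤ C L N' (β q - β p) ≤ C L C N (q - p)`.
* `T1_inv`: `s = lift p` (for `e`), `N (s - p) ≤ r/32`.  `β s = e (β p) ∈ U`.  `p` satisfies the condition for `lift e'` at `s`: `‖sc (W s) (p - s)‖ ≤ 2 r/32`,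
  `β p = e' (e (β p)) = e' (β s)`.  So `s' = lift e' s` satisfies `‖sc (W s) (s' - s)‖ ≤ r/4`, `β s' = e' (β s) = β p`; `N (s' - p) ≤ 2 r/4 + r/32 ≤ r`; `low`: `N (s' - p) ≤ C * 0`, so `s' = p`.
* `T1_id`: `β p = e (β p)`: `p` itself satisfies the condition; `lift p` has `β (lift p) = β p`, `N (lift p - p) ≤ r/4`, so `lift p = p` by `low`.
* `T1_eq`: `β = id` on the `r`-ball: `β (lift p) = e (β p) = e p` and `lift p` is in the `r`-ball so `β (lift p) = lift p`.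
-/

open Filter Topology Metric Set

namespace H80.LD

variable {X : Type*} [NormedAddCommGroup X] {D : Type*} [Fintype D]

theorem T1_spec (W : X × (D → ℝ) → D → ℝ) (β : X × (D → ℝ) → X × (D → ℝ)) (r : ℝ)
    (e : X × (D → ℝ) → X × (D → ℝ)) (p : X × (D → ℝ))
    (h : ∃ q : X × (D → ℝ), ‖sc (W p) (q - p)‖ ≤ r / 4 ∧ β q = e (β p)) :
    ‖sc (W p) (lift W β r e p - p)‖ ≤ r / 4 ∧ β (lift W β r e p) = e (β p) := by
  have e1 : lift W β r e p = h.choose := by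
    unfold lift
    rw [dif_pos h]
  rw [e1]
  exact h.choose_spec

theorem T1_pres (W : X × (D → ℝ) → D → ℝ) (β : X × (D → ℝ) → X × (D → ℝ)) (r : ℝ)
    (e : X × (D → ℝ) → X × (D → ℝ)) (hβ : ∀ p, (β p).1 = p.1) (he : ∀ p, (e p).1 = p.1) (p : X × (D → ℝ)) :
    (lift W β r e p).1 = p.1 := by
  by_cases h : ∃ q : X × (D → ℝ), ‖sc (W p) (q - p)‖ ≤ r / 4 ∧ β q = e (β p)
  · have h1 := (T1_spec W β r e p h).2
    have h2 := congrArg Prod.fst h1
    rw [hβ, he, hβ] at h2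
    exact h2
  · unfold lift
    rw [dif_neg h]

theorem T1_eps {W W' : X × (D → ℝ) → D → ℝ} {β : X × (D → ℝ) → X × (D → ℝ)} {Z ℓ : (D → ℝ) → D → ℝ}
    {need : (D → ℝ) → Prop} {r C : ℝ} (h : PImm W W' β Z ℓ need r C) {ε : ℝ} (hε : C * ε ≤ r / 32) :
    ε ≤ r / (32 * C) := by
  have hC : 0 < C := lt_of_lt_of_le one_pos h.C1
  rw [le_div_iff₀ (by positivity)]
  nlinarith

theorem T1_exists {W W' : X × (D → ℝ) → D → ℝ} {β : X × (D → ℝ) → X × (D → ℝ)} {Z ℓ : (D → ℝ) → D → ℝ}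
    {need : (D → ℝ) → Prop} {r C : ℝ} (h : PImm W W' β Z ℓ need r C) {ε L : ℝ} {U : Set (X × (D → ℝ))}
    {e e' : X × (D → ℝ) → X × (D → ℝ)} (hN : NI W' ε L U e e') (hε : C * ε ≤ r / 32) (p : X × (D → ℝ))
    (hg : need p.2 → 1 ≤ gau Z ℓ p.2) (hU : β p ∈ U) :
    β (lift W β r e p) = e (β p) ∧ ‖sc (W p) (lift W β r e p - p)‖ ≤ C * ε := by
  have hC : 0 < C := lt_of_lt_of_le one_pos h.C1
  have hr := h.r0
  have hd := hN.disp (β p) hU
  have h0 : ‖sc (W p) (p - p)‖ ≤ r := by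
    rw [T0b_self]
    exact hr.le
  have h1 : ‖sc (W' (β p)) (e (β p) - β p)‖ ≤ r / C := by
    have h2 := T1_eps h hε
    have h3 : r / (32 * C) ≤ r / C := by
      apply div_le_div_of_nonneg_left hr.le hC
      linarith
    linarith
  obtain ⟨q, hq, hq'⟩ := h.surj p hg _ h1
  have key : ∀ s : X × (D → ℝ), ‖sc (W p) (s - p)‖ ≤ r → β s = e (β p) →
      ‖sc (W p) (s - p)‖ ≤ C * ε := by
    intro s hs hs'
    have h4 := h.low p hg s p hs h0
    rw [hs'] at h4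
    exact h4.trans (mul_le_mul_of_nonneg_left hd hC.le)
  have h5 := key q hq hq'
  obtain ⟨h6, h7⟩ := T1_spec W β r e p ⟨q, by linarith, hq'⟩
  exact ⟨h7, key _ (by linarith) h7⟩

theorem T1_lip {W W' : X × (D → ℝ) → D → ℝ} {β : X × (D → ℝ) → X × (D → ℝ)} {Z ℓ : (D → ℝ) → D → ℝ}
    {need : (D → ℝ) → Prop} {r C : ℝ} (h : PImm W W' β Z ℓ need r C) {ε L : ℝ} {U : Set (X × (D → ℝ))}
    {e e' : X × (D → ℝ) → X × (D → ℝ)} (hN : NI W' ε L U e e') (hε : C * ε ≤ r / 32) (hL : 0 ≤ L)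
    (p : X × (D → ℝ)) (hg : need p.2 → 1 ≤ gau Z ℓ p.2) (hU : β p ∈ U) :
    ∀ᶠ q in 𝓝 p, ‖sc (W p) (lift W β r e q - lift W β r e p)‖ ≤ C ^ 2 * L * ‖sc (W p) (q - p)‖ := by
  have hC1 := h.C1
  have hC : 0 < C := lt_of_lt_of_le one_pos h.C1
  have hr := h.r0
  have hr1 := h.r1
  have hd := hN.disp (β p) hU
  have hE := T1_exists h hN hε p hg hU
  have hε' := T1_eps h hε
  have h0 : ‖sc (W p) (p - p)‖ ≤ r := by
    rw [T0b_self]
    exact hr.le
  obtain ⟨δ, hδ⟩ : ∃ δ : ℝ, δ = r / (32 * C ^ 2 * (L + 1)) := ⟨_, rfl⟩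
  have hCL : 0 < 32 * C ^ 2 * (L + 1) := by positivity
  have hδ0 : 0 < δ := by rw [hδ]; positivity
  have hδ1 : δ ≤ r / 32 := by
    rw [hδ, div_le_div_iff₀ hCL (by norm_num)]
    have h1 : 1 ≤ C ^ 2 := by nlinarith
    have h2 : 1 ≤ C ^ 2 * (L + 1) := by nlinarith
    nlinarith
  have hδ2 : L * (C * δ) ≤ r / (32 * C) := by
    rw [le_div_iff₀ (by positivity)]
    have h1 : δ * (32 * C ^ 2 * (L + 1)) = r := by
      rw [hδ]
      field_simp
    have h2 : 0 ≤ δ * (32 * C ^ 2) := by positivity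
    nlinarith
  have hup : ∀ q : X × (D → ℝ), ‖sc (W p) (q - p)‖ ≤ r →
      ‖sc (W' (β p)) (β q - β p)‖ ≤ C * ‖sc (W p) (q - p)‖ := fun q hq => h.upp p hg q p hq h0
  have hcont : ContinuousAt β p := by
    refine T0b_cont (W p) (W' (β p)) (h.pos' _) C β p ?_
    filter_upwards [T0b_nhds (W p) p r hr] with q hq
    exact hup q hq.le
  filter_upwards [T0b_nhds (W p) p δ hδ0, hcont.eventually (hN.lip (β p) hU)] with q hq hlip
  have hqr : ‖sc (W p) (q - p)‖ ≤ r := by linarith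
  have hq' := hup q hqr
  have hnn : 0 ≤ ‖sc (W p) (q - p)‖ := norm_nonneg _
  have h1 : ‖sc (W' (β p)) (e (β q) - e (β p))‖ ≤ L * (C * ‖sc (W p) (q - p)‖) :=
    hlip.trans (mul_le_mul_of_nonneg_left hq' hL)
  have h2 : L * (C * ‖sc (W p) (q - p)‖) ≤ r / (32 * C) := by
    refine le_trans ?_ hδ2
    gcongr
  have h3 : ‖sc (W' (β p)) (e (β q) - β p)‖ ≤ r / (16 * C) := by
    have h4 := T0b_tri (W' (β p)) (e (β q)) (e (β p)) (β p)
    have h5 : r / (32 * C) + r / (32 * C) = r / (16 * C) := by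
      field_simp
      norm_num
    linarith
  have h4 : r / (16 * C) ≤ r / C := by
    apply div_le_div_of_nonneg_left hr.le hC
    linarith
  obtain ⟨s, hs, hs'⟩ := h.surj p hg (e (β q)) (h3.trans h4)
  have h5 : ‖sc (W p) (s - p)‖ ≤ r / 16 := by
    have h6 := h.low p hg s p hs h0
    rw [hs'] at h6
    refine h6.trans ((mul_le_mul_of_nonneg_left h3 hC.le).trans (le_of_eq ?_))
    field_simp
  have hs1 : ∀ i, W q i ≤ 2 * W p i := h.slow p q (by linarith)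
  have h6 : ‖sc (W q) (s - q)‖ ≤ r / 4 := by
    have h7 := T0b_mono (W q) (W p) 2 (by norm_num) (fun i => (h.pos q i).le) hs1 (s - q)
    have h8 := T0b_tri (W p) s p q
    have h9 := T0b_symm (W p) p q
    linarith
  obtain ⟨h7, h8⟩ := T1_spec W β r e q ⟨s, h6, hs'⟩
  have h9 : ‖sc (W q) (p - q)‖ ≤ 1 := by
    have h10 := T0b_mono (W q) (W p) 2 (by norm_num) (fun i => (h.pos q i).le) hs1 (p - q)
    have h11 := T0b_symm (W p) p q
    linarith
  have hs2 : ∀ i, W p i ≤ 2 * W q i := h.slow q p h9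
  have h10 : ‖sc (W p) (lift W β r e q - p)‖ ≤ r := by
    have h11 := T0b_mono (W p) (W q) 2 (by norm_num) (fun i => (h.pos p i).le) hs2
      (lift W β r e q - q)
    have h12 := T0b_tri (W p) (lift W β r e q) q p
    linarith
  have h13 := h.low p hg (lift W β r e q) (lift W β r e p) h10 (by linarith [hE.2])
  rw [h8, hE.1] at h13
  refine h13.trans ((mul_le_mul_of_nonneg_left h1 hC.le).trans (le_of_eq ?_))
  ring

theorem T1_inv {W W' : X × (D → ℝ) → D → ℝ} {β : X × (D → ℝ) → X × (D → ℝ)} {Z ℓ : (D → ℝ) → D → ℝ}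
    {need : (D → ℝ) → Prop} {r C : ℝ} (h : PImm W W' β Z ℓ need r C) {ε L : ℝ} {U : Set (X × (D → ℝ))}
    {e e' : X × (D → ℝ) → X × (D → ℝ)} (hN : NI W' ε L U e e') (hε : C * ε ≤ r / 32)
    (p : X × (D → ℝ)) (hg : need p.2 → 1 ≤ gau Z ℓ p.2) (hU : β p ∈ U) (hU' : e (β p) ∈ U) :
    lift W β r e' (lift W β r e p) = p := by
  have hC : 0 < C := lt_of_lt_of_le one_pos h.C1
  have hr := h.r0
  have hr1 := h.r1
  have hE := T1_exists h hN hε p hg hU
  have hinv := hN.inv (β p) hU hU'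
  obtain ⟨s, hs⟩ : ∃ s, s = lift W β r e p := ⟨_, rfl⟩
  rw [← hs] at hE ⊢
  have h0 : ‖sc (W p) (p - p)‖ ≤ r := by
    rw [T0b_self]
    exact hr.le
  have h1 : ‖sc (W p) (s - p)‖ ≤ r / 32 := hE.2.trans hε
  have hs1 : ∀ i, W s i ≤ 2 * W p i := h.slow p s (by linarith)
  have h2 : ‖sc (W s) (p - s)‖ ≤ r / 16 := by
    have h10 := T0b_mono (W s) (W p) 2 (by norm_num) (fun i => (h.pos s i).le) hs1 (p - s)
    have h11 := T0b_symm (W p) p s
    linarith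
  have hs2 : ∀ i, W p i ≤ 2 * W s i := h.slow s p (by linarith)
  obtain ⟨h3, h4⟩ := T1_spec W β r e' s ⟨p, by linarith, by rw [hE.1, hinv]⟩
  rw [hE.1, hinv] at h4
  have h5 : ‖sc (W p) (lift W β r e' s - p)‖ ≤ r := by
    have h11 := T0b_mono (W p) (W s) 2 (by norm_num) (fun i => (h.pos p i).le) hs2
      (lift W β r e' s - s)
    have h12 := T0b_tri (W p) (lift W β r e' s) s p
    linarith
  have h6 := h.low p hg (lift W β r e' s) p h5 h0
  rw [h4, T0b_self, mul_zero] at h6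
  exact T0b_zero (W p) (h.pos p) _ _ h6

theorem T1_id {W W' : X × (D → ℝ) → D → ℝ} {β : X × (D → ℝ) → X × (D → ℝ)} {Z ℓ : (D → ℝ) → D → ℝ}
    {need : (D → ℝ) → Prop} {r C : ℝ} (h : PImm W W' β Z ℓ need r C)
    {e : X × (D → ℝ) → X × (D → ℝ)} (p : X × (D → ℝ)) (hg : need p.2 → 1 ≤ gau Z ℓ p.2) (he : e (β p) = β p) :
    lift W β r e p = p := by
  have hr := h.r0
  have h0 : ‖sc (W p) (p - p)‖ ≤ r := by
    rw [T0b_self]
    exact hr.le
  obtain ⟨h3, h4⟩ := T1_spec W β r e p ⟨p, by rw [T0b_self]; linarith, he.symm⟩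
  have h6 := h.low p hg (lift W β r e p) p (by linarith) h0
  rw [h4, he, T0b_self, mul_zero] at h6
  exact T0b_zero (W p) (h.pos p) _ _ h6

theorem T1_eq {W W' : X × (D → ℝ) → D → ℝ} {β : X × (D → ℝ) → X × (D → ℝ)} {Z ℓ : (D → ℝ) → D → ℝ}
    {need : (D → ℝ) → Prop} {r C : ℝ} (h : PImm W W' β Z ℓ need r C) {ε L : ℝ} {U : Set (X × (D → ℝ))}
    {e e' : X × (D → ℝ) → X × (D → ℝ)} (hN : NI W' ε L U e e') (hε : C * ε ≤ r / 32) (p : X × (D → ℝ))
    (hg : need p.2 → 1 ≤ gau Z ℓ p.2) (hU : β p ∈ U) (hid : ∀ q, ‖sc (W p) (q - p)‖ ≤ r → β q = q) :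
    lift W β r e p = e p := by
  have hr := h.r0
  have hE := T1_exists h hN hε p hg hU
  have h1 := hid (lift W β r e p) (by linarith [hE.2])
  have h2 := hid p (by rw [T0b_self]; exact hr.le)
  rw [← h1, hE.1, h2]

end H80.LD
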