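import Pool.Agent.H80.LD.T1

/-!
# T2: the lift in box coordinates is an NP pair on the thin shell

`z = Z y0`, `l = ℓ y0`, `f = bl W β r e z l`, `f' = bl W β r e' z l` (`bl z l p' = bo (lift (bi p'))`).  Let `p' = (c, v)`, `21/20 < ‖v‖ < 6/5`, `p = bi z l p'`, so `p' = bo z l p` (T0b).
`|p.2 i - z i| = l i |v i| < (6/5) l i`, so by `box` `Z p.2 = z`, `ℓ p.2 = l`, `need p.2`, and `gau Z ℓ p.2 = ‖v‖ ≥ 1`: `p` is good.  By `size` `1/C ≤ W p i * l i ≤ C`.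
* pres: `T1_pres`.
* disp: `‖f p' - p'‖ = ‖bo (lift p) - bo p‖ ≤ C ‖sc (W p) (lift p - p)‖ ≤ C * (C * ε)`.
* lip: for `q'` near `p'`, `q = bi q'` is near `p` (continuity of `bi`), `T1_lip`: `‖f q' - f p'‖ ≤ C ‖sc (W p) (lift q - lift p)‖ ≤ C * C^2 L * ‖sc (W p) (q - p)‖ ≤ C^3 L * C ‖q' - p'‖`.
* inv: `f p' = (c, v₁)` in the shell, `s = lift p = bi (f p')`; `β s = e (β p)` and `β s ∈ U` by hypothesis (`s = bi (c, v₁)`), so `T1_inv`: `lift e' s = p`, i.e. `f' (f p') = bo (lift e' (bi (bo s))) = bo p = p'`.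
* the primed statements: `NI.symm` and the same argument.
-/

open Filter Topology Metric Set

namespace H80.LD

variable {X : Type*} [NormedAddCommGroup X] {D : Type*} [Fintype D]

theorem T2_good {W W' : X × (D → ℝ) → D → ℝ} {β : X × (D → ℝ) → X × (D → ℝ)} {Z ℓ : (D → ℝ) → D → ℝ}
    {need : (D → ℝ) → Prop} {r C : ℝ} (h : PImm W W' β Z ℓ need r C)
    (y0 : D → ℝ) (hn : need y0) (c : X) (v : D → ℝ) (h1 : 21 / 20 < ‖v‖) (h2 : ‖v‖ < 6 / 5) :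
    (need (bi (Z y0) (ℓ y0) (c, v)).2 → 1 ≤ gau Z ℓ (bi (Z y0) (ℓ y0) (c, v)).2) ∧
      (∀ i, 1 / C ≤ W (bi (Z y0) (ℓ y0) (c, v)) i * ℓ y0 i) ∧
      (∀ i, W (bi (Z y0) (ℓ y0) (c, v)) i * ℓ y0 i ≤ C) := by
  have hl := h.lpos y0
  have hb := h.box y0 (bi (Z y0) (ℓ y0) (c, v)).2 hn (by
    intro i
    have e1 : (bi (Z y0) (ℓ y0) (c, v)).2 i - Z y0 i = ℓ y0 i * v i := by
      change Z y0 i + ℓ y0 i * v i - Z y0 i = ℓ y0 i * v i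
      ring
    rw [e1, abs_mul, abs_of_pos (hl i), mul_comm]
    have e2 : |v i| ≤ ‖v‖ := norm_le_pi_norm v i
    exact mul_lt_mul_of_pos_right (e2.trans_lt h2) (hl i))
  refine ⟨?_, ?_, ?_⟩
  · intro _
    unfold gau
    rw [hb.1, hb.2.1]
    have e1 : (fun i => ((bi (Z y0) (ℓ y0) (c, v)).2 i - Z y0 i) / ℓ y0 i) = v := by
      funext i
      have hli := (hl i).ne'
      change (Z y0 i + ℓ y0 i * v i - Z y0 i) / ℓ y0 i = v i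
      field_simp
      ring
    rw [e1]
    linarith
  · intro i
    have := (h.size (bi (Z y0) (ℓ y0) (c, v)) i).1
    rwa [hb.2.1] at this
  · intro i
    have := (h.size (bi (Z y0) (ℓ y0) (c, v)) i).2
    rwa [hb.2.1] at this

theorem T2_disp {W W' : X × (D → ℝ) → D → ℝ} {β : X × (D → ℝ) → X × (D → ℝ)} {Z ℓ : (D → ℝ) → D → ℝ}
    {need : (D → ℝ) → Prop} {r C : ℝ} (h : PImm W W' β Z ℓ need r C) {ε L : ℝ} {U : Set (X × (D → ℝ))}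
    {e e' : X × (D → ℝ) → X × (D → ℝ)} (hN : NI W' ε L U e e') (hε : C * ε ≤ r / 32)
    (y0 : D → ℝ) (hn : need y0) (c : X)
    (hU : ∀ v : D → ℝ, 21 / 20 < ‖v‖ → ‖v‖ < 6 / 5 → β (bi (Z y0) (ℓ y0) (c, v)) ∈ U)
    (v : D → ℝ) (h1 : 21 / 20 < ‖v‖) (h2 : ‖v‖ < 6 / 5) :
    ‖bl W β r e (Z y0) (ℓ y0) (c, v) - (c, v)‖ ≤ C ^ 2 * ε := by
  obtain ⟨hg, hs1, hs2⟩ := T2_good h y0 hn c v h1 h2
  have hl := h.lpos y0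
  have hC0 : 0 ≤ C := zero_le_one.trans h.C1
  have e1 := T1_exists h hN hε (bi (Z y0) (ℓ y0) (c, v)) hg (hU v h1 h2)
  have e2 := T0b_bo_lip (Z y0) (ℓ y0) (W (bi (Z y0) (ℓ y0) (c, v))) hl C h.C1 hs1
    (lift W β r e (bi (Z y0) (ℓ y0) (c, v))) (bi (Z y0) (ℓ y0) (c, v))
  rw [T0b_bobi (Z y0) (ℓ y0) hl (c, v)] at e2
  calc ‖bl W β r e (Z y0) (ℓ y0) (c, v) - (c, v)‖
      ≤ C * ‖sc (W (bi (Z y0) (ℓ y0) (c, v)))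
        (lift W β r e (bi (Z y0) (ℓ y0) (c, v)) - bi (Z y0) (ℓ y0) (c, v))‖ := e2
    _ ≤ C * (C * ε) := mul_le_mul_of_nonneg_left e1.2 hC0
    _ = C ^ 2 * ε := by ring

theorem T2_lip {W W' : X × (D → ℝ) → D → ℝ} {β : X × (D → ℝ) → X × (D → ℝ)} {Z ℓ : (D → ℝ) → D → ℝ}
    {need : (D → ℝ) → Prop} {r C : ℝ} (h : PImm W W' β Z ℓ need r C) {ε L : ℝ} {U : Set (X × (D → ℝ))}
    {e e' : X × (D → ℝ) → X × (D → ℝ)} (hN : NI W' ε L U e e') (hε : C * ε ≤ r / 32) (hL : 1 ≤ L)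
    (y0 : D → ℝ) (hn : need y0) (c : X)
    (hU : ∀ v : D → ℝ, 21 / 20 < ‖v‖ → ‖v‖ < 6 / 5 → β (bi (Z y0) (ℓ y0) (c, v)) ∈ U)
    (v : D → ℝ) (h1 : 21 / 20 < ‖v‖) (h2 : ‖v‖ < 6 / 5) :
    ∀ᶠ q in 𝓝 (c, v), ‖bl W β r e (Z y0) (ℓ y0) q - bl W β r e (Z y0) (ℓ y0) (c, v)‖
      ≤ C ^ 4 * L * ‖q - (c, v)‖ := by
  obtain ⟨hg, hs1, hs2⟩ := T2_good h y0 hn c v h1 h2
  have hl := h.lpos y0
  have hC0 : 0 ≤ C := zero_le_one.trans h.C1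
  have hL0 : 0 ≤ L := zero_le_one.trans hL
  have e1 := T1_lip h hN hε hL0 (bi (Z y0) (ℓ y0) (c, v)) hg (hU v h1 h2)
  have e2 := ((T0b_bi_cont (X := X) (Z y0) (ℓ y0)).continuousAt (x := (c, v))).eventually e1
  filter_upwards [e2] with q hq
  have e3 := T0b_bo_lip (Z y0) (ℓ y0) (W (bi (Z y0) (ℓ y0) (c, v))) hl C h.C1 hs1
    (lift W β r e (bi (Z y0) (ℓ y0) q)) (lift W β r e (bi (Z y0) (ℓ y0) (c, v)))
  have e4 := T0b_bi_lip (Z y0) (ℓ y0) (W (bi (Z y0) (ℓ y0) (c, v))) hl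
    (fun i => (h.pos _ i).le) C h.C1 hs2 q (c, v)
  calc ‖bl W β r e (Z y0) (ℓ y0) q - bl W β r e (Z y0) (ℓ y0) (c, v)‖
      ≤ C * ‖sc (W (bi (Z y0) (ℓ y0) (c, v)))
        (lift W β r e (bi (Z y0) (ℓ y0) q) - lift W β r e (bi (Z y0) (ℓ y0) (c, v)))‖ := e3
    _ ≤ C * (C ^ 2 * L * ‖sc (W (bi (Z y0) (ℓ y0) (c, v)))
        (bi (Z y0) (ℓ y0) q - bi (Z y0) (ℓ y0) (c, v))‖) := mul_le_mul_of_nonneg_left hq hC0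
    _ ≤ C * (C ^ 2 * L * (C * ‖q - (c, v)‖)) := by gcongr
    _ = C ^ 4 * L * ‖q - (c, v)‖ := by ring

theorem T2_inv {W W' : X × (D → ℝ) → D → ℝ} {β : X × (D → ℝ) → X × (D → ℝ)} {Z ℓ : (D → ℝ) → D → ℝ}
    {need : (D → ℝ) → Prop} {r C : ℝ} (h : PImm W W' β Z ℓ need r C) {ε L : ℝ} {U : Set (X × (D → ℝ))}
    {e e' : X × (D → ℝ) → X × (D → ℝ)} (hN : NI W' ε L U e e') (hε : C * ε ≤ r / 32)
    (y0 : D → ℝ) (hn : need y0) (c : X)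
    (hU : ∀ v : D → ℝ, 21 / 20 < ‖v‖ → ‖v‖ < 6 / 5 → β (bi (Z y0) (ℓ y0) (c, v)) ∈ U)
    (v : D → ℝ) (h1 : 21 / 20 < ‖v‖) (h2 : ‖v‖ < 6 / 5)
    (hi : bl W β r e (Z y0) (ℓ y0) (c, v) ∈ ({c} ×ˢ {v : D → ℝ | 21 / 20 < ‖v‖ ∧ ‖v‖ < 6 / 5} :
      Set (X × (D → ℝ)))) :
    bl W β r e' (Z y0) (ℓ y0) (bl W β r e (Z y0) (ℓ y0) (c, v)) = (c, v) := by
  obtain ⟨hg, hs1, hs2⟩ := T2_good h y0 hn c v h1 h2
  have hl := h.lpos y0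
  have e1 := T1_exists h hN hε (bi (Z y0) (ℓ y0) (c, v)) hg (hU v h1 h2)
  have e2 : bi (Z y0) (ℓ y0) (bl W β r e (Z y0) (ℓ y0) (c, v))
      = lift W β r e (bi (Z y0) (ℓ y0) (c, v)) := T0b_bibo (Z y0) (ℓ y0) hl _
  have e3 : e (β (bi (Z y0) (ℓ y0) (c, v))) ∈ U := by
    rw [← e1.1, ← e2]
    obtain ⟨hi1, hi2, hi3⟩ := hi
    have e4 : bl W β r e (Z y0) (ℓ y0) (c, v) = (c, (bl W β r e (Z y0) (ℓ y0) (c, v)).2) :=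
      Prod.ext hi1 rfl
    rw [e4]
    exact hU _ hi2 hi3
  have e5 := T1_inv h hN hε (bi (Z y0) (ℓ y0) (c, v)) hg (hU v h1 h2) e3
  change bo (Z y0) (ℓ y0) (lift W β r e' (bi (Z y0) (ℓ y0)
    (bl W β r e (Z y0) (ℓ y0) (c, v)))) = (c, v)
  rw [e2, e5]
  exact T0b_bobi (Z y0) (ℓ y0) hl (c, v)

theorem T2_pres {W W' : X × (D → ℝ) → D → ℝ} {β : X × (D → ℝ) → X × (D → ℝ)} {Z ℓ : (D → ℝ) → D → ℝ}
    {need : (D → ℝ) → Prop} {r C : ℝ} (h : PImm W W' β Z ℓ need r C) {ε L : ℝ} {U : Set (X × (D → ℝ))}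
    {e e' : X × (D → ℝ) → X × (D → ℝ)} (hN : NI W' ε L U e e') (z l : D → ℝ) (p : X × (D → ℝ)) :
    (bl W β r e z l p).1 = p.1 :=
  T1_pres W β r e h.pres hN.pres (bi z l p)

theorem T2_box {W W' : X × (D → ℝ) → D → ℝ} {β : X × (D → ℝ) → X × (D → ℝ)} {Z ℓ : (D → ℝ) → D → ℝ}
    {need : (D → ℝ) → Prop} {r C : ℝ} (h : PImm W W' β Z ℓ need r C) {ε L : ℝ} {U : Set (X × (D → ℝ))}
    {e e' : X × (D → ℝ) → X × (D → ℝ)} (hN : NI W' ε L U e e') (hε : C * ε ≤ r / 32) (hL : 1 ≤ L)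
    (y0 : D → ℝ) (hn : need y0) (c : X)
    (hU : ∀ v : D → ℝ, 21 / 20 < ‖v‖ → ‖v‖ < 6 / 5 → β (bi (Z y0) (ℓ y0) (c, v)) ∈ U) :
    NP (C ^ 2 * ε) (C ^ 4 * L) ({c} ×ˢ {v : D → ℝ | 21 / 20 < ‖v‖ ∧ ‖v‖ < 6 / 5})
      (bl W β r e (Z y0) (ℓ y0)) (bl W β r e' (Z y0) (ℓ y0)) := by
  refine ⟨fun p => T2_pres h hN _ _ p, fun p => T2_pres h hN.symm _ _ p, ?_, ?_, ?_, ?_, ?_, ?_⟩
  · rintro ⟨c', v⟩ ⟨hc, hv1, hv2⟩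
    obtain rfl : c' = c := hc
    exact T2_disp h hN hε y0 hn c' hU v hv1 hv2
  · rintro ⟨c', v⟩ ⟨hc, hv1, hv2⟩
    obtain rfl : c' = c := hc
    exact T2_disp h hN.symm hε y0 hn c' hU v hv1 hv2
  · rintro ⟨c', v⟩ ⟨hc, hv1, hv2⟩
    obtain rfl : c' = c := hc
    exact T2_lip h hN hε hL y0 hn c' hU v hv1 hv2
  · rintro ⟨c', v⟩ ⟨hc, hv1, hv2⟩
    obtain rfl : c' = c := hc
    exact T2_lip h hN.symm hε hL y0 hn c' hU v hv1 hv2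
  · rintro ⟨c', v⟩ ⟨hc, hv1, hv2⟩ hi
    obtain rfl : c' = c := hc
    exact T2_inv h hN hε y0 hn c' hU v hv1 hv2 hi
  · rintro ⟨c', v⟩ ⟨hc, hv1, hv2⟩ hi
    obtain rfl : c' = c := hc
    exact T2_inv h hN.symm hε y0 hn c' hU v hv1 hv2 hi

end H80.LD
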