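import Pool.Agent.H80.LD.T2

/-!
# T3: displacement and pointwise Lipschitz bound of the transferred map

`Φ z l`, `Φ' z l` are fillings (`Fills`) of the pairs `bl W β r e z l`, `bl W β r e' z l`.  `T p = tr Z ℓ need (lift W β r e) Φ p`.  Let `p` be such that `β q ∈ U` for all `q` with `‖sc (W p) (q - p)‖ ≤ 3 C`.
In particular `β p ∈ U`.  Let `z = Z p.2`, `l = ℓ p.2`, `p' = bo z l p`, `c = p.1`.
(*) If `need p.2` and `gau p.2 < 6/5`: for all `v` with `‖v‖ < 6/5`, `q = bi z l (c, v)`: `‖sc (W p) (q - p)‖ ≤ C ‖(c,v) - p'‖ ≤ C * 12/5 ≤ 3 C`, so `β q ∈ U`; T2 gives the NP property of the pair in box coordinates on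
`{c} ×ˢ shell` with constants `C^2 ε ≤ 1/3400`, `C^4 L ≥ 1`, hence `NP (10^5 C^2 ε) (10^16 (C^4 L)^3)` for `Φ z l, Φ' z l` on `{c} ×ˢ ball 0 (6/5)`, and `Φ z l (c, v) = bl ... e z l (c, v)` for `219/200 ≤ ‖v‖ < 6/5`.
(i) displacement: case box (`need`, `gau < 11/10`): `‖sc (W p) (bi (Φ p') - p)‖ = ‖sc (W p) (bi (Φ p') - bi p')‖ ≤ C * 10^5 C^2 ε`.  Otherwise `p` is good and `T1_exists` gives `C ε`.
(ii) Lipschitz bound near `p`: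
  - `need p.2`, `gau p.2 < 11/10`: near `p`, box data are the same (`T0b_near`), `gau q.2 = ‖(bo z l q).2‖ < 11/10` (continuity), so `T q = bi (Φ (bo q))`,
    `‖sc (W p) (T q - T p)‖ ≤ C * 10^16 (C^4 L)^3 * ‖bo q - bo p‖ ≤ C * 10^16 * C^12 L^3 * C ‖sc (W p) (q-p)‖`.
  - `need p.2`, `11/10 < gau p.2 < 6/5`: near `p` `T q = lift q`, `T1_lip`.
  - `need p.2`, `gau p.2 = 11/10`: near `p` `T q` is `lift q` or `bi (Φ (bo q))`, these two agree at `p` (see (*)), both have pointwise bounds; for every `q` use the appropriate one (`T p = lift p`).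
  - `need p.2`, `gau p.2 ≥ 6/5`, or not `need p.2`: near `p` `T q = lift q`.  Indeed let `δ` be small (`N (q - p) ≤ 1/2` and `N (q-p) < 1 / (20 C)`), and suppose `need q.2` and `gau q.2 < 11/10`.
    Then `|p.2 i - Z q.2 i| ≤ |p.2 i - q.2 i| + (11/10) ℓ q.2 i` and `W q i |p.2 i - q.2 i| ≤ 2 N (p - q) < 1/(10 C) ≤ (1/10) W q i ℓ q.2 i`, so `|p.2 i - Z q.2 i| < (6/5) ℓ q.2 i`,
    by `box` `Z p.2 = Z q.2`, `ℓ p.2 = ℓ q.2`, `need p.2`, and `gau p.2 < 6/5`, contradiction.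
* `T3_disp'`, `T3_lip'` for the inverse: `NI.symm`, `Fills.symm`.
* `T3_nbhd`: the last argument as a lemma, used again in T4: if `need q.2`, `gau q.2 < 11/10`, `‖sc (W q) (p - q)‖ < 1 / (10 C)`, then `Z p.2 = Z q.2`, `ℓ p.2 = ℓ q.2`, `need p.2`, `gau p.2 < 6/5`.
-/

open Filter Topology Metric Set

namespace H80.LD

variable {X : Type*} [NormedAddCommGroup X] {D : Type*} [Fintype D]

theorem T3_gau (Z ℓ : (D → ℝ) → D → ℝ) (p : X × (D → ℝ)) (z l : D → ℝ) (hz : Z p.2 = z)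
    (hl : ℓ p.2 = l) : gau Z ℓ p.2 = ‖(bo z l p).2‖ := by
  subst hz; subst hl; rfl

theorem T3_nbhd {W W' : X × (D → ℝ) → D → ℝ} {β : X × (D → ℝ) → X × (D → ℝ)} {Z ℓ : (D → ℝ) → D → ℝ}
    {need : (D → ℝ) → Prop} {r C : ℝ} (h : PImm W W' β Z ℓ need r C) (p q : X × (D → ℝ)) (hn : need q.2)
    (hg : gau Z ℓ q.2 < 11 / 10) (hpq : ‖sc (W q) (p - q)‖ < 1 / (10 * C)) :
    Z p.2 = Z q.2 ∧ ℓ p.2 = ℓ q.2 ∧ need p.2 ∧ gau Z ℓ p.2 < 6 / 5 := by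
  have hC : 0 < C := lt_of_lt_of_le one_pos h.C1
  have hlt : ∀ i, |p.2 i - Z q.2 i| < 6 / 5 * ℓ q.2 i := by
    intro i
    rw [T3_gau Z ℓ q _ _ rfl rfl] at hg
    have h1 := (T0b_box_iff (Z q.2) (ℓ q.2) (h.lpos q.2) (11 / 10) (by norm_num) q).1 hg i
    have h2 := (T0b_coord (W q) (fun j => (h.pos q j).le) (p - q) i).trans_lt hpq
    have h3 := (h.size q i).1
    have h4 : (1 / (10 * C)) = (1 / 10) * (1 / C) := by field_simp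
    have h5 : W q i * |(p - q).2 i| < W q i * ((1 / 10) * ℓ q.2 i) := by
      rw [h4] at h2; nlinarith
    have h6 : |(p - q).2 i| < (1 / 10) * ℓ q.2 i := lt_of_mul_lt_mul_left h5 (h.pos q i).le
    have h7 : |p.2 i - Z q.2 i| ≤ |(p - q).2 i| + |q.2 i - Z q.2 i| := by
      have : p.2 i - Z q.2 i = (p - q).2 i + (q.2 i - Z q.2 i) := by
        simp only [Prod.snd_sub, Pi.sub_apply]; ring
      rw [this]; exact abs_add_le _ _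
    linarith
  obtain ⟨h1, h2, h3⟩ := h.box q.2 p.2 hn hlt
  refine ⟨h1, h2, h3, ?_⟩
  rw [T3_gau Z ℓ p _ _ h1 h2]
  exact (T0b_box_iff (Z q.2) (ℓ q.2) (h.lpos q.2) (6 / 5) (by norm_num) p).2 hlt

/-- the fact (*) -/
theorem T3_star {W W' : X × (D → ℝ) → D → ℝ} {β : X × (D → ℝ) → X × (D → ℝ)} {Z ℓ : (D → ℝ) → D → ℝ}
    {need : (D → ℝ) → Prop} {r C : ℝ} (h : PImm W W' β Z ℓ need r C) {ε L : ℝ} {U : Set (X × (D → ℝ))}
    {e e' : X × (D → ℝ) → X × (D → ℝ)} (hN : NI W' ε L U e e') (hε : C * ε ≤ r / 32) (hL : 1 ≤ L)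
    (p : X × (D → ℝ)) (hp : ∀ q : X × (D → ℝ), ‖sc (W p) (q - p)‖ ≤ 3 * C → β q ∈ U) (hn : need p.2)
    (hg : gau Z ℓ p.2 < 6 / 5) :
    (∀ v : D → ℝ, ‖v‖ < 6 / 5 → ‖sc (W p) (bi (Z p.2) (ℓ p.2) (p.1, v) - p)‖ ≤ 3 * C) ∧
    NP (C ^ 2 * ε) (C ^ 4 * L) ({p.1} ×ˢ {v : D → ℝ | 21 / 20 < ‖v‖ ∧ ‖v‖ < 6 / 5})
      (bl W β r e (Z p.2) (ℓ p.2)) (bl W β r e' (Z p.2) (ℓ p.2)) := by
  have hC : 0 < C := lt_of_lt_of_le one_pos h.C1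
  have h1 : ∀ v : D → ℝ, ‖v‖ < 6 / 5 →
      ‖sc (W p) (bi (Z p.2) (ℓ p.2) (p.1, v) - p)‖ ≤ 3 * C := by
    intro v hv
    have e1 : bi (Z p.2) (ℓ p.2) (bo (Z p.2) (ℓ p.2) p) = p := T0b_bibo _ _ (h.lpos p.2) p
    have h2 := T0b_bi_lip (Z p.2) (ℓ p.2) (W p) (h.lpos p.2) (fun j => (h.pos p j).le) C h.C1
      (fun i => (h.size p i).2) (p.1, v) (bo (Z p.2) (ℓ p.2) p)
    rw [e1] at h2
    refine h2.trans ?_
    have h3 : ‖(p.1, v) - bo (Z p.2) (ℓ p.2) p‖ ≤ 12 / 5 := by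
      rw [T3_gau Z ℓ p _ _ rfl rfl] at hg
      rw [Prod.norm_def]
      apply max_le
      · have : ((p.1, v) - bo (Z p.2) (ℓ p.2) p).1 = 0 := by
          rw [Prod.fst_sub]; exact sub_self _
        rw [this, norm_zero]; norm_num
      · rw [Prod.snd_sub]
        have := norm_sub_le v (bo (Z p.2) (ℓ p.2) p).2
        linarith
    nlinarith
  exact ⟨h1, T2_box h hN hε hL p.2 hn p.1 fun v _ hv2 => hp _ (h1 v hv2)⟩

theorem T3_np {W W' : X × (D → ℝ) → D → ℝ} {β : X × (D → ℝ) → X × (D → ℝ)} {Z ℓ : (D → ℝ) → D → ℝ}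
    {need : (D → ℝ) → Prop} {r C : ℝ} (h : PImm W W' β Z ℓ need r C) {ε L : ℝ}
    {e e' : X × (D → ℝ) → X × (D → ℝ)} (hε0 : 0 ≤ ε)
    (hε1 : C ^ 2 * ε ≤ 1 / 3400) (hL : 1 ≤ L) (Φ Φ' : (D → ℝ) → (D → ℝ) → X × (D → ℝ) → X × (D → ℝ))
    (hΦ : ∀ z l, Fills (bl W β r e z l) (bl W β r e' z l) (Φ z l) (Φ' z l))
    (p : X × (D → ℝ)) (hnp : NP (C ^ 2 * ε) (C ^ 4 * L)
      ({p.1} ×ˢ {v : D → ℝ | 21 / 20 < ‖v‖ ∧ ‖v‖ < 6 / 5})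
      (bl W β r e (Z p.2) (ℓ p.2)) (bl W β r e' (Z p.2) (ℓ p.2))) :
    NP (10 ^ 5 * (C ^ 2 * ε)) (10 ^ 16 * (C ^ 4 * L) ^ 3) ({p.1} ×ˢ ball (0 : D → ℝ) (6 / 5))
      (Φ (Z p.2) (ℓ p.2)) (Φ' (Z p.2) (ℓ p.2)) ∧
    ∀ v : D → ℝ, 219 / 200 ≤ ‖v‖ → ‖v‖ < 6 / 5 →
      Φ (Z p.2) (ℓ p.2) (p.1, v) = bl W β r e (Z p.2) (ℓ p.2) (p.1, v) := by
  have hC4 : 1 ≤ C ^ 4 := one_le_pow₀ h.C1
  have h1 : 1 ≤ C ^ 4 * L := by nlinarith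
  have h2 : 0 ≤ C ^ 2 * ε := by positivity
  exact ⟨(hΦ _ _).np p.1 _ _ h1 h2 hε1 hnp, fun v a b => ((hΦ _ _).eq p.1 _ _ h1 h2 hε1 hnp v a b).1⟩

theorem T3_mem (Z ℓ : (D → ℝ) → D → ℝ) (p : X × (D → ℝ)) (hg : gau Z ℓ p.2 < 6 / 5) :
    bo (Z p.2) (ℓ p.2) p ∈ ({p.1} ×ˢ ball (0 : D → ℝ) (6 / 5) : Set (X × (D → ℝ))) := by
  refine ⟨rfl, ?_⟩
  rw [mem_ball_zero_iff]
  exact hg

theorem T3_disp {W W' : X × (D → ℝ) → D → ℝ} {β : X × (D → ℝ) → X × (D → ℝ)} {Z ℓ : (D → ℝ) → D → ℝ}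
    {need : (D → ℝ) → Prop} {r C : ℝ} (h : PImm W W' β Z ℓ need r C) {ε L : ℝ} {U : Set (X × (D → ℝ))}
    {e e' : X × (D → ℝ) → X × (D → ℝ)} (hN : NI W' ε L U e e') (hε0 : 0 ≤ ε) (hε : C * ε ≤ r / 32)
    (hε1 : C ^ 2 * ε ≤ 1 / 3400) (hL : 1 ≤ L) (Φ Φ' : (D → ℝ) → (D → ℝ) → X × (D → ℝ) → X × (D → ℝ))
    (hΦ : ∀ z l, Fills (bl W β r e z l) (bl W β r e' z l) (Φ z l) (Φ' z l))
    (p : X × (D → ℝ)) (hp : ∀ q : X × (D → ℝ), ‖sc (W p) (q - p)‖ ≤ 3 * C → β q ∈ U) :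
    ‖sc (W p) (tr Z ℓ need (lift W β r e) Φ p - p)‖ ≤ 10 ^ 5 * C ^ 3 * ε := by
  have hC : 0 < C := lt_of_lt_of_le one_pos h.C1
  unfold tr
  split_ifs with hc
  · obtain ⟨hn, hg⟩ := hc
    have hg' : gau Z ℓ p.2 < 6 / 5 := hg.trans (by norm_num)
    have hs := (T3_star h hN hε hL p hp hn hg').2
    have h1 := (T3_np h hε0 hε1 hL Φ Φ' hΦ p hs).1.disp _ (T3_mem Z ℓ p hg')
    have e1 : bi (Z p.2) (ℓ p.2) (bo (Z p.2) (ℓ p.2) p) = p := T0b_bibo _ _ (h.lpos p.2) p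
    have h2 := T0b_bi_lip (Z p.2) (ℓ p.2) (W p) (h.lpos p.2) (fun j => (h.pos p j).le) C h.C1
      (fun i => (h.size p i).2) (Φ (Z p.2) (ℓ p.2) (bo (Z p.2) (ℓ p.2) p)) (bo (Z p.2) (ℓ p.2) p)
    rw [e1] at h2
    refine h2.trans ?_
    calc C * ‖Φ (Z p.2) (ℓ p.2) (bo (Z p.2) (ℓ p.2) p) - bo (Z p.2) (ℓ p.2) p‖
        ≤ C * (10 ^ 5 * (C ^ 2 * ε)) := mul_le_mul_of_nonneg_left h1 hC.le
      _ = 10 ^ 5 * C ^ 3 * ε := by ring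
  · have hgood : need p.2 → 1 ≤ gau Z ℓ p.2 := by
      intro hn
      by_contra hcon
      exact hc ⟨hn, (not_le.1 hcon).trans (by norm_num)⟩
    have hU : β p ∈ U := hp p (by rw [T0b_self]; positivity)
    refine (T1_exists h hN hε p hgood hU).2.trans ?_
    have h1 : 1 ≤ C ^ 2 := one_le_pow₀ h.C1
    have h2 : 0 ≤ C * ε := by positivity
    calc C * ε = 1 * (C * ε) := by ring
      _ ≤ (10 ^ 5 * C ^ 2) * (C * ε) := mul_le_mul_of_nonneg_right (by nlinarith) h2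
      _ = 10 ^ 5 * C ^ 3 * ε := by ring

theorem T3_box_lip {W W' : X × (D → ℝ) → D → ℝ} {β : X × (D → ℝ) → X × (D → ℝ)} {Z ℓ : (D → ℝ) → D → ℝ}
    {need : (D → ℝ) → Prop} {r C : ℝ} (h : PImm W W' β Z ℓ need r C) {ε L : ℝ} {U : Set (X × (D → ℝ))}
    {e e' : X × (D → ℝ) → X × (D → ℝ)} (hN : NI W' ε L U e e') (hε0 : 0 ≤ ε) (hε : C * ε ≤ r / 32)
    (hε1 : C ^ 2 * ε ≤ 1 / 3400) (hL : 1 ≤ L) (Φ Φ' : (D → ℝ) → (D → ℝ) → X × (D → ℝ) → X × (D → ℝ))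
    (hΦ : ∀ z l, Fills (bl W β r e z l) (bl W β r e' z l) (Φ z l) (Φ' z l))
    (p : X × (D → ℝ)) (hp : ∀ q : X × (D → ℝ), ‖sc (W p) (q - p)‖ ≤ 3 * C → β q ∈ U) (hn : need p.2)
    (hg : gau Z ℓ p.2 < 6 / 5) :
    ∀ᶠ q in 𝓝 p, ‖sc (W p) (bi (Z p.2) (ℓ p.2) (Φ (Z p.2) (ℓ p.2) (bo (Z p.2) (ℓ p.2) q)) -
      bi (Z p.2) (ℓ p.2) (Φ (Z p.2) (ℓ p.2) (bo (Z p.2) (ℓ p.2) p)))‖ ≤
      10 ^ 16 * C ^ 14 * L ^ 3 * ‖sc (W p) (q - p)‖ := by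
  have hC : 0 < C := lt_of_lt_of_le one_pos h.C1
  have hs := (T3_star h hN hε hL p hp hn hg).2
  have h1 := (T3_np h hε0 hε1 hL Φ Φ' hΦ p hs).1.lip _ (T3_mem Z ℓ p hg)
  have h2 := (T0b_bo_cont (X := X) (Z p.2) (ℓ p.2)).continuousAt (x := p) |>.eventually h1
  filter_upwards [h2] with q hq
  have h3 := T0b_bi_lip (Z p.2) (ℓ p.2) (W p) (h.lpos p.2) (fun j => (h.pos p j).le) C h.C1
      (fun i => (h.size p i).2) (Φ (Z p.2) (ℓ p.2) (bo (Z p.2) (ℓ p.2) q))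
      (Φ (Z p.2) (ℓ p.2) (bo (Z p.2) (ℓ p.2) p))
  have h4 := T0b_bo_lip (Z p.2) (ℓ p.2) (W p) (h.lpos p.2) C h.C1 (fun i => (h.size p i).1) q p
  have hL0 : 0 ≤ L := by linarith
  calc _ ≤ C * ‖Φ (Z p.2) (ℓ p.2) (bo (Z p.2) (ℓ p.2) q) -
        Φ (Z p.2) (ℓ p.2) (bo (Z p.2) (ℓ p.2) p)‖ := h3
    _ ≤ C * (10 ^ 16 * (C ^ 4 * L) ^ 3 * ‖bo (Z p.2) (ℓ p.2) q - bo (Z p.2) (ℓ p.2) p‖) :=
        mul_le_mul_of_nonneg_left hq hC.le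
    _ ≤ C * (10 ^ 16 * (C ^ 4 * L) ^ 3 * (C * ‖sc (W p) (q - p)‖)) :=
        mul_le_mul_of_nonneg_left (mul_le_mul_of_nonneg_left h4 (by positivity)) hC.le
    _ = 10 ^ 16 * C ^ 14 * L ^ 3 * ‖sc (W p) (q - p)‖ := by ring

theorem T3_lip {W W' : X × (D → ℝ) → D → ℝ} {β : X × (D → ℝ) → X × (D → ℝ)} {Z ℓ : (D → ℝ) → D → ℝ}
    {need : (D → ℝ) → Prop} {r C : ℝ} (h : PImm W W' β Z ℓ need r C) {ε L : ℝ} {U : Set (X × (D → ℝ))}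
    {e e' : X × (D → ℝ) → X × (D → ℝ)} (hN : NI W' ε L U e e') (hε0 : 0 ≤ ε) (hε : C * ε ≤ r / 32)
    (hε1 : C ^ 2 * ε ≤ 1 / 3400) (hL : 1 ≤ L) (Φ Φ' : (D → ℝ) → (D → ℝ) → X × (D → ℝ) → X × (D → ℝ))
    (hΦ : ∀ z l, Fills (bl W β r e z l) (bl W β r e' z l) (Φ z l) (Φ' z l))
    (p : X × (D → ℝ)) (hp : ∀ q : X × (D → ℝ), ‖sc (W p) (q - p)‖ ≤ 3 * C → β q ∈ U) :
    ∀ᶠ q in 𝓝 p, ‖sc (W p) (tr Z ℓ need (lift W β r e) Φ q - tr Z ℓ need (lift W β r e) Φ p)‖ ≤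
      10 ^ 16 * C ^ 14 * L ^ 3 * ‖sc (W p) (q - p)‖ := by
  have hC : 0 < C := lt_of_lt_of_le one_pos h.C1
  have hL0 : 0 ≤ L := by linarith
  have hU : β p ∈ U := hp p (by rw [T0b_self]; positivity)
  have hK : C ^ 2 * L ≤ 10 ^ 16 * C ^ 14 * L ^ 3 := by
    have h1 : 1 ≤ C ^ 12 := one_le_pow₀ h.C1
    have h2 : 1 ≤ L ^ 2 := one_le_pow₀ hL
    have h3 : 0 ≤ C ^ 2 * L := by positivity
    have h4 : 1 ≤ C ^ 12 * L ^ 2 := by nlinarith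
    calc C ^ 2 * L = 1 * (C ^ 2 * L) := by ring
      _ ≤ (10 ^ 16 * (C ^ 12 * L ^ 2)) * (C ^ 2 * L) :=
          mul_le_mul_of_nonneg_right (by linarith) h3
      _ = 10 ^ 16 * C ^ 14 * L ^ 3 := by ring
  -- the bound for lifts
  have hlift : (need p.2 → 1 ≤ gau Z ℓ p.2) → ∀ᶠ q in 𝓝 p,
      ‖sc (W p) (lift W β r e q - lift W β r e p)‖ ≤
        10 ^ 16 * C ^ 14 * L ^ 3 * ‖sc (W p) (q - p)‖ := by
    intro hgood
    filter_upwards [T1_lip h hN hε hL0 p hgood hU] with q hq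
    exact hq.trans (mul_le_mul_of_nonneg_right hK (norm_nonneg _))
  by_cases hcase : need p.2 ∧ gau Z ℓ p.2 < 6 / 5
  · obtain ⟨hn, hg⟩ := hcase
    have hnear := T0b_near Z ℓ need h.lpos h.box p hn hg
    have hbox := T3_box_lip h hN hε0 hε hε1 hL Φ Φ' hΦ p hp hn hg
    by_cases hg1 : gau Z ℓ p.2 < 11 / 10
    · -- inside the box
      have hcont : ∀ᶠ q in 𝓝 p, ‖(bo (Z p.2) (ℓ p.2) q).2‖ < 11 / 10 := by
        have hc : ContinuousAt (fun q : X × (D → ℝ) => ‖(bo (Z p.2) (ℓ p.2) q).2‖) p :=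
          (continuous_norm.comp (continuous_snd.comp (T0b_bo_cont (Z p.2) (ℓ p.2)))).continuousAt
        exact hc.eventually_lt_const hg1
      filter_upwards [hnear, hbox, hcont] with q hq hq2 hq3
      obtain ⟨a, b, c, _⟩ := hq
      have hg2 : gau Z ℓ q.2 < 11 / 10 := by rw [T3_gau Z ℓ q _ _ a b]; exact hq3
      unfold tr
      rw [if_pos ⟨c, hg2⟩, if_pos ⟨hn, hg1⟩, a, b]
      exact hq2
    · have hgood : need p.2 → 1 ≤ gau Z ℓ p.2 := fun _ => by linarith [not_lt.1 hg1]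
      have hTp : tr Z ℓ need (lift W β r e) Φ p = lift W β r e p := by
        unfold tr; rw [if_neg fun hh => hg1 hh.2]
      have hs := (T3_star h hN hε hL p hp hn hg).2
      have heq : bi (Z p.2) (ℓ p.2) (Φ (Z p.2) (ℓ p.2) (bo (Z p.2) (ℓ p.2) p)) =
          lift W β r e p := by
        have h1 := (T3_np h hε0 hε1 hL Φ Φ' hΦ p hs).2 (bo (Z p.2) (ℓ p.2) p).2
          (le_trans (by norm_num) (not_lt.1 hg1)) hg
        have h2 : ((p.1, (bo (Z p.2) (ℓ p.2) p).2) : X × (D → ℝ)) = bo (Z p.2) (ℓ p.2) p := rfl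
        rw [h2] at h1
        rw [h1, bl, T0b_bibo _ _ (h.lpos p.2), T0b_bibo _ _ (h.lpos p.2)]
      filter_upwards [hnear, hbox, hlift hgood] with q hq hq2 hq3
      obtain ⟨a, b, c, _⟩ := hq
      rw [hTp]
      by_cases hg2 : need q.2 ∧ gau Z ℓ q.2 < 11 / 10
      · have hTq : tr Z ℓ need (lift W β r e) Φ q =
            bi (Z p.2) (ℓ p.2) (Φ (Z p.2) (ℓ p.2) (bo (Z p.2) (ℓ p.2) q)) := by
          unfold tr; rw [if_pos hg2, a, b]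
        rw [hTq, ← heq]; exact hq2
      · have hTq : tr Z ℓ need (lift W β r e) Φ q = lift W β r e q := by
          unfold tr; rw [if_neg hg2]
        rw [hTq]; exact hq3
  · have hgood : need p.2 → 1 ≤ gau Z ℓ p.2 := by
      intro hn
      by_contra hcon
      exact hcase ⟨hn, (not_le.1 hcon).trans (by norm_num)⟩
    have hTp : tr Z ℓ need (lift W β r e) Φ p = lift W β r e p := by
      unfold tr
      rw [if_neg fun hh => hcase ⟨hh.1, hh.2.trans (by norm_num)⟩]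
    have hpos : 0 < 1 / (20 * C) := by positivity
    filter_upwards [hlift hgood, T0b_nhds (W p) p (1 / (20 * C)) hpos,
      T0b_nhds (W p) p 1 one_pos] with q hq hq1 hq2
    have hTq : tr Z ℓ need (lift W β r e) Φ q = lift W β r e q := by
      unfold tr
      rw [if_neg]
      rintro ⟨hn, hg⟩
      have h1 : ‖sc (W q) (p - q)‖ ≤ 2 * ‖sc (W p) (p - q)‖ :=
        T0b_mono (W q) (W p) 2 (by norm_num) (fun i => (h.pos q i).le) (h.slow p q hq2.le) _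
      have h2 : ‖sc (W q) (p - q)‖ < 1 / (10 * C) := by
        rw [T0b_symm (W p) p q] at h1
        have h3 : 2 * (1 / (20 * C)) = 1 / (10 * C) := by field_simp; norm_num
        linarith
      obtain ⟨_, _, h5, h6⟩ := T3_nbhd h p q hn hg h2
      exact hcase ⟨h5, h6⟩
    rw [hTp, hTq]; exact hq

end H80.LD
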