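import Pool.Agent.H80.LD.T3

/-!
# T4: the transferred maps are inverse to each other

Notation of T3; `T p = tr Z ℓ need (lift W β r e) Φ p`, `T' = tr Z ℓ need (lift W β r e') Φ'`.  `N v = ‖sc (W p) v‖`.  Assume the `3C`-ball conditions at `p` and at `T p`.
`N (T p - p) ≤ 10^5 C^3 ε ≤ 1/(200 C)`  (T3_disp; hypothesis `10^8 C^4 ε ≤ 1`).
Case 1: `need p.2`, `gau p.2 < 11/10`, `z, l, p'` as in T3.  `T p = bi (Φ p')`, `bo (T p) = Φ p' =: (c, v₁)`, `‖Φ p' - p'‖ ≤ 10^5 C^2 ε ≤ 1/1000`, `‖v₁‖ < 11/10 + 1/1000 < 6/5`.  By `box`, `T p` has the same box data and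
  `gau (T p).2 = ‖v₁‖`.  (1a) `‖v₁‖ < 11/10`: `T' (T p) = bi (Φ' (Φ p')) = bi p' = p` by `inv` of the NP pair `Φ, Φ'` on `{c} ×ˢ ball 0 (6/5)`.
  (1b) `‖v₁‖ ≥ 11/10 ≥ 219/200`: `T' (T p) = lift e' (T p) = bi (bl e' z l (c, v₁)) = bi (Φ' (c, v₁)) = bi (Φ' (Φ p')) = p`.
Case 2: not case 1: `T p = lift e p =: s`, `p` is good.  (2a) `need s.2` and `gau s.2 < 11/10`: `‖sc (W s) (p - s)‖ ≤ 2 N (p-s) < 1/(10 C)`, so by `T3_nbhd` `p` has the same box data `z, l`, `need p.2`, `gau p.2 < 6/5`; since not case 1,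
  `gau p.2 ≥ 11/10`; `p' = bo z l p`, `Φ p' = bl e z l p' = bo (lift e p) = bo s`, and `T' s = bi (Φ' (bo s)) = bi (Φ' (Φ p')) = bi p' = p` (`inv`; `bo s` is in the ball as `gau s.2 < 11/10`).
  (2b) otherwise `T' s = lift e' s = p` by `T1_inv` (`e (β p) = β s ∈ U` by the hypothesis at `T p = s`).
-/

open Filter Topology Metric Set

namespace H80.LD

variable {X : Type*} [NormedAddCommGroup X] {D : Type*} [Fintype D]

theorem T4_gau {Z ℓ : (D → ℝ) → D → ℝ} (p : X × (D → ℝ)) (z l : D → ℝ) (hz : Z p.2 = z) (hl : ℓ p.2 = l) :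
    gau Z ℓ p.2 = ‖(bo z l p).2‖ := by
  subst hz hl
  rfl

theorem T4_snd {X V : Type*} [NormedAddCommGroup X] [NormedAddCommGroup V] (a b : X × V) : ‖(a - b).2‖ ≤ ‖a - b‖ := by
  rw [Prod.norm_def]
  exact le_max_right _ _

theorem T4_pow {C ε : ℝ} (hC : 1 ≤ C) (hε0 : 0 ≤ ε) (hε1 : 10 ^ 8 * C ^ 4 * ε ≤ 1) : 10 ^ 8 * (C ^ 2 * ε) ≤ 1 := by
  have h1 : C ^ 2 ≤ C ^ 4 := pow_le_pow_right₀ hC (by norm_num)
  have h2 : C ^ 2 * ε ≤ C ^ 4 * ε := mul_le_mul_of_nonneg_right h1 hε0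
  nlinarith

/-- the pair of fillings on the ball -/
theorem T4_np {W W' : X × (D → ℝ) → D → ℝ} {β : X × (D → ℝ) → X × (D → ℝ)} {Z ℓ : (D → ℝ) → D → ℝ}
    {need : (D → ℝ) → Prop} {r C : ℝ} (h : PImm W W' β Z ℓ need r C) {ε L : ℝ} {U : Set (X × (D → ℝ))}
    {e e' : X × (D → ℝ) → X × (D → ℝ)} (hN : NI W' ε L U e e') (hε0 : 0 ≤ ε) (hε : C * ε ≤ r / 32)
    (hε1 : 10 ^ 8 * C ^ 4 * ε ≤ 1) (hL : 1 ≤ L) (Φ Φ' : (D → ℝ) → (D → ℝ) → X × (D → ℝ) → X × (D → ℝ))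
    (hΦ : ∀ z l, Fills (bl W β r e z l) (bl W β r e' z l) (Φ z l) (Φ' z l))
    (p : X × (D → ℝ)) (hp : ∀ q : X × (D → ℝ), ‖sc (W p) (q - p)‖ ≤ 3 * C → β q ∈ U) (hn : need p.2)
    (hg : gau Z ℓ p.2 < 6 / 5) :
    NP (10 ^ 5 * (C ^ 2 * ε)) (10 ^ 16 * (C ^ 4 * L) ^ 3) ({p.1} ×ˢ ball (0 : D → ℝ) (6 / 5))
      (Φ (Z p.2) (ℓ p.2)) (Φ' (Z p.2) (ℓ p.2)) ∧
    ∀ v : D → ℝ, 219 / 200 ≤ ‖v‖ → ‖v‖ < 6 / 5 →
      Φ (Z p.2) (ℓ p.2) (p.1, v) = bl W β r e (Z p.2) (ℓ p.2) (p.1, v) ∧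
      Φ' (Z p.2) (ℓ p.2) (p.1, v) = bl W β r e' (Z p.2) (ℓ p.2) (p.1, v) := by
  have hC := h.C1
  have h0 := T4_pow hC hε0 hε1
  have hstar := (T3_star h hN hε hL p hp hn hg).2
  have hCL : 1 ≤ C ^ 4 * L := by
    have : 1 ≤ C ^ 4 := one_le_pow₀ hC
    nlinarith
  have h1 : 0 ≤ C ^ 2 * ε := by positivity
  have h2 : C ^ 2 * ε ≤ 1 / 3400 := by linarith
  exact ⟨(hΦ _ _).np p.1 _ _ hCL h1 h2 hstar, (hΦ _ _).eq p.1 _ _ hCL h1 h2 hstar⟩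

theorem T4_inv {W W' : X × (D → ℝ) → D → ℝ} {β : X × (D → ℝ) → X × (D → ℝ)} {Z ℓ : (D → ℝ) → D → ℝ}
    {need : (D → ℝ) → Prop} {r C : ℝ} (h : PImm W W' β Z ℓ need r C) {ε L : ℝ} {U : Set (X × (D → ℝ))}
    {e e' : X × (D → ℝ) → X × (D → ℝ)} (hN : NI W' ε L U e e') (hε0 : 0 ≤ ε) (hε : C * ε ≤ r / 32)
    (hε1 : 10 ^ 8 * C ^ 4 * ε ≤ 1) (hL : 1 ≤ L) (Φ Φ' : (D → ℝ) → (D → ℝ) → X × (D → ℝ) → X × (D → ℝ))
    (hΦ : ∀ z l, Fills (bl W β r e z l) (bl W β r e' z l) (Φ z l) (Φ' z l))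
    (p : X × (D → ℝ)) (hp : ∀ q : X × (D → ℝ), ‖sc (W p) (q - p)‖ ≤ 3 * C → β q ∈ U)
    (hp' : ∀ q : X × (D → ℝ), ‖sc (W (tr Z ℓ need (lift W β r e) Φ p)) (q - tr Z ℓ need (lift W β r e) Φ p)‖ ≤ 3 * C →
      β q ∈ U) :
    tr Z ℓ need (lift W β r e') Φ' (tr Z ℓ need (lift W β r e) Φ p) = p := by
  have hC := h.C1
  have h0 := T4_pow hC hε0 hε1
  by_cases hc1 : need p.2 ∧ gau Z ℓ p.2 < 11 / 10
  · -- case 1
    obtain ⟨hn, hg⟩ := hc1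
    have hg' : gau Z ℓ p.2 < 6 / 5 := hg.trans (by norm_num)
    obtain ⟨hnp, heq⟩ := T4_np h hN hε0 hε hε1 hL Φ Φ' hΦ p hp hn hg'
    have hTp : tr Z ℓ need (lift W β r e) Φ p
        = bi (Z p.2) (ℓ p.2) (Φ (Z p.2) (ℓ p.2) (bo (Z p.2) (ℓ p.2) p)) := by
      unfold tr
      rw [if_pos ⟨hn, hg⟩]
    rw [hTp]
    have hlp : ∀ i, 0 < ℓ p.2 i := h.lpos p.2
    have hgp : gau Z ℓ p.2 = ‖(bo (Z p.2) (ℓ p.2) p).2‖ := T4_gau p _ _ rfl rfl
    obtain ⟨z, hz⟩ : ∃ z, z = Z p.2 := ⟨_, rfl⟩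
    obtain ⟨l, hl⟩ : ∃ l, l = ℓ p.2 := ⟨_, rfl⟩
    simp only [← hz, ← hl] at hnp heq hlp hgp ⊢
    have hp'1 : (bo z l p).1 = p.1 := rfl
    have hmem : bo z l p ∈ ({p.1} ×ˢ ball (0 : D → ℝ) (6 / 5) : Set (X × (D → ℝ))) := by
      refine ⟨rfl, ?_⟩
      rw [mem_ball_zero_iff, ← hgp]
      exact hg'
    have hdisp := hnp.disp _ hmem
    have hv1 : ‖(Φ z l (bo z l p)).2‖ < 6 / 5 := by
      have a1 := T4_snd (Φ z l (bo z l p)) (bo z l p)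
      have a2 : ‖(Φ z l (bo z l p)).2‖ ≤ ‖(Φ z l (bo z l p) - bo z l p).2‖ + ‖(bo z l p).2‖ := by
        have : (Φ z l (bo z l p)).2 = (Φ z l (bo z l p) - bo z l p).2 + (bo z l p).2 := by
          rw [Prod.snd_sub]; abel
        calc ‖(Φ z l (bo z l p)).2‖ = ‖(Φ z l (bo z l p) - bo z l p).2 + (bo z l p).2‖ := by rw [← this]
          _ ≤ _ := norm_add_le _ _
      rw [← hgp] at a2
      linarith
    have hv2 : (Φ z l (bo z l p)).1 = p.1 := (hΦ z l).pres _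
    have hmem2 : Φ z l (bo z l p) ∈ ({p.1} ×ˢ ball (0 : D → ℝ) (6 / 5) : Set (X × (D → ℝ))) := by
      refine ⟨hv2, ?_⟩
      rw [mem_ball_zero_iff]
      exact hv1
    have hinv : Φ' z l (Φ z l (bo z l p)) = bo z l p := hnp.inv _ hmem hmem2
    obtain ⟨s, hs⟩ : ∃ s, s = bi z l (Φ z l (bo z l p)) := ⟨_, rfl⟩
    have hbos : bo z l s = Φ z l (bo z l p) := by rw [hs]; exact T0b_bobi z l hlp _
    rw [← hs]
    have hbox : ∀ i, |s.2 i - z i| < 6 / 5 * l i := by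
      rw [← T0b_box_iff z l hlp (6 / 5) (by norm_num) s, hbos]
      exact hv1
    have hb := h.box p.2 s.2 hn (by rw [← hz, ← hl]; exact hbox)
    rw [← hz, ← hl] at hb
    obtain ⟨hZs, hls, hns⟩ := hb
    have hgs : gau Z ℓ s.2 = ‖(Φ z l (bo z l p)).2‖ := by
      rw [T4_gau s z l hZs hls, hbos]
    by_cases hsm : ‖(Φ z l (bo z l p)).2‖ < 11 / 10
    · have : tr Z ℓ need (lift W β r e') Φ' s = bi z l (Φ' z l (bo z l s)) := by
        unfold tr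
        rw [if_pos ⟨hns, by rw [hgs]; exact hsm⟩, hZs, hls]
      rw [this, hbos, hinv]
      exact T0b_bibo z l hlp p
    · have : tr Z ℓ need (lift W β r e') Φ' s = lift W β r e' s := by
        unfold tr
        rw [if_neg]
        rintro ⟨_, h2⟩
        rw [hgs] at h2
        exact hsm h2
      rw [this]
      push Not at hsm
      have h3 := (heq (Φ z l (bo z l p)).2 (by linarith) hv1).2
      have h4 : (p.1, (Φ z l (bo z l p)).2) = Φ z l (bo z l p) := by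
        rw [← hv2]
      rw [h4, hinv] at h3
      unfold bl at h3
      rw [← hs] at h3
      calc lift W β r e' s = bi z l (bo z l (lift W β r e' s)) := (T0b_bibo z l hlp _).symm
        _ = bi z l (bo z l p) := by rw [← h3]
        _ = p := T0b_bibo z l hlp p
  · -- case 2
    have hTp : tr Z ℓ need (lift W β r e) Φ p = lift W β r e p := by
      unfold tr
      rw [if_neg hc1]
    rw [hTp] at hp' ⊢
    have hgood : need p.2 → 1 ≤ gau Z ℓ p.2 := by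
      intro hn
      by_contra hlt
      push Not at hlt
      exact hc1 ⟨hn, by linarith⟩
    have hU : β p ∈ U := hp p (by rw [T0b_self]; positivity)
    obtain ⟨hβs, hsp⟩ := T1_exists h hN hε p hgood hU
    have hUs : β (lift W β r e p) ∈ U := hp' _ (by rw [T0b_self]; positivity)
    obtain ⟨s, hs⟩ : ∃ s, s = lift W β r e p := ⟨_, rfl⟩
    rw [← hs] at hβs hsp hUs ⊢
    by_cases hc2 : need s.2 ∧ gau Z ℓ s.2 < 11 / 10
    · obtain ⟨hns, hgs⟩ := hc2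
      have hr1 := h.r1
      have hslow := h.slow p s (by linarith)
      have h2 : ‖sc (W s) (p - s)‖ ≤ 2 * ‖sc (W p) (p - s)‖ :=
        T0b_mono (W s) (W p) 2 (by norm_num) (fun i => (h.pos s i).le) hslow _
      rw [T0b_symm (W p)] at h2
      have h3 : ‖sc (W s) (p - s)‖ < 1 / (10 * C) := by
        have hC0 : 0 < 10 * C := by positivity
        rw [lt_div_iff₀ hC0]
        have : ‖sc (W s) (p - s)‖ ≤ 2 * (C * ε) := by linarith
        have h4 : ‖sc (W s) (p - s)‖ * (10 * C) ≤ 2 * (C * ε) * (10 * C) :=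
          mul_le_mul_of_nonneg_right this hC0.le
        have h5 : 2 * (C * ε) * (10 * C) = 20 * (C ^ 2 * ε) := by ring
        rw [h5] at h4
        linarith
      obtain ⟨hZ, hℓ, hn, hg⟩ := T3_nbhd h p s hns hgs h3
      have hg2 : 11 / 10 ≤ gau Z ℓ p.2 := by
        by_contra hlt
        push Not at hlt
        exact hc1 ⟨hn, hlt⟩
      obtain ⟨hnp, heq⟩ := T4_np h hN hε0 hε hε1 hL Φ Φ' hΦ p hp hn hg
      have hlp : ∀ i, 0 < ℓ p.2 i := h.lpos p.2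
      have hgp : gau Z ℓ p.2 = ‖(bo (Z p.2) (ℓ p.2) p).2‖ := T4_gau p _ _ rfl rfl
      have hgs' : gau Z ℓ s.2 = ‖(bo (Z p.2) (ℓ p.2) s).2‖ := T4_gau s _ _ hZ.symm hℓ.symm
      have htr : tr Z ℓ need (lift W β r e') Φ' s
          = bi (Z p.2) (ℓ p.2) (Φ' (Z p.2) (ℓ p.2) (bo (Z p.2) (ℓ p.2) s)) := by
        unfold tr
        rw [if_pos ⟨hns, hgs⟩, hZ, hℓ]
      rw [htr]
      obtain ⟨z, hz⟩ : ∃ z, z = Z p.2 := ⟨_, rfl⟩
      obtain ⟨l, hl⟩ : ∃ l, l = ℓ p.2 := ⟨_, rfl⟩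
      simp only [← hz, ← hl] at hnp heq hlp hgp hgs' ⊢
      have hmem : bo z l p ∈ ({p.1} ×ˢ ball (0 : D → ℝ) (6 / 5) : Set (X × (D → ℝ))) := by
        refine ⟨rfl, ?_⟩
        rw [mem_ball_zero_iff, ← hgp]
        exact hg
      have hΦp : Φ z l (bo z l p) = bo z l s := by
        have h6 := (heq (bo z l p).2 (by rw [← hgp]; linarith) (by rw [← hgp]; exact hg)).1
        have h7 : (p.1, (bo z l p).2) = bo z l p := rfl
        rw [h7] at h6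
        unfold bl at h6
        rw [T0b_bibo z l hlp p, ← hs] at h6
        exact h6
      have hs1 : s.1 = p.1 := by
        rw [hs]
        exact T1_pres W β r e h.pres hN.pres p
      have hmem2 : Φ z l (bo z l p) ∈ ({p.1} ×ˢ ball (0 : D → ℝ) (6 / 5) : Set (X × (D → ℝ))) := by
        rw [hΦp]
        refine ⟨hs1, ?_⟩
        rw [mem_ball_zero_iff, ← hgs']
        linarith
      have hinv : Φ' z l (Φ z l (bo z l p)) = bo z l p := hnp.inv _ hmem hmem2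
      rw [← hΦp, hinv]
      exact T0b_bibo z l hlp p
    · have : tr Z ℓ need (lift W β r e') Φ' s = lift W β r e' s := by
        unfold tr
        rw [if_neg hc2]
      rw [this, hs]
      exact T1_inv h hN hε p hgood hU (by rw [← hβs]; exact hUs)

end H80.LD
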