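import Pool.Agent.H80.LD.T4

/-!
# T5: the transfer theorem

Choose `Φ, Φ'` by `T0_fills` (`choose`; `bl` preserves the first component by `T1_pres`, `bo`, `bi`), `E = tr Z ℓ need (lift W β r e) Φ`, `E' = tr Z ℓ need (lift W β r e') Φ'`, `R = 3 C`,
`ε₀ = min (r / (32 C)) (1 / (10^8 C^4))`, `C' = 10^16 C^14 L^3` (`10^5 C^3 ≤ C'`).  T3 and T4 (for the primed map use `NI.symm`, `Fills.symm`) give the NI property.
* pres: `tr` preserves the first component: `bi`, `Φ`, `bo`, `lift` do.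
* identity property: `p` in the box (`need`, `gau < 11/10`): `bl e z l (c, v) = (c, v)` for `21/20 < ‖v‖ < 6/5` (and same for `e'`) by `T1_id` at `q = bi z l (c, v)`, which is a good point (`box`, `gau = ‖v‖`) and in the `3C`-ball
  (`T3_star`); `idp` gives `Φ (bo p) = bo p`.  Not in the box: `T1_id`.
* last property: `not need p.2`: `E p = lift e p = e p` by `T1_eq`.
-/

open Filter Topology Metric Set

namespace H80.LD

variable {X : Type*} [NormedAddCommGroup X] {D : Type*} [Fintype D]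

theorem T5_bl_pres (W : X × (D → ℝ) → D → ℝ) (β : X × (D → ℝ) → X × (D → ℝ)) (r : ℝ)
    (e : X × (D → ℝ) → X × (D → ℝ)) (hβ : ∀ p, (β p).1 = p.1) (he : ∀ p, (e p).1 = p.1) (z l : D → ℝ)
    (p : X × (D → ℝ)) : (bl W β r e z l p).1 = p.1 := by
  have h1 : (bl W β r e z l p).1 = (lift W β r e (bi z l p)).1 := rfl
  have h2 : (bi z l p).1 = p.1 := rfl
  rw [h1, T1_pres W β r e hβ he, h2]

theorem T5_tr_pres (W : X × (D → ℝ) → D → ℝ) (β : X × (D → ℝ) → X × (D → ℝ)) (Z ℓ : (D → ℝ) → D → ℝ)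
    (need : (D → ℝ) → Prop) (r : ℝ)
    (e : X × (D → ℝ) → X × (D → ℝ)) (hβ : ∀ p, (β p).1 = p.1) (he : ∀ p, (e p).1 = p.1)
    (Φ : (D → ℝ) → (D → ℝ) → X × (D → ℝ) → X × (D → ℝ)) (hΦ : ∀ z l p, (Φ z l p).1 = p.1)
    (p : X × (D → ℝ)) : (tr Z ℓ need (lift W β r e) Φ p).1 = p.1 := by
  unfold tr
  split_ifs with hc
  · have h1 : (bi (Z p.2) (ℓ p.2) (Φ (Z p.2) (ℓ p.2) (bo (Z p.2) (ℓ p.2) p))).1 =
        (Φ (Z p.2) (ℓ p.2) (bo (Z p.2) (ℓ p.2) p)).1 := rfl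
    have h2 : (bo (Z p.2) (ℓ p.2) p).1 = p.1 := rfl
    rw [h1, hΦ, h2]
  · exact T1_pres W β r e hβ he p

theorem T5_bl_id {W W' : X × (D → ℝ) → D → ℝ} {β : X × (D → ℝ) → X × (D → ℝ)} {Z ℓ : (D → ℝ) → D → ℝ}
    {need : (D → ℝ) → Prop} {r C : ℝ} (h : PImm W W' β Z ℓ need r C)
    (e : X × (D → ℝ) → X × (D → ℝ)) (y : D → ℝ) (hn : need y) (c : X) (v : D → ℝ) (h1 : 21 / 20 < ‖v‖)
    (h2 : ‖v‖ < 6 / 5) (he : e (β (bi (Z y) (ℓ y) (c, v))) = β (bi (Z y) (ℓ y) (c, v))) :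
    bl W β r e (Z y) (ℓ y) (c, v) = (c, v) := by
  have hb := T0b_bobi (Z y) (ℓ y) (h.lpos y) (c, v)
  have hbox : ∀ i, |(bi (Z y) (ℓ y) (c, v)).2 i - Z y i| < 6 / 5 * ℓ y i := by
    apply (T0b_box_iff (Z y) (ℓ y) (h.lpos y) (6 / 5) (by norm_num) _).1
    rw [hb]
    exact h2
  obtain ⟨hZ, hl, hnq⟩ := h.box y (bi (Z y) (ℓ y) (c, v)).2 hn hbox
  have hgau : gau Z ℓ (bi (Z y) (ℓ y) (c, v)).2 = ‖v‖ := by
    have h3 : gau Z ℓ (bi (Z y) (ℓ y) (c, v)).2 = ‖(bo (Z y) (ℓ y) (bi (Z y) (ℓ y) (c, v))).2‖ := by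
      unfold gau bo
      rw [hZ, hl]
    rw [h3, hb]
  unfold bl
  rw [T1_id h (bi (Z y) (ℓ y) (c, v)) (fun _ => by rw [hgau]; linarith) he, hb]

theorem T5_transfer {W W' : X × (D → ℝ) → D → ℝ} {β : X × (D → ℝ) → X × (D → ℝ)} {Z ℓ : (D → ℝ) → D → ℝ}
    {need : (D → ℝ) → Prop} {r C : ℝ} (h : PImm W W' β Z ℓ need r C) (L : ℝ) (hL : 1 ≤ L) :
    ∃ R : ℝ, 1 ≤ R ∧ ∃ ε₀ : ℝ, 0 < ε₀ ∧ ∃ C' : ℝ, 1 ≤ C' ∧ ∀ ε : ℝ, 0 < ε → ε ≤ ε₀ →
      ∀ (U : Set (X × (D → ℝ))) (e e' : X × (D → ℝ) → X × (D → ℝ)), NI W' ε L U e e' →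
      ∃ E E' : X × (D → ℝ) → X × (D → ℝ),
        NI W (C' * ε) C' {p | ∀ q : X × (D → ℝ), ‖sc (W p) (q - p)‖ ≤ R → β q ∈ U} E E' ∧
        (∀ p : X × (D → ℝ), (∀ q : X × (D → ℝ), ‖sc (W p) (q - p)‖ ≤ R → β q ∈ U) →
          (∀ q : X × (D → ℝ), ‖sc (W p) (q - p)‖ ≤ R → e (β q) = β q ∧ e' (β q) = β q) → E p = p ∧ E' p = p) ∧
        (∀ p : X × (D → ℝ), (∀ q : X × (D → ℝ), ‖sc (W p) (q - p)‖ ≤ R → β q ∈ U) → ¬ need p.2 →
          (∀ q : X × (D → ℝ), ‖sc (W p) (q - p)‖ ≤ r → β q = q) → E p = e p ∧ E' p = e' p) := by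
  have hC1 : 1 ≤ C := h.C1
  have hC0 : 0 < C := by linarith
  have hr0 : 0 < r := h.r0
  have hC4 : 1 ≤ C ^ 4 := one_le_pow₀ hC1
  have hC14 : 1 ≤ C ^ 14 := one_le_pow₀ hC1
  have hL3 : 1 ≤ L ^ 3 := one_le_pow₀ hL
  refine ⟨3 * C, by linarith, min (r / (32 * C)) (1 / (10 ^ 8 * C ^ 4)), ?_, 10 ^ 16 * C ^ 14 * L ^ 3, ?_, ?_⟩
  · exact lt_min (by positivity) (by positivity)
  · have h1 : 1 ≤ C ^ 14 * L ^ 3 := one_le_mul_of_one_le_of_one_le hC14 hL3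
    nlinarith
  intro ε hε0 hεle U e e' hN
  have hεa : ε ≤ r / (32 * C) := hεle.trans (min_le_left _ _)
  have hεb : ε ≤ 1 / (10 ^ 8 * C ^ 4) := hεle.trans (min_le_right _ _)
  have hε : C * ε ≤ r / 32 := by
    rw [le_div_iff₀ (by positivity)] at hεa
    rw [le_div_iff₀ (by norm_num)]
    linarith
  have hε1 : 10 ^ 8 * C ^ 4 * ε ≤ 1 := by
    rw [le_div_iff₀ (by positivity)] at hεb
    linarith
  have hC24 : C ^ 2 ≤ C ^ 4 := pow_le_pow_right₀ hC1 (by norm_num)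
  have hε2 : C ^ 2 * ε ≤ 1 / 3400 := by
    have h1 : C ^ 2 * ε ≤ C ^ 4 * ε := mul_le_mul_of_nonneg_right hC24 hε0.le
    linarith
  have hε2' : 0 ≤ C ^ 2 * ε := by positivity
  have hL4 : 1 ≤ C ^ 4 * L := one_le_mul_of_one_le_of_one_le hC4 hL
  have hNs := hN.symm
  choose Φ Φ' hΦ using fun z l => T0_fills (bl W β r e z l) (bl W β r e' z l)
    (T5_bl_pres W β r e h.pres hN.pres z l) (T5_bl_pres W β r e' h.pres hN.pres' z l)
  have hΦs : ∀ z l, Fills (bl W β r e' z l) (bl W β r e z l) (Φ' z l) (Φ z l) := fun z l => (hΦ z l).symm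
  refine ⟨tr Z ℓ need (lift W β r e) Φ, tr Z ℓ need (lift W β r e') Φ', ?_, ?_, ?_⟩
  · have hdC : 10 ^ 5 * C ^ 3 * ε ≤ 10 ^ 16 * C ^ 14 * L ^ 3 * ε := by
      apply mul_le_mul_of_nonneg_right _ hε0.le
      have h1 : C ^ 3 ≤ C ^ 14 := pow_le_pow_right₀ hC1 (by norm_num)
      have h2 : C ^ 14 ≤ C ^ 14 * L ^ 3 := le_mul_of_one_le_right (by positivity) hL3
      have h3 : 0 ≤ C ^ 14 * L ^ 3 := by positivity
      nlinarith
    exact
      { pres := T5_tr_pres W β Z ℓ need r e h.pres hN.pres Φ (fun z l => (hΦ z l).pres)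
        pres' := T5_tr_pres W β Z ℓ need r e' h.pres hN.pres' Φ' (fun z l => (hΦ z l).pres')
        disp := fun p hp => (T3_disp h hN hε0.le hε hε2 hL Φ Φ' hΦ p hp).trans hdC
        disp' := fun p hp => (T3_disp h hNs hε0.le hε hε2 hL Φ' Φ hΦs p hp).trans hdC
        lip := fun p hp => T3_lip h hN hε0.le hε hε2 hL Φ Φ' hΦ p hp
        lip' := fun p hp => T3_lip h hNs hε0.le hε hε2 hL Φ' Φ hΦs p hp
        inv := fun p hp hp' => T4_inv h hN hε0.le hε hε1 hL Φ Φ' hΦ p hp hp'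
        inv' := fun p hp hp' => T4_inv h hNs hε0.le hε hε1 hL Φ' Φ hΦs p hp hp' }
  · intro p hp hid
    have hself : ‖sc (W p) (p - p)‖ ≤ 3 * C := by
      rw [T0b_self]
      positivity
    by_cases hc : need p.2 ∧ gau Z ℓ p.2 < 11 / 10
    · have hn := hc.1
      have hg : gau Z ℓ p.2 < 6 / 5 := hc.2.trans (by norm_num)
      obtain ⟨hs1, hs2⟩ := T3_star h hN hε hL p hp hn hg
      have hbl : ∀ v : D → ℝ, 21 / 20 < ‖v‖ → ‖v‖ < 6 / 5 →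
          bl W β r e (Z p.2) (ℓ p.2) (p.1, v) = (p.1, v) ∧
          bl W β r e' (Z p.2) (ℓ p.2) (p.1, v) = (p.1, v) := by
        intro v hv1 hv2
        have hv3 := hid _ (hs1 v hv2)
        exact ⟨T5_bl_id h e p.2 hn p.1 v hv1 hv2 hv3.1, T5_bl_id h e' p.2 hn p.1 v hv1 hv2 hv3.2⟩
      have hgau : ‖(bo (Z p.2) (ℓ p.2) p).2‖ < 6 / 5 := hg
      have hfin := (hΦ (Z p.2) (ℓ p.2)).idp p.1 (C ^ 2 * ε) (C ^ 4 * L) hL4 hε2' hε2 hs2 hbl
        (bo (Z p.2) (ℓ p.2) p).2 hgau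
      have hbo : bo (Z p.2) (ℓ p.2) p = (p.1, (bo (Z p.2) (ℓ p.2) p).2) := rfl
      rw [← hbo] at hfin
      have hbb := T0b_bibo (Z p.2) (ℓ p.2) (h.lpos p.2) p
      constructor
      · unfold tr
        rw [if_pos hc, hfin.1, hbb]
      · unfold tr
        rw [if_pos hc, hfin.2, hbb]
    · have hg : need p.2 → 1 ≤ gau Z ℓ p.2 := by
        intro hn
        by_contra hlt
        push Not at hlt
        exact hc ⟨hn, hlt.trans (by norm_num)⟩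
      have he := hid p hself
      constructor
      · unfold tr
        rw [if_neg hc]
        exact T1_id h p hg he.1
      · unfold tr
        rw [if_neg hc]
        exact T1_id h p hg he.2
  · intro p hp hn hidr
    have hself : ‖sc (W p) (p - p)‖ ≤ 3 * C := by
      rw [T0b_self]
      positivity
    have hU : β p ∈ U := hp p hself
    have hc : ¬ (need p.2 ∧ gau Z ℓ p.2 < 11 / 10) := fun hc => hn hc.1
    constructor
    · unfold tr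
      rw [if_neg hc]
      exact T1_eq h hN hε p (fun hn' => absurd hn' hn) hU hidr
    · unfold tr
      rw [if_neg hc]
      exact T1_eq h hNs hε p (fun hn' => absurd hn' hn) hU hidr

end H80.LD
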